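import Pool.Agent.R915.Q1

/-!
# Cubic fourfolds containing a plane: rationality and small discriminants
-/

set_option autoImplicit false

namespace Pool.Agent.R915.Q

open Pool.Agent.Y95.Q Pool.Agent.Y95.Q.H4

variable {X : CubicFourfold} {H : H4 X}

/-- the discriminant of the group spanned by `h`, `u` and `v` -/
def disc3 (H : H4 X) (u v : Fin 23 → ℤ) : ℤ :=
  Matrix.det !![H.ip H.h H.h, H.ip H.h u, H.ip H.h v;
    H.ip H.h u, H.ip u u, H.ip u v;
    H.ip H.h v, H.ip u v, H.ip v v]

theorem three_disc3 (hH : H.IsCohomology) (u v : Fin 23 → ℤ) :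
    3 * disc3 H u v = H.disc u * H.disc v - bb H u v ^ 2 := by
  simp only [disc3, Matrix.det_fin_three, H4.disc, bb, hH.h_self]
  simp
  ring

theorem disc_nonneg (hH : H.IsCohomology) {v : Fin 23 → ℤ} (hv : H.IsHodge v) :
    0 ≤ H.disc v := by
  have h1 := hH.nonneg (H.isHodge_add (H.isHodge_smul 3 hv)
    (H.isHodge_smul (-H.ip H.h v) hH.h_hodge))
  simp only [ip_add_left, ip_add_right, ip_smul_left, ip_smul_right, hH.h_self,
    hH.comm v H.h] at h1
  have h2 : H.disc v = 3 * H.ip v v - H.ip H.h v ^ 2 := rfl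
  nlinarith

theorem isPl_cl (hH : H.IsCohomology) (P : X.Plane) : H.IsPl (H.cl P) :=
  (hH.cl_range _).1 ⟨P, rfl⟩

theorem disc_plane (hH : H.IsCohomology) (P : X.Plane) : H.disc (H.cl P) = 8 := by
  have h := isPl_cl hH P
  have h1 : H.ip H.h (H.cl P) = 1 := (hH.comm _ _).trans h.2.1
  simp only [H4.disc, h1, h.2.2]
  norm_num

theorem odd_of_odd_bb (hH : H.IsCohomology) (P : X.Plane) {v : Fin 23 → ℤ}
    (h : Odd (bb H (H.cl P) v)) : Odd (H.ip v (H.h - H.cl P)) := by
  have hp := isPl_cl hH P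
  have h1 : H.ip H.h (H.cl P) = 1 := (hH.comm _ _).trans hp.2.1
  simp only [bb, h1, one_mul] at h
  rw [ip_sub_right, hH.comm v H.h, hH.comm v (H.cl P)]
  have h2 : H.ip H.h v - H.ip (H.cl P) v = (3 * H.ip (H.cl P) v - H.ip H.h v) +
    2 * (H.ip H.h v - 2 * H.ip (H.cl P) v) := by ring
  rw [h2]
  exact h.add_even (even_two_mul _)

theorem of_odd (hH : H.IsCohomology) (P : X.Plane) {v : Fin 23 → ℤ} (hv : H.IsHodge v)
    (h : Odd (bb H (H.cl P) v)) : X.IsRational ∧ HasHilbertSquare H :=
  ⟨hH.hassett P v hv (odd_of_odd_bb hH P h),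
    hilb_of_eight hH (isPl_cl hH P).1 (disc_plane hH P) hv (Or.inl h)⟩

/-- reduction of a class modulo the plane -/
theorem exists_reduced (hH : H.IsCohomology) (P : X.Plane) {v : Fin 23 → ℤ}
    (hv : H.IsHodge v) : ∃ k : ℤ, H.IsHodge (v - k • H.cl P) ∧
      -4 ≤ bb H (H.cl P) (v - k • H.cl P) ∧ bb H (H.cl P) (v - k • H.cl P) ≤ 4 ∧
      bb H (H.cl P) v = bb H (H.cl P) (v - k • H.cl P) + 8 * k ∧
      H.disc (v - k • H.cl P) = H.disc v - 2 * k * bb H (H.cl P) v + 8 * k ^ 2 := by
  set β := bb H (H.cl P) v with hβ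
  have e1 : ∀ k : ℤ, v - k • H.cl P = (1 : ℤ) • v + (-k) • H.cl P := fun k => by
    rw [one_smul, neg_smul]; abel
  have e2 : ∀ k : ℤ, bb H (H.cl P) (v - k • H.cl P) = β - 8 * k := fun k => by
    rw [e1, bb_comm hH, bb_comb_left, bb_comm hH v, ← hβ, ← disc_eq_bb, disc_plane hH]
    ring
  have e3 : ∀ k : ℤ, H.disc (v - k • H.cl P) = H.disc v - 2 * k * β + 8 * k ^ 2 := fun k => by
    rw [e1, disc_lin hH, bb_comm hH v, ← hβ, disc_plane hH]
    ring
  refine ⟨(β + 4) / 8, H.isHodge_sub hv (H.isHodge_smul _ (isPl_cl hH P).1), ?_, ?_, ?_, e3 _⟩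
  · rw [e2]; omega
  · rw [e2]; omega
  · rw [e2]; omega

/-- the discriminants `14`, `26`, `38`, `42` are known to be rational -/
def KnownRational (H : H4 X) : Prop :=
  ∀ v, H.IsHodge v → (H.disc v = 14 ∨ H.disc v = 26 ∨ H.disc v = 38 ∨ H.disc v = 42) →
    X.IsRational

theorem rational_of_small (hH : H.IsCohomology) (hR : KnownRational H) (P : X.Plane)
    {v : Fin 23 → ℤ} (hv : H.IsHodge v) (h4 : ¬ 4 ∣ H.disc v)
    (h : H.disc v * 8 - bb H (H.cl P) v ^ 2 < 384) : X.IsRational ∧ HasHilbertSquare H := by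
  rcases Int.even_or_odd (bb H (H.cl P) v) with he | ho
  swap
  · exact of_odd hH P hv ho
  refine ⟨?_, hilb_of_eight hH (isPl_cl hH P).1 (disc_plane hH P) hv (Or.inr h4)⟩
  obtain ⟨k, hw, hr1, hr2, hr3, hr4⟩ := exists_reduced hH P hv
  set w := v - k • H.cl P with hwdef
  set β := bb H (H.cl P) v with hβ
  set r := bb H (H.cl P) w with hr
  obtain ⟨b, hb⟩ := he
  obtain ⟨d, hd⟩ := disc_even hH v
  obtain ⟨d', hd'⟩ := disc_even hH w
  have hd0 := disc_nonneg hH hw
  have h4w : H.disc w % 4 = 2 := by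
    have : 2 * k * β = 4 * (k * b) := by rw [hb]; ring
    rw [this] at hr4
    omega
  have hr16 : r ^ 2 ≤ 16 := by nlinarith
  have hlt : H.disc w < 50 := by
    have : H.disc w * 8 - r ^ 2 = H.disc v * 8 - β ^ 2 := by
      rw [hr4, hr3]
      ring
    linarith
  have h6 := hH.six_lt hw (by omega)
  have hm := disc_mod (H := H) w
  have hcases : H.disc w = 14 ∨ H.disc w = 18 ∨ H.disc w = 26 ∨ H.disc w = 30 ∨
      H.disc w = 38 ∨ H.disc w = 42 := by omega
  have hsum : H.disc (w + H.cl P) = H.disc w + 2 * r + 8 := by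
    rw [disc_add hH, bb_comm hH w, disc_plane hH]
  have hpl := (isPl_cl hH P).1
  have hrz : H.disc w % 3 = 0 → r = 0 := by
    intro h3
    obtain ⟨c, hc⟩ := three_dvd_bb (H := H) h3 (H.cl P)
    rw [bb_comm hH, ← hr] at hc
    omega
  rcases hcases with h1 | h1 | h1 | h1 | h1 | h1
  · exact hR w hw (by omega)
  · exact hR (w + H.cl P) (H.isHodge_add hw hpl) (by rw [hsum, hrz (by omega)]; omega)
  · exact hR w hw (by omega)
  · exact hR (w + H.cl P) (H.isHodge_add hw hpl) (by rw [hsum, hrz (by omega)]; omega)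
  · exact hR w hw (by omega)
  · exact hR w hw (by omega)

/-- the generators -/
def Small (H : H4 X) (P : X.Plane) : Set (Fin 23 → ℤ) :=
  insert H.h {w | H.IsHodge w ∧ disc3 H (H.cl P) w ≤ 64}

theorem dichotomy (hH : H.IsCohomology) (hR : KnownRational H) (P : X.Plane)
    (hn : ¬ (X.IsRational ∧ HasHilbertSquare H)) (v : Fin 23 → ℤ)
    (hv : v ∈ AddSubgroup.closure (Small H P)) : 4 ∣ H.disc v := by
  have hE : ∀ T, H.IsHodge T → Even (bb H (H.cl P) T) := by
    intro T hT
    by_contra hcon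
    rw [Int.not_even_iff_odd] at hcon
    exact hn (of_odd hH P hT hcon)
  have hS : ∀ v, H.IsHodge v → H.disc v * 8 - bb H (H.cl P) v ^ 2 < 384 → 4 ∣ H.disc v := by
    intro v hv h
    by_contra hcon
    exact hn (rational_of_small hH hR P hv hcon h)
  have hpair : ∀ v v', H.IsHodge v → H.IsHodge v' → disc3 H (H.cl P) v ≤ 64 →
      disc3 H (H.cl P) v' ≤ 64 → Even (bb H v v') := by
    intro v v' hv hv' h h'
    have t := three_disc3 hH (H.cl P) v
    have t' := three_disc3 hH (H.cl P) v'
    rw [disc_plane hH] at t t'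
    obtain ⟨k, hw, hr1, hr2, hr3, hr4⟩ := exists_reduced hH P hv
    obtain ⟨k', hw', hr1', hr2', hr3', hr4'⟩ := exists_reduced hH P hv'
    set w := v - k • H.cl P with hwdef
    set w' := v' - k' • H.cl P with hwdef'
    have key : ∀ (w v : Fin 23 → ℤ) (k : ℤ), H.IsHodge w → disc3 H (H.cl P) v ≤ 64 →
        3 * disc3 H (H.cl P) v = 8 * H.disc v - bb H (H.cl P) v ^ 2 →
        -4 ≤ bb H (H.cl P) w → bb H (H.cl P) w ≤ 4 →
        bb H (H.cl P) v = bb H (H.cl P) w + 8 * k →
        H.disc w = H.disc v - 2 * k * bb H (H.cl P) v + 8 * k ^ 2 →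
        4 ∣ H.disc w ∧ H.disc w ≤ 24 := by
      intro w v k hw h t h1 h2 h3 h4
      have hr16 : bb H (H.cl P) w ^ 2 ≤ 16 := by nlinarith
      have e : H.disc w * 8 - bb H (H.cl P) w ^ 2 = 3 * disc3 H (H.cl P) v := by
        rw [t, h4, h3]
        ring
      have h5 : 4 ∣ H.disc w := hS w hw (by linarith)
      refine ⟨h5, ?_⟩
      have : H.disc w * 8 ≤ 208 := by linarith
      omega
    obtain ⟨d1, d2⟩ := key w v k hw h t hr1 hr2 hr3 hr4
    obtain ⟨d1', d2'⟩ := key w' v' k' hw' h' t' hr1' hr2' hr3' hr4'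
    have hww : Even (bb H w w') := by
      by_contra hcon
      rw [Int.not_even_iff_odd] at hcon
      obtain ⟨i, hi⟩ := hcon
      have hu : ∀ ε : ℤ, ε ^ 2 = 1 → 0 < ε * bb H w w' → False := by
        intro ε hε hpos
        have hd : H.disc ((1 : ℤ) • w + (-ε) • w') =
            H.disc w - 2 * (ε * bb H w w') + H.disc w' := by
          rw [disc_lin hH]
          linear_combination H.disc w' * hε
        have hmem : H.IsHodge ((1 : ℤ) • w + (-ε) • w') :=
          H.isHodge_add (H.isHodge_smul _ hw) (H.isHodge_smul _ hw')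
        have h1 : 4 ∣ H.disc ((1 : ℤ) • w + (-ε) • w') := by
          apply hS _ hmem
          have := sq_nonneg (bb H (H.cl P) ((1 : ℤ) • w + (-ε) • w'))
          rw [hd] at *
          omega
        rw [hd, hi] at h1
        have hε' : (ε - 1) * (ε + 1) = 0 := by linear_combination hε
        rcases mul_eq_zero.1 hε' with h | h
        · have h : ε = 1 := by linarith
          rw [h] at h1; omega
        · have h : ε = -1 := by linarith
          rw [h] at h1; omega
      rcases lt_trichotomy (bb H w w') 0 with h0 | h0 | h0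
      · exact hu (-1) (by norm_num) (by linarith)
      · omega
      · exact hu 1 (by norm_num) (by linarith)
    have hv1 : v = w + k • H.cl P := by rw [hwdef]; abel
    have hv2 : v' = w' + k' • H.cl P := by rw [hwdef']; abel
    have hbb : bb H v v' = bb H w w' + (k' * bb H (H.cl P) w + k * bb H (H.cl P) v') := by
      have a1 : bb H v v' = bb H w v' + k * bb H (H.cl P) v' := by
        conv_lhs => rw [hv1]
        rw [bb_add_left, bb_smul_left]
      have a2 : bb H w v' = bb H w w' + k' * bb H (H.cl P) w := by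
        conv_lhs => rw [hv2]
        rw [bb_comm hH, bb_add_left, bb_smul_left, bb_comm hH w' w]
      rw [a1, a2]
      ring
    rw [hbb]
    exact hww.add (((hE w hw).mul_left _).add ((hE v' hv').mul_left _))
  have hgen : ∀ s ∈ Small H P, ∀ s' ∈ Small H P, Even (bb H s s') := by
    rintro s (rfl | hs) s' (rfl | hs')
    · rw [bb_h_left hH]; exact Even.zero
    · rw [bb_h_left hH]; exact Even.zero
    · rw [bb_comm hH, bb_h_left hH]; exact Even.zero
    · exact hpair s s' hs.1 hs'.1 hs.2 hs'.2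
  have hz : ∀ s, bb H 0 s = 0 := by
    intro s
    have := bb_smul_left (H := H) 0 0 s
    rwa [zero_smul, zero_mul] at this
  have hneg : ∀ u s, bb H (-u) s = - bb H u s := by
    intro u s
    have := bb_smul_left (H := H) (-1) u s
    rwa [neg_one_smul, neg_one_mul] at this
  have h1 : ∀ u ∈ AddSubgroup.closure (Small H P), ∀ s ∈ Small H P, Even (bb H u s) := by
    intro u hu
    induction hu using AddSubgroup.closure_induction with
    | mem x hx => exact fun s hs => hgen x hx s hs
    | zero => intro s _; rw [hz]; exact Even.zero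
    | add x y _ _ hx hy => intro s hs; rw [bb_add_left]; exact (hx s hs).add (hy s hs)
    | neg x _ hx => intro s hs; rw [hneg]; exact (hx s hs).neg
  have h2 : ∀ u ∈ AddSubgroup.closure (Small H P), ∀ u' ∈ AddSubgroup.closure (Small H P),
      Even (bb H u u') := by
    intro u hu
    induction hu using AddSubgroup.closure_induction with
    | mem x hx => exact fun u' hu' => by rw [bb_comm hH]; exact h1 u' hu' x hx
    | zero => intro s _; rw [hz]; exact Even.zero
    | add x y _ _ hx hy => intro s hs; rw [bb_add_left]; exact (hx s hs).add (hy s hs)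
    | neg x _ hx => intro s hs; rw [hneg]; exact (hx s hs).neg
  induction hv using AddSubgroup.closure_induction with
  | mem x hx =>
    rcases hx with rfl | hx
    · rw [disc_eq_bb, bb_h_left hH]; exact dvd_zero _
    · apply hS x hx.1
      have t := three_disc3 hH (H.cl P) x
      rw [disc_plane hH] at t
      have := hx.2
      linarith
  | zero => rw [disc_eq_bb, hz]; exact dvd_zero _
  | add x y hx hy hx' hy' =>
    rw [disc_add hH]
    obtain ⟨e, he⟩ := h2 x hx y hy
    rw [he]
    omega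
  | neg x _ hx =>
    rw [disc_eq_bb, hneg, bb_comm hH, hneg, neg_neg, ← disc_eq_bb]
    exact hx

end Pool.Agent.R915.Q
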