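import Mathlib
import Pool.Agent.Y90.Wei8

/-!
# Eigenspaces of square roots of negative rational numbers
-/

set_option linter.unusedSectionVars false

namespace Pool.Agent.R915

open Matrix Module Pool.Agent.W437.HC Pool.Agent.W437.HD Pool.Agent.TH504.CB Pool.Agent.Y90
open Pool.Agent.W548.Odd hiding cv
open Pool.Agent.H204R3.CM (IsHodge)
open Pool.Agent.H204R3.SP (Kills)
open Pool.Agent.W437.HP (cK cK_mul cK_one)
open scoped ComplexOrder

noncomputable section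

/-- The subspace `U` is the eigenspace, with the eigenvalue `α`, of an endomorphism `φ` with
`φ ^ 2 = - d`, it is isotropic and of half the dimension. -/
structure KW {g : ℕ} (Z : Matrix (Fin g) (Fin g) ℂ) (U : Submodule ℂ (Fin g ⊕ Fin g → ℂ))
    (φ : Matrix (Fin g ⊕ Fin g) (Fin g ⊕ Fin g) ℚ) (α : ℂ) (d : ℚ) : Prop where
  dim : finrank ℂ U = g
  comm : ∀ X ∈ LZ Z, X * qm φ = qm φ * X
  pos : 0 < d
  sq : φ * φ = -(d • (1 : Matrix (Fin g ⊕ Fin g) (Fin g ⊕ Fin g) ℚ))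
  al : α * α = -(d : ℂ)
  mem : ∀ v, v ∈ U ↔ qm φ *ᵥ v = α • v
  isot : ∀ u ∈ U, ∀ v ∈ U, om g u v = 0

theorem KW.stab {g : ℕ} {Z : Matrix (Fin g) (Fin g) ℂ} {U : Submodule ℂ (Fin g ⊕ Fin g → ℂ)}
    {φ : Matrix (Fin g ⊕ Fin g) (Fin g ⊕ Fin g) ℚ} {α : ℂ} {d : ℚ} (k : KW Z U φ α d) :
    Stab (LZ Z) U := by
  intro X hX u hu
  rw [k.mem, mulVec_mulVec, ← k.comm X hX, ← mulVec_mulVec, (k.mem u).1 hu, mulVec_smul]

theorem KW.iso {g : ℕ} {Z : Matrix (Fin g) (Fin g) ℂ} {U : Submodule ℂ (Fin g ⊕ Fin g → ℂ)}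
    {φ : Matrix (Fin g ⊕ Fin g) (Fin g ⊕ Fin g) ℚ} {α : ℂ} {d : ℚ} (_ : PM Z) (k : KW Z U φ α d)
    {u v : Fin g ⊕ Fin g → ℂ} (hu : u ∈ U) (hv : v ∈ U) : om g u v = 0 := k.isot u hu v hv

section one

variable {G a : ℕ} {Z : Matrix (Fin G) (Fin G) ℂ} {Z' : Matrix (Fin a) (Fin a) ℂ}
  {U U' : Submodule ℂ (Fin G ⊕ Fin G → ℂ)}

theorem KW.cj {φ : Matrix (Fin G ⊕ Fin G) (Fin G ⊕ Fin G) ℚ} {α : ℂ} {d : ℚ}
    (h : KW Z U φ α d) (τ : ℂ ≃+* ℂ) (v : Fin G ⊕ Fin G → ℂ) :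
    v ∈ cjS τ U ↔ qm φ *ᵥ v = τ α • v := by
  rw [mem_cjS, h.mem]
  have hq : (qm φ).map τ = qm φ := cK_aut τ φ
  have hq' : (qm φ).map τ.symm = qm φ := cK_aut τ.symm φ
  constructor
  · intro h1
    have h2 := map_mulVec_aut τ (qm φ) (fun i => τ.symm (v i))
    rw [h1, hq] at h2
    have h3 : (fun i => τ (τ.symm (v i))) = v := by
      funext i
      simp
    rw [h3] at h2
    rw [← h2]
    funext i
    simp
  · intro h1
    have h2 := map_mulVec_aut τ.symm (qm φ) v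
    rw [h1, hq'] at h2
    rw [← h2]
    funext i
    simp

theorem KW.cc_al {φ : Matrix (Fin G ⊕ Fin G) (Fin G ⊕ Fin G) ℚ} {α : ℂ} {d : ℚ}
    (h : KW Z U φ α d) : cc α = -α := by
  rcases aut_pm h.al cc with h1 | h1
  · exfalso
    have h2 : α * (starRingEnd ℂ) α = (Complex.normSq α : ℂ) := Complex.mul_conj α
    have h3 : (starRingEnd ℂ) α = α := h1
    rw [h3, h.al] at h2
    have h4 : (-(d : ℝ)) = Complex.normSq α := by exact_mod_cast h2
    have h5 : (0 : ℝ) < d := by exact_mod_cast h.pos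
    have h6 := Complex.normSq_nonneg α
    linarith
  · exact h1

theorem KW.tr_cj {φ : Matrix (Fin G ⊕ Fin G) (Fin G ⊕ Fin G) ℚ} {α : ℂ} {d : ℚ}
    (h : KW Z U φ α d) (τ : ℂ ≃+* ℂ) :
    (τ α = α ∧ tr Z (cjS τ U) = tr Z U) ∨ (τ α = -α ∧ tr Z (cjS τ U) = -tr Z U) := by
  rcases aut_pm h.al τ with h1 | h1
  · left
    refine ⟨h1, ?_⟩
    have h2 : cjS τ U = U := by
      ext v
      rw [h.cj, h1, h.mem]
    rw [h2]
  · right
    refine ⟨h1, ?_⟩
    have h2 : cjS τ U = cjS cc U := by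
      ext v
      rw [h.cj, h.cj, h1, h.cc_al]
    rw [h2]
    unfold tr
    rw [pd_cc, qd_cc]
    ring

theorem KW.al_ne {φ : Matrix (Fin G ⊕ Fin G) (Fin G ⊕ Fin G) ℚ} {α : ℂ} {d : ℚ}
    (h : KW Z U φ α d) : α ≠ 0 := by
  rintro rfl
  have h1 := h.al
  rw [mul_zero, eq_comm, neg_eq_zero] at h1
  have h2 : d = 0 := by exact_mod_cast h1
  exact h.pos.ne' h2


end one

section two

variable {a : ℕ} {Z : Matrix (Fin a) (Fin a) ℂ} {U : Submodule ℂ (Fin a ⊕ Fin a → ℂ)}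
  {φ : Matrix (Fin a ⊕ Fin a) (Fin a ⊕ Fin a) ℚ} {α : ℂ} {d : ℚ}

/-- Scaling. -/
theorem KW.scale (h : KW Z U φ α d) {c : ℚ} (hc : c ≠ 0) : KW Z U (c • φ) (c * α) (c * c * d) where
  dim := h.dim
  comm X hX := by rw [qm_smul, Matrix.mul_smul, Matrix.smul_mul, h.comm X hX]
  pos := mul_pos (mul_self_pos.2 hc) h.pos
  sq := by
    rw [Matrix.smul_mul, Matrix.mul_smul, h.sq, smul_neg, smul_neg, smul_smul, smul_smul]
  al := by
    have h1 := h.al
    push_cast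
    linear_combination (c : ℂ) * c * h1
  mem v := by
    have hc' : (c : ℂ) ≠ 0 := by exact_mod_cast hc
    rw [h.mem, qm_smul, smul_mulVec, mul_smul]
    constructor
    · intro h1
      rw [h1]
    · intro h1
      exact smul_right_injective _ hc' h1
  isot := h.isot


theorem KW.sqv (h : KW Z U φ α d) (v : Fin a ⊕ Fin a → ℂ) :
    qm φ *ᵥ (qm φ *ᵥ v) = (α * α) • v := by
  rw [mulVec_mulVec, ← qm_mul, h.sq, h.al]
  have h1 : qm (-(d • (1 : Matrix (Fin a ⊕ Fin a) (Fin a ⊕ Fin a) ℚ))) = (-(d : ℂ)) • 1 := by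
    ext i j
    simp only [Matrix.map_apply, Matrix.neg_apply, Matrix.smul_apply, Matrix.one_apply, smul_eq_mul]
    split_ifs <;> simp
  rw [h1, smul_mulVec, one_mulVec]

theorem KW.pj_mem (h : KW Z U φ α d) (v : Fin a ⊕ Fin a → ℂ) : pj φ α v ∈ U := by
  rw [h.mem, pj_apply, mulVec_smul, mulVec_add, h.sqv, mulVec_smul]
  module

theorem KW.pj_of_mem (h : KW Z U φ α d) {v : Fin a ⊕ Fin a → ℂ} (hv : v ∈ U) : pj φ α v = v := by
  have h0 := h.al_ne
  rw [pj_apply, (h.mem v).1 hv, ← two_smul ℂ (α • v), smul_smul, smul_smul]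
  have h1 : (2 * α)⁻¹ * (2 * α) = 1 := inv_mul_cancel₀ (mul_ne_zero two_ne_zero h0)
  rw [mul_assoc, h1, one_smul]

/-- The projection to the eigenspace. -/
def KW.pU (h : KW Z U φ α d) : (Fin a ⊕ Fin a → ℂ) →ₗ[ℂ] U := (pj φ α).codRestrict U h.pj_mem

theorem KW.pU_coe (h : KW Z U φ α d) (v : Fin a ⊕ Fin a → ℂ) :
    (h.pU v : Fin a ⊕ Fin a → ℂ) = pj φ α v := rfl

theorem KW.pU_phi (h : KW Z U φ α d) (v : Fin a ⊕ Fin a → ℂ) : h.pU (qm φ *ᵥ v) = α • h.pU v := by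
  apply Subtype.ext
  change pj φ α _ = α • pj φ α v
  rw [pj_apply, pj_apply, h.sqv]
  module

theorem KW.pU_comm (h : KW Z U φ α d) {X : Matrix (Fin a ⊕ Fin a) (Fin a ⊕ Fin a) ℂ}
    (hX : X ∈ LZ Z) (v : Fin a ⊕ Fin a → ℂ) :
    (h.pU (X *ᵥ v) : Fin a ⊕ Fin a → ℂ) = X *ᵥ (h.pU v : Fin a ⊕ Fin a → ℂ) := by
  rw [h.pU_coe, h.pU_coe, pj_apply, pj_apply, mulVec_smul, mulVec_add, mulVec_smul, mulVec_mulVec,
    mulVec_mulVec, h.comm X hX]

theorem KW.pU_of_mem (h : KW Z U φ α d) {v : Fin a ⊕ Fin a → ℂ} (hv : v ∈ U) :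
    h.pU v = ⟨v, hv⟩ := Subtype.ext (h.pj_of_mem hv)

/-- The determinant form. -/
def KW.dl (h : KW Z U φ α d) {ι : Type} [Fintype ι] [DecidableEq ι] (f : Basis ι ℂ U) :
    MultilinearMap ℂ (fun _ : ι => Fin a ⊕ Fin a → ℂ) ℂ :=
  f.det.toMultilinearMap.compLinearMap (fun _ => h.pU)

theorem KW.dl_apply (h : KW Z U φ α d) {ι : Type} [Fintype ι] [DecidableEq ι] (f : Basis ι ℂ U)
    (v : ι → Fin a ⊕ Fin a → ℂ) : h.dl f v = f.det (fun y => h.pU (v y)) := rfl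

theorem KW.dl_phi (h : KW Z U φ α d) {ι : Type} [Fintype ι] [DecidableEq ι] (f : Basis ι ℂ U)
    (v : ι → Fin a ⊕ Fin a → ℂ) (y : ι) :
    h.dl f (Function.update v y (qm φ *ᵥ v y)) = α * h.dl f v := by
  rw [h.dl_apply, h.dl_apply]
  have h1 : (fun k => h.pU (Function.update v y (qm φ *ᵥ v y) k)) =
      Function.update (fun k => h.pU (v k)) y (α • h.pU (v y)) := by
    funext k
    by_cases hk : k = y
    · subst hk
      rw [Function.update_self, Function.update_self, h.pU_phi]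
    · rw [Function.update_of_ne hk, Function.update_of_ne hk]
  rw [h1, AlternatingMap.map_update_smul, Function.update_eq_self, smul_eq_mul]

theorem KW.dl_tor (hZ : PM Z) (h : KW Z U φ α d) {ι : Type} [Fintype ι] [DecidableEq ι]
    (f : Basis ι ℂ U) (σ : ℂ ≃+* ℂ) (v : ι → Fin a ⊕ Fin a → ℂ) :
    h.dl f (fun y => torE (ph _ (DS Z σ)) two (v y)) =
      (2 : ℂ) ^ tr Z (cjS σ.symm U) * h.dl f v := by
  have hst := rz_stable hZ h.stab (gs hZ σ)
  rw [h.dl_apply, h.dl_apply, ← det_gs hZ h.stab σ hst, ← Basis.det_comp]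
  congr 1
  funext y
  apply Subtype.ext
  change (h.pU (torE (ph _ (DS Z σ)) two (v y)) : Fin a ⊕ Fin a → ℂ) =
    torE (ph _ (DS Z σ)) two (h.pU (v y))
  rw [torE_two, torE_two, map_add, map_smul, map_smul]
  change (5 / 4 : ℂ) • (h.pU (v y) : Fin a ⊕ Fin a → ℂ) +
    (3 / 4 : ℂ) • (h.pU (DS Z σ *ᵥ v y) : Fin a ⊕ Fin a → ℂ) = _
  rw [h.pU_comm (DS_mem σ)]
  rfl


theorem KW.mem_cj (k : KW Z U φ α d) (v : Fin a ⊕ Fin a → ℂ) :
    cnj v ∈ U ↔ qm φ *ᵥ v = -α • v := by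
  have h1 := k.cj cc v
  rw [k.cc_al] at h1
  exact h1

theorem KW.iso' (h : PM Z) (k : KW Z U φ α d) {u v : Fin a ⊕ Fin a → ℂ} (hu : cnj u ∈ U)
    (hv : cnj v ∈ U) : om a u v = 0 := by
  have h1 := k.iso h hu hv
  have h2 := om_conj cc (cnj u) (cnj v)
  rw [h1, map_zero] at h2
  have h3 : om a (fun i => cc (cnj u i)) (fun i => cc (cnj v i)) = om a u v := by
    change om a (cnj (cnj u)) (cnj (cnj v)) = _
    rw [cnj_cnj, cnj_cnj]
  rw [h3] at h2
  exact h2.symm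

/-- The complementary projection. -/
theorem KW.compl (k : KW Z U φ α d) (v : Fin a ⊕ Fin a → ℂ) : cnj (v - pj φ α v) ∈ U := by
  have h0 := k.al_ne
  have h1 : qm φ *ᵥ v = (2 * α) • pj φ α v - α • v := by
    rw [pj_apply, smul_smul, mul_inv_cancel₀ (mul_ne_zero two_ne_zero h0), one_smul,
      add_sub_cancel_right]
  rw [k.mem_cj, mulVec_sub, (k.mem _).1 (k.pj_mem v), h1]
  module

/-- The Rosati involution. -/
theorem KW.skew (h : PM Z) (k : KW Z U φ α d) (u v : Fin a ⊕ Fin a → ℂ) :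
    om a (qm φ *ᵥ u) v = -om a u (qm φ *ᵥ v) := by
  obtain ⟨u₁, u₂, hu₁, hu₂, rfl⟩ : ∃ u₁ u₂, u₁ ∈ U ∧ cnj u₂ ∈ U ∧ u = u₁ + u₂ :=
    ⟨_, _, k.pj_mem u, k.compl u, by abel⟩
  obtain ⟨v₁, v₂, hv₁, hv₂, rfl⟩ : ∃ u₁ u₂, u₁ ∈ U ∧ cnj u₂ ∈ U ∧ v = u₁ + u₂ :=
    ⟨_, _, k.pj_mem v, k.compl v, by abel⟩
  rw [mulVec_add, mulVec_add, (k.mem _).1 hu₁, (k.mem _).1 hv₁, (k.mem_cj _).1 hu₂,
    (k.mem_cj _).1 hv₂]
  simp only [map_add, map_smul, LinearMap.add_apply, LinearMap.smul_apply, smul_eq_mul,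
    k.iso h hu₁ hv₁, k.iso' h hu₂ hv₂]
  ring


theorem KW.skewQ (h : PM Z) (k : KW Z U φ α d) (v w : Fin a ⊕ Fin a → ℚ) :
    rE a (φ *ᵥ v) w = -rE a v (φ *ᵥ w) := by
  have h1 : ((rE a (φ *ᵥ v) w : ℚ) : ℂ) = ((-rE a v (φ *ᵥ w) : ℚ) : ℂ) := by
    rw [Rat.cast_neg, rE_cv, rE_cv, cv_mulVec', cv_mulVec', k.skew h]
  exact_mod_cast h1


/-- Rational vectors whose projections are a basis. -/
theorem KW.exists_basis (k : KW Z U φ α d) : ∃ (x : Fin a → (Fin a ⊕ Fin a → ℚ))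
    (b : Basis (Fin a) ℂ U), ∀ j, b j = k.pU (cv (x j)) := by
  let t : Set U := Set.range fun i : Fin a ⊕ Fin a => k.pU (cv (Pi.single i 1))
  have ht : Submodule.span ℂ t = ⊤ := by
    rw [eq_top_iff]
    rintro u _
    have h1 : u = k.pU u := (k.pU_of_mem u.2).symm
    have h2 : (u : Fin a ⊕ Fin a → ℂ) = ∑ i, (u : Fin a ⊕ Fin a → ℂ) i • cv (Pi.single i 1) := by
      funext j
      simp [single_cv, Finset.sum_apply, Pi.single_apply]
    rw [h1, h2, map_sum]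
    refine Submodule.sum_mem _ fun i _ => ?_
    rw [map_smul]
    exact Submodule.smul_mem _ _ (Submodule.subset_span ⟨i, rfl⟩)
  obtain ⟨s, hst, hs1, hs2⟩ := exists_linearIndependent ℂ t
  let b0 : Basis s ℂ U := Basis.mk hs2 (by
    rw [Subtype.range_coe, hs1, ht])
  have hfin : Finite s := Finite.Set.subset t hst
  have : Fintype s := Fintype.ofFinite s
  have hcard : Fintype.card s = a := by
    rw [← finrank_eq_card_basis b0, k.dim]
  let e : s ≃ Fin a := Fintype.equivFinOfCardEq hcard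
  have hx : ∀ j, ∃ x : Fin a ⊕ Fin a → ℚ, b0.reindex e j = k.pU (cv x) := by
    intro j
    obtain ⟨i, hi⟩ := hst (e.symm j).2
    refine ⟨Pi.single i 1, ?_⟩
    rw [Basis.reindex_apply, Basis.mk_apply]
    exact hi.symm
  choose x hx using hx
  exact ⟨x, b0.reindex e, hx⟩


theorem KW.pj_cnj (k : KW Z U φ α d) (x : Fin a ⊕ Fin a → ℚ) :
    cv x = pj φ α (cv x) + cnj (pj φ α (cv x)) := by
  have h0 := k.al_ne
  have h1 : cnj (pj φ α (cv x)) = (2 * -α)⁻¹ • (qm φ *ᵥ cv x + (-α) • cv x) := by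
    rw [pj_apply, cnj_smul, cnj_add, cnj_smul, cnj_mulVec, cnj_cv, map_inv₀, map_mul, map_ofNat,
      k.cc_al]
    have h2 : (qm φ).map cc = qm φ := cK_aut cc φ
    rw [h2]
  rw [h1, pj_apply]
  have h2 : (2 * -α)⁻¹ = -(2 * α)⁻¹ := by
    rw [mul_neg, inv_neg]
  rw [h2]
  have h3 : (2 * α)⁻¹ • (qm φ *ᵥ cv x + α • cv x) + -(2 * α)⁻¹ • (qm φ *ᵥ cv x + -α • cv x) =
      ((2 * α)⁻¹ * (2 * α)) • cv x := by module
  rw [h3, inv_mul_cancel₀ (mul_ne_zero two_ne_zero h0), one_smul]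


/-- The Gram determinants of the Hermitian forms. -/
theorem KW.gram' (h : PM Z) (k : KW Z U φ α d) (x : Fin a → (Fin a ⊕ Fin a → ℚ))
    (b : Basis (Fin a) ℂ U) (hx : ∀ j, b j = k.pU (cv (x j))) :
    ∃ (r : ℚ) (P : ℝ), 0 < P ∧
      (Matrix.of fun i j => ((rE a (x i) (φ *ᵥ x j) : ℚ) : ℂ) +
        α * ((rE a (x i) (x j) : ℚ) : ℂ)).det = r ∧
      (r : ℂ) * (-1) ^ qd Z U = (2 * Complex.I * α) ^ a * P := by
  have h0 := k.al_ne
  let u : Fin a → Fin a ⊕ Fin a → ℂ := fun j => pj φ α (cv (x j))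
  have hu : ∀ j, (b j : Fin a ⊕ Fin a → ℂ) = u j := fun j => by
    rw [hx]
    rfl
  have huU : ∀ j, u j ∈ U := fun j => k.pj_mem _
  let M : Matrix (Fin a) (Fin a) ℂ := Matrix.of fun i j =>
    ((rE a (x i) (φ *ᵥ x j) : ℚ) : ℂ) + α * ((rE a (x i) (x j) : ℚ) : ℂ)
  have hM : ∀ i j, M i j = -(2 * α) * om a (cnj (u i)) (u j) := by
    intro i j
    change ((rE a (x i) (φ *ᵥ x j) : ℚ) : ℂ) + α * ((rE a (x i) (x j) : ℚ) : ℂ) = _
    have h1 : (2 * α) • u j = qm φ *ᵥ cv (x j) + α • cv (x j) := by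
      change (2 * α) • pj φ α (cv (x j)) = _
      rw [pj_apply, smul_smul, mul_inv_cancel₀ (mul_ne_zero two_ne_zero h0), one_smul]
    have h2 := congrArg (om a (cv (x i))) h1
    rw [map_add, map_smul, map_smul, smul_eq_mul, smul_eq_mul] at h2
    have h3 : om a (cv (x i)) (u j) = om a (cnj (u i)) (u j) := by
      conv_lhs => rw [k.pj_cnj (x i)]
      rw [map_add, LinearMap.add_apply]
      have h4 : om a (pj φ α (cv (x i))) (u j) = 0 := k.iso h (huU i) (huU j)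
      rw [h4, zero_add]
    rw [rE_cv, rE_cv, cv_mulVec']
    rw [h3] at h2
    linear_combination h2
  -- the positive definite matrix
  let P : Matrix (Fin a) (Fin a) ℂ := Matrix.of fun i j => hP Z (u i) (u j)
  have hPd : P.PosDef := by
    refine PosDef.of_dotProduct_mulVec_pos ?_ fun c hc => ?_
    · ext i j
      exact hP_symm h (u j) (u i)
    · have hw : ∑ j, c j • u j ≠ 0 := by
        intro h1
        apply hc
        have h2 : ∑ j, c j • b j = 0 := by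
          apply Subtype.ext
          rw [AddSubmonoidClass.coe_finsetSum]
          refine Eq.trans ?_ h1
          refine Finset.sum_congr rfl fun j _ => ?_
          rw [← hu j]
          rfl
        funext j
        exact Fintype.linearIndependent_iff.1 b.linearIndependent c h2 j
      have h1 := h.herm_pos hw
      have h2 : star c ⬝ᵥ (P *ᵥ c) = Complex.I * om a (cnj (∑ j, c j • u j))
          (DZ Z *ᵥ ∑ j, c j • u j) := by
        change _ = hP Z (∑ j, c j • u j) (∑ j, c j • u j)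
        rw [hP_sum_left]
        simp only [dotProduct, mulVec, Pi.star_apply, P, Matrix.of_apply]
        refine Finset.sum_congr rfl fun i _ => ?_
        rw [hP_smul_left, hP_sum_right, Finset.mul_sum, Finset.mul_sum]
        refine Finset.sum_congr rfl fun j _ => ?_
        rw [hP_smul_right]
        change star (c i) * _ = star (c i) * _
        ring
      rw [h2]
      exact h1
  have hdp := hPd.det_pos
  obtain ⟨hre, him⟩ := Complex.lt_def.1 hdp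
  -- the matrix of the complex structure
  have hst : ∀ v ∈ U, ph (Fin a ⊕ Fin a) (DZ Z) v ∈ U := fun v hv => k.stab _ DZ_mem v hv
  let Dm := LinearMap.toMatrix b b ((ph (Fin a ⊕ Fin a) (DZ Z)).restrict hst)
  have hDm : Dm.det = (-1) ^ qd Z U := by
    obtain ⟨e1, e2⟩ := split_eig h k.stab
    rw [LinearMap.det_toMatrix, det_eig e1 e2 (ph (Fin a ⊕ Fin a) (DZ Z)) hst 1 (-1)
      (fun v hv => mem_eig.1 hv.2) (fun v hv => mem_eig.1 hv.2), one_pow, one_mul]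
    rfl
  have hD : ∀ j, DZ Z *ᵥ u j = ∑ l, Dm l j • u l := by
    intro j
    have h1 := congrArg Subtype.val
      (b.sum_repr ((ph (Fin a ⊕ Fin a) (DZ Z)).restrict hst (b j)))
    rw [AddSubmonoidClass.coe_finsetSum] at h1
    have h2 : (((ph (Fin a ⊕ Fin a) (DZ Z)).restrict hst (b j) : U) : Fin a ⊕ Fin a → ℂ) =
        DZ Z *ᵥ u j := by
      change DZ Z *ᵥ (b j : Fin a ⊕ Fin a → ℂ) = _
      rw [hu]
    rw [← h2, ← h1]
    refine Finset.sum_congr rfl fun l _ => ?_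
    have h3 : Dm l j = b.repr ((ph (Fin a ⊕ Fin a) (DZ Z)).restrict hst (b j)) l :=
      LinearMap.toMatrix_apply _ _ _ _ _
    rw [h3, ← hu l]
    rfl
  have hprod : M * Dm = (2 * Complex.I * α) • P := by
    ext i j
    rw [Matrix.mul_apply, Matrix.smul_apply, smul_eq_mul]
    change ∑ l, M i l * Dm l j = (2 * Complex.I * α) * hP Z (u i) (u j)
    unfold hP
    rw [hD j, map_sum, Finset.mul_sum, Finset.mul_sum]
    refine Finset.sum_congr rfl fun l _ => ?_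
    rw [hM, map_smul, smul_eq_mul]
    linear_combination (-2 * α * Dm l j * om a (cnj (u i)) (u l)) * Complex.I_mul_I
  have hdet : M.det * (-1) ^ qd Z U = (2 * Complex.I * α) ^ a * P.det.re := by
    rw [← hDm, ← det_mul, hprod, det_smul, Fintype.card_fin]
    congr 1
    apply Complex.ext
    · rw [Complex.ofReal_re]
    · rw [Complex.ofReal_im, ← him]
      rfl
  -- rationality
  obtain ⟨r, hr⟩ : ∃ r : ℚ, M.det = r := by
    apply exists_rat
    intro σ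
    have h1 : σ M.det = (M.map σ).det := RingHom.map_det (σ : ℂ →+* ℂ) M
    rw [h1]
    rcases aut_pm k.al σ with h2 | h2
    · congr 1
      ext i j
      change σ (((rE a (x i) (φ *ᵥ x j) : ℚ) : ℂ) + α * ((rE a (x i) (x j) : ℚ) : ℂ)) =
        ((rE a (x i) (φ *ᵥ x j) : ℚ) : ℂ) + α * ((rE a (x i) (x j) : ℚ) : ℂ)
      rw [map_add, map_mul, map_ratCast, map_ratCast, h2]
    · rw [← det_transpose M]
      congr 1
      ext i j
      change σ (((rE a (x i) (φ *ᵥ x j) : ℚ) : ℂ) + α * ((rE a (x i) (x j) : ℚ) : ℂ)) =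
        ((rE a (x j) (φ *ᵥ x i) : ℚ) : ℂ) + α * ((rE a (x j) (x i) : ℚ) : ℂ)
      rw [map_add, map_mul, map_ratCast, map_ratCast, h2]
      have h3 : rE a (x j) (φ *ᵥ x i) = rE a (x i) (φ *ᵥ x j) := by
        rw [rE_alt, k.skewQ h, neg_neg]
      rw [h3, rE_alt (x j) (x i)]
      push_cast
      ring
  refine ⟨r, P.det.re, hre, hr, ?_⟩
  rw [← hr]
  exact hdet

/-- The Gram determinants of the Hermitian forms. -/
theorem KW.gram (h : PM Z) (k : KW Z U φ α d) :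
    ∃ (x : Fin a → (Fin a ⊕ Fin a → ℚ)) (r : ℚ) (P : ℝ), 0 < P ∧
      (Matrix.of fun i j => ((rE a (x i) (φ *ᵥ x j) : ℚ) : ℂ) +
        α * ((rE a (x i) (x j) : ℚ) : ℂ)).det = r ∧
      (r : ℂ) * (-1) ^ qd Z U = (2 * Complex.I * α) ^ a * P := by
  obtain ⟨x, b, hx⟩ := k.exists_basis
  exact ⟨x, k.gram' h x b hx⟩


end two

end

end Pool.Agent.R915
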