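import Mathlib
import Pool.Agent.Y4.G.Cas
import Pool.Agent.R915.K1

/-!
# Irreducible submodules with coprime multiplicities
-/

set_option linter.unusedSectionVars false

namespace Pool.Agent.R915

open Matrix Module Pool.Agent.W437.HC Pool.Agent.W437.HD Pool.Agent.TH504.CB Pool.Agent.Y90
open Pool.Agent.W548.Odd hiding cv
open Pool.Agent.Y4.G (Lie lr lr_apply trace_idemM)
open Pool.Agent.H204R3.CM (IsHodge)
open Pool.Agent.W437.HP (cK cK_mul cK_one)

noncomputable section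

section orth

variable {B : Type*} [Fintype B] [DecidableEq B]

/-- Orthogonal projectors. -/
theorem exists_orth (U : Submodule ℂ (B → ℂ)) :
    ∃ P : Matrix B B ℂ, Pᴴ = P ∧ (∀ v, P *ᵥ v ∈ U) ∧ ∀ v ∈ U, P *ᵥ v = v := by
  let K : Submodule ℂ (EuclideanSpace ℂ B) := U.comap (WithLp.linearEquiv 2 ℂ (B → ℂ)).toLinearMap
  let T := K.starProjection
  refine ⟨Matrix.toEuclideanLin.symm T.toLinearMap, ?_, fun v => ?_, fun v hv => ?_⟩
  · have h1 := K.starProjection_isSymmetric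
    have h2 : (Matrix.toEuclideanLin (Matrix.toEuclideanLin.symm T.toLinearMap)).IsSymmetric := by
      rw [LinearEquiv.apply_symm_apply]
      exact h1
    exact Matrix.isSymmetric_toEuclideanLin_iff.1 h2
  · have h1 : Matrix.toEuclideanLin (Matrix.toEuclideanLin.symm T.toLinearMap)
        (WithLp.toLp 2 v) = T (WithLp.toLp 2 v) := by
      rw [LinearEquiv.apply_symm_apply]
      rfl
    have h2 : T (WithLp.toLp 2 v) ∈ K := K.starProjection_apply_mem _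
    rw [← h1] at h2
    exact h2
  · have h1 : Matrix.toEuclideanLin (Matrix.toEuclideanLin.symm T.toLinearMap)
        (WithLp.toLp 2 v) = T (WithLp.toLp 2 v) := by
      rw [LinearEquiv.apply_symm_apply]
      rfl
    have h2 : T (WithLp.toLp 2 v) = WithLp.toLp 2 v :=
      Submodule.starProjection_eq_self_iff.2 (show WithLp.toLp 2 v ∈ K from hv)
    rw [h2] at h1
    exact congrArg (WithLp.ofLp) h1

theorem eq_of_mulVec {X Y : Matrix B B ℂ} (h : ∀ v, X *ᵥ v = Y *ᵥ v) : X = Y :=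
  Matrix.toLin'.injective (LinearMap.ext fun v => by rw [toLin'_apply, toLin'_apply, h])

theorem stab_of_proj {U : Submodule ℂ (B → ℂ)} {P X : Matrix B B ℂ} (h1 : ∀ v, P *ᵥ v ∈ U)
    (h2 : ∀ v ∈ U, P *ᵥ v = v) (hX : ∀ v ∈ U, X *ᵥ v ∈ U) : P * X * P = X * P :=
  eq_of_mulVec fun v => by
    rw [← mulVec_mulVec, ← mulVec_mulVec, ← mulVec_mulVec, h2 _ (hX _ (h1 v))]

end orth

section lie

variable {g : ℕ} {Z : Matrix (Fin g) (Fin g) ℂ}

theorem D_sa (h : PM Z) : (DZ Z)ᴴ * (Om g ℂ * cm (JR Z)) = (Om g ℂ * cm (JR Z)) * DZ Z := by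
  have h1 : (DZ Z)ᴴ = -(DZ Z)ᵀ := by
    have h2 := Pool.Agent.Y90.DZ_conj (Z := Z)
    have h3 : (DZ Z)ᴴ = ((DZ Z).map cc)ᵀ := rfl
    rw [h3, h2, transpose_neg]
  have hJD : cm (JR Z) = Complex.I • DZ Z := by
    change _ = Complex.I • ((-Complex.I) • cm (JR Z))
    rw [smul_smul, show Complex.I * -Complex.I = 1 by simp, one_smul]
  have h4 : (DZ Z)ᵀ * Om g ℂ = -(Om g ℂ * DZ Z) := eq_neg_of_add_eq_zero_left (h.sp DZ_mem)
  rw [h1, neg_mul, ← mul_assoc, h4, neg_mul, neg_neg, mul_assoc, mul_assoc, hJD,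
    Matrix.smul_mul, Matrix.mul_smul]

theorem sa_conj {n : Type*} [Fintype n] [DecidableEq n] {S Si R X : Matrix n n ℂ}
    (hSSi : S * Si = 1) (hR : Sᴴ * S = R) (h : Xᴴ * R = R * X) :
    (S * X * Si)ᴴ = S * X * Si := by
  rw [conjTranspose_mul, conjTranspose_mul]
  have h1 : Siᴴ * Sᴴ = 1 := by rw [← conjTranspose_mul, hSSi, conjTranspose_one]
  calc Siᴴ * (Xᴴ * Sᴴ) = Siᴴ * (Xᴴ * Sᴴ) * (S * Si) := by rw [hSSi, mul_one]
  _ = Siᴴ * (Xᴴ * (Sᴴ * S)) * Si := by noncomm_ring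
  _ = Siᴴ * ((Sᴴ * S) * X) * Si := by rw [hR, h]
  _ = (Siᴴ * Sᴴ) * S * X * Si := by noncomm_ring
  _ = S * X * Si := by rw [h1, one_mul]

/-- The hermitian coordinates. -/
theorem exists_S (h : PM Z) : ∃ S Si : Matrix (Fin g ⊕ Fin g) (Fin g ⊕ Fin g) ℂ, S * Si = 1 ∧
    Si * S = 1 ∧ (S * DZ Z * Si)ᴴ = S * DZ Z * Si ∧
    ∀ X ∈ LZ Z, ∃ Y ∈ LZ Z, S * Y * Si = (S * X * Si)ᴴ := by
  obtain ⟨y, hy, hyy⟩ := exists_sqrt (OmJ_posDef h.symm h.pos)
  rw [star_eq_conjTranspose, conjTranspose_eq_transpose_of_trivial] at hyy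
  obtain ⟨yi, hyyi⟩ : ∃ yi, y * yi = 1 := hy.exists_right_inv
  have hSSi : cm y * cm yi = 1 := by rw [← cm_mul, hyyi, cm_one]
  have hSiS : cm yi * cm y = 1 := mul_eq_one_comm.1 hSSi
  have hOS : Om g ℂ * cm (JR Z) = (cm y)ᵀ * cm y := by
    rw [← cm_Om, ← cm_mul, hyy, cm_mul, cm_transpose]
  have hT : (cm y)ᴴ = (cm y)ᵀ := by
    ext i j
    simp [cm]
  have hR : (cm y)ᴴ * cm y = Om g ℂ * cm (JR Z) := by rw [hT, hOS]
  refine ⟨cm y, cm yi, hSSi, hSiS, sa_conj hSSi hR (D_sa h), fun X hX => ?_⟩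
  -- the adjoint of X is `J X' J`
  obtain ⟨X', hX'⟩ : ∃ X', X' = X.map cc := ⟨_, rfl⟩
  have hX'm : X' ∈ LZ Z := by
    rw [hX']
    exact gal_LZ cc X hX
  have h1 := LA_invol hX'm (DZ_mem (Z := Z)) (DZ_sq h.det)
  refine ⟨-(DZ Z * X' * DZ Z), Submodule.neg_mem _ h1, ?_⟩
  have hJD : cm (JR Z) = Complex.I • DZ Z := by
    change _ = Complex.I • ((-Complex.I) • cm (JR Z))
    rw [smul_smul, show Complex.I * -Complex.I = 1 by simp, one_smul]
  have hXH : Xᴴ = X'ᵀ := by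
    rw [hX']
    rfl
  have hsp : X'ᵀ * Om g ℂ + Om g ℂ * X' = 0 := h.sp hX'm
  have e1 : Om g ℂ * X' = -(X'ᵀ * Om g ℂ) := eq_neg_of_add_eq_zero_right hsp
  -- multiply with the hermitian form
  have e2 : (Om g ℂ * cm (JR Z)) * -(DZ Z * X' * DZ Z) = Xᴴ * (Om g ℂ * cm (JR Z)) := by
    rw [hXH, hJD]
    have e3 : Om g ℂ * Complex.I • DZ Z * -(DZ Z * X' * DZ Z) =
        -(Complex.I • (Om g ℂ * (DZ Z * DZ Z) * X' * DZ Z)) := by
      rw [Matrix.mul_smul, Matrix.smul_mul, mul_neg, smul_neg]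
      congr 2
      noncomm_ring
    rw [e3, DZ_sq h.det, mul_one, e1, Matrix.mul_smul, Matrix.mul_smul, neg_mul, smul_neg, neg_neg,
      mul_assoc]
  rw [conjTranspose_mul, conjTranspose_mul]
  symm
  calc (cm yi)ᴴ * (Xᴴ * (cm y)ᴴ) = (cm yi)ᴴ * (Xᴴ * (cm y)ᴴ) * (cm y * cm yi) := by
        rw [hSSi, mul_one]
  _ = (cm yi)ᴴ * (Xᴴ * ((cm y)ᴴ * cm y)) * cm yi := by noncomm_ring
  _ = (cm yi)ᴴ * (((cm y)ᴴ * cm y) * -(DZ Z * X' * DZ Z)) * cm yi := by rw [hR, e2]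
  _ = ((cm yi)ᴴ * (cm y)ᴴ) * cm y * -(DZ Z * X' * DZ Z) * cm yi := by noncomm_ring
  _ = cm y * -(DZ Z * X' * DZ Z) * cm yi := by
    rw [← conjTranspose_mul, hSSi, conjTranspose_one, one_mul]

/-- The orthogonal projector to a stable subspace. -/
theorem exists_projU (_ : PM Z) {U : Submodule ℂ (Fin g ⊕ Fin g → ℂ)} (hU : Stab (LZ Z) U)
    {S Si : Matrix (Fin g ⊕ Fin g) (Fin g ⊕ Fin g) ℂ} (hSSi : S * Si = 1) (hSiS : Si * S = 1)
    (had : ∀ X ∈ LZ Z, ∃ Y ∈ LZ Z, S * Y * Si = (S * X * Si)ᴴ) :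
    ∃ e : Matrix (Fin g ⊕ Fin g) (Fin g ⊕ Fin g) ℂ, (∀ v, e *ᵥ v ∈ U) ∧ (∀ v ∈ U, e *ᵥ v = v) ∧
      (S * e * Si)ᴴ = S * e * Si ∧ ∀ X ∈ LZ Z, X * e = e * X := by
  obtain ⟨P, hP, hP1, hP2⟩ := exists_orth (U.map (mulVecLin S))
  have hcj : ∀ X : Matrix (Fin g ⊕ Fin g) (Fin g ⊕ Fin g) ℂ, S * (Si * X * S) * Si = X := by
    intro X
    calc S * (Si * X * S) * Si = (S * Si) * X * (S * Si) := by noncomm_ring
    _ = X := by rw [hSSi, one_mul, mul_one]
  have h1 : ∀ v, (Si * P * S) *ᵥ v ∈ U := by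
    intro v
    obtain ⟨u, hu, hu'⟩ := hP1 (S *ᵥ v)
    rw [mulVecLin_apply] at hu'
    rw [← mulVec_mulVec, ← mulVec_mulVec, ← hu', mulVec_mulVec, hSiS, one_mulVec]
    exact hu
  have h2 : ∀ v ∈ U, (Si * P * S) *ᵥ v = v := by
    intro v hv
    rw [← mulVec_mulVec, ← mulVec_mulVec, hP2 (S *ᵥ v) ⟨v, hv, rfl⟩, mulVec_mulVec, hSiS,
      one_mulVec]
  have h3 : (S * (Si * P * S) * Si)ᴴ = S * (Si * P * S) * Si := by rw [hcj, hP]
  refine ⟨Si * P * S, h1, h2, h3, fun X hX => ?_⟩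
  obtain ⟨Y, hY, hYX⟩ := had X hX
  have h4 := stab_of_proj h1 h2 (fun v hv => hU X hX v hv)
  have h5 := stab_of_proj h1 h2 (fun v hv => hU Y hY v hv)
  -- the adjoint of the second relation
  have h6 := congrArg (fun M => (S * M * Si)ᴴ) h5
  beta_reduce at h6
  have hm : ∀ M N : Matrix (Fin g ⊕ Fin g) (Fin g ⊕ Fin g) ℂ,
      S * (M * N) * Si = (S * M * Si) * (S * N * Si) := by
    intro M N
    calc S * (M * N) * Si = S * M * (1 : Matrix (Fin g ⊕ Fin g) (Fin g ⊕ Fin g) ℂ) * N * Si := by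
          noncomm_ring
    _ = S * M * (Si * S) * N * Si := by rw [hSiS]
    _ = _ := by noncomm_ring
  rw [hm, hm, hm Y, conjTranspose_mul (S * (Si * P * S) * Si * (S * Y * Si))
    (S * (Si * P * S) * Si), conjTranspose_mul (S * (Si * P * S) * Si) (S * Y * Si),
    conjTranspose_mul (S * Y * Si) (S * (Si * P * S) * Si), h3, hYX,
    conjTranspose_conjTranspose, ← hm, ← hm, ← hm] at h6
  have h7 : Si * P * S * X * (Si * P * S) = Si * P * S * X := by
    have h8 := congrArg (fun M => Si * M * S) h6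
    beta_reduce at h8
    have h9 : ∀ M : Matrix (Fin g ⊕ Fin g) (Fin g ⊕ Fin g) ℂ, Si * (S * M * Si) * S = M := by
      intro M
      calc Si * (S * M * Si) * S = (Si * S) * M * (Si * S) := by noncomm_ring
      _ = M := by rw [hSiS, one_mul, mul_one]
    rw [h9, h9, ← mul_assoc] at h8
    exact h8
  rw [← h7, h4]

/-- The projectors to the eigenspaces of the complex structure in a stable subspace. -/
def pP (Z e : Matrix (Fin g ⊕ Fin g) (Fin g ⊕ Fin g) ℂ) (c : ℂ) :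
    Matrix (Fin g ⊕ Fin g) (Fin g ⊕ Fin g) ℂ := (2 : ℂ)⁻¹ • ((1 + c • Z) * e)

theorem one_add_sq {B : Type*} [Fintype B] [DecidableEq B] {D : Matrix B B ℂ} (hD : D * D = 1) :
    (1 + D) * (1 + D) = (2 : ℂ) • (1 + D) := by
  have h1 : (1 + D) * (1 + D) = 1 + D + (D + D * D) := by noncomm_ring
  rw [h1, hD, two_smul]
  abel

theorem one_add_sub {B : Type*} [Fintype B] [DecidableEq B] {D : Matrix B B ℂ} (hD : D * D = 1) :
    (1 + D) * (1 - D) = 0 := by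
  have h1 : (1 + D) * (1 - D) = 1 - D * D := by noncomm_ring
  rw [h1, hD, sub_self]

theorem csq {B : Type*} [Fintype B] [DecidableEq B] {D : Matrix B B ℂ} (hD : D * D = 1) {c : ℂ}
    (hc : c * c = 1) : (c • D) * (c • D) = 1 := by
  rw [Matrix.smul_mul, Matrix.mul_smul, smul_smul, hc, one_smul, hD]

theorem trace_pP {c : ℂ} (hc : c = 1 ∨ c = -1) (h : PM Z)
    {U : Submodule ℂ (Fin g ⊕ Fin g → ℂ)} (hU : Stab (LZ Z) U)
    {e : Matrix (Fin g ⊕ Fin g) (Fin g ⊕ Fin g) ℂ} (h1 : ∀ v, e *ᵥ v ∈ U)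
    (h2 : ∀ v ∈ U, e *ᵥ v = v) (h3 : DZ Z * e = e * DZ Z) :
    trace (pP (DZ Z) e c) =
      (finrank ℂ (U ⊓ eig Z c : Submodule ℂ (Fin g ⊕ Fin g → ℂ)) : ℂ) := by
  have hD := DZ_sq h.det
  have hee : e * e = e := eq_of_mulVec fun v => by rw [← mulVec_mulVec, h2 _ (h1 v)]
  have hc2 : c * c = 1 := by rcases hc with rfl | rfl <;> norm_num
  have hidem : pP (DZ Z) e c * pP (DZ Z) e c = pP (DZ Z) e c := by
    unfold pP
    rw [Matrix.smul_mul, Matrix.mul_smul, smul_smul]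
    have h4 : (1 + c • DZ Z) * e * ((1 + c • DZ Z) * e) = (2 : ℂ) • ((1 + c • DZ Z) * e) := by
      have h5 : e * (1 + c • DZ Z) = (1 + c • DZ Z) * e := by
        rw [mul_add, add_mul, mul_one, one_mul, Matrix.mul_smul, Matrix.smul_mul, h3]
      calc (1 + c • DZ Z) * e * ((1 + c • DZ Z) * e) =
          (1 + c • DZ Z) * (e * (1 + c • DZ Z)) * e := by noncomm_ring
      _ = (1 + c • DZ Z) * (1 + c • DZ Z) * (e * e) := by rw [h5]; noncomm_ring
      _ = _ := by rw [hee, one_add_sq (csq hD hc2), Matrix.smul_mul]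
    rw [h4, smul_smul]
    norm_num
  rw [trace_idemM hidem]
  congr 1
  have h6 : LinearMap.range (mulVecLin (pP (DZ Z) e c)) =
      (U ⊓ eig Z c : Submodule ℂ (Fin g ⊕ Fin g → ℂ)) := by
    have hap : ∀ v, pP (DZ Z) e c *ᵥ v = (2 : ℂ)⁻¹ • (e *ᵥ v + c • (DZ Z *ᵥ (e *ᵥ v))) := by
      intro v
      unfold pP
      rw [smul_mulVec, ← mulVec_mulVec, add_mulVec, one_mulVec, smul_mulVec]
    have hDD : ∀ w, DZ Z *ᵥ (DZ Z *ᵥ w) = w := by
      intro w
      rw [mulVec_mulVec, hD, one_mulVec]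
    apply le_antisymm
    · rintro _ ⟨v, rfl⟩
      rw [mulVecLin_apply, hap]
      refine ⟨Submodule.smul_mem _ _ (Submodule.add_mem _ (h1 v)
        (Submodule.smul_mem _ _ (hU _ DZ_mem _ (h1 v)))), ?_⟩
      rw [SetLike.mem_coe, mem_eig, mulVec_smul, mulVec_add, mulVec_smul, hDD, smul_comm c,
        smul_add, smul_add, smul_add, smul_smul c c, hc2, one_smul, add_comm]
    · rintro v ⟨hv1, hv2⟩
      refine ⟨v, ?_⟩
      rw [mulVecLin_apply, hap, h2 v hv1, mem_eig.1 hv2, smul_smul, hc2, one_smul, ← two_smul ℂ v,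
        smul_smul]
      norm_num
  rw [h6]

/-- The Lie algebra of an irreducible submodule. -/
theorem lie_irr (h : PM Z) {U : Submodule ℂ (Fin g ⊕ Fin g → ℂ)} (hU : IrS (LZ Z) U) :
    ∃ S Si e : Matrix (Fin g ⊕ Fin g) (Fin g ⊕ Fin g) ℂ, S * Si = 1 ∧ Si * S = 1 ∧
      (∀ v, e *ᵥ v ∈ U) ∧ (∀ v ∈ U, e *ᵥ v = v) ∧ (∀ X ∈ LZ Z, X * e = e * X) ∧
      Lie ((LZ Z).map (lr S (e * Si))) (S * pP (DZ Z) e 1 * Si) (S * pP (DZ Z) e (-1) * Si)
        (pd Z U) (qd Z U) := by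
  obtain ⟨S, Si, hSSi, hSiS, hDs, had⟩ := exists_S h
  obtain ⟨e, he1, he2, he3, hce⟩ := exists_projU h hU.2.1 hSSi hSiS had
  have hee : e * e = e := eq_of_mulVec fun v => by rw [← mulVec_mulVec, he2 _ (he1 v)]
  have hD := DZ_sq h.det
  have hDe := hce _ (DZ_mem (Z := Z))
  have hcj : ∀ X Y : Matrix (Fin g ⊕ Fin g) (Fin g ⊕ Fin g) ℂ,
      (S * X * Si) * (S * Y * Si) = S * (X * Y) * Si := by
    intro X Y
    calc (S * X * Si) * (S * Y * Si) = S * X * (Si * S) * Y * Si := by noncomm_ring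
    _ = _ := by rw [hSiS]; noncomm_ring
  have hlr : ∀ X, lr S (e * Si) X = S * (X * e) * Si := by
    intro X
    rw [lr_apply]
    noncomm_ring
  have hpq : pP (DZ Z) e 1 + pP (DZ Z) e (-1) = e := by
    unfold pP
    rw [← smul_add, ← add_mul]
    have : (1 + (1 : ℂ) • DZ Z + (1 + (-1 : ℂ) • DZ Z) :
        Matrix (Fin g ⊕ Fin g) (Fin g ⊕ Fin g) ℂ) = (2 : ℂ) • 1 := by
      rw [one_smul, neg_one_smul, two_smul]
      abel
    rw [this, Matrix.smul_mul, one_mul, smul_smul]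
    norm_num
  have hpmq : pP (DZ Z) e 1 - pP (DZ Z) e (-1) = DZ Z * e := by
    unfold pP
    rw [← smul_sub, ← sub_mul]
    have : (1 + (1 : ℂ) • DZ Z - (1 + (-1 : ℂ) • DZ Z) :
        Matrix (Fin g ⊕ Fin g) (Fin g ⊕ Fin g) ℂ) = (2 : ℂ) • DZ Z := by
      rw [one_smul, neg_one_smul, two_smul]
      abel
    rw [this, Matrix.smul_mul, smul_smul]
    norm_num
  have hadd : S * pP (DZ Z) e 1 * Si + S * pP (DZ Z) e (-1) * Si = S * e * Si := by
    rw [← add_mul, ← mul_add, hpq]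
  have hprod : ∀ c c' : ℂ, pP (DZ Z) e c * pP (DZ Z) e c' =
      (4 : ℂ)⁻¹ • ((1 + c • DZ Z) * (1 + c' • DZ Z) * e) := by
    intro c c'
    unfold pP
    rw [Matrix.smul_mul, Matrix.mul_smul, smul_smul]
    have h5 : e * (1 + c' • DZ Z) = (1 + c' • DZ Z) * e := by
      rw [mul_add, add_mul, mul_one, one_mul, Matrix.mul_smul, Matrix.smul_mul, hDe]
    have h6 : (1 + c • DZ Z) * e * ((1 + c' • DZ Z) * e) =
        (1 + c • DZ Z) * (1 + c' • DZ Z) * e := by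
      calc (1 + c • DZ Z) * e * ((1 + c' • DZ Z) * e) =
          (1 + c • DZ Z) * (e * (1 + c' • DZ Z)) * e := by noncomm_ring
      _ = (1 + c • DZ Z) * (1 + c' • DZ Z) * (e * e) := by rw [h5]; noncomm_ring
      _ = _ := by rw [hee]
    rw [h6]
    norm_num
  have hPP : pP (DZ Z) e 1 * pP (DZ Z) e 1 = pP (DZ Z) e 1 := by
    rw [hprod]
    unfold pP
    rw [one_add_sq (csq hD (by norm_num)), Matrix.smul_mul, smul_smul]
    norm_num
  have hQQ : pP (DZ Z) e (-1) * pP (DZ Z) e (-1) = pP (DZ Z) e (-1) := by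
    rw [hprod]
    unfold pP
    rw [one_add_sq (csq hD (by norm_num)), Matrix.smul_mul, smul_smul]
    norm_num
  have hPQ : pP (DZ Z) e 1 * pP (DZ Z) e (-1) = 0 := by
    rw [hprod]
    have : (1 + (1 : ℂ) • DZ Z) * (1 + (-1 : ℂ) • DZ Z) =
        (0 : Matrix (Fin g ⊕ Fin g) (Fin g ⊕ Fin g) ℂ) := by
      rw [one_smul, neg_one_smul, ← sub_eq_add_neg, one_add_sub hD]
    rw [this, zero_mul, smul_zero]
  have hQP : pP (DZ Z) e (-1) * pP (DZ Z) e 1 = 0 := by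
    rw [hprod]
    have : (1 + (-1 : ℂ) • DZ Z) * (1 + (1 : ℂ) • DZ Z) =
        (0 : Matrix (Fin g ⊕ Fin g) (Fin g ⊕ Fin g) ℂ) := by
      have h1 : (1 + (-1 : ℂ) • DZ Z) * (1 + (1 : ℂ) • DZ Z) = 1 - DZ Z * DZ Z := by
        rw [one_smul, neg_one_smul]
        noncomm_ring
      rw [h1, hD, sub_self]
    rw [this, zero_mul, smul_zero]
  have hPH : ∀ c : ℂ, star c = c → (S * pP (DZ Z) e c * Si)ᴴ = S * pP (DZ Z) e c * Si := by
    intro c hc
    have h5 : S * pP (DZ Z) e c * Si = (2 : ℂ)⁻¹ • ((1 + c • (S * DZ Z * Si)) * (S * e * Si)) := by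
      unfold pP
      have h6 : (1 + c • (S * DZ Z * Si)) * (S * e * Si) = S * ((1 + c • DZ Z) * e) * Si := by
        have h8 : 1 + c • (S * DZ Z * Si) = S * (1 + c • DZ Z) * Si := by
          rw [mul_add, add_mul, mul_one, hSSi, Matrix.mul_smul, Matrix.smul_mul]
        rw [h8, hcj]
      rw [h6, Matrix.mul_smul, Matrix.smul_mul]
    have h7 : (S * DZ Z * Si) * (S * e * Si) = (S * e * Si) * (S * DZ Z * Si) := by
      rw [hcj, hcj, hDe]
    rw [h5, conjTranspose_smul, conjTranspose_mul, conjTranspose_add, conjTranspose_one,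
      conjTranspose_smul, hDs, he3, hc, mul_add, mul_one, add_mul, one_mul, Matrix.mul_smul,
      Matrix.smul_mul, h7]
    congr 1
    simp
  refine ⟨S, Si, e, hSSi, hSiS, he1, he2, hce, ?_⟩
  exact {
    br := by
      rintro _ ⟨X, hX, rfl⟩ _ ⟨Y, hY, rfl⟩
      refine ⟨X * Y - Y * X, LZ_br hX hY, ?_⟩
      rw [hlr, hlr, hlr, hcj, hcj]
      have h1 : X * e * (Y * e) = X * Y * e := by
        rw [mul_assoc, ← mul_assoc e, ← hce Y hY, mul_assoc Y, hee, mul_assoc]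
      have h2 : Y * e * (X * e) = Y * X * e := by
        rw [mul_assoc, ← mul_assoc e, ← hce X hX, mul_assoc X, hee, mul_assoc]
      rw [h1, h2]
      noncomm_ring
    ad := by
      rintro _ ⟨X, hX, rfl⟩
      obtain ⟨Y, hY, hYX⟩ := had X hX
      refine ⟨Y, hY, ?_⟩
      rw [hlr, hlr, hce _ hX, ← hcj, ← hcj, hYX, conjTranspose_mul (S * e * Si) (S * X * Si), he3]
    PP := by rw [hcj, hPP]
    QQ := by rw [hcj, hQQ]
    PH := hPH 1 (by simp)
    QH := hPH (-1) (by simp)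
    PQ := by rw [hcj, hPQ, mul_zero, zero_mul]
    QP := by rw [hcj, hQP, mul_zero, zero_mul]
    D := by
      refine ⟨DZ Z, DZ_mem, ?_⟩
      rw [hlr, ← hpmq]
      noncomm_ring
    lel := by
      rintro _ ⟨X, hX, rfl⟩
      have h1 : e * (X * e) = X * e := by
        rw [← mul_assoc, ← hce X hX, mul_assoc, hee]
      rw [hadd, hlr, hcj, h1]
    ler := by
      rintro _ ⟨X, hX, rfl⟩
      rw [hadd, hlr, hcj, mul_assoc X, hee]
    irr := by
      intro V hV hs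
      rw [hadd] at hV ⊢
      have hcv : ∀ u, S *ᵥ (Si *ᵥ u) = u := fun u => by rw [mulVec_mulVec, hSSi, one_mulVec]
      have hcv' : ∀ u, Si *ᵥ (S *ᵥ u) = u := fun u => by rw [mulVec_mulVec, hSiS, one_mulVec]
      have hU1 : ∀ u, (S * e * Si) *ᵥ u = u → Si *ᵥ u ∈ U := by
        intro u hu
        have h1 := congrArg (fun z => Si *ᵥ z) hu
        simp only [mulVec_mulVec] at h1
        have h2 : Si * (S * e * Si) = e * Si := by
          rw [← mul_assoc, ← mul_assoc, hSiS, one_mul]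
        rw [h2, ← mulVec_mulVec] at h1
        rw [← h1]
        exact he1 _
      rcases hU.2.2 (V.comap (mulVecLin S)) (by
        intro u hu
        have h1 := hU1 _ (hV _ (Submodule.mem_comap.1 hu))
        rw [mulVecLin_apply, hcv'] at h1
        exact h1) (by
        intro X hX u hu
        rw [Submodule.mem_comap, mulVecLin_apply] at hu ⊢
        have h1 := hs _ ⟨X, hX, rfl⟩ _ hu
        rw [hlr] at h1
        have h2 : (S * (X * e) * Si) *ᵥ (S *ᵥ u) = S *ᵥ (X *ᵥ (e *ᵥ u)) := by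
          rw [mulVec_mulVec, mulVec_mulVec, mulVec_mulVec, mul_assoc (S * (X * e)), hSiS,
            mul_one, mul_assoc S X]
        have h3 := hU1 _ (hV _ hu)
        rw [hcv'] at h3
        rw [h2, he2 u h3] at h1
        exact h1) with h1 | h1
      · left
        rw [Submodule.eq_bot_iff] at h1 ⊢
        intro u hu
        have h2 := h1 (Si *ᵥ u) (by
          rw [Submodule.mem_comap, mulVecLin_apply, hcv]
          exact hu)
        rw [← hcv u, h2, mulVec_zero]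
      · right
        intro u hu
        have h4 : Si *ᵥ u ∈ V.comap (mulVecLin S) := by
          rw [h1]
          exact hU1 u hu
        rw [Submodule.mem_comap, mulVecLin_apply, hcv] at h4
        exact h4
    trP := by
      rw [trace_mul_comm, ← mul_assoc, hSiS, one_mul]
      exact trace_pP (Or.inl rfl) h hU.2.1 he1 he2 hDe
    trQ := by
      rw [trace_mul_comm, ← mul_assoc, hSiS, one_mul]
      exact trace_pP (Or.inr rfl) h hU.2.1 he1 he2 hDe }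

/-- Coprime multiplicities give elements of rank one. -/
theorem coprime_rk1 (h : PM Z) {U : Submodule ℂ (Fin g ⊕ Fin g → ℂ)} (hU : IrS (LZ Z) U)
    (hp : 0 < pd Z U) (hq : 0 < qd Z U) (hc : Nat.Coprime (pd Z U) (qd Z U)) : Rk1 Z U := by
  obtain ⟨S, Si, e, hSSi, hSiS, he1, he2, hce, H⟩ := lie_irr h hU
  have hD := DZ_sq h.det
  have hDD : ∀ w, DZ Z *ᵥ (DZ Z *ᵥ w) = w := by
    intro w
    rw [mulVec_mulVec, hD, one_mulVec]
  have key : ∀ V V' : Matrix (Fin g ⊕ Fin g) (Fin g ⊕ Fin g) ℂ, S * V * Si = S * V' * Si →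
      V = V' := by
    intro V V' h
    have h3 := congrArg (fun W => Si * W * S) h
    have h4 : ∀ W : Matrix (Fin g ⊕ Fin g) (Fin g ⊕ Fin g) ℂ, Si * (S * W * Si) * S = W := by
      intro W
      calc Si * (S * W * Si) * S = (Si * S) * W * (Si * S) := by noncomm_ring
      _ = W := by rw [hSiS, one_mul, mul_one]
    simp only [h4] at h3
    exact h3
  -- vectors
  obtain ⟨⟨u, hu1, hu2⟩, hu0⟩ : ∃ u : (U ⊓ eig Z 1 : Submodule ℂ (Fin g ⊕ Fin g → ℂ)), u ≠ 0 := by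
    by_contra hcon
    push Not at hcon
    have : Subsingleton (U ⊓ eig Z 1 : Submodule ℂ (Fin g ⊕ Fin g → ℂ)) :=
      ⟨fun a b => by rw [hcon a, hcon b]⟩
    have h1 : pd Z U = 0 := finrank_zero_of_subsingleton
    omega
  obtain ⟨⟨w, hw1, hw2⟩, hw0⟩ :
      ∃ w : (U ⊓ eig Z (-1) : Submodule ℂ (Fin g ⊕ Fin g → ℂ)), w ≠ 0 := by
    by_contra hcon
    push Not at hcon
    have : Subsingleton (U ⊓ eig Z (-1) : Submodule ℂ (Fin g ⊕ Fin g → ℂ)) :=
      ⟨fun a b => by rw [hcon a, hcon b]⟩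
    have h1 : qd Z U = 0 := finrank_zero_of_subsingleton
    omega
  have hu0' : u ≠ 0 := fun h0 => hu0 (Subtype.ext h0)
  have hw0' : w ≠ 0 := fun h0 => hw0 (Subtype.ext h0)
  obtain ⟨i, hi⟩ : ∃ i, w i ≠ 0 := by
    by_contra hcon
    push Not at hcon
    exact hw0' (funext hcon)
  let y : Matrix (Fin g ⊕ Fin g) (Fin g ⊕ Fin g) ℂ := vecMulVec u (Pi.single i 1)
  have hy : ∀ v, y *ᵥ v = v i • u := by
    intro v
    rw [vecMulVec_mulVec]
    simp
  obtain ⟨X, hX, h3⟩ := H.full hp hq hc (S * y * Si)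
  have h4 : X * e = pP (DZ Z) e 1 * y * pP (DZ Z) e (-1) := by
    apply key
    have h5 : lr S (e * Si) X = S * (X * e) * Si := by
      rw [lr_apply]
      noncomm_ring
    rw [← h5]
    refine h3.trans ?_
    calc S * pP (DZ Z) e 1 * Si * (S * y * Si) * (S * pP (DZ Z) e (-1) * Si) =
        S * pP (DZ Z) e 1 * (Si * S) * y * (Si * S) * pP (DZ Z) e (-1) * Si := by noncomm_ring
    _ = _ := by rw [hSiS]; noncomm_ring
  have hap : ∀ (c : ℂ) v, pP (DZ Z) e c *ᵥ v = (2 : ℂ)⁻¹ • (e *ᵥ v + c • (DZ Z *ᵥ (e *ᵥ v))) := by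
    intro c v
    unfold pP
    rw [smul_mulVec, ← mulVec_mulVec, add_mulVec, one_mulVec, smul_mulVec]
  have hpu : pP (DZ Z) e 1 *ᵥ u = u := by
    rw [hap, he2 u hu1, mem_eig.1 hu2, one_smul, one_smul, ← two_smul ℂ u, smul_smul]
    norm_num
  -- the element of degree one
  let N := (1 / 4 : ℂ) • ((1 + DZ Z) * X * (1 - DZ Z))
  have hN : ∀ v ∈ U, N *ᵥ v = ((pP (DZ Z) e (-1) *ᵥ v) i) • u := by
    intro v hv
    have h5 : (1 - DZ Z) *ᵥ v = (2 : ℂ) • (pP (DZ Z) e (-1) *ᵥ v) := by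
      rw [hap, he2 v hv, smul_smul, sub_mulVec, one_mulVec, neg_one_smul, ← sub_eq_add_neg]
      norm_num
    have h6 : pP (DZ Z) e (-1) *ᵥ v ∈ U := by
      rw [hap]
      exact Submodule.smul_mem _ _ (Submodule.add_mem _ (he1 v)
        (Submodule.smul_mem _ _ (hU.2.1 _ DZ_mem _ (he1 v))))
    have h7 : pP (DZ Z) e (-1) *ᵥ (pP (DZ Z) e (-1) *ᵥ v) = pP (DZ Z) e (-1) *ᵥ v := by
      rw [hap _ (pP (DZ Z) e (-1) *ᵥ v), he2 _ h6, hap, he2 v hv]
      simp only [mulVec_smul, mulVec_add, hDD]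
      module
    have h8 : X *ᵥ (pP (DZ Z) e (-1) *ᵥ v) = ((pP (DZ Z) e (-1) *ᵥ v) i) • u := by
      have h9 : X *ᵥ (pP (DZ Z) e (-1) *ᵥ v) = (X * e) *ᵥ (pP (DZ Z) e (-1) *ᵥ v) := by
        rw [← mulVec_mulVec, he2 _ h6]
      rw [h9, h4, ← mulVec_mulVec, ← mulVec_mulVec, h7, hy, mulVec_smul, hpu]
    change ((1 / 4 : ℂ) • ((1 + DZ Z) * X * (1 - DZ Z))) *ᵥ v = _
    rw [smul_mulVec, ← mulVec_mulVec, ← mulVec_mulVec, h5, mulVec_smul, h8, mulVec_smul,
      mulVec_smul, add_mulVec, one_mulVec, mem_eig.1 hu2, one_smul]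
    module
  refine ⟨DZ Z, Or.inl rfl, N, up_mem h hX, up_l h X, up_r h X, ?_⟩
  have h10 : U.map (mulVecLin N) = Submodule.span ℂ {u} := by
    apply le_antisymm
    · rintro _ ⟨v, hv, rfl⟩
      rw [mulVecLin_apply, hN v hv]
      exact Submodule.smul_mem _ _ (Submodule.mem_span_singleton_self u)
    · rw [Submodule.span_singleton_le_iff_mem]
      refine ⟨(w i)⁻¹ • w, Submodule.smul_mem _ _ hw1, ?_⟩
      rw [mulVecLin_apply, mulVec_smul, hN w hw1, hap, he2 w hw1, mem_eig.1 hw2]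
      have h11 : ((2 : ℂ)⁻¹ • (w + (-1 : ℂ) • (-1 : ℂ) • w)) = w := by module
      rw [h11, smul_smul, inv_mul_cancel₀ hi, one_smul]
  rw [h10, finrank_span_singleton hu0']

end lie

end

end Pool.Agent.R915
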