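import Mathlib
import Pool.Agent.R915.C1

/-!
# Abelian varieties with an imaginary quadratic endomorphism field
-/

set_option linter.unusedSectionVars false

namespace Pool.Agent.R915

open Matrix Module Pool.Agent.W437.HC Pool.Agent.W437.HD Pool.Agent.TH504.CB Pool.Agent.Y90
open Pool.Agent.W548.Odd hiding cv
open Pool.Agent.H204R3.CM (IsHodge)
open Pool.Agent.W437.HP (cK cK_mul cK_one)
open scoped ComplexOrder

noncomputable section

section gen

variable {g : ℕ} {Z : Matrix (Fin g) (Fin g) ℂ}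

/-- There is an element of degree one which does not vanish on an irreducible submodule. -/
theorem exists_upG (h : PM Z) {U : Submodule ℂ (Fin g ⊕ Fin g → ℂ)} (hU : IrS (LZ Z) U)
    (hns : ∀ c : ℂ, ∃ u ∈ U, DZ Z *ᵥ u ≠ c • u) :
    ∃ N ∈ LZ Z, DZ Z * N = N ∧ N * DZ Z = -N ∧ ∃ u ∈ U, N *ᵥ u ≠ 0 := by
  by_contra hcon
  push Not at hcon
  have hst : Stab (LZ Z) (U ⊓ eig Z (-1)) := by
    rintro y hy u ⟨hu, hu'⟩
    refine ⟨hU.2.1 y hy u hu, ?_⟩
    have h1 := hcon _ (up_mem h hy) (up_l h y) (up_r h y) u hu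
    have hu2 : DZ Z *ᵥ u = (-1 : ℂ) • u := hu'
    have h2 : (1 - DZ Z) *ᵥ u = (2 : ℂ) • u := by
      rw [sub_mulVec, one_mulVec, hu2]
      module
    rw [smul_mulVec, ← mulVec_mulVec, ← mulVec_mulVec, h2, mulVec_smul, mulVec_smul, smul_smul,
      add_mulVec, one_mulVec] at h1
    have h3 := (smul_eq_zero.1 h1).resolve_left (by norm_num)
    rw [SetLike.mem_coe, mem_eig, neg_one_smul]
    exact eq_neg_of_add_eq_zero_right h3
  rcases hU.2.2 _ inf_le_left hst with h1 | h1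
  · obtain ⟨u, hu, hu'⟩ := hns 1
    apply hu'
    rw [one_smul]
    have h2 : DZ Z *ᵥ (DZ Z *ᵥ u) = u := by rw [mulVec_mulVec, DZ_sq h.det, one_mulVec]
    have h3 : DZ Z *ᵥ u - u ∈ U ⊓ eig Z (-1) := by
      refine ⟨U.sub_mem (hU.2.1 _ DZ_mem u hu) hu, ?_⟩
      rw [SetLike.mem_coe, mem_eig, mulVec_sub, h2]
      module
    rw [h1, Submodule.mem_bot] at h3
    exact sub_eq_zero.1 h3
  · obtain ⟨u, hu, hu'⟩ := hns (-1)
    apply hu'
    rw [← h1] at hu
    exact hu.2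

theorem pd_pos (h : PM Z) {U : Submodule ℂ (Fin g ⊕ Fin g → ℂ)} (hU : Stab (LZ Z) U)
    (hns : ∀ c : ℂ, ∃ u ∈ U, DZ Z *ᵥ u ≠ c • u) : 0 < pd Z U := by
  rw [Nat.pos_iff_ne_zero]
  intro h0
  unfold pd at h0
  rw [Submodule.finrank_eq_zero] at h0
  obtain ⟨u, hu, hu'⟩ := hns (-1)
  apply hu'
  have h2 : DZ Z *ᵥ (DZ Z *ᵥ u) = u := by rw [mulVec_mulVec, DZ_sq h.det, one_mulVec]
  have h3 : DZ Z *ᵥ u + u ∈ U ⊓ eig Z 1 := by
    refine ⟨U.add_mem (hU _ DZ_mem u hu) hu, ?_⟩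
    rw [SetLike.mem_coe, mem_eig, mulVec_add, h2]
    module
  rw [h0, Submodule.mem_bot] at h3
  rw [neg_one_smul]
  exact eq_neg_of_add_eq_zero_left h3

theorem qd_pos (h : PM Z) {U : Submodule ℂ (Fin g ⊕ Fin g → ℂ)} (hU : Stab (LZ Z) U)
    (hns : ∀ c : ℂ, ∃ u ∈ U, DZ Z *ᵥ u ≠ c • u) : 0 < qd Z U := by
  rw [Nat.pos_iff_ne_zero]
  intro h0
  unfold qd at h0
  rw [Submodule.finrank_eq_zero] at h0
  obtain ⟨u, hu, hu'⟩ := hns 1
  apply hu'
  have h2 : DZ Z *ᵥ (DZ Z *ᵥ u) = u := by rw [mulVec_mulVec, DZ_sq h.det, one_mulVec]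
  have h3 : DZ Z *ᵥ u - u ∈ U ⊓ eig Z (-1) := by
    refine ⟨U.sub_mem (hU _ DZ_mem u hu) hu, ?_⟩
    rw [SetLike.mem_coe, mem_eig, mulVec_sub, h2]
    module
  rw [h0, Submodule.mem_bot] at h3
  rw [one_smul]
  exact sub_eq_zero.1 h3

end gen

/-- The endomorphism algebra is the imaginary quadratic field generated by `φ`, `φ ^ 2 = - d`. -/
structure QF {g : ℕ} (Z : Matrix (Fin g) (Fin g) ℂ)
    (φ : Matrix (Fin g ⊕ Fin g) (Fin g ⊕ Fin g) ℚ) (d : ℚ) : Prop where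
  pos : 0 < d
  sq : φ * φ = -(d • (1 : Matrix (Fin g ⊕ Fin g) (Fin g ⊕ Fin g) ℚ))
  comm : qm φ * DZ Z = DZ Z * qm φ
  max : ∀ ψ : Matrix (Fin g ⊕ Fin g) (Fin g ⊕ Fin g) ℚ, qm ψ * DZ Z = DZ Z * qm ψ →
    ∃ a b : ℚ, ψ = a • (1 : Matrix (Fin g ⊕ Fin g) (Fin g ⊕ Fin g) ℚ) + b • φ

section qf

variable {g : ℕ} {Z : Matrix (Fin g) (Fin g) ℂ} (h : PM Z)
  {φ : Matrix (Fin g ⊕ Fin g) (Fin g ⊕ Fin g) ℚ} {d : ℚ} (k : QF Z φ d)

include k

theorem QF.commS (σ : ℂ ≃+* ℂ) : qm φ * DS Z σ = DS Z σ * qm φ := by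
  have h1 := congrArg (fun X => X.map σ) k.comm
  beta_reduce at h1
  rw [Matrix.map_mul, Matrix.map_mul] at h1
  have h2 : (qm φ).map σ = qm φ := cK_aut σ φ
  rw [h2] at h1
  exact h1

theorem QF.commL : ∀ X ∈ LZ Z, X * qm φ = qm φ * X := by
  let C : Submodule ℂ (Matrix (Fin g ⊕ Fin g) (Fin g ⊕ Fin g) ℂ) :=
    { carrier := {X | X * qm φ = qm φ * X}
      add_mem' := fun {X Y} hX hY => by
        change (X + Y) * _ = _ * (X + Y)
        rw [Matrix.add_mul, Matrix.mul_add, show X * _ = _ from hX, show Y * _ = _ from hY]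
      zero_mem' := by
        change 0 * _ = _ * 0
        rw [Matrix.zero_mul, Matrix.mul_zero]
      smul_mem' := fun c X hX => by
        change (c • X) * _ = _ * (c • X)
        rw [Matrix.smul_mul, Matrix.mul_smul, show X * _ = _ from hX] }
  have hC : LZ Z ≤ C := by
    refine LZ_le (fun σ => (k.commS σ).symm) (fun A hA B hB => ?_)
    change (A * B - B * A) * _ = _ * (A * B - B * A)
    have hA' : A * _ = _ * A := hA
    have hB' : B * _ = _ * B := hB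
    rw [Matrix.sub_mul, Matrix.mul_sub, Matrix.mul_assoc A B, hB', ← Matrix.mul_assoc A, hA',
      Matrix.mul_assoc B A, hA', ← Matrix.mul_assoc B, hB', Matrix.mul_assoc, Matrix.mul_assoc]
  exact fun X hX => hC hX

/-- The commutant. -/
theorem QF.span {T : Matrix (Fin g ⊕ Fin g) (Fin g ⊕ Fin g) ℂ}
    (hT : ∀ X ∈ LZ Z, T * X = X * T) : ∃ x y : ℂ, T = x • 1 + y • qm φ := by
  have h1 : T ∈ Submodule.span ℂ (TT Z Z : Set (Matrix (Fin g ⊕ Fin g) (Fin g ⊕ Fin g) ℂ)) :=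
    exp_mem fun σ => hT _ (DS_mem σ)
  have h2 : Submodule.span ℂ (TT Z Z : Set (Matrix (Fin g ⊕ Fin g) (Fin g ⊕ Fin g) ℂ)) ≤
      Submodule.span ℂ {1, qm φ} := by
    refine Submodule.span_le.2 ?_
    rintro _ ⟨R, rfl, hR⟩
    obtain ⟨a, b, rfl⟩ := k.max R hR
    have h3 : cK ℂ (a • (1 : Matrix (Fin g ⊕ Fin g) (Fin g ⊕ Fin g) ℚ) + b • φ) =
        (a : ℂ) • (1 : Matrix (Fin g ⊕ Fin g) (Fin g ⊕ Fin g) ℂ) + (b : ℂ) • qm φ := by
      ext i j
      simp [cK, Matrix.one_apply, apply_ite]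
    rw [h3]
    exact Submodule.add_mem _ (Submodule.smul_mem _ _ (Submodule.subset_span (Or.inl rfl)))
      (Submodule.smul_mem _ _ (Submodule.subset_span (Or.inr rfl)))
  obtain ⟨x, y, hxy⟩ := Submodule.mem_span_pair.1 (h2 h1)
  exact ⟨x, y, hxy.symm⟩

theorem QF.sqv (v : Fin g ⊕ Fin g → ℂ) : qm φ *ᵥ (qm φ *ᵥ v) = (-(d : ℂ)) • v := by
  have h1 : qm φ * qm φ = (-(d : ℂ)) • 1 := by
    rw [← qm_mul, k.sq]
    ext i j
    by_cases hij : i = j
    · subst hij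
      simp
    · simp [hij]
  rw [mulVec_mulVec, h1, smul_mulVec, one_mulVec]

theorem QF.root_ne {α : ℂ} (hα : α * α = -(d : ℂ)) : α ≠ 0 := by
  rintro rfl
  rw [mul_zero, eq_comm, neg_eq_zero] at hα
  exact k.pos.ne' (by exact_mod_cast hα)

/-- The projections to the eigenspaces. -/
theorem QF.pj_eig {α : ℂ} (hα : α * α = -(d : ℂ)) (v : Fin g ⊕ Fin g → ℂ) :
    qm φ *ᵥ (pj φ α v) = α • pj φ α v := by
  rw [pj_apply, mulVec_smul, mulVec_add, mulVec_smul, k.sqv, ← hα]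
  module

theorem pj_add {α : ℂ} (hα : α ≠ 0) (v : Fin g ⊕ Fin g → ℂ) : pj φ α v + pj φ (-α) v = v := by
  have h1 : (2 * α)⁻¹ * α = (2 : ℂ)⁻¹ := by
    field_simp
  have h2 : (2 * -α)⁻¹ = -(2 * α)⁻¹ := by
    rw [mul_neg, inv_neg]
  rw [pj_apply, pj_apply, h2]
  have h3 : (2 * α)⁻¹ • (qm φ *ᵥ v + α • v) + -(2 * α)⁻¹ • (qm φ *ᵥ v + -α • v) =
      (2 * ((2 * α)⁻¹ * α)) • v := by module
  rw [h3, h1]
  norm_num

theorem pj_of_eig {α : ℂ} (hα : α ≠ 0) {v : Fin g ⊕ Fin g → ℂ} (hv : qm φ *ᵥ v = α • v) :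
    pj φ α v = v := by
  rw [pj_apply, hv, ← two_smul ℂ (α • v), smul_smul, smul_smul]
  have h1 : (2 * α)⁻¹ * (2 * α) = 1 := inv_mul_cancel₀ (mul_ne_zero two_ne_zero hα)
  rw [mul_assoc, h1, one_smul]

theorem pj_of_neg {α : ℂ} {v : Fin g ⊕ Fin g → ℂ} (hv : qm φ *ᵥ v = (-α) • v) :
    pj φ α v = 0 := by
  rw [pj_apply, hv]
  module

theorem QF.pj_comm {α : ℂ} {X : Matrix (Fin g ⊕ Fin g) (Fin g ⊕ Fin g) ℂ} (hX : X ∈ LZ Z)
    (v : Fin g ⊕ Fin g → ℂ) : pj φ α (X *ᵥ v) = X *ᵥ pj φ α v := by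
  rw [pj_apply, pj_apply, mulVec_smul, mulVec_add, mulVec_mulVec, mulVec_mulVec, k.commL X hX,
    mulVec_smul]

include h in
/-- The irreducible submodules. -/
theorem QF.exists_root {U : Submodule ℂ (Fin g ⊕ Fin g → ℂ)} (hU : IrS (LZ Z) U) :
    ∃ α : ℂ, α * α = -(d : ℂ) ∧ ∀ v, v ∈ U ↔ qm φ *ᵥ v = α • v := by
  obtain ⟨π, hπ1, hπ2, hπ3⟩ := h.cred U hU.2.1
  obtain ⟨T, hT⟩ : ∃ T : Matrix (Fin g ⊕ Fin g) (Fin g ⊕ Fin g) ℂ, ∀ v, T *ᵥ v = π v :=
    ⟨LinearMap.toMatrix' π, fun v => LinearMap.toMatrix'_mulVec _ _⟩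
  obtain ⟨x, y, hxy⟩ := k.span (T := T) fun X hX => eq_of_mulVec fun v => by
    rw [← mulVec_mulVec, ← mulVec_mulVec, hT, hT, hπ1 X hX]
  have hπ : ∀ v, π v = x • v + y • (qm φ *ᵥ v) := by
    intro v
    rw [← hT, hxy, add_mulVec, smul_mulVec, smul_mulVec, one_mulVec]
  -- a root
  let γ : ℂ := Complex.I * Real.sqrt d
  have hγ : γ * γ = -(d : ℂ) := by
    have h1 : ((Real.sqrt d : ℝ) : ℂ) * ((Real.sqrt d : ℝ) : ℂ) = (d : ℂ) := by
      rw [← Complex.ofReal_mul, Real.mul_self_sqrt (by exact_mod_cast k.pos.le)]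
      push_cast
      rfl
    calc γ * γ = (Complex.I * Complex.I) *
        (((Real.sqrt d : ℝ) : ℂ) * ((Real.sqrt d : ℝ) : ℂ)) := by ring
    _ = _ := by rw [Complex.I_mul_I, h1]; ring
  have hγ0 := k.root_ne hγ
  -- one of the two eigenspaces meets `U`
  have key : ∀ α : ℂ, α * α = -(d : ℂ) → (∃ u ∈ U, pj φ α u ≠ 0) →
      ∀ v, qm φ *ᵥ v = α • v → v ∈ U := by
    intro α hα ⟨u, hu, hu0⟩ v hv
    have h1 : pj φ α u ∈ U := by
      rw [pj_apply]
      have h2 : qm φ *ᵥ u ∈ U ∨ y = 0 := by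
        by_cases hy : y = 0
        · exact Or.inr hy
        · left
          have h3 := hπ3 u hu
          rw [hπ] at h3
          have h4 : qm φ *ᵥ u = y⁻¹ • ((1 - x) • u) := by
            have h5 : y • (qm φ *ᵥ u) = (1 - x) • u := by
              rw [sub_smul, one_smul]
              exact eq_sub_of_add_eq' h3
            rw [← h5, smul_smul, inv_mul_cancel₀ hy, one_smul]
          rw [h4]
          exact Submodule.smul_mem _ _ (Submodule.smul_mem _ _ hu)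
      rcases h2 with h2 | h2
      · exact Submodule.smul_mem _ _ (Submodule.add_mem _ h2 (Submodule.smul_mem _ _ hu))
      · -- then `U` is everything
        have h3 : x = 1 := by
          have h4 := hπ3 u hu
          rw [hπ, h2, zero_smul, add_zero] at h4
          have h5 : u ≠ 0 := by
            rintro rfl
            exact hu0 (map_zero _)
          have h6 : (x - 1) • u = 0 := by rw [sub_smul, h4, one_smul, sub_self]
          exact sub_eq_zero.1 ((smul_eq_zero.1 h6).resolve_right h5)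
        have h7 := hπ2 ((2 * α)⁻¹ • (qm φ *ᵥ u + α • u))
        rw [hπ, h2, h3, one_smul, zero_smul, add_zero] at h7
        exact h7
    -- the scalar
    have h2 := hπ3 _ h1
    rw [hπ, k.pj_eig hα, smul_smul, ← add_smul] at h2
    have h3 : x + y * α = 1 := by
      have h4 : (x + y * α - 1) • pj φ α u = 0 := by rw [sub_smul, h2, one_smul, sub_self]
      exact sub_eq_zero.1 ((smul_eq_zero.1 h4).resolve_right hu0)
    have h5 := hπ2 v
    rw [hπ, hv, smul_smul, ← add_smul, h3, one_smul] at h5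
    exact h5
  have hex : ∃ α : ℂ, α * α = -(d : ℂ) ∧ ∃ u ∈ U, pj φ α u ≠ 0 := by
    obtain ⟨u, hu, hu0⟩ := Submodule.exists_mem_ne_zero_of_ne_bot hU.1
    by_cases h1 : pj φ γ u = 0
    · refine ⟨-γ, by rw [neg_mul_neg, hγ], u, hu, fun h2 => hu0 ?_⟩
      rw [← pj_add (φ := φ) k hγ0 u, h1, h2, add_zero]
    · exact ⟨γ, hγ, u, hu, h1⟩
  obtain ⟨α, hα, u, hu, hu0⟩ := hex
  have hα0 := k.root_ne hα
  let W : Submodule ℂ (Fin g ⊕ Fin g → ℂ) :=
    { carrier := {v | qm φ *ᵥ v = α • v}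
      add_mem' := by
        intro a b ha hb
        change qm φ *ᵥ (a + b) = α • (a + b)
        rw [mulVec_add, ha, hb, smul_add]
      zero_mem' := by
        change qm φ *ᵥ 0 = α • 0
        rw [mulVec_zero, smul_zero]
      smul_mem' := by
        intro c a ha
        change qm φ *ᵥ (c • a) = α • c • a
        rw [mulVec_smul, ha, smul_comm] }
  have hWU : W ≤ U := fun v hv => key α hα ⟨u, hu, hu0⟩ v hv
  have hWs : Stab (LZ Z) W := by
    intro X hX v hv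
    change qm φ *ᵥ (X *ᵥ v) = α • (X *ᵥ v)
    rw [mulVec_mulVec, ← k.commL X hX, ← mulVec_mulVec, show qm φ *ᵥ v = α • v from hv,
      mulVec_smul]
  refine ⟨α, hα, fun v => ?_⟩
  rcases hU.2.2 W hWU hWs with h1 | h1
  · exfalso
    apply hu0
    have h2 : pj φ α u ∈ W := k.pj_eig hα u
    rw [h1] at h2
    exact h2
  · rw [← h1]
    exact Iff.rfl

section bil

variable {α : ℂ} (hα : α * α = -(d : ℂ)) {U : Submodule ℂ (Fin g ⊕ Fin g → ℂ)}
  (hmem : ∀ v, v ∈ U ↔ qm φ *ᵥ v = α • v)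

include hα hmem in
theorem QF.cj_mem {σ : ℂ ≃+* ℂ} (v : Fin g ⊕ Fin g → ℂ) :
    v ∈ cjS σ U ↔ qm φ *ᵥ v = σ α • v := by
  have _ := hα
  rw [mem_cjS, hmem]
  have hq : (qm φ).map σ = qm φ := cK_aut σ φ
  have hq' : (qm φ).map σ.symm = qm φ := cK_aut σ.symm φ
  constructor
  · intro h1
    have h2 := map_mulVec_aut σ (qm φ) (fun i => σ.symm (v i))
    rw [h1, hq] at h2
    have h3 : (fun i => σ (σ.symm (v i))) = v := by
      funext i
      simp
    rw [h3] at h2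
    rw [← h2]
    funext i
    simp
  · intro h1
    have h2 := map_mulVec_aut σ.symm (qm φ) v
    rw [h1, hq'] at h2
    rw [← h2]
    funext i
    simp

theorem QF.cc_root (hα : α * α = -(d : ℂ)) : cc α = -α := by
  rcases aut_pm hα cc with h1 | h1
  · exfalso
    have h2 : α * (starRingEnd ℂ) α = (Complex.normSq α : ℂ) := Complex.mul_conj α
    have h3 : (starRingEnd ℂ) α = α := h1
    rw [h3, hα] at h2
    have h4 : (-(d : ℝ)) = Complex.normSq α := by exact_mod_cast h2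
    have h5 : (0 : ℝ) < d := by exact_mod_cast k.pos
    have h6 := Complex.normSq_nonneg α
    linarith
  · exact h1

include hα hmem in
theorem QF.cnj_neg {v : Fin g ⊕ Fin g → ℂ} (hv : v ∈ U) : qm φ *ᵥ (cnj v) = (-α) • cnj v := by
  rw [← k.cc_root hα, ← k.cj_mem hα hmem (σ := cc), mem_cjS]
  have h1 : (fun i => cc.symm (cnj v i)) = v := by
    funext i
    simp [cnj]
  rw [h1]
  exact hv

include hα hmem in
theorem QF.cnj_pos {v : Fin g ⊕ Fin g → ℂ} (hv : qm φ *ᵥ v = (-α) • v) : cnj v ∈ U := by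
  rw [← k.cc_root hα, ← k.cj_mem hα hmem (σ := cc), mem_cjS] at hv
  exact hv

include h hα hmem in
/-- There are no nonzero invariant bilinear forms on the eigenspace. -/
theorem QF.no_bil (hU : U ≠ ⊥) (b : (Fin g ⊕ Fin g → ℂ) →ₗ[ℂ] (Fin g ⊕ Fin g → ℂ) →ₗ[ℂ] ℂ)
    (hb : ∀ X ∈ LZ Z, ∀ u ∈ U, ∀ v ∈ U, b (X *ᵥ u) v + b u (X *ᵥ v) = 0) :
    ∀ u ∈ U, ∀ v ∈ U, b u v = 0 := by
  have hα0 := k.root_ne hα
  have hpU : ∀ v, pj φ α v ∈ U := fun v => (hmem _).2 (k.pj_eig hα v)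
  -- the matrix of the form
  let B : Matrix (Fin g ⊕ Fin g) (Fin g ⊕ Fin g) ℂ :=
    Matrix.of fun i j => b (pj φ α (Pi.single i 1)) (pj φ α (Pi.single j 1))
  have hB : ∀ u v, u ⬝ᵥ (B *ᵥ v) = b (pj φ α u) (pj φ α v) := by
    intro u v
    have h1 : u = ∑ i, u i • (Pi.single i 1 : Fin g ⊕ Fin g → ℂ) := by
      funext j
      simp [Finset.sum_apply, Pi.single_apply]
    have h2 : v = ∑ i, v i • (Pi.single i 1 : Fin g ⊕ Fin g → ℂ) := by
      funext j
      simp [Finset.sum_apply, Pi.single_apply]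
    conv_rhs => rw [h1, h2]
    rw [map_sum, map_sum, map_sum, LinearMap.sum_apply]
    simp only [map_smul, LinearMap.smul_apply, map_sum, smul_eq_mul, dotProduct, mulVec,
      Finset.mul_sum]
    refine Finset.sum_congr rfl fun i _ => Finset.sum_congr rfl fun j _ => ?_
    change u i * (b (pj φ α (Pi.single i 1)) (pj φ α (Pi.single j 1)) * v j) = _
    ring
  obtain ⟨T, hTdef⟩ : ∃ T : Matrix (Fin g ⊕ Fin g) (Fin g ⊕ Fin g) ℂ, T = Om g ℂ * Bᵀ := ⟨_, rfl⟩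
  have hT : ∀ u v, om g (T *ᵥ u) v = b (pj φ α u) (pj φ α v) := by
    intro u v
    rw [hTdef, om_apply, ← mulVec_mulVec, ← hB]
    have h1 : (Om g ℂ *ᵥ (Bᵀ *ᵥ u)) ⬝ᵥ (Om g ℂ *ᵥ v) = (Bᵀ *ᵥ u) ⬝ᵥ v := by
      rw [dotProduct_comm, ← vecMul_transpose, ← dotProduct_mulVec, Om_transpose,
        mulVec_mulVec, neg_mul, Om_sq, neg_neg, one_mulVec, dotProduct_comm]
    rw [h1, mulVec_transpose, ← dotProduct_mulVec]
  have hTc : ∀ X ∈ LZ Z, T * X = X * T := by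
    intro X hX
    refine eq_of_mulVec fun u => ?_
    rw [← mulVec_mulVec, ← mulVec_mulVec, ← sub_eq_zero]
    refine om_nd _ fun v => ?_
    rw [map_sub, LinearMap.sub_apply, hT]
    have h1 := h.om_sp hX (T *ᵥ u) v
    have h2 := hT u (X *ᵥ v)
    have h3 := hb X hX _ (hpU u) _ (hpU v)
    rw [k.pj_comm hX] at h2 ⊢
    linear_combination h3 - h1 + h2
  obtain ⟨x, y, hxy⟩ := k.span hTc
  have hTv : ∀ v, T *ᵥ v = x • v + y • (qm φ *ᵥ v) := by
    intro v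
    rw [hxy, add_mulVec, smul_mulVec, smul_mulVec, one_mulVec]
  obtain ⟨w, hw, hw0⟩ := Submodule.exists_mem_ne_zero_of_ne_bot hU
  have hDcomm : ∀ v, qm φ *ᵥ (DZ Z *ᵥ v) = DZ Z *ᵥ (qm φ *ᵥ v) := by
    intro v
    rw [mulVec_mulVec, mulVec_mulVec, k.comm]
  -- the first relation
  have e1 : x - y * α = 0 := by
    have h1 := h.herm_pos hw0
    have h2 := hT (cnj w) (DZ Z *ᵥ w)
    rw [pj_of_neg k (k.cnj_neg hα hmem hw), map_zero, LinearMap.zero_apply, hTv,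
      k.cnj_neg hα hmem hw, smul_smul, ← add_smul, map_smul, LinearMap.smul_apply,
      smul_eq_mul] at h2
    rcases mul_eq_zero.1 h2 with h3 | h3
    · linear_combination h3
    · exfalso
      rw [h3, mul_zero] at h1
      exact lt_irrefl _ h1
  have e2 : x + y * α = 0 := by
    have hw' : cnj w ≠ 0 := by
      intro h0
      apply hw0
      rw [← cnj_cnj w, h0]
      funext i
      simp [cnj]
    have h1 := h.herm_pos hw'
    rw [cnj_cnj] at h1
    have h2 := hT w (DZ Z *ᵥ (cnj w))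
    have h3 : qm φ *ᵥ (DZ Z *ᵥ cnj w) = (-α) • (DZ Z *ᵥ cnj w) := by
      rw [hDcomm, k.cnj_neg hα hmem hw, mulVec_smul]
    rw [pj_of_neg k h3, map_zero, hTv, (hmem w).1 hw, smul_smul, ← add_smul, map_smul,
      LinearMap.smul_apply, smul_eq_mul] at h2
    rcases mul_eq_zero.1 h2 with h4 | h4
    · exact h4
    · exfalso
      rw [h4, mul_zero] at h1
      exact lt_irrefl _ h1
  have hx : x = 0 := by linear_combination (e1 + e2) / 2
  have hy : y = 0 := by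
    have h1 : y * α = 0 := by linear_combination (e2 - e1) / 2
    exact (mul_eq_zero.1 h1).resolve_right hα0
  intro u hu v hv
  have h1 := hT u v
  rw [hTv, hx, hy, zero_smul, zero_smul, add_zero, map_zero, LinearMap.zero_apply,
    pj_of_eig k hα0 ((hmem u).1 hu), pj_of_eig k hα0 ((hmem v).1 hv)] at h1
  exact h1.symm

include h hα hmem in
theorem QF.isot (hU : U ≠ ⊥) : ∀ u ∈ U, ∀ v ∈ U, om g u v = 0 :=
  k.no_bil h hα hmem hU (om g) fun _ hX u _ v _ => h.om_sp hX u v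

include h hα hmem in
theorem QF.dim (hU : U ≠ ⊥) : finrank ℂ U = g := by
  have _ := hU
  have hα0 := k.root_ne hα
  have h1 : U ⊓ cjS cc U = ⊥ := by
    rw [eq_bot_iff]
    rintro v ⟨hv, hv'⟩
    rw [SetLike.mem_coe, k.cj_mem hα hmem, k.cc_root hα, (hmem v).1 hv] at hv'
    have h2 : (2 * α) • v = 0 := by
      have h3 : (2 * α) • v = α • v - (-α) • v := by module
      rw [h3, ← hv', sub_self]
    exact (smul_eq_zero.1 h2).resolve_left (mul_ne_zero two_ne_zero hα0)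
  have h2 : U ⊔ cjS cc U = ⊤ := by
    rw [eq_top_iff]
    intro v _
    rw [← pj_add (φ := φ) k hα0 v]
    refine Submodule.add_mem_sup ((hmem _).2 (k.pj_eig hα v)) ?_
    rw [k.cj_mem hα hmem, k.cc_root hα]
    exact k.pj_eig (by rw [neg_mul_neg, hα]) v
  have h3 := Submodule.finrank_sup_add_finrank_inf_eq U (cjS cc U)
  rw [h1, h2, finrank_bot, finrank_top, finrank_cjS, finrank_V] at h3
  have _ := h
  omega

include h hα hmem in
/-- The data of the eigenspace. -/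
theorem QF.kw (hU : U ≠ ⊥) : KW Z U φ α d where
  dim := k.dim h hα hmem hU
  comm := k.commL
  pos := k.pos
  sq := k.sq
  al := hα
  mem := hmem
  isot := k.isot h hα hmem hU

include h hα hmem in
/-- The complex structure is not a scalar. -/
theorem QF.nonscalar (hU : IrS (LZ Z) U) (hn : 2 ≤ finrank ℂ U) (σ : ℂ ≃+* ℂ) (c : ℂ) :
    ∃ u ∈ U, DS Z σ *ᵥ u ≠ c • u := by
  by_contra hcon
  push Not at hcon
  have hα0 := k.root_ne hα
  have hiso := k.isot h hα hmem hU.1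
  -- all conjugates are scalars
  have key : ∀ τ : ℂ ≃+* ℂ, ∃ c' : ℂ, ∀ u ∈ U, DS Z τ *ᵥ u = c' • u := by
    intro τ
    let ρ : ℂ ≃+* ℂ := σ.symm.trans τ
    have hρ : (DS Z σ).map ρ = DS Z τ := by
      rw [DS_map]
      congr 1
      ext z
      simp [ρ]
    have h1 : ∀ v ∈ cjS ρ U, DS Z τ *ᵥ v = ρ c • v := by
      intro v hv
      rw [mem_cjS] at hv
      have h2 := congrArg (fun w : Fin g ⊕ Fin g → ℂ => fun i => ρ (w i)) (hcon _ hv)
      beta_reduce at h2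
      rw [map_mulVec_aut ρ, hρ] at h2
      have h3 : (fun i => ρ (ρ.symm (v i))) = v := by
        funext i
        simp
      rw [h3] at h2
      rw [h2]
      funext i
      simp
    rcases aut_pm hα ρ with h2 | h2
    · refine ⟨ρ c, fun u hu => h1 u ?_⟩
      rw [k.cj_mem hα hmem, h2]
      exact (hmem u).1 hu
    · refine ⟨-ρ c, fun u hu => ?_⟩
      rw [← sub_eq_zero]
      refine om_nd _ fun v => ?_
      rw [← pj_add (φ := φ) k hα0 v, map_add]
      have hDu : DS Z τ *ᵥ u ∈ U := hU.2.1 _ (DS_mem τ) u hu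
      have h3 : DS Z τ *ᵥ u - (-ρ c) • u ∈ U := U.sub_mem hDu (U.smul_mem _ hu)
      rw [hiso _ h3 _ ((hmem _).2 (k.pj_eig hα v)), zero_add, map_sub, LinearMap.sub_apply,
        map_smul, LinearMap.smul_apply]
      have h4 : pj φ (-α) v ∈ cjS ρ U := by
        rw [k.cj_mem hα hmem, h2]
        exact k.pj_eig (by rw [neg_mul_neg, hα]) v
      have h5 := h.om_sp (DS_mem τ) u (pj φ (-α) v)
      rw [h1 _ h4, map_smul] at h5
      rw [smul_eq_mul] at h5 ⊢
      linear_combination h5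
  -- all elements of the Lie algebra are scalars
  let C : Submodule ℂ (Matrix (Fin g ⊕ Fin g) (Fin g ⊕ Fin g) ℂ) :=
    { carrier := {X | ∃ c' : ℂ, ∀ u ∈ U, X *ᵥ u = c' • u}
      add_mem' := by
        rintro X Y ⟨c1, h1⟩ ⟨c2, h2⟩
        exact ⟨c1 + c2, fun u hu => by rw [add_mulVec, h1 u hu, h2 u hu, add_smul]⟩
      zero_mem' := ⟨0, fun u _ => by rw [zero_mulVec, zero_smul]⟩
      smul_mem' := by
        rintro c X ⟨c1, h1⟩
        exact ⟨c * c1, fun u hu => by rw [smul_mulVec, h1 u hu, smul_smul]⟩ }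
  have hC : LZ Z ≤ C := by
    refine LZ_le key ?_
    rintro A ⟨c1, h1⟩ B ⟨c2, h2⟩
    refine ⟨0, fun u hu => ?_⟩
    rw [sub_mulVec, ← mulVec_mulVec, ← mulVec_mulVec, h2 u hu, mulVec_smul, h1 u hu, mulVec_smul,
      h2 u hu, smul_smul, smul_smul, mul_comm, sub_self, zero_smul]
  obtain ⟨u, hu, hu0⟩ := Submodule.exists_mem_ne_zero_of_ne_bot hU.1
  rcases hU.2.2 (Submodule.span ℂ {u}) (by
    rw [Submodule.span_singleton_le_iff_mem]
    exact hu) (by
    intro X hX w hw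
    obtain ⟨c', h1⟩ := hC hX
    obtain ⟨t, rfl⟩ := Submodule.mem_span_singleton.1 hw
    rw [mulVec_smul, h1 u hu]
    exact Submodule.smul_mem _ _ (Submodule.smul_mem _ _ (Submodule.mem_span_singleton_self u)))
    with h1 | h1
  · rw [Submodule.span_singleton_eq_bot] at h1
    exact hu0 h1
  · rw [← h1, finrank_span_singleton hu0] at hn
    omega

end bil

end qf

end

end Pool.Agent.R915
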