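import Mathlib
import Pool.Agent.R915.C2

/-!
# Irreducible submodules with multiplicities (2, 2)
-/

set_option linter.unusedSectionVars false

namespace Pool.Agent.R915

open Matrix Module Pool.Agent.W437.HC Pool.Agent.W437.HD Pool.Agent.TH504.CB Pool.Agent.Y90
open Pool.Agent.W548.Odd hiding cv
open Pool.Agent.H204R3.CM (IsHodge)
open Pool.Agent.W437.HP (cK cK_mul cK_one)

noncomputable section

section two

variable {W : Type*} [AddCommGroup W] [Module ℂ W] (f : Basis (Fin 2) ℂ W)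

/-- The determinant form. -/
def nu (u v : W) : ℂ := f.repr u 0 * f.repr v 1 - f.repr u 1 * f.repr v 0

theorem nu_smul_left (c : ℂ) (u v : W) : nu f (c • u) v = c * nu f u v := by
  unfold nu
  simp only [map_smul, Finsupp.smul_apply, smul_eq_mul]
  ring

theorem nu_smul_right (c : ℂ) (u v : W) : nu f u (c • v) = c * nu f u v := by
  unfold nu
  simp only [map_smul, Finsupp.smul_apply, smul_eq_mul]
  ring

theorem nu_add_left (u u' v : W) : nu f (u + u') v = nu f u v + nu f u' v := by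
  unfold nu
  simp only [map_add, Finsupp.add_apply]
  ring

theorem nu_add_right (u v v' : W) : nu f u (v + v') = nu f u v + nu f u v' := by
  unfold nu
  simp only [map_add, Finsupp.add_apply]
  ring

theorem nu_zero_left (v : W) : nu f 0 v = 0 := by
  unfold nu
  simp

theorem nu_zero_right (v : W) : nu f v 0 = 0 := by
  unfold nu
  simp

theorem nu_tr (H : W →ₗ[ℂ] W) (u v : W) :
    nu f (H u) v + nu f u (H v) = LinearMap.trace ℂ W H * nu f u v := by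
  have h1 : ∀ (w : W) (i : Fin 2), f.repr (H w) i =
      LinearMap.toMatrix f f H i 0 * f.repr w 0 + LinearMap.toMatrix f f H i 1 * f.repr w 1 := by
    intro w i
    have h2 := congrFun (LinearMap.toMatrix_mulVec_repr f f H w) i
    rw [← h2, mulVec, dotProduct, Fin.sum_univ_two]
  rw [LinearMap.trace_eq_matrix_trace ℂ f, Matrix.trace, Fin.sum_univ_two]
  unfold nu
  rw [h1, h1, h1, h1]
  simp only [Matrix.diag_apply]
  ring

end two

section main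

variable {g : ℕ} {Z : Matrix (Fin g) (Fin g) ℂ}

theorem D_half {c : ℂ} (hc : c * c = 1) (h : PM Z) (w : Fin g ⊕ Fin g → ℂ) :
    DZ Z *ᵥ ((2 : ℂ)⁻¹ • (w + c • (DZ Z *ᵥ w))) = c • ((2 : ℂ)⁻¹ • (w + c • (DZ Z *ᵥ w))) := by
  have h2 : DZ Z *ᵥ (DZ Z *ᵥ w) = w := by rw [mulVec_mulVec, DZ_sq h.det, one_mulVec]
  rw [mulVec_smul, mulVec_add, mulVec_smul, h2, smul_comm c, smul_add c, smul_smul c c, hc,
    one_smul, add_comm]

/-- The projection to the part of a submodule in an eigenspace of the complex structure. -/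
def pE (h : PM Z) {U : Submodule ℂ (Fin g ⊕ Fin g → ℂ)} (hU : Stab (LZ Z) U)
    (P : (Fin g ⊕ Fin g → ℂ) →ₗ[ℂ] (Fin g ⊕ Fin g → ℂ)) (hP : ∀ v, P v ∈ U) (c : ℂ)
    (hc : c * c = 1) :
    (Fin g ⊕ Fin g → ℂ) →ₗ[ℂ] (U ⊓ eig Z c : Submodule ℂ (Fin g ⊕ Fin g → ℂ)) :=
  ((2 : ℂ)⁻¹ • (P + c • ((mulVecLin (DZ Z)).comp P))).codRestrict _ fun v => by
    refine ⟨?_, D_half hc h (P v)⟩
    exact U.smul_mem _ (U.add_mem (hP v) (U.smul_mem _ (hU _ DZ_mem _ (hP v))))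

theorem pE_coe (h : PM Z) {U : Submodule ℂ (Fin g ⊕ Fin g → ℂ)} (hU : Stab (LZ Z) U)
    (P : (Fin g ⊕ Fin g → ℂ) →ₗ[ℂ] (Fin g ⊕ Fin g → ℂ)) (hP : ∀ v, P v ∈ U) (c : ℂ)
    (hc : c * c = 1) (v : Fin g ⊕ Fin g → ℂ) :
    (pE h hU P hP c hc v : Fin g ⊕ Fin g → ℂ) = (2 : ℂ)⁻¹ • (P v + c • (DZ Z *ᵥ P v)) := rfl

/-- Elements of rank one in the case of the multiplicities (2, 2). -/
theorem rk1_22 (h : PM Z) {U : Submodule ℂ (Fin g ⊕ Fin g → ℂ)} (hU : IrS (LZ Z) U)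
    (hp : pd Z U = 2) (hq : qd Z U = 2)
    (hns : ∀ c : ℂ, ∃ u ∈ U, DZ Z *ᵥ u ≠ c • u)
    (P : (Fin g ⊕ Fin g → ℂ) →ₗ[ℂ] (Fin g ⊕ Fin g → ℂ))
    (hP1 : ∀ X ∈ LZ Z, ∀ w, P (X *ᵥ w) = X *ᵥ P w) (hP2 : ∀ w, P w ∈ U) (hP3 : ∀ w ∈ U, P w = w)
    (htr : ∀ X ∈ LZ Z, LinearMap.trace ℂ _ ((mulVecLin X).comp P) = 0)
    (hnb : ∀ b : (Fin g ⊕ Fin g → ℂ) →ₗ[ℂ] (Fin g ⊕ Fin g → ℂ) →ₗ[ℂ] ℂ,
      (∀ X ∈ LZ Z, ∀ u ∈ U, ∀ v ∈ U, b (X *ᵥ u) v + b u (X *ᵥ v) = 0) →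
      ∀ u ∈ U, ∀ v ∈ U, b u v = 0) : Rk1 Z U := by
  by_contra hR
  have hDD : ∀ w, DZ Z *ᵥ (DZ Z *ᵥ w) = w := by
    intro w
    rw [mulVec_mulVec, DZ_sq h.det, one_mulVec]
  have hdim : finrank ℂ U = 4 := by rw [← pd_add_qd h hU.2.1, hp, hq]
  have one_one : (1 : ℂ) * 1 = 1 := one_mul 1
  have neg_neg' : (-1 : ℂ) * (-1) = 1 := by norm_num
  obtain ⟨pp, hpp⟩ : ∃ pp, pp = pE h hU.2.1 P hP2 1 one_one := ⟨_, rfl⟩
  obtain ⟨pm, hpm⟩ : ∃ pm, pm = pE h hU.2.1 P hP2 (-1) neg_neg' := ⟨_, rfl⟩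
  have hppv : ∀ v, (pp v : Fin g ⊕ Fin g → ℂ) = (2 : ℂ)⁻¹ • (P v + DZ Z *ᵥ P v) := by
    intro v
    rw [hpp, pE_coe, one_smul]
  have hpmv : ∀ v, (pm v : Fin g ⊕ Fin g → ℂ) = (2 : ℂ)⁻¹ • (P v - DZ Z *ᵥ P v) := by
    intro v
    rw [hpm, pE_coe, neg_one_smul, sub_eq_add_neg]
  have hsum : ∀ v, (pp v : Fin g ⊕ Fin g → ℂ) + pm v = P v := by
    intro v
    rw [hppv, hpmv]
    module
  -- elements of degree one
  have hkill : ∀ N : Matrix (Fin g ⊕ Fin g) (Fin g ⊕ Fin g) ℂ, N * DZ Z = -N →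
      ∀ v ∈ eig Z 1, N *ᵥ v = 0 := by
    intro N hN v hv
    have h1 : (N * DZ Z) *ᵥ v = N *ᵥ v := by
      rw [← mulVec_mulVec, mem_eig.1 hv, one_smul]
    rw [hN, neg_mulVec] at h1
    have h2 : (2 : ℂ) • (N *ᵥ v) = 0 := by
      rw [two_smul]
      nth_rewrite 1 [← h1]
      rw [neg_add_cancel]
    exact (smul_eq_zero.1 h2).resolve_left two_ne_zero
  have hinj : ∀ N ∈ LZ Z, DZ Z * N = N → N * DZ Z = -N → (∃ u ∈ U, N *ᵥ u ≠ 0) →
      ∀ f ∈ (U ⊓ eig Z (-1) : Submodule ℂ (Fin g ⊕ Fin g → ℂ)), N *ᵥ f = 0 → f = 0 := by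
    intro N hN h1 h2 h3 f hf hNf
    have h4 := two_rank_le h hU.2.1 hN h1 h2
    have h5 := map_rank_ne h3
    have h6 : finrank ℂ (U.map (mulVecLin N)) ≠ 1 := fun h7 =>
      hR ⟨DZ Z, Or.inl rfl, N, hN, h1, h2, h7⟩
    have h7 : finrank ℂ (U.map (mulVecLin N)) = 2 := by omega
    have h8 : U.map (mulVecLin N) =
        (U ⊓ eig Z (-1) : Submodule ℂ (Fin g ⊕ Fin g → ℂ)).map (mulVecLin N) := by
      apply le_antisymm
      · rintro _ ⟨u, hu, rfl⟩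
        refine ⟨pm u, (pm u).2, ?_⟩
        have h9 : u = (pp u : Fin g ⊕ Fin g → ℂ) + pm u := by rw [hsum, hP3 u hu]
        conv_rhs => rw [h9]
        rw [map_add, mulVecLin_apply, mulVecLin_apply, hkill N h2 _ (pp u).2.2, zero_add]
      · exact Submodule.map_mono inf_le_left
    have h10 := LinearMap.finrank_range_add_finrank_ker
      ((mulVecLin N).domRestrict (U ⊓ eig Z (-1) : Submodule ℂ (Fin g ⊕ Fin g → ℂ)))
    have h11 : LinearMap.range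
        ((mulVecLin N).domRestrict (U ⊓ eig Z (-1) : Submodule ℂ (Fin g ⊕ Fin g → ℂ))) =
        (U ⊓ eig Z (-1) : Submodule ℂ (Fin g ⊕ Fin g → ℂ)).map (mulVecLin N) :=
      LinearMap.range_domRestrict _ _
    rw [h11, ← h8, h7] at h10
    have h12 : finrank ℂ (U ⊓ eig Z (-1) : Submodule ℂ (Fin g ⊕ Fin g → ℂ)) = 2 := hq
    rw [h12] at h10
    have h13 : LinearMap.ker
        ((mulVecLin N).domRestrict (U ⊓ eig Z (-1) : Submodule ℂ (Fin g ⊕ Fin g → ℂ))) = ⊥ := by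
      rw [← Submodule.finrank_eq_zero (R := ℂ)]
      omega
    have h14 : (⟨f, hf⟩ : (U ⊓ eig Z (-1) : Submodule ℂ (Fin g ⊕ Fin g → ℂ))) ∈ LinearMap.ker
        ((mulVecLin N).domRestrict (U ⊓ eig Z (-1) : Submodule ℂ (Fin g ⊕ Fin g → ℂ))) := by
      rw [LinearMap.mem_ker]
      exact hNf
    rw [h13, Submodule.mem_bot] at h14
    exact congrArg Subtype.val h14
  obtain ⟨A, hA, hA1, hA2, hA3⟩ := exists_upG h hU hns
  have hAA : A * A = 0 := by
    have h1 : A * A = -(A * A) := by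
      calc A * A = A * (DZ Z * A) := by rw [hA1]
      _ = (A * DZ Z) * A := by rw [mul_assoc]
      _ = -(A * A) := by rw [hA2, neg_mul]
    have h2 : (2 : ℂ) • (A * A) = 0 := by
      rw [two_smul]
      nth_rewrite 1 [h1]
      rw [neg_add_cancel]
    exact (smul_eq_zero.1 h2).resolve_left two_ne_zero
  -- the isomorphism
  have hAm : ∀ v ∈ U, A *ᵥ v ∈ (U ⊓ eig Z 1 : Submodule ℂ (Fin g ⊕ Fin g → ℂ)) := by
    intro v hv
    refine ⟨hU.2.1 A hA v hv, ?_⟩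
    rw [SetLike.mem_coe, mem_eig, mulVec_mulVec, hA1, one_smul]
  let A0 : (U ⊓ eig Z (-1) : Submodule ℂ (Fin g ⊕ Fin g → ℂ)) →ₗ[ℂ]
      (U ⊓ eig Z 1 : Submodule ℂ (Fin g ⊕ Fin g → ℂ)) :=
    ((mulVecLin A).domRestrict _).codRestrict _ fun v => hAm v v.2.1
  have hA0 : Function.Injective A0 := by
    rw [injective_iff_map_eq_zero]
    intro v hv
    exact Subtype.ext (hinj A hA hA1 hA2 hA3 v v.2 (congrArg Subtype.val hv))
  let Ae := LinearMap.linearEquivOfInjective A0 hA0 (by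
    change qd Z U = pd Z U
    rw [hp, hq])
  have hAe : ∀ v, (Ae v : Fin g ⊕ Fin g → ℂ) = A *ᵥ (v : Fin g ⊕ Fin g → ℂ) := fun v => rfl
  -- all elements of degree one are multiples
  have hone : ∀ N ∈ LZ Z, DZ Z * N = N → N * DZ Z = -N → ∃ c : ℂ, ∀ u ∈ U, N *ᵥ u = c • (A *ᵥ u) := by
    intro N hN h1 h2
    let N0 : (U ⊓ eig Z (-1) : Submodule ℂ (Fin g ⊕ Fin g → ℂ)) →ₗ[ℂ]
        (U ⊓ eig Z 1 : Submodule ℂ (Fin g ⊕ Fin g → ℂ)) :=
      ((mulVecLin N).domRestrict _).codRestrict _ fun v => by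
        refine ⟨hU.2.1 N hN v v.2.1, ?_⟩
        change DZ Z *ᵥ (N *ᵥ (v : Fin g ⊕ Fin g → ℂ)) = (1 : ℂ) • (N *ᵥ (v : Fin g ⊕ Fin g → ℂ))
        rw [mulVec_mulVec, h1, one_smul]
    have : Nontrivial (U ⊓ eig Z (-1) : Submodule ℂ (Fin g ⊕ Fin g → ℂ)) := by
      apply Module.nontrivial_of_finrank_pos (R := ℂ)
      change 0 < qd Z U
      omega
    obtain ⟨c, hc⟩ := Module.End.exists_eigenvalue (Ae.symm.toLinearMap.comp N0)
    obtain ⟨v, hv⟩ := hc.exists_hasEigenvector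
    have h3 : Ae.symm (N0 v) = c • v := hv.apply_eq_smul
    have h4 : N0 v = c • Ae v := by rw [← map_smul, ← h3, LinearEquiv.apply_symm_apply]
    have h5 : N *ᵥ (v : Fin g ⊕ Fin g → ℂ) = c • (A *ᵥ (v : Fin g ⊕ Fin g → ℂ)) :=
      congrArg Subtype.val h4
    refine ⟨c, ?_⟩
    by_contra hcon
    push Not at hcon
    obtain ⟨u, hu, hu'⟩ := hcon
    refine hv.2 (Subtype.ext (hinj (N - c • A) (Submodule.sub_mem _ hN (Submodule.smul_mem _ _ hA))
      ?_ ?_ ⟨u, hu, ?_⟩ v v.2 ?_))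
    · rw [mul_sub, h1, Matrix.mul_smul, hA1]
    · rw [sub_mul, h2, Matrix.smul_mul, hA2, smul_neg]
      abel
    · rw [sub_mulVec, smul_mulVec]
      exact sub_ne_zero.2 hu'
    · rw [sub_mulVec, smul_mulVec, h5, sub_self]
  have hpmP : ∀ v : (U ⊓ eig Z (-1) : Submodule ℂ (Fin g ⊕ Fin g → ℂ)), pm v = v := by
    intro v
    apply Subtype.ext
    rw [hpmv, hP3 _ v.2.1, mem_eig.1 v.2.2]
    module
  have hppP : ∀ v : (U ⊓ eig Z 1 : Submodule ℂ (Fin g ⊕ Fin g → ℂ)), pp v = v := by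
    intro v
    apply Subtype.ext
    rw [hppv, hP3 _ v.2.1, mem_eig.1 v.2.2]
    module
  have hppM : ∀ v : (U ⊓ eig Z (-1) : Submodule ℂ (Fin g ⊕ Fin g → ℂ)), pp v = 0 := by
    intro v
    apply Subtype.ext
    rw [hppv, hP3 _ v.2.1, mem_eig.1 v.2.2]
    change _ = (0 : Fin g ⊕ Fin g → ℂ)
    module
  -- the bilinear form
  let f := Module.finBasisOfFinrankEq ℂ (U ⊓ eig Z (-1) : Submodule ℂ (Fin g ⊕ Fin g → ℂ)) hq
  let b : (Fin g ⊕ Fin g → ℂ) →ₗ[ℂ] (Fin g ⊕ Fin g → ℂ) →ₗ[ℂ] ℂ :=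
    LinearMap.mk₂ ℂ (fun u v => nu f (Ae.symm (pp u)) (pm v) - nu f (pm u) (Ae.symm (pp v)))
      (fun u u' v => by
        rw [map_add, map_add, map_add, nu_add_left, nu_add_left]
        ring)
      (fun c u v => by
        rw [map_smul, map_smul, map_smul, nu_smul_left, nu_smul_left, smul_eq_mul]
        ring)
      (fun u v v' => by
        rw [map_add, map_add, map_add, nu_add_right, nu_add_right]
        ring)
      (fun c u v => by
        rw [map_smul, map_smul, map_smul, nu_smul_right, nu_smul_right, smul_eq_mul]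
        ring)
  have hbv : ∀ u v, b u v = nu f (Ae.symm (pp u)) (pm v) - nu f (pm u) (Ae.symm (pp v)) :=
    fun u v => rfl
  -- invariance
  have inv1 : ∀ N ∈ LZ Z, DZ Z * N = N → N * DZ Z = -N → ∀ u ∈ U, ∀ v ∈ U,
      b (N *ᵥ u) v + b u (N *ᵥ v) = 0 := by
    intro N hN h1 h2
    obtain ⟨c, hc⟩ := hone N hN h1 h2
    have e1 : ∀ u ∈ U, pm (N *ᵥ u) = 0 := by
      intro u hu
      apply Subtype.ext
      rw [hpmv, hP1 N hN, mulVec_mulVec, h1, sub_self, smul_zero]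
      rfl
    have e2 : ∀ u ∈ U, Ae.symm (pp (N *ᵥ u)) = c • pm u := by
      intro u hu
      rw [LinearEquiv.symm_apply_eq, map_smul]
      apply Subtype.ext
      change (pp (N *ᵥ u) : Fin g ⊕ Fin g → ℂ) = c • (Ae (pm u) : Fin g ⊕ Fin g → ℂ)
      rw [hppv, hP1 N hN, mulVec_mulVec, h1, hP3 u hu, hAe, ← two_smul ℂ, smul_smul]
      norm_num
      have h3 : u = (pp u : Fin g ⊕ Fin g → ℂ) + pm u := by rw [hsum, hP3 u hu]
      conv_lhs => rw [h3]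
      rw [mulVec_add, hkill N h2 _ (pp u).2.2, zero_add, hc _ (pm u).2.1]
    intro u hu v hv
    rw [hbv, hbv, e1 u hu, e1 v hv, e2 u hu, e2 v hv, nu_smul_left, nu_smul_right, nu_zero_left,
      nu_zero_right]
    ring
  have hkill' : ∀ N : Matrix (Fin g ⊕ Fin g) (Fin g ⊕ Fin g) ℂ, N * DZ Z = N →
      ∀ v ∈ eig Z (-1), N *ᵥ v = 0 := by
    intro N hN v hv
    have h1 : (N * DZ Z) *ᵥ v = -(N *ᵥ v) := by
      rw [← mulVec_mulVec, mem_eig.1 hv, mulVec_smul, neg_one_smul]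
    rw [hN] at h1
    have h2 : (2 : ℂ) • (N *ᵥ v) = 0 := by
      rw [two_smul]
      nth_rewrite 1 [h1]
      rw [neg_add_cancel]
    exact (smul_eq_zero.1 h2).resolve_left two_ne_zero
  have inv2 : ∀ N ∈ LZ Z, DZ Z * N = -N → N * DZ Z = N → ∀ u ∈ U, ∀ v ∈ U,
      b (N *ᵥ u) v + b u (N *ᵥ v) = 0 := by
    intro N hN h1 h2
    -- the scalar
    have h3 : A * N * A ∈ LZ Z := by
      have h4 := LZ_br (LZ_br hA hN) hA
      have h5 : (A * N - N * A) * A - A * (A * N - N * A) = (2 : ℂ) • (A * N * A) := by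
        have h6 : (A * N - N * A) * A - A * (A * N - N * A) =
            A * N * A + A * N * A - N * (A * A) - (A * A) * N := by noncomm_ring
        rw [h6, hAA, mul_zero, zero_mul, sub_zero, sub_zero, two_smul]
      rw [h5] at h4
      have h7 := Submodule.smul_mem _ ((2 : ℂ)⁻¹) h4
      rwa [smul_smul, inv_mul_cancel₀ two_ne_zero, one_smul] at h7
    obtain ⟨c, hc⟩ := hone _ h3 (by rw [← mul_assoc, ← mul_assoc, hA1]) (by
      rw [mul_assoc, hA2, mul_neg])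
    have hNA : ∀ w : (U ⊓ eig Z (-1) : Submodule ℂ (Fin g ⊕ Fin g → ℂ)),
        N *ᵥ (A *ᵥ (w : Fin g ⊕ Fin g → ℂ)) = c • (w : Fin g ⊕ Fin g → ℂ) := by
      intro w
      have h8 := hc w w.2.1
      rw [← mulVec_mulVec, ← mulVec_mulVec] at h8
      rw [← sub_eq_zero]
      refine hinj A hA hA1 hA2 hA3 _ ⟨?_, ?_⟩ ?_
      · exact U.sub_mem (hU.2.1 N hN _ (hU.2.1 A hA _ w.2.1)) (U.smul_mem _ w.2.1)
      · rw [SetLike.mem_coe, mem_eig, mulVec_sub, mulVec_mulVec, h1, mulVec_smul,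
          mem_eig.1 w.2.2, neg_mulVec]
        module
      · rw [mulVec_sub, h8, mulVec_smul, sub_self]
    have e1 : ∀ u ∈ U, pp (N *ᵥ u) = 0 := by
      intro u hu
      apply Subtype.ext
      rw [hppv, hP1 N hN, mulVec_mulVec, h1, neg_mulVec, add_neg_cancel, smul_zero]
      rfl
    have e2 : ∀ u ∈ U, pm (N *ᵥ u) = c • Ae.symm (pp u) := by
      intro u hu
      apply Subtype.ext
      change (pm (N *ᵥ u) : Fin g ⊕ Fin g → ℂ) = c • (Ae.symm (pp u) : Fin g ⊕ Fin g → ℂ)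
      rw [hpmv, hP1 N hN, mulVec_mulVec, h1, hP3 u hu, neg_mulVec, sub_neg_eq_add,
        ← two_smul ℂ, smul_smul]
      norm_num
      have h3 : u = (pp u : Fin g ⊕ Fin g → ℂ) + pm u := by rw [hsum, hP3 u hu]
      have h9 : (pp u : Fin g ⊕ Fin g → ℂ) =
          A *ᵥ ((Ae.symm (pp u) : (U ⊓ eig Z (-1) : Submodule ℂ (Fin g ⊕ Fin g → ℂ))) :
            Fin g ⊕ Fin g → ℂ) := by
        rw [← hAe, LinearEquiv.apply_symm_apply]
      conv_lhs => rw [h3]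
      rw [mulVec_add, hkill' N h2 _ (pm u).2.2, add_zero]
      conv_lhs => rw [h9]
      exact hNA _
    intro u hu v hv
    rw [hbv, hbv, e1 u hu, e1 v hv, e2 u hu, e2 v hv, map_zero, nu_smul_left, nu_smul_right,
      nu_zero_left, nu_zero_right]
    ring
  have inv0 : ∀ N ∈ LZ Z, DZ Z * N = N * DZ Z → ∀ u ∈ U, ∀ v ∈ U,
      b (N *ᵥ u) v + b u (N *ᵥ v) = 0 := by
    intro N hN h1
    obtain ⟨χ, hχ⟩ := hone (N * A - A * N) (LZ_br hN hA)
      (by rw [mul_sub, ← mul_assoc, h1, mul_assoc, hA1, ← mul_assoc, hA1]) (by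
        rw [sub_mul, mul_assoc, hA2, mul_assoc A, ← h1, ← mul_assoc, hA2]
        noncomm_ring)
    let H : (U ⊓ eig Z (-1) : Submodule ℂ (Fin g ⊕ Fin g → ℂ)) →ₗ[ℂ]
        (U ⊓ eig Z (-1) : Submodule ℂ (Fin g ⊕ Fin g → ℂ)) :=
      (pm.comp (mulVecLin N)).comp (Submodule.subtype _)
    let K : (U ⊓ eig Z 1 : Submodule ℂ (Fin g ⊕ Fin g → ℂ)) →ₗ[ℂ]
        (U ⊓ eig Z 1 : Submodule ℂ (Fin g ⊕ Fin g → ℂ)) :=
      (pp.comp (mulVecLin N)).comp (Submodule.subtype _)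
    have hDN : ∀ v, DZ Z *ᵥ (N *ᵥ v) = N *ᵥ (DZ Z *ᵥ v) := by
      intro v
      rw [mulVec_mulVec, mulVec_mulVec, h1]
    have e1 : ∀ u, (pm (N *ᵥ u) : Fin g ⊕ Fin g → ℂ) = N *ᵥ (pm u : Fin g ⊕ Fin g → ℂ) := by
      intro u
      rw [hpmv, hpmv, hP1 N hN, hDN, mulVec_smul, mulVec_sub]
    have e2 : ∀ u, (pp (N *ᵥ u) : Fin g ⊕ Fin g → ℂ) = N *ᵥ (pp u : Fin g ⊕ Fin g → ℂ) := by
      intro u
      rw [hppv, hppv, hP1 N hN, hDN, mulVec_smul, mulVec_add]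
    have hH : ∀ w, (H w : Fin g ⊕ Fin g → ℂ) = N *ᵥ (w : Fin g ⊕ Fin g → ℂ) := by
      intro w
      change (pm (N *ᵥ (w : Fin g ⊕ Fin g → ℂ)) : Fin g ⊕ Fin g → ℂ) = _
      rw [e1, hpmP]
    have hK : ∀ w, (K w : Fin g ⊕ Fin g → ℂ) = N *ᵥ (w : Fin g ⊕ Fin g → ℂ) := by
      intro w
      change (pp (N *ᵥ (w : Fin g ⊕ Fin g → ℂ)) : Fin g ⊕ Fin g → ℂ) = _
      rw [e2, hppP]
    have hKA : ∀ w, K (Ae w) = Ae (H w + χ • w) := by
      intro w
      apply Subtype.ext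
      rw [hK, hAe, hAe]
      have h2 := hχ w w.2.1
      rw [sub_mulVec, ← mulVec_mulVec, ← mulVec_mulVec] at h2
      have h3 : ((H w + χ • w : (U ⊓ eig Z (-1) : Submodule ℂ (Fin g ⊕ Fin g → ℂ))) :
          Fin g ⊕ Fin g → ℂ) = (H w : Fin g ⊕ Fin g → ℂ) + χ • (w : Fin g ⊕ Fin g → ℂ) := rfl
      rw [h3, mulVec_add, mulVec_smul, ← h2, hH]
      abel
    -- the trace
    have hT : LinearMap.trace ℂ _ H + χ = 0 := by
      have h2 := htr N hN
      have h3 : (mulVecLin N).comp P =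
          ((mulVecLin N).comp (Submodule.subtype _)).comp pp +
          ((mulVecLin N).comp (Submodule.subtype _)).comp pm := by
        refine LinearMap.ext fun v => ?_
        change N *ᵥ P v = N *ᵥ (pp v : Fin g ⊕ Fin g → ℂ) + N *ᵥ (pm v : Fin g ⊕ Fin g → ℂ)
        rw [← mulVec_add, hsum]
      rw [h3, map_add, LinearMap.trace_comp_comm' pp _, LinearMap.trace_comp_comm' pm _] at h2
      have h4 : LinearMap.trace ℂ _ (pp.comp ((mulVecLin N).comp (Submodule.subtype _))) =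
          LinearMap.trace ℂ _ K := rfl
      have h5 : LinearMap.trace ℂ _ (pm.comp ((mulVecLin N).comp (Submodule.subtype _))) =
          LinearMap.trace ℂ _ H := rfl
      have h6 : K = Ae.conj (H + χ • LinearMap.id) := by
        refine LinearMap.ext fun w => ?_
        rw [LinearEquiv.conj_apply_apply]
        have h7 := hKA (Ae.symm w)
        rw [LinearEquiv.apply_symm_apply] at h7
        exact h7
      have h8 : LinearMap.trace ℂ (U ⊓ eig Z (-1) : Submodule ℂ (Fin g ⊕ Fin g → ℂ))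
          LinearMap.id = 2 := by
        rw [LinearMap.trace_id]
        have h9 : finrank ℂ (U ⊓ eig Z (-1) : Submodule ℂ (Fin g ⊕ Fin g → ℂ)) = 2 := hq
        rw [h9]
        norm_num
      rw [h4, h5, h6, LinearMap.trace_conj', map_add, map_smul, h8, smul_eq_mul] at h2
      linear_combination h2 / 2
    have e3 : ∀ u, pm (N *ᵥ u) = H (pm u) := by
      intro u
      apply Subtype.ext
      rw [e1, hH]
    have e4 : ∀ u, Ae.symm (pp (N *ᵥ u)) = H (Ae.symm (pp u)) + χ • Ae.symm (pp u) := by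
      intro u
      rw [LinearEquiv.symm_apply_eq, ← hKA, LinearEquiv.apply_symm_apply]
      apply Subtype.ext
      rw [e2, hK]
    intro u hu v hv
    rw [hbv, hbv, e3, e3, e4, e4, nu_add_left, nu_add_right, nu_smul_left, nu_smul_right]
    have h10 := nu_tr f H (Ae.symm (pp u)) (pm v)
    have h11 := nu_tr f H (pm u) (Ae.symm (pp v))
    linear_combination h10 - h11 +
      (nu f (Ae.symm (pp u)) (pm v) - nu f (pm u) (Ae.symm (pp v))) * hT
  have hinv : ∀ X ∈ LZ Z, ∀ u ∈ U, ∀ v ∈ U, b (X *ᵥ u) v + b u (X *ᵥ v) = 0 := by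
    intro X hX u hu v hv
    have hup := up_mem h hX
    have hdn := dn_mem h hX
    obtain ⟨X1, hX1⟩ : ∃ X1, X1 = (1 / 4 : ℂ) • ((1 + DZ Z) * X * (1 - DZ Z)) := ⟨_, rfl⟩
    obtain ⟨X2, hX2⟩ : ∃ X2, X2 = (1 / 4 : ℂ) • ((1 - DZ Z) * X * (1 + DZ Z)) := ⟨_, rfl⟩
    rw [← hX1] at hup
    rw [← hX2] at hdn
    have hX0 : X - X1 - X2 ∈ LZ Z := Submodule.sub_mem _ (Submodule.sub_mem _ hX hup) hdn
    have hc : DZ Z * (X - X1 - X2) = (X - X1 - X2) * DZ Z := by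
      have h2 : X - X1 - X2 = (1 / 2 : ℂ) • (X + DZ Z * X * DZ Z) := by
        rw [hX1, hX2]
        have h3 : (1 + DZ Z) * X * (1 - DZ Z) = X - X * DZ Z + DZ Z * X - DZ Z * X * DZ Z := by
          noncomm_ring
        have h4 : (1 - DZ Z) * X * (1 + DZ Z) = X + X * DZ Z - DZ Z * X - DZ Z * X * DZ Z := by
          noncomm_ring
        rw [h3, h4]
        module
      rw [h2, Matrix.mul_smul, Matrix.smul_mul]
      congr 1
      rw [mul_add, add_mul, ← mul_assoc, ← mul_assoc, DZ_sq h.det, one_mul, mul_assoc (DZ Z * X),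
        DZ_sq h.det, mul_one, add_comm]
    have i1 := inv1 X1 hup (by rw [hX1]; exact up_l h X) (by rw [hX1]; exact up_r h X) u hu v hv
    have i2 := inv2 X2 hdn (by rw [hX2]; exact dn_l h X) (by rw [hX2]; exact dn_r h X) u hu v hv
    have i0 := inv0 _ hX0 hc u hu v hv
    rw [sub_mulVec, sub_mulVec, sub_mulVec, sub_mulVec, map_sub, map_sub, LinearMap.sub_apply,
      LinearMap.sub_apply, map_sub, map_sub] at i0
    linear_combination i0 + i1 + i2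
  -- the contradiction
  obtain ⟨w0, hw0⟩ : ∃ w0, w0 = f 0 := ⟨_, rfl⟩
  obtain ⟨w1, hw1⟩ : ∃ w1, w1 = f 1 := ⟨_, rfl⟩
  have h0 := hnb b hinv (Ae w0) (Ae w0).2.1 w1 w1.2.1
  rw [hbv, hppP, LinearEquiv.symm_apply_apply, hpmP, hppM, map_zero, nu_zero_right, sub_zero,
    hw0, hw1] at h0
  unfold nu at h0
  simp at h0

end main

end

end Pool.Agent.R915
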