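import Mathlib
import Pool.Agent.R915.C1

/-!
# Lie algebras of the format (3, 3) without elements of rank one
-/

set_option linter.unusedSectionVars false

namespace Pool.Agent.R915

open Matrix Module
open Pool.Agent.Y4.G (Lie Tri Mini exists_mini trace_idemM)
open Pool.Agent.Y4.G.Lie (pos mem_pos)

open scoped ComplexOrder

variable {B : Type*} [Fintype B] [DecidableEq B]

/-- Frames of projectors. -/
theorem exists_frame {R : Matrix B B ℂ} (hR : R * R = R) {n : ℕ} (hn : trace R = n) :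
    ∃ (r : Fin n → B → ℂ) (ρ : Fin n → (B → ℂ) →ₗ[ℂ] ℂ), (∀ i, R *ᵥ r i = r i) ∧
      (∀ v, R *ᵥ v = ∑ i, ρ i v • r i) ∧ (∀ i j, ρ i (r j) = if i = j then 1 else 0) ∧
      ∀ i v, ρ i (R *ᵥ v) = ρ i v := by
  have h1 := trace_idemM hR
  rw [hn] at h1
  have h2 : finrank ℂ (LinearMap.range (mulVecLin R)) = n := by exact_mod_cast h1.symm
  let b := finBasisOfFinrankEq ℂ (LinearMap.range (mulVecLin R)) h2
  have h3 : ∀ v ∈ LinearMap.range (mulVecLin R), R *ᵥ v = v := by
    rintro _ ⟨w, rfl⟩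
    rw [mulVecLin_apply, mulVec_mulVec, hR]
  refine ⟨fun i => b i, fun i => (b.coord i).comp (mulVecLin R).rangeRestrict,
    fun i => h3 _ (b i).2, fun v => ?_, fun i j => ?_, fun i v => ?_⟩
  · have h4 := congrArg Subtype.val (b.sum_repr ((mulVecLin R).rangeRestrict v))
    rw [Submodule.coe_sum] at h4
    exact h4.symm
  · have h4 : (mulVecLin R).rangeRestrict (b j : B → ℂ) = b j := Subtype.ext (h3 _ (b j).2)
    change b.repr ((mulVecLin R).rangeRestrict (b j : B → ℂ)) i = _
    rw [h4, Basis.repr_self, Finsupp.single_apply]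
    simp only [eq_comm]
  · have h4 : (mulVecLin R).rangeRestrict (R *ᵥ v) = (mulVecLin R).rangeRestrict v :=
      Subtype.ext (by
        change R *ᵥ (R *ᵥ v) = R *ᵥ v
        rw [mulVec_mulVec, hR])
    change b.coord i ((mulVecLin R).rangeRestrict (R *ᵥ v)) = _
    rw [h4]
    rfl

/-- The trace in terms of a frame. -/
theorem trace_frame {R : Matrix B B ℂ} {n : ℕ} {r : Fin n → B → ℂ}
    {ρ : Fin n → (B → ℂ) →ₗ[ℂ] ℂ} (h : ∀ v, R *ᵥ v = ∑ i, ρ i v • r i) (z : Matrix B B ℂ) :
    trace (z * R) = ∑ i, ρ i (z *ᵥ r i) := by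
  have h1 : R = ∑ i, vecMulVec (r i) (fun j => ρ i (Pi.single j 1)) := by
    ext k j
    have h2 := congrFun (h (Pi.single j 1)) k
    rw [mulVec_single_one] at h2
    change R k j = _ at h2
    rw [h2, Finset.sum_apply, Matrix.sum_apply]
    refine Finset.sum_congr rfl fun i _ => ?_
    rw [Pi.smul_apply, smul_eq_mul, vecMulVec_apply, mul_comm]
  have h2 : ∀ (l : (B → ℂ) →ₗ[ℂ] ℂ) (v : B → ℂ), (fun j => l (Pi.single j 1)) ⬝ᵥ v = l v := by
    intro l v
    have h3 : v = ∑ j, v j • (Pi.single j (1 : ℂ) : B → ℂ) := by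
      funext k
      rw [Finset.sum_apply, Finset.sum_eq_single k]
      · simp
      · intro j _ hj
        simp [hj.symm]
      · intro hk
        exact absurd (Finset.mem_univ k) hk
    nth_rewrite 2 [h3]
    rw [map_sum]
    refine Finset.sum_congr rfl fun j _ => ?_
    rw [map_smul, smul_eq_mul, mul_comm]
  nth_rewrite 1 [h1]
  rw [Finset.mul_sum, trace_sum]
  refine Finset.sum_congr rfl fun i _ => ?_
  rw [mul_vecMulVec, trace_vecMulVec, dotProduct_comm, h2]

variable {G : Submodule ℂ (Matrix B B ℂ)} {P Q : Matrix B B ℂ} {a b : ℕ}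

theorem pos_ne_bot (H : Lie G P Q a b) (ha : 0 < a) (hb : 0 < b) : pos G P Q ≠ ⊥ := by
  intro h0
  have h1 : ∀ X ∈ G, P * X * Q = 0 := by
    intro X hX
    have h2 : P * X * Q ∈ pos G P Q := ⟨H.grP hX, by rw [← mul_assoc, ← mul_assoc, H.PP],
      by rw [mul_assoc _ Q Q, H.QQ]⟩
    rwa [h0, Submodule.mem_bot] at h2
  have h2 : ∀ X ∈ G, Q * X * P = 0 := by
    intro X hX
    have h3 := congrArg conjTranspose (h1 _ (H.ad _ hX))
    rw [conjTranspose_mul, conjTranspose_mul, H.PH, H.QH, conjTranspose_conjTranspose,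
      conjTranspose_zero, ← mul_assoc] at h3
    exact h3
  let U : Submodule ℂ (B → ℂ) :=
    { carrier := {u | P *ᵥ u = u}
      zero_mem' := mulVec_zero _
      add_mem' := fun {x y} hx hy => by
        change P *ᵥ (x + y) = x + y
        rw [mulVec_add, hx, hy]
      smul_mem' := fun r x hx => by
        change P *ᵥ (r • x) = r • x
        rw [mulVec_smul, hx] }
  have hU : ∀ u, u ∈ U ↔ P *ᵥ u = u := fun _ => Iff.rfl
  have hQu : ∀ u, u ∈ U → Q *ᵥ u = 0 := by
    intro u hu
    rw [← (hU u).1 hu, mulVec_mulVec, H.QP, zero_mulVec]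
  rcases H.irr U (fun u hu => by rw [add_mulVec, (hU u).1 hu, hQu u hu, add_zero]) (by
    intro X hX u hu
    rw [hU]
    have h3 : X *ᵥ u = P *ᵥ (X *ᵥ (P *ᵥ u)) := by
      nth_rewrite 1 [H.split hX, h1 X hX, h2 X hX]
      rw [add_zero, zero_add, add_mulVec, ← mulVec_mulVec u (Q * X) Q, hQu u hu, mulVec_zero,
        add_zero, mulVec_mulVec, mulVec_mulVec]
    rw [(hU u).1 hu] at h3
    exact h3.symm) with h3 | h3
  · have h4 : P = 0 := by
      ext i j
      have h5 : P *ᵥ Pi.single j 1 ∈ U := by rw [hU, mulVec_mulVec, H.PP]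
      rw [h3, Submodule.mem_bot, mulVec_single_one] at h5
      exact congrFun h5 i
    have h5 := H.trP
    rw [h4, trace_zero] at h5
    have h6 : a = 0 := by exact_mod_cast h5.symm
    omega
  · have h4 : Q = 0 := by
      ext i j
      have h5 : (P + Q) *ᵥ (Q *ᵥ Pi.single j 1) = Q *ᵥ Pi.single j 1 := by
        rw [mulVec_mulVec, add_mul, H.PQ, H.QQ, zero_add]
      have h6 := hQu _ (h3 _ h5)
      rw [mulVec_mulVec, H.QQ, mulVec_single_one] at h6
      exact congrFun h6 i
    have h5 := H.trQ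
    rw [h4, trace_zero] at h5
    have h6 : b = 0 := by exact_mod_cast h5.symm
    omega

/-- There are no elements of rank one. -/
def NR1 (G : Submodule ℂ (Matrix B B ℂ)) (P Q : Matrix B B ℂ) : Prop :=
  ∀ x ∈ pos G P Q, ∀ u : B → ℂ, (∀ v, ∃ c : ℂ, x *ᵥ v = c • u) → x = 0

/-- A minimal tripotent with its projectors. -/
structure Trp (G : Submodule ℂ (Matrix B B ℂ)) (P Q : Matrix B B ℂ) (e p q : Matrix B B ℂ)
    (t : ℂ) : Prop where
  mem : e ∈ pos G P Q
  ne : e ≠ 0
  t0 : t ≠ 0
  pe : p * e = e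
  eq : e * q = e
  pp : p * p = p
  qq : q * q = q
  pH : pᴴ = p
  qH : qᴴ = q
  eh : e * eᴴ = t • p
  he : eᴴ * e = t • q
  qe : q * eᴴ = eᴴ
  ep : eᴴ * p = eᴴ
  Pp : P * p = p
  pP : p * P = p
  qQ : q * Q = q
  Q1q : Q * q = q
  one : ∀ x ∈ pos G P Q, p * x * q = x → ∃ c : ℂ, x = c • e
  tmem : ∀ x ∈ pos G P Q, p * x + x * q ∈ pos G P Q
  mem2 : ∀ x ∈ pos G P Q, p * x * q ∈ pos G P Q

theorem exists_trp (H : Lie G P Q a b) (ha : 0 < a) (hb : 0 < b) :
    ∃ e p q t, Trp G P Q e p q t := by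
  obtain ⟨e, t, M⟩ := exists_mini H.tri.tri (pos_ne_bot H ha hb)
  have ht0 := M.t0
  obtain ⟨p, hp⟩ : ∃ p, p = t⁻¹ • (e * eᴴ) := ⟨_, rfl⟩
  obtain ⟨q, hq⟩ : ∃ q, q = t⁻¹ • (eᴴ * e) := ⟨_, rfl⟩
  have hst : star t⁻¹ = t⁻¹ := by rw [star_inv₀, M.st]
  have hpe : p * e = e := by
    rw [hp, Matrix.smul_mul, M.eee, smul_smul, inv_mul_cancel₀ ht0, one_smul]
  have heq : e * q = e := by
    rw [hq, Matrix.mul_smul, ← mul_assoc, M.eee, smul_smul, inv_mul_cancel₀ ht0, one_smul]
  have hpp : p * p = p := by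
    nth_rewrite 2 [hp]
    rw [Matrix.mul_smul, ← mul_assoc, hpe, ← hp]
  have hqq : q * q = q := by
    nth_rewrite 1 [hq]
    rw [Matrix.smul_mul, mul_assoc, heq, ← hq]
  have hpH : pᴴ = p := by
    rw [hp, conjTranspose_smul, hst, conjTranspose_mul, conjTranspose_conjTranspose]
  have hqH : qᴴ = q := by
    rw [hq, conjTranspose_smul, hst, conjTranspose_mul, conjTranspose_conjTranspose]
  have hPe : P * e = e := M.mem.2.1
  have heQ : e * Q = e := M.mem.2.2
  have hPp : P * p = p := by rw [hp, Matrix.mul_smul, ← mul_assoc, hPe]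
  have hqQ : q * Q = q := by rw [hq, Matrix.smul_mul, mul_assoc, heQ]
  have hTmem : ∀ x ∈ pos G P Q, p * x + x * q ∈ pos G P Q := by
    intro x hx
    have h1 := Submodule.smul_mem _ t⁻¹ (H.tri.tri e M.mem e M.mem x hx)
    have h2 : t⁻¹ • (e * eᴴ * x + x * eᴴ * e) = p * x + x * q := by
      rw [hp, hq, smul_add, Matrix.smul_mul, Matrix.mul_smul, mul_assoc x]
    rwa [h2] at h1
  refine ⟨e, p, q, t,
    { mem := M.mem
      ne := M.ne
      t0 := ht0
      pe := hpe
      eq := heq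
      pp := hpp
      qq := hqq
      pH := hpH
      qH := hqH
      eh := by rw [hp, smul_smul, mul_inv_cancel₀ ht0, one_smul]
      he := by rw [hq, smul_smul, mul_inv_cancel₀ ht0, one_smul]
      qe := by
        have h1 := congrArg conjTranspose heq
        rwa [conjTranspose_mul, hqH] at h1
      ep := by
        have h1 := congrArg conjTranspose hpe
        rwa [conjTranspose_mul, hpH] at h1
      Pp := hPp
      pP := by
        have h1 := congrArg conjTranspose hPp
        rwa [conjTranspose_mul, H.PH, hpH] at h1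
      qQ := hqQ
      Q1q := by
        have h1 := congrArg conjTranspose hqQ
        rwa [conjTranspose_mul, H.QH, hqH] at h1
      one := by rw [hp, hq]; exact M.one
      tmem := hTmem
      mem2 := fun x hx => by
        have h1 := Submodule.smul_mem _ (2 : ℂ)⁻¹
          (Submodule.sub_mem _ (hTmem _ (hTmem x hx)) (hTmem x hx))
        have h2 : p * (p * x + x * q) + (p * x + x * q) * q - (p * x + x * q) =
            (2 : ℂ) • (p * x * q) := by
          have h3 : p * (p * x + x * q) + (p * x + x * q) * q - (p * x + x * q) =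
              (p * p) * x + p * x * q + (p * x * q + x * (q * q)) - (p * x + x * q) := by
            noncomm_ring
          rw [h3, hpp, hqq, two_smul]
          abel
        rwa [h2, smul_smul, inv_mul_cancel₀ two_ne_zero, one_smul] at h1 }⟩

namespace Trp

variable {e p q : Matrix B B ℂ} {t : ℂ} (k : Trp G P Q e p q t)
include k

theorem mem0 {x : Matrix B B ℂ} (hx : x ∈ pos G P Q) : (P - p) * x * (Q - q) ∈ pos G P Q := by
  have h1 := Submodule.sub_mem _ (Submodule.add_mem _ hx (k.mem2 x hx)) (k.tmem x hx)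
  have h2 : x + p * x * q - (p * x + x * q) = (P - p) * x * (Q - q) := by
    have h3 : (P - p) * x * (Q - q) = (P * x) * Q - (P * x) * q - p * (x * Q) + p * x * q := by
      noncomm_ring
    rw [h3, hx.2.1, hx.2.2]
    abel
  rwa [h2] at h1

theorem trpq : trace q = trace p := by
  have h1 : t • trace q = t • trace p := by
    rw [← trace_smul, ← trace_smul, ← k.he, ← k.eh, trace_mul_comm]
  exact smul_right_injective ℂ k.t0 h1

end Trp

end Pool.Agent.R915
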