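import Mathlib
import Pool.Agent.R915.D1

/-!
# Lie algebras of the format (3, 3) without elements of rank one, second part
-/

set_option linter.unusedSectionVars false

namespace Pool.Agent.R915

open Matrix Module
open Pool.Agent.Y4.G (Lie Tri Mini exists_mini trace_idemM trace_idemOp finrank_eq_one_of)
open Pool.Agent.Y4.G.Lie (pos mem_pos)

open scoped ComplexOrder

variable {B : Type*} [Fintype B] [DecidableEq B]

variable {G : Submodule ℂ (Matrix B B ℂ)} {P Q : Matrix B B ℂ}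

theorem idem_zero {R : Matrix B B ℂ} (hR : R * R = R) (h : trace R = 0) : R = 0 := by
  obtain ⟨r, ρ, -, h1, -, -⟩ := exists_frame hR (n := 0) (by rw [h, Nat.cast_zero])
  ext i j
  have h2 := congrFun (h1 (Pi.single j 1)) i
  rw [mulVec_single_one] at h2
  simpa using h2

namespace Trp

variable {e p q : Matrix B B ℂ} {t : ℂ} (k : Trp G P Q e p q t)
include k

theorem idP (hP : P * P = P) : (P - p) * (P - p) = P - p := by
  rw [sub_mul, mul_sub, mul_sub, hP, k.pp, k.Pp, k.pP]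
  abel

theorem idQ (hQ : Q * Q = Q) : (Q - q) * (Q - q) = Q - q := by
  rw [sub_mul, mul_sub, mul_sub, hQ, k.qq, k.Q1q, k.qQ]
  abel

theorem rank_cases (H : Lie G P Q 3 3) (hNR : NR1 G P Q) :
    trace p = 2 ∨ (p = P ∧ q = Q) := by
  have h1 := trace_idemM k.pp
  have h2 := trace_idemM (k.idP H.PP)
  rw [trace_sub, H.trP, h1] at h2
  obtain ⟨m, hm⟩ : ∃ m, m = finrank ℂ (LinearMap.range (mulVecLin p)) := ⟨_, rfl⟩
  obtain ⟨n, hn⟩ : ∃ n, n = finrank ℂ (LinearMap.range (mulVecLin (P - p))) := ⟨_, rfl⟩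
  rw [← hm, ← hn] at h2
  rw [← hm] at h1
  have h3 : 3 = n + m := by
    have h4 : ((3 : ℕ) : ℂ) = ((n + m : ℕ) : ℂ) := by
      push_cast
      linear_combination h2
    exact_mod_cast h4
  have hm0 : m ≠ 0 := by
    rintro rfl
    have h4 := idem_zero k.pp (by rw [h1, Nat.cast_zero])
    exact k.ne (by rw [← k.pe, h4, zero_mul])
  have hm1 : m ≠ 1 := by
    rintro rfl
    obtain ⟨r, ρ, -, h4, -, -⟩ := exists_frame k.pp (n := 1) h1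
    refine k.ne (hNR e k.mem (r 0) fun v => ⟨ρ 0 (e *ᵥ v), ?_⟩)
    have h5 := h4 (e *ᵥ v)
    rw [mulVec_mulVec, k.pe, Fin.sum_univ_one] at h5
    exact h5
  by_cases hm2 : m = 2
  · left
    rw [h1, hm2, Nat.cast_two]
  · right
    have hm3 : m = 3 := by omega
    have hp : P - p = 0 := idem_zero (k.idP H.PP) (by
      rw [trace_sub, H.trP, h1, hm3, sub_self])
    have hq : Q - q = 0 := idem_zero (k.idQ H.QQ) (by
      rw [trace_sub, H.trQ, k.trpq, h1, hm3, sub_self])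
    exact ⟨(sub_eq_zero.1 hp).symm, (sub_eq_zero.1 hq).symm⟩

/-- The part of degree zero vanishes. -/
theorem zero0 (H : Lie G P Q 3 3) (hNR : NR1 G P Q) (h2 : trace p = 2) {x : Matrix B B ℂ}
    (hx : x ∈ pos G P Q) : (P - p) * x * (Q - q) = 0 := by
  obtain ⟨r, ρ, -, h4, -, -⟩ := exists_frame (k.idP H.PP) (n := 1) (by
    rw [trace_sub, H.trP, h2]
    norm_num)
  refine hNR _ (k.mem0 hx) (r 0) fun v => ⟨ρ 0 (x *ᵥ ((Q - q) *ᵥ v)), ?_⟩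
  have h5 := h4 (x *ᵥ ((Q - q) *ᵥ v))
  rw [mulVec_mulVec, mulVec_mulVec, Fin.sum_univ_one] at h5
  rw [← h5]

/-- The dimension. -/
theorem dim3 (H : Lie G P Q 3 3) (hNR : NR1 G P Q) (h2 : trace p = 2) :
    finrank ℂ (pos G P Q) = 3 := by
  obtain ⟨π2, hπ2⟩ : ∃ T : pos G P Q →ₗ[ℂ] pos G P Q, ∀ x : pos G P Q,
      ((T x : pos G P Q) : Matrix B B ℂ) = p * x * q :=
    ⟨{ toFun := fun x => ⟨p * x * q, k.mem2 x x.2⟩
       map_add' := fun x y => Subtype.ext (by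
        change p * ((x : Matrix B B ℂ) + y) * q = p * x * q + p * y * q
        noncomm_ring)
       map_smul' := fun c x => Subtype.ext (by
        change p * (c • (x : Matrix B B ℂ)) * q = c • (p * x * q)
        rw [Matrix.mul_smul, Matrix.smul_mul]) }, fun _ => rfl⟩
  have hid2 : ∀ x, π2 (π2 x) = π2 x := by
    intro x
    apply Subtype.ext
    rw [hπ2, hπ2]
    calc p * (p * x * q) * q = (p * p) * x * (q * q) := by noncomm_ring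
    _ = _ := by rw [k.pp, k.qq]
  have htr2 : finrank ℂ (LinearMap.range π2) = 1 := by
    refine finrank_eq_one_of _ (e := (⟨e, k.mem⟩ : pos G P Q)) ⟨⟨e, k.mem⟩, Subtype.ext (by
      rw [hπ2]
      change p * e * q = e
      rw [k.pe, k.eq])⟩ (fun h0 => k.ne (congrArg Subtype.val h0)) ?_
    rintro _ ⟨y, rfl⟩
    obtain ⟨c, hc⟩ := k.one _ (π2 y).2 (by
      have h3 := congrArg Subtype.val (hid2 y)
      rw [hπ2 (π2 y)] at h3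
      exact h3)
    exact ⟨c, Subtype.ext hc⟩
  have hcas := H.tri.cas p q (LinearMap.id + π2) k.Pp k.qQ fun x => by
    have h3 := k.zero0 H hNR h2 x.2
    have h4 : (P - p) * (x : Matrix B B ℂ) * (Q - q) =
        (P * x) * Q - (P * x) * q - p * (x * Q) + p * x * q := by noncomm_ring
    rw [h4, x.2.2.1, x.2.2.2] at h3
    change (x : Matrix B B ℂ) + ((π2 x : pos G P Q) : Matrix B B ℂ) = _
    rw [hπ2]
    have h5 : (x : Matrix B B ℂ) + p * x * q - (p * x + x * q) =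
        x - x * q - p * x + p * x * q := by abel
    rw [← sub_eq_zero, h5, h3]
  rw [map_add, trace_idemOp hid2, htr2, LinearMap.trace_id, h2, k.trpq, h2] at hcas
  have h3 : ((9 * (finrank ℂ (pos G P Q) + 1) : ℕ) : ℂ) =
      ((12 * finrank ℂ (pos G P Q) : ℕ) : ℂ) := by
    push_cast at hcas ⊢
    linear_combination hcas
  have h4 : 9 * (finrank ℂ (pos G P Q) + 1) = 12 * finrank ℂ (pos G P Q) := by exact_mod_cast h3
  omega

end Trp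

/-- The functionals in the case of a triple system of skew matrices. -/
structure Skw (G : Submodule ℂ (Matrix B B ℂ)) (P Q : Matrix B B ℂ)
    (f g : Fin 3 → B → ℂ) (ψ φ : Fin 3 → (B → ℂ) →ₗ[ℂ] ℂ) (c : ℂ) (e x1 : Matrix B B ℂ) : Prop where
  c0 : c ≠ 0
  Qv : ∀ v, Q *ᵥ v = ∑ i, ψ i v • f i
  Pv : ∀ v, P *ᵥ v = ∑ i, φ i v • g i
  ψf : ∀ i j, ψ i (f j) = if i = j then 1 else 0
  φg : ∀ i j, φ i (g j) = if i = j then 1 else 0
  ψQ : ∀ i v, ψ i (Q *ᵥ v) = ψ i v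
  φP : ∀ i v, φ i (P *ᵥ v) = φ i v
  str : ∀ x ∈ pos G P Q, ∃ a β1 β2 : ℂ, (∀ v, φ 0 (x *ᵥ v) = a * ψ 0 v + β1 * ψ 2 v) ∧
    (∀ v, φ 1 (x *ᵥ v) = a * ψ 1 v + β2 * ψ 2 v) ∧
    ∀ v, φ 2 (x *ᵥ v) = c * (β1 * ψ 1 v - β2 * ψ 0 v)
  em : e ∈ pos G P Q
  e0 : ∀ v, φ 0 (e *ᵥ v) = ψ 0 v
  e1 : ∀ v, φ 1 (e *ᵥ v) = ψ 1 v
  e2 : ∀ v, φ 2 (e *ᵥ v) = 0
  xm : x1 ∈ pos G P Q
  x0 : ∀ v, φ 0 (x1 *ᵥ v) = ψ 2 v
  x1' : ∀ v, φ 1 (x1 *ᵥ v) = 0
  x2 : ∀ v, φ 2 (x1 *ᵥ v) = c * ψ 1 v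

theorem Trp.skw {e p q : Matrix B B ℂ} {t : ℂ} (k : Trp G P Q e p q t) (H : Lie G P Q 3 3)
    (hNR : NR1 G P Q) (h2 : trace p = 2) : ∃ f g ψ φ c x1, Skw G P Q f g ψ φ c e x1 := by
  have hd := k.dim3 H hNR h2
  obtain ⟨f, ψ, hf1, hf2, hf3, hf4⟩ := exists_frame k.qq (n := 2) (by
    rw [k.trpq, h2, Nat.cast_two])
  obtain ⟨f', ψ', hf1', hf2', hf3', hf4'⟩ := exists_frame (k.idQ H.QQ) (n := 1) (by
    rw [trace_sub, H.trQ, k.trpq, h2]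
    norm_num)
  obtain ⟨g', φ', hg1', hg2', hg3', hg4'⟩ := exists_frame (k.idP H.PP) (n := 1) (by
    rw [trace_sub, H.trP, h2]
    norm_num)
  have ht0 := k.t0
  -- the functionals
  obtain ⟨Ψ, hΨ⟩ : ∃ Ψ : Fin 3 → (B → ℂ) →ₗ[ℂ] ℂ, Ψ = ![ψ 0, ψ 1, ψ' 0] := ⟨_, rfl⟩
  obtain ⟨F, hF⟩ : ∃ F : Fin 3 → B → ℂ, F = ![f 0, f 1, f' 0] := ⟨_, rfl⟩
  obtain ⟨Φ, hΦ⟩ : ∃ Φ : Fin 3 → (B → ℂ) →ₗ[ℂ] ℂ,
    Φ = ![t⁻¹ • (ψ 0).comp (mulVecLin eᴴ), t⁻¹ • (ψ 1).comp (mulVecLin eᴴ), φ' 0] := ⟨_, rfl⟩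
  obtain ⟨Γ, hΓ⟩ : ∃ Γ : Fin 3 → B → ℂ, Γ = ![e *ᵥ f 0, e *ᵥ f 1, g' 0] := ⟨_, rfl⟩
  have hΦ0 : ∀ v, Φ 0 v = t⁻¹ * ψ 0 (eᴴ *ᵥ v) := fun v => by rw [hΦ]; rfl
  have hΦ1 : ∀ v, Φ 1 v = t⁻¹ * ψ 1 (eᴴ *ᵥ v) := fun v => by rw [hΦ]; rfl
  have hΦ2 : ∀ v, Φ 2 v = φ' 0 v := fun v => by rw [hΦ]; rfl
  have hΨ0 : ∀ v, Ψ 0 v = ψ 0 v := fun v => by rw [hΨ]; rfl
  have hΨ1 : ∀ v, Ψ 1 v = ψ 1 v := fun v => by rw [hΨ]; rfl
  have hΨ2 : ∀ v, Ψ 2 v = ψ' 0 v := fun v => by rw [hΨ]; rfl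
  have hF0 : F 0 = f 0 := by rw [hF]; rfl
  have hF1 : F 1 = f 1 := by rw [hF]; rfl
  have hF2 : F 2 = f' 0 := by rw [hF]; rfl
  have hΓ0 : Γ 0 = e *ᵥ f 0 := by rw [hΓ]; rfl
  have hΓ1 : Γ 1 = e *ᵥ f 1 := by rw [hΓ]; rfl
  have hΓ2 : Γ 2 = g' 0 := by rw [hΓ]; rfl
  -- elementary relations
  have hqQ' : q * (Q - q) = 0 := by rw [mul_sub, k.qQ, k.qq, sub_self]
  have hQ1q' : (Q - q) * q = 0 := by rw [sub_mul, k.Q1q, k.qq, sub_self]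
  have hpP' : p * (P - p) = 0 := by rw [mul_sub, k.pP, k.pp, sub_self]
  have hPp' : (P - p) * p = 0 := by rw [sub_mul, k.Pp, k.pp, sub_self]
  have hepP : eᴴ * (P - p) = 0 := by
    rw [← k.ep, mul_assoc, hpP', mul_zero]
  have hPpe : (P - p) * e = 0 := by
    rw [← k.pe, ← mul_assoc, hPp', zero_mul]
  have hQ1qe : (Q - q) * eᴴ = 0 := by
    rw [← k.qe, ← mul_assoc, hQ1q', zero_mul]
  have hehe : ∀ v, eᴴ *ᵥ (e *ᵥ v) = t • (q *ᵥ v) := by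
    intro v
    rw [mulVec_mulVec, k.he, smul_mulVec]
  have hψf' : ∀ i, ψ i (f' 0) = 0 := by
    intro i
    rw [← hf4, ← hf1' 0, mulVec_mulVec, hqQ', zero_mulVec, map_zero]
  have hψ'f : ∀ j, ψ' 0 (f j) = 0 := by
    intro j
    rw [← hf4', ← hf1 j, mulVec_mulVec, hQ1q', zero_mulVec, map_zero]
  have hφ'e : ∀ v, φ' 0 (e *ᵥ v) = 0 := by
    intro v
    rw [← hg4', mulVec_mulVec, hPpe, zero_mulVec, map_zero]
  have hψ'e : ∀ v, ψ' 0 (eᴴ *ᵥ v) = 0 := by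
    intro v
    rw [← hf4', mulVec_mulVec, hQ1qe, zero_mulVec, map_zero]
  have hΦe0 : ∀ v, Φ 0 (e *ᵥ v) = ψ 0 v := by
    intro v
    rw [hΦ0, hehe, map_smul, smul_eq_mul, ← mul_assoc, inv_mul_cancel₀ ht0, one_mul, hf4]
  have hΦe1 : ∀ v, Φ 1 (e *ᵥ v) = ψ 1 v := by
    intro v
    rw [hΦ1, hehe, map_smul, smul_eq_mul, ← mul_assoc, inv_mul_cancel₀ ht0, one_mul, hf4]
  have hΦg0 : Φ 0 (g' 0) = 0 := by
    rw [hΦ0, ← hg1' 0, mulVec_mulVec, hepP, zero_mulVec, map_zero, mul_zero]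
  have hΦg1 : Φ 1 (g' 0) = 0 := by
    rw [hΦ1, ← hg1' 0, mulVec_mulVec, hepP, zero_mulVec, map_zero, mul_zero]
  have hQv : ∀ v, Q *ᵥ v = ∑ i, Ψ i v • F i := by
    intro v
    have h3 : Q *ᵥ v = q *ᵥ v + (Q - q) *ᵥ v := by rw [sub_mulVec]; abel
    rw [h3, hf2, hf2', Fin.sum_univ_two, Fin.sum_univ_one, Fin.sum_univ_three, hΨ0, hΨ1, hΨ2, hF0,
      hF1, hF2]
  have hpv : ∀ v, p *ᵥ v = Φ 0 v • (e *ᵥ f 0) + Φ 1 v • (e *ᵥ f 1) := by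
    intro v
    have h3 : p *ᵥ v = t⁻¹ • (e *ᵥ (q *ᵥ (eᴴ *ᵥ v))) := by
      rw [mulVec_mulVec, mulVec_mulVec, k.eq, k.eh, smul_mulVec, smul_smul, inv_mul_cancel₀ ht0,
        one_smul]
    rw [h3, hf2, Fin.sum_univ_two, mulVec_add, mulVec_smul, mulVec_smul, smul_add, smul_smul,
      smul_smul, hΦ0, hΦ1]
  have hPv : ∀ v, P *ᵥ v = ∑ i, Φ i v • Γ i := by
    intro v
    have h3 : P *ᵥ v = p *ᵥ v + (P - p) *ᵥ v := by rw [sub_mulVec]; abel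
    rw [h3, hpv, hg2', Fin.sum_univ_one, Fin.sum_univ_three, hΦ2, hΓ0, hΓ1, hΓ2]
  have hΨF : ∀ i j, Ψ i (F j) = if i = j then 1 else 0 := by
    intro i j
    fin_cases i <;> fin_cases j
    · change Ψ 0 (F 0) = _
      rw [hΨ0, hF0, hf3]
      simp
    · change Ψ 0 (F 1) = _
      rw [hΨ0, hF1, hf3]
      simp
    · change Ψ 0 (F 2) = _
      rw [hΨ0, hF2, hψf']
      simp
    · change Ψ 1 (F 0) = _
      rw [hΨ1, hF0, hf3]
      simp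
    · change Ψ 1 (F 1) = _
      rw [hΨ1, hF1, hf3]
      simp
    · change Ψ 1 (F 2) = _
      rw [hΨ1, hF2, hψf']
      simp
    · change Ψ 2 (F 0) = _
      rw [hΨ2, hF0, hψ'f]
      simp
    · change Ψ 2 (F 1) = _
      rw [hΨ2, hF1, hψ'f]
      simp
    · change Ψ 2 (F 2) = _
      rw [hΨ2, hF2, hf3']
      simp
  have hΦΓ : ∀ i j, Φ i (Γ j) = if i = j then 1 else 0 := by
    intro i j
    fin_cases i <;> fin_cases j
    · change Φ 0 (Γ 0) = _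
      rw [hΓ0, hΦe0, hf3]
      simp
    · change Φ 0 (Γ 1) = _
      rw [hΓ1, hΦe0, hf3]
      simp
    · change Φ 0 (Γ 2) = _
      rw [hΓ2, hΦg0]
      simp
    · change Φ 1 (Γ 0) = _
      rw [hΓ0, hΦe1, hf3]
      simp
    · change Φ 1 (Γ 1) = _
      rw [hΓ1, hΦe1, hf3]
      simp
    · change Φ 1 (Γ 2) = _
      rw [hΓ2, hΦg1]
      simp
    · change Φ 2 (Γ 0) = _
      rw [hΓ0, hΦ2, hφ'e]
      simp
    · change Φ 2 (Γ 1) = _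
      rw [hΓ1, hΦ2, hφ'e]
      simp
    · change Φ 2 (Γ 2) = _
      rw [hΓ2, hΦ2, hg3']
      simp
  have hΨQ : ∀ i v, Ψ i (Q *ᵥ v) = Ψ i v := by
    intro i v
    rw [hQv, map_sum]
    simp only [map_smul, smul_eq_mul, hΨF]
    simp
  have hΦP : ∀ i v, Φ i (P *ᵥ v) = Φ i v := by
    intro i v
    fin_cases i
    · change Φ 0 (P *ᵥ v) = Φ 0 v
      rw [hΦ0, hΦ0, mulVec_mulVec]
      have h3 : eᴴ * P = eᴴ := by
        rw [← k.ep, mul_assoc, k.pP]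
      rw [h3]
    · change Φ 1 (P *ᵥ v) = Φ 1 v
      rw [hΦ1, hΦ1, mulVec_mulVec]
      have h3 : eᴴ * P = eᴴ := by
        rw [← k.ep, mul_assoc, k.pP]
      rw [h3]
    · change Φ 2 (P *ᵥ v) = Φ 2 v
      rw [hΦ2, hΦ2, ← hg4', mulVec_mulVec]
      have h3 : (P - p) * P = P - p := by rw [sub_mul, H.PP, k.pP]
      rw [h3, hg4']
  -- the matrix of an element
  have hxv : ∀ x ∈ pos G P Q, ∀ i v, Φ i (x *ᵥ v) = ∑ j, Ψ j v * Φ i (x *ᵥ F j) := by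
    intro x hx i v
    have h3 : x *ᵥ v = x *ᵥ (Q *ᵥ v) := by rw [mulVec_mulVec, hx.2.2]
    rw [h3, hQv, mulVec_sum, map_sum]
    refine Finset.sum_congr rfl fun j _ => ?_
    rw [mulVec_smul, map_smul, smul_eq_mul]
  have hxP : ∀ x ∈ pos G P Q, ∀ v, x *ᵥ v = ∑ i, Φ i (x *ᵥ v) • Γ i := by
    intro x hx v
    rw [← hPv, mulVec_mulVec, hx.2.1]
  have hstr : ∀ x ∈ pos G P Q, ∃ a, Φ 0 (x *ᵥ F 0) = a ∧ Φ 1 (x *ᵥ F 1) = a ∧
      Φ 0 (x *ᵥ F 1) = 0 ∧ Φ 1 (x *ᵥ F 0) = 0 ∧ Φ 2 (x *ᵥ F 2) = 0 := by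
    intro x hx
    obtain ⟨a, ha⟩ := k.one _ (k.mem2 x hx) (by
      have h3 : p * (p * x * q) * q = (p * p) * x * (q * q) := by noncomm_ring
      rw [h3, k.pp, k.qq])
    have hpx : ∀ j, j = 0 ∨ j = 1 → p *ᵥ (x *ᵥ F j) = a • (e *ᵥ F j) := by
      intro j hj
      have h3 : q *ᵥ F j = F j := by
        rcases hj with rfl | rfl
        · rw [hF0, hf1]
        · rw [hF1, hf1]
      rw [← h3, mulVec_mulVec, mulVec_mulVec, mulVec_mulVec, ha, k.eq, smul_mulVec]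
    have hΦp0 : ∀ v, Φ 0 (p *ᵥ v) = Φ 0 v := by
      intro v
      rw [hΦ0, hΦ0, mulVec_mulVec, k.ep]
    have hΦp1 : ∀ v, Φ 1 (p *ᵥ v) = Φ 1 v := by
      intro v
      rw [hΦ1, hΦ1, mulVec_mulVec, k.ep]
    refine ⟨a, ?_, ?_, ?_, ?_, ?_⟩
    · rw [← hΦp0, hpx 0 (Or.inl rfl), map_smul, smul_eq_mul, hΦe0, hF0, hf3]
      simp
    · rw [← hΦp1, hpx 1 (Or.inr rfl), map_smul, smul_eq_mul, hΦe1, hF1, hf3]
      simp
    · rw [← hΦp0, hpx 1 (Or.inr rfl), map_smul, smul_eq_mul, hΦe0, hF1, hf3]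
      simp
    · rw [← hΦp1, hpx 0 (Or.inl rfl), map_smul, smul_eq_mul, hΦe1, hF0, hf3]
      simp
    · have h3 := k.zero0 H hNR h2 hx
      have h4 : (Q - q) *ᵥ F 2 = F 2 := by rw [hF2, hf1']
      rw [hΦ2, ← hg4', ← h4, mulVec_mulVec, mulVec_mulVec, h3, zero_mulVec, map_zero]
  -- vanishing
  have hvan : ∀ x ∈ pos G P Q, Φ 0 (x *ᵥ F 0) = 0 → Φ 0 (x *ᵥ F 2) = 0 → Φ 1 (x *ᵥ F 2) = 0 →
      x = 0 := by
    intro x hx h3 h4 h5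
    obtain ⟨a, e1, e2, e3, e4, e5⟩ := hstr x hx
    refine hNR x hx (Γ 2) fun v => ⟨Φ 2 (x *ᵥ v), ?_⟩
    have h6 : Φ 0 (x *ᵥ v) = 0 := by
      rw [hxv x hx, Fin.sum_univ_three, h3, h4, e3]
      ring
    have h7 : Φ 1 (x *ᵥ v) = 0 := by
      rw [hxv x hx, Fin.sum_univ_three, h5, e4, e2, ← e1, h3]
      ring
    nth_rewrite 1 [hxP x hx v]
    rw [Fin.sum_univ_three, h6, h7, zero_smul, zero_smul, zero_add, zero_add]
  -- the linear map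
  let T : pos G P Q →ₗ[ℂ] (Fin 3 → ℂ) :=
    { toFun := fun x => ![Φ 0 ((x : Matrix B B ℂ) *ᵥ F 0), Φ 0 ((x : Matrix B B ℂ) *ᵥ F 2),
        Φ 1 ((x : Matrix B B ℂ) *ᵥ F 2)]
      map_add' := fun x y => by
        funext i
        fin_cases i <;> simp [add_mulVec]
      map_smul' := fun c x => by
        funext i
        fin_cases i <;> simp [smul_mulVec] }
  have hTinj : Function.Injective T := by
    rw [injective_iff_map_eq_zero]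
    intro x hx
    have h3 := congrFun hx 0
    have h4 := congrFun hx 1
    have h5 := congrFun hx 2
    exact Subtype.ext (hvan x x.2 h3 h4 h5)
  have hTsurj : Function.Surjective T := by
    rw [← LinearMap.range_eq_top]
    apply Submodule.eq_top_of_finrank_eq
    rw [LinearMap.finrank_range_of_inj hTinj, hd, finrank_fin_fun]
  obtain ⟨⟨x1, hx1⟩, hTx1⟩ := hTsurj ![0, 1, 0]
  obtain ⟨⟨x2, hx2⟩, hTx2⟩ := hTsurj ![0, 0, 1]
  have a0 : Φ 0 (x1 *ᵥ F 0) = 0 := congrFun hTx1 0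
  have a1 : Φ 0 (x1 *ᵥ F 2) = 1 := congrFun hTx1 1
  have a2 : Φ 1 (x1 *ᵥ F 2) = 0 := congrFun hTx1 2
  have b0 : Φ 0 (x2 *ᵥ F 0) = 0 := congrFun hTx2 0
  have b1 : Φ 0 (x2 *ᵥ F 2) = 0 := congrFun hTx2 1
  have b2 : Φ 1 (x2 *ᵥ F 2) = 1 := congrFun hTx2 2
  -- the quadratic relation
  have hquad : ∀ x ∈ pos G P Q, Φ 0 (x *ᵥ F 0) = 0 →
      Φ 2 (x *ᵥ F 0) * Φ 0 (x *ᵥ F 2) + Φ 2 (x *ᵥ F 1) * Φ 1 (x *ᵥ F 2) = 0 := by
    intro x hx h3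
    obtain ⟨a, e1, e2, e3, e4, e5⟩ := hstr x hx
    rw [← e1, h3] at e2
    have hy : x * eᴴ * x ∈ pos G P Q := by
      have h4 := Submodule.smul_mem (pos G P Q) (2 : ℂ)⁻¹ (H.tri.tri x hx e k.mem x hx)
      rw [← two_smul ℂ, smul_smul, inv_mul_cancel₀ two_ne_zero, one_smul] at h4
      exact h4
    have hΨe2 : ∀ v, Ψ 2 (eᴴ *ᵥ v) = 0 := fun v => by rw [hΨ2, hψ'e]
    have hyv : ∀ i v, Φ i ((x * eᴴ * x) *ᵥ v) = ∑ j, Ψ j (eᴴ *ᵥ (x *ᵥ v)) * Φ i (x *ᵥ F j) := by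
      intro i v
      rw [← mulVec_mulVec, ← mulVec_mulVec, hxv x hx]
    have h4 : x * eᴴ * x = 0 := by
      refine hNR _ hy (Γ 2) fun v => ⟨Φ 2 ((x * eᴴ * x) *ᵥ v), ?_⟩
      have h6 : Φ 0 ((x * eᴴ * x) *ᵥ v) = 0 := by
        rw [hyv, Fin.sum_univ_three, h3, e3, hΨe2]
        ring
      have h7 : Φ 1 ((x * eᴴ * x) *ᵥ v) = 0 := by
        rw [hyv, Fin.sum_univ_three, e2, e4, hΨe2]
        ring
      nth_rewrite 1 [hxP _ hy v]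
      rw [Fin.sum_univ_three, h6, h7, zero_smul, zero_smul, zero_add, zero_add]
    have h5 := hyv 2 (F 2)
    rw [h4, zero_mulVec, map_zero, Fin.sum_univ_three, hΨe2] at h5
    have h6 : Ψ 0 (eᴴ *ᵥ (x *ᵥ F 2)) = t * Φ 0 (x *ᵥ F 2) := by
      rw [hΦ0, ← mul_assoc, mul_inv_cancel₀ ht0, one_mul, hΨ0]
    have h7 : Ψ 1 (eᴴ *ᵥ (x *ᵥ F 2)) = t * Φ 1 (x *ᵥ F 2) := by
      rw [hΦ1, ← mul_assoc, mul_inv_cancel₀ ht0, one_mul, hΨ1]
    rw [h6, h7] at h5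
    have h8 : t * (Φ 2 (x *ᵥ F 0) * Φ 0 (x *ᵥ F 2) + Φ 2 (x *ᵥ F 1) * Φ 1 (x *ᵥ F 2)) = 0 := by
      linear_combination -h5
    exact (mul_eq_zero.1 h8).resolve_left ht0
  have q1 := hquad x1 hx1 a0
  rw [a1, a2] at q1
  have q2 := hquad x2 hx2 b0
  rw [b1, b2] at q2
  have q3 := hquad (x1 + x2) (Submodule.add_mem _ hx1 hx2) (by
    rw [add_mulVec, map_add, a0, b0, add_zero])
  rw [add_mulVec, add_mulVec, add_mulVec, map_add, map_add, map_add, map_add, a1, a2, b1, b2] at q3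
  have c1 : Φ 2 (x1 *ᵥ F 0) = 0 := by linear_combination q1
  have c2 : Φ 2 (x2 *ᵥ F 1) = 0 := by linear_combination q2
  have c3 : Φ 2 (x2 *ᵥ F 0) = -Φ 2 (x1 *ᵥ F 1) := by linear_combination q3 - c1 - c2
  obtain ⟨c, hc⟩ : ∃ c, c = Φ 2 (x1 *ᵥ F 1) := ⟨_, rfl⟩
  rw [← hc] at c3
  obtain ⟨a', e1, e2, e3, e4, e5⟩ := hstr x1 hx1
  rw [← e1, a0] at e2
  have hx10 : ∀ v, Φ 0 (x1 *ᵥ v) = Ψ 2 v := by
    intro v
    rw [hxv x1 hx1, Fin.sum_univ_three, a0, e3, a1]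
    ring
  have hx11 : ∀ v, Φ 1 (x1 *ᵥ v) = 0 := by
    intro v
    rw [hxv x1 hx1, Fin.sum_univ_three, e4, e2, a2]
    ring
  have hx12 : ∀ v, Φ 2 (x1 *ᵥ v) = c * Ψ 1 v := by
    intro v
    rw [hxv x1 hx1, Fin.sum_univ_three, c1, ← hc, e5]
    ring
  refine ⟨F, Γ, Ψ, Φ, c, x1,
    { c0 := ?_
      Qv := hQv
      Pv := hPv
      ψf := hΨF
      φg := hΦΓ
      ψQ := hΨQ
      φP := hΦP
      str := ?_
      em := k.mem
      e0 := fun v => by rw [hΦe0, hΨ0]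
      e1 := fun v => by rw [hΦe1, hΨ1]
      e2 := fun v => by rw [hΦ2, hφ'e]
      xm := hx1
      x0 := hx10
      x1' := hx11
      x2 := hx12 }⟩
  · rintro rfl
    have h3 : x1 = 0 := by
      refine hNR x1 hx1 (Γ 0) fun v => ⟨Ψ 2 v, ?_⟩
      rw [hxP x1 hx1 v, Fin.sum_univ_three, hx10, hx11, hx12, zero_mul, zero_smul, zero_smul,
        add_zero, add_zero]
    rw [h3, zero_mulVec, map_zero] at a1
    exact zero_ne_one a1
  · intro x hx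
    obtain ⟨a, e1, e2, e3, e4, e5⟩ := hstr x hx
    have h3 : x = a • e + Φ 0 (x *ᵥ F 2) • x1 + Φ 1 (x *ᵥ F 2) • x2 := by
      rw [← sub_eq_zero]
      have hΦe2 : Φ 0 (e *ᵥ F 2) = 0 := by rw [hΦe0, hF2, hψf']
      have hΦe3 : Φ 1 (e *ᵥ F 2) = 0 := by rw [hΦe1, hF2, hψf']
      have hΦe4 : Φ 0 (e *ᵥ F 0) = 1 := by
        rw [hΦe0, hF0, hf3]
        simp
      refine hvan _ (Submodule.sub_mem _ hx (Submodule.add_mem _ (Submodule.add_mem _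
        (Submodule.smul_mem _ _ k.mem) (Submodule.smul_mem _ _ hx1))
        (Submodule.smul_mem _ _ hx2))) ?_ ?_ ?_
      · simp only [sub_mulVec, add_mulVec, smul_mulVec, map_sub, map_add, map_smul, smul_eq_mul]
        rw [e1, a0, b0, hΦe4]
        ring
      · simp only [sub_mulVec, add_mulVec, smul_mulVec, map_sub, map_add, map_smul, smul_eq_mul]
        rw [a1, b1, hΦe2]
        ring
      · simp only [sub_mulVec, add_mulVec, smul_mulVec, map_sub, map_add, map_smul, smul_eq_mul]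
        rw [a2, b2, hΦe3]
        ring
    have d0 : Φ 2 (x *ᵥ F 0) = -(c * Φ 1 (x *ᵥ F 2)) := by
      nth_rewrite 1 [h3]
      simp only [add_mulVec, smul_mulVec, map_add, map_smul, smul_eq_mul]
      rw [hΦ2 (e *ᵥ _), hφ'e, c1, c3]
      ring
    have d1 : Φ 2 (x *ᵥ F 1) = c * Φ 0 (x *ᵥ F 2) := by
      nth_rewrite 1 [h3]
      simp only [add_mulVec, smul_mulVec, map_add, map_smul, smul_eq_mul]
      rw [hΦ2 (e *ᵥ _), hφ'e, c2, ← hc]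
      ring
    refine ⟨a, Φ 0 (x *ᵥ F 2), Φ 1 (x *ᵥ F 2), fun v => ?_, fun v => ?_, fun v => ?_⟩
    · rw [hxv x hx, Fin.sum_univ_three, e1, e3]
      ring
    · rw [hxv x hx, Fin.sum_univ_three, e2, e4]
      ring
    · rw [hxv x hx, Fin.sum_univ_three, e5, d0, d1]
      ring

end Pool.Agent.R915
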