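import Mathlib
import Pool.Agent.R915.D2

/-!
# Lie algebras of the format (3, 3) without elements of rank one, third part
-/

set_option linter.unusedSectionVars false

namespace Pool.Agent.R915

open Matrix Module
open Pool.Agent.Y4.G (Lie Tri Mini exists_mini trace_idemM trace_idemOp finrank_eq_one_of)
open Pool.Agent.Y4.G.Lie (pos mem_pos)

open scoped ComplexOrder

variable {B : Type*} [Fintype B] [DecidableEq B]

variable {G : Submodule ℂ (Matrix B B ℂ)} {P Q : Matrix B B ℂ}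

/-- There are no invariant symmetric bilinear forms. -/
def NBil (G : Submodule ℂ (Matrix B B ℂ)) (P Q : Matrix B B ℂ) : Prop :=
  ∀ b : (B → ℂ) →ₗ[ℂ] (B → ℂ) →ₗ[ℂ] ℂ, (∀ u v, b u v = b v u) →
    (∀ X ∈ G, ∀ u v, (P + Q) *ᵥ u = u → (P + Q) *ᵥ v = v →
      b (X *ᵥ u) v + b u (X *ᵥ v) = 0) →
    ∀ u v, (P + Q) *ᵥ u = u → (P + Q) *ᵥ v = v → b u v = 0

/-- The half of the form. -/
noncomputable def bs (ψ φ : Fin 3 → (B → ℂ) →ₗ[ℂ] ℂ) (c : ℂ) (u v : B → ℂ) : ℂ :=
  φ 0 u * ψ 1 v - φ 1 u * ψ 0 v - c⁻¹ * (φ 2 u * ψ 2 v)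

theorem Skw.false {f g : Fin 3 → B → ℂ} {ψ φ : Fin 3 → (B → ℂ) →ₗ[ℂ] ℂ} {c : ℂ}
    {e x1 : Matrix B B ℂ} (S : Skw G P Q f g ψ φ c e x1) (H : Lie G P Q 3 3)
    (T0 : ∀ X ∈ G, trace X = 0) (NB : NBil G P Q) : False := by
  have hc := S.c0
  -- vectors
  have hPg : ∀ i, P *ᵥ g i = g i := by
    intro i
    rw [S.Pv]
    simp [S.φg]
  have hQf : ∀ i, Q *ᵥ f i = f i := by
    intro i
    rw [S.Qv]
    simp [S.ψf]
  have hφQ : ∀ i v, φ i (Q *ᵥ v) = 0 := by
    intro i v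
    rw [← S.φP, mulVec_mulVec, H.PQ, zero_mulVec, map_zero]
  have hψP : ∀ i v, ψ i (P *ᵥ v) = 0 := by
    intro i v
    rw [← S.ψQ, mulVec_mulVec, H.QP, zero_mulVec, map_zero]
  have hφf : ∀ i j, φ i (f j) = 0 := by
    intro i j
    rw [← hQf, hφQ]
  have hψg : ∀ i j, ψ i (g j) = 0 := by
    intro i j
    rw [← hPg, hψP]
  have hPx : ∀ x ∈ pos G P Q, ∀ v, x *ᵥ v = ∑ i, φ i (x *ᵥ v) • g i := by
    intro x hx v
    rw [← S.Pv, mulVec_mulVec, hx.2.1]
  have he0 : e *ᵥ f 0 = g 0 := by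
    rw [hPx e S.em, Fin.sum_univ_three, S.e0, S.e1, S.e2, S.ψf, S.ψf]
    simp
  have he1 : e *ᵥ f 1 = g 1 := by
    rw [hPx e S.em, Fin.sum_univ_three, S.e0, S.e1, S.e2, S.ψf, S.ψf]
    simp
  have he2 : e *ᵥ f 2 = 0 := by
    rw [hPx e S.em, Fin.sum_univ_three, S.e0, S.e1, S.e2, S.ψf, S.ψf]
    simp
  have hx0 : x1 *ᵥ f 0 = 0 := by
    rw [hPx x1 S.xm, Fin.sum_univ_three, S.x0, S.x1', S.x2, S.ψf, S.ψf]
    simp
  have hx1 : x1 *ᵥ f 1 = c • g 2 := by
    rw [hPx x1 S.xm, Fin.sum_univ_three, S.x0, S.x1', S.x2, S.ψf, S.ψf]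
    simp
  have hx2 : x1 *ᵥ f 2 = g 0 := by
    rw [hPx x1 S.xm, Fin.sum_univ_three, S.x0, S.x1', S.x2, S.ψf, S.ψf]
    simp
  -- the half of the form
  obtain ⟨b, hb⟩ : ∃ b : (B → ℂ) → (B → ℂ) → ℂ, b = bs ψ φ c := ⟨_, rfl⟩
  have hb' : ∀ u v, b u v = φ 0 u * ψ 1 v - φ 1 u * ψ 0 v - c⁻¹ * (φ 2 u * ψ 2 v) := by
    intro u v
    rw [hb]
    rfl
  have badd1 : ∀ u u' v, b (u + u') v = b u v + b u' v := by
    intro u u' v
    simp only [hb', map_add]
    ring
  have badd2 : ∀ u v v', b u (v + v') = b u v + b u v' := by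
    intro u v v'
    simp only [hb', map_add]
    ring
  have bsmul1 : ∀ (r : ℂ) u v, b (r • u) v = r * b u v := by
    intro r u v
    simp only [hb', map_smul, smul_eq_mul]
    ring
  have bsmul2 : ∀ (r : ℂ) u v, b u (r • v) = r * b u v := by
    intro r u v
    simp only [hb', map_smul, smul_eq_mul]
    ring
  have bsub1 : ∀ u u' v, b (u - u') v = b u v - b u' v := by
    intro u u' v
    simp only [hb', map_sub]
    ring
  have bsub2 : ∀ u v v', b u (v - v') = b u v - b u v' := by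
    intro u v v'
    simp only [hb', map_sub]
    ring
  have bP : ∀ u v, b (P *ᵥ u) v = b u v := by
    intro u v
    simp only [hb', S.φP]
  have bQ : ∀ u v, b u (Q *ᵥ v) = b u v := by
    intro u v
    simp only [hb', S.ψQ]
  have bQ0 : ∀ u v, b (Q *ᵥ u) v = 0 := by
    intro u v
    simp only [hb', hφQ]
    ring
  have bP0 : ∀ u v, b u (P *ᵥ v) = 0 := by
    intro u v
    simp only [hb', hψP]
    ring
  have hW : ∀ x ∈ pos G P Q, ∀ u v, b (x *ᵥ u) v + b (x *ᵥ v) u = 0 := by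
    intro x hx u v
    obtain ⟨a, β1, β2, s1, s2, s3⟩ := S.str x hx
    simp only [hb', s1, s2, s3]
    have h1 : c⁻¹ * c = 1 := inv_mul_cancel₀ hc
    linear_combination (-(β1 * ψ 1 u - β2 * ψ 0 u) * ψ 2 v - (β1 * ψ 1 v - β2 * ψ 0 v) * ψ 2 u) * h1
  -- elements of degree zero
  have hz0 : ∀ z ∈ G, P * z = z * P → ∀ u v, b (z *ᵥ u) v + b u (z *ᵥ v) = 0 := by
    intro z hz hzP
    have hzQ := H.comm_Q hz hzP
    have key : ∀ x ∈ pos G P Q, ∀ u v, (b (z *ᵥ (x *ᵥ u)) v + b (x *ᵥ u) (z *ᵥ v)) +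
        (b (z *ᵥ (x *ᵥ v)) u + b (x *ᵥ v) (z *ᵥ u)) = 0 := by
      intro x hx u v
      have h1 := hW _ (H.br_pos hx hz hzP hzQ) u v
      have h2 := hW x hx (z *ᵥ u) v
      have h3 := hW x hx (z *ᵥ v) u
      rw [sub_mulVec, sub_mulVec, bsub1, bsub1, ← mulVec_mulVec, ← mulVec_mulVec,
        ← mulVec_mulVec, ← mulVec_mulVec] at h1
      linear_combination h1 + h2 + h3
    obtain ⟨m, hm⟩ : ∃ m : Fin 3 → Fin 3 → ℂ, ∀ i j, m i j = b (z *ᵥ g i) (f j) +
      b (g i) (z *ᵥ f j) := ⟨fun i j => _, fun _ _ => rfl⟩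
    have hz00 : b (z *ᵥ (0 : B → ℂ)) = b 0 := by rw [mulVec_zero]
    have b0 : ∀ v, b 0 v = 0 := by
      intro v
      simp only [hb', map_zero]
      ring
    have m00 : m 0 0 = 0 := by
      have h1 := key e S.em (f 0) (f 0)
      rw [he0, ← hm] at h1
      linear_combination h1 / 2
    have m11 : m 1 1 = 0 := by
      have h1 := key e S.em (f 1) (f 1)
      rw [he1, ← hm] at h1
      linear_combination h1 / 2
    have m10 : m 1 0 = -m 0 1 := by
      have h1 := key e S.em (f 0) (f 1)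
      rw [he0, he1, ← hm, ← hm] at h1
      linear_combination h1
    have m02 : m 0 2 = 0 := by
      have h1 := key e S.em (f 0) (f 2)
      rw [he0, he2, ← hm, hz00, b0, b0] at h1
      linear_combination h1
    have m12 : m 1 2 = 0 := by
      have h1 := key e S.em (f 1) (f 2)
      rw [he1, he2, ← hm, hz00, b0, b0] at h1
      linear_combination h1
    have m21 : m 2 1 = 0 := by
      have h1 := key x1 S.xm (f 1) (f 1)
      rw [hx1, mulVec_smul, bsmul1, bsmul1, ← mul_add, ← hm] at h1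
      have h2 : c * m 2 1 = 0 := by linear_combination h1 / 2
      exact (mul_eq_zero.1 h2).resolve_left hc
    have m20 : m 2 0 = 0 := by
      have h1 := key x1 S.xm (f 0) (f 1)
      rw [hx0, hx1, hz00, b0, b0, mulVec_smul, bsmul1, bsmul1, ← mul_add, ← hm] at h1
      have h2 : c * m 2 0 = 0 := by linear_combination h1
      exact (mul_eq_zero.1 h2).resolve_left hc
    have m22 : c * m 2 2 = -m 0 1 := by
      have h1 := key x1 S.xm (f 1) (f 2)
      rw [hx1, hx2, mulVec_smul, bsmul1, bsmul1, ← mul_add, ← hm, ← hm] at h1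
      linear_combination h1
    have n01 : m 0 1 = φ 0 (z *ᵥ g 0) + ψ 1 (z *ᵥ f 1) := by
      rw [hm, hb', hb']
      simp [S.ψf, S.φg]
    have n10 : m 1 0 = -(φ 1 (z *ᵥ g 1) + ψ 0 (z *ᵥ f 0)) := by
      rw [hm, hb', hb']
      simp [S.ψf, S.φg]
      ring
    have n22 : c * m 2 2 = -(φ 2 (z *ᵥ g 2) + ψ 2 (z *ᵥ f 2)) := by
      rw [hm, hb', hb']
      simp [S.ψf, S.φg]
      field_simp
      ring
    have htr : trace z = 3 * m 0 1 := by
      have h1 : z = z * P + z * Q := by rw [← mul_add, H.ler z hz]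
      rw [h1, trace_add, trace_frame S.Pv, trace_frame S.Qv, Fin.sum_univ_three,
        Fin.sum_univ_three]
      linear_combination -n01 + n10 + n22 - m10 - m22
    rw [T0 z hz] at htr
    have m01 : m 0 1 = 0 := by linear_combination -htr / 3
    have hall : ∀ i j, m i j = 0 := by
      intro i j
      fin_cases i <;> fin_cases j
      · exact m00
      · exact m01
      · exact m02
      · change m 1 0 = 0
        rw [m10, m01, neg_zero]
      · exact m11
      · exact m12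
      · exact m20
      · exact m21
      · change m 2 2 = 0
        rw [m01, neg_zero] at m22
        exact (mul_eq_zero.1 m22).resolve_left hc
    intro u v
    have h1 : b (z *ᵥ u) v + b u (z *ᵥ v) = b (z *ᵥ (P *ᵥ u)) (Q *ᵥ v) +
        b (P *ᵥ u) (z *ᵥ (Q *ᵥ v)) := by
      rw [mulVec_mulVec, mulVec_mulVec, ← hzP, ← hzQ, ← mulVec_mulVec, ← mulVec_mulVec, bP, bP,
        bQ, bQ]
    rw [h1, S.Pv, S.Qv]
    simp only [Fin.sum_univ_three, mulVec_add, mulVec_smul, badd1, badd2, bsmul1, bsmul2]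
    have e00 := hall 0 0
    have e01 := hall 0 1
    have e02 := hall 0 2
    have e10 := hall 1 0
    have e11 := hall 1 1
    have e12 := hall 1 2
    have e20 := hall 2 0
    have e21 := hall 2 1
    have e22 := hall 2 2
    rw [hm] at e00 e01 e02 e10 e11 e12 e20 e21 e22
    linear_combination (φ 0 u * ψ 0 v) * e00 + (φ 0 u * ψ 1 v) * e01 + (φ 0 u * ψ 2 v) * e02 +
      (φ 1 u * ψ 0 v) * e10 + (φ 1 u * ψ 1 v) * e11 + (φ 1 u * ψ 2 v) * e12 +
      (φ 2 u * ψ 0 v) * e20 + (φ 2 u * ψ 1 v) * e21 + (φ 2 u * ψ 2 v) * e22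
  -- elements of degree minus one
  have hy0 : ∀ y ∈ pos G Q P, ∀ u v, b v (y *ᵥ u) + b u (y *ᵥ v) = 0 := by
    intro y hy u
    have h1 : ∀ x ∈ pos G P Q, ∀ w, b (x *ᵥ w) (y *ᵥ u) + b u (y *ᵥ (x *ᵥ w)) = 0 := by
      intro x hx w
      have hzP : P * (x * y - y * x) = (x * y - y * x) * P := by
        have e1 : P * (x * y - y * x) = (P * x) * y - P * (Q * y) * x := by
          rw [hy.2.1]
          noncomm_ring
        have e2 : (x * y - y * x) * P = x * (y * P) - y * ((x * Q) * P) := by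
          rw [hx.2.2]
          noncomm_ring
        rw [e1, e2, hx.2.1, hy.2.2, ← mul_assoc P, H.PQ, mul_assoc x Q P, H.QP]
        simp
      have h2 := hz0 _ (H.br _ hx.1 _ hy.1) hzP u w
      have h3 := hW x hx (y *ᵥ u) w
      have h4 : b (y *ᵥ (x *ᵥ u)) w = 0 := by
        rw [← hy.2.1, ← mulVec_mulVec, bQ0]
      have h5 : b u (x *ᵥ (y *ᵥ w)) = 0 := by
        rw [← hx.2.1, ← mulVec_mulVec, bP0]
      rw [sub_mulVec, sub_mulVec, bsub1, bsub2, ← mulVec_mulVec, ← mulVec_mulVec,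
        ← mulVec_mulVec, ← mulVec_mulVec, h4, h5] at h2
      linear_combination h3 - h2
    have h2 : ∀ i, b (g i) (y *ᵥ u) + b u (y *ᵥ g i) = 0 := by
      intro i
      fin_cases i
      · have h3 := h1 e S.em (f 0)
        rwa [he0] at h3
      · have h3 := h1 e S.em (f 1)
        rwa [he1] at h3
      · have h3 := h1 x1 S.xm (f 1)
        rw [hx1, mulVec_smul, bsmul1, bsmul2, ← mul_add] at h3
        exact (mul_eq_zero.1 h3).resolve_left hc
    intro v
    have h3 : y *ᵥ v = y *ᵥ (P *ᵥ v) := by rw [mulVec_mulVec, hy.2.2]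
    rw [h3, ← bP v, S.Pv]
    simp only [Fin.sum_univ_three, mulVec_add, mulVec_smul, badd1, badd2, bsmul1, bsmul2]
    linear_combination (φ 0 v) * h2 0 + (φ 1 v) * h2 1 + (φ 2 v) * h2 2
  -- the form
  let β : (B → ℂ) →ₗ[ℂ] (B → ℂ) →ₗ[ℂ] ℂ := LinearMap.mk₂ ℂ (fun u v => b u v + b v u)
    (fun u u' v => by rw [badd1, badd2]; ring) (fun r u v => by
      rw [bsmul1, bsmul2, smul_eq_mul]; ring)
    (fun u v v' => by rw [badd1, badd2]; ring) (fun r u v => by
      rw [bsmul1, bsmul2, smul_eq_mul]; ring)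
  have hβ : ∀ u v, β u v = b u v + b v u := fun _ _ => rfl
  have h1 := NB β (fun u v => by rw [hβ, hβ, add_comm]) (fun X hX u v _ _ => by
    obtain ⟨x, hx⟩ : ∃ x, x = P * X * Q := ⟨_, rfl⟩
    obtain ⟨y, hy⟩ : ∃ y, y = Q * X * P := ⟨_, rfl⟩
    obtain ⟨z, hz⟩ : ∃ z, z = P * X * P + Q * X * Q := ⟨_, rfl⟩
    have hxp : x ∈ pos G P Q := by
      rw [hx]
      exact ⟨H.grP hX, by rw [← mul_assoc, ← mul_assoc, H.PP], by rw [mul_assoc _ Q Q, H.QQ]⟩
    have hyp : y ∈ pos G Q P := by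
      rw [hy]
      exact ⟨H.grQ hX, by rw [← mul_assoc, ← mul_assoc, H.QQ], by rw [mul_assoc _ P P, H.PP]⟩
    have hzp : z ∈ G := by rw [hz]; exact H.gr0 hX
    have hzP : P * z = z * P := by rw [hz]; exact H.gr0_comm X
    have hXs : X = x + y + z := by rw [hx, hy, hz]; exact H.split hX
    have c1 : ∀ u v, b (y *ᵥ u) v = 0 := by
      intro u v
      rw [← hyp.2.1, ← mulVec_mulVec, bQ0]
    have c2 : ∀ u v, b u (x *ᵥ v) = 0 := by
      intro u v
      rw [← hxp.2.1, ← mulVec_mulVec, bP0]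
    rw [hβ, hβ, hXs]
    simp only [add_mulVec, badd1, badd2, c1, c2]
    linear_combination hW x hxp u v + hy0 y hyp u v + hz0 z hzp hzP u v + hz0 z hzp hzP v u)
    (g 0) (f 1) (by
      rw [add_mulVec, hPg, ← hPg, mulVec_mulVec, H.QP, zero_mulVec, add_zero]) (by
      rw [add_mulVec, hQf, ← hQf, mulVec_mulVec, H.PQ, zero_mulVec, zero_add])
  rw [hβ, hb', hb', S.φg, S.ψf, S.φg, S.φg, S.ψf, S.ψf, hφf, hφf, hφf] at h1
  simp at h1

end Pool.Agent.R915
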