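import Mathlib
import Pool.Agent.R915.D3

/-!
# Lie algebras of the format (3, 3) without elements of rank one, fourth part
-/

set_option linter.unusedSectionVars false

namespace Pool.Agent.R915

open Matrix Module
open Pool.Agent.Y4.G (Lie Tri Mini exists_mini trace_idemM trace_idemOp finrank_eq_one_of)
open Pool.Agent.Y4.G.Lie (pos mem_pos)

open scoped ComplexOrder

variable {B : Type*} [Fintype B] [DecidableEq B]

variable {G : Submodule ℂ (Matrix B B ℂ)} {P Q : Matrix B B ℂ}

/-- The Lie algebra is generated by involutions. -/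
def GenInv (G : Submodule ℂ (Matrix B B ℂ)) (P Q : Matrix B B ℂ) : Prop :=
  ∀ G' : Submodule ℂ (Matrix B B ℂ), (∀ X ∈ G', ∀ Y ∈ G', X * Y - Y * X ∈ G') →
    (∀ X ∈ G, X * X = P + Q → X ∈ G') → G ≤ G'

theorem no_line (H : Lie G P Q 3 3) {e : Matrix B B ℂ} {t : ℂ} (k : Trp G P Q e P Q t)
    (T0 : ∀ X ∈ G, trace X = 0) (GI : GenInv G P Q) : False := by
  have ht0 := k.t0
  obtain ⟨e', he'⟩ : ∃ e', e' = t⁻¹ • eᴴ := ⟨_, rfl⟩
  have hee : e * e' = P := by
    rw [he', Matrix.mul_smul, k.eh, smul_smul, inv_mul_cancel₀ ht0, one_smul]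
  have hee' : e' * e = Q := by
    rw [he', Matrix.smul_mul, k.he, smul_smul, inv_mul_cancel₀ ht0, one_smul]
  have hem' : e' ∈ pos G Q P := by
    rw [he']
    exact Submodule.smul_mem _ _ (H.star_pos k.mem)
  have hPe : P * e = e := k.mem.2.1
  have heQ : e * Q = e := k.mem.2.2
  have hQe' : Q * e' = e' := hem'.2.1
  have heP' : e' * P = e' := hem'.2.2
  have hQe : Q * e = 0 := by rw [← hPe, ← mul_assoc, H.QP, zero_mul]
  have heP : e * P = 0 := by rw [← heQ, mul_assoc, H.QP, mul_zero]
  have hPe' : P * e' = 0 := by rw [← hQe', ← mul_assoc, H.PQ, zero_mul]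
  have heQ' : e' * Q = 0 := by rw [← heP', mul_assoc, H.PQ, mul_zero]
  have hee0 : e * e = 0 := by
    nth_rewrite 1 [← heQ]
    rw [mul_assoc, hQe, mul_zero]
  have hee0' : e' * e' = 0 := by
    nth_rewrite 1 [← heP']
    rw [mul_assoc, hPe', mul_zero]
  have hpos : ∀ x ∈ pos G P Q, ∃ c : ℂ, x = c • e := by
    intro x hx
    exact k.one x hx (by rw [hx.2.1, hx.2.2])
  have hneg : ∀ y ∈ pos G Q P, ∃ c : ℂ, y = c • e' := by
    intro y hy
    obtain ⟨c, hc⟩ := hpos _ (H.symm.star_pos hy)
    refine ⟨star c * t, ?_⟩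
    have h1 := congrArg conjTranspose hc
    rw [conjTranspose_conjTranspose, conjTranspose_smul] at h1
    rw [h1, he', smul_smul, mul_assoc, mul_inv_cancel₀ ht0, mul_one]
  -- the small Lie algebra
  let G' : Submodule ℂ (Matrix B B ℂ) :=
    { carrier := {X | ∃ α β γ : ℂ, X = α • e + β • e' + γ • (P - Q)}
      zero_mem' := ⟨0, 0, 0, by simp⟩
      add_mem' := by
        rintro _ _ ⟨α, β, γ, rfl⟩ ⟨α', β', γ', rfl⟩
        exact ⟨α + α', β + β', γ + γ', by module⟩
      smul_mem' := by
        rintro c _ ⟨α, β, γ, rfl⟩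
        exact ⟨c * α, c * β, c * γ, by module⟩ }
  have hG' : ∀ X, X ∈ G' ↔ ∃ α β γ : ℂ, X = α • e + β • e' + γ • (P - Q) := fun _ => Iff.rfl
  have hDe : (P - Q) * e = e := by rw [sub_mul, hPe, hQe, sub_zero]
  have heD : e * (P - Q) = -e := by rw [mul_sub, heP, heQ, zero_sub]
  have hDe' : (P - Q) * e' = -e' := by rw [sub_mul, hPe', hQe', zero_sub]
  have heD' : e' * (P - Q) = e' := by rw [mul_sub, heP', heQ', sub_zero]
  have hbr : ∀ X ∈ G', ∀ Y ∈ G', X * Y - Y * X ∈ G' := by
    rintro _ ⟨α, β, γ, rfl⟩ _ ⟨α', β', γ', rfl⟩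
    refine ⟨2 * (γ * α' - γ' * α), -2 * (γ * β' - γ' * β), α * β' - β * α', ?_⟩
    simp only [add_mul, mul_add, Matrix.smul_mul, Matrix.mul_smul, hee0, hee0', hee, hee', hDe,
      heD, hDe', heD']
    module
  have hle : G ≤ G' := by
    refine GI G' hbr fun X hX hXX => ?_
    obtain ⟨x, hx⟩ : ∃ x, x = P * X * Q := ⟨_, rfl⟩
    obtain ⟨y, hy⟩ : ∃ y, y = Q * X * P := ⟨_, rfl⟩
    obtain ⟨z, hz⟩ : ∃ z, z = P * X * P + Q * X * Q := ⟨_, rfl⟩
    have hxp : x ∈ pos G P Q := by
      rw [hx]
      exact ⟨H.grP hX, by rw [← mul_assoc, ← mul_assoc, H.PP], by rw [mul_assoc _ Q Q, H.QQ]⟩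
    have hyp : y ∈ pos G Q P := by
      rw [hy]
      exact ⟨H.grQ hX, by rw [← mul_assoc, ← mul_assoc, H.QQ], by rw [mul_assoc _ P P, H.PP]⟩
    have hzp : z ∈ G := by rw [hz]; exact H.gr0 hX
    have hzP : P * z = z * P := by rw [hz]; exact H.gr0_comm X
    have hzQ := H.comm_Q hzp hzP
    have hzs : z = z * P + z * Q := by rw [← mul_add, H.ler z hzp]
    have hXs : X = x + y + z := by rw [hx, hy, hz]; exact H.split hX
    obtain ⟨α, hα⟩ := hpos x hxp
    obtain ⟨β, hβ⟩ := hneg y hyp
    obtain ⟨χ, hχ⟩ := hpos _ (H.br_pos k.mem hzp hzP hzQ)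
    have hze : z * e = e * z + χ • e := by rw [← hχ]; abel
    have hze' : e' * z = z * e' + χ • e' := by
      have h1 : e' * (z * e) * e' = e' * (e * z + χ • e) * e' := by rw [hze]
      have h2 : e' * (z * e) * e' = e' * z := by
        rw [mul_assoc, mul_assoc, hee, ← hzP, ← mul_assoc, heP']
      have h3 : e' * (e * z + χ • e) * e' = z * e' + χ • e' := by
        rw [mul_add, add_mul, ← mul_assoc, hee', Matrix.mul_smul, hee', Matrix.smul_mul, hQe',
          hzQ, mul_assoc z, hQe']
      rw [← h2, h1, h3]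
    -- the components of the square
    have hPX : P * X = x + P * z := by
      rw [hXs, mul_add, mul_add, hxp.2.1, ← hyp.2.1, ← mul_assoc, H.PQ, zero_mul, add_zero]
    have hQX : Q * X = y + Q * z := by
      rw [hXs, mul_add, mul_add, hyp.2.1, ← hxp.2.1, ← mul_assoc, H.QP, zero_mul, zero_add]
    have hXP : X * P = y + z * P := by
      rw [hXs, add_mul, add_mul, hyp.2.2, ← hxp.2.2, mul_assoc x, H.QP, mul_zero, zero_add]
    have hXQ : X * Q = x + z * Q := by
      rw [hXs, add_mul, add_mul, hxp.2.2, ← hyp.2.2, mul_assoc y, H.PQ, mul_zero, add_zero]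
    have hxx : x * x = 0 := by
      rw [hα, Matrix.smul_mul, Matrix.mul_smul, hee0, smul_zero, smul_zero]
    have hyy : y * y = 0 := by
      rw [hβ, Matrix.smul_mul, Matrix.mul_smul, hee0', smul_zero, smul_zero]
    have hPzzQ : P * z * (z * Q) = 0 := by
      rw [hzP, mul_assoc z P, ← mul_assoc P z, hzP, mul_assoc z P, H.PQ, mul_zero, mul_zero]
    have hQzzP : Q * z * (z * P) = 0 := by
      rw [hzQ, mul_assoc z Q, ← mul_assoc Q z, hzQ, mul_assoc z Q, H.QP, mul_zero, mul_zero]
    have s1 : x * z + z * x = 0 := by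
      have h1 : P * (X * X) * Q = 0 := by
        rw [hXX, mul_add, add_mul, H.PP, H.PQ, zero_mul, add_zero]
      have h2 : P * (X * X) * Q = (P * X) * (X * Q) := by noncomm_ring
      rw [h2, hPX, hXQ, add_mul, mul_add, mul_add, hxx, hPzzQ, zero_add, add_zero, ← hzQ,
        ← mul_assoc x, hxp.2.2, hzP, mul_assoc z, hxp.2.1] at h1
      exact h1
    have s2 : y * z + z * y = 0 := by
      have h1 : Q * (X * X) * P = 0 := by
        rw [hXX, mul_add, add_mul, H.QP, H.QQ, H.QP, zero_mul, zero_add]
      have h2 : Q * (X * X) * P = (Q * X) * (X * P) := by noncomm_ring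
      rw [h2, hQX, hXP, add_mul, mul_add, mul_add, hyy, hQzzP, zero_add, add_zero, ← hzP,
        ← mul_assoc y, hyp.2.2, hzQ, mul_assoc z, hyp.2.1] at h1
      exact h1
    -- the element of degree zero
    obtain ⟨γ, hγ⟩ : ∃ γ : ℂ, z = γ • (P - Q) := by
      refine ⟨χ / 2, ?_⟩
      have key : (2 : ℂ) • (z * P) = χ • P → (2 : ℂ) • (z * Q) = -(χ • Q) →
          z = (χ / 2) • (P - Q) := by
        intro h1 h2
        have h3 : (2 : ℂ) • z = χ • (P - Q) := by
          nth_rewrite 1 [hzs]
          rw [smul_add, h1, h2, smul_sub]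
          abel
        have h4 : z = (2 : ℂ)⁻¹ • ((2 : ℂ) • z) := by
          rw [smul_smul, inv_mul_cancel₀ two_ne_zero, one_smul]
        rw [h4, h3, smul_smul]
        congr 1
        ring
      by_cases hα0 : α = 0
      · by_cases hβ0 : β = 0
        · -- the square of the element of degree zero
          have hXz : X = z := by rw [hXs, hα, hβ, hα0, hβ0]; simp
          have hzz : z * z = P + Q := by rw [← hXz, hXX]
          have hzzQ : z * z * Q = Q := by rw [hzz, add_mul, H.PQ, H.QQ, zero_add]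
          have hzzP : z * z * P = P := by rw [hzz, add_mul, H.QP, H.PP, add_zero]
          have hN : ((2 : ℂ)⁻¹ • (Q - z * Q)) * ((2 : ℂ)⁻¹ • (Q - z * Q)) =
              (2 : ℂ)⁻¹ • (Q - z * Q) := by
            have h1 : (Q - z * Q) * (Q - z * Q) = (2 : ℂ) • (Q - z * Q) := by
              have h2 : (Q - z * Q) * (Q - z * Q) = Q * Q - Q * z * Q - z * (Q * Q) +
                z * (Q * z) * Q := by noncomm_ring
              have h3 : Q * z * Q = z * Q := by rw [hzQ, mul_assoc, H.QQ]
              have h4 : z * (Q * z) * Q = Q := by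
                rw [hzQ, ← mul_assoc, mul_assoc (z * z), H.QQ, hzzQ]
              rw [h2, h3, h4, H.QQ, two_smul]
              abel
            rw [Matrix.smul_mul, Matrix.mul_smul, h1, smul_smul, smul_smul]
            norm_num
          have hn := trace_idemM hN
          obtain ⟨n, hn'⟩ : ∃ n, n = finrank ℂ (LinearMap.range (mulVecLin
            ((2 : ℂ)⁻¹ • (Q - z * Q)))) := ⟨_, rfl⟩
          rw [← hn', trace_smul, trace_sub, H.trQ, smul_eq_mul] at hn
          have hezP : z * P = e * z * e' + χ • P := by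
            rw [← hee, ← mul_assoc, hze, add_mul, Matrix.smul_mul]
          have ht1 : trace (z * P) = trace (z * Q) + 3 * χ := by
            rw [hezP, trace_add, trace_smul, H.trP, mul_assoc, trace_mul_comm, mul_assoc, hee',
              smul_eq_mul]
            push_cast
            ring
          have ht2 : trace (z * P) + trace (z * Q) = 0 := by
            rw [← trace_add, ← hzs]
            exact T0 z hzp
          have hsq : χ • ((2 : ℂ) • (e * z * e') + χ • P) = 0 := by
            have h1 : z * P * (z * P) = P := by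
              rw [mul_assoc, ← mul_assoc P, hzP, mul_assoc z P, H.PP, ← mul_assoc, hzzP]
            have h2 : e * z * e' * (e * z * e') = P := by
              have h3 : e * z * e' * (e * z * e') = e * (z * ((e' * e) * z)) * e' := by
                noncomm_ring
              rw [h3, hee', hzQ, ← mul_assoc z z Q, hzzQ, heQ, hee]
            have h3 : e * z * e' * P = e * z * e' := by rw [mul_assoc, heP']
            have h4 : P * (e * z * e') = e * z * e' := by
              rw [← mul_assoc, ← mul_assoc, hPe]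
            rw [hezP, add_mul, mul_add, mul_add, h2, Matrix.mul_smul, h3, Matrix.smul_mul, h4,
              Matrix.smul_mul, Matrix.mul_smul, H.PP] at h1
            have h5 : P + χ • (e * z * e') + (χ • (e * z * e') + χ • (χ • P)) =
              P + χ • ((2 : ℂ) • (e * z * e') + χ • P) := by module
            rw [h5] at h1
            exact left_eq_add.1 h1.symm
          by_cases hχ0 : χ = 0
          · exfalso
            rw [hχ0, mul_zero, add_zero] at ht1
            have h1 : trace (z * Q) = 0 := by linear_combination (ht2 - ht1) / 2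
            rw [h1] at hn
            have h2 : ((3 : ℕ) : ℂ) = ((2 * n : ℕ) : ℂ) := by
              push_cast
              push_cast at hn
              linear_combination 2 * hn
            have h3 : 3 = 2 * n := by exact_mod_cast h2
            omega
          · have h1 : (2 : ℂ) • (e * z * e') + χ • P = 0 := (smul_eq_zero.1 hsq).resolve_left hχ0
            have h2 : (2 : ℂ) • (e * z * e') = -(χ • P) := eq_neg_of_add_eq_zero_left h1
            refine key ?_ ?_
            · rw [hezP, smul_add, h2, smul_smul]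
              module
            · have h3 : z * Q = e' * (e * z * e') * e := by
                have h4 : e' * (e * z * e') * e = (e' * e) * z * (e' * e) := by noncomm_ring
                rw [h4, hee', hzQ, mul_assoc, H.QQ]
              rw [h3, ← Matrix.smul_mul, ← Matrix.mul_smul, h2, mul_neg, neg_mul, Matrix.mul_smul,
                Matrix.smul_mul, heP', hee']
        · have h1 : e' * z + z * e' = 0 := by
            have h2 : β • (e' * z + z * e') = 0 := by
              rw [smul_add, ← Matrix.smul_mul, ← Matrix.mul_smul, ← hβ, s2]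
            exact (smul_eq_zero.1 h2).resolve_left hβ0
          have h2 : (2 : ℂ) • (z * e') = -(χ • e') := by
            rw [hze'] at h1
            rw [two_smul, eq_neg_iff_add_eq_zero, ← h1]
            abel
          have h3 : (2 : ℂ) • (e' * z) = χ • e' := by
            rw [hze', smul_add, h2]
            module
          refine key ?_ ?_
          · rw [← hzP, ← hee, mul_assoc, ← Matrix.mul_smul, h3, Matrix.mul_smul]
          · rw [← hee', ← mul_assoc, ← Matrix.smul_mul, h2, neg_mul, Matrix.smul_mul]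
      · have h1 : e * z + z * e = 0 := by
          have h2 : α • (e * z + z * e) = 0 := by
            rw [smul_add, ← Matrix.smul_mul, ← Matrix.mul_smul, ← hα, s1]
          exact (smul_eq_zero.1 h2).resolve_left hα0
        have h2 : (2 : ℂ) • (e * z) = -(χ • e) := by
          rw [hze] at h1
          rw [two_smul, eq_neg_iff_add_eq_zero, ← h1]
          abel
        have h3 : (2 : ℂ) • (z * e) = χ • e := by
          rw [hze, smul_add, h2]
          module
        refine key ?_ ?_
        · rw [← hee, ← mul_assoc, ← Matrix.smul_mul, h3, Matrix.smul_mul]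
        · rw [← hzQ, ← hee', mul_assoc, ← Matrix.mul_smul, h2, mul_neg, Matrix.mul_smul]
    exact ⟨α, β, γ, by rw [hXs, hα, hβ, hγ]⟩
  -- the stable plane
  obtain ⟨f, ψ, hf1, hf2, hf3, hf4⟩ := exists_frame H.QQ (n := 3) H.trQ
  have hPf : ∀ i, P *ᵥ f i = 0 := by
    intro i
    rw [← hf1 i, mulVec_mulVec, H.PQ, zero_mulVec]
  have hef : e *ᵥ (e *ᵥ f 0) = 0 := by rw [mulVec_mulVec, hee0, zero_mulVec]
  have he'f : e' *ᵥ f 0 = 0 := by
    rw [← hf1 0, mulVec_mulVec, heQ', zero_mulVec]
  have hee'f : e' *ᵥ (e *ᵥ f 0) = f 0 := by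
    rw [mulVec_mulVec, hee', hf1]
  have hDf : (P - Q) *ᵥ f 0 = -f 0 := by
    rw [sub_mulVec, hPf, hf1, zero_sub]
  have hDef : (P - Q) *ᵥ (e *ᵥ f 0) = e *ᵥ f 0 := by
    rw [mulVec_mulVec, hDe]
  have hQef : Q *ᵥ (e *ᵥ f 0) = 0 := by rw [mulVec_mulVec, hQe, zero_mulVec]
  rcases H.irr (Submodule.span ℂ {f 0, e *ᵥ f 0}) (by
    intro u hu
    obtain ⟨x, y, rfl⟩ := Submodule.mem_span_pair.1 hu
    rw [mulVec_add, mulVec_smul, mulVec_smul, add_mulVec, add_mulVec, hPf, hf1, hQef,
      mulVec_mulVec, hPe, zero_add, add_zero]) (by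
    intro X hX u hu
    obtain ⟨α, β, γ, rfl⟩ := (hG' X).1 (hle hX)
    obtain ⟨x, y, rfl⟩ := Submodule.mem_span_pair.1 hu
    rw [Submodule.mem_span_pair]
    refine ⟨β * y - γ * x, α * x + γ * y, ?_⟩
    simp only [add_mulVec, smul_mulVec, mulVec_add, mulVec_smul, hef, he'f, hee'f, hDf, hDef]
    module) with h1 | h1
  · have h2 : f 0 ∈ Submodule.span ℂ {f 0, e *ᵥ f 0} := Submodule.subset_span (Or.inl rfl)
    rw [h1, Submodule.mem_bot] at h2
    have h3 := hf3 0 0
    rw [h2, map_zero] at h3
    simp at h3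
  · have h2 := h1 (f 1) (by rw [add_mulVec, hPf, hf1, zero_add])
    obtain ⟨x, y, hxy⟩ := Submodule.mem_span_pair.1 h2
    have h3 := congrArg (fun v => ψ 1 (Q *ᵥ v)) hxy
    simp only [mulVec_add, mulVec_smul, hQef, hf1, smul_zero, add_zero, map_smul, hf3] at h3
    simp at h3

end Pool.Agent.R915
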