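import Mathlib
import Pool.Agent.R915.D4
import Pool.Agent.R915.C3

/-!
# Elements of rank one for the multiplicities (3, 3)
-/

set_option linter.unusedSectionVars false

namespace Pool.Agent.R915

open Matrix Module Pool.Agent.W437.HC Pool.Agent.W437.HD Pool.Agent.TH504.CB Pool.Agent.Y90
open Pool.Agent.W548.Odd hiding cv
open Pool.Agent.Y4.G (Lie lr lr_apply trace_idemM)
open Pool.Agent.Y4.G.Lie (pos mem_pos)
open Pool.Agent.H204R3.CM (IsHodge)
open Pool.Agent.W437.HP (cK cK_mul cK_one)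

noncomputable section

variable {g : ℕ} {Z : Matrix (Fin g) (Fin g) ℂ} {U : Submodule ℂ (Fin g ⊕ Fin g → ℂ)}

/-- Elements of rank one in the case of the multiplicities (3, 3). -/
theorem rk1_33 (h : PM Z) {U : Submodule ℂ (Fin g ⊕ Fin g → ℂ)} (hU : IrS (LZ Z) U)
    (hp : pd Z U = 3) (hq : qd Z U = 3) (P' : Matrix (Fin g ⊕ Fin g) (Fin g ⊕ Fin g) ℂ)
    (hP1 : ∀ v, P' *ᵥ v ∈ U) (hP2 : ∀ v ∈ U, P' *ᵥ v = v)
    (htr : ∀ X ∈ LZ Z, trace (X * P') = 0)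
    (hnb : ∀ b : (Fin g ⊕ Fin g → ℂ) →ₗ[ℂ] (Fin g ⊕ Fin g → ℂ) →ₗ[ℂ] ℂ,
      (∀ u v, b u v = b v u) →
      (∀ X ∈ LZ Z, ∀ u ∈ U, ∀ v ∈ U, b (X *ᵥ u) v + b u (X *ᵥ v) = 0) →
      ∀ u ∈ U, ∀ v ∈ U, b u v = 0) : Rk1 Z U := by
  by_contra hR
  obtain ⟨S, Si, e, hSSi, hSiS, he1, he2, hce, H⟩ := lie_irr h hU
  rw [hp, hq] at H
  have hSv : ∀ v, Si *ᵥ (S *ᵥ v) = v := fun v => by rw [mulVec_mulVec, hSiS, one_mulVec]
  have hSv' : ∀ v, S *ᵥ (Si *ᵥ v) = v := fun v => by rw [mulVec_mulVec, hSSi, one_mulVec]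
  have hap : ∀ (c : ℂ) v, pP (DZ Z) e c *ᵥ v = (2 : ℂ)⁻¹ • (e *ᵥ v + c • (DZ Z *ᵥ (e *ᵥ v))) := by
    intro c v
    unfold pP
    rw [smul_mulVec, ← mulVec_mulVec, add_mulVec, one_mulVec, smul_mulVec]
  have hapU : ∀ c v, pP (DZ Z) e c *ᵥ v ∈ U := by
    intro c v
    rw [hap]
    exact Submodule.smul_mem _ _ (Submodule.add_mem _ (he1 v)
      (Submodule.smul_mem _ _ (hU.2.1 _ DZ_mem _ (he1 v))))
  have hsum : ∀ v, (S * pP (DZ Z) e 1 * Si + S * pP (DZ Z) e (-1) * Si) *ᵥ v =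
      S *ᵥ (e *ᵥ (Si *ᵥ v)) := by
    intro v
    rw [add_mulVec, ← mulVec_mulVec, ← mulVec_mulVec, ← mulVec_mulVec, ← mulVec_mulVec,
      ← mulVec_add, hap, hap]
    congr 1
    module
  have hsumU : ∀ u ∈ U, (S * pP (DZ Z) e 1 * Si + S * pP (DZ Z) e (-1) * Si) *ᵥ (S *ᵥ u) =
      S *ᵥ u := by
    intro u hu
    rw [hsum, hSv, he2 u hu]
  have hee : e * e = e := eq_of_mulVec fun v => by
    rw [← mulVec_mulVec, he2 _ (he1 v)]
  have hsumE : S * pP (DZ Z) e 1 * Si + S * pP (DZ Z) e (-1) * Si = S * e * Si :=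
    eq_of_mulVec fun v => by
      rw [hsum, ← mulVec_mulVec, ← mulVec_mulVec]
  have hlr : ∀ X, lr S (e * Si) X = S * (X * e) * Si := by
    intro X
    rw [lr_apply]
    noncomm_ring
  -- no elements of rank one
  have hNR : NR1 ((LZ Z).map (lr S (e * Si))) (S * pP (DZ Z) e 1 * Si)
      (S * pP (DZ Z) e (-1) * Si) := by
    rintro x ⟨⟨X, hX, rfl⟩, hx1, hx2⟩ u hxu
    obtain ⟨N, hN⟩ : ∃ N, N = (1 / 4 : ℂ) • ((1 + DZ Z) * X * (1 - DZ Z)) := ⟨_, rfl⟩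
    have key : ∀ v ∈ U, (lr S (e * Si) X) *ᵥ (S *ᵥ v) = S *ᵥ (N *ᵥ v) := by
      intro v hv
      have h1 : lr S (e * Si) X = (S * pP (DZ Z) e 1 * Si) * lr S (e * Si) X *
          (S * pP (DZ Z) e (-1) * Si) := by rw [hx1, hx2]
      have h2 : pP (DZ Z) e (-1) *ᵥ v = (2 : ℂ)⁻¹ • (v - DZ Z *ᵥ v) := by
        rw [hap, he2 v hv, neg_one_smul, ← sub_eq_add_neg]
      have h3 : v - DZ Z *ᵥ v ∈ U := Submodule.sub_mem _ hv (hU.2.1 _ DZ_mem v hv)
      have h4 : X *ᵥ (v - DZ Z *ᵥ v) ∈ U := hU.2.1 _ hX _ h3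
      have hcS : ∀ c w, (S * pP (DZ Z) e c * Si) *ᵥ (S *ᵥ w) = S *ᵥ (pP (DZ Z) e c *ᵥ w) := by
        intro c w
        rw [← mulVec_mulVec, ← mulVec_mulVec, hSv]
      have hcL : ∀ w ∈ U, (lr S (e * Si) X) *ᵥ (S *ᵥ w) = S *ᵥ (X *ᵥ w) := by
        intro w hw
        rw [hlr, ← mulVec_mulVec, ← mulVec_mulVec, ← mulVec_mulVec, hSv, he2 w hw]
      rw [h1, ← mulVec_mulVec, ← mulVec_mulVec, hcS, hcL _ (hapU _ _), hcS, h2, mulVec_smul,
        mulVec_smul, hap, he2 _ h4, hN, smul_mulVec, ← mulVec_mulVec, ← mulVec_mulVec,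
        sub_mulVec, one_mulVec, add_mulVec, one_mulVec, one_smul, smul_smul]
      norm_num
    by_cases hz : ∃ v ∈ U, N *ᵥ v ≠ 0
    · exfalso
      obtain ⟨v0, hv0, hv00⟩ := hz
      apply hR
      have hNs : ∀ v ∈ U, ∃ c : ℂ, N *ᵥ v = c • (Si *ᵥ u) := by
        intro v hv
        obtain ⟨c, hc⟩ := hxu (S *ᵥ v)
        refine ⟨c, ?_⟩
        rw [key v hv] at hc
        rw [← hSv (N *ᵥ v), hc, mulVec_smul]
      obtain ⟨c0, hc0⟩ := hNs v0 hv0
      have hc00 : c0 ≠ 0 := by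
        rintro rfl
        rw [zero_smul] at hc0
        exact hv00 hc0
      have hu0 : Si *ᵥ u ≠ 0 := by
        intro h1
        rw [h1, smul_zero] at hc0
        exact hv00 hc0
      refine ⟨DZ Z, Or.inl rfl, N, by rw [hN]; exact up_mem h hX, by rw [hN]; exact up_l h X,
        by rw [hN]; exact up_r h X, ?_⟩
      have h1 : U.map (mulVecLin N) = Submodule.span ℂ {Si *ᵥ u} := by
        apply le_antisymm
        · rintro _ ⟨v, hv, rfl⟩
          obtain ⟨c, hc⟩ := hNs v hv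
          rw [mulVecLin_apply, hc]
          exact Submodule.smul_mem _ _ (Submodule.mem_span_singleton_self _)
        · rw [Submodule.span_singleton_le_iff_mem]
          refine ⟨c0⁻¹ • v0, Submodule.smul_mem _ _ hv0, ?_⟩
          rw [mulVecLin_apply, mulVec_smul, hc0, smul_smul, inv_mul_cancel₀ hc00, one_smul]
      rw [h1, finrank_span_singleton hu0]
    · push Not at hz
      refine eq_of_mulVec fun w => ?_
      rw [zero_mulVec, ← hx2, ← mulVec_mulVec, ← mulVec_mulVec, ← mulVec_mulVec,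
        key _ (hapU _ _), hz _ (hapU _ _), mulVec_zero]
  -- traces
  have hT0 : ∀ X ∈ (LZ Z).map (lr S (e * Si)), trace X = 0 := by
    rintro _ ⟨X, hX, rfl⟩
    have h1 : P' * e = e := eq_of_mulVec fun v => by
      rw [← mulVec_mulVec, hP2 _ (he1 v)]
    have h2 : X * P' = e * (X * P') := eq_of_mulVec fun v => by
      rw [← mulVec_mulVec v e, he2 _ (by
        rw [← mulVec_mulVec]
        exact hU.2.1 _ hX _ (hP1 v))]
    rw [hlr, trace_mul_comm, ← mul_assoc, hSiS, one_mul, ← htr X hX, h2, ← mul_assoc e,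
      trace_mul_comm (e * X), ← mul_assoc, h1, trace_mul_comm]
  -- bilinear forms
  have hNB : NBil ((LZ Z).map (lr S (e * Si))) (S * pP (DZ Z) e 1 * Si)
      (S * pP (DZ Z) e (-1) * Si) := by
    intro b hbs hb u v hu hv
    have hmem : ∀ w, (S * pP (DZ Z) e 1 * Si + S * pP (DZ Z) e (-1) * Si) *ᵥ w = w →
        Si *ᵥ w ∈ U := by
      intro w hw
      rw [hsum] at hw
      rw [← hw, hSv]
      exact he1 _
    have h1 := hnb ((b.comp (mulVecLin S)).compl₂ (mulVecLin S)) (fun u v => hbs _ _) (by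
      intro X hX x hx y hy
      have h2 := hb _ ⟨X, hX, rfl⟩ (S *ᵥ x) (S *ᵥ y) (hsumU x hx) (hsumU y hy)
      have h3 : ∀ w ∈ U, (lr S (e * Si) X) *ᵥ (S *ᵥ w) = S *ᵥ (X *ᵥ w) := by
        intro w hw
        rw [hlr, ← mulVec_mulVec, ← mulVec_mulVec, ← mulVec_mulVec, hSv, he2 w hw]
      rw [h3 x hx, h3 y hy] at h2
      exact h2) _ (hmem u hu) _ (hmem v hv)
    rw [LinearMap.compl₂_apply, LinearMap.comp_apply, mulVecLin_apply, mulVecLin_apply, hSv',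
      hSv'] at h1
    exact h1
  -- generators
  have hGI : GenInv ((LZ Z).map (lr S (e * Si))) (S * pP (DZ Z) e 1 * Si)
      (S * pP (DZ Z) e (-1) * Si) := by
    intro G' hG1 hG2
    have hmul : ∀ X ∈ LZ Z, ∀ Y ∈ LZ Z, lr S (e * Si) X * lr S (e * Si) Y =
        S * (X * Y * e) * Si := by
      intro X _ Y hY
      rw [hlr, hlr]
      calc S * (X * e) * Si * (S * (Y * e) * Si) = S * (X * e) * (Si * S) * (Y * e) * Si := by
            noncomm_ring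
      _ = S * (X * (e * Y) * e) * Si := by
            rw [hSiS]
            noncomm_ring
      _ = _ := by
            rw [← hce Y hY]
            have h1 : S * (X * (Y * e) * e) * Si = S * (X * Y * (e * e)) * Si := by noncomm_ring
            rw [h1, hee]
    have hL : LZ Z ≤ LZ Z ⊓ G'.comap (lr S (e * Si)) := by
      refine LZ_le (fun σ => ⟨DS_mem σ, ?_⟩) (fun X hX Y hY => ⟨LZ_br hX.1 hY.1, ?_⟩)
      · refine hG2 _ ⟨_, DS_mem σ, rfl⟩ ?_
        rw [hmul _ (DS_mem σ) _ (DS_mem σ), DS_sq h.det, one_mul, hsumE]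
      · have h1 := hG1 _ hX.2 _ hY.2
        change lr S (e * Si) (X * Y - Y * X) ∈ G'
        have h2 : lr S (e * Si) (X * Y - Y * X) = lr S (e * Si) X * lr S (e * Si) Y -
            lr S (e * Si) Y * lr S (e * Si) X := by
          rw [hmul X hX.1 Y hY.1, hmul Y hY.1 X hX.1, hlr]
          noncomm_ring
        rw [h2]
        exact h1
    rintro _ ⟨X, hX, rfl⟩
    exact (hL hX).2
  -- the two cases
  obtain ⟨e0, p, q, t, k⟩ := exists_trp H (by norm_num) (by norm_num)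
  rcases k.rank_cases H hNR with h1 | ⟨rfl, rfl⟩
  · obtain ⟨f, g', ψ, φ, c, x1, sk⟩ := k.skw H hNR h1
    exact sk.false H hT0 hNB
  · exact no_line H k hT0 hGI

/-- Invariant forms are unique up to a factor. -/
theorem bil_unique (hU : IrS (LZ Z) U) {b b' : (Fin g ⊕ Fin g → ℂ) →ₗ[ℂ] (Fin g ⊕ Fin g → ℂ) →ₗ[ℂ] ℂ}
    (h0 : ∃ u ∈ U, ∃ v ∈ U, b u v ≠ 0)
    (hb : ∀ X ∈ LZ Z, ∀ u ∈ U, ∀ v ∈ U, b (X *ᵥ u) v + b u (X *ᵥ v) = 0)
    (hb' : ∀ X ∈ LZ Z, ∀ u ∈ U, ∀ v ∈ U, b' (X *ᵥ u) v + b' u (X *ᵥ v) = 0) :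
    ∃ c : ℂ, ∀ u ∈ U, ∀ v ∈ U, b' u v = c * b u v := by
  let A : U →ₗ[ℂ] Module.Dual ℂ U := b.domRestrict₁₂ U U
  let A' : U →ₗ[ℂ] Module.Dual ℂ U := b'.domRestrict₁₂ U U
  have hA : Function.Injective A := by
    rw [injective_iff_map_eq_zero]
    intro u hu
    refine Subtype.ext (nd_left hU hU.2.1 h0 hb u u.2 fun v hv => ?_)
    exact LinearMap.congr_fun hu ⟨v, hv⟩
  let Ae := LinearMap.linearEquivOfInjective A hA Subspace.dual_finrank_eq.symm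
  obtain ⟨u0, hu0, hu00⟩ := Submodule.exists_mem_ne_zero_of_ne_bot hU.1
  have hnt : Nontrivial U := ⟨⟨⟨u0, hu0⟩, 0, fun h => hu00 (congrArg Subtype.val h)⟩⟩
  obtain ⟨c, hc⟩ := Module.End.exists_eigenvalue (Ae.symm.toLinearMap.comp A')
  obtain ⟨w, hw⟩ := hc.exists_hasEigenvector
  have h3 : Ae.symm (A' w) = c • w := hw.apply_eq_smul
  have h4 : A' w = c • Ae w := by rw [← map_smul, ← h3, LinearEquiv.apply_symm_apply]
  have h5 : ∀ v ∈ U, (b' - c • b) w v = 0 := by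
    intro v hv
    have h6 := LinearMap.congr_fun h4 ⟨v, hv⟩
    have h7 : b' w v = c * b w v := h6
    rw [LinearMap.sub_apply, LinearMap.sub_apply, LinearMap.smul_apply, LinearMap.smul_apply,
      smul_eq_mul, h7, sub_self]
  refine ⟨c, ?_⟩
  by_contra hcon
  push Not at hcon
  obtain ⟨u1, hu1, v1, hv1, h8⟩ := hcon
  refine hw.2 (Subtype.ext (nd_left (b := b' - c • b) hU hU.2.1 ⟨u1, hu1, v1, hv1, ?_⟩ ?_ w w.2 h5))
  · rw [LinearMap.sub_apply, LinearMap.sub_apply, LinearMap.smul_apply, LinearMap.smul_apply,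
      smul_eq_mul]
    exact sub_ne_zero.2 h8
  · intro X hX u hu v hv
    simp only [LinearMap.sub_apply, LinearMap.smul_apply, smul_eq_mul]
    linear_combination hb' X hX u hu v hv - c * hb X hX u hu v hv

/-- Traces vanish on self-dual submodules. -/
theorem trace_sdu (hU : IrS (LZ Z) U) {b : (Fin g ⊕ Fin g → ℂ) →ₗ[ℂ] (Fin g ⊕ Fin g → ℂ) →ₗ[ℂ] ℂ}
    (h0 : ∃ u ∈ U, ∃ v ∈ U, b u v ≠ 0)
    (hb : ∀ X ∈ LZ Z, ∀ u ∈ U, ∀ v ∈ U, b (X *ᵥ u) v + b u (X *ᵥ v) = 0)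
    {X : Matrix (Fin g ⊕ Fin g) (Fin g ⊕ Fin g) ℂ} (hX : X ∈ LZ Z) :
    LinearMap.trace ℂ U ((mulVecLin X).restrict fun u hu => hU.2.1 X hX u hu) = 0 := by
  let A : U →ₗ[ℂ] Module.Dual ℂ U := b.domRestrict₁₂ U U
  have hA : Function.Injective A := by
    rw [injective_iff_map_eq_zero]
    intro u hu
    refine Subtype.ext (nd_left hU hU.2.1 h0 hb u u.2 fun v hv => ?_)
    exact LinearMap.congr_fun hu ⟨v, hv⟩
  let Ae := LinearMap.linearEquivOfInjective A hA Subspace.dual_finrank_eq.symm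
  obtain ⟨T, hT⟩ : ∃ T : U →ₗ[ℂ] U, T = (mulVecLin X).restrict fun u hu => hU.2.1 X hX u hu :=
    ⟨_, rfl⟩
  rw [← hT]
  have h1 : Ae.conj T = -(Module.Dual.transpose T) := by
    refine LinearMap.ext fun l => ?_
    obtain ⟨u, rfl⟩ := Ae.surjective l
    refine LinearMap.ext fun v => ?_
    rw [LinearEquiv.conj_apply_apply, LinearEquiv.symm_apply_apply]
    have h2 := hb X hX u u.2 v v.2
    have h3 : b (X *ᵥ u) v = -b u (X *ᵥ v) := eq_neg_of_add_eq_zero_left h2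
    have h4 : (Ae (T u)) v = b (X *ᵥ u) v := by rw [hT]; rfl
    have h5 : (-(Module.Dual.transpose T) (Ae u)) v = -b u (X *ᵥ v) := by
      rw [LinearMap.neg_apply, hT]
      rfl
    rw [LinearMap.neg_apply, h4, h5, h3]
  have h2 := LinearMap.trace_conj' T Ae
  rw [h1, map_neg, LinearMap.trace_transpose'] at h2
  have h3 : (2 : ℂ) * LinearMap.trace ℂ U T = 0 := by linear_combination -h2
  exact (mul_eq_zero.1 h3).resolve_left two_ne_zero

end

end Pool.Agent.R915
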