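import Mathlib
import Pool.Agent.R915.D5

/-!
# Symplectic irreducible submodules of dimension six
-/

set_option linter.unusedSectionVars false

namespace Pool.Agent.R915

open Matrix Module Pool.Agent.W437.HC Pool.Agent.W437.HD Pool.Agent.TH504.CB Pool.Agent.Y90
open Pool.Agent.W548.Odd hiding cv
open Pool.Agent.Y4.G (Lie lr lr_apply trace_idemM)
open Pool.Agent.Y4.G.Lie (pos mem_pos)
open Pool.Agent.H204R3.CM (IsHodge)
open Pool.Agent.W437.HP (cK cK_mul cK_one)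

noncomputable section

variable {g : ℕ} {Z : Matrix (Fin g) (Fin g) ℂ} {U : Submodule ℂ (Fin g ⊕ Fin g → ℂ)}

/-- Elements of rank one in the case of symplectic submodules of dimension six. -/
theorem rk1_sp6 (h : PM Z) (hU : IrS (LZ Z) U)
    (hd : finrank ℂ U = 6) (b : (Fin g ⊕ Fin g → ℂ) →ₗ[ℂ] (Fin g ⊕ Fin g → ℂ) →ₗ[ℂ] ℂ)
    (h0 : ∃ u ∈ U, ∃ v ∈ U, b u v ≠ 0)
    (hb : ∀ X ∈ LZ Z, ∀ u ∈ U, ∀ v ∈ U, b (X *ᵥ u) v + b u (X *ᵥ v) = 0)
    (halt : ∀ u ∈ U, ∀ v ∈ U, b u v = -b v u) : Rk1 Z U := by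
  have htr := tr_dual h hU hU h0 hb
  have hpq := pd_add_qd h hU.2.1
  unfold tr at htr
  have hp : pd Z U = 3 := by omega
  have hq : qd Z U = 3 := by omega
  obtain ⟨π, hπ1, hπ2, hπ3⟩ := h.cred U hU.2.1
  obtain ⟨Q, hQ⟩ : ∃ Q : Matrix (Fin g ⊕ Fin g) (Fin g ⊕ Fin g) ℂ, ∀ v, Q *ᵥ v = π v :=
    ⟨LinearMap.toMatrix' π, fun v => by
      rw [← Matrix.toLin'_apply, Matrix.toLin'_toMatrix']⟩
  refine rk1_33 h hU hp hq Q (fun v => by rw [hQ]; exact hπ2 v)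
    (fun v hv => by rw [hQ, hπ3 v hv]) (fun X hX => ?_) (fun b' hs hb' u hu v hv => ?_)
  · have hf : ∀ v, mulVecLin (X * Q) v ∈ U := by
      intro v
      rw [mulVecLin_apply, ← mulVec_mulVec, hQ]
      exact hU.2.1 X hX _ (hπ2 v)
    have h1 := LinearMap.trace_restrict_eq_of_forall_mem U (mulVecLin (X * Q)) hf
    have h2 : (mulVecLin (X * Q)).restrict (fun x _ => hf x) =
        (mulVecLin X).restrict fun u hu => hU.2.1 X hX u hu := by
      refine LinearMap.ext fun u => Subtype.ext ?_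
      change (X * Q) *ᵥ (u : Fin g ⊕ Fin g → ℂ) = X *ᵥ (u : Fin g ⊕ Fin g → ℂ)
      rw [← mulVec_mulVec, hQ, hπ3 _ u.2]
    rw [h2, trace_sdu hU h0 hb hX] at h1
    rw [← Matrix.trace_toLin'_eq]
    exact h1.symm
  · obtain ⟨c, hc⟩ := bil_unique hU h0 hb hb'
    have h1 := hc u hu v hv
    have h2 := hc v hv u hu
    have h3 := hs u v
    have h4 := halt u hu v hv
    linear_combination (1 / 2 : ℂ) * (h1 + h3 + h2) + (c / 2) * h4

end

end Pool.Agent.R915
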