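import Mathlib
import Pool.Agent.R915.D2

/-!
# The relation between the dimensions for triple systems
-/

set_option linter.unusedSectionVars false

namespace Pool.Agent.R915

open Matrix Module
open Pool.Agent.Y4.G (Lie Tri Mini exists_mini trace_idemM trace_idemOp finrank_eq_one_of
  finrank_le_of_maps)
open Pool.Agent.Y4.G.Lie (pos mem_pos)

open scoped ComplexOrder

variable {B : Type*} [Fintype B] [DecidableEq B]

variable {G : Submodule ℂ (Matrix B B ℂ)} {P Q : Matrix B B ℂ} {a b : ℕ}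

/-- The relation between the dimensions. -/
theorem Trp.rel {e p q : Matrix B B ℂ} {t : ℂ} (k : Trp G P Q e p q t) (H : Lie G P Q a b) :
    ∃ m c : ℕ, trace p = m ∧ c + 2 * m ≤ a + b ∧
      a * b * (2 + c) = finrank ℂ (pos G P Q) * (b * m + a * m) := by
  have ht0 := k.t0
  have hone := k.one
  have hpe := k.pe
  have heq := k.eq
  have hpp := k.pp
  have hqq := k.qq
  have hpH := k.pH
  have hqH := k.qH
  have heH := k.eh
  have hHe := k.he
  have hPe : P * e = e := k.mem.2.1
  have heQ : e * Q = e := k.mem.2.2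
  have hPp := k.Pp
  have hqQ := k.qQ
  have hpP := k.pP
  have hQ1q := k.Q1q
  have hTmem := k.tmem
  have h2mem := k.mem2
  obtain ⟨T, hT⟩ : ∃ T : pos G P Q →ₗ[ℂ] pos G P Q, ∀ x : pos G P Q, ((T x : pos G P Q) : Matrix B B ℂ) = p * x + x * q :=
    ⟨{ toFun := fun x => ⟨p * x + x * q, hTmem x x.2⟩
       map_add' := fun x y => Subtype.ext (by
        change p * ((x : Matrix B B ℂ) + y) + (x + y) * q = (p * x + x * q) + (p * y + y * q)
        noncomm_ring)
       map_smul' := fun c x => Subtype.ext (by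
        change p * (c • (x : Matrix B B ℂ)) + (c • (x : Matrix B B ℂ)) * q = c • (p * x + x * q)
        rw [Matrix.mul_smul, Matrix.smul_mul, smul_add]) }, fun _ => rfl⟩
  obtain ⟨π2, hπ2⟩ : ∃ T : pos G P Q →ₗ[ℂ] pos G P Q, ∀ x : pos G P Q, ((T x : pos G P Q) : Matrix B B ℂ) = p * x * q :=
    ⟨{ toFun := fun x => ⟨p * x * q, h2mem x x.2⟩
       map_add' := fun x y => Subtype.ext (by
        change p * ((x : Matrix B B ℂ) + y) * q = p * x * q + p * y * q
        noncomm_ring)
       map_smul' := fun c x => Subtype.ext (by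
        change p * (c • (x : Matrix B B ℂ)) * q = c • (p * x * q)
        rw [Matrix.mul_smul, Matrix.smul_mul]) }, fun _ => rfl⟩
  obtain ⟨π1, hπ1e⟩ : ∃ π1, π1 = T - (2 : ℂ) • π2 := ⟨_, rfl⟩
  have hπ1 : ∀ x : pos G P Q, ((π1 x : pos G P Q) : Matrix B B ℂ) = p * x + x * q - (2 : ℂ) • (p * x * q) := by
    intro x
    rw [hπ1e, ← hT, ← hπ2]
    rfl
  have hTeq : T = (2 : ℂ) • π2 + π1 := by
    rw [hπ1e]
    abel
  have hid2 : ∀ x, π2 (π2 x) = π2 x := by
    intro x
    apply Subtype.ext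
    rw [hπ2, hπ2]
    calc p * (p * x * q) * q = (p * p) * x * (q * q) := by noncomm_ring
    _ = _ := by rw [hpp, hqq]
  have hx1 : ∀ x : pos G P Q, p * ((π1 x : pos G P Q) : Matrix B B ℂ) * q = 0 := by
    intro x
    rw [hπ1]
    have h3 : p * (p * x + x * q - (2 : ℂ) • (p * x * q)) * q =
        (p * p) * x * q + p * x * (q * q) - (2 : ℂ) • ((p * p) * x * (q * q)) := by
      rw [mul_sub, sub_mul, Matrix.mul_smul, Matrix.smul_mul]
      noncomm_ring
    rw [h3, hpp, hqq, two_smul]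
    abel
  have hid1 : ∀ x, π1 (π1 x) = π1 x := by
    intro x
    apply Subtype.ext
    rw [hπ1 (π1 x), hx1, smul_zero, sub_zero, hπ1]
    have h3 : p * (p * x + x * q - (2 : ℂ) • (p * x * q)) +
        (p * x + x * q - (2 : ℂ) • (p * x * q)) * q =
        (p * p) * x + p * x * q - (2 : ℂ) • ((p * p) * x * q) +
        (p * x * q + x * (q * q) - (2 : ℂ) • (p * x * (q * q))) := by
      rw [mul_sub, sub_mul, Matrix.mul_smul, Matrix.smul_mul]
      noncomm_ring
    rw [h3, hpp, hqq, two_smul]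
    abel
  have hW1 : ∀ x : pos G P Q, x ∈ LinearMap.range π1 → p * (x : Matrix B B ℂ) * q = 0 ∧
      p * (x : Matrix B B ℂ) + x * q = x := by
    rintro _ ⟨x, rfl⟩
    refine ⟨hx1 x, ?_⟩
    have h3 := congrArg Subtype.val (hid1 x)
    rw [hπ1 (π1 x), hx1, smul_zero, sub_zero] at h3
    exact h3
  -- the dimensions
  have htr2 : finrank ℂ (LinearMap.range π2) = 1 := by
    refine finrank_eq_one_of _ (e := (⟨e, k.mem⟩ : pos G P Q)) ⟨⟨e, k.mem⟩, Subtype.ext (by
      rw [hπ2]
      change p * e * q = e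
      rw [hpe, heq])⟩ (fun h0 => k.ne (congrArg Subtype.val h0)) ?_
    rintro _ ⟨y, rfl⟩
    obtain ⟨c, hc⟩ := hone _ (π2 y).2 (by
      have h3 := congrArg Subtype.val (hid2 y)
      rw [hπ2 (π2 y)] at h3
      exact h3)
    exact ⟨c, Subtype.ext hc⟩
  obtain ⟨c', hk⟩ : ∃ c', c' = finrank ℂ (LinearMap.range π1) := ⟨_, rfl⟩
  obtain ⟨m, hm⟩ : ∃ m, m = finrank ℂ (LinearMap.range (mulVecLin p)) := ⟨_, rfl⟩
  have htrT : LinearMap.trace ℂ (pos G P Q) T = 2 + c' := by
    rw [hTeq, map_add, map_smul, trace_idemOp hid2, trace_idemOp hid1, htr2, ← hk, smul_eq_mul]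
    push_cast
    ring
  have htrp : trace p = m := by rw [trace_idemM hpp, hm]
  have htrq : trace q = m := by rw [k.trpq, htrp]
  have hm1 : 1 ≤ m := by
    rw [Nat.one_le_iff_ne_zero]
    rintro rfl
    have h1 := hm.symm
    rw [Submodule.finrank_eq_zero, LinearMap.range_eq_bot] at h1
    have h2 : p = 0 := by
      apply Matrix.toLin'.injective
      rw [map_zero]
      exact h1
    apply k.ne
    rw [← hpe, h2, zero_mul]
  -- the bound
  have hbound : c' + 2 * m ≤ a + b := by
    obtain ⟨u, hu⟩ : ∃ u, e *ᵥ u ≠ 0 := by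
      by_contra hcon
      push Not at hcon
      apply k.ne
      ext i j
      have := congrFun (hcon (Pi.single j 1)) i
      rwa [mulVec_single_one] at this
    obtain ⟨v, hv⟩ : ∃ v, v = q *ᵥ u := ⟨_, rfl⟩
    have hqv : q *ᵥ v = v := by rw [hv, mulVec_mulVec, hqq]
    have hev : e *ᵥ v ≠ 0 := by rw [hv, mulVec_mulVec, heq]; exact hu
    obtain ⟨w, hw⟩ : ∃ w, w = star (e *ᵥ v) := ⟨_, rfl⟩
    have hwp : w ᵥ* p = w := by
      have h1 : p *ᵥ (e *ᵥ v) = e *ᵥ v := by rw [mulVec_mulVec, hpe]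
      have h2 := congrArg star h1
      rw [star_mulVec, hpH, ← hw] at h2
      exact h2
    have hPp2 : (P - p) * (P - p) = P - p := by
      rw [sub_mul, mul_sub, mul_sub, H.PP, hpp, hPp, hpP]
      abel
    have hQ1q2 : (Q - q)ᵀ * (Q - q)ᵀ = (Q - q)ᵀ := by
      rw [← transpose_mul, sub_mul, mul_sub, mul_sub, H.QQ, hqq, hQ1q, hqQ]
      congr 1
      abel
    obtain ⟨a', ha'⟩ : ∃ a', a' = finrank ℂ (LinearMap.range (mulVecLin (P - p))) := ⟨_, rfl⟩
    obtain ⟨b', hb'⟩ : ∃ b', b' = finrank ℂ (LinearMap.range (mulVecLin (Q - q)ᵀ)) := ⟨_, rfl⟩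
    have ha2 : a' + m = a := by
      have h1 := trace_idemM hPp2
      rw [← ha', trace_sub, H.trP, htrp, sub_eq_iff_eq_add] at h1
      exact_mod_cast h1.symm
    have hb2 : b' + m = b := by
      have h1 := trace_idemM hQ1q2
      rw [← hb', trace_transpose, trace_sub, H.trQ, htrq, sub_eq_iff_eq_add] at h1
      exact_mod_cast h1.symm
    let f : pos G P Q →ₗ[ℂ] (B → ℂ) :=
      { toFun := fun x => (x : Matrix B B ℂ) *ᵥ v
        map_add' := fun x y => by
          change ((x : Matrix B B ℂ) + (y : Matrix B B ℂ)) *ᵥ v = _ *ᵥ v + _ *ᵥ v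
          rw [add_mulVec]
        map_smul' := fun c x => by
          change (c • (x : Matrix B B ℂ)) *ᵥ v = c • (_ *ᵥ v)
          rw [smul_mulVec] }
    let g : pos G P Q →ₗ[ℂ] (B → ℂ) :=
      { toFun := fun x => w ᵥ* (x : Matrix B B ℂ)
        map_add' := fun x y => by
          change w ᵥ* ((x : Matrix B B ℂ) + (y : Matrix B B ℂ)) = w ᵥ* _ + w ᵥ* _
          rw [vecMul_add]
        map_smul' := fun c x => by
          change w ᵥ* (c • (x : Matrix B B ℂ)) = c • (w ᵥ* _)
          rw [vecMul_smul] }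
    have h1 := finrank_le_of_maps (LinearMap.range π1) f g
      (LinearMap.range (mulVecLin (P - p))) (LinearMap.range (mulVecLin (Q - q)ᵀ)) ?_ ?_ ?_
    · rw [← hk, ← ha', ← hb'] at h1
      omega
    · intro x hx
      obtain ⟨h1, h2⟩ := hW1 x hx
      obtain ⟨h3, h4⟩ := x.2.2
      refine ⟨(x : Matrix B B ℂ) *ᵥ v, ?_⟩
      rw [mulVecLin_apply, sub_mulVec, mulVec_mulVec, h3]
      have h5 : p *ᵥ ((x : Matrix B B ℂ) *ᵥ v) = 0 := by
        rw [← hqv, mulVec_mulVec, mulVec_mulVec, h1, zero_mulVec]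
      rw [h5, sub_zero]
      rfl
    · intro x hx
      obtain ⟨h1, h2⟩ := hW1 x hx
      obtain ⟨h3, h4⟩ := x.2.2
      refine ⟨w ᵥ* (x : Matrix B B ℂ), ?_⟩
      rw [mulVecLin_apply, mulVec_transpose, vecMul_sub, vecMul_vecMul, h4]
      have h5 : (w ᵥ* (x : Matrix B B ℂ)) ᵥ* q = 0 := by
        rw [← hwp, vecMul_vecMul, vecMul_vecMul, ← mul_assoc, h1, vecMul_zero]
      rw [h5, sub_zero]
      rfl
    · intro x hx hf hg
      obtain ⟨h1, h2⟩ := hW1 x hx
      obtain ⟨X, hX⟩ : ∃ X, X = (x : Matrix B B ℂ) := ⟨_, rfl⟩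
      have hXW : X ∈ pos G P Q := by rw [hX]; exact x.2
      have hxv : X *ᵥ v = 0 := by
        rw [hX]
        exact hf
      have hxw : w ᵥ* X = 0 := by
        rw [hX]
        exact hg
      rw [← hX] at h1 h2
      have hxw2 : Xᴴ *ᵥ (e *ᵥ v) = 0 := by
        have h3 := congrArg star hxw
        rw [hw, star_vecMul, star_star, star_zero] at h3
        exact h3
      obtain ⟨y, hy⟩ : ∃ y, y = X * Xᴴ * e + e * Xᴴ * X := ⟨_, rfl⟩
      have hyW : y ∈ pos G P Q := by rw [hy]; exact H.tri.tri X hXW X hXW e k.mem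
      have h5 : q * Xᴴ * e = 0 := by
        have h6 : q * Xᴴ * p = 0 := by
          have h7 := congrArg conjTranspose h1
          rw [conjTranspose_mul, conjTranspose_mul, hpH, hqH, conjTranspose_zero] at h7
          rw [mul_assoc]
          exact h7
        rw [← hpe, ← mul_assoc, h6, zero_mul]
      have h6 : e * Xᴴ * p = 0 := by
        have h6 : q * Xᴴ * p = 0 := by
          have h7 := congrArg conjTranspose h1
          rw [conjTranspose_mul, conjTranspose_mul, hpH, hqH, conjTranspose_zero] at h7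
          rw [mul_assoc]
          exact h7
        rw [← heq, mul_assoc e, mul_assoc e, h6, mul_zero]
      have h7 : X * Xᴴ * e = p * (X * Xᴴ * e) := by
        nth_rewrite 1 [← h2]
        have h8 : (p * X + X * q) * Xᴴ * e = p * (X * Xᴴ * e) + X * (q * Xᴴ * e) := by
          noncomm_ring
        rw [h8, h5, mul_zero, add_zero]
      have h8 : e * Xᴴ * X = e * Xᴴ * X * q := by
        have h9 : e * Xᴴ * (p * X + X * q) = (e * Xᴴ * p) * X + e * Xᴴ * X * q := by
          noncomm_ring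
        rw [h2, h6, zero_mul, zero_add] at h9
        exact h9
      have hpyq : p * y * q = y := by
        rw [hy]
        have h9 : p * (X * Xᴴ * e + e * Xᴴ * X) * q =
            p * (X * Xᴴ * e) * q + (p * e) * Xᴴ * X * q := by noncomm_ring
        rw [h9, ← h7, hpe, ← h8, mul_assoc _ e q, heq]
      obtain ⟨c, hc⟩ := hone y hyW hpyq
      have hyv : y *ᵥ v = 0 := by
        rw [hy, add_mulVec, ← mulVec_mulVec, ← mulVec_mulVec, hxw2, mulVec_zero, ← mulVec_mulVec,
          hxv, mulVec_zero, add_zero]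
      have hc0 : c = 0 := by
        rw [hc, smul_mulVec] at hyv
        exact (smul_eq_zero.1 hyv).resolve_right hev
      have hy0 : y = 0 := by rw [hc, hc0, zero_smul]
      have htr : trace (y * eᴴ) = t * trace (X * Xᴴ) := by
        rw [hy, add_mul, trace_add]
        have e1 : trace (X * Xᴴ * e * eᴴ) = t * trace (p * (X * Xᴴ)) := by
          rw [mul_assoc, heH, Matrix.mul_smul, trace_smul, smul_eq_mul, trace_mul_comm]
        have e2 : trace (e * Xᴴ * X * eᴴ) = t * trace (X * q * Xᴴ) := by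
          rw [trace_mul_comm, mul_assoc e, ← mul_assoc, hHe, Matrix.smul_mul, trace_smul,
            smul_eq_mul, mul_assoc X, trace_mul_comm X, mul_assoc q]
        rw [e1, e2, ← mul_add, ← trace_add]
        congr 2
        have h9 : (p * X + X * q) * Xᴴ = p * (X * Xᴴ) + X * q * Xᴴ := by noncomm_ring
        rw [h2] at h9
        exact h9.symm
      rw [hy0, zero_mul, trace_zero] at htr
      have h9 := (mul_eq_zero.1 htr.symm).resolve_left ht0
      rw [trace_mul_conjTranspose_self_eq_zero_iff] at h9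
      apply Subtype.ext
      rw [← hX, h9]
      rfl
  have hcas := H.tri.cas p q T hPp hqQ hT
  rw [htrT, htrp, htrq] at hcas
  have hnat : a * b * (2 + c') = finrank ℂ (pos G P Q) * (b * m + a * m) := by exact_mod_cast hcas
  exact ⟨m, c', htrp, hbound, hnat⟩

end Pool.Agent.R915
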