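import Mathlib
import Pool.Agent.R915.D7
import Pool.Agent.R915.D6

/-!
# Elements of rank one for abelian fivefolds without additional endomorphisms
-/

set_option linter.unusedSectionVars false

namespace Pool.Agent.R915

open Matrix Module Pool.Agent.W437.HC Pool.Agent.W437.HD Pool.Agent.TH504.CB Pool.Agent.Y90
  Pool.Agent.W437.HP Pool.Agent.W437.HQ
open Pool.Agent.W548.Odd hiding cv
open Pool.Agent.Y4.G (Lie lr lr_apply trace_idemM)
open Pool.Agent.Y4.G.Lie (pos mem_pos)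

noncomputable section

variable {g : ℕ} {Z : Matrix (Fin g) (Fin g) ℂ}

theorem rk1_of_rank_one (h : PM Z) {e : Matrix (Fin g ⊕ Fin g) (Fin g ⊕ Fin g) ℂ}
    (he : e ∈ LZ Z) (he1 : e.rank = 1) :
    Rk1 Z (⊤ : Submodule ℂ (Fin g ⊕ Fin g → ℂ)) := by
  by_cases hp : (1 / 4 : ℂ) • ((1 + DZ Z) * e * (1 - DZ Z)) = 0
  · by_cases hq : (1 / 4 : ℂ) • ((1 - DZ Z) * e * (1 + DZ Z)) = 0
    · exfalso
      have h5 := (smul_eq_zero.1 hp).resolve_left (by norm_num)
      have h6 := (smul_eq_zero.1 hq).resolve_left (by norm_num)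
      have h7 : DZ Z * e = e * DZ Z := by
        have h8 : (2 : ℂ) • (DZ Z * e - e * DZ Z) = (1 + DZ Z) * e * (1 - DZ Z) -
            (1 - DZ Z) * e * (1 + DZ Z) := by
          rw [two_smul]
          noncomm_ring
        rw [h5, h6, sub_zero] at h8
        exact sub_eq_zero.1 ((smul_eq_zero.1 h8).resolve_left two_ne_zero)
      have h9 := h.setup.even_of_commute (ε := 1) (D := ph _ (DZ Z)) (N := ph _ e)
        ⟨fun y _ => by rw [one_mul, mul_one], by rw [one_mul], by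
          have e1 : (1 : End ℂ (Fin g ⊕ Fin g → ℂ)) = ph _ 1 := (map_one _).symm
          rw [e1, stE_ph, transpose_one, mul_one, Om_sq, neg_neg]⟩ (mem_GG.2 DZ_mem) (by
          rw [← map_mul, DZ_sq h.det, map_one]) (mem_GG.2 he) (by
          rw [← map_mul, ← map_mul, h7])
      rw [one_mul, rk_ph, he1] at h9
      exact absurd h9 (by decide)
    · refine ⟨-DZ Z, Or.inr rfl, _, dn_mem h he, ?_, ?_, ?_⟩
      · rw [neg_mul, dn_l h, neg_neg]
      · rw [mul_neg, dn_r h]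
      · rw [map_top_rank]
        apply le_antisymm
        · rw [← he1, ← rk_ph, map_smul, rk_smul (by norm_num : (1 / 4 : ℂ) ≠ 0), rk_ph]
          exact (Matrix.rank_mul_le_left _ _).trans (Matrix.rank_mul_le_right _ _)
        · rw [Nat.one_le_iff_ne_zero]
          exact fun h0 => hq (rank_zero_iff h0)
  · refine ⟨DZ Z, Or.inl rfl, _, up_mem h he, up_l h e, up_r h e, ?_⟩
    rw [map_top_rank]
    apply le_antisymm
    · rw [← he1, ← rk_ph, map_smul, rk_smul (by norm_num : (1 / 4 : ℂ) ≠ 0), rk_ph]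
      exact (Matrix.rank_mul_le_left _ _).trans (Matrix.rank_mul_le_right _ _)
    · rw [Nat.one_le_iff_ne_zero]
      exact fun h0 => hp (rank_zero_iff h0)

/-- The elements of the corner. -/
theorem lie_key {U : Submodule ℂ (Fin g ⊕ Fin g → ℂ)} (hU : Stab (LZ Z) U)
    {S Si e : Matrix (Fin g ⊕ Fin g) (Fin g ⊕ Fin g) ℂ} (hSiS : Si * S = 1)
    (he1 : ∀ v, e *ᵥ v ∈ U) (he2 : ∀ v ∈ U, e *ᵥ v = v)
    {X : Matrix (Fin g ⊕ Fin g) (Fin g ⊕ Fin g) ℂ} (hX : X ∈ LZ Z)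
    (hx1 : S * pP (DZ Z) e 1 * Si * lr S (e * Si) X = lr S (e * Si) X)
    (hx2 : lr S (e * Si) X * (S * pP (DZ Z) e (-1) * Si) = lr S (e * Si) X) (v : Fin g ⊕ Fin g → ℂ)
    (hv : v ∈ U) : lr S (e * Si) X *ᵥ (S *ᵥ v) =
      S *ᵥ (((1 / 4 : ℂ) • ((1 + DZ Z) * X * (1 - DZ Z))) *ᵥ v) := by
  have hSv : ∀ v, Si *ᵥ (S *ᵥ v) = v := fun v => by rw [mulVec_mulVec, hSiS, one_mulVec]
  have hap : ∀ (c : ℂ) v, pP (DZ Z) e c *ᵥ v = (2 : ℂ)⁻¹ • (e *ᵥ v + c • (DZ Z *ᵥ (e *ᵥ v))) := by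
    intro c v
    unfold pP
    rw [smul_mulVec, ← mulVec_mulVec, add_mulVec, one_mulVec, smul_mulVec]
  have hapU : ∀ c v, pP (DZ Z) e c *ᵥ v ∈ U := by
    intro c v
    rw [hap]
    exact Submodule.smul_mem _ _ (Submodule.add_mem _ (he1 v)
      (Submodule.smul_mem _ _ (hU _ DZ_mem _ (he1 v))))
  have hlr : ∀ X, lr S (e * Si) X = S * (X * e) * Si := by
    intro X
    rw [lr_apply]
    noncomm_ring
  have h1 : lr S (e * Si) X = (S * pP (DZ Z) e 1 * Si) * lr S (e * Si) X *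
      (S * pP (DZ Z) e (-1) * Si) := by rw [hx1, hx2]
  have h2 : pP (DZ Z) e (-1) *ᵥ v = (2 : ℂ)⁻¹ • (v - DZ Z *ᵥ v) := by
    rw [hap, he2 v hv, neg_one_smul, ← sub_eq_add_neg]
  have h3 : v - DZ Z *ᵥ v ∈ U := Submodule.sub_mem _ hv (hU _ DZ_mem v hv)
  have h4 : X *ᵥ (v - DZ Z *ᵥ v) ∈ U := hU _ hX _ h3
  have hcS : ∀ c w, (S * pP (DZ Z) e c * Si) *ᵥ (S *ᵥ w) = S *ᵥ (pP (DZ Z) e c *ᵥ w) := by
    intro c w
    rw [← mulVec_mulVec, ← mulVec_mulVec, hSv]
  have hcL : ∀ w ∈ U, (lr S (e * Si) X) *ᵥ (S *ᵥ w) = S *ᵥ (X *ᵥ w) := by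
    intro w hw
    rw [hlr, ← mulVec_mulVec, ← mulVec_mulVec, ← mulVec_mulVec, hSv, he2 w hw]
  rw [h1, ← mulVec_mulVec, ← mulVec_mulVec, hcS, hcL _ (hapU _ _), hcS, h2, mulVec_smul,
    mulVec_smul, hap, he2 _ h4, smul_mulVec, ← mulVec_mulVec, ← mulVec_mulVec,
    sub_mulVec, one_mulVec, add_mulVec, one_mulVec, one_smul, smul_smul]
  norm_num

/-- Elements of rank one for abelian fivefolds without additional endomorphisms. -/
theorem rk1_five (h : PM Z) (hs : IsSimpleAV Z) (hg : g = 5)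
    (hU : IrS (LZ Z) (⊤ : Submodule ℂ (Fin g ⊕ Fin g → ℂ))) :
    Rk1 Z (⊤ : Submodule ℂ (Fin g ⊕ Fin g → ℂ)) := by
  by_contra hR
  have hone : ∀ e ∈ LZ Z, e.rank ≠ 1 := fun e he he1 => hR (rk1_of_rank_one h he he1)
  have hrk : ∀ N ∈ LZ Z, DZ Z * N = N → N * DZ Z = -N → N ≠ 0 → N.rank = 4 := by
    intro N hN h1 h2 hN0
    have h4 := two_rank_le h (U := ⊤) stab_top hN h1 h2
    rw [map_top_rank, finrank_top, finrank_V] at h4
    have h5 : N.rank ≠ 0 := fun h0 => hN0 (rank_zero_iff h0)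
    have h6 := hone N hN
    have h7 : N.rank ≠ 2 := fun h7 => no_rank_two h hU hone hN h1 h2 h7
    have hNN : N * N = 0 := by
      have h3 : N * N = -(N * N) := by
        calc N * N = N * (DZ Z * N) := by rw [h1]
          _ = -(N * N) := by rw [← mul_assoc, h2, neg_mul]
      have h4 : (2 : ℂ) • (N * N) = 0 := by
        rw [two_smul]
        nth_rewrite 1 [h3]
        rw [neg_add_cancel]
      exact (smul_eq_zero.1 h4).resolve_left two_ne_zero
    have hodd : ¬Odd N.rank := by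
      intro hodd
      obtain ⟨e, he, he1⟩ := exists_rank_one (ε := 1) (N := N) h.isPer (Set.mem_singleton Z) hs
        (fun X _ => by rw [one_mul, mul_one]) (by rw [one_mul])
        (by rw [transpose_one, one_mul, mul_one]) (fun c _ => by rw [one_mul, mul_one])
        (by rw [← img_eq]; exact hN) hNN (by rwa [one_mul])
      rw [← img_eq] at he
      exact hone e he he1
    rw [Nat.not_odd_iff_even] at hodd
    obtain ⟨r, hr⟩ := hodd
    omega
  obtain ⟨S, Si, e, hSSi, hSiS, he1, he2, hce, H⟩ := lie_irr h hU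
  have hpd : pd Z (⊤ : Submodule ℂ (Fin g ⊕ Fin g → ℂ)) = 5 := by
    unfold pd
    rw [top_inf_eq, (finrank_eig h).1, hg]
  have hqd : qd Z (⊤ : Submodule ℂ (Fin g ⊕ Fin g → ℂ)) = 5 := by
    unfold qd
    rw [top_inf_eq, (finrank_eig h).2, hg]
  rw [hpd, hqd] at H
  obtain ⟨e0, p, q, t, k⟩ := exists_trp H (by norm_num) (by norm_num)
  obtain ⟨m, c, hm, hc, hrel⟩ := k.rel H
  -- the rank
  obtain ⟨⟨X, hX, hXe⟩, hx1, hx2⟩ := k.mem
  rw [← hXe] at hx1 hx2
  have hkey := lie_key hU.2.1 hSiS he1 he2 hX hx1 hx2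
  obtain ⟨N, hN⟩ : ∃ N, N = (1 / 4 : ℂ) • ((1 + DZ Z) * X * (1 - DZ Z)) := ⟨_, rfl⟩
  rw [← hN] at hkey
  have heN : e0 = S * N * Si := by
    apply eq_of_mulVec
    intro v
    have h1 := hkey (Si *ᵥ v) trivial
    rw [hXe] at h1
    rw [← mulVec_mulVec, ← mulVec_mulVec, ← h1, mulVec_mulVec v S, hSSi, one_mulVec]
  have hN0 : N ≠ 0 := by
    rintro rfl
    apply k.ne
    rw [heN, mul_zero, zero_mul]
  have hNr : N.rank = 4 := by
    refine hrk N (by rw [hN]; exact up_mem h hX) ?_ ?_ hN0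
    · rw [hN]
      exact up_l h X
    · rw [hN]
      exact up_r h X
  have hNe : N = Si * e0 * S := by
    have h1 : Si * (S * N * Si) * S = (Si * S) * N * (Si * S) := by noncomm_ring
    rw [heN, h1, hSiS, one_mul, mul_one]
  have her : e0.rank = 4 := by
    apply le_antisymm
    · rw [← hNr, heN]
      exact (Matrix.rank_mul_le_left _ _).trans (Matrix.rank_mul_le_right _ _)
    · rw [← hNr, hNe]
      exact (Matrix.rank_mul_le_left _ _).trans (Matrix.rank_mul_le_right _ _)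
  have hpr : p.rank = 4 := by
    apply le_antisymm
    · have h1 : p = t⁻¹ • (e0 * e0ᴴ) := by
        rw [k.eh, smul_smul, inv_mul_cancel₀ k.t0, one_smul]
      rw [← her]
      have h2 : p = e0 * (t⁻¹ • e0ᴴ) := by rw [h1, Matrix.mul_smul]
      rw [h2]
      exact Matrix.rank_mul_le_left _ _
    · rw [← her]
      nth_rewrite 1 [← k.pe]
      exact Matrix.rank_mul_le_left _ _
  have hm4 : m = 4 := by
    have h1 := trace_idemM k.pp
    rw [hm] at h1
    have h2 : m = p.rank := by exact_mod_cast h1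
    rw [h2, hpr]
  subst hm4
  omega

end

end Pool.Agent.R915
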