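import Mathlib
import Pool.Agent.R915.C2

/-!
# Central endomorphisms
-/

set_option linter.unusedSectionVars false

namespace Pool.Agent.R915

open Matrix Module Pool.Agent.W437.HC Pool.Agent.W437.HD Pool.Agent.TH504.CB Pool.Agent.Y90
open Pool.Agent.W548.Odd hiding cv
open Pool.Agent.H204R3.CM (IsHodge)
open Pool.Agent.W437.HP (cK cK_mul cK_one)
open scoped ComplexOrder

noncomputable section

variable {g : ℕ} {Z : Matrix (Fin g) (Fin g) ℂ}

/-- Rational endomorphisms commute with the Lie algebra. -/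
theorem commL_of {R : Matrix (Fin g ⊕ Fin g) (Fin g ⊕ Fin g) ℚ}
    (hR : qm R * DZ Z = DZ Z * qm R) : ∀ X ∈ LZ Z, X * qm R = qm R * X := by
  let C : Submodule ℂ (Matrix (Fin g ⊕ Fin g) (Fin g ⊕ Fin g) ℂ) :=
    { carrier := {X | X * qm R = qm R * X}
      add_mem' := fun {X Y} hX hY => by
        change (X + Y) * _ = _ * (X + Y)
        rw [Matrix.add_mul, Matrix.mul_add, show X * _ = _ from hX, show Y * _ = _ from hY]
      zero_mem' := by
        change 0 * _ = _ * 0
        rw [Matrix.zero_mul, Matrix.mul_zero]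
      smul_mem' := fun c X hX => by
        change (c • X) * _ = _ * (c • X)
        rw [Matrix.smul_mul, Matrix.mul_smul, show X * _ = _ from hX] }
  have hC : LZ Z ≤ C := by
    refine LZ_le (fun σ => ?_) (fun A hA B hB => ?_)
    · have h1 := congrArg (fun X => X.map σ) hR
      beta_reduce at h1
      rw [Matrix.map_mul, Matrix.map_mul] at h1
      have h2 : (qm R).map σ = qm R := cK_aut σ R
      rw [h2] at h1
      exact h1.symm
    · change (A * B - B * A) * _ = _ * (A * B - B * A)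
      have hA' : A * _ = _ * A := hA
      have hB' : B * _ = _ * B := hB
      rw [Matrix.sub_mul, Matrix.mul_sub, Matrix.mul_assoc A B, hB', ← Matrix.mul_assoc A, hA',
        Matrix.mul_assoc B A, hA', ← Matrix.mul_assoc B, hB', Matrix.mul_assoc, Matrix.mul_assoc]
  exact fun X hX => hC hX

/-- Central rational endomorphisms. -/
def CentM (Z : Matrix (Fin g) (Fin g) ℂ) (C : Matrix (Fin g ⊕ Fin g) (Fin g ⊕ Fin g) ℚ) : Prop :=
  qm C * DZ Z = DZ Z * qm C ∧ ∀ R : Matrix (Fin g ⊕ Fin g) (Fin g ⊕ Fin g) ℚ,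
    qm R * DZ Z = DZ Z * qm R → C * R = R * C

/-- Descent for central matrices. -/
theorem cent_descent {T : Matrix (Fin g ⊕ Fin g) (Fin g ⊕ Fin g) ℂ}
    (h1 : ∀ X ∈ LZ Z, T * X = X * T)
    (h2 : ∀ S : Matrix (Fin g ⊕ Fin g) (Fin g ⊕ Fin g) ℂ, (∀ X ∈ LZ Z, X * S = S * X) →
      T * S = S * T) :
    ∃ (m : ℕ) (c : Fin m → ℂ) (C : Fin m → Matrix (Fin g ⊕ Fin g) (Fin g ⊕ Fin g) ℚ),
      (∀ j, CentM Z (C j)) ∧ T = ∑ j, c j • qm (C j) := by
  let W : Submodule ℚ ℂ := Submodule.span ℚ (Set.range fun p : (Fin g ⊕ Fin g) × (Fin g ⊕ Fin g) =>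
    T p.1 p.2)
  have : FiniteDimensional ℚ W := FiniteDimensional.span_of_finite ℚ (Set.finite_range _)
  obtain ⟨m, c, l, hl⟩ := exists_coord W
  refine ⟨m, c, fun j => Matrix.of fun i k => l j (T i k), fun j => ⟨?_, fun R hR => ?_⟩, ?_⟩
  · have h3 : T ∈ Submodule.span ℂ (TT Z Z : Set (Matrix (Fin g ⊕ Fin g) (Fin g ⊕ Fin g) ℂ)) :=
      exp_mem fun σ => h1 _ (DS_mem σ)
    have key : ∀ T ∈ Submodule.span ℂ (TT Z Z : Set (Matrix (Fin g ⊕ Fin g) (Fin g ⊕ Fin g) ℂ)),
        ∀ l : ℂ →ₗ[ℚ] ℚ, qm (Matrix.of fun i k => l (T i k)) * DZ Z =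
          DZ Z * qm (Matrix.of fun i k => l (T i k)) := by
      intro T hT
      induction hT using Submodule.span_induction with
      | mem T hT =>
        obtain ⟨R, rfl, hR⟩ := hT
        intro l
        have h4 : qm (Matrix.of fun i k => l (cK ℂ R i k)) = ((l 1 : ℚ) : ℂ) • cK ℂ R := by
          ext i k
          change ((l (((R i k : ℚ) : ℂ)) : ℚ) : ℂ) = ((l 1 : ℚ) : ℂ) * ((R i k : ℚ) : ℂ)
          have h5 : ((R i k : ℚ) : ℂ) = R i k • (1 : ℂ) := by rw [Rat.smul_def, mul_one]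
          rw [h5, map_smul, smul_eq_mul, Rat.smul_def, mul_one]
          push_cast
          ring
        rw [h4, Matrix.smul_mul, Matrix.mul_smul, hR]
      | zero =>
        intro l
        have h4 : qm (Matrix.of fun i k => l ((0 : Matrix (Fin g ⊕ Fin g) (Fin g ⊕ Fin g) ℂ) i k)) =
            0 := by
          ext i k
          simp
        rw [h4, Matrix.zero_mul, Matrix.mul_zero]
      | add x y _ _ hx hy =>
        intro l
        have h4 : qm (Matrix.of fun i k => l ((x + y) i k)) =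
            qm (Matrix.of fun i k => l (x i k)) + qm (Matrix.of fun i k => l (y i k)) := by
          ext i k
          simp
        rw [h4, Matrix.add_mul, Matrix.mul_add, hx, hy]
      | smul a x _ hx =>
        intro l
        exact hx (l.comp ((LinearMap.mulLeft ℂ a).restrictScalars ℚ))
    exact key T h3 (l j)
  · have h3 := h2 (qm R) (commL_of hR)
    ext i k
    have h4 := congrArg (l j) (congrFun (congrFun h3 i) k)
    rw [Matrix.mul_apply, Matrix.mul_apply, map_sum, map_sum] at h4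
    rw [Matrix.mul_apply, Matrix.mul_apply]
    have h5 : ∀ x, l j (T i x * qm R x k) = l j (T i x) * R x k := by
      intro x
      change l j (T i x * ((R x k : ℚ) : ℂ)) = _
      rw [mul_comm, ← Rat.smul_def, map_smul, smul_eq_mul, mul_comm]
    have h6 : ∀ x, l j (qm R i x * T x k) = R i x * l j (T x k) := by
      intro x
      change l j (((R i x : ℚ) : ℂ) * T x k) = _
      rw [← Rat.smul_def, map_smul, smul_eq_mul]
    rw [Finset.sum_congr rfl fun x _ => h5 x, Finset.sum_congr rfl fun x _ => h6 x] at h4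
    exact h4
  · ext i k
    rw [Matrix.sum_apply]
    exact hl _ (Submodule.subset_span ⟨(i, k), rfl⟩)

/-- Scalars on irreducible submodules. -/
theorem schur_scalar {U : Submodule ℂ (Fin g ⊕ Fin g → ℂ)} (hU : IrS (LZ Z) U)
    {T : Matrix (Fin g ⊕ Fin g) (Fin g ⊕ Fin g) ℂ} (hT : ∀ X ∈ LZ Z, X * T = T * X)
    (hTU : ∀ u ∈ U, T *ᵥ u ∈ U) : ∃ z : ℂ, ∀ u ∈ U, T *ᵥ u = z • u := by
  obtain ⟨u0, hu0, hu00⟩ := Submodule.exists_mem_ne_zero_of_ne_bot hU.1
  have hnt : Nontrivial U := ⟨⟨⟨u0, hu0⟩, 0, fun h => hu00 (congrArg Subtype.val h)⟩⟩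
  let f : End ℂ U := ((mulVecLin T).domRestrict U).codRestrict U fun u => hTU u u.2
  obtain ⟨z, hz⟩ := Module.End.exists_eigenvalue f
  obtain ⟨v, hv⟩ := hz.exists_hasEigenvector
  have hv1 : T *ᵥ (v : Fin g ⊕ Fin g → ℂ) = z • (v : Fin g ⊕ Fin g → ℂ) :=
    congrArg Subtype.val hv.apply_eq_smul
  refine ⟨z, ?_⟩
  let W : Submodule ℂ (Fin g ⊕ Fin g → ℂ) := U ⊓ LinearMap.ker (mulVecLin T - z • LinearMap.id)
  have hW : ∀ u, u ∈ W ↔ u ∈ U ∧ T *ᵥ u = z • u := by
    intro u
    rw [Submodule.mem_inf, LinearMap.mem_ker, LinearMap.sub_apply, sub_eq_zero]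
    rfl
  have hst : Stab (LZ Z) W := by
    intro X hX u hu
    rw [hW] at hu ⊢
    refine ⟨hU.2.1 X hX u hu.1, ?_⟩
    rw [mulVec_mulVec, ← hT X hX, ← mulVec_mulVec, hu.2, mulVec_smul]
  rcases hU.2.2 W inf_le_left hst with h3 | h3
  · exfalso
    have h4 : (v : Fin g ⊕ Fin g → ℂ) ∈ W := (hW _).2 ⟨v.2, hv1⟩
    rw [h3, Submodule.mem_bot] at h4
    exact hv.2 (Subtype.ext h4)
  · intro u hu
    rw [← h3, hW] at hu
    exact hu.2

/-- If the centre of the endomorphism algebra is totally real then the irreducible submodules are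
self-dual. -/
theorem sdu_of_real (h : PM Z)
    (hc : ∀ C, CentM Z C → ∀ (z : ℂ) (v : Fin g ⊕ Fin g → ℂ), v ≠ 0 → qm C *ᵥ v = z • v → cc z = z)
    {U : Submodule ℂ (Fin g ⊕ Fin g → ℂ)} (hU : IrS (LZ Z) U) : SDu Z U := by
  obtain ⟨S, Si, hSSi, hSiS, -, had⟩ := exists_S h
  -- the span of the images of `U`
  obtain ⟨I, hIdef⟩ : ∃ I : Submodule ℂ (Fin g ⊕ Fin g → ℂ), I = Submodule.span ℂ
      {w | ∃ T : Matrix (Fin g ⊕ Fin g) (Fin g ⊕ Fin g) ℂ, (∀ X ∈ LZ Z, X * T = T * X) ∧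
        ∃ u ∈ U, w = T *ᵥ u} := ⟨_, rfl⟩
  have hIm : ∀ T : Matrix (Fin g ⊕ Fin g) (Fin g ⊕ Fin g) ℂ, (∀ X ∈ LZ Z, X * T = T * X) →
      ∀ u ∈ U, T *ᵥ u ∈ I := by
    intro T hT u hu
    rw [hIdef]
    exact Submodule.subset_span ⟨T, hT, u, hu, rfl⟩
  have hIs : Stab (LZ Z) I := by
    intro X hX w hw
    rw [hIdef] at hw
    induction hw using Submodule.span_induction with
    | mem w hw =>
      obtain ⟨T, hT, u, hu, rfl⟩ := hw
      rw [mulVec_mulVec, hT X hX, ← mulVec_mulVec]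
      exact hIm T hT _ (hU.2.1 X hX u hu)
    | zero =>
      rw [mulVec_zero]
      exact Submodule.zero_mem _
    | add x y _ _ hx hy =>
      rw [mulVec_add]
      exact Submodule.add_mem _ hx hy
    | smul c x _ hx =>
      rw [mulVec_smul]
      exact Submodule.smul_mem _ _ hx
  have hIA : ∀ T : Matrix (Fin g ⊕ Fin g) (Fin g ⊕ Fin g) ℂ, (∀ X ∈ LZ Z, X * T = T * X) →
      ∀ w ∈ I, T *ᵥ w ∈ I := by
    intro A hA w hw
    rw [hIdef] at hw
    induction hw using Submodule.span_induction with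
    | mem w hw =>
      obtain ⟨T, hT, u, hu, rfl⟩ := hw
      rw [mulVec_mulVec]
      refine hIm _ (fun X hX => ?_) u hu
      rw [← mul_assoc, hA X hX, mul_assoc, hT X hX, mul_assoc]
    | zero =>
      rw [mulVec_zero]
      exact Submodule.zero_mem _
    | add x y _ _ hx hy =>
      rw [mulVec_add]
      exact Submodule.add_mem _ hx hy
    | smul c x _ hx =>
      rw [mulVec_smul]
      exact Submodule.smul_mem _ _ hx
  -- the projector
  obtain ⟨e, he1, he2, heh, hec⟩ := exists_projU h hIs hSSi hSiS had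
  have heA : ∀ A : Matrix (Fin g ⊕ Fin g) (Fin g ⊕ Fin g) ℂ, (∀ X ∈ LZ Z, X * A = A * X) →
      e * A = A * e := by
    have h0 : ∀ A : Matrix (Fin g ⊕ Fin g) (Fin g ⊕ Fin g) ℂ, (∀ X ∈ LZ Z, X * A = A * X) →
        e * A * e = A * e := fun A hA => stab_of_proj he1 he2 (hIA A hA)
    intro A hA
    obtain ⟨A', hA'⟩ : ∃ A', A' = Si * (S * A * Si)ᴴ * S := ⟨_, rfl⟩
    have hA'S : S * A' * Si = (S * A * Si)ᴴ := by
      rw [hA']
      calc S * (Si * (S * A * Si)ᴴ * S) * Si = (S * Si) * (S * A * Si)ᴴ * (S * Si) := by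
            noncomm_ring
      _ = _ := by rw [hSSi, one_mul, mul_one]
    have hcj : ∀ M N : Matrix (Fin g ⊕ Fin g) (Fin g ⊕ Fin g) ℂ,
        S * (M * N) * Si = (S * M * Si) * (S * N * Si) := by
      intro M N
      calc S * (M * N) * Si = S * M * 1 * N * Si := by noncomm_ring
      _ = S * M * (Si * S) * N * Si := by rw [hSiS]
      _ = _ := by noncomm_ring
    have hinj : ∀ M N : Matrix (Fin g ⊕ Fin g) (Fin g ⊕ Fin g) ℂ,
        S * M * Si = S * N * Si → M = N := by
      intro M N hMN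
      have h1 := congrArg (fun X => Si * X * S) hMN
      beta_reduce at h1
      have h2 : ∀ M : Matrix (Fin g ⊕ Fin g) (Fin g ⊕ Fin g) ℂ, Si * (S * M * Si) * S = M := by
        intro M
        calc Si * (S * M * Si) * S = (Si * S) * M * (Si * S) := by noncomm_ring
        _ = M := by rw [hSiS, one_mul, mul_one]
      rwa [h2, h2] at h1
    have hA'c : ∀ X ∈ LZ Z, X * A' = A' * X := by
      intro X hX
      obtain ⟨Y, hY, hYX⟩ := had X hX
      apply hinj
      rw [hcj, hcj, hA'S]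
      have h1 := congrArg (fun M => S * M * Si) (hA Y hY)
      beta_reduce at h1
      rw [hcj, hcj, hYX] at h1
      generalize S * X * Si = x at h1 ⊢
      generalize S * A * Si = a at h1 ⊢
      have h2 := congrArg conjTranspose h1
      rw [conjTranspose_mul, conjTranspose_mul, conjTranspose_conjTranspose] at h2
      exact h2.symm
    have h1 := h0 A' hA'c
    have h2 := congrArg (fun M => S * M * Si) h1
    beta_reduce at h2
    rw [hcj, hcj, hcj, hA'S] at h2
    have h3 : e * A * e = e * A := by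
      apply hinj
      rw [hcj, hcj]
      generalize S * e * Si = f at h2 heh ⊢
      generalize S * A * Si = a at h2 ⊢
      have h4 := congrArg conjTranspose h2
      rw [conjTranspose_mul, conjTranspose_mul, conjTranspose_mul, conjTranspose_conjTranspose,
        heh, ← mul_assoc] at h4
      exact h4
    rw [← h3, h0 A hA]
  obtain ⟨m, c, C, hC, heC⟩ := cent_descent (Z := Z) (T := e) (fun X hX => (hec X hX).symm) heA
  -- the scalars
  obtain ⟨eU, hU1, hU2, -, hUc⟩ := exists_projU h hU.2.1 hSSi hSiS had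
  have hCA : ∀ j, ∀ A : Matrix (Fin g ⊕ Fin g) (Fin g ⊕ Fin g) ℂ, (∀ X ∈ LZ Z, X * A = A * X) →
      qm (C j) * A = A * qm (C j) := by
    intro j A hA
    have h3 : A ∈ Submodule.span ℂ (TT Z Z : Set (Matrix (Fin g ⊕ Fin g) (Fin g ⊕ Fin g) ℂ)) :=
      exp_mem fun σ => (hA _ (DS_mem σ)).symm
    clear hA
    induction h3 using Submodule.span_induction with
    | mem A hA =>
      obtain ⟨R, rfl, hR⟩ := hA
      have h4 := (hC j).2 R hR
      have h5 := congrArg qm h4
      rw [qm_mul, qm_mul] at h5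
      exact h5
    | zero => rw [Matrix.mul_zero, Matrix.zero_mul]
    | add x y _ _ hx hy => rw [Matrix.mul_add, Matrix.add_mul, hx, hy]
    | smul a x _ hx => rw [Matrix.mul_smul, Matrix.smul_mul, hx]
  have hCc : ∀ j, ∀ X ∈ LZ Z, X * qm (C j) = qm (C j) * X := fun j => commL_of (hC j).1
  have hsc : ∀ j, ∃ z : ℂ, ∀ u ∈ U, qm (C j) *ᵥ u = z • u := by
    intro j
    refine schur_scalar hU (hCc j) fun u hu => ?_
    have h1 : qm (C j) *ᵥ u = eU *ᵥ (qm (C j) *ᵥ u) := by
      rw [mulVec_mulVec, ← hCA j eU hUc, ← mulVec_mulVec, hU2 u hu]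
    rw [h1]
    exact hU1 _
  choose z hz using hsc
  obtain ⟨u0, hu0, hu00⟩ := Submodule.exists_mem_ne_zero_of_ne_bot hU.1
  have hzr : ∀ j, cc (z j) = z j := fun j => hc (C j) (hC j) (z j) u0 hu00 (hz j u0 hu0)
  have hev : ∀ v, e *ᵥ v = ∑ j, c j • (qm (C j) *ᵥ v) := by
    intro v
    rw [heC, sum_mulVec]
    exact Finset.sum_congr rfl fun j _ => smul_mulVec _ _ _
  have hsum : ∑ j, c j * z j = 1 := by
    have hUI : u0 ∈ I := by
      have h1 := hIm 1 (fun X _ => by rw [Matrix.mul_one, Matrix.one_mul]) u0 hu0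
      rwa [one_mulVec] at h1
    have h1 := he2 u0 hUI
    rw [hev, Finset.sum_congr rfl fun j _ => by rw [hz j u0 hu0, smul_smul], ← Finset.sum_smul] at h1
    have h2 : (∑ j, c j * z j - 1) • u0 = 0 := by rw [sub_smul, h1, one_smul, sub_self]
    exact sub_eq_zero.1 ((smul_eq_zero.1 h2).resolve_right hu00)
  -- the conjugate
  have hUb : IrS (LZ Z) (cjS cc U) := hU.cj gal_LZ cc
  have hUbI : cjS cc U ≤ I := by
    intro v hv
    have h1 : cnj v ∈ U := hv
    have h2 : ∀ j, qm (C j) *ᵥ v = z j • v := by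
      intro j
      have h3 := congrArg cnj (hz j _ h1)
      rw [cnj_mulVec, cnj_smul, cnj_cnj, hzr] at h3
      have h4 : (qm (C j)).map cc = qm (C j) := cK_aut cc (C j)
      rw [h4] at h3
      exact h3
    have h3 : e *ᵥ v = v := by
      rw [hev, Finset.sum_congr rfl fun j _ => by rw [h2 j, smul_smul], ← Finset.sum_smul, hsum,
        one_smul]
    rw [← h3]
    exact he1 v
  -- the isomorphism
  obtain ⟨eb, hb1, hb2, -, hbc⟩ := exists_projU h hUb.2.1 hSSi hSiS had
  obtain ⟨T, hT, hTU, u1, hu1, hTu1⟩ : ∃ T : Matrix (Fin g ⊕ Fin g) (Fin g ⊕ Fin g) ℂ,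
      (∀ X ∈ LZ Z, X * T = T * X) ∧ (∀ u, T *ᵥ u ∈ cjS cc U) ∧ ∃ u ∈ U, T *ᵥ u ≠ 0 := by
    by_contra hcon
    push Not at hcon
    have h1 : ∀ w ∈ I, eb *ᵥ w = 0 := by
      intro w hw
      rw [hIdef] at hw
      induction hw using Submodule.span_induction with
      | mem w hw =>
        obtain ⟨T, hT, u, hu, rfl⟩ := hw
        rw [mulVec_mulVec]
        refine hcon (eb * T) (fun X hX => ?_) (fun u => ?_) u hu
        · rw [← mul_assoc, hbc X hX, mul_assoc, hT X hX, mul_assoc]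
        · rw [← mulVec_mulVec]
          exact hb1 _
      | zero => rw [mulVec_zero]
      | add x y _ _ hx hy => rw [mulVec_add, hx, hy, add_zero]
      | smul c x _ hx => rw [mulVec_smul, hx, smul_zero]
    apply hUb.1
    rw [eq_bot_iff]
    intro w hw
    rw [Submodule.mem_bot, ← hb2 w hw]
    exact h1 w (hUbI hw)
  have hTc : ∀ X ∈ LZ Z, ∀ u ∈ U, mulVecLin T (X *ᵥ u) = X *ᵥ mulVecLin T u := by
    intro X hX u _
    rw [mulVecLin_apply, mulVecLin_apply, mulVec_mulVec, mulVec_mulVec, hT X hX]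
  have hmap := hU.map_eq hUb hTc ⟨u1, hu1, hTu1⟩ (fun u _ => hTU u)
  -- the form
  refine ⟨(om g).compl₂ (mulVecLin T), ?_, fun X hX u hu v hv => ?_⟩
  · have h1 : DZ Z *ᵥ cnj u0 ∈ cjS cc U := by
      refine hUb.2.1 _ DZ_mem _ ?_
      change cnj (cnj u0) ∈ U
      rwa [cnj_cnj]
    rw [← hmap] at h1
    obtain ⟨v, hv, hv'⟩ := h1
    refine ⟨u0, hu0, v, hv, fun h0 => ?_⟩
    rw [LinearMap.compl₂_apply, hv'] at h0
    have h2 : cnj u0 ≠ 0 := by
      intro h3
      apply hu00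
      rw [← cnj_cnj u0, h3]
      funext i
      simp [cnj]
    have h3 := h.herm_pos h2
    rw [cnj_cnj, h0, mul_zero] at h3
    exact lt_irrefl _ h3
  · rw [LinearMap.compl₂_apply, LinearMap.compl₂_apply, hTc X hX v hv]
    exact h.om_sp hX u _

/-- The complex structures are not scalars on self-dual submodules. -/
theorem ns_of_sdu (h : PM Z) {U : Submodule ℂ (Fin g ⊕ Fin g → ℂ)}
    (hs : SDu Z U) (σ : ℂ ≃+* ℂ) (c : ℂ) : ∃ u ∈ U, DS Z σ *ᵥ u ≠ c • u := by
  by_contra hcon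
  push Not at hcon
  obtain ⟨b, ⟨u, hu, v, hv, huv⟩, hb⟩ := hs
  have h1 := hb _ (DS_mem σ) u hu v hv
  rw [hcon u hu, hcon v hv, map_smul, map_smul, LinearMap.smul_apply, smul_eq_mul] at h1
  have h2 : c * b u v = 0 := by linear_combination h1 / 2
  have h3 := (mul_eq_zero.1 h2).resolve_right huv
  have h4 := hcon u hu
  rw [h3, zero_smul] at h4
  have h5 : DS Z σ *ᵥ (DS Z σ *ᵥ u) = u := by
    have h6 : DS Z σ * DS Z σ = 1 := by
      have h7 : DS Z σ * DS Z σ = (DZ Z * DZ Z).map σ := by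
        rw [Matrix.map_mul]
        rfl
      rw [h7, DZ_sq h.det]
      ext i j
      simp [Matrix.one_apply, apply_ite]
    rw [mulVec_mulVec, h6, one_mulVec]
  rw [h4, mulVec_zero] at h5
  apply huv
  rw [← h5, map_zero, LinearMap.zero_apply]

end

end Pool.Agent.R915
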