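import Mathlib
import Pool.Agent.R915.C3
import Pool.Agent.R915.E1

/-!
# Symplectic irreducible submodules of dimension four
-/

set_option linter.unusedSectionVars false

namespace Pool.Agent.R915

open Matrix Module Pool.Agent.W437.HC Pool.Agent.W437.HD Pool.Agent.TH504.CB Pool.Agent.Y90
open Pool.Agent.W548.Odd hiding cv
open Pool.Agent.H204R3.CM (IsHodge)
open Pool.Agent.W437.HP (cK cK_mul cK_one)

noncomputable section

variable {g : ℕ} {Z : Matrix (Fin g) (Fin g) ℂ}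

theorem kill_pos {N : Matrix (Fin g ⊕ Fin g) (Fin g ⊕ Fin g) ℂ} (hN : N * DZ Z = -N)
    {v : Fin g ⊕ Fin g → ℂ} (hv : v ∈ eig Z 1) : N *ᵥ v = 0 := by
  have h1 : (N * DZ Z) *ᵥ v = N *ᵥ v := by
    rw [← mulVec_mulVec, mem_eig.1 hv, one_smul]
  rw [hN, neg_mulVec] at h1
  have h2 : (2 : ℂ) • (N *ᵥ v) = 0 := by
    rw [two_smul]
    nth_rewrite 1 [← h1]
    rw [neg_add_cancel]
  exact (smul_eq_zero.1 h2).resolve_left two_ne_zero

theorem kill_neg {N : Matrix (Fin g ⊕ Fin g) (Fin g ⊕ Fin g) ℂ} (hN : N * DZ Z = N)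
    {v : Fin g ⊕ Fin g → ℂ} (hv : v ∈ eig Z (-1)) : N *ᵥ v = 0 := by
  have h1 : (N * DZ Z) *ᵥ v = -(N *ᵥ v) := by
    rw [← mulVec_mulVec, mem_eig.1 hv, mulVec_smul, neg_one_smul]
  rw [hN] at h1
  have h2 : (2 : ℂ) • (N *ᵥ v) = 0 := by
    rw [two_smul]
    nth_rewrite 1 [h1]
    rw [neg_add_cancel]
  exact (smul_eq_zero.1 h2).resolve_left two_ne_zero

/-- The image of an element of degree one. -/
theorem map_neg_part (h : PM Z) {U : Submodule ℂ (Fin g ⊕ Fin g → ℂ)} (hU : Stab (LZ Z) U)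
    {N : Matrix (Fin g ⊕ Fin g) (Fin g ⊕ Fin g) ℂ} (h2 : N * DZ Z = -N) :
    U.map (mulVecLin N) =
      (U ⊓ eig Z (-1) : Submodule ℂ (Fin g ⊕ Fin g → ℂ)).map (mulVecLin N) := by
  apply le_antisymm
  · rintro _ ⟨u, hu, rfl⟩
    rw [← (split_eig h hU).2] at hu
    obtain ⟨a, ha, b, hb, rfl⟩ := Submodule.mem_sup.1 hu
    refine ⟨b, hb, ?_⟩
    rw [map_add, mulVecLin_apply, mulVecLin_apply, kill_pos h2 ha.2, zero_add]
  · exact Submodule.map_mono inf_le_left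

/-- If there are no elements of rank one then the elements of degree one are multiples of one
another. -/
theorem exists_A (h : PM Z) {U : Submodule ℂ (Fin g ⊕ Fin g → ℂ)} (hU : IrS (LZ Z) U)
    (hp : pd Z U = 2) (hq : qd Z U = 2) (hns : ∀ c : ℂ, ∃ u ∈ U, DZ Z *ᵥ u ≠ c • u)
    (hR : ¬Rk1 Z U) :
    ∃ A ∈ LZ Z, DZ Z * A = A ∧ A * DZ Z = -A ∧
      (∀ f ∈ (U ⊓ eig Z (-1) : Submodule ℂ (Fin g ⊕ Fin g → ℂ)), A *ᵥ f = 0 → f = 0) ∧
      ∀ N ∈ LZ Z, DZ Z * N = N → N * DZ Z = -N → ∃ c : ℂ, ∀ u ∈ U, N *ᵥ u = c • (A *ᵥ u) := by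
  have hdim : finrank ℂ U = 4 := by
    rw [← pd_add_qd h hU.2.1]
    omega
  have hinj : ∀ N ∈ LZ Z, DZ Z * N = N → N * DZ Z = -N → (∃ u ∈ U, N *ᵥ u ≠ 0) →
      ∀ f ∈ (U ⊓ eig Z (-1) : Submodule ℂ (Fin g ⊕ Fin g → ℂ)), N *ᵥ f = 0 → f = 0 := by
    intro N hN h1 h2 h3 f hf hNf
    have h4 := two_rank_le h hU.2.1 hN h1 h2
    have h5 := map_rank_ne h3
    have h6 : finrank ℂ (U.map (mulVecLin N)) ≠ 1 := fun h7 =>
      hR ⟨DZ Z, Or.inl rfl, N, hN, h1, h2, h7⟩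
    have h7 : finrank ℂ (U.map (mulVecLin N)) = 2 := by omega
    have h8 := map_neg_part h hU.2.1 h2
    have h10 := LinearMap.finrank_range_add_finrank_ker
      ((mulVecLin N).domRestrict (U ⊓ eig Z (-1) : Submodule ℂ (Fin g ⊕ Fin g → ℂ)))
    have h11 : LinearMap.range
        ((mulVecLin N).domRestrict (U ⊓ eig Z (-1) : Submodule ℂ (Fin g ⊕ Fin g → ℂ))) =
        (U ⊓ eig Z (-1) : Submodule ℂ (Fin g ⊕ Fin g → ℂ)).map (mulVecLin N) :=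
      LinearMap.range_domRestrict _ _
    rw [h11, ← h8, h7] at h10
    have h12 : finrank ℂ (U ⊓ eig Z (-1) : Submodule ℂ (Fin g ⊕ Fin g → ℂ)) = 2 := hq
    rw [h12] at h10
    have h13 : LinearMap.ker
        ((mulVecLin N).domRestrict (U ⊓ eig Z (-1) : Submodule ℂ (Fin g ⊕ Fin g → ℂ))) = ⊥ := by
      rw [← Submodule.finrank_eq_zero (R := ℂ)]
      omega
    have h14 : (⟨f, hf⟩ : (U ⊓ eig Z (-1) : Submodule ℂ (Fin g ⊕ Fin g → ℂ))) ∈ LinearMap.ker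
        ((mulVecLin N).domRestrict (U ⊓ eig Z (-1) : Submodule ℂ (Fin g ⊕ Fin g → ℂ))) := by
      rw [LinearMap.mem_ker]
      exact hNf
    rw [h13, Submodule.mem_bot] at h14
    exact congrArg Subtype.val h14
  obtain ⟨A, hA, hA1, hA2, hA3⟩ := exists_upG h hU hns
  have hAm : ∀ v ∈ U, A *ᵥ v ∈ (U ⊓ eig Z 1 : Submodule ℂ (Fin g ⊕ Fin g → ℂ)) := by
    intro v hv
    refine ⟨hU.2.1 A hA v hv, ?_⟩
    rw [SetLike.mem_coe, mem_eig, mulVec_mulVec, hA1, one_smul]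
  let A0 : (U ⊓ eig Z (-1) : Submodule ℂ (Fin g ⊕ Fin g → ℂ)) →ₗ[ℂ]
      (U ⊓ eig Z 1 : Submodule ℂ (Fin g ⊕ Fin g → ℂ)) :=
    ((mulVecLin A).domRestrict _).codRestrict _ fun v => hAm v v.2.1
  have hA0 : Function.Injective A0 := by
    rw [injective_iff_map_eq_zero]
    intro v hv
    exact Subtype.ext (hinj A hA hA1 hA2 hA3 v v.2 (congrArg Subtype.val hv))
  let Ae := LinearMap.linearEquivOfInjective A0 hA0 (by
    change qd Z U = pd Z U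
    rw [hp, hq])
  have hAe : ∀ v, (Ae v : Fin g ⊕ Fin g → ℂ) = A *ᵥ (v : Fin g ⊕ Fin g → ℂ) := fun v => rfl
  refine ⟨A, hA, hA1, hA2, hinj A hA hA1 hA2 hA3, fun N hN h1 h2 => ?_⟩
  let N0 : (U ⊓ eig Z (-1) : Submodule ℂ (Fin g ⊕ Fin g → ℂ)) →ₗ[ℂ]
      (U ⊓ eig Z 1 : Submodule ℂ (Fin g ⊕ Fin g → ℂ)) :=
    ((mulVecLin N).domRestrict _).codRestrict _ fun v => by
      refine ⟨hU.2.1 N hN v v.2.1, ?_⟩
      change DZ Z *ᵥ (N *ᵥ (v : Fin g ⊕ Fin g → ℂ)) = (1 : ℂ) • (N *ᵥ (v : Fin g ⊕ Fin g → ℂ))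
      rw [mulVec_mulVec, h1, one_smul]
  have : Nontrivial (U ⊓ eig Z (-1) : Submodule ℂ (Fin g ⊕ Fin g → ℂ)) := by
    apply Module.nontrivial_of_finrank_pos (R := ℂ)
    change 0 < qd Z U
    omega
  obtain ⟨c, hc⟩ := Module.End.exists_eigenvalue (Ae.symm.toLinearMap.comp N0)
  obtain ⟨v, hv⟩ := hc.exists_hasEigenvector
  have h3 : Ae.symm (N0 v) = c • v := hv.apply_eq_smul
  have h4 : N0 v = c • Ae v := by rw [← map_smul, ← h3, LinearEquiv.apply_symm_apply]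
  have h5 : N *ᵥ (v : Fin g ⊕ Fin g → ℂ) = c • (A *ᵥ (v : Fin g ⊕ Fin g → ℂ)) :=
    congrArg Subtype.val h4
  refine ⟨c, ?_⟩
  by_contra hcon
  push Not at hcon
  obtain ⟨u, hu, hu'⟩ := hcon
  refine hv.2 (Subtype.ext (hinj (N - c • A) (Submodule.sub_mem _ hN (Submodule.smul_mem _ _ hA))
    ?_ ?_ ⟨u, hu, ?_⟩ v v.2 ?_))
  · rw [mul_sub, h1, Matrix.mul_smul, hA1]
  · rw [sub_mul, h2, Matrix.smul_mul, hA2, smul_neg]
    abel
  · rw [sub_mulVec, smul_mulVec]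
    exact sub_ne_zero.2 hu'
  · rw [sub_mulVec, smul_mulVec, h5, sub_self]

/-- Decomposition of the elements of the Lie algebra. -/
theorem deg_split (h : PM Z) {X : Matrix (Fin g ⊕ Fin g) (Fin g ⊕ Fin g) ℂ} (hX : X ∈ LZ Z) :
    ∃ X1 X2 X0, X1 ∈ LZ Z ∧ X2 ∈ LZ Z ∧ X0 ∈ LZ Z ∧ X = X1 + X2 + X0 ∧
      DZ Z * X1 = X1 ∧ X1 * DZ Z = -X1 ∧ DZ Z * X2 = -X2 ∧ X2 * DZ Z = X2 ∧
      DZ Z * X0 = X0 * DZ Z := by
  have hup := up_mem h hX
  have hdn := dn_mem h hX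
  obtain ⟨X1, hX1⟩ : ∃ X1, X1 = (1 / 4 : ℂ) • ((1 + DZ Z) * X * (1 - DZ Z)) := ⟨_, rfl⟩
  obtain ⟨X2, hX2⟩ : ∃ X2, X2 = (1 / 4 : ℂ) • ((1 - DZ Z) * X * (1 + DZ Z)) := ⟨_, rfl⟩
  rw [← hX1] at hup
  rw [← hX2] at hdn
  have hX0 : X - X1 - X2 ∈ LZ Z := Submodule.sub_mem _ (Submodule.sub_mem _ hX hup) hdn
  have hc : DZ Z * (X - X1 - X2) = (X - X1 - X2) * DZ Z := by
    have h2 : X - X1 - X2 = (1 / 2 : ℂ) • (X + DZ Z * X * DZ Z) := by
      rw [hX1, hX2]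
      have h3 : (1 + DZ Z) * X * (1 - DZ Z) = X - X * DZ Z + DZ Z * X - DZ Z * X * DZ Z := by
        noncomm_ring
      have h4 : (1 - DZ Z) * X * (1 + DZ Z) = X + X * DZ Z - DZ Z * X - DZ Z * X * DZ Z := by
        noncomm_ring
      rw [h3, h4]
      module
    rw [h2, Matrix.mul_smul, Matrix.smul_mul]
    congr 1
    rw [mul_add, add_mul, ← mul_assoc, ← mul_assoc, DZ_sq h.det, one_mul, mul_assoc (DZ Z * X),
      DZ_sq h.det, mul_one, add_comm]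
  refine ⟨X1, X2, X - X1 - X2, hup, hdn, hX0, by abel, by rw [hX1]; exact up_l h X,
    by rw [hX1]; exact up_r h X, by rw [hX2]; exact dn_l h X, by rw [hX2]; exact dn_r h X, hc⟩

/-- Isotropic vectors. -/
theorem exists_isotropic {W : Type*} [AddCommGroup W] [Module ℂ W] (hW : 2 ≤ finrank ℂ W)
    (s : W →ₗ[ℂ] W →ₗ[ℂ] ℂ) : ∃ f : W, f ≠ 0 ∧ s f f = 0 := by
  obtain ⟨b, hb⟩ := exists_linearIndependent_of_le_finrank hW
  have hne : ∀ t : ℂ, b 0 + t • b 1 ≠ 0 := by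
    intro t h0
    have h1 := Fintype.linearIndependent_iff.1 hb ![1, t] (by
      rw [Fin.sum_univ_two]
      simpa using h0) 0
    simp at h1
  by_cases h1 : s (b 1) (b 1) = 0
  · exact ⟨b 1, hb.ne_zero 1, h1⟩
  · obtain ⟨r, hr⟩ := IsAlgClosed.exists_pow_nat_eq ((s (b 0) (b 1) + s (b 1) (b 0)) ^ 2 -
      4 * s (b 1) (b 1) * s (b 0) (b 0)) (n := 2) (by norm_num)
    refine ⟨b 0 + ((r - (s (b 0) (b 1) + s (b 1) (b 0))) / (2 * s (b 1) (b 1))) • b 1, hne _, ?_⟩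
    simp only [map_add, map_smul, LinearMap.add_apply, LinearMap.smul_apply, smul_eq_mul]
    field_simp
    linear_combination hr

/-- Elements of rank one in the case of symplectic submodules of dimension four. -/
theorem rk1_sp (h : PM Z) {U : Submodule ℂ (Fin g ⊕ Fin g → ℂ)} (hU : IrS (LZ Z) U)
    (hd : finrank ℂ U = 4) (b : (Fin g ⊕ Fin g → ℂ) →ₗ[ℂ] (Fin g ⊕ Fin g → ℂ) →ₗ[ℂ] ℂ)
    (h0 : ∃ u ∈ U, ∃ v ∈ U, b u v ≠ 0)
    (hb : ∀ X ∈ LZ Z, ∀ u ∈ U, ∀ v ∈ U, b (X *ᵥ u) v + b u (X *ᵥ v) = 0)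
    (halt : ∀ u ∈ U, ∀ v ∈ U, b u v = -b v u) : Rk1 Z U := by
  by_contra hR
  have hns : ∀ c : ℂ, ∃ u ∈ U, DZ Z *ᵥ u ≠ c • u := fun c =>
    ns_of_sdu h ⟨b, h0, hb⟩ (RingEquiv.refl ℂ) c
  have htr := tr_dual h hU hU h0 hb
  have hpq := pd_add_qd h hU.2.1
  unfold tr at htr
  have hp : pd Z U = 2 := by omega
  have hq : qd Z U = 2 := by omega
  obtain ⟨A, hA, hA1, hA2, hinj, hone⟩ := exists_A h hU hp hq hns hR
  have hAA : A * A = 0 := by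
    have h1 : A * A = -(A * A) := by
      calc A * A = A * (DZ Z * A) := by rw [hA1]
      _ = (A * DZ Z) * A := by rw [mul_assoc]
      _ = -(A * A) := by rw [hA2, neg_mul]
    have h2 : (2 : ℂ) • (A * A) = 0 := by
      rw [two_smul]
      nth_rewrite 1 [h1]
      rw [neg_add_cancel]
    exact (smul_eq_zero.1 h2).resolve_left two_ne_zero
  have hAp : ∀ v, A *ᵥ v ∈ eig Z 1 := by
    intro v
    rw [mem_eig, mulVec_mulVec, hA1, one_smul]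
  -- the isotropic vector
  obtain ⟨⟨f, hfU, hf1⟩, hf0, hff⟩ := exists_isotropic
    (W := (U ⊓ eig Z (-1) : Submodule ℂ (Fin g ⊕ Fin g → ℂ))) (le_of_eq hq.symm)
    ((b.comp (mulVecLin A)).domRestrict₁₂ _ _)
  have hff' : b (A *ᵥ f) f = 0 := hff
  have hf0' : f ≠ 0 := fun h1 => hf0 (Subtype.ext h1)
  have hAf0 : A *ᵥ f ≠ 0 := fun h1 => hf0' (hinj f ⟨hfU, hf1⟩ h1)
  have hAfU : A *ᵥ f ∈ U := hU.2.1 A hA f hfU
  -- positive vectors are orthogonal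
  have hpp : ∀ u ∈ U, ∀ v ∈ U, u ∈ eig Z 1 → v ∈ eig Z 1 → b u v = 0 := by
    intro u hu v hv hu1 hv1
    have h1 := hb _ DZ_mem u hu v hv
    rw [mem_eig.1 hu1, mem_eig.1 hv1, one_smul, one_smul] at h1
    linear_combination h1 / 2
  obtain ⟨y, hyU, hy1, hy⟩ : ∃ y ∈ U, y ∈ eig Z (-1) ∧ b (A *ᵥ f) y ≠ 0 := by
    by_contra hcon
    push Not at hcon
    apply hAf0
    refine nd_left hU hU.2.1 h0 hb _ hAfU fun v hv => ?_
    rw [← (split_eig h hU.2.1).2] at hv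
    obtain ⟨c, hc, d, hd, rfl⟩ := Submodule.mem_sup.1 hv
    rw [map_add, hpp _ hAfU _ hc.1 (hAp f) hc.2, hcon d hd.1 hd.2, add_zero]
  -- the line of the isotropic vector
  have hline : ∀ x ∈ U, x ∈ eig Z (-1) → b (A *ᵥ f) x = 0 → ∃ c : ℂ, x = c • f := by
    intro x hxU hx1 hx
    let F : (U ⊓ eig Z (-1) : Submodule ℂ (Fin g ⊕ Fin g → ℂ)) →ₗ[ℂ] ℂ :=
      (b (A *ᵥ f)).domRestrict _
    have h1 := LinearMap.finrank_range_add_finrank_ker F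
    have h2 : finrank ℂ (U ⊓ eig Z (-1) : Submodule ℂ (Fin g ⊕ Fin g → ℂ)) = 2 := hq
    have h3 : 1 ≤ finrank ℂ (LinearMap.range F) := by
      rw [Nat.one_le_iff_ne_zero, ne_eq, Submodule.finrank_eq_zero, LinearMap.range_eq_bot]
      intro h4
      exact hy (congrArg (fun G => G ⟨y, hyU, hy1⟩) h4)
    have h5 : finrank ℂ (LinearMap.ker F) ≤ 1 := by omega
    have h6 : (Submodule.span ℂ {(⟨f, hfU, hf1⟩ :
        (U ⊓ eig Z (-1) : Submodule ℂ (Fin g ⊕ Fin g → ℂ)))}) ≤ LinearMap.ker F := by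
      rw [Submodule.span_singleton_le_iff_mem, LinearMap.mem_ker]
      exact hff'
    have h7 := Submodule.eq_of_le_of_finrank_le h6 (by
      rw [finrank_span_singleton hf0]
      exact h5)
    have h8 : (⟨x, hxU, hx1⟩ : (U ⊓ eig Z (-1) : Submodule ℂ (Fin g ⊕ Fin g → ℂ))) ∈
        LinearMap.ker F := LinearMap.mem_ker.2 hx
    rw [← h7] at h8
    obtain ⟨c, hc⟩ := Submodule.mem_span_singleton.1 h8
    exact ⟨c, (congrArg Subtype.val hc).symm⟩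
  have hzero : ∀ N ∈ LZ Z, DZ Z * N = N * DZ Z →
      (∃ c : ℂ, N *ᵥ f = c • f) ∧ ∃ c : ℂ, N *ᵥ (A *ᵥ f) = c • (A *ᵥ f) := by
    intro N hN hN0
    have hNf : N *ᵥ f ∈ U := hU.2.1 N hN f hfU
    have hNf1 : N *ᵥ f ∈ eig Z (-1) := by
      rw [mem_eig, mulVec_mulVec, hN0, ← mulVec_mulVec, mem_eig.1 hf1, mulVec_smul]
    obtain ⟨χ, hχ⟩ := hone (N * A - A * N) (LZ_br hN hA)
      (by rw [mul_sub, ← mul_assoc, hN0, mul_assoc, hA1, ← mul_assoc, hA1]) (by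
        rw [sub_mul, mul_assoc, hA2, mul_assoc A, ← hN0, ← mul_assoc, hA2]
        noncomm_ring)
    have hNA : N *ᵥ (A *ᵥ f) = A *ᵥ (N *ᵥ f) + χ • (A *ᵥ f) := by
      have h2 := hχ f hfU
      rw [sub_mulVec, ← mulVec_mulVec, ← mulVec_mulVec] at h2
      rw [← h2]
      abel
    have e1 := hb N hN _ hAfU f hfU
    have e2 := hb A hA _ hNf f hfU
    have e3 := halt _ hNf _ hAfU
    rw [hNA, map_add, map_smul, LinearMap.add_apply, LinearMap.smul_apply, smul_eq_mul, hff',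
      mul_zero, add_zero] at e1
    have e4 : b (A *ᵥ f) (N *ᵥ f) = 0 := by linear_combination (e1 - e2 + e3) / 2
    obtain ⟨c, hc⟩ := hline _ hNf hNf1 e4
    refine ⟨⟨c, hc⟩, c + χ, ?_⟩
    rw [hNA, hc, mulVec_smul, add_smul]
  -- the stable plane
  let W : Submodule ℂ (Fin g ⊕ Fin g → ℂ) := Submodule.span ℂ {f, A *ᵥ f}
  have hfW : f ∈ W := Submodule.subset_span (Or.inl rfl)
  have hAfW : A *ᵥ f ∈ W := Submodule.subset_span (Or.inr rfl)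
  have hst : Stab (LZ Z) W := by
    intro X hX
    obtain ⟨X1, X2, X0, hX1, hX2, hX0, rfl, a1, a2, a3, a4, a5⟩ := deg_split h hX
    obtain ⟨c, hc⟩ := hone X1 hX1 a1 a2
    obtain ⟨⟨c1, hc1⟩, c2, hc2⟩ := hzero X0 hX0 a5
    have hbr : DZ Z * (X2 * A - A * X2) = (X2 * A - A * X2) * DZ Z := by
      have e1 : DZ Z * (X2 * A - A * X2) = (DZ Z * X2) * A - (DZ Z * A) * X2 := by noncomm_ring
      have e2 : (X2 * A - A * X2) * DZ Z = X2 * (A * DZ Z) - A * (X2 * DZ Z) := by noncomm_ring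
      rw [e1, e2, a3, a4, hA1, hA2]
      noncomm_ring
    obtain ⟨⟨c3, hc3⟩, -⟩ := hzero _ (LZ_br hX2 hA) hbr
    have hX2f : X2 *ᵥ f = 0 := kill_neg a4 hf1
    have hle : W ≤ W.comap (mulVecLin (X1 + X2 + X0)) := by
      refine Submodule.span_le.2 ?_
      rintro x (rfl | rfl)
      · change (X1 + X2 + X0) *ᵥ x ∈ W
        rw [add_mulVec, add_mulVec, hc _ hfU, hX2f, hc1, add_zero]
        exact Submodule.add_mem _ (Submodule.smul_mem _ _ hAfW) (Submodule.smul_mem _ _ hfW)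
      · change (X1 + X2 + X0) *ᵥ (A *ᵥ f) ∈ W
        have e1 : X2 *ᵥ (A *ᵥ f) = c3 • f := by
          rw [← hc3, sub_mulVec, ← mulVec_mulVec, ← mulVec_mulVec, hX2f, mulVec_zero, sub_zero]
        rw [add_mulVec, add_mulVec, hc _ hAfU, mulVec_mulVec, hAA, zero_mulVec, smul_zero,
          zero_add, e1, hc2]
        exact Submodule.add_mem _ (Submodule.smul_mem _ _ hfW) (Submodule.smul_mem _ _ hAfW)
    exact fun u hu => hle hu
  have hWU : W ≤ U := by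
    refine Submodule.span_le.2 ?_
    rintro x (rfl | rfl)
    · exact hfU
    · exact hAfU
  rcases hU.2.2 W hWU hst with h1 | h1
  · rw [h1, Submodule.mem_bot] at hfW
    exact hf0' hfW
  · have h2 : finrank ℂ W ≤ 2 := by
      classical
      have h3 := finrank_span_finset_le_card (R := ℂ)
        ({f, A *ᵥ f} : Finset (Fin g ⊕ Fin g → ℂ))
      rw [Finset.coe_pair] at h3
      exact h3.trans Finset.card_le_two
    rw [h1, hd] at h2
    omega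

end

end Pool.Agent.R915
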