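import Mathlib
import Pool.Agent.R915.K1

/-!
# Products of elliptic curves with complex multiplication
-/

set_option linter.unusedSectionVars false

namespace Pool.Agent.R915

open Matrix Module Pool.Agent.W437.HC Pool.Agent.W437.HD Pool.Agent.TH504.CB Pool.Agent.Y90
open Pool.Agent.W548.Odd hiding cv
open Pool.Agent.H204R3.CM (IsHodge)
open Pool.Agent.W437.HP (cK cK_mul cK_one)
open scoped ComplexOrder

noncomputable section

/-- The square root. -/
def rt (d : ℚ) : ℝ := Real.sqrt (d : ℝ)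

theorem rt_pos {d : ℚ} (hd : 0 < d) : 0 < rt d := Real.sqrt_pos.2 (by exact_mod_cast hd)

theorem rt_sq {d : ℚ} (hd : 0 < d) : rt d * rt d = d :=
  Real.mul_self_sqrt (by exact_mod_cast hd.le)

theorem rt_sqC {d : ℚ} (hd : 0 < d) : (rt d : ℂ) * (rt d : ℂ) = (d : ℂ) := by
  have h1 := rt_sq hd
  exact_mod_cast congrArg (fun x : ℝ => (x : ℂ)) h1

theorem rt_neC {d : ℚ} (hd : 0 < d) : (rt d : ℂ) ≠ 0 := by
  exact_mod_cast (rt_pos hd).ne'

/-- The period matrix of a product of elliptic curves with complex multiplication. -/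
def ZE {M : ℕ} (d l : Fin M → ℚ) : Matrix (Fin M) (Fin M) ℂ :=
  diagonal fun i => Complex.I * (((l i : ℝ) * rt (d i) : ℝ) : ℂ)

variable {M : ℕ} {d l : Fin M → ℚ}

theorem imE : imM (ZE d l) = diagonal fun i => (l i : ℝ) * rt (d i) := by
  ext i j
  by_cases h : i = j
  · subst h
    simp [ZE]
  · simp [ZE, h]

theorem reE : reM (ZE d l) = 0 := by
  ext i j
  by_cases h : i = j
  · subst h
    simp [ZE]
  · simp [ZE, h]

theorem pmE (hd : ∀ i, 0 < d i) (hl : ∀ i, 0 < l i) : PM (ZE d l) where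
  symm := by
    unfold ZE
    rw [diagonal_transpose]
  pos := by
    rw [imE]
    refine Matrix.posDef_diagonal_iff.2 fun i => ?_
    have h1 : (0 : ℝ) < l i := by exact_mod_cast hl i
    exact mul_pos h1 (rt_pos (hd i))

theorem JRE (hd : ∀ i, 0 < d i) (hl : ∀ i, 0 < l i) : JR (ZE d l) =
    fromBlocks 0 (-diagonal fun i => (l i : ℝ) * rt (d i))
      (diagonal fun i => ((l i : ℝ) * rt (d i))⁻¹) 0 := by
  have h1 : (imM (ZE d l))⁻¹ = diagonal fun i => ((l i : ℝ) * rt (d i))⁻¹ := by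
    rw [imE]
    refine Matrix.inv_eq_left_inv ?_
    rw [diagonal_mul_diagonal, ← diagonal_one]
    congr 1
    funext i
    have h2 : (0 : ℝ) < l i := by exact_mod_cast hl i
    exact inv_mul_cancel₀ (mul_pos h2 (rt_pos (hd i))).ne'
  unfold JR
  rw [h1, reE, imE]
  simp only [Matrix.zero_mul, Matrix.mul_zero, neg_zero, sub_zero]

theorem DZE_l (hd : ∀ i, 0 < d i) (hl : ∀ i, 0 < l i) (v : Fin M ⊕ Fin M → ℂ) (i : Fin M) :
    (DZ (ZE d l) *ᵥ v) (Sum.inl i) = Complex.I * ((l i : ℂ) * rt (d i)) * v (Sum.inr i) := by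
  unfold DZ
  rw [JRE hd hl, smul_mulVec, Pi.smul_apply, smul_eq_mul, fromBlocks_map, fromBlocks_mulVec,
    Sum.elim_inl]
  have h1 : ((-diagonal fun i => (l i : ℝ) * rt (d i)) : Matrix (Fin M) (Fin M) ℝ).map
      (fun x : ℝ => (x : ℂ)) = diagonal fun i => -((l i : ℂ) * rt (d i)) := by
    ext a b
    by_cases h : a = b
    · subst h
      simp
    · simp [h]
  rw [h1, Matrix.map_zero _ (by simp), zero_mulVec, zero_add, mulVec_diagonal]
  simp only [Function.comp_apply]
  ring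

theorem DZE_r (hd : ∀ i, 0 < d i) (hl : ∀ i, 0 < l i) (v : Fin M ⊕ Fin M → ℂ) (i : Fin M) :
    (DZ (ZE d l) *ᵥ v) (Sum.inr i) = -Complex.I * ((l i : ℂ) * rt (d i))⁻¹ * v (Sum.inl i) := by
  unfold DZ
  rw [JRE hd hl, smul_mulVec, Pi.smul_apply, smul_eq_mul, fromBlocks_map, fromBlocks_mulVec,
    Sum.elim_inr]
  have h1 : ((diagonal fun i => ((l i : ℝ) * rt (d i))⁻¹) : Matrix (Fin M) (Fin M) ℝ).map
      (fun x : ℝ => (x : ℂ)) = diagonal fun i => ((l i : ℂ) * rt (d i))⁻¹ := by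
    ext a b
    by_cases h : a = b
    · subst h
      simp
    · simp [h]
  rw [h1, Matrix.map_zero _ (by simp), zero_mulVec, add_zero, mulVec_diagonal]
  simp only [Function.comp_apply]
  ring

/-- The endomorphism. -/
def phE (d l : Fin M → ℚ) : Matrix (Fin M ⊕ Fin M) (Fin M ⊕ Fin M) ℚ :=
  fromBlocks 0 (-diagonal fun i => d i * l i) (diagonal fun i => (l i)⁻¹) 0

theorem phE_l (v : Fin M ⊕ Fin M → ℂ) (i : Fin M) :
    (qm (phE d l) *ᵥ v) (Sum.inl i) = -((d i : ℂ) * l i) * v (Sum.inr i) := by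
  have h2 : qm (phE d l) = fromBlocks 0 (diagonal fun i => -((d i : ℂ) * l i))
      (diagonal fun i => ((l i : ℂ))⁻¹) 0 := by
    ext a b
    rcases a with a | a <;> rcases b with b | b
    · simp [phE]
    · by_cases h : a = b
      · subst h
        simp [phE]
      · simp [phE, h]
    · by_cases h : a = b
      · subst h
        simp [phE]
      · simp [phE, h]
    · simp [phE]
  rw [h2, fromBlocks_mulVec, Sum.elim_inl, zero_mulVec, zero_add, mulVec_diagonal]
  simp only [Function.comp_apply]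

theorem phE_r (v : Fin M ⊕ Fin M → ℂ) (i : Fin M) :
    (qm (phE d l) *ᵥ v) (Sum.inr i) = ((l i : ℂ))⁻¹ * v (Sum.inl i) := by
  have h2 : qm (phE d l) = fromBlocks 0 (diagonal fun i => -((d i : ℂ) * l i))
      (diagonal fun i => ((l i : ℂ))⁻¹) 0 := by
    ext a b
    rcases a with a | a <;> rcases b with b | b
    · simp [phE]
    · by_cases h : a = b
      · subst h
        simp [phE]
      · simp [phE, h]
    · by_cases h : a = b
      · subst h
        simp [phE]
      · simp [phE, h]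
    · simp [phE]
  rw [h2, fromBlocks_mulVec, Sum.elim_inr, zero_mulVec, add_zero, mulVec_diagonal]
  simp only [Function.comp_apply]

theorem phE_sq {d : ℚ} (hl : ∀ i, 0 < l i) :
    phE (fun _ => d) l * phE (fun _ => d) l = -(d • (1 : Matrix (Fin M ⊕ Fin M) (Fin M ⊕ Fin M) ℚ)) := by
  have h1 : ∀ i, l i ≠ 0 := fun i => (hl i).ne'
  unfold phE
  rw [fromBlocks_multiply]
  ext a b
  rcases a with a | a <;> rcases b with b | b
  · by_cases h : a = b
    · subst h
      simp [h1]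
    · simp [h]
  · simp
  · simp
  · by_cases h : a = b
    · subst h
      simp
      field_simp [h1 a]
    · simp [h]

/-- The eigenspace. -/
def UE (l : Fin M → ℚ) (γ : ℂ) : Submodule ℂ (Fin M ⊕ Fin M → ℂ) where
  carrier := {v | ∀ i, v (Sum.inl i) = γ * l i * v (Sum.inr i)}
  add_mem' := by
    intro a b ha hb i
    rw [Pi.add_apply, Pi.add_apply, ha i, hb i]
    ring
  zero_mem' := by
    intro i
    simp
  smul_mem' := by
    intro c a ha i
    rw [Pi.smul_apply, Pi.smul_apply, ha i, smul_eq_mul, smul_eq_mul]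
    ring

theorem mem_UE {γ : ℂ} {v : Fin M ⊕ Fin M → ℂ} :
    v ∈ UE l γ ↔ ∀ i, v (Sum.inl i) = γ * l i * v (Sum.inr i) := Iff.rfl

/-- The coordinates on the eigenspace. -/
def eqvE (l : Fin M → ℚ) (γ : ℂ) : UE l γ ≃ₗ[ℂ] (Fin M → ℂ) where
  toFun v := fun i => v.1 (Sum.inr i)
  map_add' _ _ := rfl
  map_smul' _ _ := rfl
  invFun c := ⟨Sum.elim (fun i => γ * l i * c i) c, fun i => rfl⟩
  left_inv v := by
    apply Subtype.ext
    funext i
    rcases i with i | i
    · exact (v.2 i).symm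
    · rfl
  right_inv c := rfl

theorem UE_iff {d : ℚ} (hl : ∀ i, 0 < l i) {γ : ℂ} (hγ : γ * γ = -(d : ℂ)) {ε : ℚ}
    (hε : ε * ε = 1) (v : Fin M ⊕ Fin M → ℂ) :
    v ∈ UE l γ ↔ qm (ε • phE (fun _ => d) l) *ᵥ v = ((ε : ℂ) * γ) • v := by
  have hεc : (ε : ℂ) * ε = 1 := by exact_mod_cast congrArg (fun q : ℚ => (q : ℂ)) hε
  have hε0 : (ε : ℂ) ≠ 0 := left_ne_zero_of_mul_eq_one hεc
  have hlc : ∀ i, (l i : ℂ) ≠ 0 := fun i => by exact_mod_cast (hl i).ne'
  rw [mem_UE, qm_smul, smul_mulVec, mul_smul]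
  constructor
  · intro h
    congr 1
    funext i
    rcases i with i | i
    · rw [phE_l, Pi.smul_apply, smul_eq_mul, h i]
      linear_combination (-(l i : ℂ) * v (Sum.inr i)) * hγ
    · rw [phE_r, Pi.smul_apply, smul_eq_mul, h i]
      field_simp [hlc i]
  · intro h i
    have h1 := smul_right_injective _ hε0 h
    have h2 := congrFun h1 (Sum.inr i)
    rw [phE_r, Pi.smul_apply, smul_eq_mul] at h2
    have h3 : v (Sum.inl i) = (l i : ℂ) * ((l i : ℂ)⁻¹ * v (Sum.inl i)) := by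
      rw [← mul_assoc, mul_inv_cancel₀ (hlc i), one_mul]
    rw [h3, h2]
    ring

/-- The complex structure is a multiple of the endomorphism. -/
theorem DZE_phE {d : ℚ} (hd : 0 < d) (hl : ∀ i, 0 < l i) :
    DZ (ZE (fun _ => d) l) = (-Complex.I * ((rt d : ℂ))⁻¹) • qm (phE (fun _ => d) l) := by
  have hlc : ∀ i, (l i : ℂ) ≠ 0 := fun i => by exact_mod_cast (hl i).ne'
  have hr := rt_neC hd
  apply Matrix.toLin'.injective
  refine LinearMap.ext fun v => ?_
  rw [Matrix.toLin'_apply, Matrix.toLin'_apply, smul_mulVec]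
  funext i
  rcases i with i | i
  · rw [DZE_l (fun _ => hd) hl, Pi.smul_apply, smul_eq_mul, phE_l, ← rt_sqC hd]
    field_simp
  · rw [DZE_r (fun _ => hd) hl, Pi.smul_apply, smul_eq_mul, phE_r]
    field_simp

theorem phE_comm {d : ℚ} (hd : 0 < d) (hl : ∀ i, 0 < l i) :
    ∀ X ∈ LZ (ZE (fun _ : Fin M => d) l),
      X * qm (phE (fun _ => d) l) = qm (phE (fun _ => d) l) * X := by
  let C : Submodule ℂ (Matrix (Fin M ⊕ Fin M) (Fin M ⊕ Fin M) ℂ) :=
    { carrier := {X | X * qm (phE (fun _ => d) l) = qm (phE (fun _ => d) l) * X}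
      add_mem' := fun {X Y} hX hY => by
        change (X + Y) * _ = _ * (X + Y)
        rw [Matrix.add_mul, Matrix.mul_add, show X * _ = _ from hX, show Y * _ = _ from hY]
      zero_mem' := by
        change 0 * _ = _ * 0
        rw [Matrix.zero_mul, Matrix.mul_zero]
      smul_mem' := fun c X hX => by
        change (c • X) * _ = _ * (c • X)
        rw [Matrix.smul_mul, Matrix.mul_smul, show X * _ = _ from hX] }
  have hC : LZ (ZE (fun _ : Fin M => d) l) ≤ C := by
    refine LZ_le (fun σ => ?_) (fun A hA B hB => ?_)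
    · change DS _ σ * _ = _ * DS _ σ
      have h1 : DS (ZE (fun _ : Fin M => d) l) σ = σ (-Complex.I * ((rt d : ℂ))⁻¹) •
          qm (phE (fun _ => d) l) := by
        unfold DS
        rw [DZE_phE hd hl]
        ext i j
        simp [Matrix.map_apply]
      rw [h1, Matrix.smul_mul, Matrix.mul_smul]
    · change (A * B - B * A) * _ = _ * (A * B - B * A)
      have hA' : A * _ = _ * A := hA
      have hB' : B * _ = _ * B := hB
      rw [Matrix.sub_mul, Matrix.mul_sub, Matrix.mul_assoc A B, hB', ← Matrix.mul_assoc A, hA',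
        Matrix.mul_assoc B A, hA', ← Matrix.mul_assoc B, hB', Matrix.mul_assoc, Matrix.mul_assoc]
  exact fun X hX => hC hX

theorem kwE {d : ℚ} (hd : 0 < d) (hl : ∀ i, 0 < l i) {γ : ℂ} (hγ : γ * γ = -(d : ℂ)) {ε : ℚ}
    (hε : ε * ε = 1) :
    KW (ZE (fun _ : Fin M => d) l) (UE l γ) (ε • phE (fun _ => d) l) ((ε : ℂ) * γ) d where
  dim := by
    rw [(eqvE l γ).finrank_eq, finrank_fintype_fun_eq_card, Fintype.card_fin]
  comm X hX := by
    rw [qm_smul, Matrix.mul_smul, Matrix.smul_mul, phE_comm hd hl X hX]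
  pos := hd
  sq := by
    rw [Matrix.smul_mul, Matrix.mul_smul, smul_smul, hε, one_smul, phE_sq hl]
  al := by
    have hεc : (ε : ℂ) * ε = 1 := by exact_mod_cast congrArg (fun q : ℚ => (q : ℂ)) hε
    linear_combination (ε : ℂ) * ε * hγ - (d : ℂ) * hεc
  mem v := UE_iff hl hγ hε v
  isot u hu v hv := by
    rw [om_apply]
    unfold Om
    rw [fromBlocks_mulVec]
    simp only [zero_mulVec, zero_add, add_zero, one_mulVec, neg_mulVec]
    have h1 : u = Sum.elim (u ∘ Sum.inl) (u ∘ Sum.inr) := (Sum.elim_comp_inl_inr u).symm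
    rw [h1, sumElim_dotProduct_sumElim, dotProduct_neg, ← sub_eq_add_neg, sub_eq_zero]
    unfold dotProduct
    refine Finset.sum_congr rfl fun i _ => ?_
    simp only [Function.comp_apply]
    rw [hu i, hv i]
    ring

theorem DZE_UE {d : ℚ} (hd : 0 < d) (hl : ∀ i, 0 < l i) {s : ℤ}
    {v : Fin M ⊕ Fin M → ℂ} (hv : v ∈ UE l ((s : ℂ) * (Complex.I * rt d))) (hs : s * s = 1) :
    DZ (ZE (fun _ => d) l) *ᵥ v = (s : ℂ) • v := by
  have hsc : (s : ℂ) * s = 1 := by exact_mod_cast congrArg (fun q : ℤ => (q : ℂ)) hs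
  have hγ : ((s : ℂ) * (Complex.I * rt d)) * ((s : ℂ) * (Complex.I * rt d)) = -(d : ℂ) := by
    have h1 := rt_sqC hd
    linear_combination (Complex.I * Complex.I * ((rt d : ℂ) * rt d)) * hsc +
      (d : ℂ) * Complex.I_mul_I + (Complex.I * Complex.I) * h1
  have h1 := (UE_iff hl hγ (ε := 1) (by norm_num) v).1 hv
  rw [one_smul, Rat.cast_one, one_mul] at h1
  rw [DZE_phE hd hl, smul_mulVec, h1, smul_smul]
  congr 1
  have hr := rt_neC hd
  field_simp
  linear_combination (-(s : ℂ)) * Complex.I_sq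

theorem trE {d : ℚ} (hd : 0 < d) (hl : ∀ i, 0 < l i) {s : ℤ} (hs : s = 1 ∨ s = -1) :
    tr (ZE (fun _ : Fin M => d) l) (UE l ((s : ℂ) * (Complex.I * rt d))) = s * M := by
  have hss : s * s = 1 := by rcases hs with h | h <;> rw [h] <;> norm_num
  have hfr : finrank ℂ (UE l ((s : ℂ) * (Complex.I * rt d))) = M := by
    rw [(eqvE l _).finrank_eq, finrank_fintype_fun_eq_card, Fintype.card_fin]
  have key : ∀ c : ℂ, (c = s → UE l ((s : ℂ) * (Complex.I * rt d)) ⊓
      eig (ZE (fun _ : Fin M => d) l) c = UE l ((s : ℂ) * (Complex.I * rt d))) ∧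
      (c ≠ s → UE l ((s : ℂ) * (Complex.I * rt d)) ⊓ eig (ZE (fun _ : Fin M => d) l) c = ⊥) := by
    intro c
    constructor
    · rintro rfl
      rw [inf_eq_left]
      intro v hv
      exact DZE_UE hd hl hv hss
    · intro hc
      rw [eq_bot_iff]
      rintro v ⟨hv, hv'⟩
      rw [SetLike.mem_coe, mem_eig, DZE_UE hd hl hv hss] at hv'
      rw [Submodule.mem_bot]
      by_contra h0
      have h1 : ((s : ℂ) - c) • v = 0 := by rw [sub_smul, hv', sub_self]
      rcases smul_eq_zero.1 h1 with h2 | h2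
      · exact hc (sub_eq_zero.1 h2).symm
      · exact h0 h2
  unfold tr pd qd
  rcases hs with rfl | rfl
  · rw [(key 1).1 (by norm_num), (key (-1)).2 (by norm_num), finrank_bot, hfr]
    push_cast
    ring
  · rw [(key 1).2 (by norm_num), (key (-1)).1 (by norm_num), finrank_bot, hfr]
    push_cast
    ring

end

end Pool.Agent.R915
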