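import Mathlib
import Pool.Agent.R915.K2

/-!
# Determinants and discriminants for products with powers of elliptic curves
-/

set_option linter.unusedSectionVars false

namespace Pool.Agent.R915

open Matrix Module Pool.Agent.W437.HC Pool.Agent.W437.HD Pool.Agent.TH504.CB Pool.Agent.Y90
open Pool.Agent.W548.Odd hiding cv
open Pool.Agent.H204R3.CM (IsHodge)
open Pool.Agent.W437.HP (cK cK_mul cK_one)
open scoped ComplexOrder

noncomputable section

variable {M : ℕ} {l : Fin M → ℚ}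

/-- The basis of the eigenspace. -/
def basE (l : Fin M → ℚ) (γ : ℂ) : Basis (Fin M) ℂ (UE l γ) := Basis.ofEquivFun (eqvE l γ)

theorem basE_repr (γ : ℂ) (v : UE l γ) (i : Fin M) :
    (basE l γ).repr v i = (v : Fin M ⊕ Fin M → ℂ) (Sum.inr i) := by
  unfold basE
  rw [Basis.ofEquivFun_repr_apply]
  rfl

section coord

variable {d : ℚ} (hd : 0 < d) (hl : ∀ i, 0 < l i) {γ : ℂ} (hγ : γ * γ = -(d : ℂ)) {ε : ℚ}
  (hε : ε * ε = 1)

theorem pUE (w : Fin M ⊕ Fin M → ℂ) (i : Fin M) :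
    ((kwE hd hl hγ hε).pU w : Fin M ⊕ Fin M → ℂ) (Sum.inr i) =
      (2 * γ)⁻¹ * ((l i : ℂ)⁻¹ * w (Sum.inl i) + γ * w (Sum.inr i)) := by
  have hεc : (ε : ℂ) * ε = 1 := by exact_mod_cast congrArg (fun q : ℚ => (q : ℂ)) hε
  have hε0 : (ε : ℂ) ≠ 0 := left_ne_zero_of_mul_eq_one hεc
  rw [KW.pU_coe, pj_apply, qm_smul, smul_mulVec, Pi.smul_apply, Pi.add_apply, Pi.smul_apply,
    Pi.smul_apply, phE_r, smul_eq_mul, smul_eq_mul, smul_eq_mul, mul_inv, mul_inv, mul_inv]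
  have h1 : (ε : ℂ)⁻¹ * ε = 1 := inv_mul_cancel₀ hε0
  linear_combination (2⁻¹ * γ⁻¹ * ((l i : ℂ)⁻¹ * w (Sum.inl i) + γ * w (Sum.inr i))) * h1

/-- The determinant form on vectors supported in the single factors. -/
theorem detE (w : Fin M → Fin M ⊕ Fin M → ℂ)
    (hw : ∀ y i, i ≠ y → w y (Sum.inl i) = 0 ∧ w y (Sum.inr i) = 0) :
    (basE l γ).det (fun y => (kwE hd hl hγ hε).pU (w y)) =
      ∏ y, ((2 * γ)⁻¹ * ((l y : ℂ)⁻¹ * w y (Sum.inl y) + γ * w y (Sum.inr y))) := by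
  rw [Basis.det_apply]
  have h1 : (basE l γ).toMatrix (fun y => (kwE hd hl hγ hε).pU (w y)) =
      diagonal fun y => ((2 * γ)⁻¹ * ((l y : ℂ)⁻¹ * w y (Sum.inl y) + γ * w y (Sum.inr y))) := by
    ext i y
    rw [Basis.toMatrix_apply, basE_repr, pUE hd hl hγ hε]
    by_cases h : i = y
    · subst h
      rw [diagonal_apply_eq]
    · rw [diagonal_apply_ne _ h, (hw y i h).1, (hw y i h).2]
      ring
  rw [h1, det_diagonal]

include hd hγ in
theorem ga_ne : γ ≠ 0 := by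
  rintro rfl
  rw [mul_zero, eq_comm, neg_eq_zero] at hγ
  exact hd.ne' (by exact_mod_cast hγ)

/-- The explicit vectors. -/
def xE (M : ℕ) : Fin M → (Fin M ⊕ Fin M → ℚ) := fun i => Pi.single (Sum.inl i) 1

include hd hl hγ hε in
theorem exists_bE : ∃ b : Basis (Fin M) ℂ (UE l γ),
    ∀ j, b j = (kwE hd hl hγ hε).pU (cv (xE M j)) := by
  have h0 := ga_ne hd hγ
  have hlc : ∀ i, (l i : ℂ) ≠ 0 := fun i => by exact_mod_cast (hl i).ne'
  refine ⟨(basE l γ).isUnitSMul (w := fun i => (2 * γ)⁻¹ * (l i : ℂ)⁻¹) fun i =>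
    IsUnit.mk0 _ (mul_ne_zero (inv_ne_zero (mul_ne_zero two_ne_zero h0))
      (inv_ne_zero (hlc i))), fun j => ?_⟩
  rw [Basis.isUnitSMul_apply]
  apply (basE l γ).repr.injective
  ext i
  rw [map_smul, Basis.repr_self, basE_repr, pUE hd hl hγ hε, Finsupp.smul_apply, smul_eq_mul,
    Finsupp.single_apply]
  unfold xE
  rw [single_cv, Pi.single_apply, Pi.single_apply]
  by_cases h : j = i
  · subst h
    simp
  · have h' : ¬i = j := fun h1 => h h1.symm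
    simp [h, h']

theorem rE_apply (v w : Fin M ⊕ Fin M → ℚ) : rE M v w =
    -(∑ i, v (Sum.inl i) * w (Sum.inr i)) + ∑ i, v (Sum.inr i) * w (Sum.inl i) := by
  unfold rE Om
  have h1 : v = Sum.elim (v ∘ Sum.inl) (v ∘ Sum.inr) := (Sum.elim_comp_inl_inr v).symm
  conv_lhs => rw [h1]
  rw [neg_mulVec, fromBlocks_mulVec]
  simp only [zero_mulVec, zero_add, add_zero, one_mulVec, neg_mulVec]
  rw [dotProduct_neg, sumElim_dotProduct_sumElim, dotProduct_neg, neg_add, neg_neg]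
  rfl

/-- The Gram matrix of the explicit vectors. -/
theorem gramE : (Matrix.of fun i j => ((rE M (xE M i) ((ε • phE (fun _ => d) l) *ᵥ xE M j) : ℚ) : ℂ) +
      ((ε : ℂ) * γ) * ((rE M (xE M i) (xE M j) : ℚ) : ℂ)).det = ((∏ i, (-ε * (l i)⁻¹) : ℚ) : ℂ) := by
  have h1 : (Matrix.of fun i j => ((rE M (xE M i) ((ε • phE (fun _ => d) l) *ᵥ xE M j) : ℚ) : ℂ) +
      ((ε : ℂ) * γ) * ((rE M (xE M i) (xE M j) : ℚ) : ℂ)) =
      diagonal fun i => ((-ε * (l i)⁻¹ : ℚ) : ℂ) := by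
    ext i j
    rw [Matrix.of_apply, rE_apply, rE_apply]
    have h2 : ∀ k, xE M i (Sum.inr k) = 0 := fun k => by simp [xE]
    have h3 : ∀ k, xE M j (Sum.inr k) = 0 := fun k => by simp [xE]
    have h4 : ∀ k, ((ε • phE (fun _ => d) l) *ᵥ xE M j) (Sum.inr k) =
        ε * ((l k)⁻¹ * xE M j (Sum.inl k)) := by
      intro k
      unfold phE
      rw [smul_mulVec, Pi.smul_apply, smul_eq_mul, fromBlocks_mulVec, Sum.elim_inr, zero_mulVec,
        add_zero, mulVec_diagonal]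
      rfl
    simp only [h2, h3, h4, zero_mul, mul_zero, Finset.sum_const_zero, add_zero, neg_zero,
      Rat.cast_zero]
    have h5 : ∀ k, xE M i (Sum.inl k) = if k = i then 1 else 0 := fun k => by
      simp [xE, Pi.single_apply]
    have h6 : ∀ k, xE M j (Sum.inl k) = if k = j then 1 else 0 := fun k => by
      simp [xE, Pi.single_apply]
    simp only [h5, h6, ite_mul, one_mul, zero_mul, Finset.sum_ite_eq', Finset.mem_univ, if_true]
    by_cases h : i = j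
    · subst h
      rw [diagonal_apply_eq, if_pos rfl]
      push_cast
      ring
    · rw [diagonal_apply_ne _ h, if_neg h]
      push_cast
      ring
  rw [h1, det_diagonal]
  push_cast
  rfl

end coord

section disc

variable {a₁ k : ℕ} {Z₁ : Matrix (Fin a₁) (Fin a₁) ℂ} (h₁ : PM Z₁)
  {U₁ : Submodule ℂ (Fin a₁ ⊕ Fin a₁ → ℂ)} {φ₁ : Matrix (Fin a₁ ⊕ Fin a₁) (Fin a₁ ⊕ Fin a₁) ℚ}
  {d : ℚ}

/-- The discriminant of the product is trivial after scaling one of the elliptic curves. -/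
theorem exists_disc (hd : 0 < d) {ε : ℚ} {s : ℤ} (hε : ε = 1 ∨ ε = -1) (hs : s = 1 ∨ s = -1)
    {γ : ℂ} (hγd : γ = (s : ℂ) * (Complex.I * rt d))
    (k₁ : KW Z₁ U₁ φ₁ ((ε : ℂ) * γ) d) (hk : 0 < k)
    (hsum : a₁ + k = 6) (ht : tr Z₁ U₁ + s * k = 0) :
    ∃ (l : Fin k → ℚ) (hl : ∀ i, 0 < l i),
      HasTrivialDisc (AVP h₁ (pmE (fun _ => hd) hl)) d
        (Matrix.toLin' (PH φ₁ (ε • phE (fun _ => d) l))) := by
  have hεε : ε * ε = 1 := by rcases hε with h | h <;> rw [h] <;> norm_num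
  have hss : s * s = 1 := by rcases hs with h | h <;> rw [h] <;> norm_num
  have hsc : (s : ℂ) * s = 1 := by exact_mod_cast congrArg (fun q : ℤ => (q : ℂ)) hss
  have hγ : γ * γ = -(d : ℂ) := by
    have h1 := rt_sqC hd
    rw [hγd]
    linear_combination (Complex.I * Complex.I * ((rt d : ℂ) * rt d)) * hsc +
      (d : ℂ) * Complex.I_mul_I + (Complex.I * Complex.I) * h1
  obtain ⟨x₁, r₁, P₁, hP₁, hr₁, g₁⟩ := k₁.gram h₁
  -- the scaling
  let i0 : Fin k := ⟨0, hk⟩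
  -- the sign
  have hl1 : ∀ i : Fin k, (0 : ℚ) < (fun _ => 1) i := fun _ => one_pos
  obtain ⟨b, hb⟩ := exists_bE (l := fun _ : Fin k => 1) hd hl1 hγ hεε
  obtain ⟨r₂, P₂, hP₂, hr₂, g₂⟩ := (kwE hd hl1 hγ hεε).gram' (pmE (fun _ => hd) hl1) _ b hb
  rw [gramE] at hr₂
  have hr₂' : r₂ = ∏ _i : Fin k, (-ε * (1 : ℚ)⁻¹) := by exact_mod_cast hr₂.symm
  have htr := trE (M := k) (l := fun _ => 1) hd hl1 hs
  rw [← hγd] at htr
  have hq : (qd Z₁ U₁ + qd (ZE (fun _ => d) (fun _ : Fin k => 1)) (UE (fun _ => 1) γ)) = 3 := by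
    have e1 := pd_add_qd h₁ k₁.stab
    have e2 := pd_add_qd (pmE (fun _ => hd) hl1) (kwE hd hl1 hγ hεε).stab
    rw [k₁.dim] at e1
    rw [(kwE hd hl1 hγ hεε).dim] at e2
    rw [← htr] at ht
    unfold tr at ht
    omega
  have hneg : r₁ * r₂ < 0 := by
    have e1 : -((r₁ : ℂ) * r₂) = (4 * d) ^ 3 * (P₁ * P₂) := by
      have e2 : (2 * Complex.I * ((ε : ℂ) * γ)) ^ a₁ * (2 * Complex.I * ((ε : ℂ) * γ)) ^ k =
          (4 * (d : ℂ)) ^ 3 := by
        have hεc : (ε : ℂ) * ε = 1 := by exact_mod_cast congrArg (fun q : ℚ => (q : ℂ)) hεε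
        have e3 : (2 * Complex.I * ((ε : ℂ) * γ)) ^ 2 = 4 * (d : ℂ) := by
          linear_combination 4 * (ε * ε * γ * γ) * Complex.I_mul_I - 4 * (ε * ε) * hγ +
            4 * (d : ℂ) * hεc
        rw [← pow_add, hsum, show 6 = 2 * 3 from rfl, pow_mul, e3]
      have e3 : ((r₁ : ℂ) * (-1) ^ qd Z₁ U₁) * ((r₂ : ℂ) *
          (-1) ^ qd (ZE (fun _ => d) (fun _ : Fin k => 1)) (UE (fun _ => 1) γ)) =
          ((2 * Complex.I * ((ε : ℂ) * γ)) ^ a₁ * (2 * Complex.I * ((ε : ℂ) * γ)) ^ k) *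
            (P₁ * P₂) := by
        rw [g₁, g₂]
        ring
      rw [e2] at e3
      rw [← e3]
      have e4 : (-1 : ℂ) ^ qd Z₁ U₁ *
          (-1) ^ qd (ZE (fun _ => d) (fun _ : Fin k => 1)) (UE (fun _ => 1) γ) = -1 := by
        rw [← pow_add, hq]
        norm_num
      linear_combination (-(r₁ : ℂ) * r₂) * e4
    have e2 : -((r₁ : ℝ) * r₂) = (4 * d) ^ 3 * (P₁ * P₂) := by exact_mod_cast e1
    have e3 : (0 : ℝ) < (4 * d) ^ 3 * (P₁ * P₂) := by
      have hd' : (0 : ℝ) < d := by exact_mod_cast hd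
      positivity
    rw [← e2] at e3
    have e4 : (r₁ : ℝ) * r₂ < 0 := by linarith
    exact_mod_cast e4
  let l : Fin k → ℚ := Function.update (fun _ => 1) i0 (-(r₁ * r₂))
  have hl : ∀ i, 0 < l i := by
    intro i
    by_cases h : i = i0
    · subst h
      change 0 < Function.update (fun _ => (1 : ℚ)) i0 (-(r₁ * r₂)) i0
      rw [Function.update_self]
      linarith
    · change 0 < Function.update (fun _ => (1 : ℚ)) i0 (-(r₁ * r₂)) i
      rw [Function.update_of_ne h]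
      exact one_pos
  have hprod : ∏ i, (-ε * (l i)⁻¹) = r₂ * (-(r₁ * r₂))⁻¹ := by
    rw [Finset.prod_mul_distrib, hr₂', Finset.prod_mul_distrib]
    have e1 : ∏ i, (l i)⁻¹ = (-(r₁ * r₂))⁻¹ := by
      rw [Finset.prod_eq_single i0]
      · change (Function.update (fun _ => (1 : ℚ)) i0 (-(r₁ * r₂)) i0)⁻¹ = _
        rw [Function.update_self]
      · intro i _ hi
        change (Function.update (fun _ => (1 : ℚ)) i0 (-(r₁ * r₂)) i)⁻¹ = _
        rw [Function.update_of_ne hi, inv_one]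
      · intro h
        exact absurd (Finset.mem_univ _) h
    rw [e1, hr₂', Finset.prod_mul_distrib]
    simp
  refine ⟨l, hl, ?_⟩
  let e : Fin a₁ ⊕ Fin k ≃ Fin 6 := finSumFinEquiv.trans (finCongr hsum)
  let vv : Fin a₁ ⊕ Fin k → ((Fin a₁ ⊕ Fin a₁) ⊕ (Fin k ⊕ Fin k) → ℚ) :=
    Sum.elim (fun i => Sum.elim (x₁ i) 0) (fun i => Sum.elim 0 (xE k i))
  refine ⟨(ε : ℂ) * γ, fun v w => v ⬝ᵥ (MP a₁ k 1 *ᵥ w),
    fun i => vv (e.symm i), 1, 0, k₁.al, pol_prod h₁ (pmE (fun _ => hd) hl) one_pos,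
    fun v w => ?_, Or.inl one_ne_zero, ?_⟩
  · beta_reduce
    rw [toLin'_apply, toLin'_apply, E_split, E_split, PHQ_l, PHQ_r, PHQ_l, PHQ_r, k₁.skewQ h₁,
      (kwE hd hl hγ hεε).skewQ (pmE (fun _ => hd) hl)]
    ring
  · let M₁ : Matrix (Fin a₁) (Fin a₁) ℂ := Matrix.of fun i j =>
      ((rE a₁ (x₁ i) (φ₁ *ᵥ x₁ j) : ℚ) : ℂ) + ((ε : ℂ) * γ) * ((rE a₁ (x₁ i) (x₁ j) : ℚ) : ℂ)
    let M₂ : Matrix (Fin k) (Fin k) ℂ := Matrix.of fun i j =>
      ((rE k (xE k i) ((ε • phE (fun _ => d) l) *ᵥ xE k j) : ℚ) : ℂ) +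
        ((ε : ℂ) * γ) * ((rE k (xE k i) (xE k j) : ℚ) : ℂ)
    have hz : ∀ (n : ℕ) (w : Fin n ⊕ Fin n → ℚ), rE n w 0 = 0 := fun n w => by
      unfold rE
      rw [mulVec_zero, dotProduct_zero]
    have hz' : ∀ (n : ℕ) (w : Fin n ⊕ Fin n → ℚ), rE n 0 w = 0 := fun n w => by
      unfold rE
      rw [zero_dotProduct]
    have h0 : ∀ n : ℕ, (fun _ : Fin n ⊕ Fin n => (0 : ℚ)) = 0 := fun n => rfl
    have hM : (Matrix.of fun i j =>
        ((vv (e.symm i) ⬝ᵥ (MP a₁ k 1 *ᵥ (Matrix.toLin' (PH φ₁ (ε • phE (fun _ => d) l))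
          (vv (e.symm j)))) : ℚ) : ℂ) +
          ((ε : ℂ) * γ) * ((vv (e.symm i) ⬝ᵥ (MP a₁ k 1 *ᵥ vv (e.symm j)) : ℚ) : ℂ)) =
        (fromBlocks M₁ 0 0 M₂).submatrix e.symm e.symm := by
      ext i j
      rw [Matrix.of_apply, submatrix_apply, toLin'_apply, E_split, E_split, PHQ_l, PHQ_r]
      generalize e.symm i = i'
      generalize e.symm j = j'
      rcases i' with i' | i' <;> rcases j' with j' | j'
      · simp only [vv, Sum.elim_inl, Sum.elim_inr, fromBlocks_apply₁₁, Pi.zero_apply, h0, hz, hz',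
          mul_zero, add_zero]
        rfl
      · simp only [vv, Sum.elim_inl, Sum.elim_inr, fromBlocks_apply₁₂, Pi.zero_apply, h0, hz, hz',
          mul_zero, add_zero, mulVec_zero]
        simp
      · simp only [vv, Sum.elim_inl, Sum.elim_inr, fromBlocks_apply₂₁, Pi.zero_apply, h0, hz, hz',
          mul_zero, add_zero, mulVec_zero]
        simp
      · simp only [vv, Sum.elim_inl, Sum.elim_inr, fromBlocks_apply₂₂, Pi.zero_apply, h0, hz, hz',
          zero_add, one_mul]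
        rfl
    rw [hM, det_submatrix_equiv_self, det_fromBlocks_zero₂₁]
    rw [show M₁.det = r₁ from hr₁, show M₂.det = ((∏ i, (-ε * (l i)⁻¹) : ℚ) : ℂ) from gramE, hprod]
    have hne : r₁ * r₂ ≠ 0 := hneg.ne
    have h9 : r₁ * (r₂ * (-(r₁ * r₂))⁻¹) = -(1 ^ 2 + d * 0 ^ 2) := by
      rw [← mul_assoc, inv_neg, mul_neg, mul_inv_cancel₀ hne]
      ring
    exact_mod_cast congrArg (fun q : ℚ => (q : ℂ)) h9

end disc

end

end Pool.Agent.R915
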