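import Mathlib
import Pool.Agent.Y90.Defs

/-!
# The system of classes, and classes of simple abelian varieties

The definitions which are used in the statement of the result on the Hodge conjecture, besides those
of `Pool.Agent.Y90.Defs` (abelian varieties `AV`, homomorphisms `IsHom`, abelian subvarieties
`IsSub`, Weil classes `IsWeilClass`) and `Pool.Agent.H204R3.CM.Defs` (Hodge classes `IsHodge`).
-/

namespace Pool.Agent.R915

open Module Pool.Agent.Y90 Polynomial
open Pool.Agent.H204R3.CM (IsHodge)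

/-- The smallest system of classes `f ∈ H^κ(X, ℚ)`, for all complex abelian varieties `X`, which
contains the classes of degree zero, the Hodge classes of degree two and the Weil classes of
imaginary quadratic fields on abelian fourfolds and on abelian sixfolds of split Weil type, and which
is stable under linear combinations, cup products, pull-backs along homomorphisms and push-forwards
along the projections of products. -/
inductive Alg : (X : AV) → (κ : Type) → (X.H [⋀^κ]→ₗ[ℚ] ℚ) → Prop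
  /-- classes of degree zero -/
  | unit {X : AV} {κ : Type} [IsEmpty κ] (f : X.H [⋀^κ]→ₗ[ℚ] ℚ) : Alg X κ f
  /-- Hodge classes of degree two -/
  | divisor {X : AV} {κ : Type} (hκ : Nat.card κ = 2) (f : X.H [⋀^κ]→ₗ[ℚ] ℚ)
      (hf : IsHodge X.per f) : Alg X κ f
  /-- Weil classes on abelian varieties of dimension four or six -/
  | weil {X : AV} {n : ℕ} (hn : n = 4 ∨ n = 6) (f : X.H [⋀^Fin n]→ₗ[ℚ] ℚ)
      (hf : IsWeilClass X n f) : Alg X (Fin n) f
  | zero (X : AV) (κ : Type) : Alg X κ 0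
  | add {X : AV} {κ : Type} (f g : X.H [⋀^κ]→ₗ[ℚ] ℚ) (hf : Alg X κ f) (hg : Alg X κ g) :
      Alg X κ (f + g)
  | smul {X : AV} {κ : Type} (a : ℚ) (f : X.H [⋀^κ]→ₗ[ℚ] ℚ) (hf : Alg X κ f) : Alg X κ (a • f)
  /-- renaming of the variables -/
  | reindex {X : AV} {κ κ' : Type} (e : κ ≃ κ') (f : X.H [⋀^κ]→ₗ[ℚ] ℚ) (hf : Alg X κ f) :
      Alg X κ' (f.domDomCongr e)
  /-- cup products (up to a factor) -/
  | cup {X : AV} {κ κ' : Type} [Fintype κ] [DecidableEq κ] [Fintype κ'] [DecidableEq κ']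
      (f : X.H [⋀^κ]→ₗ[ℚ] ℚ) (g : X.H [⋀^κ']→ₗ[ℚ] ℚ) (hf : Alg X κ f) (hg : Alg X κ' g)
      (h : X.H [⋀^κ ⊕ κ']→ₗ[ℚ] ℚ)
      (hh : ∀ v : κ ⊕ κ' → X.H, h v = ∑ σ : Equiv.Perm (κ ⊕ κ'), ((Equiv.Perm.sign σ : ℤ) : ℚ) *
        (f (fun k => v (σ (Sum.inl k))) * g (fun k => v (σ (Sum.inr k))))) :
      Alg X (κ ⊕ κ') h
  /-- pull-backs along homomorphisms `X → Y` -/
  | pull {X Y : AV} (h : X.H →ₗ[ℚ] Y.H) (hh : IsHom X Y h) {κ : Type} (f : Y.H [⋀^κ]→ₗ[ℚ] ℚ)
      (hf : Alg Y κ f) : Alg X κ (f.compLinearMap h)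
  /-- push-forwards along the projection `P = X × Y → X`: the form is evaluated at a basis of
  `H_1(Y, ℚ)` -/
  | push {X Y P : AV} (i : X.H →ₗ[ℚ] P.H) (hi : IsHom X P i) (j : Y.H →ₗ[ℚ] P.H)
      (hj : IsHom Y P j) (hij : Function.Bijective fun w : X.H × Y.H => i w.1 + j w.2)
      {κ κ' : Type} (b : Basis κ' ℚ Y.H) (f : P.H [⋀^κ ⊕ κ']→ₗ[ℚ] ℚ) (hf : Alg P (κ ⊕ κ') f)
      (g : X.H [⋀^κ]→ₗ[ℚ] ℚ)
      (hg : ∀ v : κ → X.H, g v = f (Sum.elim (fun k => i (v k)) fun k => j (b k))) : Alg X κ g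

/-- Simple abelian varieties. -/
def IsSimple (Y : AV) : Prop :=
  (∃ y : Y.H, y ≠ 0) ∧ ∀ U : Submodule ℚ Y.H, IsSub Y U → U = ⊥ ∨ U = ⊤

/-- The abelian variety `Y` has complex multiplication: it has a commutative algebra of
endomorphisms of dimension `2 dim Y` over `ℚ`. -/
def HasCMult (Y : AV) : Prop :=
  ∃ A : Subalgebra ℚ (Module.End ℚ Y.H), (∀ a ∈ A, ∀ b ∈ A, a * b = b * a) ∧
    Module.finrank ℚ A = Module.finrank ℚ Y.H ∧ ∀ a ∈ A, IsHom Y Y a

/-- The first class of simple abelian varieties: the dimension is at most three, and there is no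
complex multiplication if it is two or three. -/
def SmallDim (Y : AV) : Prop :=
  finrank ℚ Y.H ≤ 6 ∧ (HasCMult Y → finrank ℚ Y.H = 2)

/-- The endomorphism algebra of `Y` is the imaginary quadratic field generated by `h = √-d`. -/
structure EndQuad (Y : AV) (d : ℚ) (h : Y.H →ₗ[ℚ] Y.H) : Prop where
  pos : 0 < d
  hom : IsHom Y Y h
  sq : ∀ w, h (h w) = -(d • w)
  max : ∀ g : Y.H →ₗ[ℚ] Y.H, IsHom Y Y g → ∃ a b : ℚ, g = a • LinearMap.id + b • h

/-- The second class: the endomorphism algebra is an imaginary quadratic field `ℚ(√-d)`, the two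
square roots `s` of `-d` are eigenvalues of multiplicity at most three of `√-d` on the tangent space
(so the dimension is at most six), and the discriminant is trivial if the dimension is six. -/
def QuadMult (Y : AV) : Prop :=
  ∃ (d : ℚ) (h : Y.H →ₗ[ℚ] Y.H), EndQuad Y d h ∧
    (∃ Ψ : Y.T →ₗ[ℂ] Y.T, (∀ v, Ψ (Y.per v) = Y.per (h v)) ∧
      ∀ s : ℂ, s * s = -(d : ℂ) → finrank ℂ (LinearMap.ker (Ψ - s • LinearMap.id)) ≤ 3) ∧
    (finrank ℚ Y.H = 12 → HasTrivialDisc Y d h)

/-- `a` is an endomorphism of `Y` with real eigenvalues, and each endomorphism of `Y` which commutes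
with `a` is a polynomial in `a`. For a simple abelian variety `Y`, such an `a` exists if and only if
the endomorphism algebra is of Albert type I (a totally real field) or II (a totally indefinite
quaternion algebra); `ℚ[a]` is then a totally real maximal subfield. -/
def RealMax (Y : AV) (a : Module.End ℚ Y.H) : Prop :=
  IsHom Y Y a ∧ (∀ z : ℂ, aeval z (minpoly ℚ a) = 0 → z.im = 0) ∧
    ∀ b : Module.End ℚ Y.H, IsHom Y Y b → b * a = a * b → b ∈ Algebra.adjoin ℚ {a}

/-- The third class: the Albert type I or II, of relative dimension at most three, that is, the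
dimension of `Y` is at most three times the degree of a totally real maximal subfield. -/
def RealMult (Y : AV) : Prop :=
  ∃ a, RealMax Y a ∧ finrank ℚ Y.H ≤ 6 * (minpoly ℚ a).natDegree

/-- The fourth class: the dimension is five and the endomorphism algebra is `ℚ`. -/
def FiveDim (Y : AV) : Prop :=
  finrank ℚ Y.H = 10 ∧ ∀ f : Module.End ℚ Y.H, IsHom Y Y f → ∃ c : ℚ, f = c • 1

/-- `𝔤` is a Lie algebra of endomorphisms of the vector space `H_1(Y, ℚ)` whose real span contains
the complex structure. The smallest such Lie algebra is the Lie algebra of the Hodge group of `Y`. -/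
def HodgeLie (Y : AV) (𝔤 : Submodule ℚ (Module.End ℚ Y.H)) : Prop :=
  (∀ a ∈ 𝔤, ∀ b ∈ 𝔤, a * b - b * a ∈ 𝔤) ∧
    ∃ (n : ℕ) (r : Fin n → ℝ) (a : Fin n → Module.End ℚ Y.H), (∀ i, a i ∈ 𝔤) ∧
      ∀ v, Complex.I • Y.per v = ∑ i, (r i : ℂ) • Y.per (a i v)

/-- The fifth class: the Albert type I or II, of any relative dimension, such that the Hodge group
is as large as the endomorphisms and the Hodge classes of degree two allow (that is, it is equal to
the Lefschetz group). -/
def FullHodge (Y : AV) : Prop :=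
  (∃ a, RealMax Y a) ∧ ∀ 𝔤, HodgeLie Y 𝔤 → ∀ s : Module.End ℚ Y.H,
    (∀ f : Module.End ℚ Y.H, IsHom Y Y f → s * f = f * s) →
    (∀ E : Y.H [⋀^Fin 2]→ₗ[ℚ] ℚ, IsHodge Y.per E → ∀ u v, E ![s u, v] + E ![u, s v] = 0) → s ∈ 𝔤

end Pool.Agent.R915
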