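import Mathlib
import Pool.Agent.R915.Stm

/-!
# Systems of classes on abelian varieties

A system of classes has the formal properties of the system of the algebraic classes on abelian
varieties.
-/

namespace Pool.Agent.R915

open Module Pool.Agent.Y90
open Pool.Agent.H204R3.CM (IsHodge)

/-- A system of classes `f ∈ H^κ(X, ℚ)`, for all complex abelian varieties `X` (`A X κ f` says that
`f` belongs to the system), which contains the classes of degree zero, the Hodge classes of degree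
two and the Weil classes of imaginary quadratic fields on abelian fourfolds and on abelian sixfolds
of split Weil type, and which is stable under linear combinations, cup products, pull-backs along
homomorphisms and push-forwards along the projections of products. By the theorems of Lefschetz and
Markman the algebraic classes (the rational linear combinations of the classes of algebraic cycles)
are such a system. -/
structure Sys where
  /-- the classes of the system -/
  A : (X : AV) → (κ : Type) → (X.H [⋀^κ]→ₗ[ℚ] ℚ) → Prop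
  /-- classes of degree zero -/
  unit : ∀ {X : AV} {κ : Type} [IsEmpty κ] (f : X.H [⋀^κ]→ₗ[ℚ] ℚ), A X κ f
  /-- Hodge classes of degree two -/
  divisor : ∀ {X : AV} {κ : Type} (_ : Nat.card κ = 2) (f : X.H [⋀^κ]→ₗ[ℚ] ℚ)
    (_ : IsHodge X.per f), A X κ f
  /-- Weil classes on abelian varieties of dimension four or six -/
  weil : ∀ {X : AV} {n : ℕ} (_ : n = 4 ∨ n = 6) (f : X.H [⋀^Fin n]→ₗ[ℚ] ℚ)
    (_ : IsWeilClass X n f), A X (Fin n) f
  zero : ∀ (X : AV) (κ : Type), A X κ 0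
  add : ∀ {X : AV} {κ : Type} (f g : X.H [⋀^κ]→ₗ[ℚ] ℚ) (_ : A X κ f) (_ : A X κ g), A X κ (f + g)
  smul : ∀ {X : AV} {κ : Type} (a : ℚ) (f : X.H [⋀^κ]→ₗ[ℚ] ℚ) (_ : A X κ f), A X κ (a • f)
  /-- renaming of the variables -/
  reindex : ∀ {X : AV} {κ κ' : Type} (e : κ ≃ κ') (f : X.H [⋀^κ]→ₗ[ℚ] ℚ) (_ : A X κ f),
    A X κ' (f.domDomCongr e)
  /-- cup products (up to a factor) -/
  cup : ∀ {X : AV} {κ κ' : Type} [Fintype κ] [DecidableEq κ] [Fintype κ'] [DecidableEq κ']
    (f : X.H [⋀^κ]→ₗ[ℚ] ℚ) (g : X.H [⋀^κ']→ₗ[ℚ] ℚ) (_ : A X κ f) (_ : A X κ' g)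
    (h : X.H [⋀^κ ⊕ κ']→ₗ[ℚ] ℚ)
    (_ : ∀ v : κ ⊕ κ' → X.H, h v = ∑ σ : Equiv.Perm (κ ⊕ κ'), ((Equiv.Perm.sign σ : ℤ) : ℚ) *
      (f (fun k => v (σ (Sum.inl k))) * g (fun k => v (σ (Sum.inr k))))), A X (κ ⊕ κ') h
  /-- pull-backs along homomorphisms `X → Y` -/
  pull : ∀ {X Y : AV} (h : X.H →ₗ[ℚ] Y.H) (_ : IsHom X Y h) {κ : Type} (f : Y.H [⋀^κ]→ₗ[ℚ] ℚ)
    (_ : A Y κ f), A X κ (f.compLinearMap h)
  /-- push-forwards along the projection `P = X × Y → X`: the form is evaluated at a basis of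
  `H_1(Y, ℚ)` -/
  push : ∀ {X Y P : AV} (i : X.H →ₗ[ℚ] P.H) (_ : IsHom X P i) (j : Y.H →ₗ[ℚ] P.H)
    (_ : IsHom Y P j) (_ : Function.Bijective fun w : X.H × Y.H => i w.1 + j w.2)
    {κ κ' : Type} (b : Basis κ' ℚ Y.H) (f : P.H [⋀^κ ⊕ κ']→ₗ[ℚ] ℚ) (_ : A P (κ ⊕ κ') f)
    (g : X.H [⋀^κ]→ₗ[ℚ] ℚ)
    (_ : ∀ v : κ → X.H, g v = f (Sum.elim (fun k => i (v k)) fun k => j (b k))), A X κ g

/-- The smallest system. -/
def algSys : Sys where
  A := Alg
  unit := fun f => Alg.unit f
  divisor := fun hκ f hf => Alg.divisor hκ f hf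
  weil := fun hn f hf => Alg.weil hn f hf
  zero := Alg.zero
  add := fun f g hf hg => Alg.add f g hf hg
  smul := fun a f hf => Alg.smul a f hf
  reindex := fun e f hf => Alg.reindex e f hf
  cup := fun f g hf hg h hh => Alg.cup f g hf hg h hh
  pull := fun h hh _ f hf => Alg.pull h hh f hf
  push := fun i hi j hj hij _ _ b f hf g hg => Alg.push i hi j hj hij b f hf g hg

end Pool.Agent.R915
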