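import Mathlib
import Pool.Agent.Y90.Wei8
import Pool.Agent.R915.Sys

/-!
# Systems of classes on abelian varieties stable under pull-back, push-forward and cup products
-/

set_option linter.unusedSectionVars false

namespace Pool.Agent.R915

open Matrix Module Pool.Agent.W437.HC Pool.Agent.W437.HD Pool.Agent.TH504.CB Pool.Agent.Y90
open Pool.Agent.W548.Odd hiding cv
open Pool.Agent.H204R3.CM (IsHodge)
open Pool.Agent.W437.HP (cK cK_mul cK_one)

noncomputable section

section ra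

variable (𝒜 : Sys) (X : AV)

/-- The complex span of the system. -/
def RA (κ : Type) : Submodule ℂ ((κ → X.H) → ℂ) :=
  Submodule.span ℂ {g | ∃ r, 𝒜.A X κ r ∧ g = fun v => ((r v : ℚ) : ℂ)}

variable {𝒜} {X}

theorem RA_of {κ : Type} {r : X.H [⋀^κ]→ₗ[ℚ] ℚ} (h : 𝒜.A X κ r) :
    (fun v => ((r v : ℚ) : ℂ)) ∈ RA 𝒜 X κ := Submodule.subset_span ⟨r, h, rfl⟩

theorem RA_reindex {κ κ' : Type} (e : κ ≃ κ') {g : (κ → X.H) → ℂ} (hg : g ∈ RA 𝒜 X κ) :
    (fun v => g (fun k => v (e k))) ∈ RA 𝒜 X κ' := by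
  unfold RA at hg
  induction hg using Submodule.span_induction with
  | mem g hg =>
    obtain ⟨r, hr, rfl⟩ := hg
    exact RA_of (𝒜.reindex e _ hr)
  | zero => exact Submodule.zero_mem _
  | add x y _ _ hx hy => exact Submodule.add_mem _ hx hy
  | smul c x _ hx => exact Submodule.smul_mem _ c hx

theorem RA_pull {X Y : AV} (h : X.H →ₗ[ℚ] Y.H) (hh : IsHom X Y h) {κ : Type}
    {g : (κ → Y.H) → ℂ} (hg : g ∈ RA 𝒜 Y κ) : (fun v => g (fun k => h (v k))) ∈ RA 𝒜 X κ := by
  unfold RA at hg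
  induction hg using Submodule.span_induction with
  | mem g hg =>
    obtain ⟨r, hr, rfl⟩ := hg
    exact RA_of (𝒜.pull h hh _ hr)
  | zero => exact Submodule.zero_mem _
  | add x y _ _ hx hy => exact Submodule.add_mem _ hx hy
  | smul c x _ hx => exact Submodule.smul_mem _ c hx

/-- The restriction of a form to one factor of a product, the other variables being fixed. -/
def restr {X Y P : AV} (i : X.H →ₗ[ℚ] P.H) (j : Y.H →ₗ[ℚ] P.H) {κ κ' : Type} (b : κ' → Y.H)
    (f : P.H [⋀^κ ⊕ κ']→ₗ[ℚ] ℚ) : X.H [⋀^κ]→ₗ[ℚ] ℚ where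
  toFun v := f (Sum.elim (fun k => i (v k)) fun k => j (b k))
  map_update_add' := by
    intro _ v k x y
    let _ : DecidableEq κ' := Classical.decEq κ'
    have h1 : ∀ z, (Sum.elim (fun l => i (Function.update v k z l)) fun l => j (b l)) =
        Function.update (Sum.elim (fun l => i (v l)) fun l => j (b l)) (Sum.inl k) (i z) := by
      intro z
      funext l
      rcases l with l | l
      · by_cases hl : l = k
        · subst hl
          simp
        · rw [Sum.elim_inl, Function.update_of_ne hl,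
            Function.update_of_ne (fun h => hl (Sum.inl_injective h)), Sum.elim_inl]
      · rw [Sum.elim_inr, Function.update_of_ne (by simp), Sum.elim_inr]
    rw [h1, h1, h1, map_add, AlternatingMap.map_update_add]
  map_update_smul' := by
    intro _ v k c x
    let _ : DecidableEq κ' := Classical.decEq κ'
    have h1 : ∀ z, (Sum.elim (fun l => i (Function.update v k z l)) fun l => j (b l)) =
        Function.update (Sum.elim (fun l => i (v l)) fun l => j (b l)) (Sum.inl k) (i z) := by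
      intro z
      funext l
      rcases l with l | l
      · by_cases hl : l = k
        · subst hl
          simp
        · rw [Sum.elim_inl, Function.update_of_ne hl,
            Function.update_of_ne (fun h => hl (Sum.inl_injective h)), Sum.elim_inl]
      · rw [Sum.elim_inr, Function.update_of_ne (by simp), Sum.elim_inr]
    rw [h1, h1, map_smul, AlternatingMap.map_update_smul]
  map_eq_zero_of_eq' := by
    intro v k l hkl hne
    refine f.map_eq_zero_of_eq _ (i := Sum.inl k) (j := Sum.inl l) ?_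
      (fun h => hne (Sum.inl_injective h))
    rw [Sum.elim_inl, Sum.elim_inl, hkl]

theorem restr_apply {X Y P : AV} (i : X.H →ₗ[ℚ] P.H) (j : Y.H →ₗ[ℚ] P.H) {κ κ' : Type}
    (b : κ' → Y.H) (f : P.H [⋀^κ ⊕ κ']→ₗ[ℚ] ℚ) (v : κ → X.H) :
    restr i j b f v = f (Sum.elim (fun k => i (v k)) fun k => j (b k)) := rfl

theorem RA_push {X Y P : AV} (i : X.H →ₗ[ℚ] P.H) (hi : IsHom X P i) (j : Y.H →ₗ[ℚ] P.H)
    (hj : IsHom Y P j) (hij : Function.Bijective fun w : X.H × Y.H => i w.1 + j w.2)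
    {κ κ' : Type} (b : Basis κ' ℚ Y.H) {g : (κ ⊕ κ' → P.H) → ℂ} (hg : g ∈ RA 𝒜 P (κ ⊕ κ')) :
    (fun v : κ → X.H => g (Sum.elim (fun k => i (v k)) fun k => j (b k))) ∈ RA 𝒜 X κ := by
  unfold RA at hg
  induction hg using Submodule.span_induction with
  | mem g hg =>
    obtain ⟨r, hr, rfl⟩ := hg
    have h1 := RA_of (𝒜.push i hi j hj hij b r hr (restr i j b r) fun v => rfl)
    exact h1
  | zero => exact Submodule.zero_mem _
  | add x y _ _ hx hy => exact Submodule.add_mem _ hx hy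
  | smul c x _ hx => exact Submodule.smul_mem _ c hx

theorem RA_mul {κ κ' : Type} [Fintype κ] [DecidableEq κ] [Fintype κ'] [DecidableEq κ']
    {g : (κ → X.H) → ℂ} {g' : (κ' → X.H) → ℂ} (hg : g ∈ RA 𝒜 X κ) (hg' : g' ∈ RA 𝒜 X κ') :
    mulA g g' ∈ RA 𝒜 X (κ ⊕ κ') := by
  unfold RA at hg
  induction hg using Submodule.span_induction with
  | mem g hg =>
    obtain ⟨r, hr, rfl⟩ := hg
    unfold RA at hg'
    induction hg' using Submodule.span_induction with
    | mem g' hg' =>
      obtain ⟨r', hr', rfl⟩ := hg'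
      let h : X.H [⋀^κ ⊕ κ']→ₗ[ℚ] ℚ := MultilinearMap.alternatization
        (prd r.toMultilinearMap r'.toMultilinearMap)
      have hh : ∀ v : κ ⊕ κ' → X.H, h v = ∑ σ : Equiv.Perm (κ ⊕ κ'),
          ((Equiv.Perm.sign σ : ℤ) : ℚ) *
            (r (fun k => v (σ (Sum.inl k))) * r' (fun k => v (σ (Sum.inr k)))) := by
        intro v
        rw [MultilinearMap.alternatization_apply]
        refine Finset.sum_congr rfl fun σ _ => ?_
        rw [MultilinearMap.domDomCongr_apply, prd_apply, Units.smul_def, zsmul_eq_mul]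
        rfl
      have h1 := RA_of (𝒜.cup r r' hr hr' h hh)
      have h2 : (fun v => ((h v : ℚ) : ℂ)) =
          mulA (fun v => ((r v : ℚ) : ℂ)) (fun v => ((r' v : ℚ) : ℂ)) := by
        funext v
        rw [hh]
        unfold mulA
        push_cast
        rfl
      rwa [h2] at h1
    | zero =>
      have h2 : mulA (fun v => ((r v : ℚ) : ℂ)) (0 : (κ' → X.H) → ℂ) = 0 := by
        funext v
        simp [mulA]
      rw [h2]
      exact Submodule.zero_mem _
    | add x y _ _ hx hy =>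
      have h2 : mulA (fun v => ((r v : ℚ) : ℂ)) (x + y) = mulA (fun v => ((r v : ℚ) : ℂ)) x +
          mulA (fun v => ((r v : ℚ) : ℂ)) y := by
        funext v
        simp only [mulA, Pi.add_apply, mul_add, Finset.sum_add_distrib]
      rw [h2]
      exact Submodule.add_mem _ hx hy
    | smul c x _ hx =>
      have h2 : mulA (fun v => ((r v : ℚ) : ℂ)) (c • x) =
          c • mulA (fun v => ((r v : ℚ) : ℂ)) x := by
        funext v
        simp only [mulA, Pi.smul_apply, smul_eq_mul, Finset.mul_sum]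
        refine Finset.sum_congr rfl fun σ _ => by ring
      rw [h2]
      exact Submodule.smul_mem _ _ hx
  | zero =>
    have h2 : mulA (0 : (κ → X.H) → ℂ) g' = 0 := by
      funext v
      simp [mulA]
    rw [h2]
    exact Submodule.zero_mem _
  | add x y _ _ hx hy =>
    have h2 : mulA (x + y) g' = mulA x g' + mulA y g' := by
      funext v
      simp only [mulA, Pi.add_apply, add_mul, mul_add, Finset.sum_add_distrib]
    rw [h2]
    exact Submodule.add_mem _ hx hy
  | smul c x _ hx =>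
    have h2 : mulA (c • x) g' = c • mulA x g' := by
      funext v
      simp only [mulA, Pi.smul_apply, smul_eq_mul, Finset.mul_sum]
      refine Finset.sum_congr rfl fun σ _ => by ring
    rw [h2]
    exact Submodule.smul_mem _ _ hx

theorem RA_lam {κ : Type} {g : (κ → X.H) → ℂ} (hg : g ∈ RA 𝒜 X κ) :
    ∀ l : ℂ →ₗ[ℚ] ℚ, ∃ r, 𝒜.A X κ r ∧ ∀ v, l (g v) = r v := by
  unfold RA at hg
  induction hg using Submodule.span_induction with
  | mem g hg =>
    obtain ⟨r, hr, rfl⟩ := hg
    intro l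
    refine ⟨l 1 • r, 𝒜.smul _ _ hr, fun v => ?_⟩
    have h1 : ((r v : ℚ) : ℂ) = r v • (1 : ℂ) := by rw [Rat.smul_def, mul_one]
    beta_reduce
    rw [h1, map_smul, AlternatingMap.smul_apply, smul_eq_mul, smul_eq_mul, mul_comm]
  | zero =>
    intro l
    refine ⟨0, 𝒜.zero X κ, fun v => ?_⟩
    rw [Pi.zero_apply, map_zero]
    rfl
  | add x y _ _ hx hy =>
    intro l
    obtain ⟨r, hr, h1⟩ := hx l
    obtain ⟨r', hr', h2⟩ := hy l
    refine ⟨r + r', 𝒜.add _ _ hr hr', fun v => ?_⟩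
    rw [Pi.add_apply, map_add, h1, h2]
    rfl
  | smul c x _ hx =>
    intro l
    obtain ⟨r, hr, h1⟩ := hx (l.comp ((LinearMap.mulLeft ℂ c).restrictScalars ℚ))
    exact ⟨r, hr, h1⟩

/-- Rational forms in the complex span belong to the system. -/
theorem RA_descent {κ : Type} {f : X.H [⋀^κ]→ₗ[ℚ] ℚ}
    (hf : (fun v => ((f v : ℚ) : ℂ)) ∈ RA 𝒜 X κ) : 𝒜.A X κ f := by
  obtain ⟨l, hl⟩ := exists_lam
  obtain ⟨r, hr, h1⟩ := RA_lam hf l
  have h2 : r = f := by
    ext v
    rw [← h1]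
    have h3 : ((f v : ℚ) : ℂ) = f v • (1 : ℂ) := by rw [Rat.smul_def, mul_one]
    beta_reduce
    rw [h3, map_smul, hl, smul_eq_mul, mul_one]
  rw [← h2]
  exact hr

end ra

/-- The elements of the ring generated by divisors and Weil classes belong to the system. -/
theorem Sys.of_ring (𝒜 : Sys) {X : AV} {κ : Type} {f : X.H [⋀^κ]→ₗ[ℚ] ℚ} (hf : WeilRing X κ f) :
    𝒜.A X κ f := by
  induction hf with
  | unit f => exact 𝒜.unit f
  | divisor hκ f hf => exact 𝒜.divisor hκ f hf
  | weil hn f hf h hh => exact 𝒜.pull h hh _ (𝒜.weil hn f hf)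
  | zero κ => exact 𝒜.zero X κ
  | add f g _ _ h1 h2 => exact 𝒜.add f g h1 h2
  | smul a f _ h1 => exact 𝒜.smul a f h1
  | reindex e f _ h1 => exact 𝒜.reindex e f h1
  | cup f g _ _ h hh h1 h2 => exact 𝒜.cup f g h1 h2 h hh

section alt

variable (𝒜 : Sys) {B : Type} [Fintype B] [DecidableEq B] {T : Type} [AddCommGroup T] [Module ℂ T]
  [FiniteDimensional ℂ T] {per : (B → ℚ) →+ T} {J : Matrix B B ℝ} (hc : Cht per J)
  (hp : ∃ E : (B → ℚ) → (B → ℚ) → ℚ, IsPolarization per E)

/-- The system of the forms whose alternations belong to the complex span of the system. -/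
def NA (κ : Type) [Finite κ] : Submodule ℂ (MultilinearMap ℂ (fun _ : κ => B → ℂ) ℂ) where
  carrier := {F | ∀ (_ : Fintype κ) (_ : DecidableEq κ), altQ F ∈ RA 𝒜 (hc.av hp) κ}
  add_mem' := by
    intro F F' hF hF' i1 i2
    have h1 : altQ (F + F') = altQ F + altQ F' := by
      funext v
      simp only [altQ, _root_.add_apply, mul_add, Finset.sum_add_distrib, Pi.add_apply]
    rw [h1]
    exact Submodule.add_mem _ (hF i1 i2) (hF' i1 i2)
  zero_mem' := by
    intro i1 i2
    have h1 : altQ (0 : MultilinearMap ℂ (fun _ : κ => B → ℂ) ℂ) = 0 := by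
      funext v
      simp only [altQ, _root_.zero_apply, mul_zero, Finset.sum_const_zero, Pi.zero_apply]
    rw [h1]
    exact Submodule.zero_mem _
  smul_mem' := by
    intro c F hF i1 i2
    have h1 : altQ (c • F) = c • altQ F := by
      funext v
      simp only [altQ, _root_.smul_apply, smul_eq_mul, Pi.smul_apply, Finset.mul_sum]
      refine Finset.sum_congr rfl fun σ _ => by ring
    rw [h1]
    exact Submodule.smul_mem _ _ (hF i1 i2)

variable {κ κ' : Type} [Fintype κ] [DecidableEq κ] [Fintype κ'] [DecidableEq κ']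

theorem mulA_altQ' (φ : MultilinearMap ℂ (fun _ : κ => B → ℂ) ℂ)
    (φ' : MultilinearMap ℂ (fun _ : κ' => B → ℂ) ℂ) (v : κ ⊕ κ' → B → ℚ) :
    mulA (X := hc.av hp) (altQ φ) (altQ φ') v =
      ((Fintype.card (Equiv.Perm κ) : ℂ) * (Fintype.card (Equiv.Perm κ') : ℂ)) *
        ∑ σ : Equiv.Perm (κ ⊕ κ'), ((Equiv.Perm.sign σ : ℤ) : ℂ) *
          (φ (fun k => cv (v (σ (Sum.inl k)))) * φ' (fun k => cv (v (σ (Sum.inr k))))) := by
  have h1 : mulA (X := hc.av hp) (altQ φ) (altQ φ') v =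
      ∑ σ : Equiv.Perm (κ ⊕ κ'), ∑ ρ : Equiv.Perm κ, ∑ ρ' : Equiv.Perm κ',
        ((Equiv.Perm.sign σ : ℤ) : ℂ) * (((Equiv.Perm.sign ρ : ℤ) : ℂ) *
          ((Equiv.Perm.sign ρ' : ℤ) : ℂ)) * (φ (fun k => cv (v (σ (Sum.inl (ρ k))))) *
            φ' (fun k => cv (v (σ (Sum.inr (ρ' k)))))) := by
    unfold mulA altQ
    refine Finset.sum_congr rfl fun σ _ => ?_
    rw [Finset.sum_mul_sum, Finset.mul_sum]
    refine Finset.sum_congr rfl fun ρ _ => ?_
    rw [Finset.mul_sum]
    refine Finset.sum_congr rfl fun ρ' _ => ?_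
    ring
  rw [h1, Finset.sum_comm]
  have h2 : ∀ ρ : Equiv.Perm κ, ∑ σ : Equiv.Perm (κ ⊕ κ'), ∑ ρ' : Equiv.Perm κ',
        ((Equiv.Perm.sign σ : ℤ) : ℂ) * (((Equiv.Perm.sign ρ : ℤ) : ℂ) *
          ((Equiv.Perm.sign ρ' : ℤ) : ℂ)) * (φ (fun k => cv (v (σ (Sum.inl (ρ k))))) *
            φ' (fun k => cv (v (σ (Sum.inr (ρ' k)))))) =
      (Fintype.card (Equiv.Perm κ') : ℂ) *
        ∑ σ : Equiv.Perm (κ ⊕ κ'), ((Equiv.Perm.sign σ : ℤ) : ℂ) *
          (φ (fun k => cv (v (σ (Sum.inl k)))) * φ' (fun k => cv (v (σ (Sum.inr k))))) := by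
    intro ρ
    rw [Finset.sum_comm]
    have h3 : ∀ ρ' : Equiv.Perm κ', ∑ σ : Equiv.Perm (κ ⊕ κ'),
        ((Equiv.Perm.sign σ : ℤ) : ℂ) * (((Equiv.Perm.sign ρ : ℤ) : ℂ) *
          ((Equiv.Perm.sign ρ' : ℤ) : ℂ)) * (φ (fun k => cv (v (σ (Sum.inl (ρ k))))) *
            φ' (fun k => cv (v (σ (Sum.inr (ρ' k)))))) =
        ∑ σ : Equiv.Perm (κ ⊕ κ'), ((Equiv.Perm.sign σ : ℤ) : ℂ) *
          (φ (fun k => cv (v (σ (Sum.inl k)))) * φ' (fun k => cv (v (σ (Sum.inr k))))) := by
      intro ρ'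
      rw [← Equiv.sum_comp (Equiv.mulRight (Equiv.Perm.sumCongr ρ ρ'))
        (fun σ : Equiv.Perm (κ ⊕ κ') => ((Equiv.Perm.sign σ : ℤ) : ℂ) *
          (φ (fun k => cv (v (σ (Sum.inl k)))) * φ' (fun k => cv (v (σ (Sum.inr k))))))]
      refine Finset.sum_congr rfl fun σ _ => ?_
      have h4 : (Equiv.mulRight (Equiv.Perm.sumCongr ρ ρ')) σ = σ * Equiv.Perm.sumCongr ρ ρ' := rfl
      rw [h4, Equiv.Perm.sign_mul, Equiv.Perm.sign_sumCongr]
      push_cast
      rfl
    rw [Finset.sum_congr rfl fun ρ' _ => h3 ρ', Finset.sum_const, nsmul_eq_mul, Finset.card_univ]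
  rw [Finset.sum_congr rfl fun ρ _ => h2 ρ, Finset.sum_const, nsmul_eq_mul, Finset.card_univ]
  ring

theorem clo_NA : Clo (NA 𝒜 hc hp) := by
  constructor
  · intro κ _ _ F i1 i2
    have h1 : altQ F = F 0 • (fun _ => (((1 : ℚ)) : ℂ)) := by
      funext v
      unfold altQ
      rw [Fintype.sum_unique, Pi.smul_apply, smul_eq_mul]
      have h2 : (fun k => cv (v ((default : Equiv.Perm κ) k))) = (0 : κ → B → ℂ) := by
        funext k
        exact isEmptyElim k
      rw [h2, Subsingleton.elim (default : Equiv.Perm κ) 1, Equiv.Perm.sign_one]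
      push_cast
      ring
    rw [h1]
    refine Submodule.smul_mem _ _ ?_
    exact RA_of (X := hc.av hp) (𝒜.unit (AlternatingMap.constOfIsEmpty ℚ (hc.av hp).H κ 1))
  · intro κ κ' κ'' _ _ _ e φ φ' ψ hφ hφ' hψ i1 i2
    let j1 : Fintype κ := Fintype.ofFinite κ
    let j2 : Fintype κ' := Fintype.ofFinite κ'
    let k1 : DecidableEq κ := Classical.decEq κ
    let k2 : DecidableEq κ' := Classical.decEq κ'
    have h1 := RA_reindex e (RA_mul (hφ j1 k1) (hφ' j2 k2))
    have h2 : altQ ψ = ((Fintype.card (Equiv.Perm κ) : ℂ) *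
        (Fintype.card (Equiv.Perm κ') : ℂ))⁻¹ •
        fun v : κ'' → (hc.av hp).H => mulA (X := hc.av hp) (altQ φ) (altQ φ')
          (fun k => v (e k)) := by
      funext v
      rw [Pi.smul_apply, smul_eq_mul, mulA_altQ', ← mul_assoc, inv_mul_cancel₀, one_mul]
      · unfold altQ
        rw [← Equiv.sum_comp (Equiv.permCongr e) (fun σ : Equiv.Perm κ'' =>
          ((Equiv.Perm.sign σ : ℤ) : ℂ) * ψ (fun k => cv (v (σ k))))]
        refine Finset.sum_congr rfl fun σ _ => ?_
        rw [Equiv.Perm.sign_permCongr, hψ]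
        simp only [Equiv.permCongr_apply, Equiv.symm_apply_apply]
      · refine mul_ne_zero ?_ ?_ <;> exact_mod_cast Fintype.card_ne_zero
    rw [h2]
    exact Submodule.smul_mem _ _ h1

end alt

end

end Pool.Agent.R915
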