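import Mathlib
import Pool.Agent.R915.K3
import Pool.Agent.R915.S1

/-!
# Determinant forms and Weil classes
-/

set_option linter.unusedSectionVars false

namespace Pool.Agent.R915

open Matrix Module Pool.Agent.W437.HC Pool.Agent.W437.HD Pool.Agent.TH504.CB Pool.Agent.Y90
open Pool.Agent.W548.Odd hiding cv
open Pool.Agent.H204R3.CM (IsHodge)
open Pool.Agent.H204R3.SP (Kills)
open Pool.Agent.W437.HP (cK cK_mul cK_one)

noncomputable section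

section prod

variable {a₁ a₂ : ℕ} {Z₁ : Matrix (Fin a₁) (Fin a₁) ℂ} {Z₂ : Matrix (Fin a₂) (Fin a₂) ℂ}
  (h₁ : PM Z₁) (h₂ : PM Z₂)
  {U₁ : Submodule ℂ (Fin a₁ ⊕ Fin a₁ → ℂ)} {U₂ : Submodule ℂ (Fin a₂ ⊕ Fin a₂ → ℂ)}
  {φ₁ : Matrix (Fin a₁ ⊕ Fin a₁) (Fin a₁ ⊕ Fin a₁) ℚ}
  {φ₂ : Matrix (Fin a₂ ⊕ Fin a₂) (Fin a₂ ⊕ Fin a₂) ℚ} {α : ℂ} {d : ℚ}
  (k₁ : KW Z₁ U₁ φ₁ α d) (k₂ : KW Z₂ U₂ φ₂ α d)
  {ι ι' : Type} [Fintype ι] [DecidableEq ι] [Fintype ι'] [DecidableEq ι']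
  (f₁ : Basis ι ℂ U₁) (f₂ : Basis ι' ℂ U₂)

/-- The form defining the Weil classes. -/
def GW : MultilinearMap ℂ (fun _ : ι ⊕ ι' => (Fin a₁ ⊕ Fin a₁) ⊕ (Fin a₂ ⊕ Fin a₂) → ℂ) ℂ :=
  prd ((k₁.dl f₁).compLinearMap (fun _ => LinearMap.funLeft ℂ ℂ Sum.inl))
    ((k₂.dl f₂).compLinearMap (fun _ => LinearMap.funLeft ℂ ℂ Sum.inr))

theorem GW_apply (w : ι ⊕ ι' → (Fin a₁ ⊕ Fin a₁) ⊕ (Fin a₂ ⊕ Fin a₂) → ℂ) :
    GW k₁ k₂ f₁ f₂ w = k₁.dl f₁ (fun y i => w (Sum.inl y) (Sum.inl i)) *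
      k₂.dl f₂ (fun y i => w (Sum.inr y) (Sum.inr i)) := rfl

/-- The endomorphism may be moved. -/
theorem GW_PH (w : ι ⊕ ι' → (Fin a₁ ⊕ Fin a₁) ⊕ (Fin a₂ ⊕ Fin a₂) → ℂ) (k : ι ⊕ ι') :
    GW k₁ k₂ f₁ f₂ (Function.update w k (qm (PH φ₁ φ₂) *ᵥ w k)) = α * GW k₁ k₂ f₁ f₂ w := by
  rw [GW_apply, GW_apply]
  rcases k with k | k
  · have e1 : (fun (y : ι) i => Function.update w (Sum.inl k) (qm (PH φ₁ φ₂) *ᵥ w (Sum.inl k))
        (Sum.inl y) (Sum.inl i)) = Function.update (fun (y : ι) i => w (Sum.inl y) (Sum.inl i)) k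
          (qm φ₁ *ᵥ fun i => w (Sum.inl k) (Sum.inl i)) := by
      funext y
      by_cases hy : y = k
      · subst hy
        rw [Function.update_self, Function.update_self, ← PH_l (φ₂ := φ₂)]
      · rw [Function.update_of_ne hy, Function.update_of_ne (fun h => hy (Sum.inl_injective h))]
    have e2 : (fun (y : ι') i => Function.update w (Sum.inl k) (qm (PH φ₁ φ₂) *ᵥ w (Sum.inl k))
        (Sum.inr y) (Sum.inr i)) = fun y i => w (Sum.inr y) (Sum.inr i) := by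
      funext y
      rw [Function.update_of_ne (by simp)]
    have e3 := k₁.dl_phi f₁ (fun y i => w (Sum.inl y) (Sum.inl i)) k
    rw [e1, e2, e3, mul_assoc]
  · have e1 : (fun (y : ι') i => Function.update w (Sum.inr k) (qm (PH φ₁ φ₂) *ᵥ w (Sum.inr k))
        (Sum.inr y) (Sum.inr i)) = Function.update (fun (y : ι') i => w (Sum.inr y) (Sum.inr i)) k
          (qm φ₂ *ᵥ fun i => w (Sum.inr k) (Sum.inr i)) := by
      funext y
      by_cases hy : y = k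
      · subst hy
        rw [Function.update_self, Function.update_self, ← PH_r (φ₁ := φ₁)]
      · rw [Function.update_of_ne hy, Function.update_of_ne (fun h => hy (Sum.inr_injective h))]
    have e2 : (fun (y : ι) i => Function.update w (Sum.inr k) (qm (PH φ₁ φ₂) *ᵥ w (Sum.inr k))
        (Sum.inl y) (Sum.inl i)) = fun y i => w (Sum.inl y) (Sum.inl i) := by
      funext y
      rw [Function.update_of_ne (by simp)]
    have e3 := k₂.dl_phi f₂ (fun y i => w (Sum.inr y) (Sum.inr i)) k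
    rw [e1, e2, e3]
    ring

variable (t₁ : tr Z₁ U₁ + tr Z₂ U₂ = 0)

include k₁ k₂ t₁ in
theorem tr_sumW (τ : ℂ ≃+* ℂ) : tr Z₁ (cjS τ U₁) + tr Z₂ (cjS τ U₂) = 0 := by
  have h0 := k₁.al_ne
  have h1 : (2 : ℂ) * α ≠ 0 := mul_ne_zero two_ne_zero h0
  rcases k₁.tr_cj τ with ⟨h2, h3⟩ | ⟨h2, h3⟩ <;> rcases k₂.tr_cj τ with ⟨h4, h5⟩ | ⟨h4, h5⟩
  · rw [h3, h5, t₁]
  · exfalso
    apply h1
    linear_combination h4 - h2
  · exfalso
    apply h1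
    linear_combination h2 - h4
  · rw [h3, h5]
    omega

include h₁ h₂ t₁ in
theorem GW_kill : ∀ X ∈ LP Z₁ Z₂, act X (CF (GW k₁ k₂ f₁ f₂)) = 0 := by
  have h1 : LP Z₁ Z₂ ≤ LinearMap.ker (actL (CF (GW k₁ k₂ f₁ f₂))) := by
    refine Submodule.span_le.2 ?_
    rintro _ ⟨σ, rfl⟩
    rw [SetLike.mem_coe, LinearMap.mem_ker, actL_apply]
    refine kill_of_inv (DP_sq h₁ h₂ σ) fun w => ?_
    rw [GW_apply, GW_apply]
    have e1 := k₁.dl_tor h₁ f₁ σ (fun y i => w (Sum.inl y) (Sum.inl i))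
    have e2 := k₂.dl_tor h₂ f₂ σ (fun y i => w (Sum.inr y) (Sum.inr i))
    have e3 : (fun (y : ι) i => torE (ph _ (DP Z₁ Z₂ σ)) two (w (Sum.inl y)) (Sum.inl i)) =
        fun y => torE (ph _ (DS Z₁ σ)) two fun i => w (Sum.inl y) (Sum.inl i) := by
      funext y
      exact torP_l σ (w (Sum.inl y))
    have e4 : (fun (y : ι') i => torE (ph _ (DP Z₁ Z₂ σ)) two (w (Sum.inr y)) (Sum.inr i)) =
        fun y => torE (ph _ (DS Z₂ σ)) two fun i => w (Sum.inr y) (Sum.inr i) := by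
      funext y
      exact torP_r σ (w (Sum.inr y))
    rw [e3, e4, e1, e2, mul_mul_mul_comm, ← zpow_add₀ two_ne_zero,
      tr_sumW k₁ k₂ t₁ σ.symm, zpow_zero, one_mul]
  intro X hX
  have h2 := h1 hX
  rwa [LinearMap.mem_ker, actL_apply] at h2

include h₁ h₂ t₁ in
/-- The rational parts are Hodge classes. -/
theorem GW_hodge (l : ℂ →ₗ[ℚ] ℚ) :
    IsHodge (perP (perOne Z₁) (perOne Z₂)) (ratA (GW k₁ k₂ f₁ f₂) l) := by
  refine (h₁.cht.prod h₂.cht).hodge_rat gal_LP ?_ (GW_kill h₁ h₂ k₁ k₂ f₁ f₂ t₁) l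
  rw [DJ_prod]
  exact Submodule.subset_span ⟨_, rfl⟩

/-- The endomorphism may be moved in the rational parts. -/
theorem ratA_moveW (l : ℂ →ₗ[ℚ] ℚ) (v : ι ⊕ ι' → (Fin a₁ ⊕ Fin a₁) ⊕ (Fin a₂ ⊕ Fin a₂) → ℚ)
    (k : ι ⊕ ι') : ratA (GW k₁ k₂ f₁ f₂) l (Function.update v k (PH φ₁ φ₂ *ᵥ v k)) =
      ∑ σ : Equiv.Perm (ι ⊕ ι'), ((Equiv.Perm.sign σ : ℤ) : ℚ) *
        l (α * GW k₁ k₂ f₁ f₂ (fun k => cv (v (σ k)))) := by
  rw [ratA_apply]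
  refine Finset.sum_congr rfl fun σ _ => ?_
  congr 2
  rw [← GW_PH k₁ k₂ f₁ f₂ _ (σ.symm k)]
  congr 1
  funext j
  by_cases hj : j = σ.symm k
  · subst hj
    rw [Function.update_self, Equiv.apply_symm_apply, Function.update_self]
    funext i
    simp [cv, mulVec, dotProduct]
  · rw [Function.update_of_ne hj, Function.update_of_ne]
    intro h
    exact hj (by rw [← h, Equiv.symm_apply_apply])

include k₁ k₂ f₁ f₂ in
theorem card_idxW : Fintype.card (ι ⊕ ι') = a₁ + a₂ := by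
  rw [Fintype.card_sum, ← finrank_eq_card_basis f₁, ← finrank_eq_card_basis f₂, k₁.dim, k₂.dim]

include k₁ k₂ in
theorem PHW_comm : cK ℂ (PH φ₁ φ₂) * DJ (fromBlocks (JR Z₁) 0 0 (JR Z₂)) =
    DJ (fromBlocks (JR Z₁) 0 0 (JR Z₂)) * cK ℂ (PH φ₁ φ₂) := by
  have h1 : cK ℂ (PH φ₁ φ₂) = fromBlocks (qm φ₁) 0 0 (qm φ₂) := qm_PH
  rw [DJ_prod, h1]
  unfold DP
  rw [fromBlocks_multiply, fromBlocks_multiply, k₁.comm _ (DS_mem _), k₂.comm _ (DS_mem _)]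
  simp only [Matrix.mul_zero, Matrix.zero_mul, add_zero, zero_add]

include k₁ k₂ in
theorem PHW_sq (w : (Fin a₁ ⊕ Fin a₁) ⊕ (Fin a₂ ⊕ Fin a₂) → ℚ) :
    PH φ₁ φ₂ *ᵥ (PH φ₁ φ₂ *ᵥ w) = -(d • w) := by
  have h1 : PH φ₁ φ₂ * PH φ₁ φ₂ = -(d • 1) := by
    have h2 : (-(d • 1) : Matrix ((Fin a₁ ⊕ Fin a₁) ⊕ (Fin a₂ ⊕ Fin a₂))
        ((Fin a₁ ⊕ Fin a₁) ⊕ (Fin a₂ ⊕ Fin a₂)) ℚ) = fromBlocks (-(d • 1)) 0 0 (-(d • 1)) := by
      rw [show (1 : Matrix ((Fin a₁ ⊕ Fin a₁) ⊕ (Fin a₂ ⊕ Fin a₂))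
        ((Fin a₁ ⊕ Fin a₁) ⊕ (Fin a₂ ⊕ Fin a₂)) ℚ) = fromBlocks 1 0 0 1 from fromBlocks_one.symm,
        fromBlocks_smul, fromBlocks_neg, smul_zero, smul_zero, neg_zero, neg_zero]
    rw [h2]
    unfold PH
    rw [fromBlocks_multiply, k₁.sq, k₂.sq]
    simp only [Matrix.mul_zero, Matrix.zero_mul, add_zero, zero_add]
  rw [mulVec_mulVec, h1, neg_mulVec, smul_mulVec, one_mulVec]

include k₁ k₂ in
theorem weil_classW {n : ℕ} (hn : n = a₁ + a₂) (f : (AVP h₁ h₂).H [⋀^Fin n]→ₗ[ℚ] ℚ)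
    (hf : IsHodge (AVP h₁ h₂).per f)
    (hmv : ∀ (v : Fin n → (AVP h₁ h₂).H) (k k' : Fin n),
      f (Function.update v k (Matrix.toLin' (PH φ₁ φ₂) (v k))) =
        f (Function.update v k' (Matrix.toLin' (PH φ₁ φ₂) (v k'))))
    (hdisc : a₁ + a₂ = 6 → HasTrivialDisc (AVP h₁ h₂) d (Matrix.toLin' (PH φ₁ φ₂))) :
    IsWeilClass (AVP h₁ h₂) n f := by
  refine ⟨?_, hf, d, Matrix.toLin' (PH φ₁ φ₂), k₁.pos, ?_, fun w => ?_, hmv, fun h6 => ?_⟩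
  · change finrank ℚ ((Fin a₁ ⊕ Fin a₁) ⊕ (Fin a₂ ⊕ Fin a₂) → ℚ) = 2 * n
    rw [finrank_fintype_fun_eq_card]
    simp only [Fintype.card_sum, Fintype.card_fin]
    omega
  · obtain ⟨Ψ, hΨ⟩ := (h₁.cht.prod h₂.cht).hom (h₁.cht.prod h₂.cht) (PHW_comm k₁ k₂)
    exact ⟨Ψ, fun v => by rw [toLin'_apply]; exact hΨ v⟩
  · rw [toLin'_apply, toLin'_apply]
    exact PHW_sq k₁ k₂ w
  · exact hdisc (by omega)

include t₁ in
/-- The rational parts of the determinant form belong to the system. -/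
theorem alg_GW (hn : a₁ + a₂ = 2 ∨ a₁ + a₂ = 4 ∨ a₁ + a₂ = 6)
    (hdisc : a₁ + a₂ = 6 → HasTrivialDisc (AVP h₁ h₂) d (Matrix.toLin' (PH φ₁ φ₂)))
    (𝒜 : Sys) (l : ℂ →ₗ[ℚ] ℚ) : 𝒜.A (AVP h₁ h₂) (ι ⊕ ι') (ratA (GW k₁ k₂ f₁ f₂) l) := by
  have hc := card_idxW k₁ k₂ f₁ f₂
  let e : ι ⊕ ι' ≃ Fin (a₁ + a₂) := Fintype.equivFinOfCardEq hc
  by_cases h2 : a₁ + a₂ = 2
  · exact 𝒜.divisor (by rw [Nat.card_eq_fintype_card, hc, h2]) _
      (GW_hodge h₁ h₂ k₁ k₂ f₁ f₂ t₁ l)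
  · have hn' : a₁ + a₂ = 4 ∨ a₁ + a₂ = 6 := by omega
    have h3 := 𝒜.weil (X := AVP h₁ h₂) hn' ((ratA (GW k₁ k₂ f₁ f₂) l).domDomCongr e)
      (weil_classW h₁ h₂ k₁ k₂ rfl _
        (isHodge_congr e (GW_hodge h₁ h₂ k₁ k₂ f₁ f₂ t₁ l)) (fun v k k' => ?_) hdisc)
    · have h4 := 𝒜.reindex e.symm _ h3
      have h5 : (((ratA (GW k₁ k₂ f₁ f₂) l).domDomCongr e).domDomCongr e.symm) =
          ratA (GW k₁ k₂ f₁ f₂) l := by
        ext v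
        rw [AlternatingMap.domDomCongr_apply, AlternatingMap.domDomCongr_apply]
        congr 1
        funext k
        simp
      rw [← h5]
      exact h4
    · have key : ∀ k, (ratA (GW k₁ k₂ f₁ f₂) l).domDomCongr e
          (Function.update v k (Matrix.toLin' (PH φ₁ φ₂) (v k))) =
          ∑ σ : Equiv.Perm (ι ⊕ ι'), ((Equiv.Perm.sign σ : ℤ) : ℚ) *
            l (α * GW k₁ k₂ f₁ f₂ (fun k => cv (v (e (σ k))))) := by
        intro k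
        rw [AlternatingMap.domDomCongr_apply, toLin'_apply]
        have h1 := ratA_moveW k₁ k₂ f₁ f₂ l (fun j => v (e j)) (e.symm k)
        rw [Equiv.apply_symm_apply] at h1
        rw [← h1]
        congr 1
        funext j
        rw [Function.comp_apply]
        by_cases hj : j = e.symm k
        · subst hj
          rw [Equiv.apply_symm_apply, Function.update_self, Function.update_self]
        · rw [Function.update_of_ne hj, Function.update_of_ne]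
          intro h
          exact hj (by rw [← h, Equiv.symm_apply_apply])
      rw [key k, key k']

include t₁ in
theorem altQ_GW (hn : a₁ + a₂ = 2 ∨ a₁ + a₂ = 4 ∨ a₁ + a₂ = 6)
    (hdisc : a₁ + a₂ = 6 → HasTrivialDisc (AVP h₁ h₂) d (Matrix.toLin' (PH φ₁ φ₂))) (𝒜 : Sys) :
    altQ (GW k₁ k₂ f₁ f₂) ∈ RA 𝒜 (AVP h₁ h₂) (ι ⊕ ι') := by
  obtain ⟨m, c, l, hl⟩ := altQ_expand (GW k₁ k₂ f₁ f₂)
  have h1 : altQ (GW k₁ k₂ f₁ f₂) = ∑ j, c j • fun v : ι ⊕ ι' → (AVP h₁ h₂).H =>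
      ((ratA (GW k₁ k₂ f₁ f₂) (l j) v : ℚ) : ℂ) := by
    funext v
    rw [hl, Finset.sum_apply]
    rfl
  rw [h1]
  refine Submodule.sum_mem _ fun j _ => Submodule.smul_mem _ _ ?_
  exact RA_of (X := AVP h₁ h₂) (alg_GW h₁ h₂ k₁ k₂ f₁ f₂ t₁ hn hdisc 𝒜 (l j))

end prod

section expand

variable {B B₁ : Type} [Fintype B] [DecidableEq B] [Fintype B₁] [DecidableEq B₁]
  {J : Matrix B B ℝ} {J₁ : Matrix B₁ B₁ ℝ}

/-- Rational homomorphisms. -/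
def TG (J : Matrix B B ℝ) (J₁ : Matrix B₁ B₁ ℝ) : AddSubmonoid (Matrix B₁ B ℂ) where
  carrier := {C | ∃ R : Matrix B₁ B ℚ, C = cK ℂ R ∧ cK ℂ R * DJ J = DJ J₁ * cK ℂ R}
  add_mem' := by
    rintro _ _ ⟨R, rfl, hR⟩ ⟨R', rfl, hR'⟩
    have h1 : cK ℂ (R + R') = cK ℂ R + cK ℂ R' := by
      ext i j
      simp [cK]
    exact ⟨R + R', h1.symm, by rw [h1, Matrix.add_mul, Matrix.mul_add, hR, hR']⟩
  zero_mem' := by
    have h1 : cK ℂ (0 : Matrix B₁ B ℚ) = 0 := by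
      ext i j
      simp [cK]
    exact ⟨0, h1.symm, by rw [h1, Matrix.zero_mul, Matrix.mul_zero]⟩

/-- The conjugates of the complex structures on a sum. -/
def DG (J : Matrix B B ℝ) (J₁ : Matrix B₁ B₁ ℝ) (σ : ℂ ≃+* ℂ) :
    Matrix (B ⊕ B₁) (B ⊕ B₁) ℂ :=
  fromBlocks ((DJ J).map σ) 0 0 ((DJ J₁).map σ)

theorem DG_map (σ τ : ℂ ≃+* ℂ) : (DG J J₁ σ).map τ = DG J J₁ (σ.trans τ) := by
  ext i j
  rcases i with i | i <;> rcases j with j | j <;> simp [DG]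

/-- The Galois stable space spanned by the conjugates of the complex structure. -/
def LG (J : Matrix B B ℝ) (J₁ : Matrix B₁ B₁ ℝ) : Submodule ℂ (Matrix (B ⊕ B₁) (B ⊕ B₁) ℂ) :=
  Submodule.span ℂ (Set.range (DG J J₁))

theorem gal_LG : Gal (LG J J₁) := by
  intro τ X hX
  unfold LG at hX
  induction hX using Submodule.span_induction with
  | mem X hX =>
    obtain ⟨σ, rfl⟩ := hX
    rw [DG_map]
    exact Submodule.subset_span ⟨_, rfl⟩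
  | zero =>
    rw [Matrix.map_zero _ (map_zero τ)]
    exact Submodule.zero_mem _
  | add X Y _ _ hX hY =>
    rw [Matrix.map_add _ (map_add τ)]
    exact Submodule.add_mem _ hX hY
  | smul c X _ hX =>
    have h1 : (c • X).map τ = τ c • X.map τ := by
      ext i j
      simp
    rw [h1]
    exact Submodule.smul_mem _ _ hX

theorem exp_memG {Q : Matrix B₁ B ℂ} (hQ : ∀ σ : ℂ ≃+* ℂ, Q * (DJ J).map σ = (DJ J₁).map σ * Q) :
    Q ∈ Submodule.span ℂ (TG J J₁ : Set (Matrix B₁ B ℂ)) := by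
  let W : Submodule ℚ ℂ := Submodule.span ℚ (Set.range fun p : B₁ × B => Q p.1 p.2)
  have : FiniteDimensional ℚ W := FiniteDimensional.span_of_finite ℚ (Set.finite_range _)
  obtain ⟨m, c, l, hl⟩ := exists_coord W
  have h1 : Q = ∑ j, c j • cK ℂ (Matrix.of fun i k => l j (Q i k)) := by
    ext i k
    rw [Matrix.sum_apply]
    exact hl _ (Submodule.subset_span ⟨(i, k), rfl⟩)
  rw [h1]
  refine Submodule.sum_mem _ fun j _ => Submodule.smul_mem _ _ (Submodule.subset_span ?_)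
  refine ⟨_, rfl, ?_⟩
  -- the commutation on the span
  let toL : Matrix (B ⊕ B₁) (B ⊕ B₁) ℂ → Prop := fun X => Q * X.toBlocks₁₁ = X.toBlocks₂₂ * Q
  have hLQ : ∀ X ∈ LG J J₁, toL X := by
    intro X hX
    unfold LG at hX
    induction hX using Submodule.span_induction with
    | mem X hX =>
      obtain ⟨σ, rfl⟩ := hX
      exact hQ σ
    | zero =>
      change Q * 0 = 0 * Q
      rw [Matrix.mul_zero, Matrix.zero_mul]
    | add X Y _ _ hX hY =>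
      change Q * (X.toBlocks₁₁ + Y.toBlocks₁₁) = (X.toBlocks₂₂ + Y.toBlocks₂₂) * Q
      rw [Matrix.mul_add, Matrix.add_mul, hX, hY]
    | smul c X _ hX =>
      change Q * (c • X.toBlocks₁₁) = (c • X.toBlocks₂₂) * Q
      rw [Matrix.mul_smul, Matrix.smul_mul, hX]
  have key : ∀ X ∈ LG J J₁, cK ℂ (Matrix.of fun i k => l j (Q i k)) * X.toBlocks₁₁ =
      X.toBlocks₂₂ * cK ℂ (Matrix.of fun i k => l j (Q i k)) := by
    refine rational_induction (LG J J₁) gal_LG ?_ ?_ ?_ ?_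
    · intro u hu
      have h2 := hLQ _ hu
      change Q * (qm u).toBlocks₁₁ = (qm u).toBlocks₂₂ * Q at h2
      ext i k
      have h3 := congrArg (l j) (congrFun (congrFun h2 i) k)
      rw [Matrix.mul_apply, Matrix.mul_apply, map_sum, map_sum] at h3
      have h4 : ∀ x, l j (Q i x * (qm u).toBlocks₁₁ x k) =
          l j (Q i x) * u (Sum.inl x) (Sum.inl k) := by
        intro x
        change l j (Q i x * ((u (Sum.inl x) (Sum.inl k) : ℚ) : ℂ)) = _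
        rw [mul_comm, ← Rat.smul_def, map_smul, smul_eq_mul, mul_comm]
      have h5 : ∀ x, l j ((qm u).toBlocks₂₂ i x * Q x k) =
          u (Sum.inr i) (Sum.inr x) * l j (Q x k) := by
        intro x
        change l j (((u (Sum.inr i) (Sum.inr x) : ℚ) : ℂ) * Q x k) = _
        rw [← Rat.smul_def, map_smul, smul_eq_mul]
      rw [Finset.sum_congr rfl fun x _ => h4 x, Finset.sum_congr rfl fun x _ => h5 x] at h3
      rw [Matrix.mul_apply, Matrix.mul_apply]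
      have h6 := congrArg (fun q : ℚ => (q : ℂ)) h3
      simp only [Rat.cast_sum, Rat.cast_mul] at h6
      exact h6
    · change _ * 0 = 0 * _
      rw [Matrix.mul_zero, Matrix.zero_mul]
    · intro X Y hX hY
      change _ * (X.toBlocks₁₁ + Y.toBlocks₁₁) = (X.toBlocks₂₂ + Y.toBlocks₂₂) * _
      rw [Matrix.mul_add, Matrix.add_mul, hX, hY]
    · intro c X hX
      change _ * (c • X.toBlocks₁₁) = (c • X.toBlocks₂₂) * _
      rw [Matrix.mul_smul, Matrix.smul_mul, hX]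
  have h7 := key _ (Submodule.subset_span ⟨RingEquiv.refl ℂ, rfl⟩)
  exact h7

end expand

section gen

variable {B : Type} [Fintype B] [DecidableEq B] {T : Type} [AddCommGroup T] [Module ℂ T]
  [FiniteDimensional ℂ T] {per : (B → ℚ) →+ T} {J : Matrix B B ℝ} (hc : Cht per J)
  (hp : ∃ E : (B → ℚ) → (B → ℚ) → ℚ, IsPolarization per E)
  {a₁ a₂ : ℕ} {Z₁ : Matrix (Fin a₁) (Fin a₁) ℂ} {Z₂ : Matrix (Fin a₂) (Fin a₂) ℂ}
  (h₁ : PM Z₁) (h₂ : PM Z₂)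
  {U₁ : Submodule ℂ (Fin a₁ ⊕ Fin a₁ → ℂ)} {U₂ : Submodule ℂ (Fin a₂ ⊕ Fin a₂ → ℂ)}
  {φ₁ : Matrix (Fin a₁ ⊕ Fin a₁) (Fin a₁ ⊕ Fin a₁) ℚ}
  {φ₂ : Matrix (Fin a₂ ⊕ Fin a₂) (Fin a₂ ⊕ Fin a₂) ℚ} {α : ℂ} {d : ℚ}
  (k₁ : KW Z₁ U₁ φ₁ α d) (k₂ : KW Z₂ U₂ φ₂ α d) (t₁ : tr Z₁ U₁ + tr Z₂ U₂ = 0)
  {ι ι' : Type} [Fintype ι] [DecidableEq ι] [Fintype ι'] [DecidableEq ι']
  (f₁ : Basis ι ℂ U₁) (f₂ : Basis ι' ℂ U₂)
  (hn : a₁ + a₂ = 2 ∨ a₁ + a₂ = 4 ∨ a₁ + a₂ = 6)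
  (hdisc : a₁ + a₂ = 6 → HasTrivialDisc (AVP h₁ h₂) d (Matrix.toLin' (PH φ₁ φ₂)))

/-- The alternating form of the eigenspace. -/
def KW.alt {a : ℕ} {Z : Matrix (Fin a) (Fin a) ℂ} {U : Submodule ℂ (Fin a ⊕ Fin a → ℂ)}
    {φ : Matrix (Fin a ⊕ Fin a) (Fin a ⊕ Fin a) ℚ} {α : ℂ} {d : ℚ} (k : KW Z U φ α d)
    {ι : Type} [Fintype ι] [DecidableEq ι] (f : Basis ι ℂ U) : (Fin a ⊕ Fin a → ℂ) [⋀^ι]→ₗ[ℂ] ℂ :=
  f.det.compLinearMap k.pU

theorem KW.alt_apply {a : ℕ} {Z : Matrix (Fin a) (Fin a) ℂ} {U : Submodule ℂ (Fin a ⊕ Fin a → ℂ)}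
    {φ : Matrix (Fin a ⊕ Fin a) (Fin a ⊕ Fin a) ℚ} {α : ℂ} {d : ℚ} (k : KW Z U φ α d)
    {ι : Type} [Fintype ι] [DecidableEq ι] (f : Basis ι ℂ U) (v : ι → Fin a ⊕ Fin a → ℂ) :
    k.alt f v = f.det (fun y => k.pU (v y)) := rfl

include h₁ h₂ t₁ hn hdisc in
/-- The determinant forms composed with equivariant maps. -/
theorem gen_det (𝒜 : Sys) (Q : ι → Matrix (Fin a₁ ⊕ Fin a₁) B ℂ) (Q' : ι' → Matrix (Fin a₂ ⊕ Fin a₂) B ℂ)
    (hQ : ∀ y (σ : ℂ ≃+* ℂ), Q y * (DJ J).map σ = DS Z₁ σ * Q y)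
    (hQ' : ∀ y (σ : ℂ ≃+* ℂ), Q' y * (DJ J).map σ = DS Z₂ σ * Q' y)
    (ψ : MultilinearMap ℂ (fun _ : ι ⊕ ι' => B → ℂ) ℂ)
    (hψ : ∀ v, ψ v = k₁.alt f₁ (fun y => Q y *ᵥ v (Sum.inl y)) *
      k₂.alt f₂ (fun y => Q' y *ᵥ v (Sum.inr y))) : ψ ∈ NA 𝒜 hc hp (ι ⊕ ι') := by
  intro i1 i2
  obtain rfl : i1 = instFintypeSum ι ι' := Subsingleton.elim _ _
  obtain rfl : i2 = instDecidableEqSum := Subsingleton.elim _ _
  have h1 : altQ ψ = NN (k₁.alt f₁) (k₂.alt f₂) Q Q' := by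
    funext v
    unfold altQ NN
    refine Finset.sum_congr rfl fun σ _ => ?_
    rw [hψ]
  rw [h1]
  refine NN_mem (k₁.alt f₁) (k₂.alt f₂) (RA 𝒜 (hc.av hp) (ι ⊕ ι')) (TG J (JR Z₁)) (TG J (JR Z₂))
    ?_ _ _ (fun y => exp_memG (hQ y)) (fun y => exp_memG (hQ' y))
  rintro _ ⟨R, rfl, hR⟩ _ ⟨R', rfl, hR'⟩
  have hrow : cK ℂ (fromRows R R') * DJ J =
      DJ (fromBlocks (JR Z₁) 0 0 (JR Z₂)) * cK ℂ (fromRows R R') := by
    have h1 : cK ℂ (fromRows R R') = fromRows (cK ℂ R) (cK ℂ R') := by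
      ext i j
      rcases i with i | i <;> rfl
    rw [DJ_prod, h1]
    unfold DP
    rw [fromRows_mul, hR, hR', fromBlocks_mul_fromRows, Matrix.zero_mul, Matrix.zero_mul, add_zero,
      zero_add]
    rfl
  obtain ⟨Ψ, hΨ⟩ := hc.hom (h₁.cht.prod h₂.cht) hrow
  have h2 := RA_pull (X := hc.av hp) (Y := AVP h₁ h₂) (Matrix.toLin' (fromRows R R'))
    ⟨Ψ, fun v => by rw [toLin'_apply]; exact hΨ v⟩ (altQ_GW h₁ h₂ k₁ k₂ f₁ f₂ t₁ hn hdisc 𝒜)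
  have h3 : NN (k₁.alt f₁) (k₂.alt f₂) (fun _ => cK ℂ R) (fun _ => cK ℂ R') =
      fun v : ι ⊕ ι' → (hc.av hp).H => altQ (GW k₁ k₂ f₁ f₂)
        (fun k => Matrix.toLin' (fromRows R R') (v k)) := by
    funext v
    unfold altQ NN
    refine Finset.sum_congr rfl fun σ _ => ?_
    rw [GW_apply]
    congr 2
    · change k₁.dl f₁ _ = k₁.dl f₁ _
      congr 1
      funext y
      exact (cv_rows_l R R' (v (σ (Sum.inl y)))).symm
    · change k₂.dl f₂ _ = k₂.dl f₂ _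
      congr 1
      funext y
      exact (cv_rows_r R R' (v (σ (Sum.inr y)))).symm
  rw [h3]
  exact h2

end gen

end

end Pool.Agent.R915
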