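import Mathlib
import Pool.Agent.R915.W1

/-!
# Push-forwards of forms on products
-/

set_option linter.unusedSectionVars false

namespace Pool.Agent.R915

open Matrix Module Pool.Agent.W437.HC Pool.Agent.W437.HD Pool.Agent.TH504.CB Pool.Agent.Y90
open Pool.Agent.W548.Odd hiding cv
open Pool.Agent.H204R3.CM (IsHodge)
open Pool.Agent.W437.HP (cK cK_mul cK_one)

noncomputable section

section split

variable {κ κ' : Type} [Fintype κ] [DecidableEq κ] [Fintype κ'] [DecidableEq κ']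
  {B B' : Type} [Fintype B] [DecidableEq B] [Fintype B'] [DecidableEq B']

/-- The alternation of a product of forms of complementary variables. -/
theorem altQ_split (ψ : MultilinearMap ℂ (fun _ : κ => B → ℂ) ℂ)
    (β : MultilinearMap ℂ (fun _ : κ' => B' → ℂ) ℂ)
    (F : MultilinearMap ℂ (fun _ : κ ⊕ κ' => B ⊕ B' → ℂ) ℂ)
    (hF : ∀ w, F w = ψ (fun k i => w (Sum.inl k) (Sum.inl i)) *
      β (fun k i => w (Sum.inr k) (Sum.inr i)))
    (v : κ → B → ℚ) (b : κ' → B' → ℚ) (w : κ ⊕ κ' → B ⊕ B' → ℚ)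
    (h1 : ∀ k i, w (Sum.inl k) (Sum.inl i) = v k i) (h3 : ∀ k i, w (Sum.inr k) (Sum.inl i) = 0)
    (h4 : ∀ k i, w (Sum.inr k) (Sum.inr i) = b k i) :
    altQ F w = altQ ψ v * altQ β b := by
  classical
  unfold altQ
  symm
  rw [Finset.sum_mul_sum]
  convert Finset.sum_subset (M := ℂ)
    (Finset.subset_univ ((Equiv.Perm.sumCongrHom κ κ').range : Set (Equiv.Perm (κ ⊕ κ'))).toFinset)
    (f := fun σ : Equiv.Perm (κ ⊕ κ') => ((Equiv.Perm.sign σ : ℤ) : ℂ) *
      F (fun k => cv (w (σ k)))) ?_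
  · rw [← Finset.sum_product', Finset.univ_product_univ]
    refine Finset.sum_nbij (fun σ ↦ σ.fst.sumCongr σ.snd) ?_ ?_ ?_ ?_
    · intro σ₁₂ _
      rw [Set.mem_toFinset]
      exact ⟨σ₁₂, rfl⟩
    · intro σ₁ _ σ₂ _
      dsimp only
      intro h
      have h2 : ∀ x, Equiv.Perm.sumCongr σ₁.fst σ₁.snd x = Equiv.Perm.sumCongr σ₂.fst σ₂.snd x :=
        DFunLike.congr_fun h
      simp only [Sum.map_inr, Sum.map_inl, Equiv.Perm.sumCongr_apply, Sum.forall, Sum.inl.injEq,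
        Sum.inr.injEq] at h2
      ext x
      · exact h2.left x
      · exact h2.right x
    · intro σ hσ
      rw [Finset.mem_coe, Set.mem_toFinset] at hσ
      obtain ⟨σ₁₂, hσ₁₂⟩ := hσ
      use σ₁₂
      rw [← hσ₁₂]
      simp
    · rintro ⟨ρ, ρ'⟩ _
      dsimp only
      rw [hF, Equiv.Perm.sign_sumCongr]
      have e1 : (fun (k : κ) i => cv (w ((Equiv.Perm.sumCongr ρ ρ') (Sum.inl k))) (Sum.inl i)) =
          fun k => cv (v (ρ k)) := by
        funext k i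
        change ((w (Sum.inl (ρ k)) (Sum.inl i) : ℚ) : ℂ) = ((v (ρ k) i : ℚ) : ℂ)
        rw [h1]
      have e2 : (fun (k : κ') i => cv (w ((Equiv.Perm.sumCongr ρ ρ') (Sum.inr k))) (Sum.inr i)) =
          fun k => cv (b (ρ' k)) := by
        funext k i
        change ((w (Sum.inr (ρ' k)) (Sum.inr i) : ℚ) : ℂ) = ((b (ρ' k) i : ℚ) : ℂ)
        rw [h4]
      rw [e1, e2]
      push_cast
      ring
  · rintro σ - hσn
    have h5 : ¬∀ x, ∃ y, Sum.inl y = σ (Sum.inl x) := by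
      rw [Set.mem_toFinset] at hσn
      simpa only [Set.MapsTo, Set.mem_range, forall_exists_index, forall_apply_eq_imp_iff] using
        mt Equiv.Perm.mem_sumCongrHom_range_of_perm_mapsTo_inl hσn
    obtain ⟨a, ha⟩ := not_forall.mp h5
    rcases hx : σ (Sum.inl a) with a2 | c
    · have hn := (not_exists.mp ha) a2
      exact absurd hx.symm hn
    · rw [hF]
      have e1 : ψ (fun (k : κ) i => cv (w (σ (Sum.inl k))) (Sum.inl i)) = 0 := by
        refine ψ.map_coord_zero a ?_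
        funext i
        change ((w (σ (Sum.inl a)) (Sum.inl i) : ℚ) : ℂ) = 0
        rw [hx, h3]
        norm_num
      rw [e1, zero_mul, mul_zero]

end split

section push

variable {G M : ℕ} {Z : Matrix (Fin G) (Fin G) ℂ} {Z' : Matrix (Fin M) (Fin M) ℂ} (h : PM Z)
  (h' : PM Z')

/-- The first inclusion. -/
def inP (G M : ℕ) : (Fin G ⊕ Fin G → ℚ) →ₗ[ℚ] ((Fin G ⊕ Fin G) ⊕ (Fin M ⊕ Fin M) → ℚ) where
  toFun v := Sum.elim v 0
  map_add' v w := by
    funext i
    rcases i with i | i <;> simp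
  map_smul' c v := by
    funext i
    rcases i with i | i <;> simp

/-- The second inclusion. -/
def inQ (G M : ℕ) : (Fin M ⊕ Fin M → ℚ) →ₗ[ℚ] ((Fin G ⊕ Fin G) ⊕ (Fin M ⊕ Fin M) → ℚ) where
  toFun v := Sum.elim 0 v
  map_add' v w := by
    funext i
    rcases i with i | i <;> simp
  map_smul' c v := by
    funext i
    rcases i with i | i <;> simp

theorem inP_hom : IsHom (AVZ h) (AVP h h') (inP G M) := by
  refine ⟨LinearMap.inl ℂ _ _, fun v => ?_⟩
  change (perOne Z v, (0 : Fin M → ℂ)) = perP (perOne Z) (perOne Z') (inP G M v)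
  rw [perP_apply]
  refine Prod.ext rfl ?_
  change 0 = perOne Z' 0
  rw [map_zero]

theorem inQ_hom : IsHom (AVZ h') (AVP h h') (inQ G M) := by
  refine ⟨LinearMap.inr ℂ _ _, fun v => ?_⟩
  change ((0 : Fin G → ℂ), perOne Z' v) = perP (perOne Z) (perOne Z') (inQ G M v)
  rw [perP_apply]
  refine Prod.ext ?_ rfl
  change 0 = perOne Z 0
  rw [map_zero]

theorem inPQ_bij : Function.Bijective fun w : (Fin G ⊕ Fin G → ℚ) × (Fin M ⊕ Fin M → ℚ) =>
    inP G M w.1 + inQ G M w.2 := by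
  constructor
  · rintro ⟨v, w⟩ ⟨v', w'⟩ hvw
    refine Prod.ext (funext fun i => ?_) (funext fun i => ?_)
    · have h1 := congrFun hvw (Sum.inl i)
      simpa [inP, inQ] using h1
    · have h1 := congrFun hvw (Sum.inr i)
      simpa [inP, inQ] using h1
  · intro x
    refine ⟨(fun i => x (Sum.inl i), fun i => x (Sum.inr i)), ?_⟩
    funext i
    rcases i with i | i <;> simp [inP, inQ]

/-- A form whose product with a form on the second factor, of nonzero integral, belongs to the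
system. -/
theorem NA_push (𝒜 : Sys) {κ : Type} [Finite κ]
    (ψ : MultilinearMap ℂ (fun _ : κ => Fin G ⊕ Fin G → ℂ) ℂ)
    (β : MultilinearMap ℂ (fun _ : Fin M ⊕ Fin M => Fin M ⊕ Fin M → ℂ) ℂ)
    (hβ : altQ β (fun k => Pi.single k 1) ≠ 0)
    (F : MultilinearMap ℂ (fun _ : κ ⊕ (Fin M ⊕ Fin M) => (Fin G ⊕ Fin G) ⊕ (Fin M ⊕ Fin M) → ℂ) ℂ)
    (hF : ∀ w, F w = ψ (fun k i => w (Sum.inl k) (Sum.inl i)) *
      β (fun k i => w (Sum.inr k) (Sum.inr i)))
    (hm : F ∈ NA 𝒜 (h.cht.prod h'.cht) ⟨_, pol_prod h h' one_pos⟩ (κ ⊕ (Fin M ⊕ Fin M))) :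
    ψ ∈ NA 𝒜 h.cht ⟨_, h.polar⟩ κ := by
  intro i1 i2
  have h1 := hm inferInstance inferInstance
  have h2 := RA_push (X := AVZ h) (Y := AVZ h') (P := AVP h h') (inP G M) (inP_hom h h')
    (inQ G M) (inQ_hom h h') inPQ_bij (Pi.basisFun ℚ (Fin M ⊕ Fin M)) h1
  have h3 : altQ ψ = (altQ β (fun k => Pi.single k 1))⁻¹ • fun v : κ → (AVZ h).H =>
      altQ F (Sum.elim (fun k => inP G M (v k))
        fun k => inQ G M (Pi.basisFun ℚ (Fin M ⊕ Fin M) k)) := by
    funext v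
    rw [Pi.smul_apply, smul_eq_mul, altQ_split ψ β F hF v (fun k => Pi.single k 1)]
    · field_simp
    · intro k i
      rfl
    · intro k i
      rfl
    · intro k i
      change (Pi.basisFun ℚ (Fin M ⊕ Fin M)) k i = _
      rw [Pi.basisFun_apply]
  rw [h3]
  exact Submodule.smul_mem _ _ h2

end push

section pull

variable {B B' : Type} [Fintype B] [DecidableEq B] [Fintype B'] [DecidableEq B'] {T T' : Type}
  [AddCommGroup T] [Module ℂ T] [FiniteDimensional ℂ T] [AddCommGroup T'] [Module ℂ T']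
  [FiniteDimensional ℂ T'] {per : (B → ℚ) →+ T} {J : Matrix B B ℝ} (hc : Cht per J)
  (hp : ∃ E : (B → ℚ) → (B → ℚ) → ℚ, IsPolarization per E)
  {per' : (B' → ℚ) →+ T'} {J' : Matrix B' B' ℝ} (hc' : Cht per' J')
  (hp' : ∃ E : (B' → ℚ) → (B' → ℚ) → ℚ, IsPolarization per' E)

/-- Pull-backs of forms. -/
theorem NA_pull (𝒜 : Sys) {R : Matrix B' B ℚ} (hR : cK ℂ R * DJ J = DJ J' * cK ℂ R) {κ : Type} [Finite κ]
    {F : MultilinearMap ℂ (fun _ : κ => B' → ℂ) ℂ} (hF : F ∈ NA 𝒜 hc' hp' κ)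
    (ψ : MultilinearMap ℂ (fun _ : κ => B → ℂ) ℂ)
    (hψ : ∀ v, ψ v = F (fun k => cK ℂ R *ᵥ v k)) : ψ ∈ NA 𝒜 hc hp κ := by
  intro i1 i2
  obtain ⟨Ψ, hΨ⟩ := hc.hom hc' hR
  have h2 := RA_pull (X := hc.av hp) (Y := hc'.av hp') (Matrix.toLin' R)
    ⟨Ψ, fun v => by rw [toLin'_apply]; exact hΨ v⟩ (hF i1 i2)
  have h3 : altQ ψ = fun v : κ → (hc.av hp).H => altQ F (fun k => Matrix.toLin' R (v k)) := by
    funext v
    unfold altQ
    refine Finset.sum_congr rfl fun σ _ => ?_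
    rw [hψ]
    congr 2
    funext k i
    simp [cv, cK, mulVec, dotProduct]
  rw [h3]
  exact h2

end pull

section hodge

variable {B : Type} [Fintype B] [DecidableEq B] {T : Type}
  [AddCommGroup T] [Module ℂ T] [FiniteDimensional ℂ T] {per : (B → ℚ) →+ T} {J : Matrix B B ℝ}
  (hc : Cht per J) (hp : ∃ E : (B → ℚ) → (B → ℚ) → ℚ, IsPolarization per E)

/-- Invariant forms belong to the system if all Hodge classes do. -/
theorem NA_of_hodge (𝒜 : Sys) {κ : Type} [i0 : Fintype κ] [j0 : DecidableEq κ]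
    {L : Submodule ℂ (Matrix B B ℂ)}
    (hL : Gal L) (hJ : DJ J ∈ L)
    (hR : ∀ r : (B → ℚ) [⋀^κ]→ₗ[ℚ] ℚ, IsHodge per r → 𝒜.A (hc.av hp) κ r)
    {F : MultilinearMap ℂ (fun _ : κ => B → ℂ) ℂ} (hF : ∀ X ∈ L, act X (CF F) = 0) :
    F ∈ NA 𝒜 hc hp κ := by
  intro i1 i2
  obtain rfl : i0 = i1 := Subsingleton.elim _ _
  obtain rfl : j0 = i2 := Subsingleton.elim _ _
  obtain ⟨m, c, l, hl⟩ := altQ_expand F
  have h1 : altQ F = ∑ j, c j • fun v : κ → (hc.av hp).H => ((ratA F (l j) v : ℚ) : ℂ) := by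
    funext v
    rw [hl, Finset.sum_apply]
    rfl
  rw [h1]
  refine Submodule.sum_mem _ fun j _ => Submodule.smul_mem _ _ ?_
  exact RA_of (X := hc.av hp) (hR _ (hc.hodge_rat hL hJ hF (l j)))

end hodge

end

end Pool.Agent.R915
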