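import Mathlib
import Pool.Agent.R915.P1

/-!
# Determinant forms with elliptic complements
-/

set_option linter.unusedSectionVars false

namespace Pool.Agent.R915

open Matrix Module Pool.Agent.W437.HC Pool.Agent.W437.HD Pool.Agent.TH504.CB Pool.Agent.Y90
open Pool.Agent.W548.Odd hiding cv
open Pool.Agent.H204R3.CM (IsHodge)
open Pool.Agent.W437.HP (cK cK_mul cK_one)

noncomputable section

/-- A submodule attached to an imaginary quadratic field. -/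
structure KX {G : ℕ} (Z : Matrix (Fin G) (Fin G) ℂ) (W : Submodule ℂ (Fin G ⊕ Fin G → ℂ)) (a : ℕ)
    (Z' : Matrix (Fin a) (Fin a) ℂ) (E : Matrix (Fin G ⊕ Fin G) (Fin a ⊕ Fin a) ℚ)
    (F : Matrix (Fin a ⊕ Fin a) (Fin G ⊕ Fin G) ℚ)
    (φ : Matrix (Fin a ⊕ Fin a) (Fin a ⊕ Fin a) ℚ) (α : ℂ) (d : ℚ) : Prop where
  fac : Fac Z Z' E F
  pm : PM Z'
  inj : ∀ u ∈ W, ml F u = 0 → u = 0
  kw : KW Z' (W.map (ml F)) φ α d
  small : a + (tr Z' (W.map (ml F))).natAbs = 2 ∨ a + (tr Z' (W.map (ml F))).natAbs = 4 ∨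
    a + (tr Z' (W.map (ml F))).natAbs = 6
  disc : a = 6 → HasTrivialDisc (AVZ pm) d (Matrix.toLin' φ)

section side

variable {G : ℕ} {Z : Matrix (Fin G) (Fin G) ℂ}
  {W : Submodule ℂ (Fin G ⊕ Fin G → ℂ)} {a : ℕ} {Z' : Matrix (Fin a) (Fin a) ℂ}
  {E : Matrix (Fin G ⊕ Fin G) (Fin a ⊕ Fin a) ℚ} {F : Matrix (Fin a ⊕ Fin a) (Fin G ⊕ Fin G) ℚ}
  {φ : Matrix (Fin a ⊕ Fin a) (Fin a ⊕ Fin a) ℚ} {α : ℂ} {d : ℚ} (k : KX Z W a Z' E F φ α d)
  {ι : Type} [Fintype ι] [DecidableEq ι]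

/-- The isomorphism with the submodule of the factor. -/
def KX.eqv : W ≃ₗ[ℂ] W.map (ml F) :=
  LinearEquiv.ofBijective (((ml F).domRestrict W).codRestrict (W.map (ml F))
    fun u => Submodule.mem_map_of_mem u.2) (by
      constructor
      · rw [injective_iff_map_eq_zero]
        intro u hu
        exact Subtype.ext (k.inj u u.2 (congrArg Subtype.val hu))
      · rintro ⟨_, u, hu, rfl⟩
        exact ⟨⟨u, hu⟩, rfl⟩)

theorem KX.eqv_coe (u : W) : (k.eqv u : Fin a ⊕ Fin a → ℂ) = ml F u := rfl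

include k in
theorem KX.qmat_comm (h : PM Z) {q : (Fin G ⊕ Fin G → ℂ) →ₗ[ℂ] W}
    (hq : ∀ g x, (q (RZ Z g x) : Fin G ⊕ Fin G → ℂ) = RZ Z g (q x)) (σ : ℂ ≃+* ℂ) :
    qmat F q * DS Z σ = DS Z' σ * qmat F q := by
  have h1 := (rz_equiv h stab_top (W.subtype.comp q)).1 (fun g u _ => hq g u)
  have h2 : ∀ v, q (DS Z σ *ᵥ v) = DS Z σ *ᵥ (q v : Fin G ⊕ Fin G → ℂ) := fun v =>
    h1 _ (DS_mem σ) v trivial
  apply Matrix.toLin'.injective
  refine LinearMap.ext fun v => ?_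
  rw [Matrix.toLin'_apply, Matrix.toLin'_apply, ← mulVec_mulVec, ← mulVec_mulVec, qmat_mulVec,
    qmat_mulVec, h2, ml_apply, ml_apply, mulVec_mulVec, mulVec_mulVec, k.fac.fds]

theorem KX.alt_q (f : Basis ι ℂ W) (q : ι → (Fin G ⊕ Fin G → ℂ) →ₗ[ℂ] W)
    (v : ι → Fin G ⊕ Fin G → ℂ) :
    k.kw.alt (f.map k.eqv) (fun y => qmat F (q y) *ᵥ v y) = f.det (fun y => q y (v y)) := by
  rw [KW.alt_apply, Basis.det_map]
  congr 1
  funext y
  have h1 : k.kw.pU (qmat F (q y) *ᵥ v y) = k.eqv (q y (v y)) := by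
    rw [qmat_mulVec]
    exact k.kw.pU_of_mem (Submodule.mem_map_of_mem (q y (v y)).2)
  change k.eqv.symm (k.kw.pU (qmat F (q y) *ᵥ v y)) = _
  rw [h1, LinearEquiv.symm_apply_apply]

end side

section ell

variable {G M : ℕ} {Z : Matrix (Fin G) (Fin G) ℂ} {dd : Fin M → ℚ}

/-- The coordinates of one elliptic curve. -/
def rowE (G M n : ℕ) (l : Fin n → ℚ) (m : Fin n → Fin M) (y : Fin n) :
    Matrix (Fin n ⊕ Fin n) ((Fin G ⊕ Fin G) ⊕ (Fin M ⊕ Fin M)) ℚ :=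
  Matrix.of (Sum.elim
    (fun i => if i = y then Pi.single (Sum.inr (Sum.inl (m y))) 1 else 0)
    (fun i => if i = y then Pi.single (Sum.inr (Sum.inr (m y))) (l y)⁻¹ else 0))

variable {n : ℕ} {l : Fin n → ℚ} {m : Fin n → Fin M}

theorem rowE_l (y i : Fin n) (w : (Fin G ⊕ Fin G) ⊕ (Fin M ⊕ Fin M) → ℂ) :
    (cK ℂ (rowE G M n l m y) *ᵥ w) (Sum.inl i) = if i = y then w (Sum.inr (Sum.inl (m y))) else 0 := by
  unfold rowE
  by_cases hi : i = y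
  · rw [if_pos hi]
    have h1 : ∀ j, cK ℂ (Matrix.of (Sum.elim
      (fun i => if i = y then Pi.single (Sum.inr (Sum.inl (m y))) 1 else 0)
      (fun i => if i = y then Pi.single (Sum.inr (Sum.inr (m y))) (l y)⁻¹ else 0)) :
      Matrix (Fin n ⊕ Fin n) ((Fin G ⊕ Fin G) ⊕ (Fin M ⊕ Fin M)) ℚ) (Sum.inl i) j =
        if j = Sum.inr (Sum.inl (m y)) then 1 else 0 := by
      intro j
      change (((if i = y then Pi.single (Sum.inr (Sum.inl (m y))) 1 else 0 :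
        (Fin G ⊕ Fin G) ⊕ (Fin M ⊕ Fin M) → ℚ) j : ℚ) : ℂ) = _
      rw [if_pos hi, Pi.single_apply]
      split_ifs <;> simp
    rw [mulVec, dotProduct, Finset.sum_congr rfl fun j _ => by rw [h1 j]]
    simp
  · rw [if_neg hi]
    rw [mulVec, dotProduct]
    refine Finset.sum_eq_zero fun j _ => ?_
    change (((if i = y then Pi.single (Sum.inr (Sum.inl (m y))) 1 else 0 :
        (Fin G ⊕ Fin G) ⊕ (Fin M ⊕ Fin M) → ℚ) j : ℚ) : ℂ) * _ = _
    rw [if_neg hi]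
    simp

theorem rowE_r (y i : Fin n) (w : (Fin G ⊕ Fin G) ⊕ (Fin M ⊕ Fin M) → ℂ) :
    (cK ℂ (rowE G M n l m y) *ᵥ w) (Sum.inr i) =
      if i = y then ((l y : ℂ))⁻¹ * w (Sum.inr (Sum.inr (m y))) else 0 := by
  unfold rowE
  by_cases hi : i = y
  · rw [if_pos hi]
    have h1 : ∀ j, cK ℂ (Matrix.of (Sum.elim
      (fun i => if i = y then Pi.single (Sum.inr (Sum.inl (m y))) 1 else 0)
      (fun i => if i = y then Pi.single (Sum.inr (Sum.inr (m y))) (l y)⁻¹ else 0)) :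
      Matrix (Fin n ⊕ Fin n) ((Fin G ⊕ Fin G) ⊕ (Fin M ⊕ Fin M)) ℚ) (Sum.inr i) j =
        if j = Sum.inr (Sum.inr (m y)) then ((l y : ℂ))⁻¹ else 0 := by
      intro j
      change (((if i = y then Pi.single (Sum.inr (Sum.inr (m y))) (l y)⁻¹ else 0 :
        (Fin G ⊕ Fin G) ⊕ (Fin M ⊕ Fin M) → ℚ) j : ℚ) : ℂ) = _
      rw [if_pos hi, Pi.single_apply]
      split_ifs <;> simp
    rw [mulVec, dotProduct, Finset.sum_congr rfl fun j _ => by rw [h1 j]]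
    simp
  · rw [if_neg hi]
    rw [mulVec, dotProduct]
    refine Finset.sum_eq_zero fun j _ => ?_
    change (((if i = y then Pi.single (Sum.inr (Sum.inr (m y))) (l y)⁻¹ else 0 :
        (Fin G ⊕ Fin G) ⊕ (Fin M ⊕ Fin M) → ℚ) j : ℚ) : ℂ) * _ = _
    rw [if_neg hi]
    simp

theorem DP_r (σ : ℂ ≃+* ℂ) {M : ℕ} {Z' : Matrix (Fin M) (Fin M) ℂ}
    (w : (Fin G ⊕ Fin G) ⊕ (Fin M ⊕ Fin M) → ℂ) (i : Fin M ⊕ Fin M) :
    (DP Z Z' σ *ᵥ w) (Sum.inr i) = (DS Z' σ *ᵥ fun j => w (Sum.inr j)) i := by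
  unfold DP
  rw [fromBlocks_mulVec, Sum.elim_inr, zero_mulVec, zero_add]
  rfl

theorem rowE_comm1 {d : ℚ} (hd : 0 < d) (hdd : ∀ i, 0 < dd i) (hl : ∀ i, 0 < l i)
    (hm : ∀ y, dd (m y) = d) (y : Fin n) :
    cK ℂ (rowE G M n l m y) * DP Z (ZE dd (fun _ => 1)) (RingEquiv.refl ℂ) =
      DZ (ZE (fun _ => d) l) * cK ℂ (rowE G M n l m y) := by
  apply Matrix.toLin'.injective
  refine LinearMap.ext fun w => ?_
  have hDS : DS (ZE dd (fun _ => 1)) (RingEquiv.refl ℂ) = DZ (ZE dd (fun _ => 1)) := rfl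
  have hl' : ∀ i, (l i : ℂ) ≠ 0 := fun i => by exact_mod_cast (hl i).ne'
  have hr := rt_neC hd
  rw [Matrix.toLin'_apply, Matrix.toLin'_apply, ← mulVec_mulVec, ← mulVec_mulVec]
  funext i
  rcases i with i | i
  · rw [rowE_l, DZE_l (fun _ => hd) hl, rowE_r, DP_r, hDS, DZE_l hdd (fun _ => one_pos), hm]
    by_cases hi : i = y
    · subst hi
      rw [if_pos rfl, if_pos rfl]
      have := hl' i
      field_simp
      push_cast
      ring
    · rw [if_neg hi, if_neg hi, mul_zero]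
  · rw [rowE_r, DZE_r (fun _ => hd) hl, rowE_l, DP_r, hDS, DZE_r hdd (fun _ => one_pos), hm]
    by_cases hi : i = y
    · subst hi
      rw [if_pos rfl, if_pos rfl]
      have := hl' i
      field_simp
      push_cast
      ring
    · rw [if_neg hi, if_neg hi, mul_zero]

theorem rowE_comm {d : ℚ} (hd : 0 < d) (hdd : ∀ i, 0 < dd i) (hl : ∀ i, 0 < l i)
    (hm : ∀ y, dd (m y) = d) (y : Fin n) (σ : ℂ ≃+* ℂ) :
    cK ℂ (rowE G M n l m y) *
        (DJ (fromBlocks (JR Z) 0 0 (JR (ZE dd (fun _ => 1))))).map σ =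
      DS (ZE (fun _ => d) l) σ * cK ℂ (rowE G M n l m y) := by
  have h1 := congrArg (fun X => X.map σ) (rowE_comm1 (G := G) (Z := Z) hd hdd hl hm y)
  beta_reduce at h1
  rw [← DJ_prod, Matrix.map_mul, Matrix.map_mul, cK_aut] at h1
  exact h1

end ell

section disc

variable {a : ℕ} {Z : Matrix (Fin a) (Fin a) ℂ}

theorem disc_zero (h : PM Z) {d : ℚ} {φ : Matrix (Fin a ⊕ Fin a) (Fin a ⊕ Fin a) ℚ}
    (hD : HasTrivialDisc (AVZ h) d (Matrix.toLin' φ)) {Z' : Matrix (Fin 0) (Fin 0) ℂ}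
    (h' : PM Z') (φ' : Matrix (Fin 0 ⊕ Fin 0) (Fin 0 ⊕ Fin 0) ℚ) :
    HasTrivialDisc (AVP h h') d (Matrix.toLin' (PH φ φ')) := by
  obtain ⟨s, E, v, x, y, hs, ⟨Ψ, p1, p2, p3, p4⟩, hE, hxy, hdet⟩ := hD
  refine ⟨s, fun v w => E (fun i => v (Sum.inl i)) (fun i => w (Sum.inl i)),
    fun i => Sum.elim (v i) 0, x, y, hs, ⟨fun u u' => Ψ u.1 u'.1, fun u' => ?_, fun u u' => ?_,
      fun u hu => ?_, fun v w => ?_⟩, fun v w => ?_, hxy, ?_⟩
  · exact ⟨fun u w => (p1 u'.1).map_add u.1 w.1, fun c u => (p1 u'.1).map_smul c u.1⟩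
  · exact p2 _ _
  · refine p3 u.1 fun h0 => hu (Prod.ext h0 ?_)
    funext i
    exact i.elim0
  · exact p4 _ _
  · beta_reduce
    rw [toLin'_apply, toLin'_apply, PHQ_l, PHQ_l]
    exact hE _ _
  · rw [← hdet]
    congr 1
    ext i j
    rw [Matrix.of_apply, Matrix.of_apply]
    have h1 : (fun k => (Matrix.toLin' (PH φ φ') (Sum.elim (v j) 0)) (Sum.inl k)) =
        Matrix.toLin' φ (v j) := by
      rw [toLin'_apply, PHQ_l, toLin'_apply]
      rfl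
    change ((E (v i) (fun k => (Matrix.toLin' (PH φ φ') (Sum.elim (v j) 0)) (Sum.inl k)) : ℚ) : ℂ) +
      s * ((E (v i) (v j) : ℚ) : ℂ) = _
    rw [h1]

end disc

section piece

variable {G M : ℕ} {Z : Matrix (Fin G) (Fin G) ℂ} (h : PM Z) {dd : Fin M → ℚ}
  (hdd : ∀ i, 0 < dd i)
  {W : Submodule ℂ (Fin G ⊕ Fin G → ℂ)} {a : ℕ} {Z' : Matrix (Fin a) (Fin a) ℂ}
  {E : Matrix (Fin G ⊕ Fin G) (Fin a ⊕ Fin a) ℚ} {F : Matrix (Fin a ⊕ Fin a) (Fin G ⊕ Fin G) ℚ}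
  {φ : Matrix (Fin a ⊕ Fin a) (Fin a ⊕ Fin a) ℚ} {α : ℂ} {d : ℚ} (k : KX Z W a Z' E F φ α d)
  {ι : Type} [Fintype ι] [DecidableEq ι]

theorem exists_scaleE {ε : ℚ} {s : ℤ} (hε : ε = 1 ∨ ε = -1) (hs : s = 1 ∨ s = -1) {γ : ℂ}
    (hγd : γ = (s : ℂ) * (Complex.I * rt d)) (hα : α = (ε : ℂ) * γ) {n : ℕ}
    (ht : tr Z' (W.map (ml F)) + s * n = 0) :
    ∃ (l : Fin n → ℚ) (hl : ∀ i, 0 < l i), a + n = 6 →
      HasTrivialDisc (AVP k.pm (pmE (fun _ => k.kw.pos) hl)) d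
        (Matrix.toLin' (PH φ (ε • phE (fun _ => d) l))) := by
  by_cases h6 : a + n = 6
  · by_cases hn : n = 0
    · subst hn
      refine ⟨fun _ => 1, fun _ => one_pos, fun _ => disc_zero k.pm (k.disc (by omega)) _ _⟩
    · have hn' : 0 < n := Nat.pos_of_ne_zero hn
      have hk := k.kw
      rw [hα] at hk
      obtain ⟨l, hl, h1⟩ := exists_disc k.pm k.kw.pos hε hs hγd hk hn' h6 ht
      exact ⟨l, hl, fun _ => h1⟩
  · exact ⟨fun _ => 1, fun _ => one_pos, fun h => absurd h h6⟩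

/-- The linear form of an elliptic curve. -/
def lnE (G M : ℕ) (j : Fin M) (c : ℂ) : ((Fin G ⊕ Fin G) ⊕ (Fin M ⊕ Fin M) → ℂ) →ₗ[ℂ] ℂ :=
  LinearMap.proj (Sum.inr (Sum.inl j)) + c • LinearMap.proj (Sum.inr (Sum.inr j))

theorem lnE_apply (j : Fin M) (c : ℂ) (w : (Fin G ⊕ Fin G) ⊕ (Fin M ⊕ Fin M) → ℂ) :
    lnE G M j c w = w (Sum.inr (Sum.inl j)) + c * w (Sum.inr (Sum.inr j)) := rfl

include k in
/-- The determinant form of the submodule, multiplied by linear forms of elliptic curves. -/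
theorem piece_mem (𝒜 : Sys) {ε : ℚ} {s : ℤ} (hε : ε = 1 ∨ ε = -1) (hs : s = 1 ∨ s = -1) {γ : ℂ}
    (hγd : γ = (s : ℂ) * (Complex.I * rt d)) (hα : α = (ε : ℂ) * γ) {n : ℕ}
    (ht : tr Z' (W.map (ml F)) + s * n = 0) (m : Fin n → Fin M) (hm : ∀ y, dd (m y) = d)
    (f : Basis ι ℂ W) (p : ι → (Fin G ⊕ Fin G → ℂ) →ₗ[ℂ] W)
    (hp : ∀ y g x, (p y (RZ Z g x) : Fin G ⊕ Fin G → ℂ) = RZ Z g (p y x))
    (ψ : MultilinearMap ℂ (fun _ : ι ⊕ Fin n => (Fin G ⊕ Fin G) ⊕ (Fin M ⊕ Fin M) → ℂ) ℂ)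
    (hψ : ∀ v, ψ v = f.det (fun y => p y (fun i => v (Sum.inl y) (Sum.inl i))) *
      ∏ y, lnE G M (m y) γ (v (Sum.inr y))) :
    ψ ∈ NA 𝒜 (h.cht.prod (pmE hdd (fun _ => one_pos)).cht)
      ⟨_, pol_prod h (pmE hdd (fun _ => one_pos)) one_pos⟩ (ι ⊕ Fin n) := by
  have hd := k.kw.pos
  have hε' : ε * ε = 1 := by rcases hε with rfl | rfl <;> norm_num
  have hs' : s * s = 1 := by rcases hs with rfl | rfl <;> norm_num
  have hγ : γ * γ = -(d : ℂ) := by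
    have h1 : ((s : ℂ)) * s = 1 := by exact_mod_cast hs'
    have h2 := rt_sqC hd
    rw [hγd]
    have h3 := Complex.I_mul_I
    calc (s : ℂ) * (Complex.I * rt d) * ((s : ℂ) * (Complex.I * rt d)) =
        (s * s : ℂ) * (Complex.I * Complex.I) * ((rt d : ℂ) * (rt d : ℂ)) := by ring
      _ = _ := by rw [h1, h2, h3]; ring
  have hγ0 : γ ≠ 0 := by
    rintro rfl
    rw [mul_zero, eq_comm, neg_eq_zero] at hγ
    exact hd.ne' (by exact_mod_cast hγ)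
  obtain ⟨l, hl, hdisc⟩ := exists_scaleE k hε hs hγd hα ht
  have hl' : ∀ i, (l i : ℂ) ≠ 0 := fun i => by exact_mod_cast (hl i).ne'
  have hkw := k.kw
  rw [hα] at hkw
  have k₂ := kwE hd hl hγ hε'
  have htr : tr Z' (W.map (ml F)) + tr (ZE (fun _ : Fin n => d) l) (UE l γ) = 0 := by
    rw [hγd, trE hd hl hs]
    exact ht
  have hn : a + n = 2 ∨ a + n = 4 ∨ a + n = 6 := by
    have h1 := k.small
    have h2 : (tr Z' (W.map (ml F))).natAbs = n := by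
      rcases hs with rfl | rfl <;> omega
    rwa [h2] at h1
  -- the factor
  let c : ℂ := ∏ y : Fin n, ((2 * γ)⁻¹ * ((l y : ℂ))⁻¹)
  have hc : c ≠ 0 := Finset.prod_ne_zero_iff.2 fun y _ =>
    mul_ne_zero (inv_ne_zero (mul_ne_zero two_ne_zero hγ0)) (inv_ne_zero (hl' y))
  have key := gen_det (h.cht.prod (pmE hdd (fun _ => one_pos)).cht)
    ⟨_, pol_prod h (pmE hdd (fun _ => one_pos)) one_pos⟩ k.pm (pmE (fun _ => hd) hl) hkw k₂ htr
    (f.map k.eqv) (basE l γ) hn hdisc 𝒜 (fun y => fromCols (qmat F (p y)) 0)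
    (fun y => cK ℂ (rowE G M n l m y)) (fun y σ => ?_)
    (fun y σ => rowE_comm hd hdd hl hm y σ) (c • ψ) (fun v => ?_)
  · have h1 : ψ = c⁻¹ • (c • ψ) := by rw [smul_smul, inv_mul_cancel₀ hc, one_smul]
    rw [h1]
    exact Submodule.smul_mem _ _ key
  · rw [DJ_prod, DP_map]
    unfold DP
    rw [fromCols_mul_fromBlocks, mul_fromCols, Matrix.zero_mul, Matrix.mul_zero, Matrix.zero_mul,
      Matrix.mul_zero, add_zero, add_zero]
    have h1 := k.qmat_comm h (hp y) σ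
    rw [← h1]
    rfl
  · have e1 : ∀ y, fromCols (qmat F (p y)) 0 *ᵥ v (Sum.inl y) =
        qmat F (p y) *ᵥ fun i => v (Sum.inl y) (Sum.inl i) := by
      intro y
      rw [fromCols_mulVec, zero_mulVec, add_zero]
      rfl
    have e2 := k.alt_q f p (fun y i => v (Sum.inl y) (Sum.inl i))
    have e3 : hkw.alt (f.map k.eqv) (fun y => fromCols (qmat F (p y)) 0 *ᵥ v (Sum.inl y)) =
        f.det (fun y => p y (fun i => v (Sum.inl y) (Sum.inl i))) := by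
      rw [← e2]
      have e4 : (fun y => fromCols (qmat F (p y)) 0 *ᵥ v (Sum.inl y)) =
          fun y => qmat F (p y) *ᵥ fun i => v (Sum.inl y) (Sum.inl i) := funext e1
      rw [e4]
      subst hα
      rfl
    have e5 : k₂.alt (basE l γ) (fun y => cK ℂ (rowE G M n l m y) *ᵥ v (Sum.inr y)) =
        c * ∏ y, lnE G M (m y) γ (v (Sum.inr y)) := by
      rw [KW.alt_apply, detE hd hl hγ hε']
      · rw [← Finset.prod_mul_distrib]
        refine Finset.prod_congr rfl fun y _ => ?_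
        rw [rowE_l, rowE_r, if_pos rfl, if_pos rfl, lnE_apply]
        ring
      · intro y i hi
        rw [rowE_l, rowE_r, if_neg hi, if_neg hi]
        exact ⟨rfl, rfl⟩
    rw [_root_.smul_apply, hψ, e3, e5, smul_eq_mul]
    ring

end piece

end

end Pool.Agent.R915
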