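import Mathlib
import Pool.Agent.R915.QE1

/-!
# Products of elliptic curves with complex multiplication
-/

set_option linter.unusedSectionVars false

namespace Pool.Agent.R915

open Matrix Module Pool.Agent.W437.HC Pool.Agent.W437.HD Pool.Agent.TH504.CB Pool.Agent.Y90
open Pool.Agent.W548.Odd hiding cv
open Pool.Agent.H204R3.CM (IsHodge)
open Pool.Agent.H204R3.SP (Kills)
open Pool.Agent.W437.HP (cK cK_mul cK_one)

noncomputable section

section small

variable {M : ℕ} {dd : Fin M → ℚ} (hdd : ∀ i, 0 < dd i)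

theorem DZ_single_l (hdd : ∀ i, 0 < dd i) (j : Fin M) :
    DZ (ZE dd (fun _ => 1)) *ᵥ (Pi.single (Sum.inl j) 1 : Fin M ⊕ Fin M → ℂ) =
      (-Complex.I * ((rt (dd j) : ℂ))⁻¹) • (Pi.single (Sum.inr j) 1 : Fin M ⊕ Fin M → ℂ) := by
  funext i
  rcases i with i | i
  · rw [DZE_l hdd (fun _ => one_pos)]
    simp
  · rw [DZE_r hdd (fun _ => one_pos)]
    by_cases hi : i = j
    · subst hi
      simp
    · simp [hi]

theorem DZ_single_r (hdd : ∀ i, 0 < dd i) (j : Fin M) :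
    DZ (ZE dd (fun _ => 1)) *ᵥ (Pi.single (Sum.inr j) 1 : Fin M ⊕ Fin M → ℂ) =
      (Complex.I * (rt (dd j) : ℂ)) • (Pi.single (Sum.inl j) 1 : Fin M ⊕ Fin M → ℂ) := by
  funext i
  rcases i with i | i
  · rw [DZE_l hdd (fun _ => one_pos)]
    by_cases hi : i = j
    · subst hi
      simp
    · simp [hi]
  · rw [DZE_r hdd (fun _ => one_pos)]
    simp

/-- The simple factors of a product of elliptic curves are elliptic curves. -/
theorem simple_ZE (hdd : ∀ i, 0 < dd i) {a : ℕ} {Z' : Matrix (Fin a) (Fin a) ℂ}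
    {E : Matrix (Fin M ⊕ Fin M) (Fin a ⊕ Fin a) ℚ} {F : Matrix (Fin a ⊕ Fin a) (Fin M ⊕ Fin M) ℚ}
    (hf : Fac (ZE dd (fun _ => 1)) Z' E F) (h' : PM Z') (hs : IsSimpleAV Z') (ha : 0 < a) :
    a = 1 := by
  -- a nonzero coordinate
  obtain ⟨x, hx⟩ : ∃ x : Fin M ⊕ Fin M, ml F (Pi.single x 1) ≠ 0 := by
    by_contra hcon
    push Not at hcon
    have h1 : cK ℂ F = 0 := by
      ext i x
      have h2 := congrFun (hcon x) i
      rw [ml_apply, mulVec_single_one] at h2
      exact h2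
    have h3 := hf.fe'
    rw [h1, Matrix.zero_mul] at h3
    have h4 := congrFun (congrFun h3 (Sum.inl ⟨0, ha⟩)) (Sum.inl ⟨0, ha⟩)
    rw [Matrix.zero_apply, Matrix.one_apply_eq] at h4
    exact zero_ne_one h4
  let j : Fin M := Sum.elim id id x
  let v1 : Fin a ⊕ Fin a → ℂ := ml F (Pi.single (Sum.inl j) 1)
  let v2 : Fin a ⊕ Fin a → ℂ := ml F (Pi.single (Sum.inr j) 1)
  let U : Submodule ℂ (Fin a ⊕ Fin a → ℂ) := Submodule.span ℂ {v1, v2}
  have hne : U ≠ ⊥ := by
    intro h0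
    apply hx
    have h1 : ml F (Pi.single x 1) ∈ U := by
      rcases x with x | x
      · exact Submodule.subset_span (Or.inl rfl)
      · exact Submodule.subset_span (Or.inr rfl)
    rw [h0] at h1
    exact h1
  have hfix : ∀ (σ : ℂ ≃+* ℂ) (y : Fin M ⊕ Fin M),
      (fun i => σ (ml F (Pi.single y 1) i)) = ml F (Pi.single y 1) := by
    intro σ y
    funext i
    rw [ml_apply, mulVec_single_one]
    change σ (((F i y : ℚ) : ℂ)) = ((F i y : ℚ) : ℂ)
    simp
  have hσ : ∀ (σ : ℂ ≃+* ℂ), ∀ v ∈ U, (fun i => σ (v i)) ∈ U := by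
    intro σ v hv
    induction hv using Submodule.span_induction with
    | mem v hv =>
      rcases hv with rfl | rfl
      · rw [hfix]
        exact Submodule.subset_span (Or.inl rfl)
      · rw [hfix]
        exact Submodule.subset_span (Or.inr rfl)
    | zero =>
      have h1 : (fun i => σ ((0 : Fin a ⊕ Fin a → ℂ) i)) = 0 := by
        funext i
        exact map_zero σ
      rw [h1]
      exact Submodule.zero_mem _
    | add v w _ _ hv hw =>
      have h1 : (fun i => σ ((v + w) i)) = (fun i => σ (v i)) + fun i => σ (w i) := by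
        funext i
        exact map_add σ _ _
      rw [h1]
      exact Submodule.add_mem _ hv hw
    | smul c v _ hv =>
      have h1 : (fun i => σ ((c • v) i)) = σ c • fun i => σ (v i) := by
        funext i
        exact map_mul σ _ _
      rw [h1]
      exact Submodule.smul_mem _ _ hv
  have hFD : ∀ w, DZ Z' *ᵥ (ml F w) = ml F (DZ (ZE dd (fun _ => 1)) *ᵥ w) := by
    intro w
    rw [ml_apply, ml_apply, mulVec_mulVec, mulVec_mulVec, hf.fd]
  have hD : ∀ v ∈ U, DZ Z' *ᵥ v ∈ U := by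
    intro v hv
    induction hv using Submodule.span_induction with
    | mem v hv =>
      rcases hv with rfl | rfl
      · rw [hFD, DZ_single_l hdd, map_smul]
        exact Submodule.smul_mem _ _ (Submodule.subset_span (Or.inr rfl))
      · rw [hFD, DZ_single_r hdd, map_smul]
        exact Submodule.smul_mem _ _ (Submodule.subset_span (Or.inl rfl))
    | zero =>
      rw [mulVec_zero]
      exact Submodule.zero_mem _
    | add v w _ _ hv hw =>
      rw [mulVec_add]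
      exact Submodule.add_mem _ hv hw
    | smul c v _ hv =>
      rw [mulVec_smul]
      exact Submodule.smul_mem _ _ hv
  have htop := stable_eq_top h'.det hs U hσ hD hne
  have h1 : finrank ℂ U ≤ 2 := by
    have h2 := finrank_span_le_card (R := ℂ) ({v1, v2} : Set (Fin a ⊕ Fin a → ℂ))
    refine h2.trans ?_
    rw [Set.toFinset_card]
    have h3 : Fintype.card ({v1, v2} : Set (Fin a ⊕ Fin a → ℂ)) ≤ 2 := by
      rw [← Nat.card_eq_fintype_card]
      exact (Set.ncard_insert_le _ _).trans (by rw [Set.ncard_singleton])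
    exact h3
  rw [htop, finrank_top, finrank_fintype_fun_eq_card, Fintype.card_sum, Fintype.card_fin] at h1
  omega

theorem smallF_ZE (hdd : ∀ i, 0 < dd i) : SmallF (ZE dd (fun _ => 1)) := by
  intro a Z' E F hf h' hs ha
  have h1 := simple_ZE hdd hf h' hs ha
  exact ⟨by omega, fun _ => h1⟩

end small

section theta

variable {M : ℕ} {dd : Fin M → ℚ} (hdd : ∀ i, 0 < dd i) (ss : Fin M → ℤ)
  (hss : ∀ i, ss i = 1 ∨ ss i = -1)

/-- The linear form. -/
def lmE (M : ℕ) (j : Fin M) (c : ℂ) : (Fin M ⊕ Fin M → ℂ) →ₗ[ℂ] ℂ :=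
  LinearMap.proj (Sum.inl j) + c • LinearMap.proj (Sum.inr j)

theorem lmE_apply (j : Fin M) (c : ℂ) (w : Fin M ⊕ Fin M → ℂ) :
    lmE M j c w = w (Sum.inl j) + c * w (Sum.inr j) := rfl

/-- The square roots. -/
def gam (dd : Fin M → ℚ) (ss : Fin M → ℤ) (j : Fin M) : ℂ := (ss j : ℂ) * (Complex.I * rt (dd j))

/-- The product of the linear forms. -/
def Thet (dd : Fin M → ℚ) (ss : Fin M → ℤ) :
    MultilinearMap ℂ (fun _ : Fin M => Fin M ⊕ Fin M → ℂ) ℂ :=
  (MultilinearMap.mkPiAlgebra ℂ (Fin M) ℂ).compLinearMap fun j => lmE M j (-gam dd ss j)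

theorem Thet_apply (v : Fin M → Fin M ⊕ Fin M → ℂ) :
    Thet dd ss v = ∏ j, lmE M j (-gam dd ss j) (v j) := rfl

theorem Irt_sq {d : ℚ} (hd : 0 < d) : (Complex.I * rt d) * (Complex.I * rt d) = -(d : ℂ) := by
  calc (Complex.I * (rt d : ℂ)) * (Complex.I * rt d) =
      (Complex.I * Complex.I) * ((rt d : ℂ) * rt d) := by ring
    _ = _ := by rw [Complex.I_mul_I, rt_sqC hd]; ring

/-- The conjugates of the square roots. -/
def rho (d : ℚ) (σ : ℂ ≃+* ℂ) : ℤ := if σ (Complex.I * rt d) = Complex.I * rt d then 1 else -1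

theorem rho_spec {d : ℚ} (hd : 0 < d) (σ : ℂ ≃+* ℂ) :
    σ (Complex.I * rt d) = (rho d σ : ℂ) * (Complex.I * rt d) := by
  unfold rho
  rcases aut_pm (Irt_sq hd) σ with h1 | h1
  · rw [if_pos h1, h1]
    push_cast
    ring
  · by_cases h2 : σ (Complex.I * rt d) = Complex.I * rt d
    · rw [if_pos h2, h2]
      push_cast
      ring
    · rw [if_neg h2, h1]
      push_cast
      ring

theorem rho_pm (d : ℚ) (σ : ℂ ≃+* ℂ) : rho d σ = 1 ∨ rho d σ = -1 := by
  unfold rho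
  split_ifs
  · exact Or.inl rfl
  · exact Or.inr rfl

theorem DS_l (hdd : ∀ i, 0 < dd i) (σ : ℂ ≃+* ℂ) (v : Fin M ⊕ Fin M → ℂ) (j : Fin M) :
    (DS (ZE dd (fun _ => 1)) σ *ᵥ v) (Sum.inl j) =
      σ (Complex.I * rt (dd j)) * v (Sum.inr j) := by
  have h1 := map_mulVec_aut σ (DZ (ZE dd (fun _ => 1))) (fun i => σ.symm (v i))
  have h2 : (fun i => σ (σ.symm (v i))) = v := by
    funext i
    simp
  rw [h2] at h1
  have h3 := congrFun h1 (Sum.inl j)
  beta_reduce at h3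
  rw [DZE_l hdd (fun _ => one_pos)] at h3
  rw [show DS (ZE dd (fun _ => 1)) σ = (DZ (ZE dd (fun _ => 1))).map σ from rfl, ← h3, map_mul,
    RingEquiv.apply_symm_apply]
  congr 2
  push_cast
  ring

theorem DS_r (hdd : ∀ i, 0 < dd i) (σ : ℂ ≃+* ℂ) (v : Fin M ⊕ Fin M → ℂ) (j : Fin M) :
    (DS (ZE dd (fun _ => 1)) σ *ᵥ v) (Sum.inr j) =
      (σ (Complex.I * rt (dd j)))⁻¹ * v (Sum.inl j) := by
  have h1 := map_mulVec_aut σ (DZ (ZE dd (fun _ => 1))) (fun i => σ.symm (v i))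
  have h2 : (fun i => σ (σ.symm (v i))) = v := by
    funext i
    simp
  rw [h2] at h1
  have h3 := congrFun h1 (Sum.inr j)
  beta_reduce at h3
  rw [DZE_r hdd (fun _ => one_pos)] at h3
  rw [show DS (ZE dd (fun _ => 1)) σ = (DZ (ZE dd (fun _ => 1))).map σ from rfl, ← h3, map_mul,
    RingEquiv.apply_symm_apply, ← map_inv₀]
  congr 2
  rw [mul_inv, mul_inv, Complex.inv_I]
  push_cast
  ring

theorem lm_DS (hdd : ∀ i, 0 < dd i) (hss : ∀ i, ss i = 1 ∨ ss i = -1) (σ : ℂ ≃+* ℂ)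
    (v : Fin M ⊕ Fin M → ℂ) (j : Fin M) :
    lmE M j (-gam dd ss j) (DS (ZE dd (fun _ => 1)) σ *ᵥ v) =
      (-(ss j * rho (dd j) σ : ℤ) : ℂ) * lmE M j (-gam dd ss j) v := by
  rw [lmE_apply, lmE_apply, DS_l hdd, DS_r hdd, rho_spec (hdd j)]
  unfold gam
  have hr := rt_neC (hdd j)
  have hI := Complex.I_ne_zero
  have hrho : ((rho (dd j) σ : ℤ) : ℂ) * ((rho (dd j) σ : ℤ) : ℂ) = 1 := by
    rcases rho_pm (dd j) σ with h1 | h1 <;> rw [h1] <;> norm_num
  have hsj : ((ss j : ℤ) : ℂ) * ((ss j : ℤ) : ℂ) = 1 := by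
    rcases hss j with h1 | h1 <;> rw [h1] <;> norm_num
  have hrho0 : ((rho (dd j) σ : ℤ) : ℂ) ≠ 0 := fun h0 => by rw [h0, mul_zero] at hrho; exact zero_ne_one hrho
  have hinv : (((rho (dd j) σ : ℤ) : ℂ) * (Complex.I * rt (dd j)))⁻¹ =
      ((rho (dd j) σ : ℤ) : ℂ) * (Complex.I * rt (dd j))⁻¹ := by
    rw [mul_inv]
    congr 1
    exact inv_eq_of_mul_eq_one_left hrho
  rw [hinv]
  have hc : (Complex.I * (rt (dd j) : ℂ)) * (Complex.I * (rt (dd j) : ℂ))⁻¹ = 1 :=
    mul_inv_cancel₀ (mul_ne_zero hI hr)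
  push_cast
  linear_combination (-((ss j : ℤ) : ℂ) * ((rho (dd j) σ : ℤ) : ℂ) * v (Sum.inl j)) * hc -
    (((rho (dd j) σ : ℤ) : ℂ) * (Complex.I * (rt (dd j) : ℂ)) * v (Sum.inr j)) * hsj

/-- The span of the conjugates of the complex structure. -/
def LS {g : ℕ} (Z : Matrix (Fin g) (Fin g) ℂ) : Submodule ℂ (Matrix (Fin g ⊕ Fin g) (Fin g ⊕ Fin g) ℂ) :=
  Submodule.span ℂ (Set.range (DS Z))

theorem gal_LS {g : ℕ} {Z : Matrix (Fin g) (Fin g) ℂ} : Gal (LS Z) := by
  intro τ X hX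
  unfold LS at hX
  induction hX using Submodule.span_induction with
  | mem X hX =>
    obtain ⟨σ, rfl⟩ := hX
    have h1 : (DS Z σ).map τ = DS Z (σ.trans τ) := by
      ext i j
      simp [DS]
    rw [h1]
    exact Submodule.subset_span ⟨_, rfl⟩
  | zero =>
    rw [Matrix.map_zero _ (map_zero τ)]
    exact Submodule.zero_mem _
  | add X Y _ _ hX hY =>
    rw [Matrix.map_add _ (map_add τ)]
    exact Submodule.add_mem _ hX hY
  | smul c X _ hX =>
    have h1 : (c • X).map τ = τ c • X.map τ := by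
      ext i j
      simp
    rw [h1]
    exact Submodule.smul_mem _ _ hX

theorem DZ_memS {g : ℕ} {Z : Matrix (Fin g) (Fin g) ℂ} : DJ (JR Z) ∈ LS Z :=
  Submodule.subset_span ⟨RingEquiv.refl ℂ, rfl⟩

/-- The product of the linear forms is killed. -/
theorem Thet_kill (hdd : ∀ i, 0 < dd i) (hss : ∀ i, ss i = 1 ∨ ss i = -1)
    (hbal : ∀ σ : ℂ ≃+* ℂ, ∑ j, ss j * rho (dd j) σ = 0) :
    ∀ X ∈ LS (ZE dd (fun _ => 1)), act X (CF (Thet dd ss)) = 0 := by
  have h1 : LS (ZE dd (fun _ => 1)) ≤ LinearMap.ker (actL (CF (Thet dd ss))) := by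
    refine Submodule.span_le.2 ?_
    rintro _ ⟨σ, rfl⟩
    rw [SetLike.mem_coe, LinearMap.mem_ker, actL_apply]
    refine act_of_kills fun v => ?_
    have h2 : ∀ k, Thet dd ss (Function.update v k (ph _ (DS (ZE dd (fun _ => 1)) σ) (v k))) =
        (-(ss k * rho (dd k) σ : ℤ) : ℂ) * Thet dd ss v := by
      intro k
      rw [Thet_apply, Thet_apply, ← Finset.mul_prod_erase Finset.univ _ (Finset.mem_univ k),
        ← Finset.mul_prod_erase Finset.univ (fun j => lmE M j (-gam dd ss j) (v j))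
          (Finset.mem_univ k), Function.update_self, ph_apply', lm_DS ss hdd hss, mul_assoc]
      congr 2
      refine Finset.prod_congr rfl fun j hj => ?_
      rw [Function.update_of_ne (Finset.ne_of_mem_erase hj)]
    rw [Finset.sum_congr rfl fun k _ => h2 k, ← Finset.sum_mul]
    have h3 : ∑ k, (-(ss k * rho (dd k) σ : ℤ) : ℂ) = 0 := by
      have h4 := hbal σ
      rw [Finset.sum_neg_distrib]
      have h5 : ((∑ k, ss k * rho (dd k) σ : ℤ) : ℂ) = 0 := by
        rw [h4]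
        norm_num
      push_cast at h5 ⊢
      rw [h5, neg_zero]
    rw [h3, zero_mul]
  intro X hX
  have h2 := h1 hX
  rwa [LinearMap.mem_ker, actL_apply] at h2

theorem Thet_mem (𝒜 : Sys) (hdd : ∀ i, 0 < dd i) (hss : ∀ i, ss i = 1 ∨ ss i = -1)
    (hbal : ∀ σ : ℂ ≃+* ℂ, ∑ j, ss j * rho (dd j) σ = 0) :
    Thet dd ss ∈ NA 𝒜 (pmE hdd (fun _ => one_pos)).cht ⟨_, (pmE hdd (fun _ => one_pos)).polar⟩
      (Fin M) :=
  NA_of_hodge _ _ 𝒜 gal_LS DZ_memS
    (fun r hr => 𝒜.of_ring (ring_main (pmE hdd (fun _ => one_pos)) (smallF_ZE hdd) r hr))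
    (Thet_kill ss hdd hss hbal)

end theta

end

end Pool.Agent.R915
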