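import Mathlib
import Pool.Agent.R915.QE2

/-!
# Balanced products of determinant forms
-/

set_option linter.unusedSectionVars false

namespace Pool.Agent.R915

open Matrix Module Pool.Agent.W437.HC Pool.Agent.W437.HD Pool.Agent.TH504.CB Pool.Agent.Y90
open Pool.Agent.W548.Odd hiding cv
open Pool.Agent.H204R3.CM (IsHodge)
open Pool.Agent.W437.HP (cK cK_mul cK_one)

noncomputable section

section beta

variable {M : ℕ}

/-- The form on the elliptic factor. -/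
def betE (γ : Fin M → ℂ) : MultilinearMap ℂ (fun _ : Fin M ⊕ Fin M => Fin M ⊕ Fin M → ℂ) ℂ :=
  prd ((MultilinearMap.mkPiAlgebra ℂ (Fin M) ℂ).compLinearMap fun j => lmE M j (γ j))
    ((MultilinearMap.mkPiAlgebra ℂ (Fin M) ℂ).compLinearMap fun j => lmE M j (-γ j))

theorem betE_apply (γ : Fin M → ℂ) (v : Fin M ⊕ Fin M → Fin M ⊕ Fin M → ℂ) :
    betE γ v = (∏ j, lmE M j (γ j) (v (Sum.inl j))) * ∏ j, lmE M j (-γ j) (v (Sum.inr j)) := rfl

theorem altQ_betE (γ : Fin M → ℂ) : altQ (betE γ) (fun k => Pi.single k 1) =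
    ∏ j, (-(2 * γ j)) := by
  have h1 : altQ (betE γ) (fun k => Pi.single k 1) =
      (fromBlocks (1 : Matrix (Fin M) (Fin M) ℂ) 1 (diagonal γ) (-diagonal γ)).det := by
    rw [det_apply']
    unfold altQ
    refine Finset.sum_congr rfl fun σ _ => ?_
    rw [betE_apply, Fintype.prod_sum_type]
    congr 2
    · refine Finset.prod_congr rfl fun j _ => ?_
      rw [lmE_apply, single_cv]
      rcases hσ : σ (Sum.inl j) with i | i
      · by_cases hij : j = i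
        · subst hij
          simp
        · have hij' : ¬ i = j := fun h => hij h.symm
          simp [hij, hij']
      · by_cases hij : j = i
        · subst hij
          simp
        · have hij' : ¬ i = j := fun h => hij h.symm
          simp [hij, hij']
    · refine Finset.prod_congr rfl fun j _ => ?_
      rw [lmE_apply, single_cv]
      rcases hσ : σ (Sum.inr j) with i | i
      · by_cases hij : j = i
        · subst hij
          simp
        · have hij' : ¬ i = j := fun h => hij h.symm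
          simp [hij, hij']
      · by_cases hij : j = i
        · subst hij
          simp
        · have hij' : ¬ i = j := fun h => hij h.symm
          simp [hij, hij']
  have h2 : -diagonal γ - diagonal γ = diagonal fun j => -(2 * γ j) := by
    ext i j
    by_cases hij : i = j
    · subst hij
      simp
      ring
    · simp [hij]
  rw [h1, det_fromBlocks_one₁₁, Matrix.mul_one, h2, det_diagonal]

end beta

section theta

variable {G M : ℕ} {Z : Matrix (Fin G) (Fin G) ℂ} (h : PM Z) {dd : Fin M → ℚ}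
  (ss : Fin M → ℤ)

theorem theta_mem (𝒜 : Sys) (hdd : ∀ i, 0 < dd i) (hss : ∀ i, ss i = 1 ∨ ss i = -1)
    (hbal : ∀ σ : ℂ ≃+* ℂ, ∑ j, ss j * rho (dd j) σ = 0)
    (ψ : MultilinearMap ℂ (fun _ : Fin M => (Fin G ⊕ Fin G) ⊕ (Fin M ⊕ Fin M) → ℂ) ℂ)
    (hψ : ∀ v, ψ v = ∏ j, lnE G M j (-gam dd ss j) (v j)) :
    ψ ∈ NA 𝒜 (h.cht.prod (pmE hdd (fun _ => one_pos)).cht)
      ⟨_, pol_prod h (pmE hdd (fun _ => one_pos)) one_pos⟩ (Fin M) := by
  refine NA_pull (R := fromCols (0 : Matrix (Fin M ⊕ Fin M) (Fin G ⊕ Fin G) ℚ)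
    (1 : Matrix (Fin M ⊕ Fin M) (Fin M ⊕ Fin M) ℚ)) _ _ _ _ 𝒜 ?_ (Thet_mem ss 𝒜 hdd hss hbal) ψ fun v => ?_
  · have h1 : cK ℂ (fromCols (0 : Matrix (Fin M ⊕ Fin M) (Fin G ⊕ Fin G) ℚ)
        (1 : Matrix (Fin M ⊕ Fin M) (Fin M ⊕ Fin M) ℚ)) =
        fromCols 0 1 := by
      ext i j
      rcases j with j | j
      · simp [cK]
      · rw [fromCols_apply_inr]
        simp [cK, Matrix.one_apply, apply_ite]
    rw [DJ_prod, h1]
    unfold DP
    rw [fromCols_mul_fromBlocks, mul_fromCols]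
    simp only [Matrix.zero_mul, Matrix.mul_zero, Matrix.one_mul, Matrix.mul_one, add_zero, zero_add]
    rfl
  · rw [hψ, Thet_apply]
    refine Finset.prod_congr rfl fun j _ => ?_
    have h2 : ∀ i, (cK ℂ (fromCols (0 : Matrix (Fin M ⊕ Fin M) (Fin G ⊕ Fin G) ℚ)
        (1 : Matrix (Fin M ⊕ Fin M) (Fin M ⊕ Fin M) ℚ)) *ᵥ v j) i =
        v j (Sum.inr i) := by
      intro i
      have h1 : cK ℂ (fromCols (0 : Matrix (Fin M ⊕ Fin M) (Fin G ⊕ Fin G) ℚ)
        (1 : Matrix (Fin M ⊕ Fin M) (Fin M ⊕ Fin M) ℚ)) =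
          fromCols 0 1 := by
        ext i j
        rcases j with j | j
        · simp [cK]
        · rw [fromCols_apply_inr]
          simp [cK, Matrix.one_apply, apply_ite]
      rw [h1, fromCols_mulVec, zero_mulVec, zero_add, one_mulVec]
      rfl
    rw [lnE_apply, lmE_apply, h2, h2]

end theta

section total

variable {G : ℕ} {Z : Matrix (Fin G) (Fin G) ℂ}

/-- The trace of the conjugates of a submodule attached to an imaginary quadratic field. -/
theorem KX.tr_rho {W : Submodule ℂ (Fin G ⊕ Fin G → ℂ)} {a : ℕ} {Z' : Matrix (Fin a) (Fin a) ℂ}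
    {E : Matrix (Fin G ⊕ Fin G) (Fin a ⊕ Fin a) ℚ} {F : Matrix (Fin a ⊕ Fin a) (Fin G ⊕ Fin G) ℚ}
    {φ : Matrix (Fin a ⊕ Fin a) (Fin a ⊕ Fin a) ℚ} {α : ℂ} {d : ℚ} (k : KX Z W a Z' E F φ α d)
    (hW : Stab (LZ Z) W) (σ : ℂ ≃+* ℂ) :
    tr Z (cjS σ W) = tr Z' (W.map (ml F)) * rho d σ := by
  have h1 : tr Z (cjS σ W) = tr Z' (cjS σ (W.map (ml F))) := by
    rw [cjS_ml]
    exact (k.fac.tr_map (inj_cj k.inj σ) (hW.cj gal_LZ σ)).symm
  have hα : α = Complex.I * rt d ∨ α = -(Complex.I * rt d) := by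
    have h2 : (α - Complex.I * rt d) * (α + Complex.I * rt d) = 0 := by
      have h3 := k.kw.al
      have h4 := Irt_sq k.kw.pos
      linear_combination h3 - h4
    rcases mul_eq_zero.1 h2 with h3 | h3
    · left
      linear_combination h3
    · right
      linear_combination h3
  have hσ : σ α = (rho d σ : ℂ) * α := by
    rcases hα with h2 | h2
    · rw [h2, rho_spec k.kw.pos]
    · rw [h2, map_neg, rho_spec k.kw.pos]
      ring
  have h0 := k.kw.al_ne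
  rw [h1]
  rcases k.kw.tr_cj σ with ⟨h2, h3⟩ | ⟨h2, h3⟩
  · rw [h3]
    rcases rho_pm d σ with h4 | h4
    · rw [h4, mul_one]
    · exfalso
      rw [h2, h4] at hσ
      push_cast at hσ
      exact h0 (by linear_combination hσ / 2)
  · rw [h3]
    rcases rho_pm d σ with h4 | h4
    · exfalso
      rw [h2, h4] at hσ
      push_cast at hσ
      exact h0 (by linear_combination -hσ / 2)
    · rw [h4]
      ring

theorem KX.exists_eps {W : Submodule ℂ (Fin G ⊕ Fin G → ℂ)} {a : ℕ} {Z' : Matrix (Fin a) (Fin a) ℂ}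
    {E : Matrix (Fin G ⊕ Fin G) (Fin a ⊕ Fin a) ℚ} {F : Matrix (Fin a ⊕ Fin a) (Fin G ⊕ Fin G) ℚ}
    {φ : Matrix (Fin a ⊕ Fin a) (Fin a ⊕ Fin a) ℚ} {α : ℂ} {d : ℚ} (k : KX Z W a Z' E F φ α d) :
    ∃ (n : ℕ) (s : ℤ) (ε : ℚ), (ε = 1 ∨ ε = -1) ∧ (s = 1 ∨ s = -1) ∧
      α = (ε : ℂ) * ((s : ℂ) * (Complex.I * rt d)) ∧ tr Z' (W.map (ml F)) + s * n = 0 := by
  have hα : α = Complex.I * rt d ∨ α = -(Complex.I * rt d) := by
    have h2 : (α - Complex.I * rt d) * (α + Complex.I * rt d) = 0 := by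
      have h3 := k.kw.al
      have h4 := Irt_sq k.kw.pos
      linear_combination h3 - h4
    rcases mul_eq_zero.1 h2 with h3 | h3
    · left
      linear_combination h3
    · right
      linear_combination h3
  rcases le_total (tr Z' (W.map (ml F))) 0 with h1 | h1
  · rcases hα with h2 | h2
    · refine ⟨(tr Z' (W.map (ml F))).natAbs, 1, 1, Or.inl rfl, Or.inl rfl, ?_, by omega⟩
      rw [h2]
      push_cast
      ring
    · refine ⟨(tr Z' (W.map (ml F))).natAbs, 1, -1, Or.inr rfl, Or.inl rfl, ?_, by omega⟩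
      rw [h2]
      push_cast
      ring
  · rcases hα with h2 | h2
    · refine ⟨(tr Z' (W.map (ml F))).natAbs, -1, -1, Or.inr rfl, Or.inr rfl, ?_, by omega⟩
      rw [h2]
      push_cast
      ring
    · refine ⟨(tr Z' (W.map (ml F))).natAbs, -1, 1, Or.inl rfl, Or.inr rfl, ?_, by omega⟩
      rw [h2]
      push_cast
      ring

/-- Balanced products of determinant forms belong to the system. -/
theorem det_NA (𝒜 : Sys) (h : PM Z) {S : Type} [Fintype S] (W : S → Submodule ℂ (Fin G ⊕ Fin G → ℂ))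
    (hW : ∀ q, Stab (LZ Z) (W q))
    (hK : ∀ q, ∃ (a : ℕ) (Z' : Matrix (Fin a) (Fin a) ℂ)
      (E : Matrix (Fin G ⊕ Fin G) (Fin a ⊕ Fin a) ℚ) (F : Matrix (Fin a ⊕ Fin a) (Fin G ⊕ Fin G) ℚ)
      (φ : Matrix (Fin a ⊕ Fin a) (Fin a ⊕ Fin a) ℚ) (α : ℂ) (d : ℚ), KX Z (W q) a Z' E F φ α d)
    (hbal : ∀ τ : ℂ ≃+* ℂ, ∑ q, tr Z (cjS τ (W q)) = 0)
    (ι : S → Type) [∀ q, Fintype (ι q)] [∀ q, DecidableEq (ι q)] (f : ∀ q, Basis (ι q) ℂ (W q))
    (p : ∀ q, ι q → (Fin G ⊕ Fin G → ℂ) →ₗ[ℂ] W q)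
    (hp : ∀ q y g x, (p q y (RZ Z g x) : Fin G ⊕ Fin G → ℂ) = RZ Z g (p q y x))
    (ψ : MultilinearMap ℂ (fun _ : (Σ q, ι q) => Fin G ⊕ Fin G → ℂ) ℂ)
    (hψ : ∀ v, ψ v = ∏ q, (f q).det (fun y => p q y (v ⟨q, y⟩))) :
    ψ ∈ NA 𝒜 h.cht ⟨_, h.polar⟩ (Σ q, ι q) := by
  choose a Z' E F φ α d k using hK
  choose n s ε hε hs hα ht using fun q => (k q).exists_eps
  let M : ℕ := Fintype.card (Σ q, Fin (n q))
  let eM : (Σ q, Fin (n q)) ≃ Fin M := Fintype.equivFin _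
  let dd : Fin M → ℚ := fun j => d (eM.symm j).1
  let ss : Fin M → ℤ := fun j => s (eM.symm j).1
  have hdd : ∀ j, 0 < dd j := fun j => (k _).kw.pos
  have hss : ∀ j, ss j = 1 ∨ ss j = -1 := fun j => hs _
  have hdm : ∀ q y, dd (eM ⟨q, y⟩) = d q := by
    intro q y
    change d (eM.symm (eM ⟨q, y⟩)).1 = d q
    rw [Equiv.symm_apply_apply]
  have hsm : ∀ q y, ss (eM ⟨q, y⟩) = s q := by
    intro q y
    change s (eM.symm (eM ⟨q, y⟩)).1 = s q
    rw [Equiv.symm_apply_apply]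
  have hb : ∀ σ : ℂ ≃+* ℂ, ∑ j, ss j * rho (dd j) σ = 0 := by
    intro σ
    rw [← Equiv.sum_comp eM (fun j => ss j * rho (dd j) σ), Fintype.sum_sigma]
    have h1 : ∀ q, ∑ y : Fin (n q), ss (eM ⟨q, y⟩) * rho (dd (eM ⟨q, y⟩)) σ =
        -tr Z (cjS σ (W q)) := by
      intro q
      rw [Finset.sum_congr rfl fun y _ => by rw [hdm, hsm], Finset.sum_const, Finset.card_univ,
        Fintype.card_fin, nsmul_eq_mul, (k q).tr_rho (hW q)]
      linear_combination (rho (d q) σ) * ht q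
    rw [Finset.sum_congr rfl fun q _ => h1 q, Finset.sum_neg_distrib, hbal, neg_zero]
  let hX := pmE hdd (fun _ => one_pos)
  let N := fun (κ : Type) [Finite κ] => NA 𝒜 (h.cht.prod hX.cht) ⟨_, pol_prod h hX one_pos⟩ κ
  have hclo : Clo N := clo_NA _ _ _
  -- the pieces
  let P : ∀ q, MultilinearMap ℂ
      (fun _ : ι q ⊕ Fin (n q) => (Fin G ⊕ Fin G) ⊕ (Fin M ⊕ Fin M) → ℂ) ℂ := fun q =>
    prd ((f q).det.toMultilinearMap.compLinearMap
        (fun y => (p q y).comp (LinearMap.funLeft ℂ ℂ Sum.inl)))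
      ((MultilinearMap.mkPiAlgebra ℂ (Fin (n q)) ℂ).compLinearMap
        (fun y => lnE G M (eM ⟨q, y⟩) ((s q : ℂ) * (Complex.I * rt (d q)))))
  have hP : ∀ q, P q ∈ N (ι q ⊕ Fin (n q)) := fun q =>
    piece_mem h hdd (k q) 𝒜 (hε q) (hs q) rfl (hα q) (ht q) (fun y => eM ⟨q, y⟩) (hdm q) (f q)
      (p q) (hp q) (P q) fun v => rfl
  obtain ⟨Ψ, hΨ, hΨ'⟩ := hclo.exists_fam (fun q => ι q ⊕ Fin (n q)) P hP (Equiv.refl _)
  -- the complement
  let Θ : MultilinearMap ℂ (fun _ : Fin M => (Fin G ⊕ Fin G) ⊕ (Fin M ⊕ Fin M) → ℂ) ℂ :=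
    (MultilinearMap.mkPiAlgebra ℂ (Fin M) ℂ).compLinearMap fun j => lnE G M j (-gam dd ss j)
  have hΘ : Θ ∈ N (Fin M) := theta_mem h ss 𝒜 hdd hss hb Θ fun v => rfl
  -- the product
  let e : (Σ q, ι q ⊕ Fin (n q)) ⊕ Fin M ≃ (Σ q, ι q) ⊕ (Fin M ⊕ Fin M) :=
    (Equiv.sumCongr ((Equiv.sigmaSumDistrib ι (fun q => Fin (n q))).trans
      (Equiv.sumCongr (Equiv.refl _) eM)) (Equiv.refl _)).trans (Equiv.sumAssoc _ _ _)
  let T : MultilinearMap ℂ
      (fun _ : (Σ q, ι q) ⊕ (Fin M ⊕ Fin M) => (Fin G ⊕ Fin G) ⊕ (Fin M ⊕ Fin M) → ℂ) ℂ :=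
    prd (ψ.compLinearMap (fun _ => LinearMap.funLeft ℂ ℂ Sum.inl))
      ((betE (gam dd ss)).compLinearMap (fun _ => LinearMap.funLeft ℂ ℂ Sum.inr))
  have hT : T ∈ N ((Σ q, ι q) ⊕ (Fin M ⊕ Fin M)) := by
    refine hclo.mul _ _ _ e Ψ Θ T hΨ hΘ fun w => ?_
    have h1 : T w = ψ (fun x i => w (Sum.inl x) (Sum.inl i)) *
        ((∏ j, lmE M j (gam dd ss j) (fun i => w (Sum.inr (Sum.inl j)) (Sum.inr i))) *
          ∏ j, lmE M j (-gam dd ss j) (fun i => w (Sum.inr (Sum.inr j)) (Sum.inr i))) := rfl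
    have h2 : Θ (fun j => w (e (Sum.inr j))) =
        ∏ j, lmE M j (-gam dd ss j) (fun i => w (Sum.inr (Sum.inr j)) (Sum.inr i)) := rfl
    have h3 : Ψ (fun x => w (e (Sum.inl x))) =
        ∏ q, ((f q).det (fun y => p q y (fun i => w (Sum.inl ⟨q, y⟩) (Sum.inl i))) *
          ∏ y, lmE M (eM ⟨q, y⟩) ((s q : ℂ) * (Complex.I * rt (d q)))
            (fun i => w (Sum.inr (Sum.inl (eM ⟨q, y⟩))) (Sum.inr i))) := by
      rw [hΨ']
      rfl
    have h4 : ∀ q (y : Fin (n q)), (s q : ℂ) * (Complex.I * rt (d q)) = gam dd ss (eM ⟨q, y⟩) := by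
      intro q y
      unfold gam
      rw [hdm, hsm]
    rw [h1, h2, h3, hψ, Finset.prod_mul_distrib, ← mul_assoc]
    congr 2
    rw [← Equiv.prod_comp eM (fun j => lmE M j (gam dd ss j)
      (fun i => w (Sum.inr (Sum.inl j)) (Sum.inr i))), Fintype.prod_sigma]
    refine Finset.prod_congr rfl fun q _ => Finset.prod_congr rfl fun y _ => ?_
    rw [h4 q y]
  refine NA_push h hX 𝒜 ψ (betE (gam dd ss)) ?_ T (fun w => rfl) hT
  rw [altQ_betE]
  refine Finset.prod_ne_zero_iff.2 fun j _ => neg_ne_zero.2 (mul_ne_zero two_ne_zero ?_)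
  unfold gam
  refine mul_ne_zero ?_ (mul_ne_zero Complex.I_ne_zero (rt_neC (hdd j)))
  rcases hss j with h1 | h1 <;> rw [h1] <;> norm_num

end total

end

end Pool.Agent.R915
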