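import Mathlib
import Pool.Agent.R915.QE3
import Pool.Agent.R915.C3

/-!
# Local conditions on the irreducible submodules of a simple factor
-/

set_option linter.unusedSectionVars false

namespace Pool.Agent.R915

open Matrix Module Pool.Agent.W437.HC Pool.Agent.W437.HD Pool.Agent.TH504.CB Pool.Agent.Y90
open Pool.Agent.W548.Odd hiding cv
open Pool.Agent.H204R3.CM (IsHodge)
open Pool.Agent.W437.HP (cK cK_mul cK_one)

noncomputable section

/-- The local conditions on an irreducible submodule. -/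
structure LC {a : ℕ} {Z : Matrix (Fin a) (Fin a) ℂ} (h : PM Z)
    (U : Submodule ℂ (Fin a ⊕ Fin a → ℂ)) : Prop where
  rk : 2 ≤ finrank ℂ U → Rk1 Z U
  ns : 2 ≤ finrank ℂ U → ∀ (σ : ℂ ≃+* ℂ) (c : ℂ), ∃ u ∈ U, DS Z σ *ᵥ u ≠ c • u
  or : (SDu Z U ∧ 2 ≤ finrank ℂ U) ∨ ∃ φ α d, KW Z U φ α d ∧
    (a + (tr Z U).natAbs = 2 ∨ a + (tr Z U).natAbs = 4 ∨ a + (tr Z U).natAbs = 6) ∧
    (a = 6 → HasTrivialDisc (AVZ h) d (Matrix.toLin' φ))

section tr0

variable {g : ℕ} {Z : Matrix (Fin g) (Fin g) ℂ} (h : PM Z)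
include h

/-- The trace of the complex structure on a stable subspace with an equivariant projector. -/
theorem trace_DP {U : Submodule ℂ (Fin g ⊕ Fin g → ℂ)} (hU : Stab (LZ Z) U)
    {e : Matrix (Fin g ⊕ Fin g) (Fin g ⊕ Fin g) ℂ} (h1 : ∀ v, e *ᵥ v ∈ U)
    (h2 : ∀ v ∈ U, e *ᵥ v = v) (h3 : DZ Z * e = e * DZ Z) :
    trace (DZ Z * e) = (pd Z U : ℂ) - qd Z U := by
  have e1 := trace_pP (c := 1) (Or.inl rfl) h hU h1 h2 h3
  have e2 := trace_pP (c := -1) (Or.inr rfl) h hU h1 h2 h3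
  have e3 : DZ Z * e = pP (DZ Z) e 1 - pP (DZ Z) e (-1) := by
    unfold pP
    rw [← smul_sub, ← sub_mul, one_smul, neg_one_smul]
    have e4 : (1 + DZ Z - (1 + -DZ Z)) = (2 : ℂ) • DZ Z := by
      rw [two_smul]
      abel
    rw [e4, Matrix.smul_mul, smul_smul, inv_mul_cancel₀ two_ne_zero, one_smul]
  rw [e3, trace_sub, e1, e2]
  rfl

/-- Traces of products with an equivariant matrix vanish on the Lie algebra if they vanish for the
conjugates of the complex structure. -/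
theorem trace_LZ {e : Matrix (Fin g ⊕ Fin g) (Fin g ⊕ Fin g) ℂ}
    (he : ∀ X ∈ LZ Z, X * e = e * X) (h0 : ∀ σ, trace (DS Z σ * e) = 0) :
    ∀ X ∈ LZ Z, trace (X * e) = 0 := by
  let C : Submodule ℂ (Matrix (Fin g ⊕ Fin g) (Fin g ⊕ Fin g) ℂ) :=
    { carrier := {X | X * e = e * X ∧ trace (X * e) = 0}
      add_mem' := fun {X Y} hX hY => by
        refine ⟨?_, ?_⟩
        · rw [Matrix.add_mul, Matrix.mul_add, hX.1, hY.1]
        · rw [Matrix.add_mul, trace_add, hX.2, hY.2, add_zero]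
      zero_mem' := by
        refine ⟨?_, ?_⟩
        · rw [Matrix.zero_mul, Matrix.mul_zero]
        · rw [Matrix.zero_mul, trace_zero]
      smul_mem' := fun c X hX => by
        refine ⟨?_, ?_⟩
        · rw [Matrix.smul_mul, Matrix.mul_smul, hX.1]
        · rw [Matrix.smul_mul, trace_smul, hX.2, smul_zero] }
  have hC : LZ Z ≤ C := by
    refine LZ_le (fun σ => ⟨he _ (DS_mem σ), h0 σ⟩) (fun A hA B hB => ?_)
    obtain ⟨hA1, hA2⟩ := hA
    obtain ⟨hB1, hB2⟩ := hB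
    refine ⟨?_, ?_⟩
    · rw [Matrix.sub_mul, Matrix.mul_sub, Matrix.mul_assoc A B, hB1, ← Matrix.mul_assoc A, hA1,
        Matrix.mul_assoc B A, hA1, ← Matrix.mul_assoc B, hB1, Matrix.mul_assoc, Matrix.mul_assoc]
    · rw [Matrix.sub_mul, trace_sub, Matrix.mul_assoc B A, hA1, ← Matrix.mul_assoc B,
        trace_mul_comm (B * e) A, ← Matrix.mul_assoc, sub_self]
  exact fun X hX => (hC hX).2

end tr0

section qf

variable {g : ℕ} {Z : Matrix (Fin g) (Fin g) ℂ} (h : PM Z)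
  {φ : Matrix (Fin g ⊕ Fin g) (Fin g ⊕ Fin g) ℚ} {d : ℚ} (k : QF Z φ d)

include h k

/-- Rank one elements for fourfolds of Weil type. -/
theorem QF.rk22 {α : ℂ} (hα : α * α = -(d : ℂ)) {U : Submodule ℂ (Fin g ⊕ Fin g → ℂ)}
    (hU : IrS (LZ Z) U) (hm : ∀ v, v ∈ U ↔ qm φ *ᵥ v = α • v) (hp : pd Z U = 2)
    (hq : qd Z U = 2) : Rk1 Z U := by
  have h0 := k.root_ne hα
  have hns : ∀ c : ℂ, ∃ u ∈ U, DZ Z *ᵥ u ≠ c • u := by
    have h1 := pd_add_qd h hU.2.1
    exact fun c => k.nonscalar h hα hm hU (by omega) (RingEquiv.refl ℂ) c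
  obtain ⟨e, he⟩ : ∃ e : Matrix (Fin g ⊕ Fin g) (Fin g ⊕ Fin g) ℂ,
      e = (2 * α)⁻¹ • (qm φ + α • 1) := ⟨_, rfl⟩
  have hev : ∀ v, e *ᵥ v = pj φ α v := by
    intro v
    rw [he, smul_mulVec, add_mulVec, smul_mulVec, one_mulVec, pj_apply]
  have hec : ∀ X ∈ LZ Z, X * e = e * X := by
    intro X hX
    rw [he, Matrix.mul_smul, Matrix.smul_mul, Matrix.mul_add, Matrix.add_mul, k.commL X hX,
      Matrix.mul_smul, Matrix.smul_mul, Matrix.mul_one, Matrix.one_mul]
  have heU : ∀ v, e *ᵥ v ∈ U := by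
    intro v
    rw [hev, hm]
    exact k.pj_eig hα v
  have heU' : ∀ v ∈ U, e *ᵥ v = v := by
    intro v hv
    rw [hev]
    exact pj_of_eig k h0 ((hm v).1 hv)
  have htD : trace (DZ Z) = 0 := by
    have h1 := trace_DP h (U := ⊤) stab_top (e := 1) (fun _ => trivial)
      (fun v _ => one_mulVec v) (by rw [Matrix.mul_one, Matrix.one_mul])
    rw [Matrix.mul_one] at h1
    rw [h1]
    have h2 : cjS cc (⊤ : Submodule ℂ (Fin g ⊕ Fin g → ℂ)) = ⊤ := by
      rw [eq_top_iff]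
      intro v _
      rw [mem_cjS]
      trivial
    have h3 := pd_cc (Z := Z) (⊤ : Submodule ℂ (Fin g ⊕ Fin g → ℂ))
    rw [h2] at h3
    rw [h3, sub_self]
  have htP : trace (DZ Z * qm φ) = 0 := by
    have h1 := trace_DP h hU.2.1 heU heU' (hec _ DZ_mem)
    rw [hp, hq, sub_self, he, Matrix.mul_smul, trace_smul, Matrix.mul_add, trace_add,
      Matrix.mul_smul, Matrix.mul_one, trace_smul, htD, smul_zero, add_zero] at h1
    exact (smul_eq_zero.1 h1).resolve_left (inv_ne_zero (mul_ne_zero two_ne_zero h0))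
  have htS : ∀ σ, trace (DS Z σ * e) = 0 := by
    intro σ
    have h1 : trace (DS Z σ) = 0 := by
      have h2 : trace (DS Z σ) = σ (trace (DZ Z)) := by
        unfold trace
        rw [map_sum]
        rfl
      rw [h2, htD, map_zero]
    have h2 : trace (DS Z σ * qm φ) = 0 := by
      have h3 : DS Z σ * qm φ = (DZ Z * qm φ).map σ := by
        rw [Matrix.map_mul]
        have h4 : (qm φ).map σ = qm φ := cK_aut σ φ
        rw [h4]
        rfl
      have h4 : trace ((DZ Z * qm φ).map σ) = σ (trace (DZ Z * qm φ)) := by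
        unfold trace
        rw [map_sum]
        rfl
      rw [h3, h4, htP, map_zero]
    rw [he, Matrix.mul_smul, trace_smul, Matrix.mul_add, trace_add, Matrix.mul_smul,
      Matrix.mul_one, trace_smul, h1, h2, smul_zero, add_zero, smul_zero]
  have htr := trace_LZ h hec htS
  refine rk1_22 h hU hp hq hns (pj φ α) (fun X hX w => k.pj_comm hX w)
    (fun w => by rw [← hev]; exact heU w) (fun w hw => by rw [← hev]; exact heU' w hw) ?_
    (k.no_bil h hα hm hU.1)
  intro X hX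
  have h1 : (mulVecLin X).comp (pj φ α) = Matrix.toLin' (X * e) := by
    refine LinearMap.ext fun v => ?_
    rw [Matrix.toLin'_apply, ← mulVec_mulVec, hev]
    rfl
  rw [h1, Matrix.trace_toLin'_eq]
  exact htr X hX

/-- The local conditions for simple abelian varieties with an imaginary quadratic endomorphism
field. -/
theorem QF.lc (hg : g = 4 ∨ g = 5)
    (h5 : g = 5 → ∀ U : Submodule ℂ (Fin g ⊕ Fin g → ℂ), IrS (LZ Z) U → (tr Z U).natAbs = 1)
    {U : Submodule ℂ (Fin g ⊕ Fin g → ℂ)} (hU : IrS (LZ Z) U) : LC h U := by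
  obtain ⟨α, hα, hm⟩ := k.exists_root h hU
  have hdim := k.dim h hα hm hU.1
  have hpq := pd_add_qd h hU.2.1
  have h2 : 2 ≤ finrank ℂ U := by omega
  have hns := k.nonscalar h hα hm hU h2
  have hp := pd_pos h hU.2.1 (hns (RingEquiv.refl ℂ))
  have hq := qd_pos h hU.2.1 (hns (RingEquiv.refl ℂ))
  refine ⟨fun _ => ?_, fun _ => hns, Or.inr ⟨φ, α, d, k.kw h hα hm hU.1, ?_, fun h6 => by omega⟩⟩
  · rcases hg with h4 | h5'
    · by_cases h22 : pd Z U = 2
      · exact k.rk22 h hα hU hm h22 (by omega)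
      · refine coprime_rk1 h hU hp hq ?_
        have : (pd Z U = 1 ∧ qd Z U = 3) ∨ (pd Z U = 3 ∧ qd Z U = 1) := by omega
        rcases this with ⟨h6, h7⟩ | ⟨h6, h7⟩ <;> rw [h6, h7] <;> decide
    · refine coprime_rk1 h hU hp hq ?_
      have h8 := h5 h5' U hU
      unfold tr at h8
      have : (pd Z U = 2 ∧ qd Z U = 3) ∨ (pd Z U = 3 ∧ qd Z U = 2) := by omega
      rcases this with ⟨h6, h7⟩ | ⟨h6, h7⟩ <;> rw [h6, h7] <;> decide
  · unfold tr
    rcases hg with h4 | h5'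
    · omega
    · have h8 := h5 h5' U hU
      unfold tr at h8
      omega

end qf

section small

variable {g : ℕ} {Z : Matrix (Fin g) (Fin g) ℂ} (h : PM Z)
include h

/-- The local conditions in dimension at most three. -/
theorem lc_small (hs : IsSimpleAV Z) (hg : 0 < g) (hg3 : g ≤ 3) (hcm : HasCM Z → g = 1)
    {U : Submodule ℂ (Fin g ⊕ Fin g → ℂ)} (hU : IrS (LZ Z) U) : LC h U := by
  obtain ⟨h1, h2⟩ := classify h hs hg hg3 hcm hU
  refine ⟨h1, fun hn σ c => Pool.Agent.Y90.nonscalar h hs hg3 hU hn σ c, ?_⟩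
  rcases h2 with h2 | ⟨φ, α, d, hk⟩
  · exact Or.inl h2
  · refine Or.inr ⟨φ, α, d, ⟨hk.dim, hk.comm, hk.pos, hk.sq, hk.al, hk.mem,
      fun u hu v hv => hk.iso h hu hv⟩, ?_, fun h6 => by omega⟩
    have h3 := pd_add_qd h hU.2.1
    have h4 := hk.dim
    unfold tr
    rcases hk.sgn with h5 | h5 <;> omega

end small

end

end Pool.Agent.R915
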