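import Mathlib
import Pool.Agent.R915.L1
import Pool.Agent.R915.F1
import Pool.Agent.Y90.Asm

/-!
# Hodge classes belong to the system
-/

set_option linter.unusedSectionVars false

namespace Pool.Agent.R915

open Matrix Module Pool.Agent.W437.HC Pool.Agent.W437.HD Pool.Agent.TH504.CB Pool.Agent.Y90
open Pool.Agent.W548.Odd hiding cv
open Pool.Agent.H204R3.CM (IsHodge)
open Pool.Agent.H204R3.SP (Kills bil2 IsTate)
open Pool.Agent.W522.U (exists_reps exists_st Du)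
open Pool.Agent.W437.HP (cK cK_mul cK_one)

noncomputable section

section loc

variable {G : ℕ} {Z : Matrix (Fin G) (Fin G) ℂ}

/-- The local conditions for all simple factors. -/
def LCF (Z : Matrix (Fin G) (Fin G) ℂ) : Prop :=
  ∀ (a : ℕ) (Z' : Matrix (Fin a) (Fin a) ℂ) (E : Matrix (Fin G ⊕ Fin G) (Fin a ⊕ Fin a) ℚ)
    (F : Matrix (Fin a ⊕ Fin a) (Fin G ⊕ Fin G) ℚ), Fac Z Z' E F → ∀ h' : PM Z', IsSimpleAV Z' →
    0 < a → ∀ U, IrS (LZ Z') U → LC h' U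

/-- The classification of the irreducible submodules. -/
theorem loc' (h : PM Z) (hs : LCF Z) {U : Submodule ℂ (Fin G ⊕ Fin G → ℂ)}
    (hU : IrS (LZ Z) U) :
    (2 ≤ finrank ℂ U → Rk1 Z U ∧ ∀ (σ : ℂ ≃+* ℂ) (c : ℂ), ∃ u ∈ U, DS Z σ *ᵥ u ≠ c • u) ∧
      ((SDu Z U ∧ 2 ≤ finrank ℂ U) ∨ ∃ a Z' E F φ α d, KX Z U a Z' E F φ α d) := by
  obtain ⟨a, Z', E, F, hf, h', hs', ha, h0⟩ := exists_fac h hU.1
  have hinj := hf.inj hU h0
  have hU' := hf.irr hU h0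
  obtain ⟨h1, hns, h2⟩ := hs a Z' E F hf h' hs' ha _ hU'
  rw [finrank_ml hinj] at h1 h2 hns
  refine ⟨fun hn => ⟨?_, fun σ c => ?_⟩, ?_⟩
  · obtain ⟨D, hD, N', hN', h3, h4, h5⟩ := h1 hn
    obtain ⟨ε, hε, rfl⟩ : ∃ ε : ℂ, (ε = 1 ∨ ε = -1) ∧ D = ε • DZ Z' := by
      rcases hD with rfl | rfl
      · exact ⟨1, Or.inl rfl, (one_smul _ _).symm⟩
      · exact ⟨-1, Or.inr rfl, (neg_one_smul _ _).symm⟩
    obtain ⟨N, hN, h6, h7, rfl⟩ := hf.lift_rk h h' ε hε hN' h3 h4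
    refine ⟨ε • DZ Z, ?_, N, hN, h6, h7, ?_⟩
    · rcases hε with rfl | rfl
      · exact Or.inl (one_smul _ _)
      · exact Or.inr (neg_one_smul _ _)
    · rw [act_mem hf hN hinj (hU.2.1 N hN)]
      exact h5
  · obtain ⟨u', ⟨u, hu, rfl⟩, hu'⟩ := hns hn σ c
    refine ⟨u, hu, fun h3 => hu' ?_⟩
    have h4 := hf.act (DS_mem σ) u
    rw [h3, hf.fds, Matrix.mul_assoc, hf.fe', Matrix.mul_one] at h4
    rw [← h4, map_smul]
  · rcases h2 with ⟨⟨b, ⟨u', ⟨u, hu, rfl⟩, v', ⟨v, hv, rfl⟩, huv⟩, hb⟩, hn⟩ |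
      ⟨φ, α, d, hk, hsm, hdc⟩
    · refine Or.inl ⟨⟨b.compl₁₂ (ml F) (ml F), ⟨u, hu, v, hv, huv⟩, fun X hX u hu v hv => ?_⟩, hn⟩
      rw [LinearMap.compl₁₂_apply, LinearMap.compl₁₂_apply, hf.act hX, hf.act hX]
      exact hb _ (hf.comp hX).1 _ ⟨u, hu, rfl⟩ _ ⟨v, hv, rfl⟩
    · exact Or.inr ⟨a, Z', E, F, φ, α, d, hf, h', hinj, hk, hsm, hdc⟩

/-- The balance of the traces. -/
theorem bal_sum (h : PM Z) {s : ℕ} (W : Fin s → Submodule ℂ (Fin G ⊕ Fin G → ℂ))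
    (hW : ∀ i, IrS (LZ Z) (W i)) (st : Fin s → Fin s) (hst : ∀ i, st (st i) = i)
    (hDu : ∀ i, Du (RZ Z) 1 (W i) (W (st i))) (a : Fin s → ℤ)
    (ha : ∀ i, a (st i) = -a i)
    (hdet : ∀ (g : Gam (GG (LZ Z))) (hg : ∀ i, ∀ u ∈ W i, RZ Z g u ∈ W i), ∃ M : ℕ, M ≠ 0 ∧
      (∏ i, LinearMap.det ((RZ Z g).restrict (hg i)) ^ a i) ^ M = 1) (τ : ℂ ≃+* ℂ) :
    ∑ q : (Σ i, Fin (a i).toNat), tr Z (cjS τ (W q.1)) = 0 := by
  have htr : ∑ i, a i * tr Z (cjS τ (W i)) = 0 := by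
    have hg : ∀ i, ∀ u ∈ W i, RZ Z (gs h τ.symm) u ∈ W i := fun i =>
      rz_stable h (hW i).2.1 (gs h τ.symm)
    obtain ⟨M, hM, hM'⟩ := hdet (gs h τ.symm) hg
    have h1 : ∀ i, LinearMap.det ((RZ Z (gs h τ.symm)).restrict (hg i)) ^ a i =
        (2 : ℂ) ^ (a i * tr Z (cjS τ (W i))) := by
      intro i
      rw [det_gs h (hW i).2.1 τ.symm (hg i), ← _root_.zpow_mul, mul_comm]
      rfl
    have h2 : ∀ (t : Finset (Fin s)), ∏ i ∈ t, (2 : ℂ) ^ (a i * tr Z (cjS τ (W i))) =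
        (2 : ℂ) ^ ∑ i ∈ t, a i * tr Z (cjS τ (W i)) := by
      intro t
      induction t using Finset.induction_on with
      | empty => simp
      | insert i t hi ih => rw [Finset.prod_insert hi, Finset.sum_insert hi, ih,
          zpow_add₀ two_ne_zero]
    rw [Finset.prod_congr rfl fun i _ => h1 i, h2, ← zpow_natCast, ← _root_.zpow_mul] at hM'
    have h3 : ((2 : ℝ) ^ ((∑ i, a i * tr Z (cjS τ (W i))) * (M : ℤ)) : ℝ) = (2 : ℝ) ^ (0 : ℤ) := by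
      rw [zpow_zero]
      have h9 := congrArg (fun z : ℂ => ‖z‖) hM'
      simp only [norm_zpow, norm_one, Complex.norm_ofNat] at h9
      exact h9
    have h4 := zpow_right_injective₀ (by norm_num : (0 : ℝ) < 2) (by norm_num) h3
    exact (mul_eq_zero.1 h4).resolve_right (by exact_mod_cast hM)
  have h1 : ∑ i, a i * tr Z (cjS τ (W i)) = ∑ i, ((a i).toNat : ℤ) * tr Z (cjS τ (W i)) -
      ∑ i, ((-a i).toNat : ℤ) * tr Z (cjS τ (W i)) := by
    rw [← Finset.sum_sub_distrib]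
    refine Finset.sum_congr rfl fun i _ => ?_
    rw [← sub_mul]
    congr 1
    omega
  have h2 : ∑ i, ((-a i).toNat : ℤ) * tr Z (cjS τ (W i)) =
      -∑ i, ((a i).toNat : ℤ) * tr Z (cjS τ (W i)) := by
    let stE : Equiv.Perm (Fin s) := ⟨st, st, hst, hst⟩
    rw [← Equiv.sum_comp stE, ← Finset.sum_neg_distrib]
    refine Finset.sum_congr rfl fun i _ => ?_
    change ((-a (st i)).toNat : ℤ) * tr Z (cjS τ (W (st i))) = _
    rw [ha, neg_neg, tr_st h (hW i) (hW (st i)) (hDu i) τ]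
    ring
  rw [Fintype.sum_sigma]
  have h3 : ∀ i, ∑ _q : Fin (a i).toNat, tr Z (cjS τ (W i)) =
      ((a i).toNat : ℤ) * tr Z (cjS τ (W i)) := by
    intro i
    rw [Finset.sum_const, Finset.card_univ, Fintype.card_fin, nsmul_eq_mul]
  have h4 : ∑ i, ∑ q : Fin (a i).toNat, tr Z (cjS τ (W (⟨i, q⟩ : Σ i, Fin (a i).toNat).1)) =
      ∑ i, ((a i).toNat : ℤ) * tr Z (cjS τ (W i)) := Finset.sum_congr rfl fun i _ => h3 i
  rw [h4]
  rw [htr, h2] at h1
  linarith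

end loc

section main

variable {G : ℕ} {Z : Matrix (Fin G) (Fin G) ℂ}

theorem pair_memA (𝒜 : Sys) (h : PM Z) (b : (Fin G ⊕ Fin G → ℂ) →ₗ[ℂ] (Fin G ⊕ Fin G → ℂ) →ₗ[ℂ] ℂ)
    (hb : ∀ g u v, b (RZ Z g u) (RZ Z g v) = (1 : Gam (GG (LZ Z)) →* ℂ) g * b u v) :
    bil2 b ∈ NA 𝒜 h.cht ⟨_, h.polar⟩ (Fin 2) := by
  refine NA_of_hodge _ _ 𝒜 (L := LZ Z) gal_LZ (DJ_JR ▸ DZ_mem)
    (fun r hr => 𝒜.divisor (X := AVZ h) (κ := Fin 2) (Nat.card_fin 2) r hr)
    fun X hX => act_of_kills fun v => ?_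
  have h1 := (rz_bil h stab_top stab_top b).1 (fun g u _ v _ => by
    rw [hb, MonoidHom.one_apply, one_mul]) X hX (v 0) trivial (v 1) trivial
  rw [Fin.sum_univ_two]
  exact h1

/-- The alternation of an alternating form. -/
theorem altQ_altA (𝒜 : Sys) (h : PM Z) {κ : Type} [Fintype κ] [DecidableEq κ]
    (f : (Fin G ⊕ Fin G → ℚ) [⋀^κ]→ₗ[ℚ] ℚ)
    (hf : altQ (evalM (cst ℂ (CF f.toMultilinearMap))) ∈ RA 𝒜 (AVZ h) κ) :
    𝒜.A (AVZ h) κ f := by
  refine RA_descent ?_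
  have h1 : (fun v : κ → (AVZ h).H => ((f v : ℚ) : ℂ)) =
      ((Fintype.card (Equiv.Perm κ) : ℂ))⁻¹ • altQ (evalM (cst ℂ (CF f.toMultilinearMap))) := by
    funext v
    have h2 : ∀ σ : Equiv.Perm κ, ((Equiv.Perm.sign σ : ℤ) : ℂ) *
        evalM (cst ℂ (CF f.toMultilinearMap)) (fun k => cv (v (σ k))) = ((f v : ℚ) : ℂ) := by
      intro σ
      have h3 : evalM (cst ℂ (CF f.toMultilinearMap)) (fun k => cv (v (σ k))) =
          ((f (fun k => v (σ k)) : ℚ) : ℂ) := by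
        have h4 := CF_eval f.toMultilinearMap (fun k => v (σ k))
        rw [evalM_apply]
        change _ = ((f.toMultilinearMap (fun k => v (σ k)) : ℚ) : ℂ)
        rw [h4, evalF_castK]
        rfl
      rw [h3, show (fun k => v (σ k)) = v ∘ σ from rfl, AlternatingMap.map_perm, Units.smul_def,
        zsmul_eq_mul]
      push_cast
      rw [← mul_assoc, ← Int.cast_mul, ← Units.val_mul, Int.units_mul_self, Units.val_one,
        Int.cast_one, one_mul]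
    rw [Pi.smul_apply, smul_eq_mul]
    change _ = _ * altQ (evalM (cst ℂ (CF f.toMultilinearMap))) v
    unfold altQ
    rw [Finset.sum_congr rfl fun σ _ => h2 σ, Finset.sum_const, nsmul_eq_mul, Finset.card_univ,
      ← mul_assoc, inv_mul_cancel₀, one_mul]
    exact_mod_cast Fintype.card_ne_zero
  rw [h1]
  exact Submodule.smul_mem _ _ hf

variable (𝒜 : Sys) (h : PM Z) (hs : LCF Z)
include h hs

theorem inv_memA {m : ℕ}
    (φ : MultilinearMap ℂ (fun _ : Fin m × Fin 2 => Fin G ⊕ Fin G → ℂ) ℂ)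
    (hφ : ∀ (g : Gam (GG (LZ Z))) v, φ (fun k => RZ Z g (v k)) = φ v) :
    φ ∈ NA 𝒜 h.cht ⟨_, h.polar⟩ (Fin m × Fin 2) := by
  have hSI : ∀ {U}, W522.U.SI (RZ Z) U ↔ IrS (LZ Z) U := fun {U} => si_iff h.genI
  obtain ⟨s, W, hW, hWW, hall⟩ := exists_reps (rz_proj h)
  obtain ⟨st, hst, hDu, hDu'⟩ := exists_st (χ := 1) (rz_proj h) (om G) om_nd (rz_om h) W hW hWW hall
  refine forms_mem' (χ := 1) (fun Δ hΔ => fi_top Δ hΔ) (om G) om_nd (rz_om h) ?_ ?_ ?_ (rz_proj h)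
    W hW hWW hall st hst hDu hDu' (fun κ _ => NA 𝒜 h.cht ⟨_, h.polar⟩ κ) (clo_NA _ _ _) (pair_memA 𝒜 h)
    ?_ φ ?_
  · intro U hU hn
    exact rz_unip h ((loc' h hs (hSI.1 hU)).1 hn).1
  · intro U hU hn
    exact rz_line h (hSI.1 hU) hn
  · intro U U' hU hU' hn _ ψ hT
    exact rz_twist h (hSI.1 hU) (hSI.1 hU') ((loc' h hs (hSI.1 hU)).1 hn).2 ψ hT
  · intro a ha hag ι _ _ f p hp ψ hψ
    refine det_NA 𝒜 h (fun q : (Σ i, Fin (a i).toNat) => W q.1) (fun q => (hSI.1 (hW q.1)).2.1) ?_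
      (bal_sum h W (fun i => hSI.1 (hW i)) st hst hDu a ha hag) ι f p hp ψ hψ
    rintro ⟨i, q⟩
    rcases (loc' h hs (hSI.1 (hW i))).2 with ⟨h1, -⟩ | h1
    · exfalso
      have h2 := hDu' i i ((rz_du h (hSI.1 (hW i)).2.1 (hSI.1 (hW i)).2.1).2 h1)
      have h3 := ha i
      rw [← h2] at h3
      have h4 := q.2
      omega
    · exact h1
  · refine ⟨⊤, inferInstance, fun g _ v => ?_⟩
    rw [MonoidHom.one_apply, one_pow, one_mul]
    exact hφ g v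

/-- Hodge classes belong to the system. -/
theorem alg_of_hodge {κ : Type} [Finite κ] (f : (Fin G ⊕ Fin G → ℚ) [⋀^κ]→ₗ[ℚ] ℚ)
    (hf : IsHodge (perOne Z) f) : 𝒜.A (AVZ h) κ f := by
  classical
  let _ : Fintype κ := Fintype.ofFinite κ
  refine altQ_altA 𝒜 h f ?_
  set φ := evalM (cst ℂ (CF f.toMultilinearMap)) with hφ
  have hinv := hodge_inv h hf
  rcases Nat.even_or_odd (Fintype.card κ) with he | ho
  · obtain ⟨m, hm⟩ := he
    have e : κ ≃ Fin m × Fin 2 := Fintype.equivOfCardEq (by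
      rw [Fintype.card_prod, Fintype.card_fin, Fintype.card_fin, hm]
      ring)
    have h1 := inv_memA 𝒜 h hs (φ.domDomCongr e) (fun g v => by
      rw [MultilinearMap.domDomCongr_apply, MultilinearMap.domDomCongr_apply]
      exact hinv g _)
    have h2 : φ ∈ NA 𝒜 h.cht ⟨_, h.polar⟩ κ := (clo_NA _ _ _).reindex e.symm h1 φ fun v => by
      rw [MultilinearMap.domDomCongr_apply]
      congr 1
      funext k
      simp
    exact h2 _ _
  · have h0 : φ = 0 := by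
      refine MultilinearMap.ext fun v => ?_
      have h1 := hinv (gt (D := ph _ (DZ Z)) (by rw [← map_mul, DZ_sq h.det, map_one])
        (mem_GG.2 DZ_mem) (-1)) v
      have h2 : (fun k => RZ Z (gt (D := ph _ (DZ Z)) (by rw [← map_mul, DZ_sq h.det, map_one])
        (mem_GG.2 DZ_mem) (-1)) (v k)) = fun k => (-1 : ℂ) • v k := by
        funext k
        change torE (ph _ (DZ Z)) (-1) (v k) = _
        rw [torE_apply]
        simp only [Units.val_neg, Units.val_one, inv_neg, inv_one]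
        module
      rw [h2, MultilinearMap.map_smul_univ, Finset.prod_const, Finset.card_univ,
        Odd.neg_one_pow ho, neg_one_smul] at h1
      rw [← hφ] at h1
      have h3 : φ v = 0 := by linear_combination (-1 / 2 : ℂ) * h1
      rw [h3]
      rfl
    have h1 : φ ∈ NA 𝒜 h.cht ⟨_, h.polar⟩ κ := by
      rw [h0]
      exact Submodule.zero_mem _
    exact h1 _ _

end main

end

end Pool.Agent.R915
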