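import Mathlib
import Pool.Agent.R915.S1
import Pool.Agent.Y90.Ab3

/-!
# The elements of the system are Hodge classes
-/

set_option linter.unusedSectionVars false

namespace Pool.Agent.R915

open Matrix Module Pool.Agent.W437.HC Pool.Agent.W437.HD Pool.Agent.TH504.CB Pool.Agent.Y90
open Pool.Agent.W548.Odd hiding cv
open Pool.Agent.H204R3.CM (IsHodge)
open Pool.Agent.W437.HP (cK cK_mul cK_one)

noncomputable section

/-- The periods of a basis form a real basis of the tangent space. -/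
theorem exists_realBasis (Y : AV) {ι : Type} [Finite ι] (b : Basis ι ℚ Y.H) :
    ∃ β : Basis ι ℝ Y.T, ∀ k, β k = Y.per (b k) := by
  classical
  let _ : Fintype ι := Fintype.ofFinite ι
  have h1 : ⊤ ≤ Submodule.span ℝ (Set.range fun i => Y.per (b i)) := by
    rw [← Y.span]
    refine Submodule.span_le.2 ?_
    rintro _ ⟨w, rfl⟩
    rw [← b.sum_repr w, map_sum]
    refine Submodule.sum_mem _ fun i _ => ?_
    rw [per_smul]
    exact Submodule.smul_mem _ _ (Submodule.subset_span ⟨i, rfl⟩)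
  have hfT : FiniteDimensional ℝ Y.T := FiniteDimensional.complexToReal Y.T
  have h2 := linearIndependent_of_top_le_span_of_card_eq_finrank h1 (by
    rw [← finrank_eq_card_basis b, Y.rank, finrank_real_of_complex])
  exact ⟨Basis.mk h2 h1, fun k => Basis.mk_apply _ _ _⟩

/-- Multiplication by a number of absolute value one has determinant one. -/
theorem det_unit (T : Type) [AddCommGroup T] [Module ℂ T] [FiniteDimensional ℂ T] {z : ℂ}
    (hz : ‖z‖ = 1) :
    LinearMap.det ((z • (LinearMap.id : T →ₗ[ℂ] T)).restrictScalars ℝ) = 1 := by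
  rw [LinearMap.det_restrictScalars, LinearMap.det_smul, LinearMap.det_id, mul_one, map_pow,
    Algebra.norm_complex_apply, Complex.normSq_eq_norm_sq, hz]
  norm_num

/-- Alternating real extensions. -/
theorem ext_swap (P : AV) {ι : Type} [Finite ι] (f : P.H [⋀^ι]→ₗ[ℚ] ℚ)
    (ψ : MultilinearMap ℝ (fun _ : ι => P.T) ℝ) (h : ∀ v : ι → P.H, ψ (fun l => P.per (v l)) = f v)
    (w : ι → P.T) {k l : ι} (hkl : k ≠ l) (hw : w k = w l) : ψ w = 0 := by
  classical
  have hfin := P.finH
  let b := finBasis ℚ P.H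
  obtain ⟨β, hβ⟩ := exists_realBasis P b
  have h1 : ψ.domDomCongr (Equiv.swap k l) = -ψ := by
    refine Basis.ext_multilinear (fun _ => β) fun v => ?_
    rw [MultilinearMap.domDomCongr_apply, _root_.neg_apply]
    have h2 := h (fun i => b (v i))
    have h3 := h (fun i => b (v (Equiv.swap k l i)))
    have h4 : f (fun i => b (v (Equiv.swap k l i))) = -f (fun i => b (v i)) := by
      have h5 := f.map_swap (fun i => b (v i)) hkl
      exact h5
    simp only [hβ]
    rw [h2, h3, h4]
    push_cast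
    rfl
  have h2 := congrArg (fun φ => φ w) h1
  beta_reduce at h2
  rw [MultilinearMap.domDomCongr_apply, _root_.neg_apply] at h2
  have h3 : (fun i => w (Equiv.swap k l i)) = w := by
    funext i
    by_cases hik : i = k
    · rw [hik, Equiv.swap_apply_left, hw]
    · by_cases hil : i = l
      · rw [hil, Equiv.swap_apply_right, hw]
      · rw [Equiv.swap_apply_of_ne_of_ne hik hil]
  rw [h3] at h2
  linarith

/-- Push-forwards of Hodge classes. -/
theorem isHodge_push {X Y P : AV} (i : X.H →ₗ[ℚ] P.H) (hi : IsHom X P i) (j : Y.H →ₗ[ℚ] P.H)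
    (hj : IsHom Y P j) {κ κ' : Type} [Finite κ] [Finite κ'] (b : Basis κ' ℚ Y.H)
    (f : P.H [⋀^κ ⊕ κ']→ₗ[ℚ] ℚ) (hf : IsHodge P.per f) (g : X.H [⋀^κ]→ₗ[ℚ] ℚ)
    (hg : ∀ v : κ → X.H, g v = f (Sum.elim (fun k => i (v k)) fun k => j (b k))) :
    IsHodge X.per g := by
  classical
  obtain ⟨ψ, h1, h2⟩ := hf
  obtain ⟨Ψi, hΨi⟩ := hi
  obtain ⟨Ψj, hΨj⟩ := hj
  obtain ⟨β, hβ⟩ := exists_realBasis Y b
  let _ : Fintype κ' := Fintype.ofFinite κ'
  -- the restriction to the second factor
  let lam : (κ → X.T) → Y.T [⋀^κ']→ₗ[ℝ] ℝ := fun u =>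
    { (ψ.currySum (fun k => Ψi (u k))).compLinearMap (fun _ => Ψj.restrictScalars ℝ) with
      map_eq_zero_of_eq' := fun w k l hkl hne => by
        change ψ (Sum.elim (fun k => Ψi (u k)) (fun k => Ψj (w k))) = 0
        refine ext_swap P f ψ h1 _ (k := Sum.inr k) (l := Sum.inr l)
          (fun h => hne (Sum.inr_injective h)) ?_
        rw [Sum.elim_inr, Sum.elim_inr, hkl] }
  have hlam : ∀ u w, lam u w = ψ (Sum.elim (fun k => Ψi (u k)) (fun k => Ψj (w k))) :=
    fun u w => rfl
  let ev : MultilinearMap ℝ (fun _ : κ' => P.T) ℝ →ₗ[ℝ] ℝ :=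
    { toFun := fun φ => φ (fun k => Ψj (β k))
      map_add' := fun _ _ => rfl
      map_smul' := fun _ _ => rfl }
  refine ⟨ev.compMultilinearMap (ψ.currySum.compLinearMap fun _ => Ψi.restrictScalars ℝ),
    fun v => ?_, fun z hz u => ?_⟩
  · change ψ (Sum.elim (fun k => Ψi (X.per (v k))) (fun k => Ψj (β k))) = _
    rw [hg, ← h1]
    congr 1
    funext k
    rcases k with k | k
    · rw [Sum.elim_inl, Sum.elim_inl, hΨi]
    · rw [Sum.elim_inr, Sum.elim_inr, hβ, hΨj]
  · change ψ (Sum.elim (fun k => Ψi (z • u k)) (fun k => Ψj (β k))) =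
      ψ (Sum.elim (fun k => Ψi (u k)) (fun k => Ψj (β k)))
    have hz0 : z ≠ 0 := by
      rintro rfl
      simp at hz
    have hz' : ‖z⁻¹‖ = 1 := by rw [norm_inv, hz, inv_one]
    have h3 := h2 z hz (Sum.elim (fun k => Ψi (u k)) (fun k => Ψj (z⁻¹ • β k)))
    have h4 : (fun l => z • (Sum.elim (fun k => Ψi (u k)) (fun k => Ψj (z⁻¹ • β k)) : κ ⊕ κ' → P.T) l)
        = Sum.elim (fun k => Ψi (z • u k)) (fun k => Ψj (β k)) := by
      funext k
      rcases k with k | k
      · rw [Sum.elim_inl, Sum.elim_inl, map_smul]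
      · rw [Sum.elim_inr, Sum.elim_inr, map_smul, smul_smul, mul_inv_cancel₀ hz0, one_smul]
    rw [h4] at h3
    rw [h3, ← hlam, ← hlam]
    have h5 := (lam u).eq_smul_basis_det β
    have h6 : β.det (fun k => z⁻¹ • β k) = 1 := by
      have h7 := β.det_comp ((z⁻¹ • (LinearMap.id : Y.T →ₗ[ℂ] Y.T)).restrictScalars ℝ) β
      rw [det_unit Y.T hz', one_mul, β.det_self] at h7
      exact h7
    have h8 : lam u (fun k => z⁻¹ • β k) = (lam u β) * β.det (fun k => z⁻¹ • β k) := by
      conv_lhs => rw [h5]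
      rfl
    rw [h8, h6, mul_one]

/-- **Soundness**: the elements of the system are Hodge classes. -/
theorem Alg.isHodge {X : AV} {κ : Type} {f : X.H [⋀^κ]→ₗ[ℚ] ℚ} (hf : Alg X κ f) :
    Finite κ → IsHodge X.per f := by
  induction hf with
  | @unit X κ _ f =>
    intro _
    refine ⟨MultilinearMap.constOfIsEmpty ℝ (fun _ => X.T) ((f 0 : ℚ) : ℝ), fun v => ?_,
      fun z _ u => ?_⟩
    · rw [Subsingleton.elim v 0]
      rfl
    · rfl
  | divisor hκ f hf => exact fun _ => hf
  | weil hn f hf => exact fun _ => hf.2.1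
  | zero X κ =>
    intro _
    refine ⟨0, fun v => ?_, fun z _ u => rfl⟩
    rw [_root_.zero_apply, AlternatingMap.zero_apply, Rat.cast_zero]
  | add f g _ _ hf hg =>
    intro hfin
    obtain ⟨ψ, h1, h2⟩ := hf hfin
    obtain ⟨ψ', h3, h4⟩ := hg hfin
    refine ⟨ψ + ψ', fun v => ?_, fun z hz u => ?_⟩
    · rw [_root_.add_apply, h1, h3, AlternatingMap.add_apply, Rat.cast_add]
    · rw [_root_.add_apply, _root_.add_apply, h2 z hz, h4 z hz]
  | smul a f _ hf =>
    intro hfin
    obtain ⟨ψ, h1, h2⟩ := hf hfin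
    refine ⟨(a : ℝ) • ψ, fun v => ?_, fun z hz u => ?_⟩
    · rw [_root_.smul_apply, h1, AlternatingMap.smul_apply, smul_eq_mul, smul_eq_mul, Rat.cast_mul]
    · rw [_root_.smul_apply, _root_.smul_apply, h2 z hz]
  | reindex e f _ hf =>
    intro hfin
    obtain ⟨ψ, h1, h2⟩ := hf (Finite.of_equiv _ e.symm)
    refine ⟨ψ.domDomCongr e, fun v => ?_, fun z hz u => ?_⟩
    · rw [MultilinearMap.domDomCongr_apply, AlternatingMap.domDomCongr_apply]
      exact h1 _
    · rw [MultilinearMap.domDomCongr_apply, MultilinearMap.domDomCongr_apply]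
      exact h2 z hz _
  | @cup X κ κ' _ _ _ _ f g _ _ h hh hf hg =>
    intro _
    obtain ⟨ψ, h1, h2⟩ := hf inferInstance
    obtain ⟨ψ', h3, h4⟩ := hg inferInstance
    have h5 : h = MultilinearMap.alternatization
        (prd f.toMultilinearMap g.toMultilinearMap) := by
      ext v
      rw [hh, MultilinearMap.alternatization_apply]
      refine Finset.sum_congr rfl fun σ _ => ?_
      rw [MultilinearMap.domDomCongr_apply, prd_apply, Units.smul_def, zsmul_eq_mul]
      rfl
    rw [h5]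
    refine isHodge_alt (prd ψ ψ') (fun v => ?_) fun z hz u => ?_
    · rw [prd_apply, prd_apply, h1, h3]
      push_cast
      rfl
    · rw [prd_apply, prd_apply, h2 z hz, h4 z hz]
  | @pull X Y h hh κ f _ hf =>
    intro hfin
    obtain ⟨Ψ, hΨ⟩ := hh
    exact isHodge_comp h Ψ hΨ (hf hfin)
  | @push X Y P i hi j hj hij κ κ' b f _ g hg hf =>
    intro hfin
    have h1 := Y.finH
    have h2 : Finite κ' := Module.Finite.finite_basis b
    exact isHodge_push i hi j hj b f (hf inferInstance) g hg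

end

end Pool.Agent.R915
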