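import Mathlib
import Pool.Agent.R915.L2
import Pool.Agent.R915.S2

/-!
# Homomorphisms of abelian varieties and of period matrices
-/

set_option linter.unusedSectionVars false

namespace Pool.Agent.R915

open Matrix Module Pool.Agent.W437.HC Pool.Agent.W437.HD Pool.Agent.TH504.CB Pool.Agent.Y90
open Pool.Agent.W548.Odd hiding cv
open Pool.Agent.H204R3.CM (IsHodge)
open Pool.Agent.W437.HP (cK cK_mul cK_one)

noncomputable section

section gen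

variable {B B' : Type} [Fintype B] [DecidableEq B] [Fintype B'] [DecidableEq B']
  {T T' : Type} [AddCommGroup T] [Module ℂ T] [AddCommGroup T'] [Module ℂ T']
  {per : (B → ℚ) →+ T} {per' : (B' → ℚ) →+ T'} {J : Matrix B B ℝ} {J' : Matrix B' B' ℝ}

/-- Homomorphisms are compatible with the complex structures. -/
theorem Cht_conv (h : Cht per J) (h' : Cht per' J') {R : Matrix B' B ℚ} (Ψ : T →ₗ[ℂ] T')
    (hΨ : ∀ v, Ψ (per v) = per' (R *ᵥ v)) : cK ℂ R * DJ J = DJ J' * cK ℂ R := by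
  obtain ⟨P, I, hP1, hP2, hI1, hI2⟩ := h.ex
  obtain ⟨P', I', hP1', hP2', hI1', hI2'⟩ := h'.ex
  have h1 : P'.comp (Matrix.toLin' (cK ℝ R)) = (Ψ.restrictScalars ℝ).comp P := by
    refine (Pi.basisFun ℝ B).ext fun i => ?_
    rw [Pi.basisFun_apply, LinearMap.comp_apply, Matrix.toLin'_apply]
    change P' (cK ℝ R *ᵥ Pi.single i 1) = Ψ (P (Pi.single i 1))
    rw [← single_castR, hP1, hΨ, ← hP1']
    congr 1
    funext j
    simp [mulVec, dotProduct, cK]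
  have h2 : ∀ x, P' (cK ℝ R *ᵥ x) = Ψ (P x) := fun x => by
    have h3 := congrArg (fun f => f x) h1
    exact h3
  have h3 : cK ℝ R * J = J' * cK ℝ R := by
    apply Matrix.toLin'.injective
    refine LinearMap.ext fun x => ?_
    rw [Matrix.toLin'_apply, Matrix.toLin'_apply, ← mulVec_mulVec, ← mulVec_mulVec]
    have h4 : P' (cK ℝ R *ᵥ (J *ᵥ x)) = P' (J' *ᵥ (cK ℝ R *ᵥ x)) := by
      rw [h2, hP2, map_smul, hP2', h2]
    rw [← hI1' (cK ℝ R *ᵥ (J *ᵥ x)), h4, hI1']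
  have h4 := congrArg (fun M => M.map (fun x : ℝ => (x : ℂ))) h3
  have h5 : (cK ℝ R * J).map (fun x : ℝ => (x : ℂ)) =
      (cK ℝ R).map (fun x : ℝ => (x : ℂ)) * J.map (fun x : ℝ => (x : ℂ)) :=
    Matrix.map_mul (f := Complex.ofRealHom)
  have h6 : (J' * cK ℝ R).map (fun x : ℝ => (x : ℂ)) =
      J'.map (fun x : ℝ => (x : ℂ)) * (cK ℝ R).map (fun x : ℝ => (x : ℂ)) :=
    Matrix.map_mul (f := Complex.ofRealHom)
  beta_reduce at h4
  rw [h5, h6, cK_R] at h4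
  unfold DJ
  rw [Matrix.mul_smul, Matrix.smul_mul, h4]

end gen

section Z

variable {g : ℕ} {Z : Matrix (Fin g) (Fin g) ℂ} (h : PM Z)

theorem hom_iff (R : Matrix (Fin g ⊕ Fin g) (Fin g ⊕ Fin g) ℚ) :
    IsHom (AVZ h) (AVZ h) (Matrix.toLin' R) ↔ qm R * DZ Z = DZ Z * qm R := by
  constructor
  · rintro ⟨Ψ, hΨ⟩
    exact Cht_conv h.cht h.cht (R := R) Ψ fun v => by
      rw [hΨ]
      rfl
  · intro h1
    obtain ⟨Ψ, hΨ⟩ := h.cht.hom h.cht (R := R) (by rw [DJ_JR]; exact h1)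
    exact ⟨Ψ, fun v => hΨ v⟩

theorem hom_iff' (f : (Fin g ⊕ Fin g → ℚ) →ₗ[ℚ] (Fin g ⊕ Fin g → ℚ)) :
    IsHom (AVZ h) (AVZ h) f ↔ qm (LinearMap.toMatrix' f) * DZ Z =
      DZ Z * qm (LinearMap.toMatrix' f) := by
  rw [← hom_iff h, Matrix.toLin'_toMatrix']

theorem EndQuad.qf {d : ℚ} {f : (Fin g ⊕ Fin g → ℚ) →ₗ[ℚ] (Fin g ⊕ Fin g → ℚ)}
    (k : EndQuad (AVZ h) d f) : QF Z (LinearMap.toMatrix' f) d := by
  refine ⟨k.pos, ?_, (hom_iff' h f).1 k.hom, fun ψ hψ => ?_⟩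
  · have h1 : f * f = -(d • (1 : Module.End ℚ (Fin g ⊕ Fin g → ℚ))) :=
      LinearMap.ext fun w => k.sq w
    have h2 := congrArg LinearMap.toMatrix' h1
    rw [LinearMap.toMatrix'_mul] at h2
    rw [h2, map_neg, map_smul, LinearMap.toMatrix'_one]
  · obtain ⟨a, b, h1⟩ := k.max (Matrix.toLin' ψ) ((hom_iff h ψ).2 hψ)
    refine ⟨a, b, ?_⟩
    have h2 := congrArg LinearMap.toMatrix' h1
    rw [LinearMap.toMatrix'_toLin', map_add, map_smul, map_smul, LinearMap.toMatrix'_id] at h2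
    exact h2

theorem simple_AVZ (h1 : IsSimple (AVZ h)) : IsSimpleAV Z := fun U hU => h1.2 U hU

theorem cm_AVZ (h1 : HasCM Z) : HasCMult (AVZ h) := by
  obtain ⟨A, hA1, hA2, hA3⟩ := h1
  let e : Matrix (Fin g ⊕ Fin g) (Fin g ⊕ Fin g) ℚ ≃ₐ[ℚ] Module.End ℚ (Fin g ⊕ Fin g → ℚ) :=
    Matrix.toLinAlgEquiv'
  refine ⟨A.map e.toAlgHom, ?_, ?_, ?_⟩
  · rintro _ ⟨a, ha, rfl⟩ _ ⟨b, hb, rfl⟩
    change e a * e b = e b * e a
    rw [← map_mul, ← map_mul, hA1 a ha b hb]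
  · have h2 : finrank ℚ (A.map e.toAlgHom) = finrank ℚ A :=
      (LinearEquiv.finrank_map_eq e.toLinearEquiv (Subalgebra.toSubmodule A))
    rw [h2, hA2]
    change 2 * g = finrank ℚ (Fin g ⊕ Fin g → ℚ)
    rw [finrank_fintype_fun_eq_card, Fintype.card_sum, Fintype.card_fin]
    ring
  · rintro _ ⟨a, ha, rfl⟩
    exact (hom_iff h a).2 (hA3 a ha)

end Z

end

end Pool.Agent.R915
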