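import Mathlib
import Pool.Agent.R915.T1

/-!
# Multiplicities on the tangent space
-/

set_option linter.unusedSectionVars false

namespace Pool.Agent.R915

open Matrix Module Pool.Agent.W437.HC Pool.Agent.W437.HD Pool.Agent.TH504.CB Pool.Agent.Y90
open Pool.Agent.W548.Odd hiding cv
open Pool.Agent.H204R3.CM (IsHodge)
open Pool.Agent.W437.HP (cK cK_mul cK_one)

noncomputable section

variable {g : ℕ} {Z : Matrix (Fin g) (Fin g) ℂ} (h : PM Z)

/-- The complex linear extension of the period map. -/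
def perC (Z : Matrix (Fin g) (Fin g) ℂ) : (Fin g ⊕ Fin g → ℂ) →ₗ[ℂ] (Fin g → ℂ) :=
  mulVecLin (fromCols (1 : Matrix (Fin g) (Fin g) ℂ) Z)

theorem perC_apply (v : Fin g ⊕ Fin g → ℂ) (i : Fin g) :
    perC Z v i = v (Sum.inl i) + ∑ k, Z i k * v (Sum.inr k) := by
  unfold perC
  rw [mulVecLin_apply, fromCols_mulVec, one_mulVec]
  rfl

theorem perC_real (x : Fin g ⊕ Fin g → ℝ) : perC Z (fun i => ((x i : ℝ) : ℂ)) = perR Z x := by
  funext i
  rw [perC_apply]
  rfl

theorem perC_rat (w : Fin g ⊕ Fin g → ℚ) : perC Z (cv w) = perOne Z w := by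
  funext i
  rw [perC_apply]
  rfl

include h in
theorem perC_DZ (v : Fin g ⊕ Fin g → ℂ) : perC Z (DZ Z *ᵥ v) = perC Z v := by
  have h1 : (perC Z).comp (mulVecLin (DZ Z)) = perC Z := by
    refine (Pi.basisFun ℂ (Fin g ⊕ Fin g)).ext fun i => ?_
    rw [Pi.basisFun_apply]
    change perC Z (DZ Z *ᵥ Pi.single i 1) = perC Z (Pi.single i 1)
    have e1 : (Pi.single i 1 : Fin g ⊕ Fin g → ℂ) =
        fun j => (((Pi.single i 1 : Fin g ⊕ Fin g → ℝ) j : ℝ) : ℂ) := by
      funext j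
      by_cases hj : j = i
      · subst hj
        simp
      · simp [Pi.single_eq_of_ne hj]
    rw [e1, perC_real]
    have e2 : DZ Z *ᵥ (fun j => (((Pi.single i 1 : Fin g ⊕ Fin g → ℝ) j : ℝ) : ℂ)) =
        (-Complex.I) • fun j => (((JR Z *ᵥ (Pi.single i 1 : Fin g ⊕ Fin g → ℝ)) j : ℝ) : ℂ) := by
      unfold DZ
      rw [smul_mulVec]
      congr 1
      funext j
      simp [mulVec, dotProduct, Matrix.map_apply]
    rw [e2, map_smul, perC_real, perR_JR Z h.det, smul_smul, neg_mul, Complex.I_mul_I, neg_neg,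
      one_smul]
  exact congrArg (fun f => f v) h1

theorem perC_surj : Function.Surjective (perC Z) := by
  intro t
  refine ⟨Sum.elim t 0, ?_⟩
  funext i
  rw [perC_apply]
  simp

include h in
theorem perC_neg {v : Fin g ⊕ Fin g → ℂ} (hv : v ∈ eig Z (-1)) : perC Z v = 0 := by
  have h1 := perC_DZ h v
  have h2 : DZ Z *ᵥ v = (-1 : ℂ) • v := hv
  rw [h2, map_smul, neg_one_smul] at h1
  have h3 : (2 : ℂ) • perC Z v = 0 := by
    rw [two_smul]
    nth_rewrite 1 [← h1]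
    exact neg_add_cancel _
  exact (smul_eq_zero.1 h3).resolve_left two_ne_zero

include h in
theorem perC_pos {v : Fin g ⊕ Fin g → ℂ} (hv : v ∈ eig Z 1) (h0 : perC Z v = 0) : v = 0 := by
  have e1 : pd Z (⊤ : Submodule ℂ (Fin g ⊕ Fin g → ℂ)) = qd Z ⊤ := by
    have h2 : cjS cc (⊤ : Submodule ℂ (Fin g ⊕ Fin g → ℂ)) = ⊤ := by
      rw [eq_top_iff]
      intro v _
      rw [mem_cjS]
      trivial
    have h3 := pd_cc (Z := Z) (⊤ : Submodule ℂ (Fin g ⊕ Fin g → ℂ))
    rwa [h2] at h3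
  have e2 := pd_add_qd h (stab_top : Stab (LZ Z) (⊤ : Submodule ℂ (Fin g ⊕ Fin g → ℂ)))
  have e3 : finrank ℂ (⊤ : Submodule ℂ (Fin g ⊕ Fin g → ℂ)) = g + g := by
    rw [finrank_top, finrank_fintype_fun_eq_card, Fintype.card_sum, Fintype.card_fin]
  have e4 : finrank ℂ (eig Z (-1)) = g := by
    have e5 : qd Z ⊤ = finrank ℂ (eig Z (-1)) := by
      unfold qd
      rw [top_inf_eq]
    omega
  have e5 := (perC Z).finrank_range_add_finrank_ker
  rw [LinearMap.range_eq_top.2 perC_surj, finrank_top, finrank_fintype_fun_eq_card,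
    finrank_fintype_fun_eq_card, Fintype.card_sum, Fintype.card_fin] at e5
  have e6 : eig Z (-1) = LinearMap.ker (perC Z) :=
    Submodule.eq_of_le_of_finrank_eq (fun v hv => perC_neg h hv) (by omega)
  have e7 : v ∈ eig Z (-1) := by
    rw [e6]
    exact h0
  have e8 : DZ Z *ᵥ v = (-1 : ℂ) • v := e7
  have e9 : DZ Z *ᵥ v = (1 : ℂ) • v := hv
  rw [e8] at e9
  have e10 : (2 : ℂ) • v = 0 := by
    rw [two_smul]
    nth_rewrite 1 [← one_smul ℂ v]
    rw [← e9]
    module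
  exact (smul_eq_zero.1 e10).resolve_left two_ne_zero

include h in
/-- The multiplicities on the tangent space. -/
theorem pd_sig {φ : Matrix (Fin g ⊕ Fin g) (Fin g ⊕ Fin g) ℚ}
    (hc : qm φ * DZ Z = DZ Z * qm φ) {Ψ : (Fin g → ℂ) →ₗ[ℂ] (Fin g → ℂ)}
    (hΨ : ∀ v, Ψ (perOne Z v) = perOne Z (φ *ᵥ v)) (α : ℂ)
    {U : Submodule ℂ (Fin g ⊕ Fin g → ℂ)} (hU : ∀ v, v ∈ U ↔ qm φ *ᵥ v = α • v) :
    pd Z U = finrank ℂ (LinearMap.ker (Ψ - α • LinearMap.id)) := by
  have h1 : ∀ v, perC Z (qm φ *ᵥ v) = Ψ (perC Z v) := by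
    intro v
    have h2 : (perC Z).comp (mulVecLin (qm φ)) = Ψ.comp (perC Z) := by
      refine (Pi.basisFun ℂ (Fin g ⊕ Fin g)).ext fun i => ?_
      rw [Pi.basisFun_apply]
      change perC Z (qm φ *ᵥ Pi.single i 1) = Ψ (perC Z (Pi.single i 1))
      rw [← single_cv, perC_rat, hΨ, ← perC_rat]
      congr 1
      funext j
      simp [mulVec, dotProduct, qm, cK, cv]
    exact congrArg (fun f => f v) h2
  have h3 : LinearMap.range ((perC Z).domRestrict (U ⊓ eig Z 1)) =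
      LinearMap.ker (Ψ - α • LinearMap.id) := by
    apply le_antisymm
    · rintro _ ⟨⟨v, hv1, hv2⟩, rfl⟩
      rw [LinearMap.mem_ker, LinearMap.domRestrict_apply]
      change Ψ (perC Z v) - α • perC Z v = 0
      rw [← h1, (hU v).1 hv1, map_smul, sub_self]
    · intro t ht
      have ht' : Ψ t = α • t := by
        rw [LinearMap.mem_ker] at ht
        exact sub_eq_zero.1 ht
      obtain ⟨v0, rfl⟩ := perC_surj (Z := Z) t
      obtain ⟨a, ha, b, hb, rfl⟩ := mem_LZ_decomp h v0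
      rw [map_add, perC_neg h hb, add_zero] at ht' ⊢
      have ha' : DZ Z *ᵥ a = (1 : ℂ) • a := ha
      have h4 : qm φ *ᵥ a - α • a ∈ eig Z 1 := by
        refine Submodule.sub_mem _ ?_ (Submodule.smul_mem _ _ ha)
        change DZ Z *ᵥ (qm φ *ᵥ a) = (1 : ℂ) • (qm φ *ᵥ a)
        rw [mulVec_mulVec, ← hc, ← mulVec_mulVec, ha', mulVec_smul]
      have h5 := perC_pos h h4 (by rw [map_sub, map_smul, h1, ht', sub_self])
      exact ⟨⟨a, (hU a).2 (sub_eq_zero.1 h5), ha⟩, rfl⟩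
  rw [← h3, LinearMap.finrank_range_of_inj]
  · rfl
  · rw [injective_iff_map_eq_zero]
    rintro ⟨v, hv1, hv2⟩ hv
    exact Subtype.ext (perC_pos h hv2 hv)

end

end Pool.Agent.R915
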