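import Mathlib
import Pool.Agent.R915.T2

/-!
# Hodge classes on abelian varieties
-/

set_option linter.unusedSectionVars false

namespace Pool.Agent.R915

open Matrix Module Pool.Agent.W437.HC Pool.Agent.W437.HD Pool.Agent.TH504.CB Pool.Agent.Y90
open Pool.Agent.W548.Odd hiding cv
open Pool.Agent.H204R3.CM (IsHodge)
open Pool.Agent.W437.HP (cK cK_mul cK_one)

noncomputable section

/-- The local conditions for all simple abelian subvarieties. -/
theorem main_iff (X : AV)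
    (hs : ∀ (a : ℕ) (Z' : Matrix (Fin a) (Fin a) ℂ) (h' : PM Z') (i : (AVZ h').H →ₗ[ℚ] X.H),
      IsHom (AVZ h') X i → Function.Injective i → IsSimple (AVZ h') → 0 < a →
      ∀ U, IrS (LZ Z') U → LC h' U)
    {κ : Type} [Finite κ] (f : X.H [⋀^κ]→ₗ[ℚ] ℚ) : IsHodge X.per f ↔ Alg X κ f := by
  refine ⟨fun hf => ?_, fun hf => hf.isHodge inferInstance⟩
  obtain ⟨G, Z, h, A, hC⟩ := exists_ppav (AV.isAV X)
  have hLCF : LCF Z := by
    intro a Z' E F hfac h' hsim ha
    obtain ⟨Ψ₁, h₁⟩ := h'.cht.hom hC (R := E) (by rw [DJ_JR, DJ_JR]; exact hfac.de.symm)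
    refine hs a Z' h' (A.symm.toLinearMap.comp (Matrix.mulVecLin E)) ⟨Ψ₁, fun v => h₁ v⟩ ?_
      ⟨⟨Pi.single (Sum.inl ⟨0, ha⟩) 1, ?_⟩, fun U hU => hsim U hU⟩ ha
    · intro x y hxy
      have h2 : E *ᵥ x = E *ᵥ y := A.symm.injective hxy
      have h3 := congrArg (fun v => F *ᵥ v) h2
      beta_reduce at h3
      rw [mulVec_mulVec, mulVec_mulVec, hfac.fe, one_mulVec, one_mulVec] at h3
      exact h3
    · intro h0
      have h1 := congrFun h0 (Sum.inl ⟨0, ha⟩)
      rw [Pi.single_eq_same] at h1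
      exact one_ne_zero h1
  obtain ⟨Ψ₁, h₁⟩ := h.cht.hom hC (R := 1) (by rw [cK_one, Matrix.one_mul, Matrix.mul_one])
  obtain ⟨Ψ₂, h₂⟩ := hC.hom h.cht (R := 1) (by rw [cK_one, Matrix.one_mul, Matrix.mul_one])
  have e₁ : ∀ w, Ψ₁ (perOne Z w) = X.per (A.symm w) := fun w => by
    rw [h₁, one_mulVec]
    rfl
  have e₂ : ∀ v, Ψ₂ (X.per v) = perOne Z (A v) := fun v => by
    have h3 := h₂ (A v)
    have h4 : (X.per.comp A.symm.toLinearMap.toAddMonoidHom) (A v) = X.per v := by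
      change X.per (A.symm (A v)) = X.per v
      rw [LinearEquiv.symm_apply_apply]
    rwa [h4, one_mulVec] at h3
  have h5 : IsHodge (perOne Z) (f.compLinearMap A.symm.toLinearMap) :=
    isHodge_comp A.symm.toLinearMap Ψ₁ e₁ hf
  have h6 := alg_of_hodge algSys h hLCF _ h5
  have h7 := Alg.pull (X := X) (Y := AVZ h) A.toLinearMap ⟨Ψ₂, e₂⟩ _ h6
  have h8 : (f.compLinearMap A.symm.toLinearMap).compLinearMap A.toLinearMap = f := by
    ext v
    rw [AlternatingMap.compLinearMap_apply, AlternatingMap.compLinearMap_apply]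
    congr 1
    funext k
    exact A.symm_apply_apply (v k)
  have h9 : Alg X κ ((f.compLinearMap A.symm.toLinearMap).compLinearMap A.toLinearMap) := h7
  rwa [h8] at h9

section Z

variable {g : ℕ} {Z : Matrix (Fin g) (Fin g) ℂ} (h : PM Z)

theorem finrank_AVZ : finrank ℚ (AVZ h).H = 2 * g := by
  change finrank ℚ (Fin g ⊕ Fin g → ℚ) = 2 * g
  rw [finrank_fintype_fun_eq_card, Fintype.card_sum, Fintype.card_fin]
  ring

theorem SmallDim.lc (hs : IsSimple (AVZ h)) (hg : 0 < g) (k : SmallDim (AVZ h))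
    {U : Submodule ℂ (Fin g ⊕ Fin g → ℂ)} (hU : IrS (LZ Z) U) : LC h U := by
  obtain ⟨h1, h2⟩ := k
  rw [finrank_AVZ] at h1 h2
  exact lc_small h (simple_AVZ h hs) hg (by omega) (fun hcm => by
    have := h2 (cm_AVZ h hcm)
    omega) hU

end Z

end

end Pool.Agent.R915
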