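import Mathlib
import Pool.Agent.R915.E2
import Pool.Agent.R915.M1

/-!
# Abelian varieties with many real endomorphisms
-/

set_option linter.unusedSectionVars false

namespace Pool.Agent.R915

open Matrix Module Pool.Agent.W437.HC Pool.Agent.W437.HD Pool.Agent.TH504.CB Pool.Agent.Y90
open Pool.Agent.W548.Odd hiding cv
open Pool.Agent.H204R3.CM (IsHodge)
open Pool.Agent.W437.HP (cK cK_mul cK_one)
open Pool.Agent.H977R3.CM Polynomial

noncomputable section

/-- Conjugate algebraic numbers. -/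
theorem exists_conj_aut {z w : ℂ} (hz : IsAlgebraic ℚ z) (hw : aeval w (minpoly ℚ z) = 0) :
    ∃ σ : ℂ ≃+* ℂ, σ z = w := by
  set p : ℚ[X] := minpoly ℚ z with hp
  have hp0 : p ≠ 0 := minpoly.ne_zero hz.isIntegral
  have hspl : (p.map (algebraMap ℚ ℂ)).Splits := IsAlgClosed.splits _
  have hsf : p.IsSplittingField ℚ (IntermediateField.adjoin ℚ (p.rootSet ℂ)) :=
    IntermediateField.adjoin_rootSet_isSplittingField hspl
  let L := IntermediateField.adjoin ℚ (p.rootSet ℂ)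
  have _ : Normal ℚ L := Normal.of_isSplittingField p
  have hzL : z ∈ L := by
    apply IntermediateField.subset_adjoin
    rw [Polynomial.mem_rootSet]
    exact ⟨hp0, minpoly.aeval ℚ z⟩
  have hwL : w ∈ L := by
    apply IntermediateField.subset_adjoin
    rw [Polynomial.mem_rootSet]
    exact ⟨hp0, hw⟩
  have hmp : minpoly ℚ (⟨z, hzL⟩ : L) = minpoly ℚ z :=
    (minpoly.algebraMap_eq (B := L) (B' := ℂ) (FaithfulSMul.algebraMap_injective L ℂ)
      ⟨z, hzL⟩).symm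
  obtain ⟨g, hg⟩ := minpoly.exists_algEquiv_of_root (K := ℚ) (L := L) (x := ⟨w, hwL⟩)
    (y := ⟨z, hzL⟩) (Normal.isIntegral inferInstance _).isAlgebraic (by
      rw [hmp]
      apply Subtype.ext
      change L.val (aeval (⟨w, hwL⟩ : L) (minpoly ℚ z)) = 0
      rw [← Polynomial.aeval_algHom_apply]
      exact hw)
  obtain ⟨σ, hσ⟩ := exists_aut (L.val : L →+* ℂ) (g.symm : L ≃+* L)
  refine ⟨σ, ?_⟩
  have h1 := hσ ⟨z, hzL⟩
  have h2 : g.symm ⟨z, hzL⟩ = ⟨w, hwL⟩ := by rw [← hg, AlgEquiv.symm_apply_apply]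
  change σ z = ((g.symm ⟨z, hzL⟩ : L) : ℂ) at h1
  rw [h1, h2]

section poly

variable {B : Type*} [Fintype B] [DecidableEq B]

theorem aeval_eig {M : Matrix B B ℚ} {z : ℂ} {v : B → ℂ}
    (hv : qm M *ᵥ v = z • v) (p : ℚ[X]) : qm (aeval M p) *ᵥ v = (aeval z p) • v := by
  induction p using Polynomial.induction_on with
  | C a =>
    have h1 : qm (a • (1 : Matrix B B ℚ)) = (a : ℂ) • (1 : Matrix B B ℂ) := by
      ext i j
      by_cases hij : i = j <;> simp [qm, Matrix.one_apply, hij]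
    rw [aeval_C, aeval_C, Algebra.algebraMap_eq_smul_one, h1, smul_mulVec, one_mulVec]
    rfl
  | add p q hp hq =>
    have h1 : qm (aeval M p + aeval M q) = qm (aeval M p) + qm (aeval M q) := by
      ext i j
      simp [qm]
    rw [map_add, map_add, add_smul, ← hp, ← hq, h1, add_mulVec]
  | monomial n a ih =>
    rw [pow_succ, ← mul_assoc, map_mul (aeval M) _ X, map_mul (aeval z) _ X, aeval_X, aeval_X,
      qm_mul, ← mulVec_mulVec, hv, mulVec_smul, ih, smul_smul, mul_comm]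

theorem aeval_eigC {M : Matrix B B ℂ} {z : ℂ} {v : B → ℂ}
    (hv : M *ᵥ v = z • v) (p : ℂ[X]) : aeval M p *ᵥ v = (p.eval z) • v := by
  induction p using Polynomial.induction_on with
  | C a =>
    rw [aeval_C, eval_C, Algebra.algebraMap_eq_smul_one, smul_mulVec, one_mulVec]
  | add p q hp hq =>
    rw [map_add, eval_add, add_smul, ← hp, ← hq, add_mulVec]
  | monomial n a ih =>
    rw [pow_succ, ← mul_assoc, map_mul (aeval M) _ X, eval_mul (q := X), aeval_X, eval_X,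
      ← mulVec_mulVec, hv, mulVec_smul, ih, smul_smul, mul_comm]

theorem aeval_comm {M X : Matrix B B ℂ} (hX : X * M = M * X) (p : ℂ[X]) :
    X * aeval M p = aeval M p * X := by
  induction p using Polynomial.induction_on with
  | C a =>
    rw [aeval_C, Algebra.algebraMap_eq_smul_one, Matrix.mul_smul, Matrix.smul_mul, mul_one,
      one_mul]
  | add p q hp hq =>
    rw [map_add, mul_add, add_mul, hp, hq]
  | monomial n a ih =>
    rw [pow_succ, ← mul_assoc, map_mul (aeval M) _ Polynomial.X, aeval_X, ← mul_assoc, ih,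
      mul_assoc, hX, mul_assoc]

/-- Sums of dimensions of independent subspaces. -/
theorem sum_finrank_le {V : Type*} [AddCommGroup V] [Module ℂ V] [FiniteDimensional ℂ V]
    {ι : Type*} [Fintype ι] [DecidableEq ι] (p : ι → Submodule ℂ V) (hp : iSupIndep p) :
    ∑ i, finrank ℂ (p i) ≤ finrank ℂ V := by
  rw [← Module.finrank_directSum (R := ℂ) (M := fun i => p i)]
  exact LinearMap.finrank_le_finrank_of_injective hp.dfinsupp_lsum_injective

end poly

section irr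

variable {B : Type*} [Fintype B] [DecidableEq B] {L : Submodule ℂ (Matrix B B ℂ)}

/-- Images of irreducible submodules. -/
theorem irS_map {U : Submodule ℂ (B → ℂ)} (hU : IrS L U) {T : (B → ℂ) →ₗ[ℂ] (B → ℂ)}
    (hT : ∀ X ∈ L, ∀ u ∈ U, T (X *ᵥ u) = X *ᵥ T u) (hi : ∀ u ∈ U, T u = 0 → u = 0) :
    IrS L (U.map T) := by
  refine ⟨?_, stab_map hU.2.1 hT, fun W hW hWs => ?_⟩
  · intro h1
    apply hU.1
    rw [eq_bot_iff]
    intro u hu
    refine hi u hu ?_
    have h2 : T u ∈ U.map T := ⟨u, hu, rfl⟩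
    rwa [h1, Submodule.mem_bot] at h2
  · have h1 : Stab L (U ⊓ W.comap T) := by
      intro X hX u hu
      refine ⟨hU.2.1 X hX u hu.1, ?_⟩
      change T (X *ᵥ u) ∈ W
      rw [hT X hX u hu.1]
      exact hWs X hX _ hu.2
    have h2 : (U ⊓ W.comap T).map T = W := by
      apply le_antisymm
      · rintro _ ⟨u, hu, rfl⟩
        exact hu.2
      · intro w hw
        obtain ⟨u, hu, rfl⟩ := hW hw
        exact ⟨u, ⟨hu, hw⟩, rfl⟩
    rcases hU.2.2 _ inf_le_left h1 with h3 | h3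
    · left
      rw [← h2, h3, Submodule.map_bot]
    · right
      rw [← h2, h3]

end irr

variable {g : ℕ} {Z : Matrix (Fin g) (Fin g) ℂ}

/-- Transport of elements of rank one. -/
theorem rk1_of_map {U : Submodule ℂ (Fin g ⊕ Fin g → ℂ)} (hU : IrS (LZ Z) U)
    {T : (Fin g ⊕ Fin g → ℂ) →ₗ[ℂ] (Fin g ⊕ Fin g → ℂ)}
    (hT : ∀ X ∈ LZ Z, ∀ u ∈ U, T (X *ᵥ u) = X *ᵥ T u) (hi : ∀ u ∈ U, T u = 0 → u = 0)
    (h : Rk1 Z (U.map T)) : Rk1 Z U := by
  obtain ⟨D, hD, N, hN, h1, h2, h3⟩ := h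
  refine ⟨D, hD, N, hN, h1, h2, ?_⟩
  have h4 : (U.map T).map (mulVecLin N) = (U.map (mulVecLin N)).map T := by
    rw [← Submodule.map_comp, ← Submodule.map_comp]
    ext x
    constructor
    · rintro ⟨u, hu, rfl⟩
      exact ⟨u, hu, hT N hN u hu⟩
    · rintro ⟨u, hu, rfl⟩
      exact ⟨u, hu, (hT N hN u hu).symm⟩
  rw [h4] at h3
  rw [← h3]
  symm
  apply finrank_map_of_inj
  rintro _ ⟨u, hu, rfl⟩ h5
  exact hi _ (hU.2.1 N hN u hu) h5

/-- Self-dual irreducible submodules of dimension at most three. -/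
theorem rk1_two (h : PM Z) {U : Submodule ℂ (Fin g ⊕ Fin g → ℂ)} (hU : IrS (LZ Z) U)
    (hs : SDu Z U) (hd : finrank ℂ U ≤ 3) : Rk1 Z U ∧ finrank ℂ U = 2 := by
  obtain ⟨b, h0, hb⟩ := hs
  have hns : ∀ c : ℂ, ∃ u ∈ U, DZ Z *ᵥ u ≠ c • u := fun c =>
    ns_of_sdu h ⟨b, h0, hb⟩ (RingEquiv.refl ℂ) c
  have htr := tr_dual h hU hU h0 hb
  have hpq := pd_add_qd h hU.2.1
  unfold tr at htr
  have h1 : 0 < finrank ℂ U := by
    rw [Nat.pos_iff_ne_zero, ne_eq, Submodule.finrank_eq_zero]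
    exact hU.1
  have h2 : finrank ℂ U = 2 := by omega
  refine ⟨?_, h2⟩
  obtain ⟨A, hA, hA1, hA2, hA3⟩ := exists_upG h hU hns
  have h4 := two_rank_le h hU.2.1 hA hA1 hA2
  have h5 := map_rank_ne hA3
  exact ⟨DZ Z, Or.inl rfl, A, hA, hA1, hA2, by omega⟩

/-- The eigenspaces of a rational matrix. -/
def VE (M : Matrix (Fin g ⊕ Fin g) (Fin g ⊕ Fin g) ℚ) (θ : ℂ) :
    Submodule ℂ (Fin g ⊕ Fin g → ℂ) := Module.End.eigenspace (mulVecLin (qm M)) θ

theorem mem_VE {M : Matrix (Fin g ⊕ Fin g) (Fin g ⊕ Fin g) ℚ} {θ : ℂ} {v : Fin g ⊕ Fin g → ℂ} :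
    v ∈ VE M θ ↔ qm M *ᵥ v = θ • v := Module.End.mem_eigenspace_iff

theorem VE_cj (M : Matrix (Fin g ⊕ Fin g) (Fin g ⊕ Fin g) ℚ) (θ : ℂ) (σ : ℂ ≃+* ℂ) :
    cjS σ (VE M θ) = VE M (σ θ) := by
  ext v
  rw [mem_cjS, mem_VE, mem_VE]
  constructor
  · intro h1
    have h2 : (fun i => σ ((qm M *ᵥ fun i => σ.symm (v i)) i)) =
        fun i => σ ((θ • fun i => σ.symm (v i)) i) := by rw [h1]
    have h4 : (qm M).map σ = qm M := qm_aut M (σ : ℂ →+* ℂ)
    rw [map_mulVec_aut, h4] at h2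
    funext i
    have h3 := congrFun h2 i
    simpa using h3
  · intro h1
    have h2 : (fun i => σ.symm ((qm M *ᵥ v) i)) =
        fun i => σ.symm ((σ θ • v) i) := by rw [h1]
    have h4 : (qm M).map σ.symm = qm M := qm_aut M (σ.symm : ℂ →+* ℂ)
    rw [map_mulVec_aut, h4] at h2
    funext i
    have h3 := congrFun h2 i
    simpa using h3

theorem VE_stab {M : Matrix (Fin g ⊕ Fin g) (Fin g ⊕ Fin g) ℚ}
    (hM : qm M * DZ Z = DZ Z * qm M) (θ : ℂ) : Stab (LZ Z) (VE M θ) := by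
  intro X hX u hu
  rw [mem_VE] at hu ⊢
  rw [mulVec_mulVec, ← commL_of hM X hX, ← mulVec_mulVec, hu, mulVec_smul]

end

end Pool.Agent.R915
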