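import Mathlib
import Pool.Agent.R915.E3

/-!
# Abelian varieties with many real endomorphisms, second part
-/

set_option linter.unusedSectionVars false

namespace Pool.Agent.R915

open Matrix Module Pool.Agent.W437.HC Pool.Agent.W437.HD Pool.Agent.TH504.CB Pool.Agent.Y90
open Pool.Agent.W548.Odd hiding cv
open Pool.Agent.H204R3.CM (IsHodge)
open Pool.Agent.W437.HP (cK cK_mul cK_one)
open Polynomial

open scoped ComplexOrder

noncomputable section

variable {g : ℕ} {Z : Matrix (Fin g) (Fin g) ℂ}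

/-- The eigenspaces of a rational endomorphism of a simple abelian variety. -/
theorem VE_main (h : PM Z) (hs : IsSimpleAV Z) (hg : 0 < g)
    {M : Matrix (Fin g ⊕ Fin g) (Fin g ⊕ Fin g) ℚ} (hM : qm M * DZ Z = DZ Z * qm M) :
    ∃ θ : ℂ, aeval θ (minpoly ℚ M) = 0 ∧
      (minpoly ℚ M).natDegree * finrank ℂ (VE M θ) ≤ 2 * g ∧
      ∀ U, IrS (LZ Z) U → ∃ (σ : ℂ ≃+* ℂ) (T : (Fin g ⊕ Fin g → ℂ) →ₗ[ℂ] (Fin g ⊕ Fin g → ℂ)),
        (∀ X ∈ LZ Z, ∀ u ∈ U, T (X *ᵥ u) = X *ᵥ T u) ∧ (∀ u ∈ U, T u = 0 → u = 0) ∧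
        U.map T ≤ VE M (σ θ) := by
  have : Nontrivial (Fin g ⊕ Fin g → ℂ) := by
    apply Module.nontrivial_of_finrank_pos (R := ℂ)
    rw [finrank_fintype_fun_eq_card, Fintype.card_sum, Fintype.card_fin]
    omega
  obtain ⟨θ, hθ⟩ := Module.End.exists_eigenvalue (mulVecLin (qm M))
  have hne : VE M θ ≠ ⊥ := hθ
  have hspan := conj_span h hs (VE_stab hM θ) hne
  have hspan' : ⨆ σ : ℂ ≃+* ℂ, VE M (σ θ) = ⊤ := by
    rw [← hspan]
    exact iSup_congr fun σ => (VE_cj M θ σ).symm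
  obtain ⟨v0, hv0, hv00⟩ := Submodule.exists_mem_ne_zero_of_ne_bot hne
  have hroot : aeval θ (minpoly ℚ M) = 0 := by
    have h1 := aeval_eig (mem_VE.1 hv0) (minpoly ℚ M)
    rw [minpoly.aeval, qm_zero, zero_mulVec] at h1
    exact (smul_eq_zero.1 h1.symm).resolve_right hv00
  have hMint : IsIntegral ℚ M := Algebra.IsIntegral.isIntegral M
  have hint : IsIntegral ℚ θ := ⟨minpoly ℚ M, minpoly.monic hMint, hroot⟩
  -- polynomials
  have hzero : ∀ P : ℂ[X], (∀ σ : ℂ ≃+* ℂ, P.eval (σ θ) = 0) → aeval (qm M) P = 0 := by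
    intro P hP
    have h1 : (⊤ : Submodule ℂ (Fin g ⊕ Fin g → ℂ)) ≤
        LinearMap.ker (mulVecLin (aeval (qm M) P)) := by
      rw [← hspan', iSup_le_iff]
      intro σ v hv
      rw [LinearMap.mem_ker, mulVecLin_apply, aeval_eigC (mem_VE.1 hv), hP, zero_smul]
    apply Matrix.toLin'.injective
    rw [map_zero]
    ext1 i
    ext1
    exact LinearMap.mem_ker.1 (h1 trivial)
  have hzeroQ : ∀ P : ℚ[X], aeval θ P = 0 → aeval M P = 0 := by
    intro P hP
    have h0 : ∀ σ : ℂ ≃+* ℂ, aeval (σ θ) P = 0 := by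
      intro σ
      have h2 : aeval (σ θ) P = σ (aeval θ P) := by
        have h3 := Polynomial.aeval_algHom_apply ((σ : ℂ →+* ℂ).toRatAlgHom) θ P
        exact h3
      rw [h2, hP, map_zero]
    have h1 : (⊤ : Submodule ℂ (Fin g ⊕ Fin g → ℂ)) ≤
        LinearMap.ker (mulVecLin (qm (aeval M P))) := by
      rw [← hspan', iSup_le_iff]
      intro σ v hv
      rw [LinearMap.mem_ker, mulVecLin_apply, aeval_eig (mem_VE.1 hv), h0, zero_smul]
    have h2 : qm (aeval M P) = 0 := by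
      apply Matrix.toLin'.injective
      rw [map_zero]
      ext1 i
      ext1
      exact LinearMap.mem_ker.1 (h1 trivial)
    ext i j
    have h3 := congrFun (congrFun h2 i) j
    simpa [qm] using h3
  have hdvd : minpoly ℚ M ∣ minpoly ℚ θ := minpoly.dvd ℚ M (hzeroQ _ (minpoly.aeval ℚ θ))
  have hdeg : (minpoly ℚ M).natDegree ≤ (minpoly ℚ θ).natDegree :=
    Polynomial.natDegree_le_of_dvd hdvd (minpoly.ne_zero hint)
  have hq0 : minpoly ℚ θ ≠ 0 := minpoly.ne_zero hint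
  have hcard : Fintype.card ((minpoly ℚ θ).rootSet ℂ) = (minpoly ℚ θ).natDegree :=
    Polynomial.card_rootSet_eq_natDegree (minpoly.irreducible hint).separable
      (IsAlgClosed.splits _)
  have hroots : ∀ z : ℂ, z ∈ (minpoly ℚ θ).rootSet ℂ ↔ ∃ σ : ℂ ≃+* ℂ, σ θ = z := by
    intro z
    rw [Polynomial.mem_rootSet]
    constructor
    · rintro ⟨-, h1⟩
      exact exists_conj_aut hint.isAlgebraic h1
    · rintro ⟨σ, rfl⟩
      refine ⟨hq0, ?_⟩
      have h3 := Polynomial.aeval_algHom_apply ((σ : ℂ →+* ℂ).toRatAlgHom) θ (minpoly ℚ θ)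
      rw [minpoly.aeval, map_zero] at h3
      exact h3
  refine ⟨θ, hroot, ?_, ?_⟩
  · have h1 := sum_finrank_le (fun z : (minpoly ℚ θ).rootSet ℂ => VE M (z : ℂ))
      ((Module.End.eigenspaces_iSupIndep (mulVecLin (qm M))).comp Subtype.val_injective)
    have h2 : ∀ z : (minpoly ℚ θ).rootSet ℂ, finrank ℂ (VE M (z : ℂ)) = finrank ℂ (VE M θ) := by
      rintro ⟨z, hz⟩
      obtain ⟨σ, rfl⟩ := (hroots z).1 hz
      change finrank ℂ (VE M (σ θ)) = _
      rw [← VE_cj, finrank_cjS]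
    rw [Finset.sum_congr rfl (fun z _ => h2 z), Finset.sum_const, Finset.card_univ, hcard,
      smul_eq_mul, finrank_fintype_fun_eq_card, Fintype.card_sum, Fintype.card_fin] at h1
    calc (minpoly ℚ M).natDegree * finrank ℂ (VE M θ)
        ≤ (minpoly ℚ θ).natDegree * finrank ℂ (VE M θ) := Nat.mul_le_mul_right _ hdeg
    _ ≤ g + g := h1
    _ = 2 * g := (two_mul g).symm
  · intro U hU
    classical
    let s : Finset ℂ := ((minpoly ℚ θ).rootSet ℂ).toFinset
    have hs' : ∀ z, z ∈ s ↔ ∃ σ : ℂ ≃+* ℂ, σ θ = z := by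
      intro z
      rw [← hroots, Set.mem_toFinset]
    have hsne : s.Nonempty := ⟨θ, (hs' θ).2 ⟨RingEquiv.refl ℂ, rfl⟩⟩
    have hsum := Lagrange.sum_basis (s := s) (v := (id : ℂ → ℂ)) Function.injective_id.injOn hsne
    have hker : ∀ z ∈ s, ∀ v, aeval (qm M) (Lagrange.basis s id z) *ᵥ v ∈ VE M z := by
      intro z hz v
      have h1 : aeval (qm M) ((X - C z) * Lagrange.basis s id z) = 0 := by
        refine hzero _ fun σ => ?_
        rw [eval_mul, eval_sub, eval_X, eval_C]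
        by_cases h2 : σ θ = z
        · rw [h2, sub_self, zero_mul]
        · have h3 := Lagrange.eval_basis_of_ne (s := s) (v := (id : ℂ → ℂ)) (i := z) (j := σ θ)
            (Ne.symm h2) ((hs' _).2 ⟨σ, rfl⟩)
          change eval (id (σ θ)) _ = 0 at h3
          rw [id] at h3
          rw [h3, mul_zero]
      rw [map_mul, map_sub, aeval_X, aeval_C, Algebra.algebraMap_eq_smul_one] at h1
      rw [mem_VE, ← sub_eq_zero]
      have h2 : (qm M - z • (1 : Matrix (Fin g ⊕ Fin g) (Fin g ⊕ Fin g) ℂ)) *ᵥ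
          (aeval (qm M) (Lagrange.basis s id z) *ᵥ v) = 0 := by
        rw [mulVec_mulVec, h1, zero_mulVec]
      rwa [sub_mulVec, smul_mulVec, one_mulVec] at h2
    obtain ⟨z, hz, u0, hu0, hzu⟩ : ∃ z ∈ s, ∃ u ∈ U,
        aeval (qm M) (Lagrange.basis s id z) *ᵥ u ≠ 0 := by
      by_contra hcon
      push Not at hcon
      apply hU.1
      rw [eq_bot_iff]
      intro u hu
      rw [Submodule.mem_bot]
      have h1 : aeval (qm M) (∑ j ∈ s, Lagrange.basis s id j) *ᵥ u = u := by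
        rw [hsum, map_one, one_mulVec]
      rw [← h1, map_sum, Matrix.sum_mulVec]
      exact Finset.sum_eq_zero fun z hz => hcon z hz u hu
    obtain ⟨σ, rfl⟩ := (hs' z).1 hz
    have hT : ∀ X ∈ LZ Z, ∀ u ∈ U, mulVecLin (aeval (qm M) (Lagrange.basis s id (σ θ)))
        (X *ᵥ u) = X *ᵥ mulVecLin (aeval (qm M) (Lagrange.basis s id (σ θ))) u := by
      intro X hX u _
      rw [mulVecLin_apply, mulVecLin_apply, mulVec_mulVec, mulVec_mulVec,
        aeval_comm (commL_of hM X hX)]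
    refine ⟨σ, mulVecLin (aeval (qm M) (Lagrange.basis s id (σ θ))), hT,
      hU.inj hT ⟨u0, hu0, hzu⟩, ?_⟩
    rintro _ ⟨u, hu, rfl⟩
    exact hker _ hz u

/-- Elements of rank one for simple abelian varieties with many real endomorphisms. -/
theorem rk1_real (h : PM Z) (hs : IsSimpleAV Z) (hg : 0 < g)
    {M : Matrix (Fin g ⊕ Fin g) (Fin g ⊕ Fin g) ℚ} (hM : qm M * DZ Z = DZ Z * qm M)
    (hr : ∀ z : ℂ, aeval z (minpoly ℚ M) = 0 → cc z = z)
    (hd : 2 * g ≤ 4 * (minpoly ℚ M).natDegree)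
    {U : Submodule ℂ (Fin g ⊕ Fin g → ℂ)} (hU : IrS (LZ Z) U) (hsd : SDu Z U) :
    Rk1 Z U ∧ 2 ≤ finrank ℂ U := by
  obtain ⟨θ, hθ, hdim, hproj⟩ := VE_main h hs hg hM
  have hdim4 : finrank ℂ (VE M θ) ≤ 4 := by
    have h1 : 0 < (minpoly ℚ M).natDegree := by
      by_contra h2
      have h3 : (minpoly ℚ M).natDegree = 0 := by omega
      rw [h3] at hd
      omega
    by_contra h2
    have h3 : (minpoly ℚ M).natDegree * 5 ≤ (minpoly ℚ M).natDegree * finrank ℂ (VE M θ) :=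
      Nat.mul_le_mul_left _ (by omega)
    omega
  obtain ⟨σ, T, hT, hi, hUV⟩ := hproj U hU
  have hU' := irS_map hU hT hi
  have hfr : finrank ℂ (U.map T) = finrank ℂ U := finrank_map_of_inj hi
  have hθ' : aeval (σ θ) (minpoly ℚ M) = 0 := by
    have h3 := Polynomial.aeval_algHom_apply ((σ : ℂ →+* ℂ).toRatAlgHom) θ (minpoly ℚ M)
    rw [hθ, map_zero] at h3
    exact h3
  have hV4 : finrank ℂ (VE M (σ θ)) ≤ 4 := by
    rw [← VE_cj, finrank_cjS]
    exact hdim4
  by_cases h3 : finrank ℂ U ≤ 3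
  · obtain ⟨h4, h5⟩ := rk1_two h hU hsd h3
    exact ⟨h4, by omega⟩
  · have hle := Submodule.finrank_mono hUV
    have h4 : U.map T = VE M (σ θ) := Submodule.eq_of_le_of_finrank_le hUV (by omega)
    refine ⟨rk1_of_map hU hT hi ?_, by omega⟩
    refine rk1_sp h hU' (by omega) (om g) ?_ ?_ ?_
    · obtain ⟨w, hw, hw0⟩ := Submodule.exists_mem_ne_zero_of_ne_bot hU'.1
      refine ⟨cnj w, ?_, DZ Z *ᵥ w, hU'.2.1 _ DZ_mem w hw, fun h0 => ?_⟩
      · rw [h4] at hw ⊢
        have h5 : cjS cc (VE M (σ θ)) = VE M (σ θ) := by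
          rw [VE_cj, hr _ hθ']
        rw [← h5]
        change (fun i => cc.symm (cnj w i)) ∈ VE M (σ θ)
        have h6 : (fun i => cc.symm (cnj w i)) = w := cnj_cnj w
        rwa [h6]
      · have h5 := h.herm_pos hw0
        rw [h0, mul_zero] at h5
        exact lt_irrefl _ h5
    · exact fun X hX u _ v _ => h.om_sp hX u v
    · exact fun u _ v _ => om_anti u v

end

end Pool.Agent.R915
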