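import Mathlib
import Pool.Agent.R915.E4

/-!
# Totally real maximal commutative subalgebras of endomorphisms
-/

set_option linter.unusedSectionVars false

namespace Pool.Agent.R915

open Matrix Module Pool.Agent.W437.HC Pool.Agent.W437.HD Pool.Agent.TH504.CB Pool.Agent.Y90
open Pool.Agent.W548.Odd hiding cv
open Pool.Agent.H204R3.CM (IsHodge)
open Pool.Agent.W437.HP (cK cK_mul cK_one)
open Polynomial

open scoped ComplexOrder

noncomputable section

section burnside

variable {B : Type*} [Fintype B] [DecidableEq B]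

/-- **Burnside's theorem**. -/
theorem burnside {L : Submodule ℂ (Matrix B B ℂ)} {U : Submodule ℂ (B → ℂ)} (hU : IrS L U)
    (f : U →ₗ[ℂ] U) : ∃ N ∈ Algebra.adjoin ℂ (L : Set (Matrix B B ℂ)),
      ∀ u : U, N *ᵥ (u : B → ℂ) = f u := by
  have hst : ∀ N ∈ Algebra.adjoin ℂ (L : Set (Matrix B B ℂ)), ∀ u ∈ U, N *ᵥ u ∈ U := by
    intro N hN
    induction hN using Algebra.adjoin_induction with
    | mem X hX => exact hU.2.1 X hX
    | algebraMap c =>
      intro u hu
      rw [Algebra.algebraMap_eq_smul_one, smul_mulVec, one_mulVec]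
      exact U.smul_mem _ hu
    | add X Y _ _ hX hY =>
      intro u hu
      rw [add_mulVec]
      exact U.add_mem (hX u hu) (hY u hu)
    | mul X Y _ _ hX hY =>
      intro u hu
      rw [← mulVec_mulVec]
      exact hX _ (hY u hu)
  let ρ : Algebra.adjoin ℂ (L : Set (Matrix B B ℂ)) →+* Module.End ℂ U :=
    { toFun := fun N => (mulVecLin (N : Matrix B B ℂ)).restrict fun u hu => hst N N.2 u hu
      map_one' := by
        ext1 u
        exact Subtype.ext (one_mulVec _)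
      map_mul' := fun X Y => by
        ext1 u
        exact Subtype.ext (mulVec_mulVec _ _ _).symm
      map_zero' := by
        ext1 u
        exact Subtype.ext (zero_mulVec _)
      map_add' := fun X Y => by
        ext1 u
        exact Subtype.ext (add_mulVec _ _ _) }
  let _ : Module (Algebra.adjoin ℂ (L : Set (Matrix B B ℂ))) U := Module.compHom U ρ
  have hsm : ∀ (N : Algebra.adjoin ℂ (L : Set (Matrix B B ℂ))) (u : U),
      ((N • u : U) : B → ℂ) = (N : Matrix B B ℂ) *ᵥ (u : B → ℂ) := fun _ _ => rfl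
  obtain ⟨u0, hu0, hu00⟩ := Submodule.exists_mem_ne_zero_of_ne_bot hU.1
  have hnt : Nontrivial U := ⟨⟨⟨u0, hu0⟩, 0, fun h => hu00 (congrArg Subtype.val h)⟩⟩
  have hC : ∀ c : ℂ, ∃ N : Algebra.adjoin ℂ (L : Set (Matrix B B ℂ)), ∀ u : U, N • u = c • u := by
    intro c
    refine ⟨algebraMap ℂ _ c, fun u => Subtype.ext ?_⟩
    rw [hsm]
    change (algebraMap ℂ (Matrix B B ℂ) c) *ᵥ _ = _
    rw [Algebra.algebraMap_eq_smul_one, smul_mulVec, one_mulVec]
    rfl
  have hsimple : IsSimpleModule (Algebra.adjoin ℂ (L : Set (Matrix B B ℂ))) U := by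
    have : IsSimpleOrder (Submodule (Algebra.adjoin ℂ (L : Set (Matrix B B ℂ))) U) := by
      refine { toNontrivial := inferInstance, eq_bot_or_eq_top := fun W => ?_ }
      let W' : Submodule ℂ (B → ℂ) :=
        { carrier := {v | ∃ hv : v ∈ U, (⟨v, hv⟩ : U) ∈ W}
          add_mem' := by
            rintro a b ⟨ha, ha'⟩ ⟨hb, hb'⟩
            exact ⟨U.add_mem ha hb, W.add_mem ha' hb'⟩
          zero_mem' := ⟨U.zero_mem, W.zero_mem⟩
          smul_mem' := by
            rintro c a ⟨ha, ha'⟩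
            obtain ⟨N, hN⟩ := hC c
            have h1 := W.smul_mem N ha'
            rw [hN] at h1
            exact ⟨U.smul_mem c ha, h1⟩ }
      have h1 : W' ≤ U := by
        rintro v ⟨hv, -⟩
        exact hv
      have h2 : Stab L W' := by
        rintro X hX v ⟨hv, hv'⟩
        have h3 := W.smul_mem (⟨X, Algebra.subset_adjoin hX⟩ :
          Algebra.adjoin ℂ (L : Set (Matrix B B ℂ))) hv'
        exact ⟨hU.2.1 X hX v hv, h3⟩
      rcases hU.2.2 W' h1 h2 with h3 | h3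
      · left
        rw [eq_bot_iff]
        intro u hu
        have h4 : (u : B → ℂ) ∈ W' := ⟨u.2, hu⟩
        rw [h3, Submodule.mem_bot] at h4
        exact (Submodule.mem_bot _).2 (Subtype.ext h4)
      · right
        rw [eq_top_iff]
        intro u _
        have h4 : (u : B → ℂ) ∈ W' := by
          rw [h3]
          exact u.2
        exact h4.2
    exact ⟨⟩
  have hschur : ∀ φ : Module.End (Algebra.adjoin ℂ (L : Set (Matrix B B ℂ))) U,
      ∃ c : ℂ, ∀ u, φ u = c • u := by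
    intro φ
    let φ' : Module.End ℂ U :=
      { toFun := φ
        map_add' := map_add φ
        map_smul' := fun c u => by
          obtain ⟨N, hN⟩ := hC c
          rw [← hN, map_smul, hN]
          rfl }
    obtain ⟨c, hc⟩ := Module.End.exists_eigenvalue φ'
    obtain ⟨v, hv⟩ := hc.exists_hasEigenvector
    let W : Submodule (Algebra.adjoin ℂ (L : Set (Matrix B B ℂ))) U :=
      { carrier := {u | φ u = c • u}
        add_mem' := by
          intro a b ha hb
          change φ (a + b) = c • (a + b)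
          rw [map_add, ha, hb, smul_add]
        zero_mem' := by
          change φ 0 = c • 0
          rw [map_zero, smul_zero]
        smul_mem' := by
          intro N a ha
          change φ (N • a) = c • N • a
          rw [map_smul, ha]
          refine Subtype.ext ?_
          change (N : Matrix B B ℂ) *ᵥ (c • (a : B → ℂ)) = c • ((N : Matrix B B ℂ) *ᵥ (a : B → ℂ))
          exact mulVec_smul _ _ _ }
    rcases eq_bot_or_eq_top W with h1 | h1
    · exfalso
      have h2 : v ∈ W := hv.apply_eq_smul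
      rw [h1, Submodule.mem_bot] at h2
      exact hv.2 h2
    · refine ⟨c, fun u => ?_⟩
      have h2 : u ∈ W := by
        rw [h1]
        trivial
      exact h2
  let f' : Module.End (Module.End (Algebra.adjoin ℂ (L : Set (Matrix B B ℂ))) U) U :=
    { toFun := f
      map_add' := map_add f
      map_smul' := fun φ u => by
        obtain ⟨c, hc⟩ := hschur φ
        change f (φ u) = φ (f u)
        rw [hc, hc, map_smul] }
  let bs := Module.finBasis ℂ U
  classical
  obtain ⟨N, hN⟩ := jacobson_density f' (Finset.univ.image bs)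
  refine ⟨N, N.2, fun u => ?_⟩
  have h1 : (ρ N : U →ₗ[ℂ] U) = f := by
    refine bs.ext fun i => ?_
    have h2 := hN (bs i) (Finset.mem_image_of_mem _ (Finset.mem_univ i))
    exact h2.symm
  have h2 := LinearMap.congr_fun h1 u
  exact congrArg Subtype.val h2

end burnside

variable {g : ℕ} {Z : Matrix (Fin g) (Fin g) ℂ}

/-- All eigenvalues of an endomorphism of a simple abelian variety are conjugate. -/
theorem eig_conj (h : PM Z) (hs : IsSimpleAV Z)
    {M : Matrix (Fin g ⊕ Fin g) (Fin g ⊕ Fin g) ℚ} (hM : qm M * DZ Z = DZ Z * qm M)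
    {θ z : ℂ} {v w : Fin g ⊕ Fin g → ℂ} (hv0 : v ≠ 0) (hv : qm M *ᵥ v = θ • v) (hw0 : w ≠ 0)
    (hw : qm M *ᵥ w = z • w) : ∃ σ : ℂ ≃+* ℂ, σ θ = z := by
  have hMint : IsIntegral ℚ M := Algebra.IsIntegral.isIntegral M
  have hroot : aeval θ (minpoly ℚ M) = 0 := by
    have h1 := aeval_eig hv (minpoly ℚ M)
    rw [minpoly.aeval, qm_zero, zero_mulVec] at h1
    exact (smul_eq_zero.1 h1.symm).resolve_right hv0
  have hint : IsIntegral ℚ θ := ⟨minpoly ℚ M, minpoly.monic hMint, hroot⟩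
  have hne : VE M θ ≠ ⊥ := fun h1 => hv0 (by
    have h2 : v ∈ VE M θ := mem_VE.2 hv
    rwa [h1, Submodule.mem_bot] at h2)
  have hspan' : ⨆ σ : ℂ ≃+* ℂ, VE M (σ θ) = ⊤ := by
    rw [← conj_span h hs (VE_stab hM θ) hne]
    exact iSup_congr fun σ => (VE_cj M θ σ).symm
  have h0 : ∀ σ : ℂ ≃+* ℂ, aeval (σ θ) (minpoly ℚ θ) = 0 := by
    intro σ
    have h3 := Polynomial.aeval_algHom_apply ((σ : ℂ →+* ℂ).toRatAlgHom) θ (minpoly ℚ θ)
    rw [minpoly.aeval, map_zero] at h3
    exact h3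
  have h1 : (⊤ : Submodule ℂ (Fin g ⊕ Fin g → ℂ)) ≤
      LinearMap.ker (mulVecLin (qm (aeval M (minpoly ℚ θ)))) := by
    rw [← hspan', iSup_le_iff]
    intro σ v hv
    rw [LinearMap.mem_ker, mulVecLin_apply, aeval_eig (mem_VE.1 hv), h0, zero_smul]
  have h2 : qm (aeval M (minpoly ℚ θ)) *ᵥ w = 0 := LinearMap.mem_ker.1 (h1 trivial)
  rw [aeval_eig hw] at h2
  exact exists_conj_aut hint.isAlgebraic ((smul_eq_zero.1 h2).resolve_right hw0)

/-- The endomorphism `M` generates a totally real maximal commutative subalgebra. -/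
structure RF (Z : Matrix (Fin g) (Fin g) ℂ) (M : Matrix (Fin g ⊕ Fin g) (Fin g ⊕ Fin g) ℚ) :
    Prop where
  comm : qm M * DZ Z = DZ Z * qm M
  real : ∀ z : ℂ, aeval z (minpoly ℚ M) = 0 → cc z = z
  max : ∀ R : Matrix (Fin g ⊕ Fin g) (Fin g ⊕ Fin g) ℚ, qm R * DZ Z = DZ Z * qm R →
    R * M = M * R → R ∈ Algebra.adjoin ℚ {M}

theorem root_conj {M : Matrix (Fin g ⊕ Fin g) (Fin g ⊕ Fin g) ℚ} {θ : ℂ}
    (h : aeval θ (minpoly ℚ M) = 0) (σ : ℂ ≃+* ℂ) : aeval (σ θ) (minpoly ℚ M) = 0 := by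
  have h3 := Polynomial.aeval_algHom_apply ((σ : ℂ →+* ℂ).toRatAlgHom) θ (minpoly ℚ M)
  rw [h, map_zero] at h3
  exact h3

theorem aeval_aut (z : ℂ) (p : ℚ[X]) (σ : ℂ ≃+* ℂ) : aeval (σ z) p = σ (aeval z p) :=
  Polynomial.aeval_algHom_apply ((σ : ℂ →+* ℂ).toRatAlgHom) z p

/-- The irreducible submodules are self-dual. -/
theorem RF.sdu {M : Matrix (Fin g ⊕ Fin g) (Fin g ⊕ Fin g) ℚ} (k : RF Z M) (h : PM Z)
    (hs : IsSimpleAV Z) (hg : 0 < g) {U : Submodule ℂ (Fin g ⊕ Fin g → ℂ)}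
    (hU : IrS (LZ Z) U) : SDu Z U := by
  refine sdu_of_real h (fun C hC z v hv0 hv => ?_) hU
  obtain ⟨θ, hθ, hdim, hproj⟩ := VE_main h hs hg k.comm
  have h1 := k.max C hC.1 (hC.2 M k.comm)
  rw [Algebra.adjoin_singleton_eq_range_aeval] at h1
  obtain ⟨p, hp⟩ := h1
  change aeval M p = C at hp
  -- an eigenvector
  obtain ⟨σ0, T, hT, hi, hTU⟩ := hproj U hU
  obtain ⟨u, hu, hu0⟩ := Submodule.exists_mem_ne_zero_of_ne_bot hU.1
  have h2 : T u ∈ VE M (σ0 θ) := hTU ⟨u, hu, rfl⟩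
  have h3 : T u ≠ 0 := fun h4 => hu0 (hi u hu h4)
  have h4 := aeval_eig (mem_VE.1 h2) p
  rw [hp] at h4
  obtain ⟨σ, hσ⟩ := eig_conj h hs hC.1 h3 h4 hv0 hv
  rw [← hσ, ← aeval_aut, ← aeval_aut, k.real _ (root_conj (root_conj hθ σ0) σ)]

/-- Descent. -/
theorem descent_gen {T : Matrix (Fin g ⊕ Fin g) (Fin g ⊕ Fin g) ℂ}
    (h1 : ∀ X ∈ LZ Z, T * X = X * T) :
    ∃ (m : ℕ) (c : Fin m → ℂ) (C : Fin m → Matrix (Fin g ⊕ Fin g) (Fin g ⊕ Fin g) ℚ),
      (∀ j, qm (C j) * DZ Z = DZ Z * qm (C j)) ∧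
      (∀ R : Matrix (Fin g ⊕ Fin g) (Fin g ⊕ Fin g) ℚ, T * qm R = qm R * T → ∀ j,
        C j * R = R * C j) ∧ T = ∑ j, c j • qm (C j) := by
  let W : Submodule ℚ ℂ := Submodule.span ℚ (Set.range fun p : (Fin g ⊕ Fin g) × (Fin g ⊕ Fin g) =>
    T p.1 p.2)
  have : FiniteDimensional ℚ W := FiniteDimensional.span_of_finite ℚ (Set.finite_range _)
  obtain ⟨m, c, l, hl⟩ := exists_coord W
  refine ⟨m, c, fun j => Matrix.of fun i k => l j (T i k), fun j => ?_, fun R hR j => ?_, ?_⟩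
  · have h3 : T ∈ Submodule.span ℂ (TT Z Z : Set (Matrix (Fin g ⊕ Fin g) (Fin g ⊕ Fin g) ℂ)) :=
      exp_mem fun σ => h1 _ (DS_mem σ)
    have key : ∀ T ∈ Submodule.span ℂ (TT Z Z : Set (Matrix (Fin g ⊕ Fin g) (Fin g ⊕ Fin g) ℂ)),
        ∀ l : ℂ →ₗ[ℚ] ℚ, qm (Matrix.of fun i k => l (T i k)) * DZ Z =
          DZ Z * qm (Matrix.of fun i k => l (T i k)) := by
      intro T hT
      induction hT using Submodule.span_induction with
      | mem T hT =>
        obtain ⟨R, rfl, hR⟩ := hT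
        intro l
        have h4 : qm (Matrix.of fun i k => l (cK ℂ R i k)) = ((l 1 : ℚ) : ℂ) • cK ℂ R := by
          ext i k
          change ((l (((R i k : ℚ) : ℂ)) : ℚ) : ℂ) = ((l 1 : ℚ) : ℂ) * ((R i k : ℚ) : ℂ)
          have h5 : ((R i k : ℚ) : ℂ) = R i k • (1 : ℂ) := by rw [Rat.smul_def, mul_one]
          rw [h5, map_smul, smul_eq_mul, Rat.smul_def, mul_one]
          push_cast
          ring
        rw [h4, Matrix.smul_mul, Matrix.mul_smul, hR]
      | zero =>
        intro l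
        have h4 : qm (Matrix.of fun i k => l ((0 : Matrix (Fin g ⊕ Fin g) (Fin g ⊕ Fin g) ℂ) i k)) =
            0 := by
          ext i k
          simp
        rw [h4, Matrix.zero_mul, Matrix.mul_zero]
      | add x y _ _ hx hy =>
        intro l
        have h4 : qm (Matrix.of fun i k => l ((x + y) i k)) =
            qm (Matrix.of fun i k => l (x i k)) + qm (Matrix.of fun i k => l (y i k)) := by
          ext i k
          simp
        rw [h4, Matrix.add_mul, Matrix.mul_add, hx, hy]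
      | smul a x _ hx =>
        intro l
        exact hx (l.comp ((LinearMap.mulLeft ℂ a).restrictScalars ℚ))
    exact key T h3 (l j)
  · ext i k
    have h4 := congrArg (l j) (congrFun (congrFun hR i) k)
    rw [Matrix.mul_apply, Matrix.mul_apply, map_sum, map_sum] at h4
    rw [Matrix.mul_apply, Matrix.mul_apply]
    have h5 : ∀ x, l j (T i x * qm R x k) = l j (T i x) * R x k := by
      intro x
      change l j (T i x * ((R x k : ℚ) : ℂ)) = _
      rw [mul_comm, ← Rat.smul_def, map_smul, smul_eq_mul, mul_comm]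
    have h6 : ∀ x, l j (qm R i x * T x k) = R i x * l j (T x k) := by
      intro x
      change l j (((R i x : ℚ) : ℂ) * T x k) = _
      rw [← Rat.smul_def, map_smul, smul_eq_mul]
    rw [Finset.sum_congr rfl fun x _ => h5 x, Finset.sum_congr rfl fun x _ => h6 x] at h4
    exact h4
  · ext i k
    rw [Matrix.sum_apply]
    exact hl _ (Submodule.subset_span ⟨(i, k), rfl⟩)

/-- A projector on an eigenspace. -/
theorem exists_spec (h : PM Z) (hs : IsSimpleAV Z)
    {M : Matrix (Fin g ⊕ Fin g) (Fin g ⊕ Fin g) ℚ} (hM : qm M * DZ Z = DZ Z * qm M)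
    {θ : ℂ} (hne : VE M θ ≠ ⊥) : ∃ P : Matrix (Fin g ⊕ Fin g) (Fin g ⊕ Fin g) ℂ,
      (∀ v, P *ᵥ v ∈ VE M θ) ∧ (∀ v ∈ VE M θ, P *ᵥ v = v) ∧ (∀ X ∈ LZ Z, X * P = P * X) ∧
      qm M * P = P * qm M := by
  have hspan' : ⨆ σ : ℂ ≃+* ℂ, VE M (σ θ) = ⊤ := by
    rw [← conj_span h hs (VE_stab hM θ) hne]
    exact iSup_congr fun σ => (VE_cj M θ σ).symm
  have hMint : IsIntegral ℚ M := Algebra.IsIntegral.isIntegral M
  obtain ⟨v0, hv0, hv00⟩ := Submodule.exists_mem_ne_zero_of_ne_bot hne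
  have hroot : aeval θ (minpoly ℚ M) = 0 := by
    have h1 := aeval_eig (mem_VE.1 hv0) (minpoly ℚ M)
    rw [minpoly.aeval, qm_zero, zero_mulVec] at h1
    exact (smul_eq_zero.1 h1.symm).resolve_right hv00
  classical
  let s : Finset ℂ := ((minpoly ℚ M).rootSet ℂ).toFinset
  have hs' : ∀ σ : ℂ ≃+* ℂ, σ θ ∈ s := by
    intro σ
    rw [Set.mem_toFinset, Polynomial.mem_rootSet]
    exact ⟨minpoly.ne_zero hMint, root_conj hroot σ⟩
  have hθs : θ ∈ s := hs' (RingEquiv.refl ℂ)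
  refine ⟨aeval (qm M) (Lagrange.basis s id θ), fun v => ?_, fun v hv => ?_, fun X hX =>
    aeval_comm (commL_of hM X hX) _, aeval_comm rfl _⟩
  · have h1 : v ∈ ⨆ σ : ℂ ≃+* ℂ, VE M (σ θ) := by
      rw [hspan']
      trivial
    induction h1 using Submodule.iSup_induction' with
    | mem σ v hv =>
      rw [aeval_eigC (mem_VE.1 hv)]
      by_cases h2 : σ θ = θ
      · rw [h2] at hv
        exact Submodule.smul_mem _ _ hv
      · have h3 := Lagrange.eval_basis_of_ne (s := s) (v := (id : ℂ → ℂ)) (i := θ) (j := σ θ)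
            (Ne.symm h2) (hs' σ)
        change eval (σ θ) _ = 0 at h3
        rw [h3, zero_smul]
        exact Submodule.zero_mem _
    | zero =>
      rw [mulVec_zero]
      exact Submodule.zero_mem _
    | add x y _ _ hx hy =>
      rw [mulVec_add]
      exact Submodule.add_mem _ hx hy
  · rw [aeval_eigC (mem_VE.1 hv)]
    have h3 := Lagrange.eval_basis_self (s := s) (v := (id : ℂ → ℂ)) (i := θ)
      Function.injective_id.injOn hθs
    change eval θ _ = 1 at h3
    rw [h3, one_smul]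

/-- The eigenspaces are irreducible. -/
theorem RF.irr {M : Matrix (Fin g ⊕ Fin g) (Fin g ⊕ Fin g) ℚ} (k : RF Z M) (h : PM Z)
    (hs : IsSimpleAV Z) {θ : ℂ} (hne : VE M θ ≠ ⊥) : IrS (LZ Z) (VE M θ) := by
  obtain ⟨U, hUV, hU⟩ := exists_irS _ (VE M θ) rfl hne (VE_stab k.comm θ)
  obtain ⟨P, hP1, hP2, hP3, hP4⟩ := exists_spec h hs k.comm hne
  obtain ⟨π, hπ1, hπ2, hπ3⟩ := h.cred U hU.2.1
  obtain ⟨Q, hQ⟩ : ∃ Q : Matrix (Fin g ⊕ Fin g) (Fin g ⊕ Fin g) ℂ, ∀ v, Q *ᵥ v = π v :=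
    ⟨LinearMap.toMatrix' π, fun v => by
      rw [← Matrix.toLin'_apply, Matrix.toLin'_toMatrix']⟩
  have hext : ∀ A C : Matrix (Fin g ⊕ Fin g) (Fin g ⊕ Fin g) ℂ, (∀ v, A *ᵥ v = C *ᵥ v) →
      A = C := by
    intro A C hAC
    apply Matrix.toLin'.injective
    exact LinearMap.ext fun v => hAC v
  have hT1 : ∀ X ∈ LZ Z, (Q * P) * X = X * (Q * P) := by
    intro X hX
    refine hext _ _ fun v => ?_
    rw [mul_assoc, ← hP3 X hX, ← mulVec_mulVec, ← mulVec_mulVec, hQ, hπ1 X hX, ← hQ,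
      ← mulVec_mulVec, ← mulVec_mulVec]
  have hT2 : (Q * P) * qm M = qm M * (Q * P) := by
    refine hext _ _ fun v => ?_
    rw [mul_assoc, ← hP4, ← mulVec_mulVec, ← mulVec_mulVec, ← mulVec_mulVec, ← mulVec_mulVec,
      mem_VE.1 (hP1 v), mulVec_smul, hQ, mem_VE.1 (hUV (hπ2 _))]
  obtain ⟨m, c, C, hC1, hC2, hC3⟩ := descent_gen hT1
  have hsc : ∀ j, ∃ z : ℂ, ∀ v ∈ VE M θ, qm (C j) *ᵥ v = z • v := by
    intro j
    have h1 := k.max (C j) (hC1 j) (hC2 M hT2 j)
    rw [Algebra.adjoin_singleton_eq_range_aeval] at h1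
    obtain ⟨p, hp⟩ := h1
    change aeval M p = C j at hp
    refine ⟨aeval θ p, fun v hv => ?_⟩
    rw [← hp, aeval_eig (mem_VE.1 hv)]
  choose z hz using hsc
  have hall : ∀ v ∈ VE M θ, π v = (∑ j, c j * z j) • v := by
    intro v hv
    have h1 : (Q * P) *ᵥ v = π v := by rw [← mulVec_mulVec, hP2 v hv, hQ]
    rw [← h1, hC3, Matrix.sum_mulVec, Finset.sum_smul]
    refine Finset.sum_congr rfl fun j _ => ?_
    rw [smul_mulVec, hz j v hv, smul_smul]
  obtain ⟨u, hu, hu0⟩ := Submodule.exists_mem_ne_zero_of_ne_bot hU.1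
  have h1 : (∑ j, c j * z j) = 1 := by
    have h2 := hall u (hUV hu)
    rw [hπ3 u hu] at h2
    have h3 : ((1 : ℂ) - ∑ j, c j * z j) • u = 0 := by
      rw [sub_smul, one_smul, ← h2, sub_self]
    exact (sub_eq_zero.1 ((smul_eq_zero.1 h3).resolve_right hu0)).symm
  have h2 : VE M θ = U := by
    apply le_antisymm _ hUV
    intro v hv
    have h3 := hall v hv
    rw [h1, one_smul] at h3
    rw [← h3]
    exact hπ2 v
  rw [h2]
  exact hU

end

end Pool.Agent.R915
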