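import Mathlib
import Pool.Agent.R915.E5

/-!
# Elements of rank one if the Lie algebra is as large as possible
-/

set_option linter.unusedSectionVars false

namespace Pool.Agent.R915

open Matrix Module Pool.Agent.W437.HC Pool.Agent.W437.HD Pool.Agent.TH504.CB Pool.Agent.Y90
open Pool.Agent.W548.Odd hiding cv
open Pool.Agent.H204R3.CM (IsHodge)
open Pool.Agent.W437.HP (cK cK_mul cK_one)
open Polynomial

open scoped ComplexOrder

noncomputable section

variable {g : ℕ} {Z : Matrix (Fin g) (Fin g) ℂ}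

theorem om_adj (N : Matrix (Fin g ⊕ Fin g) (Fin g ⊕ Fin g) ℂ) (u v : Fin g ⊕ Fin g → ℂ) :
    om g (N *ᵥ u) v = om g u (-(Om g ℂ * Nᵀ * Om g ℂ) *ᵥ v) := by
  have h1 : Om g ℂ * (-(Om g ℂ * Nᵀ * Om g ℂ)) = Nᵀ * Om g ℂ := by
    have h2 : Om g ℂ * (-(Om g ℂ * Nᵀ * Om g ℂ)) = -(Om g ℂ * Om g ℂ) * Nᵀ * Om g ℂ := by
      noncomm_ring
    rw [h2, Om_sq, neg_neg, one_mul]
  rw [om_apply, om_apply, mulVec_mulVec, h1, ← mulVec_mulVec, dotProduct_mulVec u,
    vecMul_transpose]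

/-- Elements of rank one if the Lie algebra contains all matrices in the symplectic Lie algebra
which commute with the rational endomorphisms. -/
theorem rk1_full (h : PM Z) (hs : IsSimpleAV Z) (hg : 0 < g)
    {M : Matrix (Fin g ⊕ Fin g) (Fin g ⊕ Fin g) ℚ} (k : RF Z M)
    (HL : ∀ S : Matrix (Fin g ⊕ Fin g) (Fin g ⊕ Fin g) ℂ, Sᵀ * Om g ℂ + Om g ℂ * S = 0 →
      (∀ R : Matrix (Fin g ⊕ Fin g) (Fin g ⊕ Fin g) ℚ, qm R * DZ Z = DZ Z * qm R →
        S * qm R = qm R * S) → S ∈ LZ Z)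
    {U : Submodule ℂ (Fin g ⊕ Fin g → ℂ)} (hU : IrS (LZ Z) U) : Rk1 Z U := by
  obtain ⟨θ, hθ, -, hproj⟩ := VE_main h hs hg k.comm
  obtain ⟨σ, T, hT, hi, hTU⟩ := hproj U hU
  have hU' := irS_map hU hT hi
  have hW := k.irr h hs (θ := σ θ) (fun h1 => hU'.1 (by rwa [h1, le_bot_iff] at hTU))
  have hreal : cc (σ θ) = σ θ := k.real _ (root_conj hθ σ)
  rcases hW.2.2 _ hTU hU'.2.1 with h1 | h1
  · exact absurd h1 hU'.1
  refine rk1_of_map hU hT hi ?_
  rw [h1]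
  set W := VE M (σ θ) with hWdef
  have hcc : ∀ v ∈ W, cnj v ∈ W := by
    intro v hv
    have h5 : cjS cc W = W := by rw [hWdef, VE_cj, hreal]
    rw [← h5]
    change (fun i => cc.symm (cnj v i)) ∈ W
    have h6 : (fun i => cc.symm (cnj v i)) = v := cnj_cnj v
    rwa [h6]
  -- a vector
  obtain ⟨w, hw, hw1, hw0⟩ : ∃ w ∈ W, w ∈ eig Z 1 ∧ w ≠ 0 := by
    obtain ⟨u, hu, hu0⟩ := Submodule.exists_mem_ne_zero_of_ne_bot hW.1
    rw [← (split_eig h hW.2.1).2] at hu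
    obtain ⟨a, ha, b, hb, rfl⟩ := Submodule.mem_sup.1 hu
    by_cases ha0 : a = 0
    · refine ⟨cnj b, hcc b hb.1, ?_, fun h2 => ?_⟩
      · have h2 : cjS cc (eig Z 1) = eig Z (-1) := cjS_eig
        have h3 : b ∈ cjS cc (eig Z 1) := by
          rw [h2]
          exact hb.2
        exact h3
      · apply hu0
        have h3 : b = 0 := by
          rw [← cnj_cnj b, h2]
          funext i
          simp [cnj]
        rw [ha0, h3, add_zero]
    · exact ⟨a, ha.1, ha.2, ha0⟩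
  -- the form is not zero
  have hnz : ∃ u ∈ W, ∃ v ∈ W, om g u v ≠ 0 := by
    refine ⟨cnj w, hcc w hw, DZ Z *ᵥ w, hW.2.1 _ DZ_mem w hw, fun h0 => ?_⟩
    have h5 := h.herm_pos hw0
    rw [h0, mul_zero] at h5
    exact lt_irrefl _ h5
  have hinv : ∀ X ∈ LZ Z, ∀ u ∈ W, ∀ v ∈ W, om g (X *ᵥ u) v + om g u (X *ᵥ v) = 0 :=
    fun X hX u _ v _ => h.om_sp hX u v
  -- the element of the enveloping algebra
  obtain ⟨N0, hN0, hN0'⟩ := burnside hW (((om g w).domRestrict W).smulRight (⟨w, hw⟩ : W))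
  have hN0w : ∀ v ∈ W, N0 *ᵥ v = om g w v • w := fun v hv => hN0' ⟨v, hv⟩
  -- properties of the enveloping algebra
  have hstar : ∀ N ∈ Algebra.adjoin ℂ (LZ Z : Set (Matrix (Fin g ⊕ Fin g) (Fin g ⊕ Fin g) ℂ)),
      -(Om g ℂ * Nᵀ * Om g ℂ) ∈
        Algebra.adjoin ℂ (LZ Z : Set (Matrix (Fin g ⊕ Fin g) (Fin g ⊕ Fin g) ℂ)) := by
    intro N hN
    induction hN using Algebra.adjoin_induction with
    | mem X hX =>
      have h2 : Xᵀ * Om g ℂ = -(Om g ℂ * X) := eq_neg_of_add_eq_zero_left (h.sp hX)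
      rw [mul_assoc, h2, mul_neg, ← mul_assoc, Om_sq, neg_one_mul, neg_neg]
      exact Subalgebra.neg_mem _ (Algebra.subset_adjoin hX)
    | algebraMap c =>
      have h2 : -(Om g ℂ * (algebraMap ℂ (Matrix (Fin g ⊕ Fin g) (Fin g ⊕ Fin g) ℂ) c)ᵀ *
          Om g ℂ) = algebraMap ℂ _ c := by
        rw [Algebra.algebraMap_eq_smul_one, transpose_smul, transpose_one, Matrix.mul_smul,
          mul_one, Matrix.smul_mul, Om_sq, smul_neg, neg_neg]
      rw [h2]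
      exact Subalgebra.algebraMap_mem _ c
    | add X Y _ _ hX hY =>
      have h2 : -(Om g ℂ * (X + Y)ᵀ * Om g ℂ) = -(Om g ℂ * Xᵀ * Om g ℂ) +
          -(Om g ℂ * Yᵀ * Om g ℂ) := by
        rw [transpose_add]
        noncomm_ring
      rw [h2]
      exact Subalgebra.add_mem _ hX hY
    | mul X Y _ _ hX hY =>
      have h2 : -(Om g ℂ * (X * Y)ᵀ * Om g ℂ) = -(Om g ℂ * Yᵀ * Om g ℂ) *
          -(Om g ℂ * Xᵀ * Om g ℂ) := by
        have h3 : -(Om g ℂ * Yᵀ * Om g ℂ) * -(Om g ℂ * Xᵀ * Om g ℂ) =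
            Om g ℂ * Yᵀ * (Om g ℂ * Om g ℂ) * Xᵀ * Om g ℂ := by noncomm_ring
        rw [h3, Om_sq, transpose_mul]
        noncomm_ring
      rw [h2]
      exact Subalgebra.mul_mem _ hY hX
  have hcomm : ∀ R : Matrix (Fin g ⊕ Fin g) (Fin g ⊕ Fin g) ℚ, qm R * DZ Z = DZ Z * qm R →
      ∀ N ∈ Algebra.adjoin ℂ (LZ Z : Set (Matrix (Fin g ⊕ Fin g) (Fin g ⊕ Fin g) ℂ)),
        N * qm R = qm R * N := by
    intro R hR N hN
    induction hN using Algebra.adjoin_induction with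
    | mem X hX => exact commL_of hR X hX
    | algebraMap c =>
      exact Algebra.commutes c _
    | add X Y _ _ hX hY => rw [add_mul, mul_add, hX, hY]
    | mul X Y _ _ hX hY => rw [mul_assoc, hY, ← mul_assoc, hX, mul_assoc]
  have hst : ∀ N ∈ Algebra.adjoin ℂ (LZ Z : Set (Matrix (Fin g ⊕ Fin g) (Fin g ⊕ Fin g) ℂ)),
      ∀ u ∈ W, N *ᵥ u ∈ W := by
    intro N hN
    induction hN using Algebra.adjoin_induction with
    | mem X hX => exact hW.2.1 X hX
    | algebraMap c =>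
      intro u hu
      rw [Algebra.algebraMap_eq_smul_one, smul_mulVec, one_mulVec]
      exact W.smul_mem _ hu
    | add X Y _ _ hX hY =>
      intro u hu
      rw [add_mulVec]
      exact W.add_mem (hX u hu) (hY u hu)
    | mul X Y _ _ hX hY =>
      intro u hu
      rw [← mulVec_mulVec]
      exact hX _ (hY u hu)
  have hN0s := hstar N0 hN0
  -- the adjoint
  have hadj : ∀ v ∈ W, -(Om g ℂ * N0ᵀ * Om g ℂ) *ᵥ v = -(om g w v • w) := by
    intro v hv
    have h2 : -(Om g ℂ * N0ᵀ * Om g ℂ) *ᵥ v + om g w v • w ∈ W :=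
      W.add_mem (hst _ hN0s v hv) (W.smul_mem _ hw)
    have h3 := nd_left hW hW.2.1 hnz hinv _ h2 fun u hu => by
      rw [om_anti, map_add, ← om_adj, hN0w u hu, map_smul, map_smul, LinearMap.smul_apply,
        smul_eq_mul, smul_eq_mul, om_anti u w]
      ring
    exact eq_neg_of_add_eq_zero_left h3
  obtain ⟨N1, hN1⟩ : ∃ N1, N1 = N0 - -(Om g ℂ * N0ᵀ * Om g ℂ) := ⟨_, rfl⟩
  have hN1L : N1 ∈ LZ Z := by
    refine HL N1 ?_ fun R hR => ?_
    · have h2 : N1ᵀ = N0ᵀ + Om g ℂ * N0 * Om g ℂ := by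
        rw [hN1, sub_neg_eq_add, transpose_add, transpose_mul, transpose_mul, transpose_transpose,
          Om_transpose]
        noncomm_ring
      have h3 : Om g ℂ * N0 * Om g ℂ * Om g ℂ = -(Om g ℂ * N0) := by
        rw [mul_assoc, Om_sq, mul_neg_one]
      have h4 : Om g ℂ * (Om g ℂ * N0ᵀ * Om g ℂ) = -(N0ᵀ * Om g ℂ) := by
        rw [← mul_assoc, ← mul_assoc, Om_sq, neg_one_mul, neg_mul]
      rw [h2, add_mul, h3, hN1, sub_neg_eq_add, mul_add, h4]
      abel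
    · exact hcomm R hR N1 (by
        rw [hN1]
        exact Subalgebra.sub_mem _ hN0 hN0s)
  have hN1w : ∀ v ∈ W, N1 *ᵥ v = (2 * om g w v) • w := by
    intro v hv
    rw [hN1, sub_mulVec, hN0w v hv, hadj v hv, sub_neg_eq_add, ← two_smul ℂ, smul_smul]
  refine ⟨DZ Z, Or.inl rfl, (1 / 4 : ℂ) • ((1 + DZ Z) * N1 * (1 - DZ Z)), up_mem h hN1L,
    up_l h N1, up_r h N1, ?_⟩
  have hNv : ∀ v ∈ W, ((1 / 4 : ℂ) • ((1 + DZ Z) * N1 * (1 - DZ Z))) *ᵥ v =
      (2 * om g w v) • w := by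
    intro v hv
    have h2 : (1 - DZ Z) *ᵥ v = v - DZ Z *ᵥ v := by rw [sub_mulVec, one_mulVec]
    have h3 : (1 + DZ Z) *ᵥ w = (2 : ℂ) • w := by
      rw [add_mulVec, one_mulVec, mem_eig.1 hw1, one_smul, two_smul]
    have h4 : om g w (DZ Z *ᵥ v) = -om g w v := by
      have h5 := hinv _ DZ_mem w hw v hv
      rw [mem_eig.1 hw1, one_smul] at h5
      linear_combination h5
    rw [smul_mulVec, ← mulVec_mulVec, ← mulVec_mulVec, h2,
      hN1w _ (W.sub_mem hv (hW.2.1 _ DZ_mem v hv)), mulVec_smul, h3, map_sub, h4, smul_smul,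
      smul_smul]
    congr 1
    ring
  obtain ⟨v0, hv0, hv00⟩ : ∃ v ∈ W, om g w v ≠ 0 := by
    by_contra hcon
    push Not at hcon
    exact hw0 (nd_left hW hW.2.1 hnz hinv w hw hcon)
  have hspan : W.map (mulVecLin ((1 / 4 : ℂ) • ((1 + DZ Z) * N1 * (1 - DZ Z)))) =
      Submodule.span ℂ {w} := by
    apply le_antisymm
    · rintro _ ⟨v, hv, rfl⟩
      rw [mulVecLin_apply, hNv v hv]
      exact Submodule.smul_mem _ _ (Submodule.mem_span_singleton_self w)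
    · rw [Submodule.span_singleton_le_iff_mem]
      refine ⟨(2 * om g w v0)⁻¹ • v0, W.smul_mem _ hv0, ?_⟩
      rw [mulVecLin_apply, mulVec_smul, hNv v0 hv0, smul_smul,
        inv_mul_cancel₀ (mul_ne_zero two_ne_zero hv00), one_smul]
  rw [hspan, finrank_span_singleton hw0]

end

end Pool.Agent.R915
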