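import Mathlib
import Pool.Agent.R915.E6

/-!
# Abelian varieties of the first and second type
-/

set_option linter.unusedSectionVars false

namespace Pool.Agent.R915

open Matrix Module Pool.Agent.W437.HC Pool.Agent.W437.HD Pool.Agent.TH504.CB Pool.Agent.Y90
open Pool.Agent.W548.Odd hiding cv
open Pool.Agent.H204R3.CM (IsHodge)
open Pool.Agent.W437.HP (cK cK_mul cK_one)
open Polynomial

noncomputable section

section Z

variable {g : ℕ} {Z : Matrix (Fin g) (Fin g) ℂ} (h : PM Z)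

theorem RealMax.rf {a : Module.End ℚ (Fin g ⊕ Fin g → ℚ)} (k : RealMax (AVZ h) a) :
    RF Z (LinearMap.toMatrix' a) := by
  obtain ⟨h1, h2, h3⟩ := k
  let e : Matrix (Fin g ⊕ Fin g) (Fin g ⊕ Fin g) ℚ ≃ₐ[ℚ] Module.End ℚ (Fin g ⊕ Fin g → ℚ) :=
    Matrix.toLinAlgEquiv'
  have he : ∀ R, e R = Matrix.toLin' R := fun R => rfl
  have hea : e (LinearMap.toMatrix' a) = a := Matrix.toLin'_toMatrix' a
  have hmp : minpoly ℚ (LinearMap.toMatrix' a) = minpoly ℚ a := by
    have h4 := minpoly.algEquiv_eq e (LinearMap.toMatrix' a)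
    rw [hea] at h4
    exact h4.symm
  refine ⟨(hom_iff' h a).1 h1, fun z hz => ?_, fun R hR hRM => ?_⟩
  · rw [hmp] at hz
    exact Complex.conj_eq_iff_im.2 (h2 z hz)
  · have h4 := h3 (e R) ((hom_iff h R).2 hR) (by
      have h5 := congrArg e hRM
      rwa [map_mul, map_mul, hea] at h5)
    rw [Algebra.adjoin_singleton_eq_range_aeval] at h4 ⊢
    obtain ⟨p, hp⟩ := h4
    refine ⟨p, e.injective ?_⟩
    change aeval a p = e R at hp
    have h5 : aeval (e (LinearMap.toMatrix' a)) p = e (aeval (LinearMap.toMatrix' a) p) :=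
      Polynomial.aeval_algHom_apply e.toAlgHom _ _
    rw [hea] at h5
    change e (aeval (LinearMap.toMatrix' a) p) = e R
    rw [← h5, hp]

theorem RF.lc {M : Matrix (Fin g ⊕ Fin g) (Fin g ⊕ Fin g) ℚ} (k : RF Z M)
    (hs : IsSimpleAV Z) (hg : 0 < g) {U : Submodule ℂ (Fin g ⊕ Fin g → ℂ)}
    (hU : IrS (LZ Z) U) (hr : Rk1 Z U) : LC h U := by
  have h1 := k.sdu h hs hg hU
  have h2 : 2 ≤ finrank ℂ U := by
    obtain ⟨b, h0, hb⟩ := h1
    have htr := tr_dual h hU hU h0 hb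
    have hpq := pd_add_qd h hU.2.1
    unfold tr at htr
    have h1 : 0 < finrank ℂ U := by
      rw [Nat.pos_iff_ne_zero, ne_eq, Submodule.finrank_eq_zero]
      exact hU.1
    omega
  exact ⟨fun _ => hr, fun _ => ns_of_sdu h h1, Or.inl ⟨h1, h2⟩⟩

/-- The entries of a product with a rational matrix. -/
theorem lmul_right {m n p : Type*} [Fintype n] (l : ℂ →ₗ[ℚ] ℚ) (T : Matrix m n ℂ)
    (R : Matrix n p ℚ) : (T * R.map (fun x : ℚ => (x : ℂ))).map l = T.map l * R := by
  ext i k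
  rw [Matrix.map_apply, Matrix.mul_apply, Matrix.mul_apply, map_sum]
  refine Finset.sum_congr rfl fun x _ => ?_
  change l (T i x * ((R x k : ℚ) : ℂ)) = l (T i x) * R x k
  rw [mul_comm, ← Rat.smul_def, map_smul, smul_eq_mul, mul_comm]

theorem lmul_left {m n p : Type*} [Fintype n] (l : ℂ →ₗ[ℚ] ℚ) (R : Matrix m n ℚ)
    (T : Matrix n p ℂ) : (R.map (fun x : ℚ => (x : ℂ)) * T).map l = R * T.map l := by
  ext i k
  rw [Matrix.map_apply, Matrix.mul_apply, Matrix.mul_apply, map_sum]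
  refine Finset.sum_congr rfl fun x _ => ?_
  change l (((R i x : ℚ) : ℂ) * T x k) = R i x * l (T x k)
  rw [← Rat.smul_def, map_smul, smul_eq_mul]

/-- Descent for the Lie algebra. -/
theorem HL_of_rat
    (HQ : ∀ S : Matrix (Fin g ⊕ Fin g) (Fin g ⊕ Fin g) ℚ, Sᵀ * Om g ℚ + Om g ℚ * S = 0 →
      (∀ R : Matrix (Fin g ⊕ Fin g) (Fin g ⊕ Fin g) ℚ, qm R * DZ Z = DZ Z * qm R →
        S * R = R * S) → qm S ∈ LZ Z)
    (S : Matrix (Fin g ⊕ Fin g) (Fin g ⊕ Fin g) ℂ) (hS : Sᵀ * Om g ℂ + Om g ℂ * S = 0)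
    (hS' : ∀ R : Matrix (Fin g ⊕ Fin g) (Fin g ⊕ Fin g) ℚ, qm R * DZ Z = DZ Z * qm R →
        S * qm R = qm R * S) : S ∈ LZ Z := by
  let W : Submodule ℚ ℂ := Submodule.span ℚ (Set.range fun p : (Fin g ⊕ Fin g) × (Fin g ⊕ Fin g) =>
    S p.1 p.2)
  have : FiniteDimensional ℚ W := FiniteDimensional.span_of_finite ℚ (Set.finite_range _)
  obtain ⟨m, c, l, hl⟩ := exists_coord W
  have h1 : S = ∑ j, c j • qm (S.map (l j)) := by
    ext i k
    rw [Matrix.sum_apply]
    exact hl _ (Submodule.subset_span ⟨(i, k), rfl⟩)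
  rw [h1]
  refine Submodule.sum_mem _ fun j _ => Submodule.smul_mem _ _ (HQ _ ?_ fun R hR => ?_)
  · have h2 := congrArg (fun X : Matrix (Fin g ⊕ Fin g) (Fin g ⊕ Fin g) ℂ => X.map (l j)) hS
    beta_reduce at h2
    rw [Matrix.map_add _ (map_add (l j)), ← Om_map, lmul_right, lmul_left, Matrix.map_zero _
      (map_zero (l j)), transpose_map] at h2
    exact h2
  · have h2 := congrArg (fun X : Matrix (Fin g ⊕ Fin g) (Fin g ⊕ Fin g) ℂ => X.map (l j)) (hS' R hR)
    beta_reduce at h2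
    rw [lmul_right, lmul_left] at h2
    exact h2

/-- The rational Lie algebra. -/
def rLie (Z : Matrix (Fin g) (Fin g) ℂ) : Submodule ℚ (Module.End ℚ (Fin g ⊕ Fin g → ℚ)) where
  carrier := {a | qm (LinearMap.toMatrix' a) ∈ LZ Z}
  add_mem' := by
    intro a b ha hb
    change qm (LinearMap.toMatrix' (a + b)) ∈ LZ Z
    have h1 : qm (LinearMap.toMatrix' (a + b)) = qm (LinearMap.toMatrix' a) +
        qm (LinearMap.toMatrix' b) := by
      rw [map_add]
      ext i j
      simp [qm]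
    rw [h1]
    exact Submodule.add_mem _ ha hb
  zero_mem' := by
    change qm (LinearMap.toMatrix' (0 : Module.End ℚ (Fin g ⊕ Fin g → ℚ))) ∈ LZ Z
    rw [map_zero, qm_zero]
    exact Submodule.zero_mem _
  smul_mem' := by
    intro c a ha
    change qm (LinearMap.toMatrix' (c • a)) ∈ LZ Z
    have h1 : qm (LinearMap.toMatrix' (c • a)) = (c : ℂ) • qm (LinearMap.toMatrix' a) := by
      rw [map_smul]
      ext i j
      simp [qm]
    rw [h1]
    exact Submodule.smul_mem _ _ ha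

theorem mem_rLie {a : Module.End ℚ (Fin g ⊕ Fin g → ℚ)} :
    a ∈ rLie Z ↔ qm (LinearMap.toMatrix' a) ∈ LZ Z := Iff.rfl

theorem hodgeLie_rLie : HodgeLie (AVZ h) (rLie Z) := by
  refine ⟨fun a ha b hb => ?_, ?_⟩
  · rw [mem_rLie] at ha hb ⊢
    rw [map_sub, LinearMap.toMatrix'_mul, LinearMap.toMatrix'_mul, qm_sub, qm_mul, qm_mul]
    exact LZ_br ha hb
  · let W : Submodule ℚ ℂ := Submodule.span ℚ
      (Set.range fun p : (Fin g ⊕ Fin g) × (Fin g ⊕ Fin g) => Complex.I * DZ Z p.1 p.2)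
    have : FiniteDimensional ℚ W := FiniteDimensional.span_of_finite ℚ (Set.finite_range _)
    obtain ⟨m, c, l, hl⟩ := exists_coord W
    have hreal : ∀ i k, Complex.I * DZ Z i k = ((JR Z i k : ℝ) : ℂ) := by
      intro i k
      change Complex.I * ((-Complex.I) * ((JR Z i k : ℝ) : ℂ)) = _
      rw [← mul_assoc, mul_neg, Complex.I_mul_I, neg_neg, one_mul]
    refine ⟨m, fun j => (c j).re, fun j => Matrix.toLin' (Matrix.of fun i k =>
      l j (Complex.I * DZ Z i k)), fun j => ?_, fun v => ?_⟩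
    · rw [mem_rLie, LinearMap.toMatrix'_toLin']
      exact map_mem (Z := Z) (((Algebra.linearMap ℚ ℂ).comp (l j)).comp
        ((LinearMap.mulLeft ℂ Complex.I).restrictScalars ℚ))
    · have h1 : ∀ j, (AVZ h).per (Matrix.toLin' (Matrix.of fun i k =>
          l j (Complex.I * DZ Z i k)) v) = perC Z (qm (Matrix.of fun i k =>
          l j (Complex.I * DZ Z i k)) *ᵥ cv v) := by
        intro j
        change perOne Z _ = _
        rw [← perC_rat]
        congr 1
        funext i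
        rw [Matrix.toLin'_apply]
        simp [mulVec, dotProduct, cv, qm]
      have h2 : (AVZ h).per v = perC Z (cv v) := (perC_rat v).symm
      rw [Finset.sum_congr rfl fun j _ => by rw [h1 j, ← map_smul], ← map_sum, h2,
        ← perC_DZ h (cv v), ← map_smul]
      congr 1
      funext i
      rw [Pi.smul_apply, Finset.sum_apply, smul_eq_mul]
      have h3 : ∀ k, Complex.I * DZ Z i k = ∑ j, ((c j).re : ℂ) *
          ((l j (Complex.I * DZ Z i k) : ℚ) : ℂ) := by
        intro k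
        have h4 := hl _ (Submodule.subset_span ⟨(i, k), rfl⟩)
        beta_reduce at h4
        have h5 : Complex.I * DZ Z i k = (((Complex.I * DZ Z i k).re : ℝ) : ℂ) := by
          rw [hreal, Complex.ofReal_re]
        rw [h5]
        nth_rewrite 1 [h4]
        rw [Complex.re_sum]
        push_cast
        refine Finset.sum_congr rfl fun j _ => ?_
        rw [← h5]
        have h6 : (c j * ((l j (Complex.I * DZ Z i k) : ℚ) : ℂ)).re =
            (c j).re * ((l j (Complex.I * DZ Z i k) : ℚ) : ℝ) := by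
          have h7 : ((l j (Complex.I * DZ Z i k) : ℚ) : ℂ) =
              (((l j (Complex.I * DZ Z i k) : ℚ) : ℝ) : ℂ) := by push_cast; rfl
          rw [h7, Complex.re_mul_ofReal]
        rw [h6]
        push_cast
        rfl
      simp only [Pi.smul_apply, smul_eq_mul, mulVec, dotProduct]
      rw [Finset.mul_sum, Finset.sum_congr rfl fun k _ => by rw [← mul_assoc, h3 k,
        Finset.sum_mul], Finset.sum_comm]
      refine Finset.sum_congr rfl fun j _ => ?_
      rw [Finset.mul_sum]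
      refine Finset.sum_congr rfl fun k _ => ?_
      rw [mul_assoc]
      rfl

/-- The matrix of a form in two variables. -/
theorem two_form (E : (Fin g ⊕ Fin g → ℚ) [⋀^Fin 2]→ₗ[ℚ] ℚ) :
    ∃ A : Matrix (Fin g ⊕ Fin g) (Fin g ⊕ Fin g) ℚ, (∀ u v, E ![u, v] = u ⬝ᵥ (A *ᵥ v)) ∧
      ∀ i j, A i j = CF E.toMultilinearMap ![i, j] := by
  refine ⟨Matrix.of fun i j => CF E.toMultilinearMap ![i, j], fun u v => ?_, fun i j => rfl⟩
  have h1 := CF_eval E.toMultilinearMap ![u, v]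
  change E ![u, v] = _ at h1
  rw [h1]
  unfold evalF
  rw [← (finTwoArrowEquiv (Fin g ⊕ Fin g)).symm.sum_comp, Fintype.sum_prod_type]
  unfold dotProduct mulVec dotProduct
  refine Finset.sum_congr rfl fun i _ => ?_
  rw [Finset.mul_sum]
  refine Finset.sum_congr rfl fun j _ => ?_
  rw [Fin.prod_univ_two]
  simp only [finTwoArrowEquiv_symm_apply, cons_val_zero, cons_val_one, of_apply]
  ring

include h in
theorem two_form_hodge {E : (Fin g ⊕ Fin g → ℚ) [⋀^Fin 2]→ₗ[ℚ] ℚ}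
    (hE : IsHodge (perOne Z) E) {A : Matrix (Fin g ⊕ Fin g) (Fin g ⊕ Fin g) ℚ}
    (hA : ∀ i j, A i j = CF E.toMultilinearMap ![i, j]) :
    (DZ Z)ᵀ * qm A + qm A * DZ Z = 0 := by
  have h1 : act (DZ Z) (cst ℂ (CF E.toMultilinearMap)) = 0 := h.cht.isH hE
  ext i j
  have h2 := congrFun h1 ![i, j]
  unfold act at h2
  rw [Fin.sum_univ_two] at h2
  have h3 : ∀ l, Function.update ![i, j] 0 l = ![l, j] := by
    intro l
    funext k
    fin_cases k <;> simp
  have h4 : ∀ l, Function.update ![i, j] 1 l = ![i, l] := by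
    intro l
    funext k
    fin_cases k <;> simp
  simp only [h3, h4, cst_apply, ← hA, cons_val_zero, cons_val_one] at h2
  rw [Matrix.add_apply, Matrix.mul_apply, Matrix.mul_apply, Matrix.zero_apply]
  rw [Pi.zero_apply] at h2
  rw [← h2]
  congr 1
  refine Finset.sum_congr rfl fun l _ => ?_
  change ((A i l : ℚ) : ℂ) * DZ Z l j = _
  ring

theorem FullHodge.lc (hs : IsSimple (AVZ h)) (hg : 0 < g) (k : FullHodge (AVZ h))
    {U : Submodule ℂ (Fin g ⊕ Fin g → ℂ)} (hU : IrS (LZ Z) U) : LC h U := by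
  obtain ⟨⟨a, ha⟩, kk⟩ := k
  have k := ha.rf h
  refine k.lc h (simple_AVZ h hs) hg hU (rk1_full h (simple_AVZ h hs) hg k
    (HL_of_rat fun S hS hS' => ?_) hU)
  have key := kk (rLie Z) (hodgeLie_rLie h) (Matrix.toLin' S) ?_ ?_
  · have h1 : qm (LinearMap.toMatrix' (Matrix.toLin' S)) ∈ LZ Z := key
    rwa [LinearMap.toMatrix'_toLin'] at h1
  · intro f hf
    have h1 := hS' _ ((hom_iff' h f).1 hf)
    have h2 := congrArg Matrix.toLin' h1
    rw [Matrix.toLin'_mul, Matrix.toLin'_mul, Matrix.toLin'_toMatrix'] at h2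
    exact h2
  · intro E hE u v
    obtain ⟨A, hA1, hA2⟩ := two_form (g := g) E
    have h1 := two_form_hodge h hE hA2
    have hsp := h.sp (DZ_mem (Z := Z))
    have hOQ : Om g ℚ * Om g ℚ = -1 := Om_sq ℚ
    -- the endomorphism attached to the form
    have h2 : qm (Om g ℚ * A) * DZ Z = DZ Z * qm (Om g ℚ * A) := by
      have h3 : (DZ Z)ᵀ = Om g ℂ * DZ Z * Om g ℂ := by
        have h4 : (DZ Z)ᵀ * Om g ℂ = -(Om g ℂ * DZ Z) := eq_neg_of_add_eq_zero_left hsp
        have h5 : (DZ Z)ᵀ * Om g ℂ * Om g ℂ = -(Om g ℂ * DZ Z) * Om g ℂ := by rw [h4]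
        rw [mul_assoc, Om_sq, mul_neg_one, neg_mul] at h5
        exact neg_injective h5
      have h6 : qm (Om g ℚ * A) = Om g ℂ * qm A := by
        rw [qm_mul]
        congr 1
        exact Om_map ℂ
      have h7 : qm A * DZ Z = -(Om g ℂ * DZ Z * Om g ℂ * qm A) := by
        rw [h3] at h1
        exact eq_neg_of_add_eq_zero_right h1
      rw [h6, mul_assoc, h7]
      have h8 : Om g ℂ * -(Om g ℂ * DZ Z * Om g ℂ * qm A) =
          -(Om g ℂ * Om g ℂ) * DZ Z * Om g ℂ * qm A := by noncomm_ring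
      rw [h8, Om_sq, neg_neg, one_mul, mul_assoc]
    have h3 := hS' _ h2
    have h4 : Sᵀ = Om g ℚ * S * Om g ℚ := by
      have h4 : Sᵀ * Om g ℚ = -(Om g ℚ * S) := eq_neg_of_add_eq_zero_left hS
      have h5 : Sᵀ * Om g ℚ * Om g ℚ = -(Om g ℚ * S) * Om g ℚ := by rw [h4]
      rw [mul_assoc, hOQ, mul_neg_one, neg_mul] at h5
      exact neg_injective h5
    have h5 : Sᵀ * A + A * S = 0 := by
      have h6 : Om g ℚ * S * Om g ℚ * A = Om g ℚ * (S * (Om g ℚ * A)) := by noncomm_ring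
      have h7 : Om g ℚ * (Om g ℚ * A * S) = Om g ℚ * Om g ℚ * (A * S) := by noncomm_ring
      rw [h4, h6, h3, h7, hOQ, neg_one_mul, neg_add_cancel]
    have h6 : ∀ w, (Matrix.toLin' S : Module.End ℚ (Fin g ⊕ Fin g → ℚ)) w = S *ᵥ w :=
      fun w => Matrix.toLin'_apply S w
    change E ![Matrix.toLin' S u, v] + E ![u, Matrix.toLin' S v] = 0
    rw [hA1, hA1, h6, h6]
    have h7 : (S *ᵥ u) ⬝ᵥ (A *ᵥ v) = u ⬝ᵥ ((Sᵀ * A) *ᵥ v) := by
      rw [← mulVec_mulVec, dotProduct_mulVec u, vecMul_transpose]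
    rw [h7, mulVec_mulVec, ← dotProduct_add, ← add_mulVec, h5, zero_mulVec, dotProduct_zero]

end Z

end

end Pool.Agent.R915
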