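import Mathlib
import Pool.Agent.R915.D5
import Pool.Agent.R915.T2

/-!
# Imaginary quadratic multiplication with multiplicities at most three
-/

set_option linter.unusedSectionVars false

namespace Pool.Agent.R915

open Matrix Module Pool.Agent.W437.HC Pool.Agent.W437.HD Pool.Agent.TH504.CB Pool.Agent.Y90
open Pool.Agent.W548.Odd hiding cv
open Pool.Agent.H204R3.CM (IsHodge)
open Pool.Agent.W437.HP (cK cK_mul cK_one)

noncomputable section

section qf

variable {g : ℕ} {Z : Matrix (Fin g) (Fin g) ℂ} (h : PM Z)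
  {φ : Matrix (Fin g ⊕ Fin g) (Fin g ⊕ Fin g) ℚ} {d : ℚ} (k : QF Z φ d)

include h k

/-- The traces vanish if the multiplicities are equal. -/
theorem QF.trace_zero {α : ℂ} (hα : α * α = -(d : ℂ)) {U : Submodule ℂ (Fin g ⊕ Fin g → ℂ)}
    (hU : IrS (LZ Z) U) (hm : ∀ v, v ∈ U ↔ qm φ *ᵥ v = α • v) (hpq : pd Z U = qd Z U) :
    ∃ e : Matrix (Fin g ⊕ Fin g) (Fin g ⊕ Fin g) ℂ, (∀ v, e *ᵥ v ∈ U) ∧
      (∀ v ∈ U, e *ᵥ v = v) ∧ ∀ X ∈ LZ Z, trace (X * e) = 0 := by
  have h0 := k.root_ne hα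
  obtain ⟨e, he⟩ : ∃ e : Matrix (Fin g ⊕ Fin g) (Fin g ⊕ Fin g) ℂ,
      e = (2 * α)⁻¹ • (qm φ + α • 1) := ⟨_, rfl⟩
  have hev : ∀ v, e *ᵥ v = pj φ α v := by
    intro v
    rw [he, smul_mulVec, add_mulVec, smul_mulVec, one_mulVec, pj_apply]
  have hec : ∀ X ∈ LZ Z, X * e = e * X := by
    intro X hX
    rw [he, Matrix.mul_smul, Matrix.smul_mul, Matrix.mul_add, Matrix.add_mul, k.commL X hX,
      Matrix.mul_smul, Matrix.smul_mul, Matrix.mul_one, Matrix.one_mul]
  have heU : ∀ v, e *ᵥ v ∈ U := by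
    intro v
    rw [hev, hm]
    exact k.pj_eig hα v
  have heU' : ∀ v ∈ U, e *ᵥ v = v := by
    intro v hv
    rw [hev]
    exact pj_of_eig k h0 ((hm v).1 hv)
  have htD : trace (DZ Z) = 0 := by
    have h1 := trace_DP h (U := ⊤) stab_top (e := 1) (fun _ => trivial)
      (fun v _ => one_mulVec v) (by rw [Matrix.mul_one, Matrix.one_mul])
    rw [Matrix.mul_one] at h1
    rw [h1]
    have h2 : cjS cc (⊤ : Submodule ℂ (Fin g ⊕ Fin g → ℂ)) = ⊤ := by
      rw [eq_top_iff]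
      intro v _
      rw [mem_cjS]
      trivial
    have h3 := pd_cc (Z := Z) (⊤ : Submodule ℂ (Fin g ⊕ Fin g → ℂ))
    rw [h2] at h3
    rw [h3, sub_self]
  have htP : trace (DZ Z * qm φ) = 0 := by
    have h1 := trace_DP h hU.2.1 heU heU' (hec _ DZ_mem)
    rw [hpq, sub_self, he, Matrix.mul_smul, trace_smul, Matrix.mul_add, trace_add,
      Matrix.mul_smul, Matrix.mul_one, trace_smul, htD, smul_zero, add_zero] at h1
    exact (smul_eq_zero.1 h1).resolve_left (inv_ne_zero (mul_ne_zero two_ne_zero h0))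
  have htS : ∀ σ, trace (DS Z σ * e) = 0 := by
    intro σ
    have h1 : trace (DS Z σ) = 0 := by
      have h2 : trace (DS Z σ) = σ (trace (DZ Z)) := by
        unfold trace
        rw [map_sum]
        rfl
      rw [h2, htD, map_zero]
    have h2 : trace (DS Z σ * qm φ) = 0 := by
      have h3 : DS Z σ * qm φ = (DZ Z * qm φ).map σ := by
        rw [Matrix.map_mul]
        have h4 : (qm φ).map σ = qm φ := cK_aut σ φ
        rw [h4]
        rfl
      have h4 : trace ((DZ Z * qm φ).map σ) = σ (trace (DZ Z * qm φ)) := by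
        unfold trace
        rw [map_sum]
        rfl
      rw [h3, h4, htP, map_zero]
    rw [he, Matrix.mul_smul, trace_smul, Matrix.mul_add, trace_add, Matrix.mul_smul,
      Matrix.mul_one, trace_smul, h1, h2, smul_zero, add_zero, smul_zero]
  exact ⟨e, heU, heU', trace_LZ h hec htS⟩

/-- Rank one elements for sixfolds of Weil type. -/
theorem QF.rk33 {α : ℂ} (hα : α * α = -(d : ℂ)) {U : Submodule ℂ (Fin g ⊕ Fin g → ℂ)}
    (hU : IrS (LZ Z) U) (hm : ∀ v, v ∈ U ↔ qm φ *ᵥ v = α • v) (hp : pd Z U = 3)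
    (hq : qd Z U = 3) : Rk1 Z U := by
  obtain ⟨e, he1, he2, he3⟩ := k.trace_zero h hα hU hm (by rw [hp, hq])
  exact rk1_33 h hU hp hq e he1 he2 he3 (fun b _ hb => k.no_bil h hα hm hU.1 b hb)

/-- The local conditions for simple abelian varieties with an imaginary quadratic endomorphism
field and multiplicities at most three. -/
theorem QF.lc3
    (h3 : ∀ U : Submodule ℂ (Fin g ⊕ Fin g → ℂ), IrS (LZ Z) U → pd Z U ≤ 3 ∧ qd Z U ≤ 3)
    (h6 : g = 6 → HasTrivialDisc (AVZ h) d (Matrix.toLin' φ))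
    {U : Submodule ℂ (Fin g ⊕ Fin g → ℂ)} (hU : IrS (LZ Z) U) : LC h U := by
  obtain ⟨α, hα, hm⟩ := k.exists_root h hU
  have hdim := k.dim h hα hm hU.1
  have hpq := pd_add_qd h hU.2.1
  obtain ⟨hp3, hq3⟩ := h3 U hU
  have hU0 : 0 < finrank ℂ U := by
    rw [Nat.pos_iff_ne_zero, ne_eq, Submodule.finrank_eq_zero]
    exact hU.1
  by_cases h2 : 2 ≤ finrank ℂ U
  · have hns := k.nonscalar h hα hm hU h2
    have hp := pd_pos h hU.2.1 (hns (RingEquiv.refl ℂ))
    have hq := qd_pos h hU.2.1 (hns (RingEquiv.refl ℂ))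
    refine ⟨fun _ => ?_, fun _ => hns, Or.inr ⟨φ, α, d, k.kw h hα hm hU.1, ?_, h6⟩⟩
    · by_cases h33 : pd Z U = 3 ∧ qd Z U = 3
      · exact k.rk33 h hα hU hm h33.1 h33.2
      by_cases h22 : pd Z U = 2 ∧ qd Z U = 2
      · exact k.rk22 h hα hU hm h22.1 h22.2
      refine coprime_rk1 h hU hp hq ?_
      have : (pd Z U = 1) ∨ (qd Z U = 1) ∨ (pd Z U = 2 ∧ qd Z U = 3) ∨
        (pd Z U = 3 ∧ qd Z U = 2) := by omega
      rcases this with h6 | h6 | ⟨h6, h7⟩ | ⟨h6, h7⟩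
      · rw [h6]
        exact Nat.coprime_one_left _
      · rw [h6]
        exact Nat.coprime_one_right _
      · rw [h6, h7]
        decide
      · rw [h6, h7]
        decide
    · unfold tr
      omega
  · refine ⟨fun h4 => absurd h4 h2, fun h4 => absurd h4 h2,
      Or.inr ⟨φ, α, d, k.kw h hα hm hU.1, ?_, h6⟩⟩
    unfold tr
    omega

end qf

end

end Pool.Agent.R915
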