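import Mathlib
import Pool.Agent.R915.E6
import Pool.Agent.R915.D6

/-!
# Abelian varieties of the types I and II of relative dimension at most three
-/

set_option linter.unusedSectionVars false

namespace Pool.Agent.R915

open Matrix Module Pool.Agent.W437.HC Pool.Agent.W437.HD Pool.Agent.TH504.CB Pool.Agent.Y90
open Pool.Agent.W548.Odd hiding cv
open Pool.Agent.H204R3.CM (IsHodge)
open Pool.Agent.W437.HP (cK cK_mul cK_one)
open Polynomial

open scoped ComplexOrder

noncomputable section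

variable {g : ℕ} {Z : Matrix (Fin g) (Fin g) ℂ}

/-- Elements of rank one for simple abelian varieties of the types I and II of relative dimension
at most three. -/
theorem RF.rk1 (h : PM Z) (hs : IsSimpleAV Z) (hg : 0 < g)
    {M : Matrix (Fin g ⊕ Fin g) (Fin g ⊕ Fin g) ℚ} (k : RF Z M)
    (hd : 2 * g ≤ 6 * (minpoly ℚ M).natDegree)
    {U : Submodule ℂ (Fin g ⊕ Fin g → ℂ)} (hU : IrS (LZ Z) U) : Rk1 Z U := by
  obtain ⟨θ, hθ, hdim, hproj⟩ := VE_main h hs hg k.comm
  have hdim6 : finrank ℂ (VE M θ) ≤ 6 := by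
    have h1 : 0 < (minpoly ℚ M).natDegree := by
      by_contra h2
      have h3 : (minpoly ℚ M).natDegree = 0 := by omega
      rw [h3] at hd
      omega
    by_contra h2
    have h3 : (minpoly ℚ M).natDegree * 7 ≤ (minpoly ℚ M).natDegree * finrank ℂ (VE M θ) :=
      Nat.mul_le_mul_left _ (by omega)
    omega
  obtain ⟨σ, T, hT, hi, hTU⟩ := hproj U hU
  have hU' := irS_map hU hT hi
  have hW := k.irr h hs (θ := σ θ) (fun h1 => hU'.1 (by rwa [h1, le_bot_iff] at hTU))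
  have hreal : cc (σ θ) = σ θ := k.real _ (root_conj hθ σ)
  rcases hW.2.2 _ hTU hU'.2.1 with h1 | h1
  · exact absurd h1 hU'.1
  refine rk1_of_map hU hT hi ?_
  rw [h1]
  have hV6 : finrank ℂ (VE M (σ θ)) ≤ 6 := by
    rw [← VE_cj, finrank_cjS]
    exact hdim6
  have hsd := k.sdu h hs hg hW
  have h0 : ∃ u ∈ VE M (σ θ), ∃ v ∈ VE M (σ θ), om g u v ≠ 0 := by
    obtain ⟨w, hw, hw0⟩ := Submodule.exists_mem_ne_zero_of_ne_bot hW.1
    refine ⟨cnj w, ?_, DZ Z *ᵥ w, hW.2.1 _ DZ_mem w hw, fun h0 => ?_⟩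
    · have h5 : cjS cc (VE M (σ θ)) = VE M (σ θ) := by
        rw [VE_cj, hreal]
      rw [← h5]
      change (fun i => cc.symm (cnj w i)) ∈ VE M (σ θ)
      have h6 : (fun i => cc.symm (cnj w i)) = w := cnj_cnj w
      rwa [h6]
    · have h5 := h.herm_pos hw0
      rw [h0, mul_zero] at h5
      exact lt_irrefl _ h5
  have hb : ∀ X ∈ LZ Z, ∀ u ∈ VE M (σ θ), ∀ v ∈ VE M (σ θ),
      om g (X *ᵥ u) v + om g u (X *ᵥ v) = 0 := fun X hX u _ v _ => h.om_sp hX u v
  have hal : ∀ u ∈ VE M (σ θ), ∀ v ∈ VE M (σ θ), om g u v = -om g v u :=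
    fun u _ v _ => om_anti u v
  have htr := tr_dual h hW hW h0 hb
  have hpq := pd_add_qd h hW.2.1
  unfold tr at htr
  by_cases h3 : finrank ℂ (VE M (σ θ)) ≤ 3
  · exact (rk1_two h hW hsd h3).1
  by_cases h4 : finrank ℂ (VE M (σ θ)) = 4
  · exact rk1_sp h hW h4 (om g) h0 hb hal
  · exact rk1_sp6 h hW (by omega) (om g) h0 hb hal

end

end Pool.Agent.R915
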