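import Mathlib
import Pool.Agent.R915.QE3

/-!
# Finite products of abelian varieties
-/

set_option linter.unusedSectionVars false

namespace Pool.Agent.R915

open Matrix Module Pool.Agent.W437.HC Pool.Agent.W437.HD Pool.Agent.TH504.CB Pool.Agent.Y90
open Pool.Agent.W548.Odd hiding cv
open Pool.Agent.H204R3.CM (IsHodge)
open Pool.Agent.H204R3.SP (Kills)
open Pool.Agent.W437.HP (cK cK_mul cK_one)

noncomputable section

section chart

variable {Q : Type} [Fintype Q] [DecidableEq Q] {a : Q → ℕ}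
  (Z : ∀ q, Matrix (Fin (a q)) (Fin (a q)) ℂ)

/-- The index set of the coordinates of the product. -/
abbrev BQ (a : Q → ℕ) : Type := Σ q, (Fin (a q) ⊕ Fin (a q))

/-- The complex structure of the product. -/
def JQ : Matrix (BQ a) (BQ a) ℝ := blockDiagonal' fun q => JR (Z q)

/-- The coordinates in one factor. -/
def cQ {R : Type} (q : Q) (w : BQ a → R) : Fin (a q) ⊕ Fin (a q) → R := fun i => w ⟨q, i⟩

theorem cQ_apply {R : Type} (q : Q) (w : BQ a → R) (i : Fin (a q) ⊕ Fin (a q)) :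
    cQ q w i = w ⟨q, i⟩ := rfl

/-- The period map of the product. -/
def perQ : (BQ a → ℚ) →+ (∀ q, Fin (a q) → ℂ) where
  toFun w := fun q => perOne (Z q) (cQ q w)
  map_zero' := by
    funext q
    have h1 : cQ q (0 : BQ a → ℚ) = 0 := rfl
    rw [h1, map_zero]
    rfl
  map_add' v w := by
    funext q
    have h1 : cQ q (v + w) = cQ q v + cQ q w := rfl
    rw [h1, map_add]
    rfl

theorem perQ_apply (w : BQ a → ℚ) (q : Q) : perQ Z w q = perOne (Z q) (cQ q w) := rfl

theorem bd_mulVec {R : Type} [CommRing R] (M : ∀ q, Matrix (Fin (a q) ⊕ Fin (a q)) (Fin (a q) ⊕ Fin (a q)) R)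
    (w : BQ a → R) (q : Q) : cQ q (blockDiagonal' M *ᵥ w) = M q *ᵥ cQ q w := by
  funext i
  rw [cQ_apply, mulVec, dotProduct, Fintype.sum_sigma, Finset.sum_eq_single q]
  · refine Finset.sum_congr rfl fun j _ => ?_
    rw [blockDiagonal'_apply_eq]
    rfl
  · intro q' _ hq'
    refine Finset.sum_eq_zero fun j _ => ?_
    rw [blockDiagonal'_apply_ne _ _ _ (Ne.symm hq'), zero_mul]
  · intro h
    exact absurd (Finset.mem_univ q) h

variable {Z} (h : ∀ q, PM (Z q))
include h

theorem chtQ : Cht (perQ Z) (JQ Z) := by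
  have hex := fun q => (h q).cht.ex
  choose P I hP1 hP2 hI1 hI2 using hex
  refine ⟨?_, ?_⟩
  · unfold JQ
    rw [← blockDiagonal'_mul]
    have h1 : (fun q => JR (Z q) * JR (Z q)) = fun q => -1 := funext fun q => (h q).cht.sq
    rw [h1]
    have h2 : (fun q => (-1 : Matrix (Fin (a q) ⊕ Fin (a q)) (Fin (a q) ⊕ Fin (a q)) ℝ)) =
        -(1 : ∀ q, Matrix (Fin (a q) ⊕ Fin (a q)) (Fin (a q) ⊕ Fin (a q)) ℝ) := rfl
    rw [h2, blockDiagonal'_neg, blockDiagonal'_one]
  · refine ⟨LinearMap.pi fun q => (P q).comp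
      (LinearMap.funLeft ℝ ℝ fun i : Fin (a q) ⊕ Fin (a q) => (⟨q, i⟩ : BQ a)),
      { toFun := fun t => fun x => I x.1 (t x.1) x.2
        map_add' := fun s t => by
          funext x
          rw [Pi.add_apply, map_add]
          rfl
        map_smul' := fun c t => by
          funext x
          rw [Pi.smul_apply, map_smul]
          rfl }, fun w => ?_, fun x => ?_, fun x => ?_, fun t => ?_⟩
    · funext q
      exact hP1 q (cQ q w)
    · funext q
      change P q (cQ q (JQ Z *ᵥ x)) = Complex.I • P q (cQ q x)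
      unfold JQ
      rw [bd_mulVec, hP2]
    · funext y
      change I y.1 (P y.1 (cQ y.1 x)) y.2 = x y
      rw [hI1]
      rfl
    · funext q
      change P q (I q (t q)) = t q
      rw [hI2]

theorem polQ : ∃ E : (BQ a → ℚ) → (BQ a → ℚ) → ℚ, IsPolarization (perQ Z) E := by
  have hex := fun q => (h q).polar
  choose Ψ h1 h2 h3 h4 using hex
  refine ⟨fun v w => ∑ q, cQ q v ⬝ᵥ ((-Om (a q) ℚ) *ᵥ cQ q w),
    fun u u' => ∑ q, Ψ q (u q) (u' q), fun u' => ⟨fun x y => ?_, fun c x => ?_⟩, fun u u' => ?_,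
    fun u hu => ?_, fun v w => ?_⟩
  · rw [← Finset.sum_add_distrib]
    exact Finset.sum_congr rfl fun q _ => (h1 q (u' q)).map_add (x q) (y q)
  · rw [smul_eq_mul, Finset.mul_sum]
    exact Finset.sum_congr rfl fun q _ => (h1 q (u' q)).map_smul c (x q)
  · rw [map_sum]
    exact Finset.sum_congr rfl fun q _ => h2 q (u q) (u' q)
  · obtain ⟨q, hq⟩ : ∃ q, u q ≠ 0 := by
      by_contra hcon
      push Not at hcon
      exact hu (funext hcon)
    rw [Complex.re_sum]
    refine Finset.sum_pos' (fun q' _ => ?_) ⟨q, Finset.mem_univ q, h3 q _ hq⟩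
    by_cases h0 : u q' = 0
    · have h5 := (h1 q' (u q')).map_smul 0 (u q')
      rw [zero_smul, zero_smul] at h5
      rw [h0] at h5 ⊢
      rw [h5]
      exact le_refl _
    · exact (h3 q' _ h0).le
  · rw [Complex.im_sum]
    push_cast
    exact Finset.sum_congr rfl fun q _ => h4 q (cQ q v) (cQ q w)

/-- The product as an abelian variety. -/
abbrev AVQ : AV := (chtQ h).av (polQ h)

/-- The inclusion of a factor. -/
def inF (a : Q → ℕ) (q : Q) : (Fin (a q) ⊕ Fin (a q) → ℚ) →ₗ[ℚ] (BQ a → ℚ) where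
  toFun w := fun x => if hx : x.1 = q then w (hx ▸ x.2) else 0
  map_add' v w := by
    funext x
    by_cases hx : x.1 = q
    · simp only [dif_pos hx, Pi.add_apply]
    · simp only [dif_neg hx, Pi.add_apply, add_zero]
  map_smul' c v := by
    funext x
    by_cases hx : x.1 = q
    · simp only [dif_pos hx, Pi.smul_apply, RingHom.id_apply]
    · simp only [dif_neg hx, Pi.smul_apply, smul_zero]

omit h in
theorem inF_same (q : Q) (w : Fin (a q) ⊕ Fin (a q) → ℚ) : cQ q (inF a q w) = w := by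
  funext i
  change (if hx : (⟨q, i⟩ : BQ a).1 = q then w (hx ▸ (⟨q, i⟩ : BQ a).2) else 0) = w i
  rw [dif_pos rfl]

omit h in
theorem inF_ne {q q' : Q} (hq : q' ≠ q) (w : Fin (a q) ⊕ Fin (a q) → ℚ) :
    cQ q' (inF a q w) = 0 := by
  funext i
  change (if hx : (⟨q', i⟩ : BQ a).1 = q then w (hx ▸ (⟨q', i⟩ : BQ a).2) else 0) = 0
  rw [dif_neg hq]

theorem inF_hom (q : Q) : IsHom (AVZ (h q)) (AVQ h) (inF a q) := by
  refine ⟨LinearMap.single ℂ (fun q => Fin (a q) → ℂ) q, fun v => ?_⟩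
  change Pi.single q (perOne (Z q) v) = perQ Z (inF a q v)
  funext q'
  rw [perQ_apply]
  by_cases hq : q' = q
  · subst hq
    rw [Pi.single_eq_same, inF_same]
  · rw [Pi.single_eq_of_ne hq, inF_ne hq, map_zero]

omit h in
theorem inF_bij : Function.Bijective fun w : (∀ q, Fin (a q) ⊕ Fin (a q) → ℚ) =>
    ∑ q, inF a q (w q) := by
  have key : ∀ (w : ∀ q, Fin (a q) ⊕ Fin (a q) → ℚ) (q : Q) (i : Fin (a q) ⊕ Fin (a q)),
      (∑ q, inF a q (w q)) ⟨q, i⟩ = w q i := by
    intro w q i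
    rw [Finset.sum_apply, Finset.sum_eq_single q]
    · exact congrFun (inF_same q (w q)) i
    · intro q' _ hq'
      exact congrFun (inF_ne (Ne.symm hq') (w q')) i
    · intro h
      exact absurd (Finset.mem_univ q) h
  constructor
  · intro v w hvw
    funext q i
    rw [← key v q i, ← key w q i]
    exact congrFun hvw _
  · intro x
    refine ⟨fun q i => x ⟨q, i⟩, ?_⟩
    funext y
    exact key _ y.1 y.2

/-- The complex structure with eigenvalues `± 1`. -/
theorem DJ_JQ (σ : ℂ ≃+* ℂ) : (DJ (JQ Z)).map σ = blockDiagonal' fun q => DS (Z q) σ := by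
  ext ⟨q, i⟩ ⟨q', j⟩
  by_cases hq : q = q'
  · subst hq
    rw [blockDiagonal'_apply_eq, Matrix.map_apply]
    unfold DJ JQ DS
    rw [Matrix.smul_apply, Matrix.map_apply, blockDiagonal'_apply_eq, Matrix.map_apply]
    rfl
  · rw [blockDiagonal'_apply_ne _ _ _ hq, Matrix.map_apply]
    unfold DJ JQ
    rw [Matrix.smul_apply, Matrix.map_apply, blockDiagonal'_apply_ne _ _ _ hq, Complex.ofReal_zero,
      smul_zero, map_zero]

end chart

section theta

variable {Q : Type} [Fintype Q] [DecidableEq Q] {a : Q → ℕ}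
  {Z : ∀ q, Matrix (Fin (a q)) (Fin (a q)) ℂ} (h : ∀ q, PM (Z q))
  (μ : ∀ q, (Fin (a q) ⊕ Fin (a q) → ℂ) →ₗ[ℂ] ℂ)

/-- The product of linear forms. -/
def ThQ : MultilinearMap ℂ (fun _ : Q => BQ a → ℂ) ℂ :=
  (MultilinearMap.mkPiAlgebra ℂ Q ℂ).compLinearMap fun q => (μ q).comp
    (LinearMap.funLeft ℂ ℂ fun i : Fin (a q) ⊕ Fin (a q) => (⟨q, i⟩ : BQ a))

theorem ThQ_apply (v : Q → BQ a → ℂ) : ThQ μ v = ∏ q, μ q (cQ q (v q)) := rfl

/-- The span of the conjugates of the complex structure. -/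
def LQ (Z : ∀ q, Matrix (Fin (a q)) (Fin (a q)) ℂ) : Submodule ℂ (Matrix (BQ a) (BQ a) ℂ) :=
  Submodule.span ℂ (Set.range fun σ : ℂ ≃+* ℂ => (DJ (JQ Z)).map σ)

theorem gal_LQ : Gal (LQ Z) := by
  intro τ X hX
  unfold LQ at hX
  induction hX using Submodule.span_induction with
  | mem X hX =>
    obtain ⟨σ, rfl⟩ := hX
    have h1 : ((DJ (JQ Z)).map σ).map τ = (DJ (JQ Z)).map (σ.trans τ) := by
      ext i j
      simp
    rw [h1]
    exact Submodule.subset_span ⟨_, rfl⟩
  | zero =>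
    rw [Matrix.map_zero _ (map_zero τ)]
    exact Submodule.zero_mem _
  | add X Y _ _ hX hY =>
    rw [Matrix.map_add _ (map_add τ)]
    exact Submodule.add_mem _ hX hY
  | smul c X _ hX =>
    have h1 : (c • X).map τ = τ c • X.map τ := by
      ext i j
      simp
    rw [h1]
    exact Submodule.smul_mem _ _ hX

theorem DJ_memQ : DJ (JQ Z) ∈ LQ Z := by
  have h1 : (DJ (JQ Z)).map (RingEquiv.refl ℂ) = DJ (JQ Z) := by
    ext i j
    rfl
  rw [← h1]
  exact Submodule.subset_span ⟨RingEquiv.refl ℂ, rfl⟩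

variable {μ} {m : Q → (ℂ ≃+* ℂ) → ℤ}

include h in
theorem ThQ_kill (hμ : ∀ q σ x, μ q (DS (Z q) σ *ᵥ x) = (m q σ : ℂ) * μ q x)
    (hbal : ∀ σ, ∑ q, m q σ = 0) : ∀ X ∈ LQ Z, act X (CF (ThQ μ)) = 0 := by
  have h1 : LQ Z ≤ LinearMap.ker (actL (CF (ThQ μ))) := by
    refine Submodule.span_le.2 ?_
    rintro _ ⟨σ, rfl⟩
    rw [SetLike.mem_coe, LinearMap.mem_ker, actL_apply]
    refine act_of_kills fun v => ?_
    have h2 : ∀ k, ThQ μ (Function.update v k (ph _ ((DJ (JQ Z)).map σ) (v k))) =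
        (m k σ : ℂ) * ThQ μ v := by
      intro k
      rw [ThQ_apply, ThQ_apply, ← Finset.mul_prod_erase Finset.univ _ (Finset.mem_univ k),
        ← Finset.mul_prod_erase Finset.univ (fun j => μ j (cQ j (v j)))
          (Finset.mem_univ k), Function.update_self, ph_apply, DJ_JQ h, bd_mulVec, hμ, mul_assoc]
      congr 2
      refine Finset.prod_congr rfl fun j hj => ?_
      rw [Function.update_of_ne (Finset.ne_of_mem_erase hj)]
    rw [Finset.sum_congr rfl fun k _ => h2 k, ← Finset.sum_mul]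
    have h3 : ∑ k, (m k σ : ℂ) = 0 := by
      exact_mod_cast hbal σ
    rw [h3, zero_mul]
  intro X hX
  have h2 := h1 hX
  rwa [LinearMap.mem_ker, actL_apply] at h2

theorem ThQ_mem (𝒜 : Sys) (hμ : ∀ q σ x, μ q (DS (Z q) σ *ᵥ x) = (m q σ : ℂ) * μ q x)
    (hbal : ∀ σ, ∑ q, m q σ = 0)
    (hall : ∀ r : (BQ a → ℚ) [⋀^Q]→ₗ[ℚ] ℚ, IsHodge (perQ Z) r → 𝒜.A (AVQ h) Q r) :
    ThQ μ ∈ NA 𝒜 (chtQ h) (polQ h) Q :=
  NA_of_hodge _ _ 𝒜 gal_LQ DJ_memQ hall (ThQ_kill h hμ hbal)

variable {B : Type} [Fintype B] [DecidableEq B] {T : Type} [AddCommGroup T] [Module ℂ T]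
  [FiniteDimensional ℂ T] {per : (B → ℚ) →+ T} {J : Matrix B B ℝ} (hc : Cht per J)
  (hp : ∃ E : (B → ℚ) → (B → ℚ) → ℚ, IsPolarization per E)

/-- The product of linear forms composed with linear maps. -/
def PhQ (μ : ∀ q, (Fin (a q) ⊕ Fin (a q) → ℂ) →ₗ[ℂ] ℂ)
    (Qm : ∀ q, Matrix (Fin (a q) ⊕ Fin (a q)) B ℂ) : MultilinearMap ℂ (fun _ : Q => B → ℂ) ℂ :=
  (MultilinearMap.mkPiAlgebra ℂ Q ℂ).compLinearMap fun q => (μ q).comp (mulVecLin (Qm q))

theorem PhQ_apply (Qm : ∀ q, Matrix (Fin (a q) ⊕ Fin (a q)) B ℂ) (v : Q → B → ℂ) :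
    PhQ μ Qm v = ∏ q, μ q (Qm q *ᵥ v q) := rfl

include h in
/-- The forms belong to the system for rational homomorphisms. -/
theorem PhQ_rat (𝒜 : Sys) (hμ : ∀ q σ x, μ q (DS (Z q) σ *ᵥ x) = (m q σ : ℂ) * μ q x)
    (hbal : ∀ σ, ∑ q, m q σ = 0)
    (hall : ∀ r : (BQ a → ℚ) [⋀^Q]→ₗ[ℚ] ℚ, IsHodge (perQ Z) r → 𝒜.A (AVQ h) Q r)
    (Qm : ∀ q, Matrix (Fin (a q) ⊕ Fin (a q)) B ℂ) (hQ : ∀ q, Qm q ∈ TG J (JR (Z q))) :
    PhQ μ Qm ∈ NA 𝒜 hc hp Q := by
  choose R hR1 hR2 using hQ
  let S : Matrix (BQ a) B ℚ := Matrix.of fun x j => R x.1 x.2 j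
  have hS : ∀ (w : B → ℂ) q, cQ q (cK ℂ S *ᵥ w) = cK ℂ (R q) *ᵥ w := fun w q => rfl
  have hcol : cK ℂ S * DJ J = DJ (JQ Z) * cK ℂ S := by
    apply Matrix.toLin'.injective
    refine LinearMap.ext fun w => ?_
    rw [Matrix.toLin'_apply, Matrix.toLin'_apply, ← mulVec_mulVec, ← mulVec_mulVec]
    have h1 : ∀ q, cQ q (cK ℂ S *ᵥ (DJ J *ᵥ w)) = cQ q (DJ (JQ Z) *ᵥ (cK ℂ S *ᵥ w)) := by
      intro q
      have h2 : DJ (JQ Z) = blockDiagonal' fun q => DS (Z q) (RingEquiv.refl ℂ) := by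
        rw [← DJ_JQ h]
        ext i j
        rfl
      rw [h2, bd_mulVec, hS, hS, mulVec_mulVec, mulVec_mulVec, hR2 q]
      rfl
    funext x
    exact congrFun (h1 x.1) x.2
  refine NA_pull hc hp (chtQ h) (polQ h) 𝒜 hcol (ThQ_mem h 𝒜 hμ hbal hall) _ fun v => ?_
  rw [PhQ_apply, ThQ_apply]
  refine Finset.prod_congr rfl fun q _ => ?_
  rw [hS, ← hR1 q]

include h in
/-- The forms belong to the system for equivariant maps. -/
theorem PhQ_mem (𝒜 : Sys) (hμ : ∀ q σ x, μ q (DS (Z q) σ *ᵥ x) = (m q σ : ℂ) * μ q x)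
    (hbal : ∀ σ, ∑ q, m q σ = 0)
    (hall : ∀ r : (BQ a → ℚ) [⋀^Q]→ₗ[ℚ] ℚ, IsHodge (perQ Z) r → 𝒜.A (AVQ h) Q r)
    (Qm : ∀ q, Matrix (Fin (a q) ⊕ Fin (a q)) B ℂ)
    (hQ : ∀ q (σ : ℂ ≃+* ℂ), Qm q * (DJ J).map σ = DS (Z q) σ * Qm q) :
    PhQ μ Qm ∈ NA 𝒜 hc hp Q := by
  have hsp : ∀ q, Qm q ∈ Submodule.span ℂ (TG J (JR (Z q)) : Set (Matrix _ B ℂ)) := fun q =>
    exp_memG (hQ q)
  have key : ∀ (s : Finset Q) (Qf : ∀ q, Matrix (Fin (a q) ⊕ Fin (a q)) B ℂ),
      (∀ q ∈ s, Qf q ∈ Submodule.span ℂ (TG J (JR (Z q)) : Set (Matrix _ B ℂ))) →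
      (∀ q, q ∉ s → Qf q ∈ TG J (JR (Z q))) → PhQ μ Qf ∈ NA 𝒜 hc hp Q := by
    intro s
    induction s using Finset.induction_on with
    | empty => exact fun Qf _ h2 => PhQ_rat h hc hp 𝒜 hμ hbal hall Qf fun q => h2 q (by simp)
    | insert q s hq ih =>
      intro Qf h1 h2
      have h3 : ∀ C ∈ Submodule.span ℂ (TG J (JR (Z q)) : Set (Matrix _ B ℂ)),
          PhQ μ (Function.update Qf q C) ∈ NA 𝒜 hc hp Q := by
        intro C hC
        have hval : ∀ (C : Matrix (Fin (a q) ⊕ Fin (a q)) B ℂ) (v : Q → B → ℂ),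
            PhQ μ (Function.update Qf q C) v = μ q (C *ᵥ v q) *
              ∏ q' ∈ Finset.univ.erase q, μ q' (Qf q' *ᵥ v q') := by
          intro C v
          rw [PhQ_apply, ← Finset.mul_prod_erase Finset.univ _ (Finset.mem_univ q),
            Function.update_self]
          congr 1
          refine Finset.prod_congr rfl fun q' hq' => ?_
          rw [Function.update_of_ne (Finset.ne_of_mem_erase hq')]
        induction hC using Submodule.span_induction with
        | mem C hC =>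
          refine ih _ (fun q' hq' => ?_) (fun q' hq' => ?_)
          · have hne : q' ≠ q := fun h0 => hq (h0 ▸ hq')
            rw [Function.update_of_ne hne]
            exact h1 q' (Finset.mem_insert_of_mem hq')
          · by_cases hne : q' = q
            · subst hne
              rw [Function.update_self]
              exact hC
            · rw [Function.update_of_ne hne]
              exact h2 q' (by
                rw [Finset.mem_insert]
                push Not
                exact ⟨hne, hq'⟩)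
        | zero =>
          have h0 : PhQ μ (Function.update Qf q 0) = 0 := by
            refine MultilinearMap.ext fun v => ?_
            rw [hval, zero_mulVec, map_zero, zero_mul]
            rfl
          rw [h0]
          exact Submodule.zero_mem _
        | add C C' _ _ hC hC' =>
          have h0 : PhQ μ (Function.update Qf q (C + C')) = PhQ μ (Function.update Qf q C) +
              PhQ μ (Function.update Qf q C') := by
            refine MultilinearMap.ext fun v => ?_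
            rw [_root_.add_apply, hval, hval, hval, add_mulVec, map_add, add_mul]
          rw [h0]
          exact Submodule.add_mem _ hC hC'
        | smul c C _ hC =>
          have h0 : PhQ μ (Function.update Qf q (c • C)) = c • PhQ μ (Function.update Qf q C) := by
            refine MultilinearMap.ext fun v => ?_
            rw [_root_.smul_apply, hval, hval, smul_mulVec, map_smul, smul_eq_mul, smul_eq_mul,
              mul_assoc]
          rw [h0]
          exact Submodule.smul_mem _ _ hC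
      have h4 := h3 (Qf q) (h1 q (Finset.mem_insert_self _ _))
      rwa [Function.update_eq_self] at h4
  exact key Finset.univ Qm (fun q _ => hsp q) (fun q hq => absurd (Finset.mem_univ q) hq)

end theta

end

end Pool.Agent.R915
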