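import Mathlib
import Pool.Agent.R915.T2
import Pool.Agent.R915.E1

/-!
# Simple abelian varieties with complex multiplication
-/

set_option linter.unusedSectionVars false

namespace Pool.Agent.R915

open Matrix Module Pool.Agent.W437.HC Pool.Agent.W437.HD Pool.Agent.TH504.CB Pool.Agent.Y90
open Pool.Agent.W548.Odd hiding cv
open Pool.Agent.H204R3.CM (IsHodge)
open Pool.Agent.W437.HP (cK cK_mul cK_one)

noncomputable section

variable {g : ℕ} {Z : Matrix (Fin g) (Fin g) ℂ}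

/-- The Lie algebra of a simple abelian variety with complex multiplication is commutative. -/
theorem comm_of_cm (h : PM Z) (hs : IsSimpleAV Z) (hg : 0 < g) (hcm : HasCMult (AVZ h)) :
    ∀ X ∈ LZ Z, ∀ Y ∈ LZ Z, X * Y = Y * X := by
  obtain ⟨A, hA1, hA2, hA3⟩ := hcm
  have hcL : ∀ a ∈ A, ∀ X ∈ LZ Z, X * qm (LinearMap.toMatrix' a) = qm (LinearMap.toMatrix' a) * X :=
    fun a ha => commL_of ((hom_iff' h a).1 (hA3 a ha))
  let v0 : Fin g ⊕ Fin g → ℚ := Pi.single (Sum.inl ⟨0, hg⟩) 1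
  have hv0 : v0 ≠ 0 := by
    intro h0
    have h1 := congrFun h0 (Sum.inl ⟨0, hg⟩)
    simp [v0] at h1
  let ev : A →ₗ[ℚ] (Fin g ⊕ Fin g → ℚ) :=
    { toFun := fun a => (a : Module.End ℚ (Fin g ⊕ Fin g → ℚ)) v0
      map_add' := fun a b => rfl
      map_smul' := fun c a => rfl }
  have hqv : ∀ (a : Module.End ℚ (Fin g ⊕ Fin g → ℚ)) (v : Fin g ⊕ Fin g → ℚ),
      qm (LinearMap.toMatrix' a) *ᵥ cv v = cv (a v) := by
    intro a v
    have h1 := qm_mulVec (LinearMap.toMatrix' a) v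
    have h2 : LinearMap.toMatrix' a *ᵥ v = a v := by
      rw [← Matrix.toLin'_apply, Matrix.toLin'_toMatrix']
    rw [h2] at h1
    exact h1
  have hinj : Function.Injective ev := by
    rw [injective_iff_map_eq_zero]
    intro a ha
    have ha' : (a : Module.End ℚ (Fin g ⊕ Fin g → ℚ)) v0 = 0 := ha
    rcases hdivZ h.isPer (Set.mem_singleton Z) hs (LinearMap.toMatrix' a.1) (by
      intro X hX
      rw [← img_eq] at hX
      exact (hcL a.1 a.2 X hX).symm) with h1 | h1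
    · apply Subtype.ext
      exact LinearMap.toMatrix'.injective (by rw [h1]; exact (map_zero _).symm)
    · exfalso
      have h2 := hqv a.1 v0
      rw [ha'] at h2
      have h3 : cv (0 : Fin g ⊕ Fin g → ℚ) = qm (LinearMap.toMatrix' a.1) *ᵥ 0 := by
        rw [mulVec_zero]
        funext i
        simp [cv]
      rw [h3] at h2
      have h4 := (Matrix.mulVec_injective_iff_isUnit.2 h1) h2
      apply hv0
      funext i
      have h5 : ((v0 i : ℚ) : ℂ) = 0 := congrFun h4 i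
      rw [Pi.zero_apply]
      exact_mod_cast h5
  have hsurj : Function.Surjective ev := by
    have hfin : finrank ℚ A = finrank ℚ (Fin g ⊕ Fin g → ℚ) := hA2
    exact (LinearMap.injective_iff_surjective_of_finrank_eq_finrank hfin).1 hinj
  choose b hb using fun j : Fin g ⊕ Fin g => hsurj (Pi.single j 1)
  let M : Fin g ⊕ Fin g → Matrix (Fin g ⊕ Fin g) (Fin g ⊕ Fin g) ℂ := fun j =>
    qm (LinearMap.toMatrix' (b j).1)
  have hMv : ∀ j, M j *ᵥ cv v0 = Pi.single j 1 := by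
    intro j
    have h1 := hqv (b j).1 v0
    have h2 : (b j).1 v0 = Pi.single j 1 := hb j
    rw [h2] at h1
    change qm (LinearMap.toMatrix' (b j).1) *ᵥ cv v0 = _
    rw [h1]
    funext i
    change ((Pi.single j 1 : Fin g ⊕ Fin g → ℚ) i : ℂ) = _
    rw [Pi.single_apply, Pi.single_apply]
    split_ifs <;> simp
  have hMM : ∀ i j, M i * M j = M j * M i := by
    intro i j
    change qm _ * qm _ = qm _ * qm _
    rw [← qm_mul, ← qm_mul, ← LinearMap.toMatrix'_mul, ← LinearMap.toMatrix'_mul,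
      hA1 _ (b i).2 _ (b j).2]
  have key : ∀ X ∈ LZ Z, X = ∑ j, (X *ᵥ cv v0) j • M j := by
    intro X hX
    apply Matrix.toLin'.injective
    refine LinearMap.pi_ext' fun i => ?_
    refine LinearMap.ext_ring ?_
    rw [LinearMap.comp_apply, LinearMap.comp_apply, Matrix.toLin'_apply, Matrix.toLin'_apply]
    change X *ᵥ (Pi.single i 1) = (∑ j, (X *ᵥ cv v0) j • M j) *ᵥ (Pi.single i 1)
    have e1 : (∑ j, (X *ᵥ cv v0) j • M j) *ᵥ cv v0 = X *ᵥ cv v0 := by
      rw [sum_mulVec]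
      have e2 : ∀ j, ((X *ᵥ cv v0) j • M j) *ᵥ cv v0 = Pi.single j ((X *ᵥ cv v0) j) := by
        intro j
        rw [smul_mulVec, hMv]
        funext i
        rw [Pi.smul_apply, Pi.single_apply, Pi.single_apply]
        split_ifs <;> simp
      rw [Finset.sum_congr rfl fun j _ => e2 j]
      funext i
      rw [Finset.sum_apply, Finset.sum_eq_single i]
      · rw [Pi.single_eq_same]
      · intro j _ hj
        rw [Pi.single_eq_of_ne (Ne.symm hj)]
      · intro h
        exact absurd (Finset.mem_univ i) h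
    have e3 : (∑ j, (X *ᵥ cv v0) j • M j) * M i = M i * ∑ j, (X *ᵥ cv v0) j • M j := by
      rw [Finset.sum_mul, Finset.mul_sum]
      refine Finset.sum_congr rfl fun j _ => ?_
      rw [Matrix.smul_mul, Matrix.mul_smul, hMM]
    have e4 : X * M i = M i * X := hcL _ (b i).2 X hX
    rw [← hMv i, mulVec_mulVec, mulVec_mulVec, e3, e4, ← mulVec_mulVec, ← mulVec_mulVec, e1]
  intro X hX Y hY
  rw [key X hX, Finset.sum_mul, Finset.mul_sum]
  refine Finset.sum_congr rfl fun j _ => ?_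
  rw [Matrix.smul_mul, Matrix.mul_smul]
  congr 1
  exact (hcL _ (b j).2 Y hY).symm

/-- The irreducible submodules are lines. -/
theorem line_of_comm (hcomm : ∀ X ∈ LZ Z, ∀ Y ∈ LZ Z, X * Y = Y * X)
    {U : Submodule ℂ (Fin g ⊕ Fin g → ℂ)} (hU : IrS (LZ Z) U) : finrank ℂ U = 1 := by
  have h1 : ∀ X ∈ LZ Z, ∃ z : ℂ, ∀ u ∈ U, X *ᵥ u = z • u := fun X hX =>
    schur_scalar hU (fun Y hY => hcomm Y hY X hX) (hU.2.1 X hX)
  obtain ⟨u0, hu0, hu00⟩ := Submodule.exists_mem_ne_zero_of_ne_bot hU.1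
  have h2 : Stab (LZ Z) (Submodule.span ℂ {u0}) := by
    intro X hX u hu
    obtain ⟨z, hz⟩ := h1 X hX
    obtain ⟨c, rfl⟩ := Submodule.mem_span_singleton.1 hu
    rw [mulVec_smul, hz u0 hu0]
    exact Submodule.smul_mem _ _ (Submodule.smul_mem _ _ (Submodule.mem_span_singleton_self _))
  have h3 : Submodule.span ℂ {u0} ≤ U := by
    rw [Submodule.span_singleton_le_iff_mem]
    exact hu0
  rcases hU.2.2 _ h3 h2 with h4 | h4
  · exact absurd (Submodule.span_singleton_eq_bot.1 h4) hu00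
  · rw [← h4]
    exact finrank_span_singleton hu00

/-- The linear form of a line. -/
theorem exists_mu (h : PM Z) {U : Submodule ℂ (Fin g ⊕ Fin g → ℂ)} (hU : IrS (LZ Z) U)
    (h1 : finrank ℂ U = 1) : ∃ μ : (Fin g ⊕ Fin g → ℂ) →ₗ[ℂ] ℂ, (∀ u ∈ U, μ u = 0 → u = 0) ∧
      ∀ (σ : ℂ ≃+* ℂ) (x : Fin g ⊕ Fin g → ℂ),
        μ (DS Z σ *ᵥ x) = (tr Z (cjS σ.symm U) : ℂ) * μ x := by
  obtain ⟨π, hπ1, hπ2, hπ3⟩ := h.cred U hU.2.1
  obtain ⟨w, hw0, hw⟩ := finrank_eq_one_iff'.1 h1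
  have hwne : (w : Fin g ⊕ Fin g → ℂ) ≠ 0 := fun h0 => hw0 (Subtype.ext h0)
  -- the coordinate
  obtain ⟨e⟩ : Nonempty (U ≃ₗ[ℂ] ℂ) := ⟨LinearEquiv.ofFinrankEq _ _ (by rw [h1, finrank_self])⟩
  let P : (Fin g ⊕ Fin g → ℂ) →ₗ[ℂ] U := π.codRestrict U hπ2
  refine ⟨e.toLinearMap.comp P, fun u hu h0 => ?_, fun σ x => ?_⟩
  · have h2 : P u = 0 := e.injective (by rw [map_zero]; exact h0)
    have h3 := congrArg Subtype.val h2
    change π u = 0 at h3
    rwa [hπ3 u hu] at h3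
  · -- the eigenvalue
    have hst := rz_stable h hU.2.1 (gs h σ)
    have hdet := det_gs h hU.2.1 σ hst
    obtain ⟨ε, hε⟩ := hw ⟨DS Z σ *ᵥ w, hU.2.1 _ (DS_mem σ) _ w.2⟩
    have hε' : DS Z σ *ᵥ (w : Fin g ⊕ Fin g → ℂ) = ε • (w : Fin g ⊕ Fin g → ℂ) :=
      (congrArg Subtype.val hε).symm
    have hεU : ∀ u ∈ U, DS Z σ *ᵥ u = ε • u := by
      intro u hu
      obtain ⟨c, hc⟩ := hw ⟨u, hu⟩
      have hc' : c • (w : Fin g ⊕ Fin g → ℂ) = u := congrArg Subtype.val hc
      rw [← hc', mulVec_smul, hε', smul_comm]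
    have hεε : ε * ε = 1 := by
      have h2 : DS Z σ *ᵥ (DS Z σ *ᵥ (w : Fin g ⊕ Fin g → ℂ)) = (w : Fin g ⊕ Fin g → ℂ) := by
        rw [mulVec_mulVec, DS_sq h.det, one_mulVec]
      rw [hε', mulVec_smul, hε', smul_smul] at h2
      have h3 : (ε * ε - 1) • (w : Fin g ⊕ Fin g → ℂ) = 0 := by
        rw [sub_smul, one_smul, h2, sub_self]
      exact sub_eq_zero.1 ((smul_eq_zero.1 h3).resolve_right hwne)
    have hm : ε = (tr Z (cjS σ.symm U) : ℂ) := by
      have h2 : (RZ Z (gs h σ)).restrict hst =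
          (((2 : ℂ) + 2⁻¹) / 2 + (((2 : ℂ) - 2⁻¹) / 2) * ε) • LinearMap.id := by
        refine LinearMap.ext fun u => Subtype.ext ?_
        change torE (ph _ (DS Z σ)) two (u : Fin g ⊕ Fin g → ℂ) = _ • (u : Fin g ⊕ Fin g → ℂ)
        rw [torE_apply, ph_apply, hεU u u.2, smul_smul, ← add_smul]
        rfl
      rw [h2, LinearMap.det_smul, h1, pow_one, LinearMap.det_id, mul_one] at hdet
      have hε3 : ε = 1 ∨ ε = -1 := by
        have h3 : (ε - 1) * (ε + 1) = 0 := by linear_combination hεε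
        rcases mul_eq_zero.1 h3 with h4 | h4
        · left
          linear_combination h4
        · right
          linear_combination h4
      have h5 : ∀ n : ℤ, (2 : ℂ) ^ n = 2 ^ tr Z (cjS σ.symm U) → tr Z (cjS σ.symm U) = n := by
        intro n hn
        have h9 := congrArg (fun z : ℂ => ‖z‖) hn
        simp only [norm_zpow, Complex.norm_ofNat] at h9
        exact (zpow_right_injective₀ (by norm_num : (0 : ℝ) < 2) (by norm_num) h9).symm
      rcases hε3 with rfl | rfl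
      · have h6 := h5 1 (by rw [← hdet, zpow_one]; norm_num)
        rw [h6]
        norm_num
      · have h6 := h5 (-1) (by rw [← hdet]; norm_num)
        rw [h6]
        norm_num
    have h7 : P (DS Z σ *ᵥ x) = ε • P x := by
      apply Subtype.ext
      change π (DS Z σ *ᵥ x) = ε • π x
      rw [hπ1 _ (DS_mem σ) x, hεU _ (hπ2 x)]
    rw [LinearMap.comp_apply, h7, map_smul, smul_eq_mul, hm]
    rfl

end

end Pool.Agent.R915
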