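import Mathlib
import Pool.Agent.R915.G1
import Pool.Agent.R915.G2

/-!
# Balanced products of determinant forms and of linear forms of complex multiplication
-/

set_option linter.unusedSectionVars false

namespace Pool.Agent.R915

open Matrix Module Pool.Agent.W437.HC Pool.Agent.W437.HD Pool.Agent.TH504.CB Pool.Agent.Y90
open Pool.Agent.W548.Odd hiding cv
open Pool.Agent.H204R3.CM (IsHodge)
open Pool.Agent.W437.HP (cK cK_mul cK_one)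

noncomputable section

section data

variable {S' : Type} [Fintype S'] [DecidableEq S'] {M : ℕ}

/-- The dimensions of the factors. -/
def aQ (a' : S' → ℕ) (M : ℕ) : S' ⊕ Fin M → ℕ := Sum.elim a' fun _ => 1

/-- The period matrices of the factors. -/
def ZQ {a' : S' → ℕ} (Z' : ∀ s, Matrix (Fin (a' s)) (Fin (a' s)) ℂ) (dd : Fin M → ℚ) :
    ∀ q : S' ⊕ Fin M, Matrix (Fin (aQ a' M q)) (Fin (aQ a' M q)) ℂ
  | Sum.inl s => Z' s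
  | Sum.inr j => ZE (fun _ : Fin 1 => dd j) (fun _ => 1)

theorem pmQ {a' : S' → ℕ} {Z' : ∀ s, Matrix (Fin (a' s)) (Fin (a' s)) ℂ} (h' : ∀ s, PM (Z' s))
    {dd : Fin M → ℚ} (hdd : ∀ j, 0 < dd j) : ∀ q, PM (ZQ Z' dd q)
  | Sum.inl s => h' s
  | Sum.inr j => pmE (fun _ => hdd j) (fun _ => one_pos)

/-- The linear forms. -/
def muQ {a' : S' → ℕ} (μ : ∀ s, (Fin (a' s) ⊕ Fin (a' s) → ℂ) →ₗ[ℂ] ℂ) (dd : Fin M → ℚ)
    (ss : Fin M → ℤ) : ∀ q : S' ⊕ Fin M, (Fin (aQ a' M q) ⊕ Fin (aQ a' M q) → ℂ) →ₗ[ℂ] ℂ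
  | Sum.inl s => μ s
  | Sum.inr j => lmE 1 0 (-gam (fun _ : Fin 1 => dd j) (fun _ => ss j) 0)

/-- The eigenvalues. -/
def mQ (m : S' → (ℂ ≃+* ℂ) → ℤ) (dd : Fin M → ℚ) (ss : Fin M → ℤ) :
    S' ⊕ Fin M → (ℂ ≃+* ℂ) → ℤ
  | Sum.inl s => m s
  | Sum.inr j => fun σ => -(ss j * rho (dd j) σ)

theorem muQ_DS {a' : S' → ℕ} {Z' : ∀ s, Matrix (Fin (a' s)) (Fin (a' s)) ℂ}
    {μ : ∀ s, (Fin (a' s) ⊕ Fin (a' s) → ℂ) →ₗ[ℂ] ℂ} {m : S' → (ℂ ≃+* ℂ) → ℤ}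
    (hμ : ∀ s σ x, μ s (DS (Z' s) σ *ᵥ x) = (m s σ : ℂ) * μ s x)
    {dd : Fin M → ℚ} (hdd : ∀ j, 0 < dd j) {ss : Fin M → ℤ} (hss : ∀ j, ss j = 1 ∨ ss j = -1) :
    ∀ q σ x, muQ μ dd ss q (DS (ZQ Z' dd q) σ *ᵥ x) = (mQ m dd ss q σ : ℂ) * muQ μ dd ss q x
  | Sum.inl s, σ, x => hμ s σ x
  | Sum.inr j, σ, x => by
    have h1 := lm_DS (fun _ : Fin 1 => ss j) (dd := fun _ => dd j) (fun _ => hdd j)
      (fun _ => hss j) σ x 0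
    have h2 : ((mQ m dd ss (Sum.inr j) σ : ℤ) : ℂ) = -((ss j * rho (dd j) σ : ℤ) : ℂ) :=
      Int.cast_neg _
    rw [h2]
    exact h1

theorem rho_symm {d : ℚ} (hd : 0 < d) (σ : ℂ ≃+* ℂ) : rho d σ.symm = rho d σ := by
  have h1 := rho_spec hd σ
  have h2 := rho_spec hd σ.symm
  have h0 : Complex.I * (rt d : ℂ) ≠ 0 := mul_ne_zero Complex.I_ne_zero (rt_neC hd)
  have h3 : σ (σ.symm (Complex.I * (rt d : ℂ))) = Complex.I * (rt d : ℂ) := σ.apply_symm_apply _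
  rw [h2, map_mul, h1, map_intCast] at h3
  have h4 : ((rho d σ.symm : ℤ) : ℂ) * ((rho d σ : ℤ) : ℂ) = 1 := by
    have h5 : (((rho d σ.symm : ℤ) : ℂ) * ((rho d σ : ℤ) : ℂ) - 1) * (Complex.I * (rt d : ℂ)) = 0 := by
      linear_combination h3
    exact sub_eq_zero.1 ((mul_eq_zero.1 h5).resolve_right h0)
  have h6 : rho d σ.symm * rho d σ = 1 := by exact_mod_cast h4
  rcases rho_pm d σ with h7 | h7 <;> rcases rho_pm d σ.symm with h8 | h8 <;>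
    rw [h7, h8] at h6 ⊢ <;> norm_num at h6

end data

section total

variable {G : ℕ} {Z : Matrix (Fin G) (Fin G) ℂ} {S' : Type} [Fintype S'] [DecidableEq S']

/-- The linear maps. -/
def QQ {a' : S' → ℕ} {M : ℕ} (Qm : ∀ s, Matrix (Fin (a' s) ⊕ Fin (a' s)) (Fin G ⊕ Fin G) ℂ) :
    ∀ q : S' ⊕ Fin M, Matrix (Fin (aQ a' M q) ⊕ Fin (aQ a' M q))
      ((Fin G ⊕ Fin G) ⊕ (Fin M ⊕ Fin M)) ℂ
  | Sum.inl s => fromCols (Qm s) 0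
  | Sum.inr j => cK ℂ (rowE G M 1 (fun _ => 1) (fun _ => j) 0)

theorem QQ_comm1 {a M : ℕ} {Z' : Matrix (Fin a) (Fin a) ℂ}
    {Qm : Matrix (Fin a ⊕ Fin a) (Fin G ⊕ Fin G) ℂ} {σ : ℂ ≃+* ℂ}
    (hQ : Qm * DS Z σ = DS Z' σ * Qm) {dd : Fin M → ℚ} :
    fromCols Qm (0 : Matrix (Fin a ⊕ Fin a) (Fin M ⊕ Fin M) ℂ) *
        (DJ (fromBlocks (JR Z) 0 0 (JR (ZE dd (fun _ => 1))))).map σ =
      DS Z' σ * fromCols Qm 0 := by
  rw [DJ_prod, DP_map]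
  unfold DP
  rw [fromCols_mul_fromBlocks, mul_fromCols, Matrix.zero_mul, Matrix.mul_zero, Matrix.zero_mul,
    Matrix.mul_zero, add_zero, add_zero, ← hQ]
  rfl

theorem QQ_comm {a' : S' → ℕ} {M : ℕ} {Z' : ∀ s, Matrix (Fin (a' s)) (Fin (a' s)) ℂ}
    {Qm : ∀ s, Matrix (Fin (a' s) ⊕ Fin (a' s)) (Fin G ⊕ Fin G) ℂ}
    (hQ : ∀ s (σ : ℂ ≃+* ℂ), Qm s * DS Z σ = DS (Z' s) σ * Qm s) {dd : Fin M → ℚ}
    (hdd : ∀ j, 0 < dd j) :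
    ∀ (q : S' ⊕ Fin M) (σ : ℂ ≃+* ℂ), QQ Qm q *
        (DJ (fromBlocks (JR Z) 0 0 (JR (ZE dd (fun _ => 1))))).map σ =
      DS (ZQ Z' dd q) σ * QQ Qm q
  | Sum.inl s, σ => QQ_comm1 (hQ s σ)
  | Sum.inr j, σ => rowE_comm (hdd j) hdd (fun _ => one_pos) (fun _ => rfl) 0 σ

/-- Balanced products of determinant forms and of linear forms of complex multiplication belong to
the system. -/
theorem det_NA2 (𝒜 : Sys) (h : PM Z) {S : Type} [Fintype S]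
    (W : S → Submodule ℂ (Fin G ⊕ Fin G → ℂ))
    (hW : ∀ q, Stab (LZ Z) (W q))
    {a : S → ℕ} {Z₁ : ∀ q, Matrix (Fin (a q)) (Fin (a q)) ℂ}
    {E : ∀ q, Matrix (Fin G ⊕ Fin G) (Fin (a q) ⊕ Fin (a q)) ℚ}
    {F : ∀ q, Matrix (Fin (a q) ⊕ Fin (a q)) (Fin G ⊕ Fin G) ℚ}
    {φ : ∀ q, Matrix (Fin (a q) ⊕ Fin (a q)) (Fin (a q) ⊕ Fin (a q)) ℚ} {α : S → ℂ} {d : S → ℚ}
    (k : ∀ q, KX Z (W q) (a q) (Z₁ q) (E q) (F q) (φ q) (α q) (d q))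
    (ι : S → Type) [∀ q, Fintype (ι q)] [∀ q, DecidableEq (ι q)] (f : ∀ q, Basis (ι q) ℂ (W q))
    (p : ∀ q, ι q → (Fin G ⊕ Fin G → ℂ) →ₗ[ℂ] W q)
    (hp : ∀ q y g x, (p q y (RZ Z g x) : Fin G ⊕ Fin G → ℂ) = RZ Z g (p q y x))
    {a' : S' → ℕ} {Z' : ∀ s, Matrix (Fin (a' s)) (Fin (a' s)) ℂ} (h' : ∀ s, PM (Z' s))
    (μ : ∀ s, (Fin (a' s) ⊕ Fin (a' s) → ℂ) →ₗ[ℂ] ℂ) (m : S' → (ℂ ≃+* ℂ) → ℤ)
    (hμ : ∀ s σ x, μ s (DS (Z' s) σ *ᵥ x) = (m s σ : ℂ) * μ s x)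
    (Qm : ∀ s, Matrix (Fin (a' s) ⊕ Fin (a' s)) (Fin G ⊕ Fin G) ℂ)
    (hQ : ∀ s (σ : ℂ ≃+* ℂ), Qm s * DS Z σ = DS (Z' s) σ * Qm s)
    (hbal : ∀ σ : ℂ ≃+* ℂ, ∑ q, tr Z (cjS σ.symm (W q)) + ∑ s, m s σ = 0)
    (hall : ∀ (M : ℕ) (dd : Fin M → ℚ) (hdd : ∀ j, 0 < dd j),
      (∀ j, ∃ q, dd j = d q ∧ tr (Z₁ q) ((W q).map (ml (F q))) ≠ 0) → ∀
      (r : (BQ (aQ a' M) → ℚ) [⋀^(S' ⊕ Fin M)]→ₗ[ℚ] ℚ), IsHodge (perQ (ZQ Z' dd)) r →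
      𝒜.A (AVQ (pmQ h' hdd)) (S' ⊕ Fin M) r)
    (ψ : MultilinearMap ℂ (fun _ : (Σ q, ι q) ⊕ S' => Fin G ⊕ Fin G → ℂ) ℂ)
    (hψ : ∀ v, ψ v = (∏ q, (f q).det (fun y => p q y (v (Sum.inl ⟨q, y⟩)))) *
      ∏ s, μ s (Qm s *ᵥ v (Sum.inr s))) :
    ψ ∈ NA 𝒜 h.cht ⟨_, h.polar⟩ ((Σ q, ι q) ⊕ S') := by
  choose n s ε hε hs hα ht using fun q => (k q).exists_eps
  let M : ℕ := Fintype.card (Σ q, Fin (n q))
  let eM : (Σ q, Fin (n q)) ≃ Fin M := Fintype.equivFin _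
  let dd : Fin M → ℚ := fun j => d (eM.symm j).1
  let ss : Fin M → ℤ := fun j => s (eM.symm j).1
  have hdd : ∀ j, 0 < dd j := fun j => (k _).kw.pos
  have hss : ∀ j, ss j = 1 ∨ ss j = -1 := fun j => hs _
  have hdm : ∀ q y, dd (eM ⟨q, y⟩) = d q := by
    intro q y
    change d (eM.symm (eM ⟨q, y⟩)).1 = d q
    rw [Equiv.symm_apply_apply]
  have hsm : ∀ q y, ss (eM ⟨q, y⟩) = s q := by
    intro q y
    change s (eM.symm (eM ⟨q, y⟩)).1 = s q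
    rw [Equiv.symm_apply_apply]
  have hdq : ∀ j, ∃ q, dd j = d q ∧ tr (Z₁ q) ((W q).map (ml (F q))) ≠ 0 := by
    intro j
    refine ⟨(eM.symm j).1, rfl, fun h0 => ?_⟩
    have h1 := ht (eM.symm j).1
    have h2 : 0 < n (eM.symm j).1 := lt_of_le_of_lt (Nat.zero_le _) (eM.symm j).2.2
    rcases hs (eM.symm j).1 with h3 | h3 <;> rw [h0, h3] at h1 <;> omega
  have hb1 : ∀ σ : ℂ ≃+* ℂ, ∑ j, ss j * rho (dd j) σ = -∑ q, tr Z (cjS σ.symm (W q)) := by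
    intro σ
    rw [← Equiv.sum_comp eM (fun j => ss j * rho (dd j) σ), Fintype.sum_sigma,
      ← Finset.sum_neg_distrib]
    refine Finset.sum_congr rfl fun q _ => ?_
    rw [Finset.sum_congr rfl fun y _ => by rw [hdm, hsm], Finset.sum_const, Finset.card_univ,
      Fintype.card_fin, nsmul_eq_mul, (k q).tr_rho (hW q), rho_symm (k q).kw.pos]
    linear_combination (rho (d q) σ) * ht q
  have hb : ∀ σ : ℂ ≃+* ℂ, ∑ q, mQ m dd ss q σ = 0 := by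
    intro σ
    rw [Fintype.sum_sum_type]
    have h2 : ∑ j, mQ m dd ss (Sum.inr j) σ = -∑ j, ss j * rho (dd j) σ := by
      rw [← Finset.sum_neg_distrib]
      rfl
    have h3 : ∑ s, mQ m dd ss (Sum.inl s) σ = ∑ s, m s σ := rfl
    rw [h2, h3, hb1]
    linear_combination hbal σ
  let hX := pmE hdd (fun _ => one_pos)
  let N := fun (κ : Type) [Finite κ] => NA 𝒜 (h.cht.prod hX.cht) ⟨_, pol_prod h hX one_pos⟩ κ
  have hclo : Clo N := clo_NA _ _ _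
  -- the pieces
  let P : ∀ q, MultilinearMap ℂ
      (fun _ : ι q ⊕ Fin (n q) => (Fin G ⊕ Fin G) ⊕ (Fin M ⊕ Fin M) → ℂ) ℂ := fun q =>
    prd ((f q).det.toMultilinearMap.compLinearMap
        (fun y => (p q y).comp (LinearMap.funLeft ℂ ℂ Sum.inl)))
      ((MultilinearMap.mkPiAlgebra ℂ (Fin (n q)) ℂ).compLinearMap
        (fun y => lnE G M (eM ⟨q, y⟩) ((s q : ℂ) * (Complex.I * rt (d q)))))
  have hP : ∀ q, P q ∈ N (ι q ⊕ Fin (n q)) := fun q =>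
    piece_mem h hdd (k q) 𝒜 (hε q) (hs q) rfl (hα q) (ht q) (fun y => eM ⟨q, y⟩) (hdm q) (f q)
      (p q) (hp q) (P q) fun v => rfl
  obtain ⟨Ψ, hΨ, hΨ'⟩ := hclo.exists_fam (fun q => ι q ⊕ Fin (n q)) P hP (Equiv.refl _)
  -- the complement
  let Θ : MultilinearMap ℂ (fun _ : S' ⊕ Fin M => (Fin G ⊕ Fin G) ⊕ (Fin M ⊕ Fin M) → ℂ) ℂ :=
    PhQ (muQ μ dd ss) (QQ Qm)
  have hΘ : Θ ∈ N (S' ⊕ Fin M) :=
    PhQ_mem (pmQ h' hdd) _ _ 𝒜 (muQ_DS hμ hdd hss) hb (hall M dd hdd hdq) _ (QQ_comm hQ hdd)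
  have hΘ' : ∀ v, Θ v = (∏ s, μ s (Qm s *ᵥ fun i => v (Sum.inl s) (Sum.inl i))) *
      ∏ j, lnE G M j (-gam dd ss j) (v (Sum.inr j)) := by
    intro v
    change PhQ (muQ μ dd ss) (QQ Qm) v = _
    rw [PhQ_apply, Fintype.prod_sum_type]
    congr 1
    · refine Finset.prod_congr rfl fun s _ => ?_
      change μ s (fromCols (Qm s) 0 *ᵥ v (Sum.inl s)) = _
      rw [fromCols_mulVec, zero_mulVec, add_zero]
      rfl
    · refine Finset.prod_congr rfl fun j _ => ?_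
      change lmE 1 0 (-gam (fun _ : Fin 1 => dd j) (fun _ => ss j) 0)
        (cK ℂ (rowE G M 1 (fun _ => 1) (fun _ => j) 0) *ᵥ v (Sum.inr j)) = _
      rw [lmE_apply, rowE_l, rowE_r, if_pos rfl, if_pos rfl, lnE_apply, Rat.cast_one, inv_one,
        one_mul]
      rfl
  -- the product
  let e : (Σ q, ι q ⊕ Fin (n q)) ⊕ (S' ⊕ Fin M) ≃ ((Σ q, ι q) ⊕ S') ⊕ (Fin M ⊕ Fin M) :=
    (Equiv.sumCongr ((Equiv.sigmaSumDistrib ι (fun q => Fin (n q))).trans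
      (Equiv.sumCongr (Equiv.refl _) eM)) (Equiv.refl _)).trans (Equiv.sumSumSumComm _ _ _ _)
  let T : MultilinearMap ℂ
      (fun _ : ((Σ q, ι q) ⊕ S') ⊕ (Fin M ⊕ Fin M) => (Fin G ⊕ Fin G) ⊕ (Fin M ⊕ Fin M) → ℂ) ℂ :=
    prd (ψ.compLinearMap (fun _ => LinearMap.funLeft ℂ ℂ Sum.inl))
      ((betE (gam dd ss)).compLinearMap (fun _ => LinearMap.funLeft ℂ ℂ Sum.inr))
  have hT : T ∈ N (((Σ q, ι q) ⊕ S') ⊕ (Fin M ⊕ Fin M)) := by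
    refine hclo.mul _ _ _ e Ψ Θ T hΨ hΘ fun w => ?_
    have h1 : T w = ψ (fun x i => w (Sum.inl x) (Sum.inl i)) *
        ((∏ j, lmE M j (gam dd ss j) (fun i => w (Sum.inr (Sum.inl j)) (Sum.inr i))) *
          ∏ j, lmE M j (-gam dd ss j) (fun i => w (Sum.inr (Sum.inr j)) (Sum.inr i))) := rfl
    have h2 : Θ (fun j => w (e (Sum.inr j))) =
        (∏ s, μ s (Qm s *ᵥ fun i => w (Sum.inl (Sum.inr s)) (Sum.inl i))) *
        ∏ j, lmE M j (-gam dd ss j) (fun i => w (Sum.inr (Sum.inr j)) (Sum.inr i)) := by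
      rw [hΘ']
      rfl
    have h3 : Ψ (fun x => w (e (Sum.inl x))) =
        ∏ q, ((f q).det (fun y => p q y (fun i => w (Sum.inl (Sum.inl ⟨q, y⟩)) (Sum.inl i))) *
          ∏ y, lmE M (eM ⟨q, y⟩) ((s q : ℂ) * (Complex.I * rt (d q)))
            (fun i => w (Sum.inr (Sum.inl (eM ⟨q, y⟩))) (Sum.inr i))) := by
      rw [hΨ']
      rfl
    have h4 : ∀ q (y : Fin (n q)), (s q : ℂ) * (Complex.I * rt (d q)) = gam dd ss (eM ⟨q, y⟩) := by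
      intro q y
      unfold gam
      rw [hdm, hsm]
    have h5 : ∏ q, ∏ y, lmE M (eM ⟨q, y⟩) ((s q : ℂ) * (Complex.I * rt (d q)))
        (fun i => w (Sum.inr (Sum.inl (eM ⟨q, y⟩))) (Sum.inr i)) =
        ∏ j, lmE M j (gam dd ss j) (fun i => w (Sum.inr (Sum.inl j)) (Sum.inr i)) := by
      rw [← Equiv.prod_comp eM (fun j => lmE M j (gam dd ss j)
        (fun i => w (Sum.inr (Sum.inl j)) (Sum.inr i))), Fintype.prod_sigma]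
      refine Finset.prod_congr rfl fun q _ => Finset.prod_congr rfl fun y _ => ?_
      rw [h4 q y]
    rw [h1, h2, h3, hψ, Finset.prod_mul_distrib, h5]
    ring
  refine NA_push h hX 𝒜 ψ (betE (gam dd ss)) ?_ T (fun w => rfl) hT
  rw [altQ_betE]
  refine Finset.prod_ne_zero_iff.2 fun j _ => neg_ne_zero.2 (mul_ne_zero two_ne_zero ?_)
  unfold gam
  refine mul_ne_zero ?_ (mul_ne_zero Complex.I_ne_zero (rt_neC (hdd j)))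
  rcases hss j with h1 | h1 <;> rw [h1] <;> norm_num

end total

end

end Pool.Agent.R915
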