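import Mathlib
import Pool.Agent.R915.Sys

/-!
# The reduction to complex multiplication: definitions
-/

namespace Pool.Agent.R915

open Module Pool.Agent.Y90
open Pool.Agent.H204R3.CM (IsHodge)

/-- All Hodge classes on `X` belong to the system. If the system consists of the algebraic classes,
this is the Hodge conjecture for `X`. -/
def Sys.AllHodge (𝒜 : Sys) (X : AV) : Prop :=
  ∀ (κ : Type) [Finite κ] (f : X.H [⋀^κ]→ₗ[ℚ] ℚ), IsHodge X.per f → 𝒜.A X κ f

/-- The abelian variety `Y` is (isogenous to) a simple abelian subvariety of `X`. -/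
def IsFactor (Y X : AV) : Prop :=
  IsSimple Y ∧ ∃ i : Y.H →ₗ[ℚ] X.H, IsHom Y X i ∧ Function.Injective i

/-- The imaginary quadratic field `ℚ(√-d)` acts on the abelian variety `Y`, and the two square roots
`s`, `-s` of `-d` have different multiplicities as eigenvalues of `√-d` on the tangent space. For an
elliptic curve `Y` this says that `Y` has complex multiplication by `ℚ(√-d)`. -/
def Unbalanced (Y : AV) (d : ℚ) : Prop :=
  0 < d ∧ ∃ (h : Y.H →ₗ[ℚ] Y.H) (Ψ : Y.T →ₗ[ℂ] Y.T) (s : ℂ), (∀ v, Ψ (Y.per v) = Y.per (h v)) ∧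
    (∀ w, h (h w) = -(d • w)) ∧ s * s = -(d : ℂ) ∧
    finrank ℂ (LinearMap.ker (Ψ - s • LinearMap.id)) ≠
      finrank ℂ (LinearMap.ker (Ψ + s • LinearMap.id))

end Pool.Agent.R915
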