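import Mathlib
import Pool.Agent.R915.G3
import Pool.Agent.R915.Stm2

/-!
# Balanced products of determinant forms: the general case
-/

set_option linter.unusedSectionVars false

namespace Pool.Agent.R915

open Matrix Module Pool.Agent.W437.HC Pool.Agent.W437.HD Pool.Agent.TH504.CB Pool.Agent.Y90
open Pool.Agent.W548.Odd hiding cv
open Pool.Agent.H204R3.CM (IsHodge)
open Pool.Agent.W437.HP (cK cK_mul cK_one)

noncomputable section

/-- A line attached to a simple factor with complex multiplication. -/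
structure CX {G : ℕ} (Z : Matrix (Fin G) (Fin G) ℂ) (W : Submodule ℂ (Fin G ⊕ Fin G → ℂ)) (a : ℕ)
    (Z' : Matrix (Fin a) (Fin a) ℂ) (E : Matrix (Fin G ⊕ Fin G) (Fin a ⊕ Fin a) ℚ)
    (F : Matrix (Fin a ⊕ Fin a) (Fin G ⊕ Fin G) ℚ) : Prop where
  fac : Fac Z Z' E F
  pm : PM Z'
  simple : IsSimpleAV Z'
  pos : 0 < a
  cm : HasCMult (AVZ pm)
  inj : ∀ u ∈ W, ml F u = 0 → u = 0
  dim : finrank ℂ W = 1

/-- The factors which are allowed in the products. -/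
def GoodF {G a : ℕ} (Z : Matrix (Fin G) (Fin G) ℂ) {Z' : Matrix (Fin a) (Fin a) ℂ} (h' : PM Z') :
    Prop :=
  IsSimpleAV Z' ∧ 0 < a ∧ HasCMult (AVZ h') ∧ ((∃ E F, Fac Z Z' E F) ∨ (a = 1 ∧ ∃ d : ℚ,
    Unbalanced (AVZ h') d ∧ ∃ (a₂ : ℕ) (Z₂ : Matrix (Fin a₂) (Fin a₂) ℂ) (h₂ : PM Z₂)
      (E : Matrix (Fin G ⊕ Fin G) (Fin a₂ ⊕ Fin a₂) ℚ)
      (F : Matrix (Fin a₂ ⊕ Fin a₂) (Fin G ⊕ Fin G) ℚ), Fac Z Z₂ E F ∧ IsSimpleAV Z₂ ∧ 0 < a₂ ∧
        ¬ HasCMult (AVZ h₂) ∧ Unbalanced (AVZ h₂) d))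

/-- The factors which occur in the reduction: simple abelian varieties `Y` with complex
multiplication which are factors of `X`, and elliptic curves with complex multiplication by an
imaginary quadratic field which acts on a simple factor of `X` without complex multiplication with
different multiplicities. -/
def CMFactor (X Y : AV) : Prop :=
  IsSimple Y ∧ HasCMult Y ∧ (IsFactor Y X ∨
    finrank ℚ Y.H = 2 ∧ ∃ d : ℚ, Unbalanced Y d ∧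
      ∃ Y' : AV, IsFactor Y' X ∧ ¬ HasCMult Y' ∧ Unbalanced Y' d)

/-- The multiplicities on the tangent space. -/
theorem KW.unbalanced {a : ℕ} {Z : Matrix (Fin a) (Fin a) ℂ} (h : PM Z)
    {U : Submodule ℂ (Fin a ⊕ Fin a → ℂ)} {φ : Matrix (Fin a ⊕ Fin a) (Fin a ⊕ Fin a) ℚ} {α : ℂ}
    {d : ℚ} (k : KW Z U φ α d) (ht : tr Z U ≠ 0) : Unbalanced (AVZ h) d := by
  have hc : qm φ * DZ Z = DZ Z * qm φ := (k.comm _ DZ_mem).symm
  obtain ⟨Ψ, hΨ⟩ := h.cht.hom h.cht (R := φ) (by rw [DJ_JR]; exact hc)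
  refine ⟨k.pos, Matrix.toLin' φ, Ψ, α, fun v => ?_, fun w => ?_, k.al, fun h0 => ht ?_⟩
  · rw [toLin'_apply]
    exact hΨ v
  · rw [toLin'_apply, toLin'_apply]
    change φ *ᵥ (φ *ᵥ w) = _
    rw [mulVec_mulVec, k.sq, neg_mulVec, smul_mulVec, one_mulVec]
  · have h1 := pd_sig h hc hΨ α k.mem
    have h2 : ∀ v, v ∈ cjS cc U ↔ qm φ *ᵥ v = (-α) • v := by
      intro v
      rw [k.cj, k.cc_al]
    have h3 := pd_sig h hc hΨ (-α) h2
    have h4 : Ψ - (-α) • LinearMap.id = Ψ + α • LinearMap.id := by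
      refine LinearMap.ext fun v => ?_
      simp only [LinearMap.sub_apply, LinearMap.add_apply, LinearMap.smul_apply]
      module
    rw [h4, pd_cc] at h3
    unfold tr
    rw [h1, h3]
    have h5 : finrank ℂ (LinearMap.ker (Ψ - α • LinearMap.id)) =
        finrank ℂ (LinearMap.ker (Ψ + α • LinearMap.id)) := h0
    rw [h5, sub_self]

section ell

variable {d : ℚ}

theorem simpleE (hd : 0 < d) : IsSimpleAV (ZE (fun _ : Fin 1 => d) (fun _ => 1)) := by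
  intro U hU
  have hpm := pmE (M := 1) (fun _ => hd) (l := fun _ => 1) (fun _ => one_pos)
  have hle := Submodule.finrank_le U
  rw [finrank_fintype_fun_eq_card, Fintype.card_sum, Fintype.card_fin] at hle
  rcases Nat.lt_or_ge (finrank ℚ U) 1 with h0 | h0
  · left
    rw [← Submodule.finrank_eq_zero (R := ℚ)]
    omega
  rcases Nat.lt_or_ge 1 (finrank ℚ U) with h2 | h2
  · right
    apply Submodule.eq_top_of_finrank_eq
    rw [finrank_fintype_fun_eq_card, Fintype.card_sum, Fintype.card_fin]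
    omega
  exfalso
  have h1 : finrank ℚ U = 1 := by omega
  obtain ⟨w, hw0, hw⟩ := finrank_eq_one_iff'.1 h1
  obtain ⟨P, I, hP1, hP2, hI1, hI2⟩ := hpm.cht.ex
  have hsp : ∀ x ∈ Submodule.span ℝ (perOne (ZE (fun _ : Fin 1 => d) (fun _ => 1)) '' (U : Set (Fin 1 ⊕ Fin 1 → ℚ))),
      ∃ r : ℝ, x = r • perOne (ZE (fun _ : Fin 1 => d) (fun _ => 1)) (w : Fin 1 ⊕ Fin 1 → ℚ) := by
    intro x hx
    induction hx using Submodule.span_induction with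
    | mem x hx =>
      obtain ⟨u, hu, rfl⟩ := hx
      obtain ⟨c, hc⟩ := hw ⟨u, hu⟩
      have hc' : c • (w : Fin 1 ⊕ Fin 1 → ℚ) = u := congrArg Subtype.val hc
      refine ⟨c, ?_⟩
      rw [← hc', ← hP1, ← hP1, ← map_smul]
      congr 1
      funext i
      simp
    | zero => exact ⟨0, by rw [zero_smul]⟩
    | add x y _ _ hx hy =>
      obtain ⟨r, rfl⟩ := hx
      obtain ⟨s, rfl⟩ := hy
      exact ⟨r + s, by rw [add_smul]⟩
    | smul c x _ hx =>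
      obtain ⟨r, rfl⟩ := hx
      exact ⟨c * r, by rw [mul_smul]⟩
  have h3 := hU _ (Submodule.subset_span ⟨_, w.2, rfl⟩)
  obtain ⟨r, hr⟩ := hsp _ h3
  have h4 : perOne (ZE (fun _ : Fin 1 => d) (fun _ => 1)) (w : Fin 1 ⊕ Fin 1 → ℚ) = 0 := by
    have h5 : (Complex.I - (r : ℂ)) •
        perOne (ZE (fun _ : Fin 1 => d) (fun _ => 1)) (w : Fin 1 ⊕ Fin 1 → ℚ) = 0 := by
      rw [sub_smul, hr, sub_eq_zero]
      rfl
    refine (smul_eq_zero.1 h5).resolve_left fun h6 => ?_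
    have h7 := congrArg Complex.im h6
    simp at h7
  apply hw0
  apply Subtype.ext
  rw [← hP1] at h4
  have h5 := congrArg I h4
  rw [hI1, map_zero] at h5
  funext i
  have h6 := congrFun h5 i
  change ((w : Fin 1 ⊕ Fin 1 → ℚ) i : ℚ) = 0
  have h7 : (((w : Fin 1 ⊕ Fin 1 → ℚ) i : ℚ) : ℝ) = 0 := h6
  exact_mod_cast h7

theorem unbE (hd : 0 < d) :
    Unbalanced (AVZ (pmE (M := 1) (fun _ => hd) (l := fun _ => 1) (fun _ => one_pos))) d := by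
  have h1 := trE (M := 1) hd (l := fun _ => 1) (fun _ => one_pos) (s := 1) (Or.inl rfl)
  have hk := kwE (M := 1) hd (l := fun _ => 1) (fun _ => one_pos)
    (γ := ((1 : ℤ) : ℂ) * (Complex.I * rt d)) (by
      rw [Int.cast_one, one_mul]
      exact Irt_sq hd) (ε := 1) (by norm_num)
  refine hk.unbalanced _ ?_
  rw [h1]
  norm_num

theorem cmE (hd : 0 < d) :
    HasCMult (AVZ (pmE (M := 1) (fun _ => hd) (l := fun _ => 1) (fun _ => one_pos))) := by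
  have hpm := pmE (M := 1) (fun _ => hd) (l := fun _ => 1) (fun _ => one_pos)
  have hk := kwE (M := 1) hd (l := fun _ => 1) (fun _ => one_pos) (Irt_sq hd) (ε := 1) (by norm_num)
  have hst := hk.stab
  have hdim := hk.dim
  refine cm_AVZ _ (cm_of_one hpm (simpleE hd) one_pos (U := UE (fun _ : Fin 1 => 1)
    (Complex.I * rt d)) ⟨fun h0 => ?_, hst, fun W hW _ => ?_⟩ hdim)
  · rw [h0, finrank_bot] at hdim
    exact absurd hdim (by norm_num)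
  · rcases Nat.eq_zero_or_pos (finrank ℂ W) with h1 | h1
    · left
      exact Submodule.finrank_eq_zero.1 h1
    · right
      refine Submodule.eq_of_le_of_finrank_le hW ?_
      rw [hdim]
      exact h1

end ell

section total

variable {G : ℕ} {Z : Matrix (Fin G) (Fin G) ℂ}

theorem CX.tr_cj {W : Submodule ℂ (Fin G ⊕ Fin G → ℂ)} {a : ℕ} {Z' : Matrix (Fin a) (Fin a) ℂ}
    {E : Matrix (Fin G ⊕ Fin G) (Fin a ⊕ Fin a) ℚ} {F : Matrix (Fin a ⊕ Fin a) (Fin G ⊕ Fin G) ℚ}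
    (k : CX Z W a Z' E F) (hW : Stab (LZ Z) W) (σ : ℂ ≃+* ℂ) :
    tr Z' (cjS σ (W.map (ml F))) = tr Z (cjS σ W) := by
  rw [cjS_ml]
  exact k.fac.tr_map (inj_cj k.inj σ) (hW.cj gal_LZ σ)

theorem CX.qmat_comm {W : Submodule ℂ (Fin G ⊕ Fin G → ℂ)} {a : ℕ} {Z' : Matrix (Fin a) (Fin a) ℂ}
    {E : Matrix (Fin G ⊕ Fin G) (Fin a ⊕ Fin a) ℚ} {F : Matrix (Fin a ⊕ Fin a) (Fin G ⊕ Fin G) ℚ}
    (k : CX Z W a Z' E F) (h : PM Z) {q : (Fin G ⊕ Fin G → ℂ) →ₗ[ℂ] W}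
    (hq : ∀ g x, (q (RZ Z g x) : Fin G ⊕ Fin G → ℂ) = RZ Z g (q x)) (σ : ℂ ≃+* ℂ) :
    qmat F q * DS Z σ = DS Z' σ * qmat F q := by
  have h1 := (rz_equiv h stab_top (W.subtype.comp q)).1 (fun g u _ => hq g u)
  have h2 : ∀ v, q (DS Z σ *ᵥ v) = DS Z σ *ᵥ (q v : Fin G ⊕ Fin G → ℂ) := fun v =>
    h1 _ (DS_mem σ) v trivial
  apply Matrix.toLin'.injective
  refine LinearMap.ext fun v => ?_
  rw [Matrix.toLin'_apply, Matrix.toLin'_apply, ← mulVec_mulVec, ← mulVec_mulVec, qmat_mulVec,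
    qmat_mulVec, h2, ml_apply, ml_apply, mulVec_mulVec, mulVec_mulVec, k.fac.fds]

/-- The determinant form of a line is a linear form. -/
theorem CX.exists_form {W : Submodule ℂ (Fin G ⊕ Fin G → ℂ)} {a : ℕ}
    {Z' : Matrix (Fin a) (Fin a) ℂ}
    {E : Matrix (Fin G ⊕ Fin G) (Fin a ⊕ Fin a) ℚ} {F : Matrix (Fin a ⊕ Fin a) (Fin G ⊕ Fin G) ℚ}
    (k : CX Z W a Z' E F) (hW : IrS (LZ Z) W) {ι : Type} [Fintype ι] [DecidableEq ι]
    (f : Basis ι ℂ W) : ∃ (y0 : ι) (μ : (Fin a ⊕ Fin a → ℂ) →ₗ[ℂ] ℂ), (∀ y, y = y0) ∧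
      (∀ w : ι → W, f.det w = μ (ml F (w y0))) ∧
      ∀ (σ : ℂ ≃+* ℂ) (x : Fin a ⊕ Fin a → ℂ),
        μ (DS Z' σ *ᵥ x) = (tr Z (cjS σ.symm W) : ℂ) * μ x := by
  have hne : ∃ u ∈ W, ml F u ≠ 0 := by
    obtain ⟨u, hu, hu0⟩ := Submodule.exists_mem_ne_zero_of_ne_bot hW.1
    exact ⟨u, hu, fun h0 => hu0 (k.inj u hu h0)⟩
  have hW' := k.fac.irr hW hne
  obtain ⟨μ, hμ1, hμ2⟩ := exists_mu k.pm hW' (by rw [finrank_ml k.inj]; exact k.dim)
  have hcard : Fintype.card ι = 1 := by rw [← finrank_eq_card_basis f, k.dim]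
  obtain ⟨y0, hy0⟩ := Fintype.card_eq_one_iff.1 hcard
  obtain ⟨w, hw0, hw⟩ := finrank_eq_one_iff'.1 k.dim
  have hμw : μ (ml F w) ≠ 0 := by
    intro h0
    have h1 := hμ1 _ (Submodule.mem_map_of_mem w.2) h0
    exact hw0 (Subtype.ext (k.inj _ w.2 h1))
  let c : ℂ := f.det (fun _ => w) * (μ (ml F w))⁻¹
  refine ⟨y0, c • μ, hy0, fun v => ?_, fun σ x => ?_⟩
  · obtain ⟨t, ht⟩ := hw (v y0)
    have hv : v = fun _ => t • w := by
      funext y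
      rw [hy0 y, ht]
    have h2 : f.det (fun _ : ι => t • w) = t * f.det (fun _ => w) := by
      have h3 := f.det.toMultilinearMap.map_smul_univ (fun _ => t) (fun _ : ι => w)
      rw [Finset.prod_const, Finset.card_univ, hcard, pow_one, smul_eq_mul] at h3
      exact h3
    rw [hv]
    beta_reduce
    rw [h2, LinearMap.smul_apply, smul_eq_mul, Submodule.coe_smul, map_smul, map_smul, smul_eq_mul]
    have h4 : c * μ (ml F w) = f.det (fun _ => w) := by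
      change f.det (fun _ => w) * (μ (ml F w))⁻¹ * μ (ml F w) = _
      rw [mul_assoc, inv_mul_cancel₀ hμw, mul_one]
    linear_combination -t * h4
  · rw [LinearMap.smul_apply, LinearMap.smul_apply, hμ2, k.tr_cj hW.2.1, smul_eq_mul, smul_eq_mul]
    ring

/-- Balanced products of determinant forms belong to the system. -/
theorem det_NA3 (𝒜 : Sys) (h : PM Z) {S : Type} [Fintype S]
    (W : S → Submodule ℂ (Fin G ⊕ Fin G → ℂ))
    (hW : ∀ q, IrS (LZ Z) (W q))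
    (hK : ∀ q, (∃ (a : ℕ) (Z' : Matrix (Fin a) (Fin a) ℂ)
      (E : Matrix (Fin G ⊕ Fin G) (Fin a ⊕ Fin a) ℚ) (F : Matrix (Fin a ⊕ Fin a) (Fin G ⊕ Fin G) ℚ)
      (φ : Matrix (Fin a ⊕ Fin a) (Fin a ⊕ Fin a) ℚ) (α : ℂ) (d : ℚ),
        KX Z (W q) a Z' E F φ α d ∧ IsSimpleAV Z' ∧ 0 < a ∧
          ∀ h₂ : PM Z', ¬ HasCMult (AVZ h₂)) ∨
      ∃ (a : ℕ) (Z' : Matrix (Fin a) (Fin a) ℂ) (E : Matrix (Fin G ⊕ Fin G) (Fin a ⊕ Fin a) ℚ)
        (F : Matrix (Fin a ⊕ Fin a) (Fin G ⊕ Fin G) ℚ), CX Z (W q) a Z' E F)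
    (hbal : ∀ τ : ℂ ≃+* ℂ, ∑ q, tr Z (cjS τ (W q)) = 0)
    (ι : S → Type) [∀ q, Fintype (ι q)] [∀ q, DecidableEq (ι q)] (f : ∀ q, Basis (ι q) ℂ (W q))
    (p : ∀ q, ι q → (Fin G ⊕ Fin G → ℂ) →ₗ[ℂ] W q)
    (hp : ∀ q y g x, (p q y (RZ Z g x) : Fin G ⊕ Fin G → ℂ) = RZ Z g (p q y x))
    (hall : ∀ (Q : Type) [Fintype Q] [DecidableEq Q] (a : Q → ℕ)
      (Z' : ∀ q, Matrix (Fin (a q)) (Fin (a q)) ℂ) (h' : ∀ q, PM (Z' q)), (∀ q, GoodF Z (h' q)) →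
      ∀ (r : (BQ a → ℚ) [⋀^Q]→ₗ[ℚ] ℚ), IsHodge (perQ Z') r → 𝒜.A (AVQ h') Q r)
    (ψ : MultilinearMap ℂ (fun _ : (Σ q, ι q) => Fin G ⊕ Fin G → ℂ) ℂ)
    (hψ : ∀ v, ψ v = ∏ q, (f q).det (fun y => p q y (v ⟨q, y⟩))) :
    ψ ∈ NA 𝒜 h.cht ⟨_, h.polar⟩ (Σ q, ι q) := by
  classical
  let Pq : S → Prop := fun q => ∃ (a : ℕ) (Z' : Matrix (Fin a) (Fin a) ℂ)
      (E : Matrix (Fin G ⊕ Fin G) (Fin a ⊕ Fin a) ℚ) (F : Matrix (Fin a ⊕ Fin a) (Fin G ⊕ Fin G) ℚ)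
      (φ : Matrix (Fin a ⊕ Fin a) (Fin a ⊕ Fin a) ℚ) (α : ℂ) (d : ℚ),
        KX Z (W q) a Z' E F φ α d ∧ IsSimpleAV Z' ∧ 0 < a ∧ ∀ h₂ : PM Z', ¬ HasCMult (AVZ h₂)
  have hC : ∀ q : {q // ¬ Pq q}, ∃ (a : ℕ) (Z' : Matrix (Fin a) (Fin a) ℂ)
      (E : Matrix (Fin G ⊕ Fin G) (Fin a ⊕ Fin a) ℚ) (F : Matrix (Fin a ⊕ Fin a) (Fin G ⊕ Fin G) ℚ),
      CX Z (W q) a Z' E F := fun q => (hK q).resolve_left q.2
  choose a' Z' E' F' k using hC
  have hK' : ∀ q : {q // Pq q}, Pq q := fun q => q.2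
  choose a₁ Z₁ E₁ F₁ φ₁ α₁ d₁ k₁ hs₁ hp₁ hn₁ using hK'
  choose y0 μ hy0 hdet hμ using fun q : {q // ¬ Pq q} => (k q).exists_form (hW q) (f q)
  -- the equivalence of the index sets
  let fw : (Σ q : {q // Pq q}, ι q) ⊕ {q // ¬ Pq q} → Σ q, ι q :=
    Sum.elim (fun x => ⟨x.1.1, x.2⟩) fun q => ⟨q.1, y0 q⟩
  have hfw : Function.Bijective fw := by
    constructor
    · rintro (⟨⟨q, hq⟩, y⟩ | ⟨q, hq⟩) (⟨⟨q', hq'⟩, y'⟩ | ⟨q', hq'⟩) hxy
      · have h1 : (⟨q, y⟩ : Σ q, ι q) = ⟨q', y'⟩ := hxy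
        obtain rfl : q = q' := congrArg Sigma.fst h1
        have h2 : y = y' := by simpa using h1
        rw [h2]
      · exfalso
        have h1 : q = q' := congrArg Sigma.fst hxy
        exact hq' (h1 ▸ hq)
      · exfalso
        have h1 : q = q' := congrArg Sigma.fst hxy
        exact hq (h1 ▸ hq')
      · have h1 : q = q' := congrArg Sigma.fst hxy
        subst h1
        rfl
    · rintro ⟨q, y⟩
      by_cases hq : Pq q
      · exact ⟨Sum.inl ⟨⟨q, hq⟩, y⟩, rfl⟩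
      · refine ⟨Sum.inr ⟨q, hq⟩, ?_⟩
        have h1 := hy0 ⟨q, hq⟩ y
        change (⟨q, y0 ⟨q, hq⟩⟩ : Σ q, ι q) = ⟨q, y⟩
        rw [← h1]
  let e0 : (Σ q : {q // Pq q}, ι q) ⊕ {q // ¬ Pq q} ≃ Σ q, ι q := Equiv.ofBijective fw hfw
  let ψ' := ψ.domDomCongr e0.symm
  have hψ' : ∀ v, ψ' v = (∏ q : {q // Pq q}, (f q).det (fun y => p q y (v (Sum.inl ⟨q, y⟩)))) *
      ∏ s : {q // ¬ Pq q}, μ s (qmat (F' s) (p s (y0 s)) *ᵥ v (Sum.inr s)) := by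
    intro v
    rw [MultilinearMap.domDomCongr_apply, hψ, ← Fintype.prod_subtype_mul_prod_subtype Pq]
    congr 1
    · refine Finset.prod_congr rfl fun q _ => ?_
      congr 1
      funext y
      have h1 : e0.symm ⟨q.1, y⟩ = Sum.inl ⟨q, y⟩ := by
        rw [Equiv.symm_apply_eq]
        rfl
      rw [h1]
    · refine Finset.prod_congr rfl fun q _ => ?_
      rw [hdet q]
      have h1 : e0.symm ⟨q.1, y0 q⟩ = Sum.inr q := by
        rw [Equiv.symm_apply_eq]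
        rfl
      rw [h1, qmat_mulVec]
  have key : ψ' ∈ NA 𝒜 h.cht ⟨_, h.polar⟩ ((Σ q : {q // Pq q}, ι q) ⊕ {q // ¬ Pq q}) := by
    refine det_NA2 𝒜 h (S := {q // Pq q}) (S' := {q // ¬ Pq q}) (fun q => W q)
      (fun q => (hW q).2.1) k₁ (fun q => ι q) (fun q => f q) (fun q => p q)
      (fun q => hp q) (fun s => (k s).pm) μ (fun s σ => tr Z (cjS σ.symm (W s))) hμ
      (fun s => qmat (F' s) (p s (y0 s)))
      (fun s σ => (k s).qmat_comm h (hp s (y0 s)) σ) (fun σ => ?_) (fun M dd hdd hdq r hr => ?_) ψ' hψ'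
    · rw [← hbal σ.symm]
      exact Fintype.sum_subtype_add_sum_subtype Pq (fun q => tr Z (cjS σ.symm (W q)))
    · refine hall _ _ _ (pmQ (fun s => (k s).pm) hdd) ?_ r hr
      rintro (s | j)
      · exact ⟨(k s).simple, (k s).pos, (k s).cm, Or.inl ⟨E' s, F' s, (k s).fac⟩⟩
      · obtain ⟨q, hq1, hq2⟩ := hdq j
        refine ⟨simpleE (hdd j), one_pos, cmE (hdd j), Or.inr ⟨rfl, dd j, unbE (hdd j), a₁ q, Z₁ q,
          (k₁ q).pm, E₁ q, F₁ q, (k₁ q).fac, hs₁ q, hp₁ q, hn₁ q _, ?_⟩⟩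
        rw [hq1]
        exact (k₁ q).kw.unbalanced (k₁ q).pm hq2
  refine (clo_NA 𝒜 h.cht ⟨_, h.polar⟩).reindex e0 key ψ fun v => ?_
  rw [MultilinearMap.domDomCongr_apply]
  congr 1
  funext x
  rw [Equiv.apply_symm_apply]

end total

end

end Pool.Agent.R915
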