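import Mathlib
import Pool.Agent.R915.M1
import Pool.Agent.R915.E7
import Pool.Agent.R915.E8
import Pool.Agent.R915.E9
import Pool.Agent.R915.D8

/-!
# The local conditions for the classes of simple abelian varieties
-/

set_option linter.unusedSectionVars false

namespace Pool.Agent.R915

open Matrix Module Pool.Agent.W437.HC Pool.Agent.W437.HD Pool.Agent.TH504.CB Pool.Agent.Y90
open Pool.Agent.W548.Odd hiding cv
open Pool.Agent.H204R3.CM (IsHodge)
open Pool.Agent.W437.HP (cK cK_mul cK_one)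
open Polynomial

noncomputable section

section Z

variable {g : ℕ} {Z : Matrix (Fin g) (Fin g) ℂ} (h : PM Z)

theorem RealMult.lc (hs : IsSimple (AVZ h)) (hg : 0 < g) (k : RealMult (AVZ h))
    {U : Submodule ℂ (Fin g ⊕ Fin g → ℂ)} (hU : IrS (LZ Z) U) : LC h U := by
  obtain ⟨a, ha, hd⟩ := k
  have k := ha.rf h
  let e : Matrix (Fin g ⊕ Fin g) (Fin g ⊕ Fin g) ℚ ≃ₐ[ℚ] Module.End ℚ (Fin g ⊕ Fin g → ℚ) :=
    Matrix.toLinAlgEquiv'
  have hea : e (LinearMap.toMatrix' a) = a := Matrix.toLin'_toMatrix' a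
  have hmp : minpoly ℚ (LinearMap.toMatrix' a) = minpoly ℚ a := by
    have h4 := minpoly.algEquiv_eq e (LinearMap.toMatrix' a)
    rw [hea] at h4
    exact h4.symm
  rw [finrank_AVZ] at hd
  refine k.lc h (simple_AVZ h hs) hg hU (k.rk1 h (simple_AVZ h hs) hg ?_ hU)
  rw [hmp]
  exact hd

theorem QuadMult.lc (k : QuadMult (AVZ h))
    {U : Submodule ℂ (Fin g ⊕ Fin g → ℂ)} (hU : IrS (LZ Z) U) : LC h U := by
  obtain ⟨d, f, k, ⟨Ψ, hΨ, hsig⟩, h6⟩ := k
  rw [finrank_AVZ] at h6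
  have q := k.qf h
  have hΨ' : ∀ v, Ψ (perOne Z v) = perOne Z (LinearMap.toMatrix' f *ᵥ v) := by
    intro v
    have h2 := hΨ v
    have h3 : LinearMap.toMatrix' f *ᵥ v = f v := by
      rw [← Matrix.toLin'_apply, Matrix.toLin'_toMatrix']
    rw [h3]
    exact h2
  have key : ∀ (s : ℂ), s * s = -(d : ℂ) → ∀ U1 : Submodule ℂ (Fin g ⊕ Fin g → ℂ),
      (∀ v, v ∈ U1 ↔ qm (LinearMap.toMatrix' f) *ᵥ v = s • v) → pd Z U1 ≤ 3 := by
    intro s hs U1 hU1
    rw [pd_sig h q.comm hΨ' s hU1]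
    exact hsig s hs
  refine q.lc3 h (fun U hU => ?_) (fun h7 => ?_) hU
  · obtain ⟨α, hα, hm⟩ := q.exists_root h hU
    refine ⟨key α hα U hm, ?_⟩
    have h1 := key (-α) (by rw [neg_mul_neg]; exact hα) (cjS cc U) (fun v => by
      rw [q.cj_mem hα hm, q.cc_root hα])
    rwa [pd_cc] at h1
  · have h8 : Matrix.toLin' (LinearMap.toMatrix' f) = f := Matrix.toLin'_toMatrix' f
    rw [h8]
    exact h6 (by omega)

theorem FiveDim.lc (hs : IsSimple (AVZ h)) (hg : 0 < g) (k : FiveDim (AVZ h))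
    {U : Submodule ℂ (Fin g ⊕ Fin g → ℂ)} (hU : IrS (LZ Z) U) : LC h U := by
  obtain ⟨h1, h2⟩ := k
  rw [finrank_AVZ] at h1
  have hmp : minpoly ℚ (1 : Matrix (Fin g ⊕ Fin g) (Fin g ⊕ Fin g) ℚ) ∣ X - 1 := by
    refine minpoly.dvd ℚ _ ?_
    rw [map_sub, aeval_X, map_one, sub_self]
  have q1 : qm (1 : Matrix (Fin g ⊕ Fin g) (Fin g ⊕ Fin g) ℚ) = 1 := by
    ext i j
    by_cases hij : i = j
    · subst hij
      simp [qm]
    · simp [qm, hij]
  have k : RF Z (1 : Matrix (Fin g ⊕ Fin g) (Fin g ⊕ Fin g) ℚ) := by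
    refine ⟨?_, fun z hz => ?_, fun R hR _ => ?_⟩
    · rw [q1, Matrix.one_mul, Matrix.mul_one]
    · obtain ⟨p, hp⟩ := hmp
      have h3 : aeval z (X - 1 : ℚ[X]) = 0 := by
        rw [hp, map_mul, hz, zero_mul]
      rw [map_sub, aeval_X, map_one, sub_eq_zero] at h3
      rw [h3, map_one]
    · obtain ⟨c, hc⟩ := h2 (Matrix.toLin' R) ((hom_iff h R).2 hR)
      have h3 : R = c • 1 := by
        have h4 := congrArg LinearMap.toMatrix' hc
        rwa [LinearMap.toMatrix'_toLin', map_smul, LinearMap.toMatrix'_one] at h4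
      rw [h3]
      exact Subalgebra.smul_mem _ (one_mem _) c
  have hT : VE (1 : Matrix (Fin g ⊕ Fin g) (Fin g ⊕ Fin g) ℚ) 1 = ⊤ := by
    rw [eq_top_iff]
    intro v _
    rw [mem_VE, q1, one_mulVec, one_smul]
  have hne : VE (1 : Matrix (Fin g ⊕ Fin g) (Fin g ⊕ Fin g) ℚ) 1 ≠ ⊥ := by
    rw [hT]
    intro h3
    apply hU.1
    rw [eq_bot_iff, ← h3]
    exact le_top
  have hir := k.irr h (simple_AVZ h hs) hne
  rw [hT] at hir
  have hUT : U = ⊤ := by
    rcases hir.2.2 U le_top hU.2.1 with h3 | h3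
    · exact absurd h3 hU.1
    · exact h3
  subst hUT
  exact k.lc h (simple_AVZ h hs) hg hU (rk1_five h (simple_AVZ h hs) (by omega) hU)

end Z

end

end Pool.Agent.R915
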