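import Mathlib
import Pool.Agent.R915.G4
import Pool.Agent.R915.M2

/-!
# The reduction to complex multiplication
-/

set_option linter.unusedSectionVars false

namespace Pool.Agent.R915

open Matrix Module Pool.Agent.W437.HC Pool.Agent.W437.HD Pool.Agent.TH504.CB Pool.Agent.Y90
open Pool.Agent.W548.Odd hiding cv
open Pool.Agent.H204R3.CM (IsHodge)
open Pool.Agent.H204R3.SP (Kills bil2 IsTate)
open Pool.Agent.W522.U (exists_reps exists_st Du)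
open Pool.Agent.W437.HP (cK cK_mul cK_one)

noncomputable section

section loc

variable {G : ℕ} {Z : Matrix (Fin G) (Fin G) ℂ}

/-- The local conditions for all simple factors without complex multiplication. -/
def LCF' (Z : Matrix (Fin G) (Fin G) ℂ) : Prop :=
  ∀ (a : ℕ) (Z' : Matrix (Fin a) (Fin a) ℂ) (E : Matrix (Fin G ⊕ Fin G) (Fin a ⊕ Fin a) ℚ)
    (F : Matrix (Fin a ⊕ Fin a) (Fin G ⊕ Fin G) ℚ), Fac Z Z' E F → ∀ h' : PM Z', IsSimpleAV Z' →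
    0 < a → (¬ HasCMult (AVZ h') ∧ ∀ U, IrS (LZ Z') U → LC h' U) ∨ HasCMult (AVZ h')

/-- The classification of the irreducible submodules. -/
theorem loc2 (h : PM Z) (hs : LCF' Z) {U : Submodule ℂ (Fin G ⊕ Fin G → ℂ)}
    (hU : IrS (LZ Z) U) :
    (2 ≤ finrank ℂ U → Rk1 Z U ∧ ∀ (σ : ℂ ≃+* ℂ) (c : ℂ), ∃ u ∈ U, DS Z σ *ᵥ u ≠ c • u) ∧
      ((SDu Z U ∧ 2 ≤ finrank ℂ U) ∨ (∃ a Z' E F φ α d, KX Z U a Z' E F φ α d ∧ IsSimpleAV Z' ∧
        0 < a ∧ ∀ h₂ : PM Z', ¬ HasCMult (AVZ h₂)) ∨ ∃ a Z' E F, CX Z U a Z' E F) := by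
  obtain ⟨a, Z', E, F, hf, h', hs', ha, h0⟩ := exists_fac h hU.1
  have hinj := hf.inj hU h0
  have hU' := hf.irr hU h0
  rcases hs a Z' E F hf h' hs' ha with ⟨hnc, hs1⟩ | hcm
  swap
  · have h1 := line_of_comm (comm_of_cm h' hs' ha hcm) hU'
    rw [finrank_ml hinj] at h1
    exact ⟨fun h2 => by omega, Or.inr (Or.inr ⟨a, Z', E, F, hf, h', hs', ha, hcm, hinj, h1⟩)⟩
  obtain ⟨h1, hns, h2⟩ := hs1 _ hU'
  rw [finrank_ml hinj] at h1 h2 hns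
  refine ⟨fun hn => ⟨?_, fun σ c => ?_⟩, ?_⟩
  · obtain ⟨D, hD, N', hN', h3, h4, h5⟩ := h1 hn
    obtain ⟨ε, hε, rfl⟩ : ∃ ε : ℂ, (ε = 1 ∨ ε = -1) ∧ D = ε • DZ Z' := by
      rcases hD with rfl | rfl
      · exact ⟨1, Or.inl rfl, (one_smul _ _).symm⟩
      · exact ⟨-1, Or.inr rfl, (neg_one_smul _ _).symm⟩
    obtain ⟨N, hN, h6, h7, rfl⟩ := hf.lift_rk h h' ε hε hN' h3 h4
    refine ⟨ε • DZ Z, ?_, N, hN, h6, h7, ?_⟩
    · rcases hε with rfl | rfl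
      · exact Or.inl (one_smul _ _)
      · exact Or.inr (neg_one_smul _ _)
    · rw [act_mem hf hN hinj (hU.2.1 N hN)]
      exact h5
  · obtain ⟨u', ⟨u, hu, rfl⟩, hu'⟩ := hns hn σ c
    refine ⟨u, hu, fun h3 => hu' ?_⟩
    have h4 := hf.act (DS_mem σ) u
    rw [h3, hf.fds, Matrix.mul_assoc, hf.fe', Matrix.mul_one] at h4
    rw [← h4, map_smul]
  · rcases h2 with ⟨⟨b, ⟨u', ⟨u, hu, rfl⟩, v', ⟨v, hv, rfl⟩, huv⟩, hb⟩, hn⟩ |
      ⟨φ, α, d, hk, hsm, hdc⟩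
    · refine Or.inl ⟨⟨b.compl₁₂ (ml F) (ml F), ⟨u, hu, v, hv, huv⟩, fun X hX u hu v hv => ?_⟩, hn⟩
      rw [LinearMap.compl₁₂_apply, LinearMap.compl₁₂_apply, hf.act hX, hf.act hX]
      exact hb _ (hf.comp hX).1 _ ⟨u, hu, rfl⟩ _ ⟨v, hv, rfl⟩
    · exact Or.inr (Or.inl ⟨a, Z', E, F, φ, α, d, ⟨hf, h', hinj, hk, hsm, hdc⟩, hs', ha, fun _ => hnc⟩)

end loc

section main

variable {G : ℕ} {Z : Matrix (Fin G) (Fin G) ℂ} (𝒜 : Sys) (h : PM Z) (hs : LCF' Z)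
  (hbase : ∀ (Q : Type) [Fintype Q] [DecidableEq Q] (a : Q → ℕ)
      (Z' : ∀ q, Matrix (Fin (a q)) (Fin (a q)) ℂ) (h' : ∀ q, PM (Z' q)), (∀ q, GoodF Z (h' q)) →
      ∀ (r : (BQ a → ℚ) [⋀^Q]→ₗ[ℚ] ℚ), IsHodge (perQ Z') r → 𝒜.A (AVQ h') Q r)
include h hs hbase

theorem inv_memC {m : ℕ}
    (φ : MultilinearMap ℂ (fun _ : Fin m × Fin 2 => Fin G ⊕ Fin G → ℂ) ℂ)
    (hφ : ∀ (g : Gam (GG (LZ Z))) v, φ (fun k => RZ Z g (v k)) = φ v) :
    φ ∈ NA 𝒜 h.cht ⟨_, h.polar⟩ (Fin m × Fin 2) := by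
  have hSI : ∀ {U}, W522.U.SI (RZ Z) U ↔ IrS (LZ Z) U := fun {U} => si_iff h.genI
  obtain ⟨s, W, hW, hWW, hall⟩ := exists_reps (rz_proj h)
  obtain ⟨st, hst, hDu, hDu'⟩ := exists_st (χ := 1) (rz_proj h) (om G) om_nd (rz_om h) W hW hWW hall
  refine forms_mem' (χ := 1) (fun Δ hΔ => fi_top Δ hΔ) (om G) om_nd (rz_om h) ?_ ?_ ?_ (rz_proj h)
    W hW hWW hall st hst hDu hDu' (fun κ _ => NA 𝒜 h.cht ⟨_, h.polar⟩ κ) (clo_NA _ _ _) (pair_memA 𝒜 h)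
    ?_ φ ?_
  · intro U hU hn
    exact rz_unip h ((loc2 h hs (hSI.1 hU)).1 hn).1
  · intro U hU hn
    exact rz_line h (hSI.1 hU) hn
  · intro U U' hU hU' hn _ ψ hT
    exact rz_twist h (hSI.1 hU) (hSI.1 hU') ((loc2 h hs (hSI.1 hU)).1 hn).2 ψ hT
  · intro a ha hag ι _ _ f p hp ψ hψ
    refine det_NA3 𝒜 h (fun q : (Σ i, Fin (a i).toNat) => W q.1) (fun q => hSI.1 (hW q.1)) ?_
      (bal_sum h W (fun i => hSI.1 (hW i)) st hst hDu a ha hag) ι f p hp hbase ψ hψ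
    rintro ⟨i, q⟩
    rcases (loc2 h hs (hSI.1 (hW i))).2 with ⟨h1, -⟩ | h1
    · exfalso
      have h2 := hDu' i i ((rz_du h (hSI.1 (hW i)).2.1 (hSI.1 (hW i)).2.1).2 h1)
      have h3 := ha i
      rw [← h2] at h3
      have h4 := q.2
      omega
    · exact h1
  · refine ⟨⊤, inferInstance, fun g _ v => ?_⟩
    rw [MonoidHom.one_apply, one_pow, one_mul]
    exact hφ g v

/-- Hodge classes belong to the system. -/
theorem cm_of_hodge {κ : Type} [Finite κ] (f : (Fin G ⊕ Fin G → ℚ) [⋀^κ]→ₗ[ℚ] ℚ)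
    (hf : IsHodge (perOne Z) f) : 𝒜.A (AVZ h) κ f := by
  classical
  let _ : Fintype κ := Fintype.ofFinite κ
  refine altQ_altA 𝒜 h f ?_
  set φ := evalM (cst ℂ (CF f.toMultilinearMap)) with hφ
  have hinv := hodge_inv h hf
  rcases Nat.even_or_odd (Fintype.card κ) with he | ho
  · obtain ⟨m, hm⟩ := he
    have e : κ ≃ Fin m × Fin 2 := Fintype.equivOfCardEq (by
      rw [Fintype.card_prod, Fintype.card_fin, Fintype.card_fin, hm]
      ring)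
    have h1 := inv_memC 𝒜 h hs hbase (φ.domDomCongr e) (fun g v => by
      rw [MultilinearMap.domDomCongr_apply, MultilinearMap.domDomCongr_apply]
      exact hinv g _)
    have h2 : φ ∈ NA 𝒜 h.cht ⟨_, h.polar⟩ κ := (clo_NA _ _ _).reindex e.symm h1 φ fun v => by
      rw [MultilinearMap.domDomCongr_apply]
      congr 1
      funext k
      simp
    exact h2 _ _
  · have h0 : φ = 0 := by
      refine MultilinearMap.ext fun v => ?_
      have h1 := hinv (gt (D := ph _ (DZ Z)) (by rw [← map_mul, DZ_sq h.det, map_one])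
        (mem_GG.2 DZ_mem) (-1)) v
      have h2 : (fun k => RZ Z (gt (D := ph _ (DZ Z)) (by rw [← map_mul, DZ_sq h.det, map_one])
        (mem_GG.2 DZ_mem) (-1)) (v k)) = fun k => (-1 : ℂ) • v k := by
        funext k
        change torE (ph _ (DZ Z)) (-1) (v k) = _
        rw [torE_apply]
        simp only [Units.val_neg, Units.val_one, inv_neg, inv_one]
        module
      rw [h2, MultilinearMap.map_smul_univ, Finset.prod_const, Finset.card_univ,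
        Odd.neg_one_pow ho, neg_one_smul] at h1
      rw [← hφ] at h1
      have h3 : φ v = 0 := by linear_combination (-1 / 2 : ℂ) * h1
      rw [h3]
      rfl
    have h1 : φ ∈ NA 𝒜 h.cht ⟨_, h.polar⟩ κ := by
      rw [h0]
      exact Submodule.zero_mem _
    exact h1 _ _

end main

/-- Simple abelian varieties given by period matrices. -/
theorem simple_of (a : ℕ) {Z' : Matrix (Fin a) (Fin a) ℂ} (h' : PM Z') (hs : IsSimpleAV Z')
    (ha : 0 < a) : IsSimple (AVZ h') := by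
  refine ⟨⟨Pi.single (Sum.inl ⟨0, ha⟩) 1, fun h0 => ?_⟩, fun U hU => hs U hU⟩
  have h1 := congrFun h0 (Sum.inl ⟨0, ha⟩)
  rw [Pi.single_eq_same] at h1
  exact one_ne_zero h1

/-- The reduction to complex multiplication. -/
theorem main_cm (𝒜 : Sys) (X : AV)
    (hs : ∀ (a : ℕ) (Z' : Matrix (Fin a) (Fin a) ℂ) (h' : PM Z') (i : (AVZ h').H →ₗ[ℚ] X.H),
      IsHom (AVZ h') X i → Function.Injective i → IsSimple (AVZ h') → 0 < a →
      (¬ HasCMult (AVZ h') ∧ ∀ U, IrS (LZ Z') U → LC h' U) ∨ HasCMult (AVZ h'))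
    (hC : ∀ (Q : Type) [Fintype Q] [DecidableEq Q] (a : Q → ℕ)
      (Z' : ∀ q, Matrix (Fin (a q)) (Fin (a q)) ℂ) (h' : ∀ q, PM (Z' q)),
      (∀ q, CMFactor X (AVZ (h' q))) → 𝒜.AllHodge (AVQ h')) : 𝒜.AllHodge X := by
  intro κ _ f hf
  obtain ⟨G, Z, h, A, hC'⟩ := exists_ppav (AV.isAV X)
  have hfacX : ∀ (a : ℕ) (Z' : Matrix (Fin a) (Fin a) ℂ) (h' : PM Z')
      (E : Matrix (Fin G ⊕ Fin G) (Fin a ⊕ Fin a) ℚ) (F : Matrix (Fin a ⊕ Fin a) (Fin G ⊕ Fin G) ℚ),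
      Fac Z Z' E F → ∃ i : (AVZ h').H →ₗ[ℚ] X.H, IsHom (AVZ h') X i ∧ Function.Injective i := by
    intro a Z' h' E F hfac
    obtain ⟨Ψ₁, h₁⟩ := h'.cht.hom hC' (R := E) (by rw [DJ_JR, DJ_JR]; exact hfac.de.symm)
    refine ⟨A.symm.toLinearMap.comp (Matrix.mulVecLin E), ⟨Ψ₁, fun v => h₁ v⟩, ?_⟩
    intro x y hxy
    have h2 : E *ᵥ x = E *ᵥ y := A.symm.injective hxy
    have h3 := congrArg (fun v => F *ᵥ v) h2
    beta_reduce at h3
    rw [mulVec_mulVec, mulVec_mulVec, hfac.fe, one_mulVec, one_mulVec] at h3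
    exact h3
  have hLCF : LCF' Z := by
    intro a Z' E F hfac h' hsim ha
    obtain ⟨i, hi1, hi2⟩ := hfacX a Z' h' E F hfac
    exact hs a Z' h' i hi1 hi2 (simple_of a h' hsim ha) ha
  have hall : ∀ (Q : Type) [Fintype Q] [DecidableEq Q] (a : Q → ℕ)
      (Z' : ∀ q, Matrix (Fin (a q)) (Fin (a q)) ℂ) (h' : ∀ q, PM (Z' q)), (∀ q, GoodF Z (h' q)) →
      ∀ (r : (BQ a → ℚ) [⋀^Q]→ₗ[ℚ] ℚ), IsHodge (perQ Z') r → 𝒜.A (AVQ h') Q r := by
    intro Q _ _ a Z' h' hgood r hr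
    refine hC Q a Z' h' (fun q => ?_) Q r hr
    obtain ⟨g1, g2, g3, g4⟩ := hgood q
    refine ⟨simple_of _ (h' q) g1 g2, g3, ?_⟩
    rcases g4 with ⟨E, F, hfac⟩ | ⟨g4, d, g5, a₂, Z₂, h₂, E, F, hfac, hs₂, ha₂, hn₂, g6⟩
    · exact Or.inl ⟨simple_of _ (h' q) g1 g2, hfacX _ _ (h' q) E F hfac⟩
    · refine Or.inr ⟨?_, d, g5, AVZ h₂, ⟨simple_of _ h₂ hs₂ ha₂, hfacX _ _ h₂ E F hfac⟩, hn₂, g6⟩
      rw [finrank_AVZ, g4]
  obtain ⟨Ψ₁, h₁⟩ := h.cht.hom hC' (R := 1) (by rw [cK_one, Matrix.one_mul, Matrix.mul_one])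
  obtain ⟨Ψ₂, h₂⟩ := hC'.hom h.cht (R := 1) (by rw [cK_one, Matrix.one_mul, Matrix.mul_one])
  have e₁ : ∀ w, Ψ₁ (perOne Z w) = X.per (A.symm w) := fun w => by
    rw [h₁, one_mulVec]
    rfl
  have e₂ : ∀ v, Ψ₂ (X.per v) = perOne Z (A v) := fun v => by
    have h3 := h₂ (A v)
    have h4 : (X.per.comp A.symm.toLinearMap.toAddMonoidHom) (A v) = X.per v := by
      change X.per (A.symm (A v)) = X.per v
      rw [LinearEquiv.symm_apply_apply]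
    rwa [h4, one_mulVec] at h3
  have h5 : IsHodge (perOne Z) (f.compLinearMap A.symm.toLinearMap) :=
    isHodge_comp A.symm.toLinearMap Ψ₁ e₁ hf
  have h6 := cm_of_hodge 𝒜 h hLCF hall _ h5
  have h7 := 𝒜.pull (X := X) (Y := AVZ h) A.toLinearMap ⟨Ψ₂, e₂⟩ _ h6
  have h8 : (f.compLinearMap A.symm.toLinearMap).compLinearMap A.toLinearMap = f := by
    ext v
    rw [AlternatingMap.compLinearMap_apply, AlternatingMap.compLinearMap_apply]
    congr 1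
    funext k
    exact A.symm_apply_apply (v k)
  have h9 : 𝒜.A X κ ((f.compLinearMap A.symm.toLinearMap).compLinearMap A.toLinearMap) := h7
  rwa [h8] at h9

end

end Pool.Agent.R915
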