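import Mathlib
import Pool.Agent.R915.G5

/-!
# The reduction to complex multiplication, for families of simple abelian varieties
-/

set_option linter.unusedSectionVars false

namespace Pool.Agent.R915

open Matrix Module Pool.Agent.W437.HC Pool.Agent.W437.HD Pool.Agent.TH504.CB Pool.Agent.Y90
open Pool.Agent.W548.Odd hiding cv
open Pool.Agent.H204R3.CM (IsHodge)
open Pool.Agent.W437.HP (cK cK_mul cK_one)

noncomputable section

/-- Homomorphisms compose. -/
theorem IsHom.comp' {X Y W : AV} {f : X.H →ₗ[ℚ] Y.H} {g : Y.H →ₗ[ℚ] W.H} (hg : IsHom Y W g)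
    (hf : IsHom X Y f) : IsHom X W (g.comp f) := by
  obtain ⟨Ψ, hΨ⟩ := hf
  obtain ⟨Φ, hΦ⟩ := hg
  refine ⟨Φ.comp Ψ, fun v => ?_⟩
  rw [LinearMap.comp_apply, hΨ, hΦ]
  rfl

/-- The tangent map of a surjective homomorphism is surjective. -/
theorem tan_surj {X Y : AV} {f : X.H →ₗ[ℚ] Y.H} {Ψ : X.T →ₗ[ℂ] Y.T}
    (hΨ : ∀ v, Ψ (X.per v) = Y.per (f v)) (hf : Function.Surjective f) :
    Function.Surjective Ψ := by
  have h1 : Submodule.span ℝ (Set.range Y.per) ≤ LinearMap.range (Ψ.restrictScalars ℝ) := by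
    refine Submodule.span_le.2 ?_
    rintro _ ⟨w, rfl⟩
    obtain ⟨v, rfl⟩ := hf w
    exact ⟨X.per v, hΨ v⟩
  rw [Y.span] at h1
  intro t
  obtain ⟨s, hs⟩ := h1 (Submodule.mem_top (x := t))
  exact ⟨s, hs⟩

/-- The inverse of an isomorphism. -/
theorem hom_symm {X Y : AV} (e : X.H ≃ₗ[ℚ] Y.H) (he : IsHom X Y e.toLinearMap) :
    IsHom Y X e.symm.toLinearMap := by
  obtain ⟨Ψ, hΨ⟩ := he
  have h1 : Function.Surjective Ψ := tan_surj hΨ e.surjective
  have h2 : finrank ℂ X.T = finrank ℂ Y.T := by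
    have h3 := e.finrank_eq
    rw [X.rank, Y.rank] at h3
    omega
  have h3 : Function.Injective Ψ := (LinearMap.injective_iff_surjective_of_finrank_eq_finrank h2).2 h1
  let E : X.T ≃ₗ[ℂ] Y.T := LinearEquiv.ofBijective Ψ ⟨h3, h1⟩
  refine ⟨E.symm.toLinearMap, fun v => ?_⟩
  have h4 : E (X.per (e.symm v)) = Y.per v := by
    change Ψ (X.per (e.symm v)) = Y.per v
    rw [hΨ]
    exact congrArg Y.per (e.apply_symm_apply v)
  change E.symm (Y.per v) = X.per (e.symm v)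
  rw [← h4, LinearEquiv.symm_apply_apply]

/-- Images are abelian subvarieties. -/
theorem isSub_range {X Y : AV} {f : X.H →ₗ[ℚ] Y.H} (hf : IsHom X Y f) :
    IsSub Y (LinearMap.range f) := by
  obtain ⟨Ψ, hΨ⟩ := hf
  have h1 : Submodule.span ℝ (Y.per '' (LinearMap.range f : Set Y.H)) =
      LinearMap.range (Ψ.restrictScalars ℝ) := by
    rw [LinearMap.range_eq_map (Ψ.restrictScalars ℝ), ← X.span, Submodule.map_span]
    congr 1
    ext t
    constructor
    · rintro ⟨_, ⟨v, rfl⟩, rfl⟩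
      exact ⟨X.per v, ⟨v, rfl⟩, hΨ v⟩
    · rintro ⟨_, ⟨v, rfl⟩, rfl⟩
      exact ⟨f v, ⟨v, rfl⟩, (hΨ v).symm⟩
  intro x hx
  rw [h1] at hx ⊢
  obtain ⟨s, rfl⟩ := hx
  exact ⟨Complex.I • s, by
    rw [LinearMap.restrictScalars_apply, map_smul]
    rfl⟩

/-- Kernels are abelian subvarieties. -/
theorem isSub_ker {X Y : AV} {f : X.H →ₗ[ℚ] Y.H} (hf : IsHom X Y f) :
    IsSub X (LinearMap.ker f) := by
  classical
  obtain ⟨Ψ, hΨ⟩ := hf
  obtain ⟨W, hW⟩ := Submodule.exists_isCompl (LinearMap.ker f)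
  -- the linear map on the complement is injective
  have hinj : LinearMap.ker (f.comp W.subtype) = ⊥ := by
    rw [LinearMap.ker_eq_bot']
    intro w hw
    have h1 : (w : X.H) ∈ LinearMap.ker f ⊓ W := ⟨hw, w.2⟩
    rw [hW.inf_eq_bot, Submodule.mem_bot] at h1
    exact Subtype.ext h1
  let bW := finBasis ℚ W
  have hlin : LinearIndependent ℚ fun k => f (bW k) :=
    bW.linearIndependent.map' (f.comp W.subtype) hinj
  -- an extension to a basis
  let bY := Basis.extend hlin.linearIndepOn_id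
  obtain ⟨β, hβ⟩ := exists_realBasis Y bY
  have hreal : LinearIndependent ℝ fun k => Y.per (f (bW k)) := by
    have hmem : ∀ k, f (bW k) ∈ hlin.linearIndepOn_id.extend (Set.subset_univ _) := fun k =>
      hlin.linearIndepOn_id.subset_extend _ ⟨k, rfl⟩
    have h1 : (fun k => Y.per (f (bW k))) = fun k => β ⟨f (bW k), hmem k⟩ := by
      funext k
      rw [hβ]
      congr 1
      exact (Basis.extend_apply_self hlin.linearIndepOn_id ⟨f (bW k), hmem k⟩).symm
    rw [h1]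
    refine β.linearIndependent.comp (fun k => ⟨f (bW k), hmem k⟩) fun k l hkl => ?_
    exact hlin.injective (congrArg Subtype.val hkl)
  have key : ∀ x : X.T, Ψ x = 0 → x ∈ Submodule.span ℝ (X.per '' (LinearMap.ker f : Set X.H)) := by
    intro x hx
    have h2 : x ∈ Submodule.span ℝ (X.per '' (LinearMap.ker f : Set X.H)) ⊔
        Submodule.span ℝ (Set.range fun k => X.per (bW k)) := by
      have h3 : x ∈ Submodule.span ℝ (Set.range X.per) := by
        rw [X.span]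
        exact Submodule.mem_top
      refine (Submodule.span_le.2 ?_) h3
      rintro _ ⟨v, rfl⟩
      have h4 : v ∈ LinearMap.ker f ⊔ W := by
        rw [hW.sup_eq_top]
        exact Submodule.mem_top
      obtain ⟨u, hu, w, hw, rfl⟩ := Submodule.mem_sup.1 h4
      rw [map_add]
      refine Submodule.add_mem_sup (Submodule.subset_span ⟨u, hu, rfl⟩) ?_
      have h5 : w = ∑ k, (bW.repr ⟨w, hw⟩ k) • (bW k : X.H) := by
        have h6 := congrArg Subtype.val (bW.sum_repr ⟨w, hw⟩)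
        rw [Submodule.coe_sum] at h6
        exact h6.symm
      rw [h5, map_sum]
      refine Submodule.sum_mem _ fun k _ => ?_
      rw [per_smul]
      exact Submodule.smul_mem _ _ (Submodule.subset_span ⟨k, rfl⟩)
    obtain ⟨y, hy, z, hz, rfl⟩ := Submodule.mem_sup.1 h2
    have hy0 : Ψ y = 0 := by
      have h6 : Submodule.span ℝ (X.per '' (LinearMap.ker f : Set X.H)) ≤
          LinearMap.ker (Ψ.restrictScalars ℝ) := by
        refine Submodule.span_le.2 ?_
        rintro _ ⟨u, hu, rfl⟩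
        change Ψ (X.per u) = 0
        rw [hΨ, LinearMap.mem_ker.1 hu, map_zero]
      exact h6 hy
    rw [map_add, hy0, zero_add] at hx
    obtain ⟨c, rfl⟩ := (Submodule.mem_span_range_iff_exists_fun ℝ).1 hz
    have h7 : ∑ k, c k • Y.per (f (bW k)) = 0 := by
      rw [← hx, map_sum]
      refine Finset.sum_congr rfl fun k _ => ?_
      rw [← hΨ]
      exact ((Ψ.restrictScalars ℝ).map_smul (c k) (X.per (bW k))).symm
    have h8 := Fintype.linearIndependent_iff.1 hreal c h7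
    have h9 : ∑ k, c k • X.per (bW k) = 0 := by
      refine Finset.sum_eq_zero fun k _ => ?_
      rw [h8 k, zero_smul]
    rw [h9, add_zero]
    exact hy
  intro x hx
  refine key _ ?_
  have h6 : Submodule.span ℝ (X.per '' (LinearMap.ker f : Set X.H)) ≤
      LinearMap.ker (Ψ.restrictScalars ℝ) := by
    refine Submodule.span_le.2 ?_
    rintro _ ⟨u, hu, rfl⟩
    change Ψ (X.per u) = 0
    rw [hΨ, LinearMap.mem_ker.1 hu, map_zero]
  have h7 : Ψ x = 0 := h6 hx
  rw [map_smul, h7, smul_zero]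

/-- A nonzero homomorphism of simple abelian varieties is an isogeny. -/
theorem iso_of_simple {X Y : AV} (hX : IsSimple X) (hY : IsSimple Y) {f : X.H →ₗ[ℚ] Y.H}
    (hf : IsHom X Y f) (h0 : f ≠ 0) :
    ∃ e : X.H ≃ₗ[ℚ] Y.H, IsHom X Y e.toLinearMap ∧ IsHom Y X e.symm.toLinearMap := by
  have h1 : LinearMap.ker f = ⊥ := by
    rcases hX.2 _ (isSub_ker hf) with h1 | h1
    · exact h1
    · exact absurd (LinearMap.ker_eq_top.1 h1) h0
  have h2 : LinearMap.range f = ⊤ := by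
    rcases hY.2 _ (isSub_range hf) with h1 | h1
    · exact absurd (LinearMap.range_eq_bot.1 h1) h0
    · exact h1
  let e : X.H ≃ₗ[ℚ] Y.H :=
    LinearEquiv.ofBijective f ⟨LinearMap.ker_eq_bot.1 h1, LinearMap.range_eq_top.1 h2⟩
  have he : e.toLinearMap = f := LinearMap.ext fun _ => rfl
  exact ⟨e, he ▸ hf, hom_symm e (he ▸ hf)⟩

/-- Isogenies preserve complex multiplication. -/
theorem HasCMult.iso {X Y : AV} (e : X.H ≃ₗ[ℚ] Y.H) (he : IsHom X Y e.toLinearMap)
    (hes : IsHom Y X e.symm.toLinearMap) (h : HasCMult Y) : HasCMult X := by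
  obtain ⟨A, h1, h2, h3⟩ := h
  let c : Module.End ℚ Y.H ≃ₐ[ℚ] Module.End ℚ X.H := e.symm.conjAlgEquiv ℚ
  refine ⟨A.map c.toAlgHom, ?_, ?_, ?_⟩
  · rintro _ ⟨a, ha, rfl⟩ _ ⟨b, hb, rfl⟩
    rw [← map_mul, ← map_mul, h1 a ha b hb]
  · rw [e.finrank_eq, ← h2]
    exact (LinearEquiv.finrank_eq (Subalgebra.equivMapOfInjective A c.toAlgHom
      c.injective).toLinearEquiv).symm
  · rintro _ ⟨a, ha, rfl⟩
    have h4 : c.toAlgHom a = e.symm.toLinearMap.comp (a.comp e.toLinearMap) :=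
      LinearMap.ext fun _ => rfl
    change IsHom X X (c.toAlgHom a)
    rw [h4]
    exact IsHom.comp' hes (IsHom.comp' (h3 a ha) he)

/-- Isogenies preserve the multiplicities. -/
theorem Unbalanced.iso {X Y : AV} (e : X.H ≃ₗ[ℚ] Y.H) (he : IsHom X Y e.toLinearMap)
    {d : ℚ} (h : Unbalanced Y d) : Unbalanced X d := by
  obtain ⟨hd, f, Ψ, s, h1, h2, h3, h4⟩ := h
  obtain ⟨Φ, hΦ⟩ := he
  have h5 : Function.Surjective Φ := tan_surj hΦ e.surjective
  have h6 : finrank ℂ X.T = finrank ℂ Y.T := by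
    have h3 := e.finrank_eq
    rw [X.rank, Y.rank] at h3
    omega
  have h7 : Function.Injective Φ := (LinearMap.injective_iff_surjective_of_finrank_eq_finrank h6).2 h5
  let E : X.T ≃ₗ[ℂ] Y.T := LinearEquiv.ofBijective Φ ⟨h7, h5⟩
  have hE : ∀ v, E (X.per v) = Y.per (e v) := fun v => hΦ v
  have hEs : ∀ w, E.symm (Y.per w) = X.per (e.symm w) := fun w => by
    rw [LinearEquiv.symm_apply_eq, hE, e.apply_symm_apply]
  have key : ∀ t : ℂ, finrank ℂ (LinearMap.ker
      ((E.symm.toLinearMap.comp (Ψ.comp E.toLinearMap)) - t • LinearMap.id)) =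
      finrank ℂ (LinearMap.ker (Ψ - t • LinearMap.id)) := by
    intro t
    have h8 : LinearMap.ker ((E.symm.toLinearMap.comp (Ψ.comp E.toLinearMap)) - t • LinearMap.id) =
        (LinearMap.ker (Ψ - t • LinearMap.id)).comap E.toLinearMap := by
      ext x
      rw [LinearMap.mem_ker, Submodule.mem_comap, LinearMap.mem_ker, LinearMap.sub_apply,
        LinearMap.sub_apply, LinearMap.comp_apply, LinearMap.comp_apply, LinearMap.smul_apply,
        LinearMap.smul_apply, LinearMap.id_apply, LinearMap.id_apply, sub_eq_zero, sub_eq_zero]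
      change E.symm (Ψ (E x)) = t • x ↔ Ψ (E x) = t • E x
      rw [LinearEquiv.symm_apply_eq, map_smul]
    rw [h8]
    exact (Submodule.comap_equiv_eq_map_symm E _).symm ▸
      LinearEquiv.finrank_map_eq E.symm (LinearMap.ker (Ψ - t • LinearMap.id))
  refine ⟨hd, e.symm.toLinearMap.comp (f.comp e.toLinearMap),
    E.symm.toLinearMap.comp (Ψ.comp E.toLinearMap), s, fun v => ?_, fun w => ?_, h3, ?_⟩
  · change E.symm (Ψ (E (X.per v))) = X.per (e.symm (f (e v)))
    rw [hE, h1, hEs]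
  · change e.symm (f (e (e.symm (f (e w))))) = -(d • w)
    rw [e.apply_symm_apply, h2, map_neg, map_smul, e.symm_apply_apply]
  · have h9 : ∀ t : ℂ, (E.symm.toLinearMap.comp (Ψ.comp E.toLinearMap)) + t • LinearMap.id =
        (E.symm.toLinearMap.comp (Ψ.comp E.toLinearMap)) - (-t) • LinearMap.id := fun t => by
      rw [neg_smul, sub_neg_eq_add]
    have h10 : ∀ t : ℂ, Ψ + t • LinearMap.id = Ψ - (-t) • LinearMap.id := fun t => by
      rw [neg_smul, sub_neg_eq_add]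
    rw [h9, key, key, ← h10]
    exact h4

/-- The projections of a product. -/
theorem proj_hom {Q : Type} [Fintype Q] [DecidableEq Q] {a : Q → ℕ}
    {Z' : ∀ q, Matrix (Fin (a q)) (Fin (a q)) ℂ} (h' : ∀ q, PM (Z' q)) (q : Q) :
    IsHom (AVQ h') (AVZ (h' q))
      (LinearMap.funLeft ℚ ℚ fun i : Fin (a q) ⊕ Fin (a q) => (⟨q, i⟩ : BQ a)) :=
  ⟨LinearMap.proj q, fun _ => rfl⟩

/-- The simple factors of a product. -/
theorem factor_prod {Q : Type} [Fintype Q] [DecidableEq Q] {a : Q → ℕ}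
    {Z' : ∀ q, Matrix (Fin (a q)) (Fin (a q)) ℂ} (h' : ∀ q, PM (Z' q))
    (hs : ∀ q, IsSimple (AVZ (h' q))) {Y : AV} (hY : IsFactor Y (AVQ h')) :
    ∃ (q : Q) (e : Y.H ≃ₗ[ℚ] (AVZ (h' q)).H), IsHom Y (AVZ (h' q)) e.toLinearMap ∧
      IsHom (AVZ (h' q)) Y e.symm.toLinearMap := by
  obtain ⟨hYs, i, hi, hinj⟩ := hY
  obtain ⟨q, hq⟩ : ∃ q, (LinearMap.funLeft ℚ ℚ fun j : Fin (a q) ⊕ Fin (a q) =>
      (⟨q, j⟩ : BQ a)).comp i ≠ 0 := by
    by_contra hcon
    push Not at hcon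
    obtain ⟨y, hy⟩ := hYs.1
    refine hy (hinj ?_)
    rw [map_zero]
    funext x
    exact congrFun (congrArg (fun φ => φ y) (hcon x.1)) x.2
  obtain ⟨e, he⟩ := iso_of_simple hYs (hs q) (IsHom.comp' (proj_hom h' q) hi) hq
  exact ⟨q, e, he⟩

/-- The reduction to complex multiplication, for families of simple abelian varieties. -/
theorem cm_equiv (𝒜 : Sys) (𝒮 : AV → Prop)
    (hS : ∀ Y, IsSimple Y → 𝒮 Y → finrank ℚ Y.H ≤ 6 ∨ HasCMult Y ∨ QuadMult Y ∨ RealMult Y ∨
      FiveDim Y ∨ FullHodge Y)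
    (hE : ∀ (Y E : AV) (d : ℚ), IsSimple Y → 𝒮 Y → ¬ HasCMult Y → Unbalanced Y d →
      finrank ℚ E.H = 2 → Unbalanced E d → 𝒮 E) :
    (∀ X : AV, (∀ Y, IsFactor Y X → 𝒮 Y) → 𝒜.AllHodge X) ↔
      ∀ X : AV, (∀ Y, IsFactor Y X → 𝒮 Y ∧ HasCMult Y) → 𝒜.AllHodge X := by
  refine ⟨fun h X hX => h X fun Y hY => (hX Y hY).1, fun h X hX => ?_⟩
  refine main_cm 𝒜 X (fun a Z' h' i hi hinj hsim ha => ?_) fun Q _ _ a Z' h' hc => ?_
  · by_cases hcm : HasCMult (AVZ h')
    · exact Or.inr hcm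
    refine Or.inl ⟨hcm, fun U hU => ?_⟩
    rcases hS (AVZ h') hsim (hX _ ⟨hsim, i, hi, hinj⟩) with k | k | k | k | k | k
    · exact SmallDim.lc h' hsim ha ⟨k, fun h1 => absurd h1 hcm⟩ hU
    · exact absurd k hcm
    · exact k.lc h' hU
    · exact k.lc h' hsim ha hU
    · exact k.lc h' hsim ha hU
    · exact k.lc h' hsim ha hU
  · refine h _ fun Y hY => ?_
    obtain ⟨q, e, he, hes⟩ := factor_prod h' (fun q => (hc q).1) hY
    obtain ⟨h1, h2, h3⟩ := hc q
    refine ⟨?_, h2.iso e he hes⟩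
    rcases h3 with ⟨-, i, hi, hinj⟩ | ⟨h4, d, h5, Y', hY', hn, h6⟩
    · exact hX Y ⟨hY.1, i.comp e.toLinearMap, IsHom.comp' hi he, hinj.comp e.injective⟩
    · exact hE Y' Y d hY'.1 (hX Y' hY') hn h6 (by rw [e.finrank_eq, h4]) (h5.iso e he)

end

end Pool.Agent.R915
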