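import Mathlib
import Pool.Agent.R915.S2

/-!
# The discriminant of split abelian sixfolds
-/

set_option linter.unusedSectionVars false

namespace Pool.Agent.R915

open Matrix Module Pool.Agent.Y90

noncomputable section

section pairs

variable {V : Type} [AddCommGroup V] [Module ℚ V] [FiniteDimensional ℚ V] (h : V →ₗ[ℚ] V) {d : ℚ}

/-- Pairs of vectors which are independent over the quadratic field. -/
theorem exists_pairs (hd : 0 < d) (hsq : ∀ w, h (h w) = -(d • w)) :
    ∀ m : ℕ, 2 * m ≤ finrank ℚ V → ∃ v : Fin m → V, ∀ a b : Fin m → ℚ,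
      (∑ i, (a i • v i + b i • h (v i))) = 0 → a = 0 ∧ b = 0 := by
  intro m
  induction m with
  | zero => exact fun _ => ⟨Fin.elim0, fun a b _ => ⟨Subsingleton.elim _ _, Subsingleton.elim _ _⟩⟩
  | succ m ih =>
    intro hm
    obtain ⟨v, hv⟩ := ih (by omega)
    let S : Submodule ℚ V := Submodule.span ℚ (Set.range (Sum.elim v fun i => h (v i)))
    have hmem : ∀ a b : Fin m → ℚ, (∑ i, (a i • v i + b i • h (v i))) ∈ S := fun a b =>
      Submodule.sum_mem _ fun i _ => Submodule.add_mem _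
        (Submodule.smul_mem _ _ (Submodule.subset_span ⟨Sum.inl i, rfl⟩))
        (Submodule.smul_mem _ _ (Submodule.subset_span ⟨Sum.inr i, rfl⟩))
    have hstab : ∀ x ∈ S, h x ∈ S := by
      intro x hx
      have h1 : S ≤ S.comap h := by
        refine Submodule.span_le.2 ?_
        rintro _ ⟨i | i, rfl⟩
        · exact Submodule.subset_span ⟨Sum.inr i, rfl⟩
        · change h (h (v i)) ∈ S
          rw [hsq]
          exact Submodule.neg_mem _ (Submodule.smul_mem _ _ (Submodule.subset_span ⟨Sum.inl i, rfl⟩))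
      exact h1 hx
    have hfin : finrank ℚ S ≤ 2 * m := by
      have h1 := finrank_range_le_card (R := ℚ) (Sum.elim v fun i => h (v i))
      rw [Fintype.card_sum, Fintype.card_fin] at h1
      calc finrank ℚ S ≤ m + m := h1
        _ = 2 * m := by ring
    obtain ⟨u, hu⟩ : ∃ u, u ∉ S := by
      by_contra hcon
      push Not at hcon
      have h1 : S = ⊤ := eq_top_iff.2 fun x _ => hcon x
      rw [h1, finrank_top] at hfin
      omega
    refine ⟨Fin.snoc v u, fun a b hab => ?_⟩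
    rw [Fin.sum_univ_castSucc] at hab
    simp only [Fin.snoc_castSucc, Fin.snoc_last] at hab
    set x := a (Fin.last m)
    set y := b (Fin.last m)
    have h1 : x • u + y • h u ∈ S := by
      have h2 : x • u + y • h u =
          -(∑ i : Fin m, (a i.castSucc • v i + b i.castSucc • h (v i))) := by
        rw [eq_neg_iff_add_eq_zero, add_comm]
        exact hab
      rw [h2]
      exact Submodule.neg_mem _ (hmem (fun i => a i.castSucc) fun i => b i.castSucc)
    have h2 : (x * x + d * (y * y)) • u ∈ S := by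
      have h3 := Submodule.sub_mem _ (Submodule.smul_mem _ x h1) (Submodule.smul_mem _ y (hstab _ h1))
      rw [map_add, map_smul, map_smul, hsq] at h3
      convert h3 using 1
      module
    have h3 : x * x + d * (y * y) = 0 := by
      by_contra hne
      apply hu
      have h4 := Submodule.smul_mem _ (x * x + d * (y * y))⁻¹ h2
      rwa [smul_smul, inv_mul_cancel₀ hne, one_smul] at h4
    have hx : x = 0 := by
      have h4 : 0 ≤ x * x := mul_self_nonneg x
      have h5 : 0 ≤ d * (y * y) := mul_nonneg hd.le (mul_self_nonneg y)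
      exact mul_self_eq_zero.1 (by linarith)
    have hy : y = 0 := by
      rw [hx, mul_zero, zero_add] at h3
      rcases mul_eq_zero.1 h3 with h4 | h4
      · exact absurd h4 hd.ne'
      · exact mul_self_eq_zero.1 h4
    rw [hx, hy, zero_smul, zero_smul, add_zero, add_zero] at hab
    obtain ⟨h4, h5⟩ := hv (fun i => a i.castSucc) (fun i => b i.castSucc) hab
    constructor
    · funext i
      refine Fin.lastCases hx (fun i => congrFun h4 i) i
    · funext i
      refine Fin.lastCases hy (fun i => congrFun h5 i) i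

/-- A rational basis. -/
theorem exists_pair_basis (hd : 0 < d) (hsq : ∀ w, h (h w) = -(d • w)) {m : ℕ}
    (hm : finrank ℚ V = 2 * m) : ∃ b : Basis (Fin m ⊕ Fin m) ℚ V,
      ∀ i, b (Sum.inr i) = h (b (Sum.inl i)) := by
  obtain ⟨v, hv⟩ := exists_pairs h hd hsq m hm.ge
  have h1 : LinearIndependent ℚ (Sum.elim v fun i => h (v i)) := by
    rw [Fintype.linearIndependent_iff]
    intro g hg
    rw [Fintype.sum_sum_type] at hg
    simp only [Sum.elim_inl, Sum.elim_inr] at hg
    rw [← Finset.sum_add_distrib] at hg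
    obtain ⟨h2, h3⟩ := hv _ _ hg
    rintro (i | i)
    · exact congrFun h2 i
    · exact congrFun h3 i
  have h2 : Fintype.card (Fin m ⊕ Fin m) = finrank ℚ V := by
    rw [Fintype.card_sum, Fintype.card_fin, hm]
    ring
  refine ⟨Basis.mk h1 (h1.span_eq_top_of_card_eq_finrank' h2).ge, fun i => ?_⟩
  rw [Basis.mk_apply, Basis.mk_apply]
  rfl

end pairs

/-- The bilinear form of a polarization. -/
theorem pol_form (Y : AV) {E : Y.H → Y.H → ℚ} (hE : IsPolarization Y.per E) :
    ∃ ω : Y.H →ₗ[ℚ] Y.H →ₗ[ℚ] ℚ, (∀ v w, ω v w = E v w) ∧ (∀ v w, ω v w = -ω w v) ∧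
      ∀ u, (∀ v, ω v u = 0) → u = 0 := by
  obtain ⟨Ψ, hΨl, hΨc, hΨp, hE⟩ := hE
  have hadd : ∀ u v w, Ψ (u + v) w = Ψ u w + Ψ v w := fun u v w => (hΨl w).map_add u v
  have hsmul : ∀ (c : ℂ) u w, Ψ (c • u) w = c * Ψ u w := fun c u w => (hΨl w).map_smul c u
  have hadd' : ∀ u v w, Ψ w (u + v) = Ψ w u + Ψ w v := by
    intro u v w
    rw [hΨc (u + v) w, hadd, map_add, ← hΨc, ← hΨc]
  have hrs : ∀ (r : ℝ) u w, Ψ (r • u) w = r * Ψ u w := by
    intro r u w
    rw [show r • u = (r : ℂ) • u from rfl, hsmul]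
  have hrs' : ∀ (r : ℝ) u w, Ψ w (r • u) = r * Ψ w u := by
    intro r u w
    rw [hΨc (r • u) w, hrs, map_mul, Complex.conj_ofReal, ← hΨc]
  have hanti : ∀ u w, (Ψ u w).im = -(Ψ w u).im := by
    intro u w
    rw [hΨc w u, Complex.conj_im]
  -- the real form
  let Bf : Y.T →ₗ[ℝ] Y.T →ₗ[ℝ] ℝ := LinearMap.mk₂ ℝ (fun u v => (Ψ u v).im)
    (fun u v w => by rw [hadd, Complex.add_im]) (fun r u v => by
      rw [hrs, Complex.im_ofReal_mul, smul_eq_mul])
    (fun u v w => by rw [hadd', Complex.add_im]) (fun r u v => by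
      rw [hrs', Complex.im_ofReal_mul, smul_eq_mul])
  have hBf : ∀ u v, Bf u v = (Ψ u v).im := fun u v => rfl
  -- the rational form
  have hcast : ∀ v w, ((E v w : ℚ) : ℝ) = Bf (Y.per v) (Y.per w) := fun v w => (hE v w).symm
  let ω : Y.H →ₗ[ℚ] Y.H →ₗ[ℚ] ℚ := LinearMap.mk₂ ℚ (fun v w => E v w)
    (fun u v w => by
      have h1 : ((E (u + v) w : ℚ) : ℝ) = ((E u w + E v w : ℚ) : ℝ) := by
        push_cast
        rw [hcast, hcast, hcast, map_add, map_add, LinearMap.add_apply]
      exact_mod_cast h1)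
    (fun c u v => by
      have h1 : ((E (c • u) v : ℚ) : ℝ) = ((c • E u v : ℚ) : ℝ) := by
        rw [smul_eq_mul]
        push_cast
        rw [hcast, hcast, per_smul, map_smul, LinearMap.smul_apply, smul_eq_mul]
      exact_mod_cast h1)
    (fun u v w => by
      have h1 : ((E u (v + w) : ℚ) : ℝ) = ((E u v + E u w : ℚ) : ℝ) := by
        push_cast
        rw [hcast, hcast, hcast, map_add, map_add]
      exact_mod_cast h1)
    (fun c u v => by
      have h1 : ((E u (c • v) : ℚ) : ℝ) = ((c • E u v : ℚ) : ℝ) := by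
        rw [smul_eq_mul]
        push_cast
        rw [hcast, hcast, per_smul, map_smul, smul_eq_mul]
      exact_mod_cast h1)
  have hω : ∀ v w, ((ω v w : ℚ) : ℝ) = Bf (Y.per v) (Y.per w) := fun v w => hcast v w
  refine ⟨ω, fun v w => rfl, fun v w => ?_, fun u hu => ?_⟩
  · have h1 : ((ω v w : ℚ) : ℝ) = ((-ω w v : ℚ) : ℝ) := by
      push_cast
      rw [hω, hω, hBf, hBf, hanti]
    exact_mod_cast h1
  -- injectivity of the periods
  have hinj : ∀ v : Y.H, Y.per v = 0 → v = 0 := by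
    intro v hv
    let b := finBasis ℚ Y.H
    obtain ⟨β, hβ⟩ := exists_realBasis Y b
    have h2 := β.linearIndependent
    rw [Fintype.linearIndependent_iff] at h2
    have h3 := h2 (fun i => ((b.repr v i : ℚ) : ℝ)) (by
      rw [← hv]
      conv_rhs => rw [← b.sum_repr v, map_sum]
      refine Finset.sum_congr rfl fun i _ => ?_
      rw [per_smul, hβ])
    rw [← b.sum_repr v]
    refine Finset.sum_eq_zero fun i _ => ?_
    have h4 : b.repr v i = 0 := by exact_mod_cast h3 i
    rw [h4, zero_smul]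
  apply hinj
  by_contra hne
  have h1 : ∀ t : Y.T, Bf t (Y.per u) = 0 := by
    intro t
    have ht : t ∈ Submodule.span ℝ (Set.range Y.per) := by rw [Y.span]; trivial
    induction ht using Submodule.span_induction with
    | mem t ht =>
      obtain ⟨v, rfl⟩ := ht
      rw [← hω, hu, Rat.cast_zero]
    | zero => rw [map_zero, LinearMap.zero_apply]
    | add x y _ _ hx hy => rw [map_add, LinearMap.add_apply, hx, hy, add_zero]
    | smul r x _ hx => rw [map_smul, LinearMap.smul_apply, hx, smul_zero]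
  have h2 := h1 (Complex.I • Y.per u)
  rw [hBf, hsmul] at h2
  have h3 := hΨp _ hne
  rw [Complex.mul_im, Complex.I_re, Complex.I_im, zero_mul, one_mul, zero_add] at h2
  linarith

/-- Functionals on a subspace are given by the form. -/
theorem form_surj {H : Type} [AddCommGroup H] [Module ℚ H] [FiniteDimensional ℚ H]
    (ω : H →ₗ[ℚ] H →ₗ[ℚ] ℚ) (hnd : ∀ u, (∀ v, ω v u = 0) → u = 0) (W : Submodule ℚ H)
    (l : W →ₗ[ℚ] ℚ) : ∃ u : H, ∀ w : W, ω w u = l w := by
  obtain ⟨l', hl'⟩ := LinearMap.exists_extend l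
  have h1 : Function.Injective ω.flip := by
    rw [← LinearMap.ker_eq_bot, LinearMap.ker_eq_bot']
    intro u hu
    exact hnd u fun v => congrArg (fun φ => φ v) hu
  have h2 : Function.Surjective ω.flip :=
    (LinearMap.injective_iff_surjective_of_finrank_eq_finrank
      (Subspace.dual_finrank_eq (K := ℚ) (V := H)).symm).1 h1
  obtain ⟨u, hu⟩ := h2 l'
  refine ⟨u, fun w => ?_⟩
  have h3 : ω.flip u w = l' w := by rw [hu]
  rw [LinearMap.flip_apply] at h3
  rw [h3, ← hl']
  rfl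

/-- The determinant of a block matrix. -/
theorem det_swap (D : Matrix (Fin 3) (Fin 3) ℂ) :
    (fromBlocks 0 1 1 D : Matrix (Fin 3 ⊕ Fin 3) (Fin 3 ⊕ Fin 3) ℂ).det = -1 := by
  have h1 : (fromBlocks 0 1 1 D : Matrix (Fin 3 ⊕ Fin 3) (Fin 3 ⊕ Fin 3) ℂ) =
      fromBlocks 1 0 D 1 * fromBlocks 0 1 1 0 := by
    rw [fromBlocks_multiply]
    simp
  have h2 : (fromBlocks 0 1 1 0 : Matrix (Fin 3 ⊕ Fin 3) (Fin 3 ⊕ Fin 3) ℂ) =
      (Equiv.sumComm (Fin 3) (Fin 3)).toPEquiv.toMatrix := by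
    ext (i | i) (j | j) <;> simp [PEquiv.toMatrix_apply, Matrix.one_apply, eq_comm]
  have h3 : Equiv.Perm.sign (Equiv.sumComm (Fin 3) (Fin 3)) = -1 := by decide
  rw [h1, det_mul, det_fromBlocks_zero₁₂, det_one, one_mul, one_mul, h2]
  erw [det_permutation]
  rw [h3]
  simp

/-- Split sixfolds have trivial discriminant. -/
theorem disc_split (Y : AV) (hdim : finrank ℚ Y.H = 12) {d : ℚ} (hd : 0 < d) (h : Y.H →ₗ[ℚ] Y.H)
    (hsq : ∀ w, h (h w) = -(d • w)) (E : Y.H → Y.H → ℚ) (hE : IsPolarization Y.per E)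
    (hsk : ∀ v w, E (h v) w = -E v (h w)) (W : Submodule ℚ Y.H)
    (hW : 2 * finrank ℚ W = finrank ℚ Y.H) (hst : ∀ w ∈ W, h w ∈ W)
    (hiso : ∀ v ∈ W, ∀ w ∈ W, E v w = 0) : HasTrivialDisc Y d h := by
  obtain ⟨ω, hω, halt, hnd⟩ := pol_form Y hE
  let hW' : W →ₗ[ℚ] W := h.restrict hst
  obtain ⟨b, hb⟩ := exists_pair_basis hW' hd (fun w => Subtype.ext (hsq w)) (m := 3) (by omega)
  have hu : ∀ j : Fin 3, ∃ u : Y.H, ∀ w : W, ω w u = -b.coord (Sum.inr j) w := fun j =>
    form_surj ω hnd W (-b.coord (Sum.inr j))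
  choose u hu using hu
  let e : Fin 3 ⊕ Fin 3 ≃ Fin 6 := finSumFinEquiv
  let x : Fin 3 ⊕ Fin 3 → Y.H := Sum.elim (fun i => (b (Sum.inl i) : Y.H)) u
  obtain ⟨s, hs⟩ : ∃ s : ℂ, s * s = -(d : ℂ) := by
    obtain ⟨s, hs⟩ := IsAlgClosed.exists_pow_nat_eq (-(d : ℂ)) (n := 2) (by norm_num)
    exact ⟨s, by rw [← hs, sq]⟩
  refine ⟨s, E, fun i => x (e.symm i), 1, 0, hs, hE, hsk, Or.inl one_ne_zero, ?_⟩
  have e1 : ∀ i j : Fin 3, E (b (Sum.inl i)) (u j) = 0 := by
    intro i j
    rw [← hω, hu, Basis.coord_apply, Basis.repr_self, Finsupp.single_apply, if_neg (by simp),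
      neg_zero]
  have e2 : ∀ i j : Fin 3, E (b (Sum.inl i)) (h (u j)) = if i = j then 1 else 0 := by
    intro i j
    have h1 := hsk (b (Sum.inl i)) (u j)
    have h2 : h (b (Sum.inl i)) = (b (Sum.inr i) : Y.H) := by
      rw [hb]
      rfl
    rw [h2, ← hω, hu, Basis.coord_apply, Basis.repr_self, Finsupp.single_apply] at h1
    have h3 : E (b (Sum.inl i)) (h (u j)) = if (Sum.inr i : Fin 3 ⊕ Fin 3) = Sum.inr j then 1 else 0 := by
      linarith
    rw [h3]
    by_cases hij : i = j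
    · rw [if_pos hij, if_pos (by rw [hij])]
    · rw [if_neg hij, if_neg (by simpa using hij)]
  have e3 : ∀ i j : Fin 3, E (u i) (b (Sum.inl j)) = 0 := by
    intro i j
    rw [← hω, halt, hω, e1, neg_zero]
  have e4 : ∀ i j : Fin 3, E (u i) (h (b (Sum.inl j))) = if i = j then 1 else 0 := by
    intro i j
    rw [← hω, halt, hω, hsk, neg_neg, e2]
    simp only [eq_comm]
  have e5 : ∀ i j : Fin 3, E (b (Sum.inl i)) (b (Sum.inl j)) = 0 := fun i j =>
    hiso _ (b (Sum.inl i)).2 _ (b (Sum.inl j)).2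
  have e6 : ∀ i j : Fin 3, E (b (Sum.inl i)) (h (b (Sum.inl j))) = 0 := fun i j =>
    hiso _ (b (Sum.inl i)).2 _ (hst _ (b (Sum.inl j)).2)
  have h1 : (Matrix.of fun i j : Fin 6 => ((E (x (e.symm i)) (h (x (e.symm j))) : ℚ) : ℂ) +
      s * ((E (x (e.symm i)) (x (e.symm j)) : ℚ) : ℂ)) =
      (fromBlocks 0 1 1 (Matrix.of fun i j : Fin 3 => ((E (u i) (h (u j)) : ℚ) : ℂ) +
        s * ((E (u i) (u j) : ℚ) : ℂ))).submatrix e.symm e.symm := by
    ext i j
    rw [Matrix.submatrix_apply, Matrix.of_apply]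
    rcases e.symm i with i' | i' <;> rcases e.symm j with j' | j'
    · change ((E (b (Sum.inl i')) (h (b (Sum.inl j'))) : ℚ) : ℂ) +
        s * ((E (b (Sum.inl i')) (b (Sum.inl j')) : ℚ) : ℂ) = _
      rw [e5, e6, fromBlocks_apply₁₁]
      simp
    · change ((E (b (Sum.inl i')) (h (u j')) : ℚ) : ℂ) +
        s * ((E (b (Sum.inl i')) (u j') : ℚ) : ℂ) = _
      rw [e1, e2, fromBlocks_apply₁₂, Matrix.one_apply]
      split_ifs <;> simp
    · change ((E (u i') (h (b (Sum.inl j'))) : ℚ) : ℂ) +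
        s * ((E (u i') (b (Sum.inl j')) : ℚ) : ℂ) = _
      rw [e3, e4, fromBlocks_apply₂₁, Matrix.one_apply]
      split_ifs <;> simp
    · rfl
  rw [h1, Matrix.det_submatrix_equiv_self, det_swap]
  norm_num

end

end Pool.Agent.R915
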