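import Mathlib
import Pool.Agent.W547.UB.Main
import Pool.Agent.R915.H1
import Pool.Agent.R915.G6

/-!
# Abelian varieties of CM type as abelian varieties
-/

set_option linter.unusedSectionVars false

namespace Pool.Agent.R915

open Matrix Module Pool.Agent.Y90 NumberField Pool.Agent.W437.HC
open Pool.Agent.TH504.CB (isHodge_comp)
open Pool.Agent.H204R3.CM (IsHodge IsCMType)
open Pool.Agent.W547.KB (CMPair CMAV)

noncomputable section

/-- The degree of a CM field. -/
theorem finrank_pair (P : CMPair) : finrank ℚ P.E = 2 * finrank ℂ (P.Φ → ℂ) := by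
  classical
  rw [finrank_fintype_fun_eq_card, ← NumberField.Embeddings.card P.E ℂ]
  have h1 : Fintype.card (P.E →+* ℂ) = Fintype.card P.Φ + Fintype.card (P.Φᶜ : Set (P.E →+* ℂ)) :=
    (Fintype.card_congr (Equiv.Set.sumCompl P.Φ).symm).trans Fintype.card_sum
  have h2 : Fintype.card (P.Φᶜ : Set (P.E →+* ℂ)) = Fintype.card P.Φ := by
    refine Fintype.card_congr ⟨fun φ => ⟨ComplexEmbedding.conjugate φ.1, ?_⟩,
      fun φ => ⟨ComplexEmbedding.conjugate φ.1, ?_⟩, fun φ => ?_, fun φ => ?_⟩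
    · by_contra hcon
      exact φ.2 ((P.isCMType φ.1).2 hcon)
    · exact (P.isCMType φ.1).1 φ.2
    · exact Subtype.ext (star_star φ.1)
    · exact Subtype.ext (star_star φ.1)
  rw [h1, h2]
  ring

/-- The dimension of an abelian variety of CM type. -/
theorem rank_CM (X : CMAV) : finrank ℚ X.H1 = 2 * finrank ℂ X.Tan := by
  have h1 : finrank ℚ X.H1 = ∑ i, finrank ℚ (X.factor i).E := finrank_pi_fintype ℚ
  have h2 : finrank ℂ X.Tan = ∑ i, finrank ℂ ((X.factor i).Φ → ℂ) := finrank_pi_fintype ℂ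
  rw [h1, h2, Finset.mul_sum]
  exact Finset.sum_congr rfl fun i _ => finrank_pair _

/-- An abelian variety of CM type as an abelian variety. -/
def avC (X : CMAV) (hp : ∃ E, IsPolarization X.per E) : AV where
  H := X.H1
  T := X.Tan
  addH := X.gH
  modH := X.qH
  finH := inferInstance
  addT := X.gT
  modT := X.cT
  finT := inferInstance
  per := X.per
  span := Pool.Agent.W547.KB.span_perX X
  rank := rank_CM X
  pol := hp

/-- Split Weil classes are Weil classes. -/
theorem weil_of_split {X : CMAV} (hp : ∃ E, IsPolarization X.per E) {n : ℕ}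
    {f : X.H1 [⋀^Fin n]→ₗ[ℚ] ℚ} (hf : Pool.Agent.W547.LD.IsSplitWeilClass X n f) :
    IsWeilClass (avC X hp) n f := by
  obtain ⟨h1, h2, d, h, hd, hh, hsq, hmv, E, W, hE, hsk, hW, hst, hiso⟩ := hf
  refine ⟨h1, h2, (d : ℚ), h, by exact_mod_cast hd, hh, hsq, hmv, fun hn => ?_⟩
  subst hn
  exact disc_split (avC X hp) h1 (by exact_mod_cast hd) h hsq E hE hsk W hW hst hiso

/-- The classes of the ring generated by divisors and Weil classes belong to the system. -/
theorem ring_alg (𝒜 : Sys) {X : CMAV} {κ : Type} {f : X.H1 [⋀^κ]→ₗ[ℚ] ℚ}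
    (hf : Pool.Agent.W547.LD.DWRing X κ f) (Y : AV) (h : Y.H →ₗ[ℚ] X.H1) (Ψ : Y.T →ₗ[ℂ] X.Tan)
    (hΨ : ∀ v, Ψ (Y.per v) = X.per (h v)) : 𝒜.A Y κ (f.compLinearMap h) := by
  induction hf with
  | unit f => exact 𝒜.unit _
  | divisor hκ f hf => exact 𝒜.divisor hκ _ (isHodge_comp h Ψ hΨ hf)
  | weil hn f hf g hg =>
    obtain ⟨Θ, hΘ⟩ := hg
    obtain ⟨-, -, -, -, -, -, -, -, E, W, hE, -⟩ := id hf
    refine 𝒜.pull (X := Y) (Y := avC _ ⟨E, hE⟩) (g.comp h) ⟨Θ.comp Ψ, fun v => ?_⟩ _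
      (𝒜.weil hn f (weil_of_split ⟨E, hE⟩ hf))
    change Θ (Ψ (Y.per v)) = _
    rw [hΨ, hΘ]
    rfl
  | zero κ => exact 𝒜.zero _ _
  | add f g _ _ ihf ihg => exact 𝒜.add _ _ ihf ihg
  | smul a f _ ih => exact 𝒜.smul a _ ih
  | reindex e f _ ih => exact 𝒜.reindex e _ ih
  | cup f g _ _ k hk ihf ihg => exact 𝒜.cup _ _ ihf ihg _ fun v => hk fun i => h (v i)

/-- The abelian variety `Y` is isogenous to the abelian variety of CM type `P = (E, Φ)`. -/
def IsOfType (Y : AV) (P : CMPair) : Prop :=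
  ∃ (e : Y.H ≃ₗ[ℚ] P.E) (Ψ : Y.T ≃ₗ[ℂ] (P.Φ → ℂ)), ∀ v φ, Ψ (Y.per v) φ = φ.1 (e v)

/-- Families of factors of `C` are divided into independent blocks if this holds for `C`. -/
theorem blocks_comp {C : CMAV} {J : Type} {b : C.I → J}
    (hC : Pool.Agent.W547.UB.IndependentBlocks C b) {Q : Type} [Fintype Q] (q : Q → C.I) :
    Pool.Agent.W547.UB.IndependentBlocks ⟨Q, fun k => C.factor (q k)⟩ fun k => b (q k) where
  good j := by
    rcases hC.good j with ⟨h1, h2⟩ | ⟨Y, hY, h⟩ | ⟨A, hA, h⟩ | ⟨Y, hY, h⟩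
    · exact .small (fun i hi => h1 (q i) hi) fun i hi k hk => h2 (q i) hi (q k) hk
    · exact .five Y hY fun i hi => h (q i) hi
    · exact .seven A hA fun i hi => h (q i) hi
    · exact .nondegenerate Y hY fun i hi => h (q i) hi
  independent j := by
    obtain ⟨τ, hτ⟩ := hC.independent j
    exact ⟨τ, fun i => hτ (q i)⟩

/-- Hodge classes on products of abelian varieties of CM type in independent blocks. -/
theorem prod_blocks (𝒜 : Sys) {C : CMAV} {J : Type} {b : C.I → J}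
    (hC : Pool.Agent.W547.UB.IndependentBlocks C b) {Q : Type} [Fintype Q] [DecidableEq Q]
    {a : Q → ℕ} {Z' : ∀ q, Matrix (Fin (a q)) (Fin (a q)) ℂ} (h' : ∀ q, PM (Z' q))
    (hq : ∀ q, ∃ i, IsOfType (AVZ (h' q)) (C.factor i)) : 𝒜.AllHodge (AVQ h') := by
  choose p e Ψ hΨ using hq
  intro κ _ f hf
  let X : CMAV := ⟨Q, fun k => C.factor (p k)⟩
  -- the isomorphism of the homology
  let ε : (BQ a → ℚ) ≃ₗ[ℚ] X.H1 :=
    { toFun := fun w q => e q (cQ q w)
      invFun := fun x y => (e y.1).symm (x y.1) y.2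
      left_inv := fun w => by
        funext y
        change (e y.1).symm (e y.1 (cQ y.1 w)) y.2 = w y
        rw [LinearEquiv.symm_apply_apply]
        rfl
      right_inv := fun x => by
        funext q
        change e q (fun i => (e q).symm (x q) i) = x q
        exact (e q).apply_symm_apply (x q)
      map_add' := fun v w => by
        funext q
        exact map_add (e q) (cQ q v) (cQ q w)
      map_smul' := fun c v => by
        funext q
        exact map_smul (e q) c (cQ q v) }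
  let Θ : (AVQ h').T ≃ₗ[ℂ] X.Tan := LinearEquiv.piCongrRight Ψ
  have hΘ : ∀ v, Θ ((AVQ h').per v) = X.per (ε v) := by
    intro v
    funext q φ
    exact hΨ q (cQ q v) φ
  have hΘs : ∀ x, Θ.symm (X.per x) = (AVQ h').per (ε.symm x) := by
    intro x
    rw [LinearEquiv.symm_apply_eq, hΘ, ε.apply_symm_apply]
  have h1 : IsHodge X.per (f.compLinearMap ε.symm.toLinearMap) :=
    isHodge_comp ε.symm.toLinearMap Θ.symm.toLinearMap hΘs hf
  have h2 := (Pool.Agent.W547.UB.isHodge_iff_ring_blocks X _ (blocks_comp hC p) _).1 h1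
  have h3 := ring_alg 𝒜 h2 (AVQ h') ε.toLinearMap Θ.toLinearMap hΘ
  have h4 : (f.compLinearMap ε.symm.toLinearMap).compLinearMap ε.toLinearMap = f := by
    ext v
    rw [AlternatingMap.compLinearMap_apply, AlternatingMap.compLinearMap_apply]
    congr 1
    funext k
    exact ε.symm_apply_apply (v k)
  rwa [h4] at h3

/-- The result for a complex multiplication part in independent blocks. -/
theorem blocks_all (𝒜 : Sys) (X : AV)
    (hX : ∀ Y, IsFactor Y X → finrank ℚ Y.H ≤ 6 ∨ HasCMult Y ∨ QuadMult Y ∨ RealMult Y ∨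
      FiveDim Y ∨ FullHodge Y)
    (C : CMAV) {J : Type} (b : C.I → J) (hC : Pool.Agent.W547.UB.IndependentBlocks C b)
    (h1 : ∀ Y, IsFactor Y X → HasCMult Y → ∃ i, IsOfType Y (C.factor i))
    (h2 : ∀ (Y E : AV) (d : ℚ), IsFactor Y X → ¬ HasCMult Y → Unbalanced Y d →
      finrank ℚ E.H = 2 → Unbalanced E d → ∃ i, IsOfType E (C.factor i)) :
    𝒜.AllHodge X := by
  refine main_cm 𝒜 X (fun a Z' h' i hi hinj hsim ha => ?_) fun Q _ _ a Z' h' hc =>
    prod_blocks 𝒜 hC h' fun q => ?_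
  · by_cases hcm : HasCMult (AVZ h')
    · exact Or.inr hcm
    refine Or.inl ⟨hcm, fun U hU => ?_⟩
    rcases hX (AVZ h') ⟨hsim, i, hi, hinj⟩ with k | k | k | k | k | k
    · exact SmallDim.lc h' hsim ha ⟨k, fun h1 => absurd h1 hcm⟩ hU
    · exact absurd k hcm
    · exact k.lc h' hU
    · exact k.lc h' hsim ha hU
    · exact k.lc h' hsim ha hU
    · exact k.lc h' hsim ha hU
  · obtain ⟨h3, h4, h5 | ⟨h5, d, h6, Y', hY', hn, h7⟩⟩ := hc q
    · exact h1 _ h5 h4
    · exact h2 Y' _ d hY' hn h7 h5 h6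

end

end Pool.Agent.R915
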