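import Pool.Agent.W528.Ord.AllEll

/-! Newton polygons of direct summands: a summand of an ordinary object is ordinary. -/

set_option autoImplicit false
set_option linter.all false

namespace Pool.Agent.R915.Ord

open Polynomial Pool.Agent.W528.Ord

section reals

theorem prod_max_pos (r : ℝ) (hr : 0 < r) (N : Multiset ℝ) : 0 < (N.map fun x => max r x).prod := by
  induction N using Multiset.induction_on with
  | empty => simp
  | cons a N ih =>
    rw [Multiset.map_cons, Multiset.prod_cons]
    exact mul_pos (lt_max_of_lt_left hr) ih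

theorem prod_max_scale (c r : ℝ) (hc : 0 < c) (N : Multiset ℝ) :
    ((N.map fun x => c * x).map fun x => max r x).prod =
      c ^ (Multiset.card N) * (N.map fun x => max (r / c) x).prod := by
  induction N using Multiset.induction_on with
  | empty => simp
  | cons a N ih =>
    rw [Multiset.map_cons, Multiset.map_cons, Multiset.prod_cons, ih, Multiset.map_cons,
      Multiset.prod_cons, Multiset.card_cons, pow_succ]
    have e : max r (c * a) = c * max (r / c) a := by
      rw [mul_max_of_nonneg _ _ hc.le, mul_div_cancel₀ _ hc.ne']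
    rw [e]
    ring

/-- the key lemma on multisets of absolute values -/
theorem multiset_eq (q c : ℝ) (hq : 0 < q) (hc : 0 < c) (N N' : Multiset ℝ) (H H' : Multiset ℕ)
    (hcard : Multiset.card N = Multiset.card H)
    (h1 : ∀ r : ℝ, 0 < r → (N.map fun x => max r x).prod ≤ (H.map fun a => max r (q ^ a)).prod)
    (h2 : ∀ r : ℝ, 0 < r → (N'.map fun x => max r x).prod ≤ (H'.map fun a => max r (q ^ a)).prod)
    (he : (N.map fun x => c * x) + N' = (H.map fun a => c * q ^ a) + H'.map fun a => q ^ a) :
    N = H.map fun a => q ^ a := by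
  classical
  have hN : ∀ x ∈ N, 0 < x := by
    intro x hx
    have h3 : c * x ∈ (N.map fun x => c * x) + N' :=
      Multiset.mem_add.mpr (Or.inl (Multiset.mem_map_of_mem _ hx))
    rw [he, Multiset.mem_add, Multiset.mem_map, Multiset.mem_map] at h3
    have h4 : 0 < c * x := by
      rcases h3 with ⟨a, -, h⟩ | ⟨a, -, h⟩
      · rw [← h]; positivity
      · rw [← h]; positivity
    exact (mul_pos_iff_of_pos_left hc).mp h4
  have hH : ∀ x ∈ H.map (fun a => q ^ a), 0 < x := by
    intro x hx
    obtain ⟨a, -, rfl⟩ := Multiset.mem_map.mp hx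
    positivity
  obtain ⟨r1, hr1, h3⟩ := exists_lower _ hN
  obtain ⟨r2, hr2, h4⟩ := exists_lower _ hH
  refine Pool.Agent.W518.DN.eq_of_prod_max (min r1 r2) (lt_min hr1 hr2) (Multiset.card N) _ _ rfl
    (by simp [hcard]) (fun x hx => (min_le_left _ _).trans (h3 x hx))
    (fun x hx => (min_le_right _ _).trans (h4 x hx)) ?_
  intro r hr
  have hr0 : 0 < r := lt_of_lt_of_le (lt_min hr1 hr2) hr
  have hrc : 0 < r * c := mul_pos hr0 hc
  have h5 := congrArg (fun M : Multiset ℝ => (M.map fun x => max (r * c) x).prod) he
  simp only [Multiset.map_add, Multiset.prod_add] at h5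
  have e1 : (H.map fun a => c * q ^ a) = (H.map fun a => q ^ a).map fun x => c * x := by
    rw [Multiset.map_map]; rfl
  rw [e1, prod_max_scale _ _ hc, prod_max_scale _ _ hc, Multiset.card_map, hcard,
    mul_div_cancel_right₀ _ hc.ne', Multiset.map_map, Multiset.map_map] at h5
  have h6 := h1 r hr0
  have h7 := h2 (r * c) hrc
  have h8 := prod_max_pos r hr0 N
  have h9 := prod_max_pos (r * c) hrc N'
  have hcp : 0 < c ^ Multiset.card H := by positivity
  rw [Multiset.map_map]
  have e2 : ((fun x => max r x) ∘ fun a => q ^ a) = fun a : ℕ => max r (q ^ a) := rfl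
  have e3 : ((fun x => max (r * c) x) ∘ fun a => q ^ a) = fun a : ℕ => max (r * c) (q ^ a) := rfl
  rw [e2] at h5 ⊢
  rw [e3] at h5
  set a := (N.map fun x => max r x).prod
  set b := (N'.map fun x => max (r * c) x).prod
  set a' := (H.map fun a => max r (q ^ a)).prod
  set b' := (H'.map fun a => max (r * c) (q ^ a)).prod
  set C := c ^ Multiset.card H
  -- C a b = C a' b'
  by_contra hne
  have h10 : a < a' := lt_of_le_of_ne h6 hne
  have h11 : C * a * b < C * a' * b' := by
    calc C * a * b < C * a' * b := by
          apply mul_lt_mul_of_pos_right _ h9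
          exact mul_lt_mul_of_pos_left h10 hcp
      _ ≤ C * a' * b' := by
          apply mul_le_mul_of_nonneg_left h7
          exact (mul_pos hcp (lt_of_lt_of_le h8 h6)).le
  linarith

end reals

section gauss

variable {L : Type*} [NormedField L] [IsUltrametricDist L]

/-- The Gauss norms of a polynomial whose Newton polygon lies above the polygon with slopes `l`. -/
theorem gauss_le (f : L[X]) (n : ℕ) (hm : f.Monic) (hn : f.natDegree = n) (hs : f.Splits) (q : ℝ)
    (hq0 : 0 < q) (l : List ℕ) (hlen : l.length = n)
    (hle : ∀ k ≤ n, ‖f.coeff (n - k)‖ ≤ q ^ (l.take k).sum) (r : ℝ) (hr : 0 < r) :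
    ((f.roots.map fun y => ‖y‖).map fun x => max r x).prod ≤ (l.map fun a => max r (q ^ a)).prod := by
  classical
  set v : AbsoluteValue L ℝ := NormedField.toAbsoluteValue L with hv
  have hvn : ∀ x : L, v x = ‖x‖ := fun x => rfl
  have hna : IsNonarchimedean v := fun x y => IsUltrametricDist.norm_add_le_max x y
  have hprod : f = (f.roots.map fun y => X - C y).prod := by
    conv_lhs => rw [hs.eq_prod_roots, hm.leadingCoeff, C_1, one_mul]
  have h1 := Pool.Agent.W518.DN.gn_linear (v := v) hna hr f.roots
  rw [← hprod] at h1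
  have h2 : ((f.roots.map fun y => ‖y‖).map fun x => max r x).prod =
      (f.roots.map fun y => max r (v y)).prod := by
    rw [Multiset.map_map]; rfl
  rw [h2, ← h1]
  obtain ⟨i, hi⟩ := exists_eq_gaussNorm v r f
  rw [hi, hvn]
  by_cases hin : i ≤ n
  · have h3 := hle (n - i) (by omega)
    rw [show n - (n - i) = i by omega] at h3
    have h5 : (l.map fun a => max r (q ^ a)).prod = ((l.take (n - i)).map fun a => max r (q ^ a)).prod *
        ((l.drop (n - i)).map fun a => max r (q ^ a)).prod := by
      rw [← List.prod_append, ← List.map_append, List.take_append_drop]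
    rw [h5]
    have h6 := prod_max_ge q r hq0 hr (l.take (n - i))
    have h7 := prod_max_ge q r hq0 hr (l.drop (n - i))
    have h8 : (l.drop (n - i)).length = i := by
      rw [List.length_drop, hlen]; omega
    rw [h8] at h7
    exact mul_le_mul (h3.trans h6.1) h7.2.1 (by positivity) h6.2.2.le
  · have : f.coeff i = 0 := coeff_eq_zero_of_natDegree_lt (by omega)
    rw [this, norm_zero, zero_mul]
    exact (prod_max_ge q r hq0 hr l).2.2.le

end gauss

end Pool.Agent.R915.Ord
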