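import Pool.Agent.R915.O1

/-! Tensor products of the pieces of motives with multiplications; direct summands. -/

set_option autoImplicit false
set_option linter.all false

namespace Pool.Agent.R915.Ord

open NumberField IsDedekindDomain Polynomial Filter Topology
open Pool.Agent.W401.Cheb Pool.Agent.W528.Ord
open MultSystem (mv IsDeg1 IsOver norm_mem)

variable {K : Type} [Field K] [NumberField K] {ℓ : ℕ} [Fact ℓ.Prime] {ι : Type}

/-- A piece: the `σ`-part of the motive `A i`, for an embedding `σ` of the field of multiplications. -/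
abbrev Piece (A : ι → MotSystem K ℓ) : Type := Σ i, ((A i).E →+* AlgebraicClosure K)

/-- The Frobenius eigenvalues at `v` on the tensor product of the pieces in the list `w`. -/
noncomputable def tensRoots (A : ι → MotSystem K ℓ) (v : HeightOneSpectrum (𝓞 K)) :
    List (Piece A) → Multiset (AlgebraicClosure K)
  | [] => {1}
  | x :: w => (((A x.1).poly v x.2).roots ×ˢ tensRoots A v w).map fun y => y.1 * y.2

/-- The Hodge slopes of the tensor product of the pieces in the list `w`. -/
noncomputable def tensSlopes (A : ι → MotSystem K ℓ) : List (Piece A) → Multiset ℕ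
  | [] => {0}
  | x :: w => (((A x.1).h x.2 : Multiset ℕ) ×ˢ tensSlopes A w).map fun y => y.1 + y.2

/-- The sum of the `k` smallest elements of the multiset `H`: the polygon with slopes `H` at `k`. -/
def polygon (H : Multiset ℕ) (k : ℕ) : ℕ := ((H.sort (· ≤ ·)).take k).sum

/-- `P` is monic and its Newton polygon at `Q` lies above the polygon with slopes `H`
(Mazur's inequality). -/
def LiesAbove (Q : Ideal (𝓞 (AlgebraicClosure K))) (p : ℕ) (P : Polynomial (𝓞 (AlgebraicClosure K)))
    (H : Multiset ℕ) : Prop :=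
  P.Monic ∧ P.natDegree = Multiset.card H ∧
    ∀ k ≤ Multiset.card H, LocDvd Q p (polygon H k) (P.coeff (Multiset.card H - k))

/-- all vertices of the Hodge polygons of the pieces of the `A i` lie on the Newton polygons -/
def NoExcess (A : ι → MotSystem K ℓ) (v : HeightOneSpectrum (𝓞 K))
    (Q : Ideal (𝓞 (AlgebraicClosure K))) : Prop :=
  ∀ i, ∀ (σ : (A i).E →+* AlgebraicClosure K) (k : ℕ), (A i).Vertex σ k →
      ¬ LocDvd Q (Ideal.absNorm v.asIdeal) ((A i).hp σ k + 1) ((A i).cof v ((A i).n - k) σ)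

theorem map_product {α β γ δ : Type*} (f : α → γ) (g : β → δ) (s : Multiset α) (t : Multiset β) :
    (s ×ˢ t).map (fun y => (f y.1, g y.2)) = s.map f ×ˢ t.map g := by
  induction s using Multiset.induction_on with
  | empty => simp
  | cons a s ih =>
    rw [Multiset.cons_product, Multiset.map_add, Multiset.map_cons, Multiset.cons_product, ih,
      Multiset.map_map, Multiset.map_map]
    rfl

section tens

variable [Fintype ι] (A : ι → MotSystem K ℓ) (χ : GK K →* (PadicAlgCl ℓ)ˣ) (S : Finset ℕ)
  (hA : ∀ i, (A i).IsMotive χ S)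
  {v : HeightOneSpectrum (𝓞 K)} (hv : IsDeg1 S v)
  {Q : Ideal (𝓞 (AlgebraicClosure K))} (hQ : IsOver Q v)

include hA hv hQ in
/-- the absolute values of the eigenvalues on a tensor product of pieces -/
theorem tens_norm {p : ℕ} [Fact p.Prime] (hpe : Ideal.absNorm v.asIdeal = p)
    {τ : AlgebraicClosure K →+* PadicAlgCl p}
    (hτ : ∀ x : 𝓞 (AlgebraicClosure K), x ∈ Q ↔ ‖τ (x : AlgebraicClosure K)‖ < 1)
    (hno : NoExcess A v Q) (w : List (Piece A)) :
    (tensRoots A v w).map (fun y => ‖τ y‖) = (tensSlopes A w).map fun a => (1 / (p : ℝ)) ^ a := by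
  induction w with
  | nil => simp [tensRoots, tensSlopes]
  | cons x w ih =>
    have h1 := MotSystem.roots_part (hA x.1) hv hQ hpe hτ x.2 (fun k hk => hno x.1 x.2 k hk)
    have h2 : (((A x.1).poly v x.2).roots).map (fun y => ‖τ y‖) =
        (((A x.1).h x.2 : Multiset ℕ)).map fun a => (1 / (p : ℝ)) ^ a := by
      rw [← h1]
      have e : (A x.1).poly v (τ.comp x.2) = ((A x.1).poly v x.2).map τ := by
        unfold MotSystem.poly
        rw [Polynomial.map_map]
        rfl
      rw [e, Splits.roots_map (IsAlgClosed.splits _), Multiset.map_map]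
      rfl
    unfold tensRoots tensSlopes
    rw [Multiset.map_map, Multiset.map_map]
    have e1 : ((fun y => ‖τ y‖) ∘ fun y : AlgebraicClosure K × AlgebraicClosure K => y.1 * y.2) =
        (fun z : ℝ × ℝ => z.1 * z.2) ∘ fun y => (‖τ y.1‖, ‖τ y.2‖) := by
      funext y
      simp [map_mul, norm_mul]
    have e2 : ((fun a => (1 / (p : ℝ)) ^ a) ∘ fun y : ℕ × ℕ => y.1 + y.2) =
        (fun z : ℝ × ℝ => z.1 * z.2) ∘ fun y => ((1 / (p : ℝ)) ^ y.1, (1 / (p : ℝ)) ^ y.2) := by
      funext y
      simp only [Function.comp, pow_add]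
    rw [e1, e2, ← Multiset.map_map, ← Multiset.map_map,
      map_product (fun y => ‖τ y‖) (fun y => ‖τ y‖),
      map_product (fun a : ℕ => (1 / (p : ℝ)) ^ a) (fun a : ℕ => (1 / (p : ℝ)) ^ a), h2, ih]

end tens

section above

variable {p : ℕ} [Fact p.Prime] {Q : Ideal (𝓞 (AlgebraicClosure K))}
  {τ : AlgebraicClosure K →+* PadicAlgCl p}
  (hτ : ∀ x : 𝓞 (AlgebraicClosure K), x ∈ Q ↔ ‖τ (x : AlgebraicClosure K)‖ < 1)

/-- the eigenvalues in `K̄` -/
noncomputable def rts (P : Polynomial (𝓞 (AlgebraicClosure K))) : Multiset (AlgebraicClosure K) :=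
  (P.map (algebraMap (𝓞 (AlgebraicClosure K)) (AlgebraicClosure K))).roots

include hτ in
theorem above_gauss {P : Polynomial (𝓞 (AlgebraicClosure K))} {H : Multiset ℕ}
    (h : LiesAbove Q p P H) (r : ℝ) (hr : 0 < r) :
    (((rts P).map fun y => ‖τ y‖).map fun x => max r x).prod ≤
      (H.map fun a => max r ((1 / (p : ℝ)) ^ a)).prod := by
  obtain ⟨hm, hn, hle⟩ := h
  have hp1 : (0 : ℝ) < p := by exact_mod_cast (Fact.out : p.Prime).pos
  set f : Polynomial (PadicAlgCl p) :=
    (P.map (algebraMap (𝓞 (AlgebraicClosure K)) (AlgebraicClosure K))).map τ with hf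
  have hfm : f.Monic := (hm.map _).map _
  have hfn : f.natDegree = Multiset.card H := by
    rw [hf, (hm.map _).natDegree_map, hm.natDegree_map, hn]
  have e : (rts P).map (fun y => ‖τ y‖) = f.roots.map fun y => ‖y‖ := by
    rw [hf, Splits.roots_map (IsAlgClosed.splits _), Multiset.map_map]
    rfl
  rw [e]
  have key := gauss_le f (Multiset.card H) hfm hfn (IsAlgClosed.splits _) (1 / (p : ℝ)) (by positivity)
    (H.sort (· ≤ ·)) (by simp) ?_ r hr
  · refine key.trans (le_of_eq ?_)
    conv_rhs => rw [← Multiset.sort_eq H (· ≤ ·)]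
    rw [Multiset.map_coe, Multiset.prod_coe]
  · intro k hk
    have h1 := norm_of_locDvd hτ (hle k hk)
    have e2 : f.coeff (Multiset.card H - k) =
        τ ((P.coeff (Multiset.card H - k) : 𝓞 (AlgebraicClosure K)) : AlgebraicClosure K) := by
      rw [hf, coeff_map, coeff_map]
    rw [e2]
    exact h1

include hτ in
/-- **a direct summand of an ordinary object is ordinary** -/
theorem summand {P P' : Polynomial (𝓞 (AlgebraicClosure K))} {H H' : Multiset ℕ} (j : ℕ)
    (h : LiesAbove Q p P H) (h' : LiesAbove Q p P' H') (T : Multiset (AlgebraicClosure K))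
    (HT : Multiset ℕ) (hT : (T.map fun y => ‖τ y‖) = HT.map fun a => (1 / (p : ℝ)) ^ a)
    (hsum : ((rts P).map fun x => (p : AlgebraicClosure K) ^ j * x) + rts P' = T)
    (hslopes : H.map (fun a => j + a) + H' = HT) :
    ((rts P).map fun y => ‖τ y‖) = H.map fun a => (1 / (p : ℝ)) ^ a := by
  have hp1 : (0 : ℝ) < p := by exact_mod_cast (Fact.out : p.Prime).pos
  refine multiset_eq (1 / (p : ℝ)) ((1 / (p : ℝ)) ^ j) (by positivity) (by positivity)
    ((rts P).map fun y => ‖τ y‖) ((rts P').map fun y => ‖τ y‖) H H' ?_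
    (above_gauss hτ h) (above_gauss hτ h') ?_
  · rw [Multiset.card_map]
    unfold rts
    rw [splits_iff_card_roots.mp (IsAlgClosed.splits _), h.1.natDegree_map, h.2.1]
  · rw [← hsum, ← hslopes, Multiset.map_add, Multiset.map_add, Multiset.map_map, Multiset.map_map] at hT
    rw [Multiset.map_map]
    have e1 : ((fun y => ‖τ y‖) ∘ fun x : AlgebraicClosure K => (p : AlgebraicClosure K) ^ j * x) =
        (fun x => (1 / (p : ℝ)) ^ j * x) ∘ fun y => ‖τ y‖ := by
      funext y
      simp only [Function.comp, map_mul, map_pow, map_natCast, norm_mul, norm_pow, norm_p]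
    have e2 : ((fun a : ℕ => (1 / (p : ℝ)) ^ a) ∘ fun a => j + a) =
        fun a => (1 / (p : ℝ)) ^ j * (1 / (p : ℝ)) ^ a := by
      funext a
      simp only [Function.comp, pow_add]
    rw [e1, e2] at hT
    exact hT

end above

end Pool.Agent.R915.Ord
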