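import Pool.Agent.R915.O2

/-! Ordinary primes for direct summands of tensor products of motives with multiplications. -/

set_option autoImplicit false
set_option linter.all false

namespace Pool.Agent.R915.Ord

open NumberField IsDedekindDomain Polynomial Filter Topology
open Pool.Agent.W401.Cheb Pool.Agent.W528.Ord
open MultSystem (mv IsDeg1 IsOver norm_mem)
open MotSystem (admProportion admProportion_pos adm_dens bad_dens)

/-- Over `K`, the twist by `-j` of the object with the Frobenius polynomials `F` and the Hodge slopes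
`H` is a direct summand of a direct sum of tensor products of pieces of the `A i` (the lists in `W`);
the complement has the Frobenius polynomials `F'` and the Hodge slopes `H'`, and Mazur's inequality
holds for the summand and for the complement. -/
def IsSummand {K₀ K : Type} [Field K₀] [NumberField K₀] [Field K] [NumberField K] [Algebra K₀ K]
    {ℓ : ℕ} [Fact ℓ.Prime] {ι : Type} (A : ι → MotSystem K ℓ) (S : Finset ℕ)
    (F : HeightOneSpectrum (𝓞 K₀) → ℤ[X]) (H : Multiset ℕ) : Prop :=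
  ∃ (j : ℕ) (W : List (List (Piece A)))
    (F' : HeightOneSpectrum (𝓞 K) → Polynomial (𝓞 (AlgebraicClosure K))) (H' : Multiset ℕ),
    H.map (fun a => j + a) + H' = (W.map (tensSlopes A)).sum ∧
    ∀ (v₀ : HeightOneSpectrum (𝓞 K₀)) (v : HeightOneSpectrum (𝓞 K)),
      v.asIdeal.comap (algebraMap (𝓞 K₀) (𝓞 K)) = v₀.asIdeal → IsDeg1 S v →
      ((rts ((F v₀).map (Int.castRingHom (𝓞 (AlgebraicClosure K))))).map fun x =>
          ((Ideal.absNorm v.asIdeal : ℕ) : AlgebraicClosure K) ^ j * x) + rts (F' v) =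
        (W.map (tensRoots A v)).sum ∧
      ∀ Q : Ideal (𝓞 (AlgebraicClosure K)), IsOver Q v →
        LiesAbove Q (Ideal.absNorm v.asIdeal)
          ((F v₀).map (Int.castRingHom (𝓞 (AlgebraicClosure K)))) H ∧
        LiesAbove Q (Ideal.absNorm v.asIdeal) (F' v) H'

section family

variable {K : Type} [Field K] [NumberField K] {ℓ : ℕ} [Fact ℓ.Prime] {ι : Type} [Fintype ι]
  (A : ι → MotSystem K ℓ) (χ : GK K →* (PadicAlgCl ℓ)ˣ)
  (S : Finset ℕ) (hA : ∀ i, (A i).IsMotive χ S)

/-- all pieces are ordinary at `v` -/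
def GoodAt (A : ι → MotSystem K ℓ) (S : Finset ℕ) (v : HeightOneSpectrum (𝓞 K)) : Prop :=
  IsDeg1 S v ∧ ∃ Q : Ideal (𝓞 (AlgebraicClosure K)), IsOver Q v ∧ NoExcess A v Q

include hA in
theorem main_good :
    Tendsto (dens fun v : HeightOneSpectrum (𝓞 K) => IsDeg1 S v ∧
      (∃ γ : GK K, IsFrob v γ ∧ ∀ i, (A i).Admissible γ) ∧ ¬ GoodAt A S v) atTop (𝓝 0) := by
  classical
  have hun := dens_biUnion (Finset.univ.sigma (fun i : ι => Finset.range (A i).n))
    (fun x : (Σ _ : ι, ℕ) => (A x.1).Bad S x.2) (fun x _ => bad_dens (hA x.1) x.2)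
  refine squeeze_zero (fun N => dens_nonneg _ _) (fun N => dens_mono ?_ N) hun
  rintro v ⟨hv, ⟨γ, ⟨Q, hQ, hQv, hγ⟩, hadm⟩, hnew⟩
  by_contra hcon
  apply hnew
  refine ⟨hv, Q, ⟨hQ, hQv⟩, ?_⟩
  intro i σ k hk hd
  apply hcon
  refine ⟨⟨i, k⟩, ?_, hv, Q, γ, σ, ⟨hQ, hQv⟩, hγ, hadm i, hk, hd⟩
  rw [Finset.mem_sigma]
  exact ⟨Finset.mem_univ _, Finset.mem_range.mpr hk.2.1⟩

include hA in
theorem lower_good (ε : ℝ) (hε : 0 < ε) :
    ∀ᶠ N : ℕ in atTop, admProportion A - ε ≤ dens (GoodAt A S) N := by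
  have hlim := adm_dens A χ S hA
  have h1 := main_good A χ S hA
  have h2 := dens_not_prime (K := K)
  have h3 := dens_finite _ (finite_norm_mem (K := K) S)
  have e0 := hlim.eventually (lt_mem_nhds (show admProportion A - ε / 4 < admProportion A by linarith))
  have e1 := h1.eventually (gt_mem_nhds (show (0:ℝ) < ε / 4 by positivity))
  have e2 := h2.eventually (gt_mem_nhds (show (0:ℝ) < ε / 4 by positivity))
  have e3 := h3.eventually (gt_mem_nhds (show (0:ℝ) < ε / 4 by positivity))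
  filter_upwards [e0, e1, e2, e3] with N h0 h1 h2 h3
  have hle : dens (fun v : HeightOneSpectrum (𝓞 K) => ∃ γ : GK K, IsFrob v γ ∧ ∀ i, (A i).Admissible γ) N ≤
      dens (GoodAt A S) N +
      (dens (fun v : HeightOneSpectrum (𝓞 K) => IsDeg1 S v ∧
      (∃ γ : GK K, IsFrob v γ ∧ ∀ i, (A i).Admissible γ) ∧ ¬ GoodAt A S v) N +
      (dens (fun v : HeightOneSpectrum (𝓞 K) => ¬ (Ideal.absNorm v.asIdeal).Prime) N +
      dens (fun v : HeightOneSpectrum (𝓞 K) => Ideal.absNorm v.asIdeal ∈ S) N)) := by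
    refine le_trans (dens_mono (Q := fun v => _ ∨ (_ ∨ (_ ∨ _))) ?_ N)
      (le_trans (dens_or _ _ N) (add_le_add_right (le_trans (dens_or _ _ N)
        (add_le_add_right (dens_or _ _ N) _)) _))
    intro v hv
    by_cases hp : (Ideal.absNorm v.asIdeal).Prime
    · by_cases hS : Ideal.absNorm v.asIdeal ∈ S
      · exact Or.inr (Or.inr (Or.inr hS))
      · by_cases hd : GoodAt A S v
        · exact Or.inl hd
        · exact Or.inr (Or.inl ⟨⟨hp, hS⟩, hv, hd⟩)
    · exact Or.inr (Or.inr (Or.inl hp))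
  linarith

end family

section down

variable {K₀ K : Type} [Field K₀] [NumberField K₀] [Field K] [NumberField K] [Algebra K₀ K]
    {ℓ : ℕ} [Fact ℓ.Prime] {ι : Type} [Fintype ι] (A : ι → MotSystem K ℓ)
    (χ : GK K →* (PadicAlgCl ℓ)ˣ) (S : Finset ℕ) (hA : ∀ i, (A i).IsMotive χ S)

theorem map_list_sum {α β : Type*} (f : α → β) (l : List (Multiset α)) :
    l.sum.map f = (l.map fun M => M.map f).sum := by
  induction l with
  | nil => simp
  | cons a l ih => rw [List.sum_cons, Multiset.map_add, ih, List.map_cons, List.sum_cons]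

include hA in
/-- a summand is ordinary at the places where all the pieces are ordinary -/
theorem newton_of_good {F : HeightOneSpectrum (𝓞 K₀) → ℤ[X]} {H : Multiset ℕ}
    (hF : IsSummand A S F H) (v₀ : HeightOneSpectrum (𝓞 K₀)) (v : HeightOneSpectrum (𝓞 K))
    (h0 : v.asIdeal.comap (algebraMap (𝓞 K₀) (𝓞 K)) = v₀.asIdeal) (hv : GoodAt A S v) :
    NewtonSlopes (Ideal.absNorm v₀.asIdeal) (F v₀) H := by
  obtain ⟨hv1, Q, hQ, hno⟩ := hv
  obtain ⟨j, W, F', H', hsl, hsum⟩ := hF
  obtain ⟨hs, hab⟩ := hsum v₀ v h0 hv1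
  obtain ⟨ha, ha'⟩ := hab Q hQ
  rw [under_norm v hv1.1 v₀ h0]
  obtain ⟨p, hpe⟩ : ∃ p, Ideal.absNorm v.asIdeal = p := ⟨_, rfl⟩
  have hpp : p.Prime := hpe ▸ hv1.1
  haveI : Fact p.Prime := ⟨hpp⟩
  have hpQ := norm_mem hv1.1 hQ.2
  rw [hpe] at hpQ hs ha ha' ⊢
  obtain ⟨τ, hτ⟩ := exists_tau (p := p) Q hQ.1 hpQ
  have key := summand hτ j ha ha' ((W.map (tensRoots A v)).sum) ((W.map (tensSlopes A)).sum) ?_ hs hsl
  · refine ⟨inferInstance, ?_⟩
    rw [← key]
    have e : (F v₀).map (Int.castRingHom (PadicAlgCl p)) =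
        ((((F v₀).map (Int.castRingHom (𝓞 (AlgebraicClosure K)))).map
          (algebraMap (𝓞 (AlgebraicClosure K)) (AlgebraicClosure K)))).map τ := by
      rw [Polynomial.map_map, Polynomial.map_map]
      congr 1
      exact (RingHom.ext_int _ _)
    rw [e, Splits.roots_map (IsAlgClosed.splits _), Multiset.map_map]
    rfl
  · rw [map_list_sum, map_list_sum, List.map_map, List.map_map]
    congr 1
    apply List.map_congr_left
    intro w _
    exact tens_norm A χ S hA hv1 hQ hpe hτ hno w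

include hA in
/-- **positive lower density over the subfield** -/
theorem lower_summands {ν : Type} (F : ν → HeightOneSpectrum (𝓞 K₀) → ℤ[X]) (H : ν → Multiset ℕ)
    (hF : ∀ n, IsSummand A S (F n) (H n)) (hγ : ∃ γ : GK K, ∀ i, (A i).Admissible γ) :
    0 < lowerDensity (fun v₀ : HeightOneSpectrum (𝓞 K₀) => IsDeg1 S v₀ ∧
      ∀ n, NewtonSlopes (Ideal.absNorm v₀.asIdeal) (F n v₀) (H n)) := by
  classical
  have hpos := admProportion_pos A hγ
  have hev := lower_good A χ S hA (admProportion A / 2) (by positivity)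
  have hd : (0 : ℝ) < (Module.finrank ℚ K : ℝ) := by exact_mod_cast Module.finrank_pos
  apply lowerDensity_pos _ (admProportion A / 2 / (Module.finrank ℚ K : ℝ)) (by positivity)
  filter_upwards [hev] with N hN
  have h1 := dens_under (K₀ := K₀) (GoodAt A S)
      (fun v₀ : HeightOneSpectrum (𝓞 K₀) => IsDeg1 S v₀ ∧
        ∀ n, NewtonSlopes (Ideal.absNorm v₀.asIdeal) (F n v₀) (H n))
      (fun v hv => hv.1.1) (fun v v₀ hv h0 => by
        have e := under_norm v hv.1.1 v₀ h0
        refine ⟨?_, fun n => newton_of_good A χ S hA (hF n) v₀ v h0 hv⟩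
        unfold IsDeg1
        rw [e]
        exact hv.1) N
  rw [div_le_iff₀ hd, mul_comm]
  have h2 : admProportion A / 2 ≤ admProportion A - admProportion A / 2 := by linarith
  exact (h2.trans hN).trans h1

end down

end Pool.Agent.R915.Ord
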