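import Pool.Agent.Y95.Q.K3

/-!
# Discriminants of Hodge classes on cubic fourfolds: representation of `2 n ^ 2 + 2 n + 2`
-/

set_option autoImplicit false

namespace Pool.Agent.R915.Q

open Pool.Agent.Y95.Q Pool.Agent.Y95.Q.H4

section arith

/-- the case of a class of discriminant `8` -/
theorem num_eight (β c : ℤ) (hc : Even c) (h : Odd β ∨ ¬ 4 ∣ c) :
    ∃ x n : ℤ, 8 * x ^ 2 + 2 * x * β + c = 2 * n ^ 2 + 2 * n + 2 := by
  obtain ⟨c', rfl⟩ := hc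
  rcases Int.even_or_odd β with hβ | hβ
  · have h4 : ¬ (4 : ℤ) ∣ c' + c' := h.resolve_left (Int.not_odd_iff_even.2 hβ)
    obtain ⟨e, he⟩ : ∃ e, c' = 2 * e + 1 := by
      refine ⟨c' / 2, ?_⟩
      omega
    subst he
    obtain ⟨b, rfl⟩ := hβ
    rcases Int.even_or_odd b with ⟨d, rfl⟩ | ⟨d, rfl⟩
    · -- `β = 4 d`, `c = 4 e + 2`; `k = 2 d + 1`, `8 x = 2 c - 3 - k ^ 2`
      -- `8 x = 8 e + 1 - (4 d ^ 2 + 4 d + 1) = 8 e - 4 d (d + 1)`
      obtain ⟨t, ht⟩ := Int.even_mul_succ_self d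
      refine ⟨e - t, 2 * (e - t) + d, ?_⟩
      have ht' : d ^ 2 = 2 * t - d := by linarith [ht, (by ring : d * (d + 1) = d ^ 2 + d)]
      ring_nf
      ring_nf at ht'
      rw [ht']
      ring
    · -- `β = 4 d + 2`
      obtain ⟨t, ht⟩ := Int.even_mul_succ_self d
      have ht' : d ^ 2 = 2 * t - d := by linarith [ht, (by ring : d * (d + 1) = d ^ 2 + d)]
      -- `16 j x = 2 c - b ^ 2 - 4 j b - 7`, `b = 2 d + 1`, `c = 4 e + 2`, `b ^ 2 = 8 t + 1`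
      -- `16 j x = 8 e - 4 - 8 t - 4 j b`, `4 j x = 2 e - 1 - 2 t - j b`
      rcases (by omega : (2 * e - 1 - 2 * t - (2 * d + 1)) % 4 = 0 ∨
        (2 * e - 1 - 2 * t + (2 * d + 1)) % 4 = 0) with h1 | h1
      · obtain ⟨x, hx⟩ := Int.dvd_of_emod_eq_zero h1
        -- `m = 4 x + k`, `k = b + 2 = 2 d + 3`, `n = (m - 1) / 2 = 2 x + d + 1`
        refine ⟨x, 2 * x + d + 1, ?_⟩
        have he : 2 * e = 4 * x + 1 + 2 * t + (2 * d + 1) := by linarith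
        ring_nf
        rw [ht']
        linear_combination 2 * he
      · obtain ⟨y, hy⟩ := Int.dvd_of_emod_eq_zero h1
        -- `j = -1`: `- 4 x = 2 e - 1 - 2 t + b`; `k = b - 2 = 2 d - 1`, `n = 2 x + d - 1`
        refine ⟨-y, 2 * (-y) + d - 1, ?_⟩
        have he : 2 * e = 4 * y + 1 + 2 * t - (2 * d + 1) := by linarith
        ring_nf
        rw [ht']
        linear_combination 2 * he
  · -- `β` odd: `k = (β + ε) / 2` odd, `4 ε x = 2 c - 3 - k ^ 2`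
    rcases (by obtain ⟨i, hi⟩ := hβ; omega : β % 4 = 1 ∨ β % 4 = 3) with h1 | h1
    · obtain ⟨d, hd⟩ : ∃ d, β = 4 * d + 1 := ⟨β / 4, by omega⟩
      -- `k = 2 d + 1`, `4 x = 4 c' - 3 - (2 d + 1) ^ 2`
      refine ⟨c' - 1 - d - d ^ 2, 2 * (c' - 1 - d - d ^ 2) + d, ?_⟩
      rw [hd]
      ring
    · obtain ⟨d, hd⟩ : ∃ d, β = 4 * d - 1 := ⟨(β + 1) / 4, by omega⟩
      -- `k = (β - 1) / 2 = 2 d - 1`, `- 4 x = 4 c' - 3 - (2 d - 1) ^ 2`
      refine ⟨-(c' - 1 + d - d ^ 2), 2 * (-(c' - 1 + d - d ^ 2)) + d - 1, ?_⟩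
      rw [hd]
      ring

/-- the case of a class of discriminant `18` -/
theorem num_eighteen (β c : ℤ) (hc : Even c) (h : c % 3 = 2 ∨ c % 9 = 6) :
    ∃ x n : ℤ, 18 * x ^ 2 + 2 * x * 2 * (3 * β) + 2 ^ 2 * c = 2 * n ^ 2 + 2 * n + 2 := by
  obtain ⟨c', rfl⟩ := hc
  rcases h with h | h
  · rcases (by omega : β % 3 = 1 ∨ β % 3 = 0 ∨ β % 3 = 2) with h1 | h1
    · obtain ⟨d, rfl⟩ : ∃ d, β = 3 * d + 1 := ⟨β / 3, by omega⟩
      obtain ⟨e, he⟩ : ∃ e, 2 * (c' + c') - 1 = 3 * e := ⟨(2 * (c' + c') - 1) / 3, by omega⟩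
      -- `x = -(2 c - β ^ 2 + β - 1) / 3 = - (3 e - 3 d (3 d + 1)) / 3`
      refine ⟨-(e - d * (3 * d + 1)), 3 * (-(e - d * (3 * d + 1))) + (3 * d + 1) - 1, ?_⟩
      linear_combination 2 * he
    · obtain ⟨g, hg⟩ : ∃ g, β * (β + 1) = 3 * g := by
        rcases h1 with h1 | h1
        · obtain ⟨d, rfl⟩ : ∃ d, β = 3 * d := ⟨β / 3, by omega⟩
          exact ⟨d * (3 * d + 1), by ring⟩
        · obtain ⟨d, rfl⟩ : ∃ d, β = 3 * d + 2 := ⟨β / 3, by omega⟩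
          exact ⟨(3 * d + 2) * (d + 1), by ring⟩
      obtain ⟨e, he⟩ : ∃ e, 2 * (c' + c') - 1 = 3 * e := ⟨(2 * (c' + c') - 1) / 3, by omega⟩
      -- `x = (2 c - β ^ 2 - β - 1) / 3 = e - g`
      refine ⟨e - g, 3 * (e - g) + β, ?_⟩
      linear_combination 2 * he - 2 * hg
  · obtain ⟨c₁, hc₁⟩ : ∃ c₁, c' + c' = 3 * c₁ := ⟨(c' + c') / 3, by omega⟩
    obtain ⟨e, he⟩ : ∃ e, 2 * c₁ - 1 = 3 * e := ⟨(2 * c₁ - 1) / 3, by omega⟩
    rcases (by omega : β % 3 = 0 ∨ β % 3 = 1 ∨ β % 3 = 2) with h1 | h1 | h1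
    · obtain ⟨d, rfl⟩ : ∃ d, β = 3 * d := ⟨β / 3, by omega⟩
      -- `x = (2 c₁ - 3 d ^ 2 - 3 d - 1) / 3 = e - d ^ 2 - d`
      refine ⟨e - d ^ 2 - d, 3 * (e - d ^ 2 - d) + 3 * d + 1, ?_⟩
      linear_combination 4 * hc₁ + 6 * he
    · obtain ⟨d, rfl⟩ : ∃ d, β = 3 * d + 1 := ⟨β / 3, by omega⟩
      refine ⟨2 * c₁ - 3 * d ^ 2 - 3 * d - 1, 3 * (2 * c₁ - 3 * d ^ 2 - 3 * d - 1) + 3 * d + 1, ?_⟩
      linear_combination 4 * hc₁
    · obtain ⟨d, rfl⟩ : ∃ d, β = 3 * d + 2 := ⟨β / 3, by omega⟩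
      refine ⟨-(2 * c₁ - 3 * d ^ 2 - 3 * d - 1),
        3 * (-(2 * c₁ - 3 * d ^ 2 - 3 * d - 1)) + 3 * d + 1, ?_⟩
      linear_combination 4 * hc₁

theorem exists_prime_two_mod_three (g : ℕ) (hg : g % 3 = 2) :
    ∃ p : ℕ, p.Prime ∧ p ∣ g ∧ p % 3 = 2 := by
  induction g using Nat.strong_induction_on with
  | _ g ih =>
    have h1 : g ≠ 1 := by rintro rfl; omega
    have hp := Nat.minFac_prime h1
    obtain ⟨k, hk⟩ := Nat.minFac_dvd g
    set p := g.minFac with hpdef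
    rcases (by omega : p % 3 = 2 ∨ p % 3 = 0 ∨ p % 3 = 1) with h2 | h2 | h2
    · exact ⟨p, hp, ⟨k, hk⟩, h2⟩
    · exfalso
      have : g % 3 = 0 := by rw [hk, Nat.mul_mod, h2]; simp
      omega
    · have h3 : k % 3 = 2 := by
        have h4 : (p * k) % 3 = 2 := by rw [← hk]; exact hg
        rw [Nat.mul_mod, h2, one_mul, Nat.mod_mod] at h4
        exact h4
      have hlt : k < g := by
        have hk0 : 0 < k := by
          rcases Nat.eq_zero_or_pos k with h0 | h0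
          · rw [h0] at h3; omega
          · exact h0
        rw [hk]
        have := hp.two_le
        nlinarith
      obtain ⟨q, hq, hqk, hq3⟩ := ih k hlt h3
      exact ⟨q, hq, hqk.trans ⟨p, by rw [hk]; ring⟩, hq3⟩

/-- the conditions at `3` for an admissible number -/
theorem admissible_mod {d : ℤ} (hd : Admissible d) (he : Even d) (h3 : d % 3 = 0 ∨ d % 3 = 2) :
    d % 3 = 2 ∨ d % 9 = 6 := by
  obtain ⟨h6, h4, h9, hp⟩ := hd
  by_contra hcon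
  push Not at hcon
  obtain ⟨hc1, hc2⟩ := hcon
  have h0 : d % 3 = 0 := h3.resolve_right hc1
  have hd9 : d % 9 = 3 := by omega
  obtain ⟨e, rfl⟩ := he
  obtain ⟨g, hg⟩ : ∃ g : ℕ, (g : ℤ) = e / 3 := ⟨(e / 3).toNat, by omega⟩
  have hge : e = 3 * g := by omega
  have hg3 : g % 3 = 2 := by omega
  obtain ⟨p, hpp, hpg, hp3⟩ := exists_prime_two_mod_three g hg3
  have hg2 : g % 2 = 1 := by omega
  have hp2 : p ≠ 2 := by
    rintro rfl
    omega
  refine hp p hpp hp2 ?_ hp3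
  rw [hge]
  have : (p : ℤ) ∣ (g : ℤ) := by exact_mod_cast hpg
  obtain ⟨t, ht⟩ := this
  exact ⟨6 * t, by rw [ht]; ring⟩

end arith

section lattice

variable {X : CubicFourfold} {H : H4 X}

/-- the symmetric bilinear form with `bb v v = disc v` -/
def bb (H : H4 X) (v w : Fin 23 → ℤ) : ℤ := 3 * H.ip v w - H.ip H.h v * H.ip H.h w

theorem disc_eq_bb (v : Fin 23 → ℤ) : H.disc v = bb H v v := by
  simp only [H4.disc, bb]; ring

theorem bb_comm (hH : H.IsCohomology) (v w : Fin 23 → ℤ) : bb H v w = bb H w v := by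
  simp only [bb, hH.comm v w]; ring

theorem bb_comb_left (a b : ℤ) (u v w : Fin 23 → ℤ) :
    bb H (a • u + b • v) w = a * bb H u w + b * bb H v w := by
  simp only [bb, ip_add_left, ip_add_right, ip_smul_left, ip_smul_right]; ring

theorem bb_add_left (u v w : Fin 23 → ℤ) : bb H (u + v) w = bb H u w + bb H v w := by
  simp only [bb, ip_add_left, ip_add_right]; ring

theorem bb_smul_left (a : ℤ) (u w : Fin 23 → ℤ) : bb H (a • u) w = a * bb H u w := by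
  simp only [bb, ip_smul_left, ip_smul_right]; ring

theorem bb_h_left (hH : H.IsCohomology) (w : Fin 23 → ℤ) : bb H H.h w = 0 := by
  simp only [bb, hH.h_self]; ring

theorem disc_lin (hH : H.IsCohomology) (a b : ℤ) (u v : Fin 23 → ℤ) :
    H.disc (a • u + b • v) = a ^ 2 * H.disc u + 2 * a * b * bb H u v + b ^ 2 * H.disc v := by
  simp only [H4.disc, bb, ip_add_left, ip_add_right, ip_smul_left, ip_smul_right, hH.comm v u]
  ring

theorem disc_add (hH : H.IsCohomology) (u v : Fin 23 → ℤ) :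
    H.disc (u + v) = H.disc u + 2 * bb H u v + H.disc v := by
  have := disc_lin hH 1 1 u v
  rw [one_smul, one_smul] at this
  rw [this]; ring

theorem disc_even (hH : H.IsCohomology) (v : Fin 23 → ℤ) : Even (H.disc v) := by
  have h1 := hH.char v
  rw [hH.comm v H.h] at h1
  have h3 : H.disc v = 2 * H.ip v v + (H.ip v v - H.ip H.h v) +
      (H.ip H.h v - H.ip H.h v ^ 2) := by
    simp only [H4.disc]; ring
  rw [h3]
  refine Even.add (Even.add (even_two_mul _) h1) ?_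
  have h4 : H.ip H.h v - H.ip H.h v ^ 2 = -(H.ip H.h v * (H.ip H.h v - 1)) := by ring
  rw [h4]
  exact (Int.even_mul_pred_self _).neg

theorem disc_mod (v : Fin 23 → ℤ) : H.disc v % 3 = 0 ∨ H.disc v % 3 = 2 := by
  have h1 : H.disc v = 3 * H.ip v v - H.ip H.h v ^ 2 := rfl
  rcases (by omega : H.ip H.h v % 3 = 0 ∨ H.ip H.h v % 3 = 1 ∨ H.ip H.h v % 3 = 2) with h | h | h
  · left
    obtain ⟨d, hd⟩ : ∃ d, H.ip H.h v = 3 * d := ⟨H.ip H.h v / 3, by omega⟩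
    rw [h1, hd]
    have : 3 * H.ip v v - (3 * d) ^ 2 = 3 * (H.ip v v - 3 * d ^ 2) := by ring
    omega
  · right
    obtain ⟨d, hd⟩ : ∃ d, H.ip H.h v = 3 * d + 1 := ⟨H.ip H.h v / 3, by omega⟩
    rw [h1, hd]
    have : 3 * H.ip v v - (3 * d + 1) ^ 2 = 3 * (H.ip v v - 3 * d ^ 2 - 2 * d - 1) + 2 := by ring
    omega
  · right
    obtain ⟨d, hd⟩ : ∃ d, H.ip H.h v = 3 * d + 2 := ⟨H.ip H.h v / 3, by omega⟩
    rw [h1, hd]
    have : 3 * H.ip v v - (3 * d + 2) ^ 2 = 3 * (H.ip v v - 3 * d ^ 2 - 4 * d - 2) + 2 := by ring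
    omega

/-- if `3` divides the discriminant of `v` then it divides `bb v w` -/
theorem three_dvd_bb {v : Fin 23 → ℤ} (hv : H.disc v % 3 = 0) (w : Fin 23 → ℤ) :
    ∃ b, bb H v w = 3 * b := by
  have h1 : H.disc v = 3 * H.ip v v - H.ip H.h v ^ 2 := rfl
  have h2 : (3 : ℤ) ∣ H.ip H.h v ^ 2 := by
    refine ⟨H.ip v v - H.disc v / 3, ?_⟩
    omega
  obtain ⟨d, hd⟩ := Int.Prime.dvd_pow' Nat.prime_three h2
  push_cast at hd
  exact ⟨H.ip v w - d * H.ip H.h w, by rw [bb, hd]; ring⟩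

/-- `F(X)` is birational to the Hilbert square of a K3 surface (criterion of Addington) -/
def HasHilbertSquare (H : H4 X) : Prop :=
  ∃ (v : Fin 23 → ℤ) (n : ℤ), H.IsHodge v ∧ H.disc v = 2 * n ^ 2 + 2 * n + 2

/-- the Hilbert square criterion implies the K3 criterion -/
theorem hasK3_of_hasHilbertSquare (hH : H.IsCohomology) (h : HasHilbertSquare H) : H.HasK3 := by
  obtain ⟨v, n, hvH, hv⟩ := h
  have hpos : 0 < H.disc v := by
    rw [hv]
    nlinarith [sq_nonneg (2 * n + 1)]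
  obtain ⟨w, m, l, hm, hsat, hw⟩ := hH.exists_saturated _ hpos
  have hwH : H.IsHodge w := by
    refine H.isHodge_of_smul hm.ne' ?_
    have h1 : m • w = v - l • H.h := by
      rw [hw]
      abel
    rw [h1]
    exact H.isHodge_sub hvH (H.isHodge_smul _ hH.h_hodge)
  have hmw : m ^ 2 * H.disc w = 2 * n ^ 2 + 2 * n + 2 := by
    rw [← hv, hw, hH.disc_comb]
  have hw0 : 0 < H.disc w := by
    by_contra hcon
    push Not at hcon
    have : m ^ 2 * H.disc w ≤ 0 := mul_nonpos_of_nonneg_of_nonpos (by positivity) hcon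
    rw [hmw, ← hv] at this
    linarith
  exact ⟨w, hwH, hsat, hH.six_lt hwH hw0, four_not_dvd hmw, nine_not_dvd hmw,
    fun p hp hp2 hd => prime_mod hmw hp hp2 hd⟩

/-- **On `C_8`** -/
theorem hilb_of_eight (hH : H.IsCohomology) {P v : Fin 23 → ℤ} (hP : H.IsHodge P)
    (h8 : H.disc P = 8) (hv : H.IsHodge v) (h : Odd (bb H P v) ∨ ¬ 4 ∣ H.disc v) :
    HasHilbertSquare H := by
  obtain ⟨x, n, hxn⟩ := num_eight (bb H P v) (H.disc v) (disc_even hH v) h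
  refine ⟨x • P + (1 : ℤ) • v, n, H.isHodge_add (H.isHodge_smul _ hP) (H.isHodge_smul _ hv), ?_⟩
  rw [disc_lin hH, h8, ← hxn]
  ring

/-- **On `C_18`** -/
theorem hilb_of_eighteen (hH : H.IsCohomology) {P v : Fin 23 → ℤ} (hP : H.IsHodge P)
    (h18 : H.disc P = 18) (hv : H.IsHodge v) (h : H.disc v % 3 = 2 ∨ H.disc v % 9 = 6) :
    HasHilbertSquare H := by
  obtain ⟨b, hb⟩ := three_dvd_bb (H := H) (v := P) (by rw [h18]; norm_num) v
  obtain ⟨x, n, hxn⟩ := num_eighteen b (H.disc v) (disc_even hH v) h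
  refine ⟨x • P + (2 : ℤ) • v, n, H.isHodge_add (H.isHodge_smul _ hP) (H.isHodge_smul _ hv), ?_⟩
  rw [disc_lin hH, h18, ← hxn, hb]
  ring

theorem eight_iff (hH : H.IsCohomology) {P : Fin 23 → ℤ} (hP : H.IsHodge P)
    (h8 : H.disc P = 8) :
    (H.HasK3 ↔ ∃ v, H.IsHodge v ∧ ¬ 4 ∣ H.disc v) ∧
      (HasHilbertSquare H ↔ ∃ v, H.IsHodge v ∧ ¬ 4 ∣ H.disc v) := by
  have h1 : (∃ v, H.IsHodge v ∧ ¬ 4 ∣ H.disc v) → HasHilbertSquare H := by
    rintro ⟨v, hv, h4⟩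
    exact hilb_of_eight hH hP h8 hv (Or.inr h4)
  have h2 : H.HasK3 → ∃ v, H.IsHodge v ∧ ¬ 4 ∣ H.disc v := by
    rintro ⟨v, hv, _, _, h4, _⟩
    exact ⟨v, hv, h4⟩
  exact ⟨⟨h2, fun h => hasK3_of_hasHilbertSquare hH (h1 h)⟩,
    ⟨fun h => h2 (hasK3_of_hasHilbertSquare hH h), h1⟩⟩

theorem eighteen_iff (hH : H.IsCohomology) {P : Fin 23 → ℤ} (hP : H.IsHodge P)
    (h18 : H.disc P = 18) :
    (H.HasK3 ↔ ∃ v, H.IsHodge v ∧ H.disc v % 9 ≠ 0 ∧ H.disc v % 9 ≠ 3) ∧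
      (HasHilbertSquare H ↔ ∃ v, H.IsHodge v ∧ H.disc v % 9 ≠ 0 ∧ H.disc v % 9 ≠ 3) := by
  have h1 : (∃ v, H.IsHodge v ∧ H.disc v % 9 ≠ 0 ∧ H.disc v % 9 ≠ 3) → HasHilbertSquare H := by
    rintro ⟨v, hv, h4, h5⟩
    refine hilb_of_eighteen hH hP h18 hv ?_
    have := disc_mod (H := H) v
    omega
  have h2 : H.HasK3 → ∃ v, H.IsHodge v ∧ H.disc v % 9 ≠ 0 ∧ H.disc v % 9 ≠ 3 := by
    rintro ⟨v, hv, _, hadm⟩
    have := admissible_mod hadm (disc_even hH v) (disc_mod v)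
    exact ⟨v, hv, by omega, by omega⟩
  exact ⟨⟨h2, fun h => hasK3_of_hasHilbertSquare hH (h1 h)⟩,
    ⟨fun h => h2 (hasK3_of_hasHilbertSquare hH h), h1⟩⟩

end lattice

end Pool.Agent.R915.Q
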