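import Pool.Agent.R915.Q2

/-!
# Cubic fourfolds in `C_(2 s^2)` with a class prime to `s`
-/

set_option autoImplicit false

namespace Pool.Agent.R915.Q

open Pool.Agent.Y95.Q Pool.Agent.Y95.Q.H4

theorem num_square (s β c : ℤ) (hc : Even c) (h : IsCoprime s β) :
    ∃ x y n : ℤ, 2 * s ^ 2 * x ^ 2 + 2 * x * y * β + y ^ 2 * c = 2 * n ^ 2 + 2 * n + 2 := by
  obtain ⟨c', rfl⟩ := hc
  obtain ⟨a, b, hab⟩ := h
  -- `s k - β y = 1` with `k` odd
  obtain ⟨k, y, hky⟩ : ∃ k y : ℤ, s * (2 * k + 1) - β * y = 1 := by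
    rcases Int.even_or_odd' a with ⟨i, hi | hi⟩
    · rcases Int.even_or_odd' β with ⟨j, hj | hj⟩
      · exfalso
        rw [hi, hj] at hab
        have h1 : 2 * (i * s + b * j) = 1 := by linear_combination hab
        omega
      · -- `k := a + β`, `y := -b + s`
        refine ⟨i + j, -b + s, ?_⟩
        rw [hi, hj] at hab
        rw [hj]
        linear_combination hab
    · refine ⟨i, -b, ?_⟩
      rw [hi] at hab
      linear_combination hab
  -- `4 x = 2 c y ^ 2 - (2 k + 1) ^ 2 - 3`, `2 n + 1 = 2 s x + 2 k + 1`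
  refine ⟨c' * y ^ 2 - k ^ 2 - k - 1, y, s * (c' * y ^ 2 - k ^ 2 - k - 1) + k, ?_⟩
  linear_combination (-2 * (c' * y ^ 2 - k ^ 2 - k - 1)) * hky

variable {X : CubicFourfold} {H : H4 X}

theorem hilb_of_square (hH : H.IsCohomology) {u v : Fin 23 → ℤ} {s : ℤ} (hu : H.IsHodge u)
    (hs : H.disc u = 2 * s ^ 2) (hv : H.IsHodge v) (h : IsCoprime s (bb H u v)) :
    HasHilbertSquare H := by
  obtain ⟨x, y, n, hxn⟩ := num_square s (bb H u v) (H.disc v) (disc_even hH v) h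
  refine ⟨x • u + y • v, n, H.isHodge_add (H.isHodge_smul _ hu) (H.isHodge_smul _ hv), ?_⟩
  rw [disc_lin hH, hs, ← hxn]
  ring

end Pool.Agent.R915.Q
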