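import Mathlib
import Pool.Agent.R915.H2
import Pool.Agent.W547.LD.Field

/-!
# Simple abelian varieties with complex multiplication are of CM type
-/

set_option linter.unusedSectionVars false

namespace Pool.Agent.R915

open Matrix Module Pool.Agent.Y90 NumberField Pool.Agent.W437.HC Pool.Agent.W437.HD
open Pool.Agent.H204R3.CM (IsHodge IsCMType)
open Pool.Agent.W547.KB (CMPair CMAV)
open Pool.Agent.W548.Odd hiding cv

open scoped ComplexOrder

noncomputable section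

section act

variable {g : ℕ} {Z : Matrix (Fin g) (Fin g) ℂ}

/-- A number field acting on a period matrix, such that the homology has rank one. -/
structure KAct (Z : Matrix (Fin g) (Fin g) ℂ) (K : Type) [Field K] [NumberField K] where
  M : K →+* Matrix (Fin g ⊕ Fin g) (Fin g ⊕ Fin g) ℚ
  comm : ∀ x, qm (M x) * DZ Z = DZ Z * qm (M x)
  e : (Fin g ⊕ Fin g → ℚ) ≃ₗ[ℚ] K
  he : ∀ x v, e (M x *ᵥ v) = x * e v
  max : ∀ R : Matrix (Fin g ⊕ Fin g) (Fin g ⊕ Fin g) ℚ, qm R * DZ Z = DZ Z * qm R → ∃ x, R = M x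

variable (h : PM Z) {K : Type} [Field K] [NumberField K] (k : KAct Z K)

theorem ext_cv {V : Type*} [AddCommGroup V] [Module ℂ V]
    {l l' : (Fin g ⊕ Fin g → ℂ) →ₗ[ℂ] V} (hl : ∀ v : Fin g ⊕ Fin g → ℚ, l (cv v) = l' (cv v)) :
    l = l' := by
  refine (Pi.basisFun ℂ (Fin g ⊕ Fin g)).ext fun i => ?_
  rw [Pi.basisFun_apply, ← single_cv]
  exact hl _

namespace KAct

/-- The complex linear extension of an embedding. -/
def lf (φ : K →+* ℂ) : (Fin g ⊕ Fin g → ℂ) →ₗ[ℂ] ℂ :=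
  ∑ i, (φ (k.e (Pi.single i 1))) • LinearMap.proj i

theorem lf_apply (φ : K →+* ℂ) (w : Fin g ⊕ Fin g → ℂ) :
    k.lf φ w = ∑ i, φ (k.e (Pi.single i 1)) * w i := by
  simp [lf, LinearMap.sum_apply]

theorem lf_cv (φ : K →+* ℂ) (v : Fin g ⊕ Fin g → ℚ) : k.lf φ (cv v) = φ (k.e v) := by
  rw [lf_apply]
  have h1 : v = ∑ i, v i • (Pi.single i 1 : Fin g ⊕ Fin g → ℚ) := by
    funext j
    simp [Finset.sum_apply, Pi.single_apply]
  conv_rhs => rw [h1]
  rw [map_sum, map_sum]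
  refine Finset.sum_congr rfl fun i _ => ?_
  rw [map_smul, Rat.smul_def, map_mul, map_ratCast, mul_comm]
  rfl

theorem lf_M (φ : K →+* ℂ) (x : K) (w : Fin g ⊕ Fin g → ℂ) :
    k.lf φ (qm (k.M x) *ᵥ w) = φ x * k.lf φ w := by
  have h1 : (k.lf φ).comp (mulVecLin (qm (k.M x))) = φ x • k.lf φ := by
    refine ext_cv fun v => ?_
    rw [LinearMap.comp_apply, mulVecLin_apply, LinearMap.smul_apply, smul_eq_mul, lf_cv]
    have h2 : qm (k.M x) *ᵥ cv v = cv (k.M x *ᵥ v) := (cv_mulVec' v).symm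
    rw [h2, lf_cv, k.he, map_mul]
  exact congrArg (fun f => f w) h1

/-- The base vector. -/
def v1 : Fin g ⊕ Fin g → ℚ := k.e.symm 1

theorem M_v1 (v : Fin g ⊕ Fin g → ℚ) : k.M (k.e v) *ᵥ k.v1 = v := by
  apply k.e.injective
  rw [k.he]
  unfold v1
  rw [LinearEquiv.apply_symm_apply, mul_one]

/-- The eigenfunctionals. -/
theorem eig_unique {φ : K →+* ℂ} {l : (Fin g ⊕ Fin g → ℂ) →ₗ[ℂ] ℂ}
    (hl : ∀ x w, l (qm (k.M x) *ᵥ w) = φ x * l w) (w : Fin g ⊕ Fin g → ℂ) :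
    l w = l (cv k.v1) * k.lf φ w := by
  have h1 : l = l (cv k.v1) • k.lf φ := by
    refine ext_cv fun v => ?_
    rw [LinearMap.smul_apply, smul_eq_mul, lf_cv]
    have h2 : cv v = qm (k.M (k.e v)) *ᵥ cv k.v1 := by
      have h3 : qm (k.M (k.e v)) *ᵥ cv k.v1 = cv (k.M (k.e v) *ᵥ k.v1) := (cv_mulVec' _).symm
      rw [h3, M_v1]
    conv_lhs => rw [h2]
    rw [hl, mul_comm]
  exact congrArg (fun f => f w) h1

/-- The type of an embedding. -/
def sg (φ : K →+* ℂ) : ℂ := k.lf φ (DZ Z *ᵥ cv k.v1)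

theorem lf_DZ (φ : K →+* ℂ) (w : Fin g ⊕ Fin g → ℂ) :
    k.lf φ (DZ Z *ᵥ w) = k.sg φ * k.lf φ w := by
  have h1 := k.eig_unique (φ := φ) (l := (k.lf φ).comp (mulVecLin (DZ Z))) (fun x w => ?_) w
  · exact h1
  · rw [LinearMap.comp_apply, LinearMap.comp_apply, mulVecLin_apply, mulVecLin_apply,
      mulVec_mulVec, ← k.comm, ← mulVec_mulVec, lf_M]

theorem lf_v1 (φ : K →+* ℂ) : k.lf φ (cv k.v1) = 1 := by
  rw [lf_cv]
  unfold v1
  rw [LinearEquiv.apply_symm_apply, map_one]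

include h in
theorem sg_sq (φ : K →+* ℂ) : k.sg φ * k.sg φ = 1 := by
  have h1 : k.lf φ (DZ Z *ᵥ (DZ Z *ᵥ cv k.v1)) = 1 := by
    rw [mulVec_mulVec, DZ_sq h.det, one_mulVec, lf_v1]
  rwa [lf_DZ, lf_DZ, lf_v1, mul_one] at h1

include h in
theorem sg_or (φ : K →+* ℂ) : k.sg φ = 1 ∨ k.sg φ = -1 :=
  mul_self_eq_one_iff.1 (k.sg_sq h φ)

theorem lf_conj (φ : K →+* ℂ) (w : Fin g ⊕ Fin g → ℂ) :
    k.lf (ComplexEmbedding.conjugate φ) w = starRingEnd ℂ (k.lf φ (cnj w)) := by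
  rw [lf_apply, lf_apply, map_sum]
  refine Finset.sum_congr rfl fun i _ => ?_
  rw [map_mul]
  have h1 : starRingEnd ℂ (cnj w i) = w i := Complex.conj_conj _
  rw [h1]
  rfl

theorem cnj_DZ (w : Fin g ⊕ Fin g → ℂ) : cnj (DZ Z *ᵥ w) = -(DZ Z *ᵥ cnj w) := by
  have h1 := map_mulVec_aut cc (DZ Z) w
  rw [Pool.Agent.Y90.DZ_conj, neg_mulVec] at h1
  have h2 : cnj (DZ Z *ᵥ w) = -(DZ Z *ᵥ cnj w) := h1
  exact h2

include h in
theorem sg_conj (φ : K →+* ℂ) : k.sg (ComplexEmbedding.conjugate φ) = -k.sg φ := by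
  unfold sg
  rw [lf_conj, cnj_DZ, map_neg, map_neg, cnj_cv]
  have h1 := k.sg_or h φ
  unfold sg at h1
  rcases h1 with h1 | h1 <;> rw [h1] <;> simp

/-- The functionals separate the vectors, and there are vectors with given values. -/
theorem lf_bij : Function.Bijective fun (w : Fin g ⊕ Fin g → ℂ) (φ : K →+* ℂ) => k.lf φ w := by
  classical
  let Λ : (Fin g ⊕ Fin g → ℂ) →ₗ[ℂ] ((K →+* ℂ) → ℂ) := LinearMap.pi fun φ => k.lf φ
  have hcard : finrank ℂ (Fin g ⊕ Fin g → ℂ) = finrank ℂ ((K →+* ℂ) → ℂ) := by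
    rw [finrank_fintype_fun_eq_card, finrank_fintype_fun_eq_card, NumberField.Embeddings.card K ℂ,
      ← k.e.finrank_eq, finrank_fintype_fun_eq_card]
  have hsurj : Function.Surjective Λ := by
    rw [← LinearMap.range_eq_top]
    by_contra hne
    obtain ⟨F, hF0, hF⟩ := Submodule.exists_le_ker_of_lt_top _ (lt_top_iff_ne_top.2 hne)
    apply hF0
    have hli := linearIndependent_monoidHom K ℂ
    have hinj : Function.Injective fun φ : K →+* ℂ => (φ : K →* ℂ) := fun φ ψ hφ =>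
      RingHom.ext fun x => DFunLike.congr_fun hφ x
    have hli2 := hli.comp _ hinj
    rw [Fintype.linearIndependent_iff] at hli2
    have h1 := hli2 (fun φ => F (Pi.single φ 1)) (by
      funext x
      have h2 : F (Λ (cv (k.e.symm x))) = 0 := by
        have h3 : Λ (cv (k.e.symm x)) ∈ LinearMap.ker F := hF ⟨_, rfl⟩
        exact h3
      have h4 : Λ (cv (k.e.symm x)) = ∑ φ : K →+* ℂ, φ x • (Pi.single φ 1 : (K →+* ℂ) → ℂ) := by
        funext ψ
        change k.lf ψ (cv (k.e.symm x)) = _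
        rw [lf_cv, LinearEquiv.apply_symm_apply]
        simp [Finset.sum_apply, Pi.single_apply]
      rw [h4, map_sum] at h2
      rw [Finset.sum_apply, Pi.zero_apply, ← h2]
      refine Finset.sum_congr rfl fun φ _ => ?_
      rw [map_smul, smul_eq_mul, mul_comm]
      rfl)
    refine (Pi.basisFun ℂ (K →+* ℂ)).ext fun φ => ?_
    rw [Pi.basisFun_apply]
    exact h1 φ
  have hinj : Function.Injective Λ :=
    (LinearMap.injective_iff_surjective_of_finrank_eq_finrank hcard).2 hsurj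
  exact ⟨hinj, hsurj⟩

theorem lf_zero {w : Fin g ⊕ Fin g → ℂ} (hw : ∀ φ : K →+* ℂ, k.lf φ w = 0) : w = 0 := by
  apply k.lf_bij.1
  funext φ
  change k.lf φ w = k.lf φ 0
  rw [hw φ, map_zero]

/-- Eigenvectors. -/
theorem exists_eigv (φ : K →+* ℂ) : ∃ w : Fin g ⊕ Fin g → ℂ, w ≠ 0 ∧
    (∀ x, qm (k.M x) *ᵥ w = φ x • w) ∧ DZ Z *ᵥ w = k.sg φ • w := by
  classical
  obtain ⟨w, hw⟩ := k.lf_bij.2 (Pi.single φ 1)
  have hw' : ∀ ψ : K →+* ℂ, k.lf ψ w = (Pi.single φ 1 : (K →+* ℂ) → ℂ) ψ := fun ψ =>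
    congrFun hw ψ
  refine ⟨w, fun h0 => ?_, fun x => ?_, ?_⟩
  · have h1 := hw' φ
    rw [h0, map_zero, Pi.single_eq_same] at h1
    exact zero_ne_one h1
  · rw [← sub_eq_zero]
    refine k.lf_zero fun ψ => ?_
    rw [map_sub, lf_M, map_smul, smul_eq_mul, hw', ← sub_mul]
    by_cases hψ : ψ = φ
    · rw [hψ, sub_self, zero_mul]
    · rw [Pi.single_eq_of_ne hψ, mul_zero]
  · rw [← sub_eq_zero]
    refine k.lf_zero fun ψ => ?_
    rw [map_sub, lf_DZ, map_smul, smul_eq_mul, hw', ← sub_mul]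
    by_cases hψ : ψ = φ
    · rw [hψ, sub_self, zero_mul]
    · rw [Pi.single_eq_of_ne hψ, mul_zero]

include h in
/-- The Rosati involution. -/
theorem exists_rosati (x : K) : ∃ y : K, ∀ u v : Fin g ⊕ Fin g → ℂ,
    om g (qm (k.M x) *ᵥ u) v = om g u (qm (k.M y) *ᵥ v) := by
  have hO : Om g ℂ = qm (Om g ℚ) := (Om_map ℂ).symm
  obtain ⟨y, hy⟩ := k.max (-(Om g ℚ * (k.M x)ᵀ * Om g ℚ)) (by
    have h1 : qm (-(Om g ℚ * (k.M x)ᵀ * Om g ℚ)) = -(Om g ℂ * (qm (k.M x))ᵀ * Om g ℂ) := by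
      have h2 : qm (-(Om g ℚ * (k.M x)ᵀ * Om g ℚ)) = -qm (Om g ℚ * (k.M x)ᵀ * Om g ℚ) := by
        ext i j
        simp [qm]
      rw [h2, qm_mul, qm_mul, ← hO]
      rfl
    have h3 : (DZ Z)ᵀ = Om g ℂ * DZ Z * Om g ℂ := by
      have hsp := h.sp (DZ_mem (Z := Z))
      have h4 : (DZ Z)ᵀ * Om g ℂ = -(Om g ℂ * DZ Z) := eq_neg_of_add_eq_zero_left hsp
      have h5 : (DZ Z)ᵀ * Om g ℂ * Om g ℂ = -(Om g ℂ * DZ Z) * Om g ℂ := by rw [h4]
      rw [mul_assoc, Om_sq, mul_neg_one, neg_mul] at h5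
      exact neg_injective h5
    have h6 : (DZ Z)ᵀ * (qm (k.M x))ᵀ = (qm (k.M x))ᵀ * (DZ Z)ᵀ := by
      rw [← transpose_mul, ← transpose_mul, k.comm]
    rw [h3] at h6
    -- `O D O A = A O D O`
    have h7 : Om g ℂ * Om g ℂ = -1 := Om_sq ℂ
    rw [h1]
    set A := (qm (k.M x))ᵀ
    set O := Om g ℂ
    set D := DZ Z
    have h8 : O * A * O * D = -(O * (A * (O * D * O)) * O) := by
      have : O * (A * (O * D * O)) * O = O * A * O * D * (O * O) := by noncomm_ring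
      rw [this, h7, mul_neg_one, neg_neg]
    have h9 : D * (O * A * O) = -(O * ((O * D * O) * A) * O) := by
      have : O * ((O * D * O) * A) * O = (O * O) * D * O * A * O := by noncomm_ring
      rw [this, h7]
      noncomm_ring
    rw [neg_mul, mul_neg, h8, h9, h6])
  refine ⟨y, fun u v => ?_⟩
  have h1 : qm (k.M y) = -(Om g ℂ * (qm (k.M x))ᵀ * Om g ℂ) := by
    rw [← hy]
    have h2 : qm (-(Om g ℚ * (k.M x)ᵀ * Om g ℚ)) = -qm (Om g ℚ * (k.M x)ᵀ * Om g ℚ) := by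
      ext i j
      simp [qm]
    rw [h2, qm_mul, qm_mul, ← hO]
    rfl
  rw [om_apply, om_apply, h1, neg_mulVec, mulVec_neg, dotProduct_neg, mulVec_mulVec]
  have h3 : Om g ℂ * (Om g ℂ * (qm (k.M x))ᵀ * Om g ℂ) = -((qm (k.M x))ᵀ * Om g ℂ) := by
    have : Om g ℂ * (Om g ℂ * (qm (k.M x))ᵀ * Om g ℂ) =
        (Om g ℂ * Om g ℂ) * ((qm (k.M x))ᵀ * Om g ℂ) := by noncomm_ring
    rw [this, Om_sq, neg_one_mul]
  rw [h3, neg_mulVec, dotProduct_neg, neg_neg, ← mulVec_mulVec, dotProduct_mulVec u,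
    vecMul_transpose]

include h k in
theorem exists_conj (x : K) : ∃ y : K, ∀ φ : K →+* ℂ, φ y = starRingEnd ℂ (φ x) := by
  obtain ⟨y, hy⟩ := k.exists_rosati h x
  refine ⟨y, fun φ => ?_⟩
  obtain ⟨w, hw0, hw1, hw2⟩ := k.exists_eigv φ
  have h1 := hy w (cnj w)
  have h2 : qm (k.M y) *ᵥ cnj w = starRingEnd ℂ (φ y) • cnj w := by
    have h3 := map_mulVec_aut cc (qm (k.M y)) w
    have h4 : (qm (k.M y)).map cc = qm (k.M y) := by
      ext i j
      simp [qm, cc]
    rw [h4] at h3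
    have h5 : qm (k.M y) *ᵥ cnj w = cnj (qm (k.M y) *ᵥ w) := h3.symm
    rw [h5, hw1, cnj_smul]
    rfl
  rw [hw1, h2, map_smul, map_smul, LinearMap.smul_apply, smul_eq_mul, smul_eq_mul] at h1
  have h6 := PM.herm_pos h hw0
  rw [hw2, map_smul, smul_eq_mul] at h6
  have h7 : om g w (cnj w) ≠ 0 := by
    intro h8
    have h9 : om g (cnj w) w = 0 := by rw [om_anti, h8, neg_zero]
    rw [h9, mul_zero, mul_zero] at h6
    exact lt_irrefl _ h6
  have h8 := mul_right_cancel₀ h7 h1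
  rw [h8, Complex.conj_conj]

include h k in
/-- The field is totally complex. -/
theorem totallyComplex : IsTotallyComplex K := by
  refine ⟨fun v => ?_⟩
  rw [InfinitePlace.isComplex_iff]
  intro hr
  have h1 : ComplexEmbedding.conjugate v.embedding = v.embedding := hr
  have h2 := k.sg_conj h v.embedding
  rw [h1] at h2
  have h3 : k.sg v.embedding = 0 := by linear_combination h2 / 2
  have h4 := k.sg_sq h v.embedding
  rw [h3, mul_zero] at h4
  exact zero_ne_one h4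

include h k in
/-- The field is a CM field. -/
theorem isCM : IsCMField K := by
  have htc := k.totallyComplex h
  choose c hc using k.exists_conj h
  let φ0 : K →+* ℂ := Classical.choice inferInstance
  have hcc : ∀ x, c (c x) = x := fun x => φ0.injective (by rw [hc, hc, Complex.conj_conj])
  let E : K ≃+* K :=
    { toFun := c
      invFun := c
      left_inv := hcc
      right_inv := hcc
      map_mul' := fun x y => φ0.injective (by rw [hc, map_mul, map_mul, map_mul, hc, hc])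
      map_add' := fun x y => φ0.injective (by rw [hc, map_add, map_add, map_add, hc, hc]) }
  let σ : K ≃ₐ[ℚ] K := AlgEquiv.ofRingEquiv (f := E) fun r => by
    rw [eq_ratCast (algebraMap ℚ K) r, map_ratCast]
  refine Pool.Agent.W547.LD.isCM_of_conj K (σ := σ) fun φ => ?_
  change ComplexEmbedding.conjugate φ = φ.comp _
  refine RingHom.ext fun x => ?_
  exact (hc x φ).symm

include h in
theorem isCMType : IsCMType {φ : K →+* ℂ | k.sg φ = 1} := by
  intro φ
  rw [Set.mem_ofPred_eq, Set.mem_ofPred_eq, k.sg_conj h]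
  constructor
  · intro h1
    rw [h1]
    norm_num
  · intro h1
    rcases k.sg_or h φ with h2 | h2
    · exact h2
    · exfalso
      apply h1
      rw [h2, neg_neg]

/-- The CM type. -/
def pair : CMPair :=
  letI := k.isCM h
  { E := K, Φ := {φ : K →+* ℂ | k.sg φ = 1}, isCMType := k.isCMType h }

/-- The inclusion of the tangent space. -/
def incT (g : ℕ) : (Fin g → ℂ) →ₗ[ℂ] (Fin g ⊕ Fin g → ℂ) where
  toFun t := Sum.elim t 0
  map_add' s t := by
    funext i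
    rcases i with i | i
    · rfl
    · exact (add_zero (0 : ℂ)).symm
  map_smul' c t := by
    funext i
    rcases i with i | i
    · rfl
    · exact (mul_zero c).symm

/-- The functionals on the tangent space. -/
def tf (φ : K →+* ℂ) : (Fin g → ℂ) →ₗ[ℂ] ℂ := (k.lf φ).comp (incT g)

include h in
theorem tf_perC {φ : K →+* ℂ} (hφ : k.sg φ = 1) (w : Fin g ⊕ Fin g → ℂ) :
    k.tf φ (perC Z w) = k.lf φ w := by
  have h1 : perC Z (w - Sum.elim (perC Z w) 0) = 0 := by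
    rw [map_sub, sub_eq_zero]
    funext i
    rw [perC_apply (Z := Z) (Sum.elim (perC Z w) 0)]
    simp
  obtain ⟨a, ha, b, hb, hab⟩ := mem_LZ_decomp h (w - Sum.elim (perC Z w) 0)
  rw [hab, map_add, perC_neg h hb, add_zero] at h1
  have h2 := perC_pos h ha h1
  rw [h2, zero_add] at hab
  have h3 : k.lf φ b = 0 := by
    have h4 := k.lf_DZ φ b
    have h5 : DZ Z *ᵥ b = (-1 : ℂ) • b := hb
    rw [h5, hφ, one_mul, map_smul, smul_eq_mul] at h4
    linear_combination -h4 / 2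
  rw [← hab, map_sub, sub_eq_zero] at h3
  exact h3.symm

include h in
/-- The abelian variety is of the given CM type. -/
theorem isOfType : IsOfType (AVZ h) (k.pair h) := by
  have hcm := k.isCM h
  let Ψ0 : (Fin g → ℂ) →ₗ[ℂ] ((k.pair h).Φ → ℂ) := LinearMap.pi fun φ => k.tf φ.1
  have hper : ∀ v φ, Ψ0 (perOne Z v) φ = φ.1 (k.e v) := by
    intro v φ
    change k.tf φ.1 (perOne Z v) = _
    rw [← perC_rat, k.tf_perC h φ.2]
    exact k.lf_cv φ.1 v
  have hinj : Function.Injective Ψ0 := by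
    rw [injective_iff_map_eq_zero]
    intro t ht
    obtain ⟨w0, rfl⟩ := perC_surj (Z := Z) t
    obtain ⟨a, ha, b, hb, rfl⟩ := mem_LZ_decomp h w0
    rw [map_add, perC_neg h hb, add_zero] at ht ⊢
    have h1 : a = 0 := by
      refine k.lf_zero fun φ => ?_
      rcases k.sg_or h φ with h2 | h2
      · have h3 := congrFun ht ⟨φ, h2⟩
        have h4 : k.tf φ (perC Z a) = 0 := h3
        rwa [k.tf_perC h h2] at h4
      · have h4 := k.lf_DZ φ a
        have h5 : DZ Z *ᵥ a = (1 : ℂ) • a := ha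
        rw [h5, h2, one_smul] at h4
        linear_combination h4 / 2
    rw [h1, map_zero]
  have hdim : finrank ℂ (Fin g → ℂ) = finrank ℂ ((k.pair h).Φ → ℂ) := by
    have h1 := finrank_pair (k.pair h)
    have h2 : finrank ℚ (k.pair h).E = finrank ℚ K := rfl
    have h3 : finrank ℚ K = 2 * g := by
      rw [← k.e.finrank_eq, finrank_fintype_fun_eq_card, Fintype.card_sum, Fintype.card_fin]
      ring
    rw [finrank_fintype_fun_eq_card, Fintype.card_fin]
    omega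
  exact ⟨k.e, Ψ0.linearEquivOfInjective hinj hdim, fun v φ => hper v φ⟩

end KAct

end act

end

end Pool.Agent.R915
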