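import Mathlib
import Pool.Agent.R915.U1

/-!
# Simple abelian varieties with complex multiplication are of CM type
-/

set_option linter.unusedSectionVars false

namespace Pool.Agent.R915

open Matrix Module Pool.Agent.Y90 NumberField Pool.Agent.W437.HC Pool.Agent.W437.HD
open Pool.Agent.H204R3.CM (IsHodge IsCMType)
open Pool.Agent.W547.KB (CMPair CMAV)
open Pool.Agent.W548.Odd hiding cv

noncomputable section

variable {g : ℕ} {Z : Matrix (Fin g) (Fin g) ℂ}

/-- Endomorphisms of simple abelian varieties are injective or zero. -/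
theorem end_inj (h : PM Z) (hs : IsSimpleAV Z)
    {a : Module.End ℚ (Fin g ⊕ Fin g → ℚ)} (ha : IsHom (AVZ h) (AVZ h) a) (ha0 : a ≠ 0)
    {v : Fin g ⊕ Fin g → ℚ} (hv : a v = 0) : v = 0 := by
  have hcL : ∀ X ∈ LZ Z, X * qm (LinearMap.toMatrix' a) = qm (LinearMap.toMatrix' a) * X :=
    commL_of ((hom_iff' h a).1 ha)
  have hqv : ∀ (v : Fin g ⊕ Fin g → ℚ), qm (LinearMap.toMatrix' a) *ᵥ cv v = cv (a v) := by
    intro v
    have h1 := qm_mulVec (LinearMap.toMatrix' a) v
    have h2 : LinearMap.toMatrix' a *ᵥ v = a v := by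
      rw [← Matrix.toLin'_apply, Matrix.toLin'_toMatrix']
    rw [h2] at h1
    exact h1
  rcases hdivZ h.isPer (Set.mem_singleton Z) hs (LinearMap.toMatrix' a) (by
    intro X hX
    rw [← img_eq] at hX
    exact (hcL X hX).symm) with h1 | h1
  · exfalso
    apply ha0
    exact LinearMap.toMatrix'.injective (by rw [h1]; exact (map_zero _).symm)
  · have h2 := hqv v
    rw [hv] at h2
    have h3 : cv (0 : Fin g ⊕ Fin g → ℚ) = qm (LinearMap.toMatrix' a) *ᵥ 0 := by
      rw [mulVec_zero]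
      funext i
      simp [cv]
    rw [h3] at h2
    have h4 := (Matrix.mulVec_injective_iff_isUnit.2 h1) h2
    funext i
    have h5 : ((v i : ℚ) : ℂ) = 0 := congrFun h4 i
    rw [Pi.zero_apply]
    exact_mod_cast h5

theorem isHom_sub {X Y : AV} {f f' : X.H →ₗ[ℚ] Y.H} (hf : IsHom X Y f) (hf' : IsHom X Y f') :
    IsHom X Y (f - f') := by
  obtain ⟨Ψ, hΨ⟩ := hf
  obtain ⟨Ψ', hΨ'⟩ := hf'
  refine ⟨Ψ - Ψ', fun v => ?_⟩
  rw [LinearMap.sub_apply, LinearMap.sub_apply, hΨ, hΨ', map_sub]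

/-- The action of a field from additive data. -/
theorem act_of {K : Type} [Field K] [CharZero K]
    (M : K →+* Matrix (Fin g ⊕ Fin g) (Fin g ⊕ Fin g) ℚ)
    (comm : ∀ x, qm (M x) * DZ Z = DZ Z * qm (M x)) (E : K ≃+ (Fin g ⊕ Fin g → ℚ))
    (hE : ∀ x y, E (x * y) = M x *ᵥ E y)
    (max : ∀ R : Matrix (Fin g ⊕ Fin g) (Fin g ⊕ Fin g) ℚ, qm R * DZ Z = DZ Z * qm R →
      ∃ x, R = M x) : ∃ (_ : NumberField K), Nonempty (KAct Z K) := by
  let e : (Fin g ⊕ Fin g → ℚ) ≃ₗ[ℚ] K :=
    { E.symm with map_smul' := fun c v => map_rat_smul E.symm.toAddMonoidHom c v }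
  have hfd : FiniteDimensional ℚ K := LinearEquiv.finiteDimensional e
  have hNF : NumberField K := { to_charZero := inferInstance, to_finiteDimensional := hfd }
  refine ⟨hNF, ⟨{ M := M, comm := comm, e := e, he := fun x v => ?_, max := max }⟩⟩
  change E.symm (M x *ᵥ v) = x * E.symm v
  apply E.injective
  rw [E.apply_symm_apply, hE, E.apply_symm_apply]

/-- The number field of a simple abelian variety with complex multiplication. -/
theorem exists_act (h : PM Z) (hs : IsSimpleAV Z) (hg : 0 < g) (hcm : HasCMult (AVZ h)) :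
    ∃ (K : Type) (_ : Field K) (_ : NumberField K), Nonempty (KAct Z K) := by
  obtain ⟨A, hA1, hA2, hA3⟩ := hcm
  let v0 : Fin g ⊕ Fin g → ℚ := Pi.single (Sum.inl ⟨0, hg⟩) 1
  have hv0 : v0 ≠ 0 := by
    intro h0
    have h1 := congrFun h0 (Sum.inl ⟨0, hg⟩)
    simp [v0] at h1
  have hinj : ∀ (a : Module.End ℚ (Fin g ⊕ Fin g → ℚ)), IsHom (AVZ h) (AVZ h) a →
      a v0 = 0 → a = 0 := by
    intro a ha h1
    by_contra hne
    exact hv0 (end_inj h hs ha hne h1)
  let Rg : Ring A := inferInstance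
  let cR : CommRing A := { Rg with mul_comm := fun a b => Subtype.ext (hA1 a a.2 b b.2) }
  have hzero : ∀ a b : A, a * b = 0 → a = 0 ∨ b = 0 := by
    intro a b hab
    by_cases ha : a = 0
    · exact Or.inl ha
    · right
      apply Subtype.ext
      apply hinj b.1 (hA3 b b.2)
      have h1 : (a.1 : Module.End ℚ (Fin g ⊕ Fin g → ℚ)) (b.1 v0) = 0 := by
        have h2 := congrArg (fun c : A => (c.1 : Module.End ℚ (Fin g ⊕ Fin g → ℚ)) v0) hab
        exact h2
      exact end_inj h hs (hA3 a a.2) (fun h0 => ha (Subtype.ext h0)) h1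
  have hnt : Nontrivial A := ⟨⟨0, 1, fun h0 => by
    have h1 := congrArg (fun c : A => (c.1 : Module.End ℚ (Fin g ⊕ Fin g → ℚ)) v0) h0
    exact hv0 h1.symm⟩⟩
  have hnz : NoZeroDivisors A := ⟨fun {a b} hab => hzero a b hab⟩
  have hdom : IsDomain A := NoZeroDivisors.to_isDomain A
  have hfdA : FiniteDimensional ℚ A := inferInstance
  -- the evaluation
  let ev : A →ₗ[ℚ] (Fin g ⊕ Fin g → ℚ) :=
    { toFun := fun a => (a : Module.End ℚ (Fin g ⊕ Fin g → ℚ)) v0
      map_add' := fun a b => rfl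
      map_smul' := fun c a => rfl }
  have hevi : Function.Injective ev := by
    rw [injective_iff_map_eq_zero]
    intro a ha
    exact Subtype.ext (hinj a.1 (hA3 a a.2) ha)
  have hevs : Function.Surjective ev := by
    have hfin : finrank ℚ A = finrank ℚ (Fin g ⊕ Fin g → ℚ) := hA2
    exact (LinearMap.injective_iff_surjective_of_finrank_eq_finrank hfin).1 hevi
  let E : A ≃+ (Fin g ⊕ Fin g → ℚ) := AddEquiv.ofBijective ev.toAddMonoidHom ⟨hevi, hevs⟩
  have hE : ∀ a : A, E a = (a.1 : Module.End ℚ (Fin g ⊕ Fin g → ℚ)) v0 := fun a => rfl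
  let F : Field A := fieldOfFiniteDimensional ℚ A
  have hch : CharZero A := algebraRat.charZero A
  have hmm : ∀ (a : Module.End ℚ (Fin g ⊕ Fin g → ℚ)) v, LinearMap.toMatrix' a *ᵥ v = a v := by
    intro a v
    rw [← Matrix.toLin'_apply, Matrix.toLin'_toMatrix']
  obtain ⟨hNF, hk⟩ := act_of (Z := Z) (K := A)
    { toFun := fun a => LinearMap.toMatrix' a.1
      map_one' := LinearMap.toMatrix'_one
      map_mul' := fun a b => LinearMap.toMatrix'_mul a.1 b.1
      map_zero' := map_zero _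
      map_add' := fun a b => map_add _ _ _ }
    (fun a => (hom_iff' h a.1).1 (hA3 a a.2)) E
    (fun x y => by
      change (x.1 : Module.End ℚ (Fin g ⊕ Fin g → ℚ)) (y.1 v0) =
        LinearMap.toMatrix' x.1 *ᵥ (y.1 v0)
      rw [hmm])
    (fun R hR => by
      have h1 : IsHom (AVZ h) (AVZ h) (Matrix.toLin' R) := (hom_iff h R).2 hR
      have he : ((E.symm (R *ᵥ v0)).1 : Module.End ℚ (Fin g ⊕ Fin g → ℚ)) v0 = R *ᵥ v0 :=
        E.apply_symm_apply (R *ᵥ v0)
      refine ⟨E.symm (R *ᵥ v0), ?_⟩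
      have h2 : (Matrix.toLin' R : Module.End ℚ (Fin g ⊕ Fin g → ℚ)) -
          (E.symm (R *ᵥ v0)).1 = 0 := by
        refine hinj _ ?_ ?_
        · exact isHom_sub h1 (hA3 _ (E.symm (R *ᵥ v0)).2)
        · rw [LinearMap.sub_apply, he, Matrix.toLin'_apply, sub_self]
      have h3 := sub_eq_zero.1 h2
      change R = LinearMap.toMatrix' (E.symm (R *ᵥ v0)).1
      rw [← h3, LinearMap.toMatrix'_toLin'])
  exact ⟨A, F, hNF, hk⟩

/-- Simple abelian varieties with complex multiplication are of CM type. -/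
theorem exists_pair (h : PM Z) (hs : IsSimple (AVZ h)) (hg : 0 < g) (hcm : HasCMult (AVZ h)) :
    ∃ P : CMPair, IsOfType (AVZ h) P := by
  obtain ⟨K, _, _, ⟨k⟩⟩ := exists_act h (simple_AVZ h hs) hg hcm
  exact ⟨k.pair h, k.isOfType h⟩

end

end Pool.Agent.R915
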