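import Mathlib
import Pool.Agent.R915.U2

/-!
# Simple factors of products of CM types have complex multiplication
-/

set_option linter.unusedSectionVars false

namespace Pool.Agent.R915

open Matrix Module Pool.Agent.Y90 NumberField Pool.Agent.W437.HC Pool.Agent.W437.HD
open Pool.Agent.H204R3.CM (IsHodge IsCMType)
open Pool.Agent.W547.KB (CMPair CMAV)
open Pool.Agent.W548.Odd hiding cv

noncomputable section

/-- The embeddings separate the points of the complexification of a number field. -/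
theorem emb_sep {K : Type} [Field K] [NumberField K] {ι : Type} [Fintype ι] (b : Basis ι ℚ K)
    (c : ι → ℂ) (hc : ∀ φ : K →+* ℂ, ∑ i, c i * φ (b i) = 0) : c = 0 := by
  classical
  let Λ : (ι → ℂ) →ₗ[ℂ] ((K →+* ℂ) → ℂ) :=
    LinearMap.pi fun φ => ∑ i, (φ (b i)) • LinearMap.proj i
  have hΛ : ∀ w φ, Λ w φ = ∑ i, φ (b i) * w i := by
    intro w φ
    simp [Λ, LinearMap.sum_apply]
  have hcard : finrank ℂ (ι → ℂ) = finrank ℂ ((K →+* ℂ) → ℂ) := by
    rw [finrank_fintype_fun_eq_card, finrank_fintype_fun_eq_card, NumberField.Embeddings.card K ℂ,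
      finrank_eq_card_basis b]
  have hsurj : Function.Surjective Λ := by
    rw [← LinearMap.range_eq_top]
    by_contra hne
    obtain ⟨F, hF0, hF⟩ := Submodule.exists_le_ker_of_lt_top _ (lt_top_iff_ne_top.2 hne)
    apply hF0
    have hli := linearIndependent_monoidHom K ℂ
    have hinj : Function.Injective fun φ : K →+* ℂ => (φ : K →* ℂ) := fun φ ψ hφ =>
      RingHom.ext fun x => DFunLike.congr_fun hφ x
    have hli2 := hli.comp _ hinj
    rw [Fintype.linearIndependent_iff] at hli2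
    have h1 := hli2 (fun φ => F (Pi.single φ 1)) (by
      funext x
      have h2 : F (Λ (fun i => ((b.repr x i : ℚ) : ℂ))) = 0 := by
        have h3 : Λ (fun i => ((b.repr x i : ℚ) : ℂ)) ∈ LinearMap.ker F := hF ⟨_, rfl⟩
        exact h3
      have h4 : Λ (fun i => ((b.repr x i : ℚ) : ℂ)) =
          ∑ φ : K →+* ℂ, φ x • (Pi.single φ 1 : (K →+* ℂ) → ℂ) := by
        funext ψ
        rw [hΛ]
        have h5 : ψ x = ∑ i, ψ (b i) * ((b.repr x i : ℚ) : ℂ) := by
          conv_lhs => rw [← b.sum_repr x]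
          rw [map_sum]
          refine Finset.sum_congr rfl fun i _ => ?_
          rw [Rat.smul_def, map_mul, map_ratCast, mul_comm]
        rw [← h5]
        simp [Finset.sum_apply, Pi.single_apply]
      rw [h4, map_sum] at h2
      rw [Finset.sum_apply, Pi.zero_apply, ← h2]
      refine Finset.sum_congr rfl fun φ _ => ?_
      rw [map_smul, smul_eq_mul, mul_comm]
      rfl)
    refine (Pi.basisFun ℂ (K →+* ℂ)).ext fun φ => ?_
    rw [Pi.basisFun_apply]
    exact h1 φ
  have hinj : Function.Injective Λ :=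
    (LinearMap.injective_iff_surjective_of_finrank_eq_finrank hcard).2 hsurj
  apply hinj
  funext φ
  rw [hΛ, map_zero, Pi.zero_apply, ← hc φ]
  exact Finset.sum_congr rfl fun i _ => mul_comm _ _

section sep

variable {g : ℕ} {Z : Matrix (Fin g) (Fin g) ℂ} (h : PM Z) {C : CMAV}
  (i : (Fin g ⊕ Fin g → ℚ) →ₗ[ℚ] C.H1)

/-- The complex linear extension of an embedding. -/
def lc (j : C.I) (φ : (C.factor j).E →+* ℂ) : (Fin g ⊕ Fin g → ℂ) →ₗ[ℂ] ℂ :=
  ∑ k, (φ (i (Pi.single k 1) j)) • LinearMap.proj k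

theorem lc_apply (j : C.I) (φ : (C.factor j).E →+* ℂ) (w : Fin g ⊕ Fin g → ℂ) :
    lc i j φ w = ∑ k, φ (i (Pi.single k 1) j) * w k := by
  simp [lc, LinearMap.sum_apply]

theorem lc_cv (j : C.I) (φ : (C.factor j).E →+* ℂ) (v : Fin g ⊕ Fin g → ℚ) :
    lc i j φ (cv v) = φ (i v j) := by
  rw [lc_apply]
  have h1 : v = ∑ k, v k • (Pi.single k 1 : Fin g ⊕ Fin g → ℚ) := by
    funext l
    simp [Finset.sum_apply, Pi.single_apply]
  have h2 : i v j = ∑ k, v k • i (Pi.single k 1) j := by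
    conv_lhs => rw [h1]
    rw [map_sum, Finset.sum_apply]
    refine Finset.sum_congr rfl fun k _ => ?_
    rw [map_smul]
    rfl
  rw [h2, map_sum]
  refine Finset.sum_congr rfl fun k _ => ?_
  rw [Rat.smul_def, map_mul, map_ratCast, mul_comm]
  rfl

theorem smul_single_same [DecidableEq C.I] (l : C.I) (q : ℚ) (x : (C.factor l).E) :
    (q • (Pi.single l x : C.H1)) l = q • x := by
  change q • ((Pi.single l x : C.H1) l) = _
  rw [Pi.single_eq_same]

theorem smul_single_ne [DecidableEq C.I] {l j : C.I} (hlj : l ≠ j) (q : ℚ) (x : (C.factor j).E) :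
    (q • (Pi.single j x : C.H1)) l = 0 := by
  change q • ((Pi.single j x : C.H1) l) = 0
  rw [Pi.single_eq_of_ne hlj, smul_zero]

/-- The functionals separate the vectors. -/
theorem lc_zero (hi : Function.Injective i) {w : Fin g ⊕ Fin g → ℂ}
    (hw : ∀ j (φ : (C.factor j).E →+* ℂ), lc i j φ w = 0) : w = 0 := by
  classical
  obtain ⟨p, hp⟩ := LinearMap.exists_leftInverse_of_injective i (LinearMap.ker_eq_bot.2 hi)
  let b : ∀ j, Basis (Fin (finrank ℚ (C.factor j).E)) ℚ (C.factor j).E := fun j =>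
    finBasis ℚ (C.factor j).E
  have h1 : ∀ j m, ∑ k, w k * (((b j).repr (i (Pi.single k 1) j) m : ℚ) : ℂ) = 0 := by
    intro j
    have h2 := emb_sep (b j)
      (fun m => ∑ k, w k * (((b j).repr (i (Pi.single k 1) j) m : ℚ) : ℂ)) (fun φ => by
        have h3 := hw j φ
        rw [lc_apply] at h3
        rw [← h3]
        simp only [Finset.sum_mul]
        rw [Finset.sum_comm]
        refine Finset.sum_congr rfl fun k _ => ?_
        have h4 : φ (i (Pi.single k 1) j) =
            ∑ m, (((b j).repr (i (Pi.single k 1) j) m : ℚ) : ℂ) * φ (b j m) := by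
          conv_lhs => rw [← (b j).sum_repr (i (Pi.single k 1) j)]
          rw [map_sum]
          refine Finset.sum_congr rfl fun m _ => ?_
          rw [Rat.smul_def, map_mul, map_ratCast]
        rw [h4, Finset.sum_mul]
        exact Finset.sum_congr rfl fun m _ => by ring)
    exact fun m => congrFun h2 m
  funext n
  have h3 : ∀ k, (Pi.single k 1 : Fin g ⊕ Fin g → ℚ) n = ∑ j, ∑ m,
      (b j).repr (i (Pi.single k 1) j) m * p (Pi.single j (b j m)) n := by
    intro k
    have h4 : i (Pi.single k 1) = ∑ j, ∑ m, (b j).repr (i (Pi.single k 1) j) m •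
        (Pi.single j (b j m) : C.H1) := by
      funext l
      rw [Finset.sum_apply, Finset.sum_eq_single l]
      · rw [Finset.sum_apply]
        conv_lhs => rw [← (b l).sum_repr (i (Pi.single k 1) l)]
        exact Finset.sum_congr rfl fun m _ => (smul_single_same l _ _).symm
      · intro j _ hj
        rw [Finset.sum_apply]
        exact Finset.sum_eq_zero fun m _ => smul_single_ne (Ne.symm hj) _ _
      · intro hl
        exact absurd (Finset.mem_univ l) hl
    have h5 : (Pi.single k 1 : Fin g ⊕ Fin g → ℚ) n = p (i (Pi.single k 1)) n := by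
      have h6 := LinearMap.congr_fun hp (Pi.single k 1)
      exact congrFun h6.symm n
    rw [h5]
    conv_lhs => rw [h4]
    rw [map_sum, Finset.sum_apply]
    refine Finset.sum_congr rfl fun j _ => ?_
    rw [map_sum, Finset.sum_apply]
    refine Finset.sum_congr rfl fun m _ => ?_
    rw [map_smul]
    rfl
  have h4 : w n = ∑ k, w k * (((Pi.single k 1 : Fin g ⊕ Fin g → ℚ) n : ℚ) : ℂ) := by
    rw [Finset.sum_eq_single n]
    · rw [Pi.single_eq_same]
      simp
    · intro k _ hk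
      rw [Pi.single_eq_of_ne (Ne.symm hk)]
      simp
    · intro hn
      exact absurd (Finset.mem_univ n) hn
  rw [h4, Pi.zero_apply]
  calc ∑ k, w k * (((Pi.single k 1 : Fin g ⊕ Fin g → ℚ) n : ℚ) : ℂ)
      = ∑ k, ∑ j, ∑ m, (w k * (((b j).repr (i (Pi.single k 1) j) m : ℚ) : ℂ)) *
          ((p (Pi.single j (b j m)) n : ℚ) : ℂ) := by
        refine Finset.sum_congr rfl fun k _ => ?_
        rw [h3 k]
        push_cast
        rw [Finset.mul_sum]
        refine Finset.sum_congr rfl fun j _ => ?_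
        rw [Finset.mul_sum]
        exact Finset.sum_congr rfl fun m _ => by ring
    _ = ∑ j, ∑ m, (∑ k, w k * (((b j).repr (i (Pi.single k 1) j) m : ℚ) : ℂ)) *
          ((p (Pi.single j (b j m)) n : ℚ) : ℂ) := by
        rw [Finset.sum_comm]
        refine Finset.sum_congr rfl fun j _ => ?_
        rw [Finset.sum_comm]
        refine Finset.sum_congr rfl fun m _ => ?_
        rw [Finset.sum_mul]
    _ = 0 := by
        refine Finset.sum_eq_zero fun j _ => Finset.sum_eq_zero fun m _ => ?_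
        rw [h1, zero_mul]

include h in
/-- The functionals are eigenfunctionals of the complex structure. -/
theorem lc_DZ {Ψ : (Fin g → ℂ) →ₗ[ℂ] C.Tan} (hΨ : ∀ v, Ψ (perOne Z v) = C.per (i v)) (j : C.I)
    (φ : (C.factor j).E →+* ℂ) : ∃ c : ℂ, (c = 1 ∨ c = -1) ∧
      ∀ w, lc i j φ (DZ Z *ᵥ w) = c * lc i j φ w := by
  have key : ∀ φ ∈ (C.factor j).Φ, ∀ w, lc i j φ (DZ Z *ᵥ w) = lc i j φ w := by
    intro φ hφ w
    have h1 : ∀ w, lc i j φ w = Ψ (perC Z w) j ⟨φ, hφ⟩ := by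
      intro w
      let l' : (Fin g ⊕ Fin g → ℂ) →ₗ[ℂ] ℂ :=
        { toFun := fun w => Ψ (perC Z w) j ⟨φ, hφ⟩
          map_add' := fun u v => by
            rw [map_add, map_add]
            rfl
          map_smul' := fun c v => by
            rw [map_smul, map_smul]
            rfl }
      have h2 : lc i j φ = l' := by
        refine ext_cv fun v => ?_
        rw [lc_cv]
        change _ = Ψ (perC Z (cv v)) j ⟨φ, hφ⟩
        rw [perC_rat, hΨ]
        rfl
      rw [h2]
      rfl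
    rw [h1, h1, perC_DZ h]
  by_cases hφ : φ ∈ (C.factor j).Φ
  · exact ⟨1, Or.inl rfl, fun w => by rw [key φ hφ, one_mul]⟩
  · have hφ' : ComplexEmbedding.conjugate φ ∈ (C.factor j).Φ := by
      by_contra hcon
      exact hφ (((C.factor j).isCMType φ).2 hcon)
    have hcc : ∀ w, lc i j φ w = starRingEnd ℂ (lc i j (ComplexEmbedding.conjugate φ) (cnj w)) := by
      intro w
      rw [lc_apply, lc_apply, map_sum]
      refine Finset.sum_congr rfl fun k _ => ?_
      rw [map_mul]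
      have h1 : starRingEnd ℂ (cnj w k) = w k := Complex.conj_conj _
      have h2 : starRingEnd ℂ (ComplexEmbedding.conjugate φ (i (Pi.single k 1) j)) =
        φ (i (Pi.single k 1) j) := Complex.conj_conj _
      rw [h1, h2]
    refine ⟨-1, Or.inr rfl, fun w => ?_⟩
    rw [hcc, hcc w, cnj_DZ, map_neg, key _ hφ', map_neg, neg_one_mul]

include h in
/-- The functionals are eigenfunctionals of the conjugates of the complex structure. -/
theorem lc_DS {Ψ : (Fin g → ℂ) →ₗ[ℂ] C.Tan} (hΨ : ∀ v, Ψ (perOne Z v) = C.per (i v)) (j : C.I)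
    (φ : (C.factor j).E →+* ℂ) (σ : ℂ ≃+* ℂ) : ∃ c : ℂ,
      ∀ w, lc i j φ (DS Z σ *ᵥ w) = c * lc i j φ w := by
  let ψ : (C.factor j).E →+* ℂ := (σ.symm : ℂ →+* ℂ).comp φ
  obtain ⟨c, -, hc⟩ := lc_DZ h i hΨ j ψ
  have hσ : ∀ w, lc i j φ (fun k => σ (w k)) = σ (lc i j ψ w) := by
    intro w
    rw [lc_apply, lc_apply, map_sum]
    refine Finset.sum_congr rfl fun k _ => ?_
    rw [map_mul]
    congr 1
    exact (σ.apply_symm_apply _).symm
  refine ⟨σ c, fun w => ?_⟩
  have h1 : w = fun k => σ (σ.symm (w k)) := by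
    funext k
    exact (σ.apply_symm_apply _).symm
  have h2 : DS Z σ *ᵥ w = fun k => σ ((DZ Z *ᵥ fun k => σ.symm (w k)) k) := by
    rw [map_mulVec_aut σ]
    unfold DS
    rw [← h1]
  have h3 : lc i j φ w = σ (lc i j ψ fun k => σ.symm (w k)) := by
    rw [← hσ, ← h1]
  rw [h2, hσ, hc, map_mul, h3]

include h in
/-- The Lie algebra is commutative. -/
theorem LZ_comm {Ψ : (Fin g → ℂ) →ₗ[ℂ] C.Tan} (hΨ : ∀ v, Ψ (perOne Z v) = C.per (i v))
    (hi : Function.Injective i) : ∀ X ∈ LZ Z, ∀ Y ∈ LZ Z, X * Y = Y * X := by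
  let L : Submodule ℂ (Matrix (Fin g ⊕ Fin g) (Fin g ⊕ Fin g) ℂ) :=
    { carrier := {X | ∀ j (φ : (C.factor j).E →+* ℂ), ∃ c : ℂ,
        ∀ w, lc i j φ (X *ᵥ w) = c * lc i j φ w}
      zero_mem' := fun j φ => ⟨0, fun w => by rw [zero_mulVec, map_zero, zero_mul]⟩
      add_mem' := fun {X Y} hX hY j φ => by
        obtain ⟨c, hc⟩ := hX j φ
        obtain ⟨d, hd⟩ := hY j φ
        exact ⟨c + d, fun w => by rw [add_mulVec, map_add, hc, hd, add_mul]⟩
      smul_mem' := fun a X hX j φ => by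
        obtain ⟨c, hc⟩ := hX j φ
        exact ⟨a * c, fun w => by rw [smul_mulVec, map_smul, hc, smul_eq_mul, mul_assoc]⟩ }
  have hL : LZ Z ≤ L := by
    refine LA_le_of_conj (fun d hd σ j φ => ?_) fun A hA B hB j φ => ?_
    · rw [Set.mem_singleton_iff.1 hd]
      exact lc_DS h i hΨ j φ σ
    · obtain ⟨c, hc⟩ := hA j φ
      obtain ⟨d, hd⟩ := hB j φ
      refine ⟨0, fun w => ?_⟩
      rw [sub_mulVec, map_sub, ← mulVec_mulVec, ← mulVec_mulVec, hc, hd, hd, hc]
      ring
  intro X hX Y hY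
  apply Matrix.mulVec_injective
  funext w
  rw [← sub_eq_zero]
  refine lc_zero i hi fun j φ => ?_
  obtain ⟨c, hc⟩ := hL hX j φ
  obtain ⟨d, hd⟩ := hL hY j φ
  rw [map_sub, ← mulVec_mulVec, ← mulVec_mulVec, hc, hd, hd, hc]
  ring

end sep

/-- Period matrices. -/
theorem exists_AVZ (X : AV) : ∃ (a : ℕ) (Z : Matrix (Fin a) (Fin a) ℂ) (h : PM Z)
    (A : X.H ≃ₗ[ℚ] (Fin a ⊕ Fin a → ℚ)), IsHom X (AVZ h) A.toLinearMap ∧
      IsHom (AVZ h) X A.symm.toLinearMap := by
  obtain ⟨G, Z, h, A, hC'⟩ := exists_ppav (AV.isAV X)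
  obtain ⟨Ψ₁, h₁⟩ := h.cht.hom hC' (R := 1) (by
    rw [Pool.Agent.W437.HP.cK_one, Matrix.one_mul, Matrix.mul_one])
  obtain ⟨Ψ₂, h₂⟩ := hC'.hom h.cht (R := 1) (by
    rw [Pool.Agent.W437.HP.cK_one, Matrix.one_mul, Matrix.mul_one])
  refine ⟨G, Z, h, A, ⟨Ψ₂, fun v => ?_⟩, ⟨Ψ₁, fun w => ?_⟩⟩
  · have h3 := h₂ (A v)
    have h4 : (X.per.comp A.symm.toLinearMap.toAddMonoidHom) (A v) = X.per v := by
      change X.per (A.symm (A v)) = X.per v
      rw [LinearEquiv.symm_apply_apply]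
    rwa [h4, one_mulVec] at h3
  · change Ψ₁ (perOne Z w) = _
    rw [h₁, one_mulVec]
    rfl

/-- Isogenies preserve abelian subvarieties. -/
theorem isSub_map {X Y : AV} {f : X.H →ₗ[ℚ] Y.H} (hf : IsHom X Y f) {U : Submodule ℚ X.H}
    (hU : IsSub X U) : IsSub Y (U.map f) := by
  obtain ⟨Ψ, hΨ⟩ := hf
  let Ψr : X.T →ₗ[ℝ] Y.T := Ψ.restrictScalars ℝ
  have hspan : Submodule.span ℝ (Y.per '' ((U.map f : Submodule ℚ Y.H) : Set Y.H)) =
      (Submodule.span ℝ (X.per '' (U : Set X.H))).map Ψr := by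
    rw [Submodule.map_span]
    congr 1
    ext y
    constructor
    · rintro ⟨w, ⟨u, hu, rfl⟩, rfl⟩
      exact ⟨X.per u, ⟨u, hu, rfl⟩, hΨ u⟩
    · rintro ⟨w, ⟨u, hu, rfl⟩, rfl⟩
      exact ⟨f u, ⟨u, hu, rfl⟩, (hΨ u).symm⟩
  intro x hx
  rw [hspan] at hx ⊢
  obtain ⟨x', hx', rfl⟩ := hx
  exact ⟨Complex.I • x', hU x' hx', Ψ.map_smul _ _⟩

/-- Isogenies preserve simplicity. -/
theorem IsSimple.iso {X Y : AV} (hX : IsSimple X) (e : X.H ≃ₗ[ℚ] Y.H)
    (hes : IsHom Y X e.symm.toLinearMap) : IsSimple Y := by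
  refine ⟨?_, fun U hU => ?_⟩
  · obtain ⟨x, hx⟩ := hX.1
    exact ⟨e x, fun h0 => hx (by rw [← e.symm_apply_apply x, h0, map_zero])⟩
  · have h2 : U = (U.map e.symm.toLinearMap).map e.toLinearMap := by
      rw [← Submodule.map_comp, ← LinearEquiv.coe_trans, LinearEquiv.symm_trans_self]
      exact (Submodule.map_id U).symm
    rcases hX.2 _ (isSub_map hes hU) with h1 | h1
    · left
      rw [h2, h1, Submodule.map_bot]
    · right
      rw [h2, h1, Submodule.map_top]
      exact e.range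

/-- The simple factors of products of CM types have complex multiplication. -/
theorem cm_of_factor {C : CMAV} (hp : ∃ E, IsPolarization C.per E) {Y : AV}
    (hY : IsFactor Y (avC C hp)) : HasCMult Y := by
  obtain ⟨hs, i, ⟨Ψ, hΨ⟩, hinj⟩ := hY
  obtain ⟨a, Z, h, A, hA, ⟨Ψ', hΨ'⟩⟩ := exists_AVZ Y
  have hsim : IsSimpleAV Z := simple_AVZ h (IsSimple.iso (Y := AVZ h) hs A ⟨Ψ', hΨ'⟩)
  have ha : 0 < a := by
    obtain ⟨y, hy⟩ := hs.1
    rcases Nat.eq_zero_or_pos a with h0 | h0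
    · exfalso
      subst h0
      apply hy
      apply A.injective
      funext x
      rcases x with x | x <;> exact x.elim0
    · exact h0
  let i' : (Fin a ⊕ Fin a → ℚ) →ₗ[ℚ] C.H1 := i.comp A.symm.toLinearMap
  have hcomm := LZ_comm h i' (Ψ := Ψ.comp Ψ') (fun v => by
    change Ψ (Ψ' (perOne Z v)) = _
    have h1 : Ψ' (perOne Z v) = Y.per (A.symm v) := hΨ' v
    rw [h1]
    exact hΨ _) (hinj.comp A.symm.injective)
  have hne : (⊤ : Submodule ℂ (Fin a ⊕ Fin a → ℂ)) ≠ ⊥ := by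
    intro h0
    have h1 : (Pi.single (Sum.inl ⟨0, ha⟩) 1 : Fin a ⊕ Fin a → ℂ) ∈
      (⊥ : Submodule ℂ (Fin a ⊕ Fin a → ℂ)) := by
      rw [← h0]
      trivial
    have h2 := congrFun ((Submodule.mem_bot ℂ).1 h1) (Sum.inl ⟨0, ha⟩)
    rw [Pi.single_eq_same] at h2
    exact one_ne_zero h2
  obtain ⟨U, -, hU⟩ := exists_irS _ (⊤ : Submodule ℂ (Fin a ⊕ Fin a → ℂ)) rfl hne
    (fun _ _ _ _ => trivial)
  exact (cm_AVZ h (cm_of_one h hsim ha hU (line_of_comm hcomm hU))).iso A hA ⟨Ψ', hΨ'⟩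

end

end Pool.Agent.R915
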