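import Mathlib
import Pool.Agent.R915.G4

/-!
# Determinant forms and Weil classes in all dimensions
-/

set_option linter.unusedSectionVars false

namespace Pool.Agent.R915

open Matrix Module Pool.Agent.W437.HC Pool.Agent.W437.HD Pool.Agent.TH504.CB Pool.Agent.Y90
open Pool.Agent.W548.Odd hiding cv
open Pool.Agent.H204R3.CM (IsHodge)
open Pool.Agent.H204R3.SP (Kills)
open Pool.Agent.W437.HP (cK cK_mul cK_one)

/-- `f ∈ H^n(Y, ℚ)` is a Weil class of an imaginary quadratic field on the abelian variety `Y` of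
dimension `n` (without a condition on `n` or on the discriminant): `f` is a Hodge class, and there
are a positive rational number `d` and an endomorphism `h = √-d` of `Y` such that `h` may be moved in
`f` from each variable to each other variable (so `f` lies in the line `Λ^n_K H¹(Y, ℚ)` over the
field `K = ℚ(√-d)`). -/
def IsWeil (Y : AV) (n : ℕ) (f : Y.H [⋀^Fin n]→ₗ[ℚ] ℚ) : Prop :=
  Module.finrank ℚ Y.H = 2 * n ∧ IsHodge Y.per f ∧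
    ∃ (d : ℚ) (h : Y.H →ₗ[ℚ] Y.H), 0 < d ∧ IsHom Y Y h ∧ (∀ w, h (h w) = -(d • w)) ∧
      ∀ (v : Fin n → Y.H) (k l : Fin n),
        f (Function.update v k (h (v k))) = f (Function.update v l (h (v l)))

/-- All Weil classes of imaginary quadratic fields on `X` belong to the system. -/
def Sys.AllWeil (𝒜 : Sys) (X : AV) : Prop :=
  ∀ (n : ℕ) (f : X.H [⋀^Fin n]→ₗ[ℚ] ℚ), IsWeil X n f → 𝒜.A X (Fin n) f

noncomputable section

section prod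

variable {a₁ a₂ : ℕ} {Z₁ : Matrix (Fin a₁) (Fin a₁) ℂ} {Z₂ : Matrix (Fin a₂) (Fin a₂) ℂ}
  (h₁ : PM Z₁) (h₂ : PM Z₂)
  {U₁ : Submodule ℂ (Fin a₁ ⊕ Fin a₁ → ℂ)} {U₂ : Submodule ℂ (Fin a₂ ⊕ Fin a₂ → ℂ)}
  {φ₁ : Matrix (Fin a₁ ⊕ Fin a₁) (Fin a₁ ⊕ Fin a₁) ℚ}
  {φ₂ : Matrix (Fin a₂ ⊕ Fin a₂) (Fin a₂ ⊕ Fin a₂) ℚ} {α : ℂ} {d : ℚ}
  (k₁ : KW Z₁ U₁ φ₁ α d) (k₂ : KW Z₂ U₂ φ₂ α d)
  {ι ι' : Type} [Fintype ι] [DecidableEq ι] [Fintype ι'] [DecidableEq ι']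
  (f₁ : Basis ι ℂ U₁) (f₂ : Basis ι' ℂ U₂) (t₁ : tr Z₁ U₁ + tr Z₂ U₂ = 0)

include k₁ k₂ in
theorem weil_classY (f : (AVP h₁ h₂).H [⋀^Fin (a₁ + a₂)]→ₗ[ℚ] ℚ)
    (hf : IsHodge (AVP h₁ h₂).per f)
    (hmv : ∀ (v : Fin (a₁ + a₂) → (AVP h₁ h₂).H) (k k' : Fin (a₁ + a₂)),
      f (Function.update v k (Matrix.toLin' (PH φ₁ φ₂) (v k))) =
        f (Function.update v k' (Matrix.toLin' (PH φ₁ φ₂) (v k')))) :
    IsWeil (AVP h₁ h₂) (a₁ + a₂) f := by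
  refine ⟨?_, hf, d, Matrix.toLin' (PH φ₁ φ₂), k₁.pos, ?_, fun w => ?_, hmv⟩
  · change finrank ℚ ((Fin a₁ ⊕ Fin a₁) ⊕ (Fin a₂ ⊕ Fin a₂) → ℚ) = 2 * (a₁ + a₂)
    rw [finrank_fintype_fun_eq_card]
    simp only [Fintype.card_sum, Fintype.card_fin]
    omega
  · obtain ⟨Ψ, hΨ⟩ := (h₁.cht.prod h₂.cht).hom (h₁.cht.prod h₂.cht) (PHW_comm k₁ k₂)
    exact ⟨Ψ, fun v => by rw [toLin'_apply]; exact hΨ v⟩
  · rw [toLin'_apply, toLin'_apply]
    exact PHW_sq k₁ k₂ w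

include t₁ in
/-- The rational parts of the determinant form belong to the system. -/
theorem alg_GWy (𝒜 : Sys) (hW : 𝒜.AllWeil (AVP h₁ h₂)) (l : ℂ →ₗ[ℚ] ℚ) :
    𝒜.A (AVP h₁ h₂) (ι ⊕ ι') (ratA (GW k₁ k₂ f₁ f₂) l) := by
  have hc := card_idxW k₁ k₂ f₁ f₂
  let e : ι ⊕ ι' ≃ Fin (a₁ + a₂) := Fintype.equivFinOfCardEq hc
  have h3 := hW (a₁ + a₂) ((ratA (GW k₁ k₂ f₁ f₂) l).domDomCongr e)
      (weil_classY h₁ h₂ k₁ k₂ _
        (isHodge_congr e (GW_hodge h₁ h₂ k₁ k₂ f₁ f₂ t₁ l)) (fun v k k' => ?_))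
  · have h4 := 𝒜.reindex e.symm _ h3
    have h5 : (((ratA (GW k₁ k₂ f₁ f₂) l).domDomCongr e).domDomCongr e.symm) =
        ratA (GW k₁ k₂ f₁ f₂) l := by
      ext v
      rw [AlternatingMap.domDomCongr_apply, AlternatingMap.domDomCongr_apply]
      congr 1
      funext k
      simp
    rw [← h5]
    exact h4
  · have key : ∀ k, (ratA (GW k₁ k₂ f₁ f₂) l).domDomCongr e
        (Function.update v k (Matrix.toLin' (PH φ₁ φ₂) (v k))) =
        ∑ σ : Equiv.Perm (ι ⊕ ι'), ((Equiv.Perm.sign σ : ℤ) : ℚ) *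
          l (α * GW k₁ k₂ f₁ f₂ (fun k => cv (v (e (σ k))))) := by
      intro k
      rw [AlternatingMap.domDomCongr_apply, toLin'_apply]
      have h1 := ratA_moveW k₁ k₂ f₁ f₂ l (fun j => v (e j)) (e.symm k)
      rw [Equiv.apply_symm_apply] at h1
      rw [← h1]
      congr 1
      funext j
      rw [Function.comp_apply]
      by_cases hj : j = e.symm k
      · subst hj
        rw [Equiv.apply_symm_apply, Function.update_self, Function.update_self]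
      · rw [Function.update_of_ne hj, Function.update_of_ne]
        intro h
        exact hj (by rw [← h, Equiv.symm_apply_apply])
    rw [key k, key k']

include t₁ in
theorem altQ_GWy (𝒜 : Sys) (hW : 𝒜.AllWeil (AVP h₁ h₂)) :
    altQ (GW k₁ k₂ f₁ f₂) ∈ RA 𝒜 (AVP h₁ h₂) (ι ⊕ ι') := by
  obtain ⟨m, c, l, hl⟩ := altQ_expand (GW k₁ k₂ f₁ f₂)
  have h1 : altQ (GW k₁ k₂ f₁ f₂) = ∑ j, c j • fun v : ι ⊕ ι' → (AVP h₁ h₂).H =>
      ((ratA (GW k₁ k₂ f₁ f₂) (l j) v : ℚ) : ℂ) := by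
    funext v
    rw [hl, Finset.sum_apply]
    rfl
  rw [h1]
  refine Submodule.sum_mem _ fun j _ => Submodule.smul_mem _ _ ?_
  exact RA_of (X := AVP h₁ h₂) (alg_GWy h₁ h₂ k₁ k₂ f₁ f₂ t₁ 𝒜 hW (l j))

end prod

section gen

variable {B : Type} [Fintype B] [DecidableEq B] {T : Type} [AddCommGroup T] [Module ℂ T]
  [FiniteDimensional ℂ T] {per : (B → ℚ) →+ T} {J : Matrix B B ℝ} (hc : Cht per J)
  (hp : ∃ E : (B → ℚ) → (B → ℚ) → ℚ, IsPolarization per E)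
  {a₁ a₂ : ℕ} {Z₁ : Matrix (Fin a₁) (Fin a₁) ℂ} {Z₂ : Matrix (Fin a₂) (Fin a₂) ℂ}
  (h₁ : PM Z₁) (h₂ : PM Z₂)
  {U₁ : Submodule ℂ (Fin a₁ ⊕ Fin a₁ → ℂ)} {U₂ : Submodule ℂ (Fin a₂ ⊕ Fin a₂ → ℂ)}
  {φ₁ : Matrix (Fin a₁ ⊕ Fin a₁) (Fin a₁ ⊕ Fin a₁) ℚ}
  {φ₂ : Matrix (Fin a₂ ⊕ Fin a₂) (Fin a₂ ⊕ Fin a₂) ℚ} {α : ℂ} {d : ℚ}
  (k₁ : KW Z₁ U₁ φ₁ α d) (k₂ : KW Z₂ U₂ φ₂ α d) (t₁ : tr Z₁ U₁ + tr Z₂ U₂ = 0)
  {ι ι' : Type} [Fintype ι] [DecidableEq ι] [Fintype ι'] [DecidableEq ι']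
  (f₁ : Basis ι ℂ U₁) (f₂ : Basis ι' ℂ U₂)

include h₁ h₂ t₁ in
/-- The determinant forms composed with equivariant maps. -/
theorem gen_dety (𝒜 : Sys) (hW : 𝒜.AllWeil (AVP h₁ h₂))
    (Q : ι → Matrix (Fin a₁ ⊕ Fin a₁) B ℂ) (Q' : ι' → Matrix (Fin a₂ ⊕ Fin a₂) B ℂ)
    (hQ : ∀ y (σ : ℂ ≃+* ℂ), Q y * (DJ J).map σ = DS Z₁ σ * Q y)
    (hQ' : ∀ y (σ : ℂ ≃+* ℂ), Q' y * (DJ J).map σ = DS Z₂ σ * Q' y)
    (ψ : MultilinearMap ℂ (fun _ : ι ⊕ ι' => B → ℂ) ℂ)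
    (hψ : ∀ v, ψ v = k₁.alt f₁ (fun y => Q y *ᵥ v (Sum.inl y)) *
      k₂.alt f₂ (fun y => Q' y *ᵥ v (Sum.inr y))) : ψ ∈ NA 𝒜 hc hp (ι ⊕ ι') := by
  intro i1 i2
  obtain rfl : i1 = instFintypeSum ι ι' := Subsingleton.elim _ _
  obtain rfl : i2 = instDecidableEqSum := Subsingleton.elim _ _
  have h1 : altQ ψ = NN (k₁.alt f₁) (k₂.alt f₂) Q Q' := by
    funext v
    unfold altQ NN
    refine Finset.sum_congr rfl fun σ _ => ?_
    rw [hψ]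
  rw [h1]
  refine NN_mem (k₁.alt f₁) (k₂.alt f₂) (RA 𝒜 (hc.av hp) (ι ⊕ ι')) (TG J (JR Z₁)) (TG J (JR Z₂))
    ?_ _ _ (fun y => exp_memG (hQ y)) (fun y => exp_memG (hQ' y))
  rintro _ ⟨R, rfl, hR⟩ _ ⟨R', rfl, hR'⟩
  have hrow : cK ℂ (fromRows R R') * DJ J =
      DJ (fromBlocks (JR Z₁) 0 0 (JR Z₂)) * cK ℂ (fromRows R R') := by
    have h1 : cK ℂ (fromRows R R') = fromRows (cK ℂ R) (cK ℂ R') := by
      ext i j
      rcases i with i | i <;> rfl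
    rw [DJ_prod, h1]
    unfold DP
    rw [fromRows_mul, hR, hR', fromBlocks_mul_fromRows, Matrix.zero_mul, Matrix.zero_mul, add_zero,
      zero_add]
    rfl
  obtain ⟨Ψ, hΨ⟩ := hc.hom (h₁.cht.prod h₂.cht) hrow
  have h2 := RA_pull (X := hc.av hp) (Y := AVP h₁ h₂) (Matrix.toLin' (fromRows R R'))
    ⟨Ψ, fun v => by rw [toLin'_apply]; exact hΨ v⟩ (altQ_GWy h₁ h₂ k₁ k₂ f₁ f₂ t₁ 𝒜 hW)
  have h3 : NN (k₁.alt f₁) (k₂.alt f₂) (fun _ => cK ℂ R) (fun _ => cK ℂ R') =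
      fun v : ι ⊕ ι' → (hc.av hp).H => altQ (GW k₁ k₂ f₁ f₂)
        (fun k => Matrix.toLin' (fromRows R R') (v k)) := by
    funext v
    unfold altQ NN
    refine Finset.sum_congr rfl fun σ _ => ?_
    rw [GW_apply]
    congr 2
    · change k₁.dl f₁ _ = k₁.dl f₁ _
      congr 1
      funext y
      exact (cv_rows_l R R' (v (σ (Sum.inl y)))).symm
    · change k₂.dl f₂ _ = k₂.dl f₂ _
      congr 1
      funext y
      exact (cv_rows_r R R' (v (σ (Sum.inr y)))).symm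
  rw [h3]
  exact h2

end gen

/-- A submodule attached to an imaginary quadratic field, without conditions on the dimension. -/
structure KB {G : ℕ} (Z : Matrix (Fin G) (Fin G) ℂ) (W : Submodule ℂ (Fin G ⊕ Fin G → ℂ)) (a : ℕ)
    (Z' : Matrix (Fin a) (Fin a) ℂ) (E : Matrix (Fin G ⊕ Fin G) (Fin a ⊕ Fin a) ℚ)
    (F : Matrix (Fin a ⊕ Fin a) (Fin G ⊕ Fin G) ℚ)
    (φ : Matrix (Fin a ⊕ Fin a) (Fin a ⊕ Fin a) ℚ) (α : ℂ) (d : ℚ) : Prop where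
  fac : Fac Z Z' E F
  pm : PM Z'
  inj : ∀ u ∈ W, ml F u = 0 → u = 0
  kw : KW Z' (W.map (ml F)) φ α d

theorem KX.kb {G : ℕ} {Z : Matrix (Fin G) (Fin G) ℂ} {W : Submodule ℂ (Fin G ⊕ Fin G → ℂ)} {a : ℕ}
    {Z' : Matrix (Fin a) (Fin a) ℂ} {E : Matrix (Fin G ⊕ Fin G) (Fin a ⊕ Fin a) ℚ}
    {F : Matrix (Fin a ⊕ Fin a) (Fin G ⊕ Fin G) ℚ}
    {φ : Matrix (Fin a ⊕ Fin a) (Fin a ⊕ Fin a) ℚ} {α : ℂ} {d : ℚ} (k : KX Z W a Z' E F φ α d) :
    KB Z W a Z' E F φ α d := ⟨k.fac, k.pm, k.inj, k.kw⟩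

/-- The determinant forms with elliptic complements belong to the system. -/
def PieceMem (𝒜 : Sys) {G : ℕ} {Z : Matrix (Fin G) (Fin G) ℂ} (h : PM Z)
    (W : Submodule ℂ (Fin G ⊕ Fin G → ℂ)) (a : ℕ)
    (Z' : Matrix (Fin a) (Fin a) ℂ) (F : Matrix (Fin a ⊕ Fin a) (Fin G ⊕ Fin G) ℚ)
    (α : ℂ) (d : ℚ) : Prop :=
  ∀ {M : ℕ} {dd : Fin M → ℚ} (hdd : ∀ i, 0 < dd i) {ι : Type} [Fintype ι] [DecidableEq ι]
    {ε : ℚ} {s : ℤ} (_ : ε = 1 ∨ ε = -1) (_ : s = 1 ∨ s = -1) {γ : ℂ}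
    (_ : γ = (s : ℂ) * (Complex.I * rt d)) (_ : α = (ε : ℂ) * γ) {n : ℕ}
    (_ : tr Z' (W.map (ml F)) + s * n = 0) (m : Fin n → Fin M) (_ : ∀ y, dd (m y) = d)
    (f : Basis ι ℂ W) (p : ι → (Fin G ⊕ Fin G → ℂ) →ₗ[ℂ] W)
    (_ : ∀ y g x, (p y (RZ Z g x) : Fin G ⊕ Fin G → ℂ) = RZ Z g (p y x))
    (ψ : MultilinearMap ℂ (fun _ : ι ⊕ Fin n => (Fin G ⊕ Fin G) ⊕ (Fin M ⊕ Fin M) → ℂ) ℂ)
    (_ : ∀ v, ψ v = f.det (fun y => p y (fun i => v (Sum.inl y) (Sum.inl i))) *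
      ∏ y, lnE G M (m y) γ (v (Sum.inr y))),
    ψ ∈ NA 𝒜 (h.cht.prod (pmE hdd (fun _ => one_pos)).cht)
      ⟨_, pol_prod h (pmE hdd (fun _ => one_pos)) one_pos⟩ (ι ⊕ Fin n)

section side

variable {G : ℕ} {Z : Matrix (Fin G) (Fin G) ℂ}
  {W : Submodule ℂ (Fin G ⊕ Fin G → ℂ)} {a : ℕ} {Z' : Matrix (Fin a) (Fin a) ℂ}
  {E : Matrix (Fin G ⊕ Fin G) (Fin a ⊕ Fin a) ℚ} {F : Matrix (Fin a ⊕ Fin a) (Fin G ⊕ Fin G) ℚ}
  {φ : Matrix (Fin a ⊕ Fin a) (Fin a ⊕ Fin a) ℚ} {α : ℂ} {d : ℚ} (k : KB Z W a Z' E F φ α d)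
  {ι : Type} [Fintype ι] [DecidableEq ι]

theorem KX.piece {h : PM Z} (k : KX Z W a Z' E F φ α d) (𝒜 : Sys) : PieceMem 𝒜 h W a Z' F α d :=
  fun hdd _ _ _ _ _ hε hs _ hγd hα _ ht m hm f p hp ψ hψ =>
    piece_mem h hdd k 𝒜 hε hs hγd hα ht m hm f p hp ψ hψ

/-- The isomorphism with the submodule of the factor. -/
def KB.eqv : W ≃ₗ[ℂ] W.map (ml F) :=
  LinearEquiv.ofBijective (((ml F).domRestrict W).codRestrict (W.map (ml F))
    fun u => Submodule.mem_map_of_mem u.2) (by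
      constructor
      · rw [injective_iff_map_eq_zero]
        intro u hu
        exact Subtype.ext (k.inj u u.2 (congrArg Subtype.val hu))
      · rintro ⟨_, u, hu, rfl⟩
        exact ⟨⟨u, hu⟩, rfl⟩)

theorem KB.eqv_coe (u : W) : (k.eqv u : Fin a ⊕ Fin a → ℂ) = ml F u := rfl

include k in
theorem KB.qmat_comm (h : PM Z) {q : (Fin G ⊕ Fin G → ℂ) →ₗ[ℂ] W}
    (hq : ∀ g x, (q (RZ Z g x) : Fin G ⊕ Fin G → ℂ) = RZ Z g (q x)) (σ : ℂ ≃+* ℂ) :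
    qmat F q * DS Z σ = DS Z' σ * qmat F q := by
  have h1 := (rz_equiv h stab_top (W.subtype.comp q)).1 (fun g u _ => hq g u)
  have h2 : ∀ v, q (DS Z σ *ᵥ v) = DS Z σ *ᵥ (q v : Fin G ⊕ Fin G → ℂ) := fun v =>
    h1 _ (DS_mem σ) v trivial
  apply Matrix.toLin'.injective
  refine LinearMap.ext fun v => ?_
  rw [Matrix.toLin'_apply, Matrix.toLin'_apply, ← mulVec_mulVec, ← mulVec_mulVec, qmat_mulVec,
    qmat_mulVec, h2, ml_apply, ml_apply, mulVec_mulVec, mulVec_mulVec, k.fac.fds]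

theorem KB.alt_q (f : Basis ι ℂ W) (q : ι → (Fin G ⊕ Fin G → ℂ) →ₗ[ℂ] W)
    (v : ι → Fin G ⊕ Fin G → ℂ) :
    k.kw.alt (f.map k.eqv) (fun y => qmat F (q y) *ᵥ v y) = f.det (fun y => q y (v y)) := by
  rw [KW.alt_apply, Basis.det_map]
  congr 1
  funext y
  have h1 : k.kw.pU (qmat F (q y) *ᵥ v y) = k.eqv (q y (v y)) := by
    rw [qmat_mulVec]
    exact k.kw.pU_of_mem (Submodule.mem_map_of_mem (q y (v y)).2)
  change k.eqv.symm (k.kw.pU (qmat F (q y) *ᵥ v y)) = _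
  rw [h1, LinearEquiv.symm_apply_apply]

end side

section piece

variable {G : ℕ} {Z : Matrix (Fin G) (Fin G) ℂ} (h : PM Z)
  {W : Submodule ℂ (Fin G ⊕ Fin G → ℂ)} {a : ℕ} {Z' : Matrix (Fin a) (Fin a) ℂ}
  {E : Matrix (Fin G ⊕ Fin G) (Fin a ⊕ Fin a) ℚ} {F : Matrix (Fin a ⊕ Fin a) (Fin G ⊕ Fin G) ℚ}
  {φ : Matrix (Fin a ⊕ Fin a) (Fin a ⊕ Fin a) ℚ} {α : ℂ} {d : ℚ} (k : KB Z W a Z' E F φ α d)

/-- The determinant form of the submodule, multiplied by linear forms of elliptic curves. -/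
theorem KB.piece (𝒜 : Sys) (hW : ∀ n : ℕ, (tr Z' (W.map (ml F))).natAbs = n →
      𝒜.AllWeil (AVP k.pm (pmE (M := n) (fun _ => k.kw.pos) (l := fun _ => 1) (fun _ => one_pos)))) :
    PieceMem 𝒜 h W a Z' F α d := by
  intro M dd hdd ι _ _ ε s hε hs γ hγd hα n ht m hm f p hp ψ hψ
  have hd := k.kw.pos
  have hε' : ε * ε = 1 := by rcases hε with rfl | rfl <;> norm_num
  have hs' : s * s = 1 := by rcases hs with rfl | rfl <;> norm_num
  have hγ : γ * γ = -(d : ℂ) := by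
    have h1 : ((s : ℂ)) * s = 1 := by exact_mod_cast hs'
    have h2 := rt_sqC hd
    rw [hγd]
    have h3 := Complex.I_mul_I
    calc (s : ℂ) * (Complex.I * rt d) * ((s : ℂ) * (Complex.I * rt d)) =
        (s * s : ℂ) * (Complex.I * Complex.I) * ((rt d : ℂ) * (rt d : ℂ)) := by ring
      _ = _ := by rw [h1, h2, h3]; ring
  have hγ0 : γ ≠ 0 := by
    rintro rfl
    rw [mul_zero, eq_comm, neg_eq_zero] at hγ
    exact hd.ne' (by exact_mod_cast hγ)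
  obtain ⟨l, hle⟩ : ∃ l : Fin n → ℚ, l = fun _ => 1 := ⟨_, rfl⟩
  have hl : ∀ i, 0 < l i := fun i => by rw [hle]; exact one_pos
  have hl' : ∀ i, (l i : ℂ) ≠ 0 := fun i => by exact_mod_cast (hl i).ne'
  have hkw := k.kw
  rw [hα] at hkw
  have k₂ := kwE hd hl hγ hε'
  have htr : tr Z' (W.map (ml F)) + tr (ZE (fun _ : Fin n => d) l) (UE l γ) = 0 := by
    rw [hγd, trE hd hl hs]
    exact ht
  have hn : (tr Z' (W.map (ml F))).natAbs = n := by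
    rcases hs with rfl | rfl <;> omega
  have hWn : 𝒜.AllWeil (AVP k.pm (pmE (fun _ => hd) hl)) := by
    subst hle
    exact hW n hn
  -- the factor
  let c : ℂ := ∏ y : Fin n, ((2 * γ)⁻¹ * ((l y : ℂ))⁻¹)
  have hc : c ≠ 0 := Finset.prod_ne_zero_iff.2 fun y _ =>
    mul_ne_zero (inv_ne_zero (mul_ne_zero two_ne_zero hγ0)) (inv_ne_zero (hl' y))
  have key := gen_dety (h.cht.prod (pmE hdd (fun _ => one_pos)).cht)
    ⟨_, pol_prod h (pmE hdd (fun _ => one_pos)) one_pos⟩ k.pm (pmE (fun _ => hd) hl) hkw k₂ htr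
    (f.map k.eqv) (basE l γ) 𝒜 hWn (fun y => fromCols (qmat F (p y)) 0)
    (fun y => cK ℂ (rowE G M n l m y)) (fun y σ => ?_)
    (fun y σ => rowE_comm hd hdd hl hm y σ) (c • ψ) (fun v => ?_)
  · have h1 : ψ = c⁻¹ • (c • ψ) := by rw [smul_smul, inv_mul_cancel₀ hc, one_smul]
    rw [h1]
    exact Submodule.smul_mem _ _ key
  · rw [DJ_prod, DP_map]
    unfold DP
    rw [fromCols_mul_fromBlocks, mul_fromCols, Matrix.zero_mul, Matrix.mul_zero, Matrix.zero_mul,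
      Matrix.mul_zero, add_zero, add_zero]
    have h1 := k.qmat_comm h (hp y) σ
    rw [← h1]
    rfl
  · have e1 : ∀ y, fromCols (qmat F (p y)) 0 *ᵥ v (Sum.inl y) =
        qmat F (p y) *ᵥ fun i => v (Sum.inl y) (Sum.inl i) := by
      intro y
      rw [fromCols_mulVec, zero_mulVec, add_zero]
      rfl
    have e2 := k.alt_q f p (fun y i => v (Sum.inl y) (Sum.inl i))
    have e3 : hkw.alt (f.map k.eqv) (fun y => fromCols (qmat F (p y)) 0 *ᵥ v (Sum.inl y)) =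
        f.det (fun y => p y (fun i => v (Sum.inl y) (Sum.inl i))) := by
      rw [← e2]
      have e4 : (fun y => fromCols (qmat F (p y)) 0 *ᵥ v (Sum.inl y)) =
          fun y => qmat F (p y) *ᵥ fun i => v (Sum.inl y) (Sum.inl i) := funext e1
      rw [e4]
      subst hα
      rfl
    have e5 : k₂.alt (basE l γ) (fun y => cK ℂ (rowE G M n l m y) *ᵥ v (Sum.inr y)) =
        c * ∏ y, lnE G M (m y) γ (v (Sum.inr y)) := by
      rw [KW.alt_apply, detE hd hl hγ hε']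
      · rw [← Finset.prod_mul_distrib]
        refine Finset.prod_congr rfl fun y _ => ?_
        rw [rowE_l, rowE_r, if_pos rfl, if_pos rfl, lnE_apply]
        ring
      · intro y i hi
        rw [rowE_l, rowE_r, if_neg hi, if_neg hi]
        exact ⟨rfl, rfl⟩
    rw [_root_.smul_apply, hψ, e3, e5, smul_eq_mul]
    ring

include k in
/-- The trace of the conjugates of a submodule attached to an imaginary quadratic field. -/
theorem KB.tr_rho (hW : Stab (LZ Z) W) (σ : ℂ ≃+* ℂ) :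
    tr Z (cjS σ W) = tr Z' (W.map (ml F)) * rho d σ := by
  have h1 : tr Z (cjS σ W) = tr Z' (cjS σ (W.map (ml F))) := by
    rw [cjS_ml]
    exact (k.fac.tr_map (inj_cj k.inj σ) (hW.cj gal_LZ σ)).symm
  have hα : α = Complex.I * rt d ∨ α = -(Complex.I * rt d) := by
    have h2 : (α - Complex.I * rt d) * (α + Complex.I * rt d) = 0 := by
      have h3 := k.kw.al
      have h4 := Irt_sq k.kw.pos
      linear_combination h3 - h4
    rcases mul_eq_zero.1 h2 with h3 | h3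
    · left
      linear_combination h3
    · right
      linear_combination h3
  have hσ : σ α = (rho d σ : ℂ) * α := by
    rcases hα with h2 | h2
    · rw [h2, rho_spec k.kw.pos]
    · rw [h2, map_neg, rho_spec k.kw.pos]
      ring
  have h0 := k.kw.al_ne
  rw [h1]
  rcases k.kw.tr_cj σ with ⟨h2, h3⟩ | ⟨h2, h3⟩
  · rw [h3]
    rcases rho_pm d σ with h4 | h4
    · rw [h4, mul_one]
    · exfalso
      rw [h2, h4] at hσ
      push_cast at hσ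
      exact h0 (by linear_combination hσ / 2)
  · rw [h3]
    rcases rho_pm d σ with h4 | h4
    · exfalso
      rw [h2, h4] at hσ
      push_cast at hσ
      exact h0 (by linear_combination -hσ / 2)
    · rw [h4]
      ring

include k in
theorem KB.exists_eps :
    ∃ (n : ℕ) (s : ℤ) (ε : ℚ), (ε = 1 ∨ ε = -1) ∧ (s = 1 ∨ s = -1) ∧
      α = (ε : ℂ) * ((s : ℂ) * (Complex.I * rt d)) ∧ tr Z' (W.map (ml F)) + s * n = 0 := by
  have hα : α = Complex.I * rt d ∨ α = -(Complex.I * rt d) := by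
    have h2 : (α - Complex.I * rt d) * (α + Complex.I * rt d) = 0 := by
      have h3 := k.kw.al
      have h4 := Irt_sq k.kw.pos
      linear_combination h3 - h4
    rcases mul_eq_zero.1 h2 with h3 | h3
    · left
      linear_combination h3
    · right
      linear_combination h3
  rcases le_total (tr Z' (W.map (ml F))) 0 with h1 | h1
  · rcases hα with h2 | h2
    · refine ⟨(tr Z' (W.map (ml F))).natAbs, 1, 1, Or.inl rfl, Or.inl rfl, ?_, by omega⟩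
      rw [h2]
      push_cast
      ring
    · refine ⟨(tr Z' (W.map (ml F))).natAbs, 1, -1, Or.inr rfl, Or.inl rfl, ?_, by omega⟩
      rw [h2]
      push_cast
      ring
  · rcases hα with h2 | h2
    · refine ⟨(tr Z' (W.map (ml F))).natAbs, -1, -1, Or.inr rfl, Or.inr rfl, ?_, by omega⟩
      rw [h2]
      push_cast
      ring
    · refine ⟨(tr Z' (W.map (ml F))).natAbs, -1, 1, Or.inl rfl, Or.inr rfl, ?_, by omega⟩
      rw [h2]
      push_cast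
      ring

end piece

end

end Pool.Agent.R915
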