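import Mathlib
import Pool.Agent.R915.V1

/-!
# Balanced products of determinant forms, with Weil classes in all dimensions
-/

set_option linter.unusedSectionVars false

namespace Pool.Agent.R915

open Matrix Module Pool.Agent.W437.HC Pool.Agent.W437.HD Pool.Agent.TH504.CB Pool.Agent.Y90
open Pool.Agent.W548.Odd hiding cv
open Pool.Agent.H204R3.CM (IsHodge)
open Pool.Agent.W437.HP (cK cK_mul cK_one)

noncomputable section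

section total

variable {G : ℕ} {Z : Matrix (Fin G) (Fin G) ℂ} {S' : Type} [Fintype S'] [DecidableEq S']

/-- Balanced products of determinant forms and of linear forms of complex multiplication belong to
the system. -/
theorem det_NB2 (𝒜 : Sys) (h : PM Z) {S : Type} [Fintype S]
    (W : S → Submodule ℂ (Fin G ⊕ Fin G → ℂ))
    (hW : ∀ q, Stab (LZ Z) (W q))
    {a : S → ℕ} {Z₁ : ∀ q, Matrix (Fin (a q)) (Fin (a q)) ℂ}
    {E : ∀ q, Matrix (Fin G ⊕ Fin G) (Fin (a q) ⊕ Fin (a q)) ℚ}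
    {F : ∀ q, Matrix (Fin (a q) ⊕ Fin (a q)) (Fin G ⊕ Fin G) ℚ}
    {φ : ∀ q, Matrix (Fin (a q) ⊕ Fin (a q)) (Fin (a q) ⊕ Fin (a q)) ℚ} {α : S → ℂ} {d : S → ℚ}
    (k : ∀ q, KB Z (W q) (a q) (Z₁ q) (E q) (F q) (φ q) (α q) (d q))
    (kp : ∀ q, PieceMem 𝒜 h (W q) (a q) (Z₁ q) (F q) (α q) (d q))
    (ι : S → Type) [∀ q, Fintype (ι q)] [∀ q, DecidableEq (ι q)] (f : ∀ q, Basis (ι q) ℂ (W q))
    (p : ∀ q, ι q → (Fin G ⊕ Fin G → ℂ) →ₗ[ℂ] W q)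
    (hp : ∀ q y g x, (p q y (RZ Z g x) : Fin G ⊕ Fin G → ℂ) = RZ Z g (p q y x))
    {a' : S' → ℕ} {Z' : ∀ s, Matrix (Fin (a' s)) (Fin (a' s)) ℂ} (h' : ∀ s, PM (Z' s))
    (μ : ∀ s, (Fin (a' s) ⊕ Fin (a' s) → ℂ) →ₗ[ℂ] ℂ) (m : S' → (ℂ ≃+* ℂ) → ℤ)
    (hμ : ∀ s σ x, μ s (DS (Z' s) σ *ᵥ x) = (m s σ : ℂ) * μ s x)
    (Qm : ∀ s, Matrix (Fin (a' s) ⊕ Fin (a' s)) (Fin G ⊕ Fin G) ℂ)
    (hQ : ∀ s (σ : ℂ ≃+* ℂ), Qm s * DS Z σ = DS (Z' s) σ * Qm s)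
    (hbal : ∀ σ : ℂ ≃+* ℂ, ∑ q, tr Z (cjS σ.symm (W q)) + ∑ s, m s σ = 0)
    (hall : ∀ (M : ℕ) (dd : Fin M → ℚ) (hdd : ∀ j, 0 < dd j),
      (∀ j, ∃ q, dd j = d q ∧ tr (Z₁ q) ((W q).map (ml (F q))) ≠ 0) → ∀
      (r : (BQ (aQ a' M) → ℚ) [⋀^(S' ⊕ Fin M)]→ₗ[ℚ] ℚ), IsHodge (perQ (ZQ Z' dd)) r →
      𝒜.A (AVQ (pmQ h' hdd)) (S' ⊕ Fin M) r)
    (ψ : MultilinearMap ℂ (fun _ : (Σ q, ι q) ⊕ S' => Fin G ⊕ Fin G → ℂ) ℂ)
    (hψ : ∀ v, ψ v = (∏ q, (f q).det (fun y => p q y (v (Sum.inl ⟨q, y⟩)))) *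
      ∏ s, μ s (Qm s *ᵥ v (Sum.inr s))) :
    ψ ∈ NA 𝒜 h.cht ⟨_, h.polar⟩ ((Σ q, ι q) ⊕ S') := by
  choose n s ε hε hs hα ht using fun q => (k q).exists_eps
  let M : ℕ := Fintype.card (Σ q, Fin (n q))
  let eM : (Σ q, Fin (n q)) ≃ Fin M := Fintype.equivFin _
  let dd : Fin M → ℚ := fun j => d (eM.symm j).1
  let ss : Fin M → ℤ := fun j => s (eM.symm j).1
  have hdd : ∀ j, 0 < dd j := fun j => (k _).kw.pos
  have hss : ∀ j, ss j = 1 ∨ ss j = -1 := fun j => hs _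
  have hdm : ∀ q y, dd (eM ⟨q, y⟩) = d q := by
    intro q y
    change d (eM.symm (eM ⟨q, y⟩)).1 = d q
    rw [Equiv.symm_apply_apply]
  have hsm : ∀ q y, ss (eM ⟨q, y⟩) = s q := by
    intro q y
    change s (eM.symm (eM ⟨q, y⟩)).1 = s q
    rw [Equiv.symm_apply_apply]
  have hdq : ∀ j, ∃ q, dd j = d q ∧ tr (Z₁ q) ((W q).map (ml (F q))) ≠ 0 := by
    intro j
    refine ⟨(eM.symm j).1, rfl, fun h0 => ?_⟩
    have h1 := ht (eM.symm j).1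
    have h2 : 0 < n (eM.symm j).1 := lt_of_le_of_lt (Nat.zero_le _) (eM.symm j).2.2
    rcases hs (eM.symm j).1 with h3 | h3 <;> rw [h0, h3] at h1 <;> omega
  have hb1 : ∀ σ : ℂ ≃+* ℂ, ∑ j, ss j * rho (dd j) σ = -∑ q, tr Z (cjS σ.symm (W q)) := by
    intro σ
    rw [← Equiv.sum_comp eM (fun j => ss j * rho (dd j) σ), Fintype.sum_sigma,
      ← Finset.sum_neg_distrib]
    refine Finset.sum_congr rfl fun q _ => ?_
    rw [Finset.sum_congr rfl fun y _ => by rw [hdm, hsm], Finset.sum_const, Finset.card_univ,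
      Fintype.card_fin, nsmul_eq_mul, (k q).tr_rho (hW q), rho_symm (k q).kw.pos]
    linear_combination (rho (d q) σ) * ht q
  have hb : ∀ σ : ℂ ≃+* ℂ, ∑ q, mQ m dd ss q σ = 0 := by
    intro σ
    rw [Fintype.sum_sum_type]
    have h2 : ∑ j, mQ m dd ss (Sum.inr j) σ = -∑ j, ss j * rho (dd j) σ := by
      rw [← Finset.sum_neg_distrib]
      rfl
    have h3 : ∑ s, mQ m dd ss (Sum.inl s) σ = ∑ s, m s σ := rfl
    rw [h2, h3, hb1]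
    linear_combination hbal σ
  let hX := pmE hdd (fun _ => one_pos)
  let N := fun (κ : Type) [Finite κ] => NA 𝒜 (h.cht.prod hX.cht) ⟨_, pol_prod h hX one_pos⟩ κ
  have hclo : Clo N := clo_NA _ _ _
  -- the pieces
  let P : ∀ q, MultilinearMap ℂ
      (fun _ : ι q ⊕ Fin (n q) => (Fin G ⊕ Fin G) ⊕ (Fin M ⊕ Fin M) → ℂ) ℂ := fun q =>
    prd ((f q).det.toMultilinearMap.compLinearMap
        (fun y => (p q y).comp (LinearMap.funLeft ℂ ℂ Sum.inl)))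
      ((MultilinearMap.mkPiAlgebra ℂ (Fin (n q)) ℂ).compLinearMap
        (fun y => lnE G M (eM ⟨q, y⟩) ((s q : ℂ) * (Complex.I * rt (d q)))))
  have hP : ∀ q, P q ∈ N (ι q ⊕ Fin (n q)) := fun q =>
    kp q hdd (hε q) (hs q) rfl (hα q) (ht q) (fun y => eM ⟨q, y⟩) (hdm q) (f q)
      (p q) (hp q) (P q) fun v => rfl
  obtain ⟨Ψ, hΨ, hΨ'⟩ := hclo.exists_fam (fun q => ι q ⊕ Fin (n q)) P hP (Equiv.refl _)
  -- the complement
  let Θ : MultilinearMap ℂ (fun _ : S' ⊕ Fin M => (Fin G ⊕ Fin G) ⊕ (Fin M ⊕ Fin M) → ℂ) ℂ :=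
    PhQ (muQ μ dd ss) (QQ Qm)
  have hΘ : Θ ∈ N (S' ⊕ Fin M) :=
    PhQ_mem (pmQ h' hdd) _ _ 𝒜 (muQ_DS hμ hdd hss) hb (hall M dd hdd hdq) _ (QQ_comm hQ hdd)
  have hΘ' : ∀ v, Θ v = (∏ s, μ s (Qm s *ᵥ fun i => v (Sum.inl s) (Sum.inl i))) *
      ∏ j, lnE G M j (-gam dd ss j) (v (Sum.inr j)) := by
    intro v
    change PhQ (muQ μ dd ss) (QQ Qm) v = _
    rw [PhQ_apply, Fintype.prod_sum_type]
    congr 1
    · refine Finset.prod_congr rfl fun s _ => ?_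
      change μ s (fromCols (Qm s) 0 *ᵥ v (Sum.inl s)) = _
      rw [fromCols_mulVec, zero_mulVec, add_zero]
      rfl
    · refine Finset.prod_congr rfl fun j _ => ?_
      change lmE 1 0 (-gam (fun _ : Fin 1 => dd j) (fun _ => ss j) 0)
        (cK ℂ (rowE G M 1 (fun _ => 1) (fun _ => j) 0) *ᵥ v (Sum.inr j)) = _
      rw [lmE_apply, rowE_l, rowE_r, if_pos rfl, if_pos rfl, lnE_apply, Rat.cast_one, inv_one,
        one_mul]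
      rfl
  -- the product
  let e : (Σ q, ι q ⊕ Fin (n q)) ⊕ (S' ⊕ Fin M) ≃ ((Σ q, ι q) ⊕ S') ⊕ (Fin M ⊕ Fin M) :=
    (Equiv.sumCongr ((Equiv.sigmaSumDistrib ι (fun q => Fin (n q))).trans
      (Equiv.sumCongr (Equiv.refl _) eM)) (Equiv.refl _)).trans (Equiv.sumSumSumComm _ _ _ _)
  let T : MultilinearMap ℂ
      (fun _ : ((Σ q, ι q) ⊕ S') ⊕ (Fin M ⊕ Fin M) => (Fin G ⊕ Fin G) ⊕ (Fin M ⊕ Fin M) → ℂ) ℂ :=
    prd (ψ.compLinearMap (fun _ => LinearMap.funLeft ℂ ℂ Sum.inl))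
      ((betE (gam dd ss)).compLinearMap (fun _ => LinearMap.funLeft ℂ ℂ Sum.inr))
  have hT : T ∈ N (((Σ q, ι q) ⊕ S') ⊕ (Fin M ⊕ Fin M)) := by
    refine hclo.mul _ _ _ e Ψ Θ T hΨ hΘ fun w => ?_
    have h1 : T w = ψ (fun x i => w (Sum.inl x) (Sum.inl i)) *
        ((∏ j, lmE M j (gam dd ss j) (fun i => w (Sum.inr (Sum.inl j)) (Sum.inr i))) *
          ∏ j, lmE M j (-gam dd ss j) (fun i => w (Sum.inr (Sum.inr j)) (Sum.inr i))) := rfl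
    have h2 : Θ (fun j => w (e (Sum.inr j))) =
        (∏ s, μ s (Qm s *ᵥ fun i => w (Sum.inl (Sum.inr s)) (Sum.inl i))) *
        ∏ j, lmE M j (-gam dd ss j) (fun i => w (Sum.inr (Sum.inr j)) (Sum.inr i)) := by
      rw [hΘ']
      rfl
    have h3 : Ψ (fun x => w (e (Sum.inl x))) =
        ∏ q, ((f q).det (fun y => p q y (fun i => w (Sum.inl (Sum.inl ⟨q, y⟩)) (Sum.inl i))) *
          ∏ y, lmE M (eM ⟨q, y⟩) ((s q : ℂ) * (Complex.I * rt (d q)))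
            (fun i => w (Sum.inr (Sum.inl (eM ⟨q, y⟩))) (Sum.inr i))) := by
      rw [hΨ']
      rfl
    have h4 : ∀ q (y : Fin (n q)), (s q : ℂ) * (Complex.I * rt (d q)) = gam dd ss (eM ⟨q, y⟩) := by
      intro q y
      unfold gam
      rw [hdm, hsm]
    have h5 : ∏ q, ∏ y, lmE M (eM ⟨q, y⟩) ((s q : ℂ) * (Complex.I * rt (d q)))
        (fun i => w (Sum.inr (Sum.inl (eM ⟨q, y⟩))) (Sum.inr i)) =
        ∏ j, lmE M j (gam dd ss j) (fun i => w (Sum.inr (Sum.inl j)) (Sum.inr i)) := by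
      rw [← Equiv.prod_comp eM (fun j => lmE M j (gam dd ss j)
        (fun i => w (Sum.inr (Sum.inl j)) (Sum.inr i))), Fintype.prod_sigma]
      refine Finset.prod_congr rfl fun q _ => Finset.prod_congr rfl fun y _ => ?_
      rw [h4 q y]
    rw [h1, h2, h3, hψ, Finset.prod_mul_distrib, h5]
    ring
  refine NA_push h hX 𝒜 ψ (betE (gam dd ss)) ?_ T (fun w => rfl) hT
  rw [altQ_betE]
  refine Finset.prod_ne_zero_iff.2 fun j _ => neg_ne_zero.2 (mul_ne_zero two_ne_zero ?_)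
  unfold gam
  refine mul_ne_zero ?_ (mul_ne_zero Complex.I_ne_zero (rt_neC (hdd j)))
  rcases hss j with h1 | h1 <;> rw [h1] <;> norm_num

end total

section total2

variable {G : ℕ} {Z : Matrix (Fin G) (Fin G) ℂ}

/-- Balanced products of determinant forms belong to the system. -/
theorem det_NB3 (𝒜 : Sys) (h : PM Z) {S : Type} [Fintype S]
    (W : S → Submodule ℂ (Fin G ⊕ Fin G → ℂ))
    (hW : ∀ q, IrS (LZ Z) (W q))
    (hK : ∀ q, (∃ (a : ℕ) (Z' : Matrix (Fin a) (Fin a) ℂ)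
      (E : Matrix (Fin G ⊕ Fin G) (Fin a ⊕ Fin a) ℚ) (F : Matrix (Fin a ⊕ Fin a) (Fin G ⊕ Fin G) ℚ)
      (φ : Matrix (Fin a ⊕ Fin a) (Fin a ⊕ Fin a) ℚ) (α : ℂ) (d : ℚ),
        KB Z (W q) a Z' E F φ α d ∧ PieceMem 𝒜 h (W q) a Z' F α d ∧ IsSimpleAV Z' ∧ 0 < a ∧
          ∀ h₂ : PM Z', ¬ HasCMult (AVZ h₂)) ∨
      ∃ (a : ℕ) (Z' : Matrix (Fin a) (Fin a) ℂ) (E : Matrix (Fin G ⊕ Fin G) (Fin a ⊕ Fin a) ℚ)
        (F : Matrix (Fin a ⊕ Fin a) (Fin G ⊕ Fin G) ℚ), CX Z (W q) a Z' E F)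
    (hbal : ∀ τ : ℂ ≃+* ℂ, ∑ q, tr Z (cjS τ (W q)) = 0)
    (ι : S → Type) [∀ q, Fintype (ι q)] [∀ q, DecidableEq (ι q)] (f : ∀ q, Basis (ι q) ℂ (W q))
    (p : ∀ q, ι q → (Fin G ⊕ Fin G → ℂ) →ₗ[ℂ] W q)
    (hp : ∀ q y g x, (p q y (RZ Z g x) : Fin G ⊕ Fin G → ℂ) = RZ Z g (p q y x))
    (hall : ∀ (Q : Type) [Fintype Q] [DecidableEq Q] (a : Q → ℕ)
      (Z' : ∀ q, Matrix (Fin (a q)) (Fin (a q)) ℂ) (h' : ∀ q, PM (Z' q)), (∀ q, GoodF Z (h' q)) →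
      ∀ (r : (BQ a → ℚ) [⋀^Q]→ₗ[ℚ] ℚ), IsHodge (perQ Z') r → 𝒜.A (AVQ h') Q r)
    (ψ : MultilinearMap ℂ (fun _ : (Σ q, ι q) => Fin G ⊕ Fin G → ℂ) ℂ)
    (hψ : ∀ v, ψ v = ∏ q, (f q).det (fun y => p q y (v ⟨q, y⟩))) :
    ψ ∈ NA 𝒜 h.cht ⟨_, h.polar⟩ (Σ q, ι q) := by
  classical
  let Pq : S → Prop := fun q => ∃ (a : ℕ) (Z' : Matrix (Fin a) (Fin a) ℂ)
      (E : Matrix (Fin G ⊕ Fin G) (Fin a ⊕ Fin a) ℚ) (F : Matrix (Fin a ⊕ Fin a) (Fin G ⊕ Fin G) ℚ)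
      (φ : Matrix (Fin a ⊕ Fin a) (Fin a ⊕ Fin a) ℚ) (α : ℂ) (d : ℚ),
        KB Z (W q) a Z' E F φ α d ∧ PieceMem 𝒜 h (W q) a Z' F α d ∧ IsSimpleAV Z' ∧ 0 < a ∧
          ∀ h₂ : PM Z', ¬ HasCMult (AVZ h₂)
  have hC : ∀ q : {q // ¬ Pq q}, ∃ (a : ℕ) (Z' : Matrix (Fin a) (Fin a) ℂ)
      (E : Matrix (Fin G ⊕ Fin G) (Fin a ⊕ Fin a) ℚ) (F : Matrix (Fin a ⊕ Fin a) (Fin G ⊕ Fin G) ℚ),
      CX Z (W q) a Z' E F := fun q => (hK q).resolve_left q.2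
  choose a' Z' E' F' k using hC
  have hK' : ∀ q : {q // Pq q}, Pq q := fun q => q.2
  choose a₁ Z₁ E₁ F₁ φ₁ α₁ d₁ k₁ kp₁ hs₁ hp₁ hn₁ using hK'
  choose y0 μ hy0 hdet hμ using fun q : {q // ¬ Pq q} => (k q).exists_form (hW q) (f q)
  -- the equivalence of the index sets
  let fw : (Σ q : {q // Pq q}, ι q) ⊕ {q // ¬ Pq q} → Σ q, ι q :=
    Sum.elim (fun x => ⟨x.1.1, x.2⟩) fun q => ⟨q.1, y0 q⟩
  have hfw : Function.Bijective fw := by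
    constructor
    · rintro (⟨⟨q, hq⟩, y⟩ | ⟨q, hq⟩) (⟨⟨q', hq'⟩, y'⟩ | ⟨q', hq'⟩) hxy
      · have h1 : (⟨q, y⟩ : Σ q, ι q) = ⟨q', y'⟩ := hxy
        obtain rfl : q = q' := congrArg Sigma.fst h1
        have h2 : y = y' := by simpa using h1
        rw [h2]
      · exfalso
        have h1 : q = q' := congrArg Sigma.fst hxy
        exact hq' (h1 ▸ hq)
      · exfalso
        have h1 : q = q' := congrArg Sigma.fst hxy
        exact hq (h1 ▸ hq')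
      · have h1 : q = q' := congrArg Sigma.fst hxy
        subst h1
        rfl
    · rintro ⟨q, y⟩
      by_cases hq : Pq q
      · exact ⟨Sum.inl ⟨⟨q, hq⟩, y⟩, rfl⟩
      · refine ⟨Sum.inr ⟨q, hq⟩, ?_⟩
        have h1 := hy0 ⟨q, hq⟩ y
        change (⟨q, y0 ⟨q, hq⟩⟩ : Σ q, ι q) = ⟨q, y⟩
        rw [← h1]
  let e0 : (Σ q : {q // Pq q}, ι q) ⊕ {q // ¬ Pq q} ≃ Σ q, ι q := Equiv.ofBijective fw hfw
  let ψ' := ψ.domDomCongr e0.symm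
  have hψ' : ∀ v, ψ' v = (∏ q : {q // Pq q}, (f q).det (fun y => p q y (v (Sum.inl ⟨q, y⟩)))) *
      ∏ s : {q // ¬ Pq q}, μ s (qmat (F' s) (p s (y0 s)) *ᵥ v (Sum.inr s)) := by
    intro v
    rw [MultilinearMap.domDomCongr_apply, hψ, ← Fintype.prod_subtype_mul_prod_subtype Pq]
    congr 1
    · refine Finset.prod_congr rfl fun q _ => ?_
      congr 1
      funext y
      have h1 : e0.symm ⟨q.1, y⟩ = Sum.inl ⟨q, y⟩ := by
        rw [Equiv.symm_apply_eq]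
        rfl
      rw [h1]
    · refine Finset.prod_congr rfl fun q _ => ?_
      rw [hdet q]
      have h1 : e0.symm ⟨q.1, y0 q⟩ = Sum.inr q := by
        rw [Equiv.symm_apply_eq]
        rfl
      rw [h1, qmat_mulVec]
  have key : ψ' ∈ NA 𝒜 h.cht ⟨_, h.polar⟩ ((Σ q : {q // Pq q}, ι q) ⊕ {q // ¬ Pq q}) := by
    refine det_NB2 𝒜 h (S := {q // Pq q}) (S' := {q // ¬ Pq q}) (fun q => W q)
      (fun q => (hW q).2.1) k₁ kp₁ (fun q => ι q) (fun q => f q) (fun q => p q)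
      (fun q => hp q) (fun s => (k s).pm) μ (fun s σ => tr Z (cjS σ.symm (W s))) hμ
      (fun s => qmat (F' s) (p s (y0 s)))
      (fun s σ => (k s).qmat_comm h (hp s (y0 s)) σ) (fun σ => ?_) (fun M dd hdd hdq r hr => ?_) ψ' hψ'
    · rw [← hbal σ.symm]
      exact Fintype.sum_subtype_add_sum_subtype Pq (fun q => tr Z (cjS σ.symm (W q)))
    · refine hall _ _ _ (pmQ (fun s => (k s).pm) hdd) ?_ r hr
      rintro (s | j)
      · exact ⟨(k s).simple, (k s).pos, (k s).cm, Or.inl ⟨E' s, F' s, (k s).fac⟩⟩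
      · obtain ⟨q, hq1, hq2⟩ := hdq j
        refine ⟨simpleE (hdd j), one_pos, cmE (hdd j), Or.inr ⟨rfl, dd j, unbE (hdd j), a₁ q, Z₁ q,
          (k₁ q).pm, E₁ q, F₁ q, (k₁ q).fac, hs₁ q, hp₁ q, hn₁ q _, ?_⟩⟩
        rw [hq1]
        exact (k₁ q).kw.unbalanced (k₁ q).pm hq2
  refine (clo_NA 𝒜 h.cht ⟨_, h.polar⟩).reindex e0 key ψ fun v => ?_
  rw [MultilinearMap.domDomCongr_apply]
  congr 1
  funext x
  rw [Equiv.apply_symm_apply]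

end total2

end

end Pool.Agent.R915
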