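import Mathlib
import Pool.Agent.R915.V3

/-!
# Imaginary quadratic multiplication with large Hodge groups
-/

set_option linter.unusedSectionVars false

namespace Pool.Agent.R915

open Matrix Module Pool.Agent.W437.HC Pool.Agent.W437.HD Pool.Agent.TH504.CB Pool.Agent.Y90
open Pool.Agent.W548.Odd hiding cv
open Pool.Agent.H204R3.CM (IsHodge)
open Pool.Agent.W437.HP (cK cK_mul cK_one)

/-- The Hodge group of `Y` contains the special unitary group: for each Lie algebra `𝔤` whose real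
span contains the complex structure, `𝔤` contains each endomorphism `s` of the vector space
`H_1(Y, ℚ)` which commutes with `h = √-d`, is skew-symmetric for the Hodge classes of degree two,
and whose trace over the imaginary quadratic field `ℚ(√-d)` is zero. -/
def FullUnitary (Y : AV) (h : Y.H →ₗ[ℚ] Y.H) : Prop :=
  ∀ 𝔤, HodgeLie Y 𝔤 → ∀ s : Module.End ℚ Y.H, s * h = h * s → LinearMap.trace ℚ Y.H s = 0 →
    LinearMap.trace ℚ Y.H (h * s) = 0 →
    (∀ E : Y.H [⋀^Fin 2]→ₗ[ℚ] ℚ, IsHodge Y.per E → ∀ u v, E ![s u, v] + E ![u, s v] = 0) → s ∈ 𝔤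

/-- The two square roots of `-d` have the multiplicities `m` and `n`, in one of the two orders, as
eigenvalues of the action of `h = √-d` on the tangent space. -/
def Multiplicities (Y : AV) (d : ℚ) (h : Y.H →ₗ[ℚ] Y.H) (m n : ℕ) : Prop :=
  ∃ (Ψ : Y.T →ₗ[ℂ] Y.T) (s : ℂ), (∀ v, Ψ (Y.per v) = Y.per (h v)) ∧ s * s = -(d : ℂ) ∧
    finrank ℂ (LinearMap.ker (Ψ - s • LinearMap.id)) = m ∧
    finrank ℂ (LinearMap.ker (Ψ + s • LinearMap.id)) = n

/-- The endomorphism algebra of `Y` is the imaginary quadratic field generated by `h = √-d`, and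
either the multiplicities of the two square roots of `-d` as eigenvalues of `h` on the tangent space
are coprime, or both are at most three, or the Hodge group contains the special unitary group. -/
def QuadFull (Y : AV) (d : ℚ) (h : Y.H →ₗ[ℚ] Y.H) : Prop :=
  EndQuad Y d h ∧
    ((∃ m n, Multiplicities Y d h m n ∧ (m.Coprime n ∨ (m ≤ 3 ∧ n ≤ 3))) ∨ FullUnitary Y h)

theorem Multiplicities.all {Y : AV} {d : ℚ} {h : Y.H →ₗ[ℚ] Y.H} {m n : ℕ}
    (k : Multiplicities Y d h m n) (hmn : m.Coprime n ∨ (m ≤ 3 ∧ n ≤ 3)) :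
    ∃ Ψ : Y.T →ₗ[ℂ] Y.T, (∀ v, Ψ (Y.per v) = Y.per (h v)) ∧ ∀ s : ℂ, s * s = -(d : ℂ) →
      (finrank ℂ (LinearMap.ker (Ψ - s • LinearMap.id))).Coprime
        (finrank ℂ (LinearMap.ker (Ψ + s • LinearMap.id))) ∨
      (finrank ℂ (LinearMap.ker (Ψ - s • LinearMap.id)) ≤ 3 ∧
        finrank ℂ (LinearMap.ker (Ψ + s • LinearMap.id)) ≤ 3) := by
  obtain ⟨Ψ, s, h1, h2, h3, h4⟩ := k
  refine ⟨Ψ, h1, fun t ht => ?_⟩
  rcases mul_self_eq_mul_self_iff.1 (ht.trans h2.symm) with rfl | rfl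
  · rw [h3, h4]
    exact hmn
  · have h5 : Ψ - (-s) • LinearMap.id = Ψ + s • LinearMap.id := by
      refine LinearMap.ext fun v => ?_
      simp only [LinearMap.sub_apply, LinearMap.add_apply, LinearMap.smul_apply]
      module
    have h6 : Ψ + (-s) • LinearMap.id = Ψ - s • LinearMap.id := by
      refine LinearMap.ext fun v => ?_
      simp only [LinearMap.sub_apply, LinearMap.add_apply, LinearMap.smul_apply]
      module
    rw [h5, h6, h3, h4]
    rcases hmn with h | h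
    · exact Or.inl h.symm
    · exact Or.inr h.symm

noncomputable section

section qf

variable {g : ℕ} {Z : Matrix (Fin g) (Fin g) ℂ} (h : PM Z)
  {φ : Matrix (Fin g ⊕ Fin g) (Fin g ⊕ Fin g) ℚ} {d : ℚ} (k : QF Z φ d)

include h k

/-- Elements of rank one if the Lie algebra contains the special unitary Lie algebra. -/
theorem QF.rk_full {α : ℂ} (hα : α * α = -(d : ℂ)) {U : Submodule ℂ (Fin g ⊕ Fin g → ℂ)}
    (hU : IrS (LZ Z) U) (hm : ∀ v, v ∈ U ↔ qm φ *ᵥ v = α • v) (hp : 0 < pd Z U)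
    (hq : 0 < qd Z U)
    (HL : ∀ S : Matrix (Fin g ⊕ Fin g) (Fin g ⊕ Fin g) ℂ, Sᵀ * Om g ℂ + Om g ℂ * S = 0 →
      S * qm φ = qm φ * S → trace S = 0 → trace (qm φ * S) = 0 → S ∈ LZ Z) : Rk1 Z U := by
  have hα0 := k.root_ne hα
  have hα' : -α * -α = -(d : ℂ) := by rw [neg_mul_neg]; exact hα
  have hm' : ∀ v, v ∈ cjS cc U ↔ qm φ *ᵥ v = (-α) • v := by
    intro v
    rw [k.cj_mem hα hm, k.cc_root hα]
  have hne' : cjS cc U ≠ ⊥ := by
    intro h0
    have h1 := finrank_cjS cc U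
    rw [h0, finrank_bot, eq_comm, Submodule.finrank_eq_zero] at h1
    exact hU.1 h1
  have hiso := k.isot h hα hm hU.1
  have hiso' := k.isot h hα' hm' hne'
  obtain ⟨x, ⟨hxU, hx1⟩, hx0⟩ : ∃ x ∈ (U ⊓ eig Z 1 : Submodule ℂ (Fin g ⊕ Fin g → ℂ)), x ≠ 0 := by
    refine Submodule.exists_mem_ne_zero_of_ne_bot fun h0 => ?_
    unfold pd at hp
    rw [h0, finrank_bot] at hp
    exact lt_irrefl _ hp
  obtain ⟨z, ⟨hzU, hz1⟩, hz0⟩ : ∃ z ∈ (cjS cc U ⊓ eig Z 1 : Submodule ℂ (Fin g ⊕ Fin g → ℂ)),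
      z ≠ 0 := by
    refine Submodule.exists_mem_ne_zero_of_ne_bot fun h0 => ?_
    rw [← pd_cc] at hq
    unfold pd at hq
    rw [h0, finrank_bot] at hq
    exact lt_irrefl _ hq
  have hDx : DZ Z *ᵥ x = x := by
    have h1 := hx1
    rw [SetLike.mem_coe, mem_eig, one_smul] at h1
    exact h1
  have hDz : DZ Z *ᵥ z = z := by
    have h1 := hz1
    rw [SetLike.mem_coe, mem_eig, one_smul] at h1
    exact h1
  have hxφ : qm φ *ᵥ x = α • x := (hm x).1 hxU
  have hzφ : qm φ *ᵥ z = (-α) • z := (hm' z).1 hzU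
  have hzx : om g z x = 0 := by
    have h1 := h.om_sp (DZ_mem (Z := Z)) z x
    rw [hDx, hDz] at h1
    have h2 : (2 : ℂ) * om g z x = 0 := by linear_combination h1
    exact (mul_eq_zero.1 h2).resolve_left two_ne_zero
  have hxz : om g x z = 0 := by rw [om_anti, hzx, neg_zero]
  obtain ⟨T, hTe⟩ : ∃ T : Matrix (Fin g ⊕ Fin g) (Fin g ⊕ Fin g) ℂ,
    T = vecMulVec x z + vecMulVec z x := ⟨_, rfl⟩
  obtain ⟨S, hSe⟩ : ∃ S : Matrix (Fin g ⊕ Fin g) (Fin g ⊕ Fin g) ℂ, S = T * Om g ℂ := ⟨_, rfl⟩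
  have hTt : Tᵀ = T := by
    rw [hTe, transpose_add, transpose_vecMulVec, transpose_vecMulVec, add_comm]
  have hS : ∀ w, S *ᵥ w = om g z w • x + om g x w • z := by
    intro w
    rw [hSe, ← mulVec_mulVec, hTe, add_mulVec, vecMulVec_mulVec, vecMulVec_mulVec, om_apply,
      om_apply]
    funext i
    simp only [Pi.add_apply, Pi.smul_apply, smul_eq_mul, MulOpposite.smul_eq_mul_unop,
      MulOpposite.unop_op]
    ring
  have hS1 : Sᵀ * Om g ℂ + Om g ℂ * S = 0 := by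
    rw [hSe, transpose_mul, hTt, Om_transpose]
    noncomm_ring
  have hS2 : S * qm φ = qm φ * S := by
    apply eq_of_mulVec
    intro w
    rw [← mulVec_mulVec, ← mulVec_mulVec, hS, hS]
    obtain ⟨u, v, hu, hv, rfl⟩ : ∃ u v, u ∈ U ∧ v ∈ cjS cc U ∧ w = u + v := by
      refine ⟨pj φ α w, pj φ (-α) w, (hm _).2 (k.pj_eig hα w), (hm' _).2 (k.pj_eig hα' w), ?_⟩
      exact (pj_add k hα0 w).symm
    rw [mulVec_add, (hm u).1 hu, (hm' v).1 hv]
    simp only [map_add, map_smul, smul_eq_mul, hiso x hxU u hu, hiso' z hzU v hv, mulVec_add,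
      mulVec_smul, hxφ, hzφ, mul_zero, add_zero, zero_add]
    module
  have htr : ∀ a b : Fin g ⊕ Fin g → ℂ, trace (vecMulVec a b * Om g ℂ) = om g b a := by
    intro a b
    rw [vecMulVec_mul, trace_vecMulVec, om_apply, dotProduct_comm, ← dotProduct_mulVec]
  have hS3 : trace S = 0 := by
    rw [hSe, hTe, add_mul, trace_add, htr, htr, hzx, hxz, add_zero]
  have hS4 : trace (qm φ * S) = 0 := by
    rw [hSe, hTe, ← mul_assoc, mul_add, mul_vecMulVec, mul_vecMulVec, hxφ, hzφ, smul_vecMulVec,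
      smul_vecMulVec, add_mul, trace_add, smul_mul, smul_mul, trace_smul, trace_smul, htr, htr,
      hzx, hxz, smul_zero, smul_zero, add_zero]
  have hSL := HL S hS1 hS2 hS3 hS4
  refine ⟨DZ Z, Or.inl rfl, S, hSL, ?_, ?_, ?_⟩
  · apply eq_of_mulVec
    intro w
    rw [← mulVec_mulVec, hS, mulVec_add, mulVec_smul, mulVec_smul, hDx, hDz]
  · apply eq_of_mulVec
    intro w
    rw [← mulVec_mulVec, hS, neg_mulVec, hS]
    have h1 := h.om_sp (DZ_mem (Z := Z)) z w
    have h2 := h.om_sp (DZ_mem (Z := Z)) x w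
    rw [hDz] at h1
    rw [hDx] at h2
    rw [show om g z (DZ Z *ᵥ w) = -om g z w by linear_combination h1,
      show om g x (DZ Z *ᵥ w) = -om g x w by linear_combination h2]
    module
  · obtain ⟨w, hw⟩ : ∃ w, om g z w ≠ 0 := by
      by_contra hcon
      push Not at hcon
      exact hz0 (om_nd z hcon)
    have hw' : om g z (pj φ α w) ≠ 0 := by
      intro h0
      apply hw
      rw [← pj_add k hα0 w, map_add, h0, zero_add]
      exact hiso' z hzU _ ((hm' _).2 (k.pj_eig hα' w))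
    have hu : pj φ α w ∈ U := (hm _).2 (k.pj_eig hα w)
    refine finrank_eq_one_iff'.2 ⟨⟨S *ᵥ pj φ α w, ⟨_, hu, rfl⟩⟩, fun h0 => ?_, ?_⟩
    · have h1 : S *ᵥ pj φ α w = 0 := congrArg Subtype.val h0
      rw [hS, hiso x hxU _ hu, zero_smul, add_zero] at h1
      exact (smul_ne_zero hw' hx0) h1
    · rintro ⟨_, v, hv, rfl⟩
      refine ⟨om g z v * (om g z (pj φ α w))⁻¹, Subtype.ext ?_⟩
      change (om g z v * (om g z (pj φ α w))⁻¹) • (S *ᵥ pj φ α w) = S *ᵥ v
      rw [hS, hS, hiso x hxU _ hu, hiso x hxU _ hv, zero_smul, add_zero, add_zero, smul_smul,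
        mul_assoc, inv_mul_cancel₀ hw', mul_one]

end qf

end

end Pool.Agent.R915
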