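import Mathlib
import Pool.Agent.R915.V4

/-!
# Weil classes on extensions by elliptic curves
-/

set_option linter.unusedSectionVars false

namespace Pool.Agent.R915

open Matrix Module Pool.Agent.W437.HC Pool.Agent.W437.HD Pool.Agent.TH504.CB Pool.Agent.Y90
open Pool.Agent.W548.Odd hiding cv
open Pool.Agent.H204R3.CM (IsHodge)
open Pool.Agent.W437.HP (cK cK_mul cK_one)

/-- `X` is isogenous to the product of `Y` and of elliptic curves with complex multiplication by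
`ℚ(√-d)`; the number of these elliptic curves is the difference of the two multiplicities of
`h = √-d` on the tangent space of `Y`. -/
def WeilExt (Y : AV) (d : ℚ) (h : Y.H →ₗ[ℚ] Y.H) (X : AV) : Prop :=
  ∃ (P : AV) (i : Y.H →ₗ[ℚ] X.H) (j : P.H →ₗ[ℚ] X.H), IsHom Y X i ∧ IsHom P X j ∧
    (Function.Bijective fun w : Y.H × P.H => i w.1 + j w.2) ∧
    (∀ E, IsFactor E P → finrank ℚ E.H = 2 ∧ Unbalanced E d) ∧
    ∃ (Ψ : Y.T →ₗ[ℂ] Y.T) (s : ℂ), (∀ v, Ψ (Y.per v) = Y.per (h v)) ∧ s * s = -(d : ℂ) ∧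
      finrank ℂ P.T + finrank ℂ (LinearMap.ker (Ψ + s • LinearMap.id)) =
        finrank ℂ (LinearMap.ker (Ψ - s • LinearMap.id))

noncomputable section

section ext

variable {G n : ℕ} {Z : Matrix (Fin G) (Fin G) ℂ} (h : PM Z) {d : ℚ} (hd : 0 < d)

/-- The coordinates of the elliptic curves. -/
def coE (G : ℕ) {n : ℕ} (j : Fin n) : ((Fin G ⊕ Fin G) ⊕ (Fin n ⊕ Fin n) → ℚ) →ₗ[ℚ] (Fin 1 ⊕ Fin 1 → ℚ) :=
  Matrix.toLin' (rowE G n 1 (fun _ => 1) (fun _ => j) 0)

theorem coE_l (j : Fin n) (w : (Fin G ⊕ Fin G) ⊕ (Fin n ⊕ Fin n) → ℚ) (i : Fin 1) :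
    coE G j w (Sum.inl i) = w (Sum.inr (Sum.inl j)) := by
  unfold coE
  rw [Matrix.toLin'_apply]
  change (Sum.elim (fun i => if i = 0 then Pi.single (Sum.inr (Sum.inl j)) 1 else 0)
    (fun i => if i = 0 then Pi.single (Sum.inr (Sum.inr j)) (1 : ℚ)⁻¹ else 0)
      (Sum.inl i : Fin 1 ⊕ Fin 1) : (Fin G ⊕ Fin G) ⊕ (Fin n ⊕ Fin n) → ℚ) ⬝ᵥ w = _
  rw [Sum.elim_inl, if_pos (Subsingleton.elim _ _), single_dotProduct, one_mul]

theorem coE_r (j : Fin n) (w : (Fin G ⊕ Fin G) ⊕ (Fin n ⊕ Fin n) → ℚ) (i : Fin 1) :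
    coE G j w (Sum.inr i) = w (Sum.inr (Sum.inr j)) := by
  unfold coE
  rw [Matrix.toLin'_apply]
  change (Sum.elim (fun i => if i = 0 then Pi.single (Sum.inr (Sum.inl j)) 1 else 0)
    (fun i => if i = 0 then Pi.single (Sum.inr (Sum.inr j)) (1 : ℚ)⁻¹ else 0)
      (Sum.inr i : Fin 1 ⊕ Fin 1) : (Fin G ⊕ Fin G) ⊕ (Fin n ⊕ Fin n) → ℚ) ⬝ᵥ w = _
  rw [Sum.elim_inr, if_pos (Subsingleton.elim _ _), single_dotProduct, inv_one, one_mul]

theorem coE_hom (j : Fin n) :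
    IsHom (AVP h (pmE (M := n) (fun _ => hd) (l := fun _ => 1) (fun _ => one_pos)))
      (AVZ (pmE (M := 1) (fun _ => hd) (l := fun _ => 1) (fun _ => one_pos))) (coE G j) := by
  obtain ⟨Ψ, hΨ⟩ := (h.cht.prod (pmE (M := n) (fun _ => hd) (l := fun _ => 1)
    (fun _ => one_pos)).cht).hom (pmE (M := 1) (fun _ => hd) (l := fun _ => 1)
      (fun _ => one_pos)).cht (R := rowE G n 1 (fun _ => 1) (fun _ => j) 0) (by
      rw [DJ_prod, DJ_JR]
      exact rowE_comm1 hd (fun _ => hd) (fun _ => one_pos) (fun _ => rfl) 0)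
  exact ⟨Ψ, fun v => by unfold coE; rw [toLin'_apply]; exact hΨ v⟩

/-- The first projection. -/
def prP (G n : ℕ) : ((Fin G ⊕ Fin G) ⊕ (Fin n ⊕ Fin n) → ℚ) →ₗ[ℚ] (Fin G ⊕ Fin G → ℚ) :=
  LinearMap.funLeft ℚ ℚ Sum.inl

theorem prP_hom {Z' : Matrix (Fin n) (Fin n) ℂ} (h' : PM Z') :
    IsHom (AVP h h') (AVZ h) (prP G n) := by
  refine ⟨LinearMap.fst ℂ _ _, fun v => ?_⟩
  change (perP (perOne Z) (perOne Z') v).1 = perOne Z (prP G n v)
  rw [perP_apply]
  rfl

/-- The simple factors of the extension by elliptic curves. -/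
theorem factor_ext (hs : IsSimple (AVZ h)) {Y : AV} (hY : IsSimple Y)
    (f : Y.H →ₗ[ℚ] ((Fin G ⊕ Fin G) ⊕ (Fin n ⊕ Fin n) → ℚ))
    (hf : IsHom Y (AVP h (pmE (M := n) (fun _ => hd) (l := fun _ => 1) (fun _ => one_pos))) f)
    (hf0 : f ≠ 0) :
    ((prP G n).comp f ≠ 0 ∧ ∃ e : Y.H ≃ₗ[ℚ] (AVZ h).H, IsHom Y (AVZ h) e.toLinearMap ∧
      IsHom (AVZ h) Y e.symm.toLinearMap) ∨ (0 < n ∧ finrank ℚ Y.H = 2 ∧ Unbalanced Y d) := by
  by_cases h1 : (prP G n).comp f = 0
  · right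
    obtain ⟨j, hj⟩ : ∃ j : Fin n, (coE G j).comp f ≠ 0 := by
      by_contra hcon
      push Not at hcon
      apply hf0
      refine LinearMap.ext fun y => ?_
      funext x
      rcases x with x | x | x
      · exact congrFun (congrArg (fun φ => φ y) h1) x
      · have h2 := congrFun (congrArg (fun φ => φ y) (hcon x)) (Sum.inl 0)
        change coE G x (f y) (Sum.inl 0) = 0 at h2
        rw [coE_l] at h2
        exact h2
      · have h2 := congrFun (congrArg (fun φ => φ y) (hcon x)) (Sum.inr 0)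
        change coE G x (f y) (Sum.inr 0) = 0 at h2
        rw [coE_r] at h2
        exact h2
    obtain ⟨e, he, hes⟩ := iso_of_simple hY
      (simple_of 1 (pmE (M := 1) (fun _ => hd) (l := fun _ => 1) (fun _ => one_pos))
        (simpleE hd) one_pos) (IsHom.comp' (coE_hom h hd j) hf) hj
    refine ⟨lt_of_le_of_lt (Nat.zero_le _) j.2, ?_, (unbE hd).iso e he⟩
    rw [e.finrank_eq, finrank_AVZ]
  · left
    obtain ⟨e, he⟩ := iso_of_simple hY hs (IsHom.comp' (prP_hom h _) hf) h1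
    exact ⟨h1, e, he⟩

/-- The extension by elliptic curves. -/
theorem ext_of {φ : Matrix (Fin G ⊕ Fin G) (Fin G ⊕ Fin G) ℚ} (hs : IsSimple (AVZ h))
    {U : Submodule ℂ (Fin G ⊕ Fin G → ℂ)} {α : ℂ} (k : KW Z U φ α d)
    (hn : (tr Z U).natAbs = n) :
    WeilExt (AVZ h) d (Matrix.toLin' φ)
      (AVP h (pmE (M := n) (fun _ => hd) (l := fun _ => 1) (fun _ => one_pos))) := by
  refine ⟨AVZ (pmE (M := n) (fun _ => hd) (l := fun _ => 1) (fun _ => one_pos)), inP G n,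
    inQ G n, inP_hom h _, inQ_hom h _, inPQ_bij, fun E hE => ?_, ?_⟩
  · obtain ⟨hEs, i, hi, hinj⟩ := hE
    have h0 : (inQ G n).comp i ≠ 0 := by
      obtain ⟨y, hy⟩ := hEs.1
      intro h0
      apply hy
      apply hinj
      rw [map_zero]
      funext x
      have h1 := congrFun (congrArg (fun φ => φ y) h0) (Sum.inr x)
      exact h1
    rcases factor_ext h hd hs hEs ((inQ G n).comp i) (IsHom.comp' (inQ_hom h _) hi) h0 with
      ⟨h1, -⟩ | ⟨-, h1⟩
    · exact absurd (LinearMap.ext fun _ => rfl) h1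
    · exact h1
  · have hc : qm φ * DZ Z = DZ Z * qm φ := (k.comm _ DZ_mem).symm
    obtain ⟨Ψ, hΨ⟩ := h.cht.hom h.cht (R := φ) (by rw [DJ_JR]; exact hc)
    have hT : finrank ℂ (AVZ (pmE (M := n) (fun _ => hd) (l := fun _ => 1)
        (fun _ => one_pos))).T = n := by
      change finrank ℂ (Fin n → ℂ) = n
      rw [finrank_fintype_fun_eq_card, Fintype.card_fin]
    have hΨ' : ∀ v, Ψ ((AVZ h).per v) = (AVZ h).per (Matrix.toLin' φ v) := by
      intro v
      rw [toLin'_apply]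
      exact hΨ v
    have h1 := pd_sig h hc hΨ α k.mem
    have h2 : ∀ v, v ∈ cjS cc U ↔ qm φ *ᵥ v = (-α) • v := by
      intro v
      rw [k.cj, k.cc_al]
    have h3 := pd_sig h hc hΨ (-α) h2
    have h4 : Ψ - (-α) • LinearMap.id = Ψ + α • LinearMap.id := by
      refine LinearMap.ext fun v => ?_
      simp only [LinearMap.sub_apply, LinearMap.add_apply, LinearMap.smul_apply]
      module
    have h5 : Ψ + (-α) • LinearMap.id = Ψ - α • LinearMap.id := by
      refine LinearMap.ext fun v => ?_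
      simp only [LinearMap.sub_apply, LinearMap.add_apply, LinearMap.smul_apply]
      module
    rw [pd_cc] at h3
    unfold tr at hn
    rcases le_total (qd Z U) (pd Z U) with h6 | h6
    · refine ⟨Ψ, α, hΨ', k.al, ?_⟩
      rw [hT]
      rw [h4] at h3
      have h7 : n + qd Z U = pd Z U := by omega
      rw [h1, h3] at h7
      exact h7
    · refine ⟨Ψ, -α, hΨ', by rw [neg_mul_neg]; exact k.al, ?_⟩
      rw [hT, h5]
      have h7 : n + pd Z U = qd Z U := by omega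
      rw [h1, h3] at h7
      exact h7

end ext

end

end Pool.Agent.R915
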