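import Mathlib
import Pool.Agent.R915.V5

/-!
# The reduction to complex multiplication and Weil classes, for families of simple abelian varieties
-/

set_option linter.unusedSectionVars false

namespace Pool.Agent.R915

open Matrix Module Pool.Agent.W437.HC Pool.Agent.W437.HD Pool.Agent.TH504.CB Pool.Agent.Y90
open Pool.Agent.W548.Odd hiding cv
open Pool.Agent.H204R3.CM (IsHodge)
open Pool.Agent.W437.HP (cK cK_mul cK_one)

noncomputable section

section Z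

variable {g : ℕ} {Z : Matrix (Fin g) (Fin g) ℂ} (h : PM Z)

/-- Descent for the Lie algebra. -/
theorem HL_of_ratU {φ : Matrix (Fin g ⊕ Fin g) (Fin g ⊕ Fin g) ℚ}
    (HQ : ∀ S : Matrix (Fin g ⊕ Fin g) (Fin g ⊕ Fin g) ℚ, Sᵀ * Om g ℚ + Om g ℚ * S = 0 →
      S * φ = φ * S → trace S = 0 → trace (φ * S) = 0 → qm S ∈ LZ Z)
    (S : Matrix (Fin g ⊕ Fin g) (Fin g ⊕ Fin g) ℂ) (hS : Sᵀ * Om g ℂ + Om g ℂ * S = 0)
    (hS' : S * qm φ = qm φ * S) (ht : trace S = 0) (ht' : trace (qm φ * S) = 0) : S ∈ LZ Z := by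
  let W : Submodule ℚ ℂ := Submodule.span ℚ (Set.range fun p : (Fin g ⊕ Fin g) × (Fin g ⊕ Fin g) =>
    S p.1 p.2)
  have : FiniteDimensional ℚ W := FiniteDimensional.span_of_finite ℚ (Set.finite_range _)
  obtain ⟨m, c, l, hl⟩ := exists_coord W
  have h1 : S = ∑ j, c j • qm (S.map (l j)) := by
    ext i k
    rw [Matrix.sum_apply]
    exact hl _ (Submodule.subset_span ⟨(i, k), rfl⟩)
  have htr : ∀ (j : Fin m) (X : Matrix (Fin g ⊕ Fin g) (Fin g ⊕ Fin g) ℂ),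
      trace (X.map (l j)) = l j (trace X) := by
    intro j X
    unfold trace
    rw [map_sum]
    rfl
  rw [h1]
  refine Submodule.sum_mem _ fun j _ => Submodule.smul_mem _ _ (HQ _ ?_ ?_ ?_ ?_)
  · have h2 := congrArg (fun X : Matrix (Fin g ⊕ Fin g) (Fin g ⊕ Fin g) ℂ => X.map (l j)) hS
    beta_reduce at h2
    rw [Matrix.map_add _ (map_add (l j)), ← Om_map, lmul_right, lmul_left, Matrix.map_zero _
      (map_zero (l j)), transpose_map] at h2
    exact h2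
  · have h2 := congrArg (fun X : Matrix (Fin g ⊕ Fin g) (Fin g ⊕ Fin g) ℂ => X.map (l j)) hS'
    beta_reduce at h2
    rw [lmul_right, lmul_left] at h2
    exact h2
  · rw [htr, ht, map_zero]
  · have h2 : φ * S.map (l j) = (qm φ * S).map (l j) := (lmul_left (l j) φ S).symm
    rw [h2, htr, ht', map_zero]

/-- Elements of rank one if the Hodge group contains the special unitary group. -/
theorem FullUnitary.HL {d : ℚ} {f : (AVZ h).H →ₗ[ℚ] (AVZ h).H} (q : QF Z (LinearMap.toMatrix' f) d)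
    (k : FullUnitary (AVZ h) f) (S : Matrix (Fin g ⊕ Fin g) (Fin g ⊕ Fin g) ℂ)
    (hS : Sᵀ * Om g ℂ + Om g ℂ * S = 0)
    (hS' : S * qm (LinearMap.toMatrix' f) = qm (LinearMap.toMatrix' f) * S)
    (ht : trace S = 0) (ht' : trace (qm (LinearMap.toMatrix' f) * S) = 0) : S ∈ LZ Z := by
  refine HL_of_ratU (φ := LinearMap.toMatrix' f) (fun S hS hSφ ht ht' => ?_) S hS hS' ht ht'
  have hS' : ∀ R : Matrix (Fin g ⊕ Fin g) (Fin g ⊕ Fin g) ℚ, qm R * DZ Z = DZ Z * qm R →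
      S * R = R * S := by
    intro R hR
    obtain ⟨a, b, rfl⟩ := q.max R hR
    rw [mul_add, add_mul, mul_smul_comm, smul_mul_assoc, mul_smul_comm, smul_mul_assoc, hSφ,
      mul_one, one_mul]
  have key := k (rLie Z) (hodgeLie_rLie h) (Matrix.toLin' S) ?_ ?_ ?_ ?_
  · have h1 : qm (LinearMap.toMatrix' (Matrix.toLin' S)) ∈ LZ Z := key
    rwa [LinearMap.toMatrix'_toLin'] at h1
  · have h2 := congrArg Matrix.toLin' hSφ
    rw [Matrix.toLin'_mul, Matrix.toLin'_mul, Matrix.toLin'_toMatrix'] at h2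
    exact h2
  · exact (Matrix.trace_toLin'_eq S).trans ht
  · have h2 : (f : Module.End ℚ (Fin g ⊕ Fin g → ℚ)) * Matrix.toLin' S =
        Matrix.toLin' (LinearMap.toMatrix' f * S) := by
      rw [Matrix.toLin'_mul, Matrix.toLin'_toMatrix']
      rfl
    change LinearMap.trace ℚ (Fin g ⊕ Fin g → ℚ)
      ((f : Module.End ℚ (Fin g ⊕ Fin g → ℚ)) * Matrix.toLin' S) = 0
    rw [h2]
    exact (Matrix.trace_toLin'_eq _).trans ht'
  · intro E hE u v
    obtain ⟨A, hA1, hA2⟩ := two_form (g := g) E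
    have h1 := two_form_hodge h hE hA2
    have hsp := h.sp (DZ_mem (Z := Z))
    have hOQ : Om g ℚ * Om g ℚ = -1 := Om_sq ℚ
    -- the endomorphism attached to the form
    have h2 : qm (Om g ℚ * A) * DZ Z = DZ Z * qm (Om g ℚ * A) := by
      have h3 : (DZ Z)ᵀ = Om g ℂ * DZ Z * Om g ℂ := by
        have h4 : (DZ Z)ᵀ * Om g ℂ = -(Om g ℂ * DZ Z) := eq_neg_of_add_eq_zero_left hsp
        have h5 : (DZ Z)ᵀ * Om g ℂ * Om g ℂ = -(Om g ℂ * DZ Z) * Om g ℂ := by rw [h4]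
        rw [mul_assoc, Om_sq, mul_neg_one, neg_mul] at h5
        exact neg_injective h5
      have h6 : qm (Om g ℚ * A) = Om g ℂ * qm A := by
        rw [qm_mul]
        congr 1
        exact Om_map ℂ
      have h7 : qm A * DZ Z = -(Om g ℂ * DZ Z * Om g ℂ * qm A) := by
        rw [h3] at h1
        exact eq_neg_of_add_eq_zero_right h1
      rw [h6, mul_assoc, h7]
      have h8 : Om g ℂ * -(Om g ℂ * DZ Z * Om g ℂ * qm A) =
          -(Om g ℂ * Om g ℂ) * DZ Z * Om g ℂ * qm A := by noncomm_ring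
      rw [h8, Om_sq, neg_neg, one_mul, mul_assoc]
    have h3 := hS' _ h2
    have h4 : Sᵀ = Om g ℚ * S * Om g ℚ := by
      have h4 : Sᵀ * Om g ℚ = -(Om g ℚ * S) := eq_neg_of_add_eq_zero_left hS
      have h5 : Sᵀ * Om g ℚ * Om g ℚ = -(Om g ℚ * S) * Om g ℚ := by rw [h4]
      rw [mul_assoc, hOQ, mul_neg_one, neg_mul] at h5
      exact neg_injective h5
    have h5 : Sᵀ * A + A * S = 0 := by
      have h6 : Om g ℚ * S * Om g ℚ * A = Om g ℚ * (S * (Om g ℚ * A)) := by noncomm_ring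
      have h7 : Om g ℚ * (Om g ℚ * A * S) = Om g ℚ * Om g ℚ * (A * S) := by noncomm_ring
      rw [h4, h6, h3, h7, hOQ, neg_one_mul, neg_add_cancel]
    have h6 : ∀ w, (Matrix.toLin' S : Module.End ℚ (Fin g ⊕ Fin g → ℚ)) w = S *ᵥ w :=
      fun w => Matrix.toLin'_apply S w
    change E ![Matrix.toLin' S u, v] + E ![u, Matrix.toLin' S v] = 0
    rw [hA1, hA1, h6, h6]
    have h7 : (S *ᵥ u) ⬝ᵥ (A *ᵥ v) = u ⬝ᵥ ((Sᵀ * A) *ᵥ v) := by
      rw [← mulVec_mulVec, dotProduct_mulVec u, vecMul_transpose]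
    rw [h7, mulVec_mulVec, ← dotProduct_add, ← add_mulVec, h5, zero_mulVec, dotProduct_zero]

/-- The local conditions for imaginary quadratic multiplication, if the Weil classes on the extension
by elliptic curves belong to the system. -/
theorem QuadFull.lcy (𝒜 : Sys) {d : ℚ} {f : (AVZ h).H →ₗ[ℚ] (AVZ h).H} (k : QuadFull (AVZ h) d f)
    (hW : ∀ (U : Submodule ℂ (Fin g ⊕ Fin g → ℂ)) (α : ℂ),
      KW Z U (LinearMap.toMatrix' f) α d → ∀ hd : 0 < d,
        𝒜.AllWeil (AVP h (pmE (M := (tr Z U).natAbs) (fun _ => hd) (l := fun _ => 1)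
          (fun _ => one_pos))))
    {U : Submodule ℂ (Fin g ⊕ Fin g → ℂ)} (hU : IrS (LZ Z) U) : LCY 𝒜 h U := by
  obtain ⟨k, k2⟩ := k
  have q := k.qf h
  obtain ⟨α, hα, hm⟩ := q.exists_root h hU
  have hdim := q.dim h hα hm hU.1
  have hkw := q.kw h hα hm hU.1
  have hns : 2 ≤ finrank ℂ U → ∀ (σ : ℂ ≃+* ℂ) (c : ℂ), ∃ u ∈ U, DS Z σ *ᵥ u ≠ c • u := fun h2 =>
    q.nonscalar h hα hm hU h2
  refine ⟨fun h2 => ?_, hns, Or.inr ⟨LinearMap.toMatrix' f, α, d, hkw, hW U α hkw⟩⟩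
  have hp := pd_pos h hU.2.1 (hns h2 (RingEquiv.refl ℂ))
  have hq := qd_pos h hU.2.1 (hns h2 (RingEquiv.refl ℂ))
  rcases k2 with ⟨m, n, k2, k3⟩ | k2
  · obtain ⟨Ψ, hΨ, k2⟩ := k2.all k3
    have hΨ' : ∀ v, Ψ (perOne Z v) = perOne Z (LinearMap.toMatrix' f *ᵥ v) := by
      intro v
      have h2 := hΨ v
      have h3 : LinearMap.toMatrix' f *ᵥ v = f v := by
        rw [← Matrix.toLin'_apply, Matrix.toLin'_toMatrix']
      rw [h3]
      exact h2
    have h1 := pd_sig h q.comm hΨ' α hm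
    have h3 := pd_sig h q.comm hΨ' (-α) (U := cjS cc U) (fun v => by
      rw [q.cj_mem hα hm, q.cc_root hα])
    rw [pd_cc] at h3
    have h4 : Ψ - (-α) • LinearMap.id = Ψ + α • LinearMap.id := by
      refine LinearMap.ext fun v => ?_
      simp only [LinearMap.sub_apply, LinearMap.add_apply, LinearMap.smul_apply]
      module
    rw [h4] at h3
    have h5 := k2 α hα
    rw [show finrank ℂ (LinearMap.ker (Ψ - α • LinearMap.id)) = pd Z U from h1.symm,
      show finrank ℂ (LinearMap.ker (Ψ + α • LinearMap.id)) = qd Z U from h3.symm] at h5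
    rcases h5 with h5 | ⟨h5, h6⟩
    · exact coprime_rk1 h hU hp hq h5
    · by_cases h33 : pd Z U = 3 ∧ qd Z U = 3
      · exact q.rk33 h hα hU hm h33.1 h33.2
      by_cases h22 : pd Z U = 2 ∧ qd Z U = 2
      · exact q.rk22 h hα hU hm h22.1 h22.2
      refine coprime_rk1 h hU hp hq ?_
      have : (pd Z U = 1) ∨ (qd Z U = 1) ∨ (pd Z U = 2 ∧ qd Z U = 3) ∨
        (pd Z U = 3 ∧ qd Z U = 2) := by omega
      rcases this with h6 | h6 | ⟨h6, h7⟩ | ⟨h6, h7⟩
      · rw [h6]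
        exact Nat.coprime_one_left _
      · rw [h6]
        exact Nat.coprime_one_right _
      · rw [h6, h7]
        decide
      · rw [h6, h7]
        decide
  · exact q.rk_full h hα hU hm hp hq fun S h1 h2 h3 h4 => k2.HL h q S h1 h2 h3 h4

end Z

/-- The reduction to complex multiplication and to Weil classes, for families of simple abelian
varieties. -/
theorem weil_equiv (𝒜 : Sys) (𝒮 : AV → Prop)
    (hS : ∀ Y, IsSimple Y → 𝒮 Y → finrank ℚ Y.H ≤ 6 ∨ HasCMult Y ∨ RealMult Y ∨ FiveDim Y ∨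
      FullHodge Y ∨ ∃ d h, QuadFull Y d h)
    (hE : ∀ (Y E : AV) (d : ℚ), IsSimple Y → 𝒮 Y → ¬ HasCMult Y → Unbalanced Y d →
      finrank ℚ E.H = 2 → Unbalanced E d → 𝒮 E) :
    (∀ X : AV, (∀ Y, IsFactor Y X → 𝒮 Y) → 𝒜.AllHodge X) ↔
      (∀ X : AV, (∀ Y, IsFactor Y X → 𝒮 Y ∧ HasCMult Y) → 𝒜.AllHodge X) ∧
      ∀ (Y X : AV) (d : ℚ) (h : Y.H →ₗ[ℚ] Y.H), IsSimple Y → 𝒮 Y → QuadFull Y d h →
        ¬ QuadMult Y → WeilExt Y d h X → (∀ Y', IsFactor Y' X → 𝒮 Y') → 𝒜.AllWeil X := by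
  refine ⟨fun H => ⟨fun X hX => H X fun Y hY => (hX Y hY).1, fun _ X _ _ _ _ _ _ _ hX n f hf =>
    H X hX _ f hf.2.1⟩, fun ⟨H1, H2⟩ X hX => ?_⟩
  refine main_weil 𝒜 X (fun a Z' h' i hi hinj hsim ha => ?_) fun Q _ _ a Z' h' hc => ?_
  · by_cases hcm : HasCMult (AVZ h')
    · exact Or.inr hcm
    refine Or.inl ⟨hcm, fun U hU => ?_⟩
    have hSY := hX _ ⟨hsim, i, hi, hinj⟩
    rcases hS (AVZ h') hsim hSY with k | k | k | k | k | ⟨d, f, k⟩
    · exact (SmallDim.lc h' hsim ha ⟨k, fun h1 => absurd h1 hcm⟩ hU).lcy 𝒜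
    · exact absurd k hcm
    · exact (k.lc h' hsim ha hU).lcy 𝒜
    · exact (k.lc h' hsim ha hU).lcy 𝒜
    · exact (k.lc h' hsim ha hU).lcy 𝒜
    · by_cases hq : QuadMult (AVZ h')
      · exact (hq.lc h' hU).lcy 𝒜
      refine k.lcy h' 𝒜 (fun W α hkw hd => ?_) hU
      have hext := ext_of h' hd hsim hkw rfl
      rw [Matrix.toLin'_toMatrix'] at hext
      refine H2 (AVZ h') _ d f hsim hSY k hq hext fun Y' hY' => ?_
      obtain ⟨hYs, j, hj, hjinj⟩ := hY'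
      have hj0 : j ≠ 0 := by
        obtain ⟨y, hy⟩ := hYs.1
        intro h0
        apply hy
        apply hjinj
        rw [h0, LinearMap.zero_apply, LinearMap.zero_apply]
      rcases factor_ext h' hd hsim hYs j hj hj0 with ⟨-, e, he, -⟩ | ⟨hn, h5, h6⟩
      · exact hX Y' ⟨hYs, i.comp e.toLinearMap, IsHom.comp' hi he, hinj.comp e.injective⟩
      · exact hE (AVZ h') Y' d hsim hSY hcm (hkw.unbalanced h' (by omega)) h5 h6
  · refine H1 _ fun Y hY => ?_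
    obtain ⟨q, e, he, hes⟩ := factor_prod h' (fun q => (hc q).1) hY
    obtain ⟨h1, h2, h3⟩ := hc q
    refine ⟨?_, h2.iso e he hes⟩
    rcases h3 with ⟨-, i, hi, hinj⟩ | ⟨h4, d, h5, Y', hY', hn, h6⟩
    · exact hX Y ⟨hY.1, i.comp e.toLinearMap, IsHom.comp' hi he, hinj.comp e.injective⟩
    · exact hE Y' Y d hY'.1 (hX Y' hY') hn h6 (by rw [e.finrank_eq, h4]) (h5.iso e he)

end

end Pool.Agent.R915
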