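import Mathlib
import Pool.Agent.R915.U3
import Pool.Agent.R915.V6
import Pool.Agent.W547.KB.Main
import Pool.Agent.W547.KB.Final
import Pool.Agent.W547.LD.Approx
import Pool.Agent.H204R3.CM.Pair

/-!
# Hodge classes on abelian varieties of CM type and classes of degree four
-/

set_option linter.unusedSectionVars false

namespace Pool.Agent.R915

open Matrix Module Pool.Agent.Y90 NumberField Pool.Agent.W437.HC
open Pool.Agent.TH504.CB (isHodge_comp)
open Pool.Agent.H204R3.CM (IsHodge IsCMType)
open Pool.Agent.W547.KB (CMPair CMAV)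

noncomputable section

/-- Compatible Riemann forms exist. -/
theorem exists_polarC (X : CMAV) : ∃ α : X.H1, ∀ i, ∀ φ ∈ (X.factor i).Φ,
    (φ (α i)).re = 0 ∧ 0 < (φ (α i)).im := by
  obtain ⟨x, hx⟩ := Pool.Agent.W547.LD.exists_approx X (fun i φ => Complex.I) (ε := 1 / 2)
    (by norm_num)
  refine ⟨fun i => x i - IsCMField.complexConj (X.factor i).E (x i), fun i φ hφ => ?_⟩
  have h1 := hx i ⟨φ, hφ⟩
  have h2 : X.per x i ⟨φ, hφ⟩ = φ (x i) := rfl
  rw [h2] at h1
  rw [map_sub, IsCMField.complexEmbedding_complexConj]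
  have h3 : |(φ (x i) - Complex.I).im| < 1 / 2 := (Complex.abs_im_le_norm _).trans_lt h1
  rw [Complex.sub_im, Complex.I_im, abs_lt] at h3
  constructor
  · rw [Complex.sub_re, Complex.conj_re, sub_self]
  · rw [Complex.sub_im, Complex.conj_im]
    linarith

/-- Abelian varieties of CM type have polarizations. -/
theorem pol_CM (X : CMAV) : ∃ E, IsPolarization X.per E := by
  classical
  obtain ⟨α, hα⟩ := exists_polarC X
  refine ⟨fun x y => ∑ i, Algebra.trace ℚ (X.factor i).E
    (α i * IsCMField.complexConj (X.factor i).E (x i) * y i),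
    fun u u' => ∑ i, ∑ φ : (X.factor i).Φ,
      ((2 * (φ.1 (α i)).im : ℝ) : ℂ) * (u i φ * starRingEnd ℂ (u' i φ)),
    fun u' => ⟨fun u v => ?_, fun c u => ?_⟩, fun u u' => ?_, fun u hu => ?_,
    fun v w => ?_⟩
  · rw [← Finset.sum_add_distrib]
    refine Finset.sum_congr rfl fun i _ => ?_
    rw [← Finset.sum_add_distrib]
    refine Finset.sum_congr rfl fun φ _ => ?_
    change _ * ((u i φ + v i φ) * _) = _
    ring
  · rw [smul_eq_mul, Finset.mul_sum]
    refine Finset.sum_congr rfl fun i _ => ?_
    rw [Finset.mul_sum]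
    refine Finset.sum_congr rfl fun φ _ => ?_
    change _ * ((c * u i φ) * _) = _
    ring
  · rw [map_sum]
    refine Finset.sum_congr rfl fun i _ => ?_
    rw [map_sum]
    refine Finset.sum_congr rfl fun φ _ => ?_
    rw [map_mul, map_mul, Complex.conj_ofReal, Complex.conj_conj]
    ring
  · have key : ∀ i (φ : (X.factor i).Φ), (((2 * (φ.1 (α i)).im : ℝ) : ℂ) *
        (u i φ * starRingEnd ℂ (u i φ))).re = 2 * (φ.1 (α i)).im * Complex.normSq (u i φ) := by
      intro i φ
      rw [Complex.mul_conj, ← Complex.ofReal_mul, Complex.ofReal_re]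
    have h1 : (∑ i, ∑ φ : (X.factor i).Φ,
        ((2 * (φ.1 (α i)).im : ℝ) : ℂ) * (u i φ * starRingEnd ℂ (u i φ))).re =
          ∑ i, ∑ φ : (X.factor i).Φ, 2 * (φ.1 (α i)).im * Complex.normSq (u i φ) := by
      rw [Complex.re_sum]
      refine Finset.sum_congr rfl fun i _ => ?_
      rw [Complex.re_sum]
      exact Finset.sum_congr rfl fun φ _ => key i φ
    have h2 : ∀ i (φ : (X.factor i).Φ), 0 ≤ 2 * (φ.1 (α i)).im * Complex.normSq (u i φ) :=
      fun i φ => mul_nonneg (mul_nonneg zero_le_two (hα i _ φ.2).2.le) (Complex.normSq_nonneg _)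
    rw [h1]
    obtain ⟨i, hi⟩ := Function.ne_iff.1 hu
    obtain ⟨φ, hφ⟩ := Function.ne_iff.1 hi
    refine Finset.sum_pos' (fun i _ => Finset.sum_nonneg fun φ _ => h2 i φ)
      ⟨i, Finset.mem_univ i, Finset.sum_pos' (fun φ _ => h2 i φ) ⟨φ, Finset.mem_univ φ, ?_⟩⟩
    exact mul_pos (mul_pos two_pos (hα i _ φ.2).2) (Complex.normSq_pos.2 hφ)
  · rw [Complex.im_sum, Rat.cast_sum]
    refine Finset.sum_congr rfl fun i _ => ?_
    rw [Complex.im_sum, Pool.Agent.H204R3.CM.trace_re (X.factor i).isCMType]
    refine Finset.sum_congr rfl fun φ _ => ?_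
    change (((2 * (φ.1 (α i)).im : ℝ) : ℂ) * (φ.1 (v i) * starRingEnd ℂ (φ.1 (w i)))).im = _
    rw [map_mul, map_mul, IsCMField.complexEmbedding_complexConj]
    have h1 := (hα i _ φ.2).1
    simp only [Complex.mul_im, Complex.mul_re, Complex.ofReal_re, Complex.ofReal_im,
      Complex.conj_re, Complex.conj_im, h1]
    ring

/-- Products of CM types as abelian varieties. -/
abbrev avCM (X : CMAV) : AV := avC X (pol_CM X)

/-- The classes generated by divisors and Weil classes of degree four belong to the system. -/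
theorem gen_alg (𝒜 : Sys) {B : CMPair}
    (H4 : ∀ (X : CMAV) (f : X.H1 [⋀^Fin 4]→ₗ[ℚ] ℚ), IsHodge X.per f → 𝒜.A (avCM X) (Fin 4) f)
    {X : CMAV} {κ : Type} {f : X.H1 [⋀^κ]→ₗ[ℚ] ℚ} (hf : Pool.Agent.W547.KB.Gen B X κ f) :
    𝒜.A (avCM X) κ f := by
  induction hf with
  | unit f => exact 𝒜.unit (X := avCM _) f
  | divisor hκ f hf => exact 𝒜.divisor (X := avCM _) hκ f hf
  | weil L ι Φ hΦ ρ h01 h2 α f hf =>
    exact H4 _ f (Pool.Agent.W547.KB.hodge_weil ι Φ hΦ ρ h01 h2 α f hf)
  | zero X κ => exact 𝒜.zero (avCM X) κ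
  | add f g _ _ ihf ihg => exact 𝒜.add (X := avCM _) f g ihf ihg
  | smul a f _ ih => exact 𝒜.smul (X := avCM _) a f ih
  | reindex e f _ ih => exact 𝒜.reindex (X := avCM _) e f ih
  | cup f g _ _ k hk ihf ihg => exact 𝒜.cup (X := avCM _) f g ihf ihg k hk
  | @pull X Y κ h hh f _ ih => exact 𝒜.pull (X := avCM X) (Y := avCM Y) h hh f ih
  | @push X Y κ κ' b f _ g hg ih =>
    let i : X.H1 →ₗ[ℚ] (X.prod Y).H1 :=
      { toFun := fun v => X.pair Y v 0
        map_add' := fun v w => by
          funext s
          rcases s with s | s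
          · rfl
          · exact (add_zero (0 : (Y.factor s).E)).symm
        map_smul' := fun c v => by
          funext s
          rcases s with s | s
          · rfl
          · exact (smul_zero (A := (Y.factor s).E) c).symm }
    let j : Y.H1 →ₗ[ℚ] (X.prod Y).H1 :=
      { toFun := fun v => X.pair Y 0 v
        map_add' := fun v w => by
          funext s
          rcases s with s | s
          · exact (add_zero (0 : (X.factor s).E)).symm
          · rfl
        map_smul' := fun c v => by
          funext s
          rcases s with s | s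
          · exact (smul_zero (A := (X.factor s).E) c).symm
          · rfl }
    have hij : ∀ w : X.H1 × Y.H1, i w.1 + j w.2 = X.pair Y w.1 w.2 := by
      intro w
      funext s
      rcases s with s | s
      · exact add_zero (w.1 s)
      · exact zero_add (w.2 s)
    have hbij : Function.Bijective fun w : X.H1 × Y.H1 => i w.1 + j w.2 := by
      constructor
      · intro w w' hw
        beta_reduce at hw
        rw [hij, hij] at hw
        refine Prod.ext ?_ ?_
        · funext s
          exact congrFun hw (Sum.inl s)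
        · funext s
          exact congrFun hw (Sum.inr s)
      · intro z
        refine ⟨(fun s => z (Sum.inl s), fun s => z (Sum.inr s)), ?_⟩
        beta_reduce
        rw [hij]
        funext s
        rcases s with s | s <;> rfl
    refine 𝒜.push (X := avCM X) (Y := avCM Y) (P := avCM (X.prod Y)) i ?_ j ?_ ?_ b f ih g hg
    · refine ⟨{ toFun := fun u s => Sum.rec (motive := fun s => ((X.prod Y).factor s).Φ → ℂ)
                  (fun i => u i) (fun _ => 0) s
                map_add' := fun v w => by
                  funext s φ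
                  rcases s with s | s
                  · rfl
                  · exact (add_zero (0 : ℂ)).symm
                map_smul' := fun c v => by
                  funext s φ
                  rcases s with s | s
                  · rfl
                  · exact (mul_zero c).symm }, fun v => ?_⟩
      funext s φ
      rcases s with s | s
      · rfl
      · exact (map_zero φ.1).symm
    · refine ⟨{ toFun := fun u s => Sum.rec (motive := fun s => ((X.prod Y).factor s).Φ → ℂ)
                  (fun _ => 0) (fun i => u i) s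
                map_add' := fun v w => by
                  funext s φ
                  rcases s with s | s
                  · exact (add_zero (0 : ℂ)).symm
                  · rfl
                map_smul' := fun c v => by
                  funext s φ
                  rcases s with s | s
                  · exact (mul_zero c).symm
                  · rfl }, fun v => ?_⟩
      funext s φ
      rcases s with s | s
      · exact (map_zero φ.1).symm
      · rfl
    · exact hbij

/-- Hodge classes on products of abelian varieties of CM type. -/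
theorem prod_all (𝒜 : Sys)
    (H4 : ∀ (X : CMAV) (f : X.H1 [⋀^Fin 4]→ₗ[ℚ] ℚ), IsHodge X.per f → 𝒜.A (avCM X) (Fin 4) f)
    {Q : Type} [Fintype Q] [DecidableEq Q] {a : Q → ℕ}
    {Z' : ∀ q, Matrix (Fin (a q)) (Fin (a q)) ℂ} (h' : ∀ q, PM (Z' q))
    (hq : ∀ q, ∃ P : CMPair, IsOfType (AVZ (h' q)) P) : 𝒜.AllHodge (AVQ h') := by
  choose p e Ψ hΨ using hq
  intro κ _ f hf
  rcases isEmpty_or_nonempty κ with hκ | ⟨⟨k0⟩⟩
  · exact 𝒜.unit _
  rcases isEmpty_or_nonempty Q with hQ | ⟨⟨q0⟩⟩
  · have h1 : f = 0 := by
      ext v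
      have h2 : v k0 = 0 := by
        funext y
        exact (hQ.false y.1).elim
      rw [f.map_coord_zero k0 h2]
      rfl
    rw [h1]
    exact 𝒜.zero _ _
  let X : CMAV := ⟨Q, p⟩
  -- the isomorphism of the homology
  let ε : (BQ a → ℚ) ≃ₗ[ℚ] X.H1 :=
    { toFun := fun w q => e q (cQ q w)
      invFun := fun x y => (e y.1).symm (x y.1) y.2
      left_inv := fun w => by
        funext y
        change (e y.1).symm (e y.1 (cQ y.1 w)) y.2 = w y
        rw [LinearEquiv.symm_apply_apply]
        rfl
      right_inv := fun x => by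
        funext q
        change e q (fun i => (e q).symm (x q) i) = x q
        exact (e q).apply_symm_apply (x q)
      map_add' := fun v w => by
        funext q
        exact map_add (e q) (cQ q v) (cQ q w)
      map_smul' := fun c v => by
        funext q
        exact map_smul (e q) c (cQ q v) }
  let Θ : (AVQ h').T ≃ₗ[ℂ] X.Tan := LinearEquiv.piCongrRight Ψ
  have hΘ : ∀ v, Θ ((AVQ h').per v) = X.per (ε v) := by
    intro v
    funext q φ
    exact hΨ q (cQ q v) φ
  have hΘs : ∀ x, Θ.symm (X.per x) = (AVQ h').per (ε.symm x) := by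
    intro x
    rw [LinearEquiv.symm_apply_eq, hΘ, ε.apply_symm_apply]
  have h1 : IsHodge X.per (f.compLinearMap ε.symm.toLinearMap) :=
    isHodge_comp ε.symm.toLinearMap Θ.symm.toLinearMap hΘs hf
  have h2 := Pool.Agent.W547.KB.gen_of_hodge (p q0) X _ h1
  have h3 := 𝒜.pull (X := AVQ h') (Y := avCM X) ε.toLinearMap ⟨Θ.toLinearMap, hΘ⟩ _
    (gen_alg 𝒜 H4 h2)
  have h4 : (f.compLinearMap ε.symm.toLinearMap).compLinearMap ε.toLinearMap = f := by
    ext v
    rw [AlternatingMap.compLinearMap_apply, AlternatingMap.compLinearMap_apply]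
    congr 1
    funext k
    exact ε.symm_apply_apply (v k)
  have h5 : 𝒜.A (AVQ h') κ ((f.compLinearMap ε.symm.toLinearMap).compLinearMap ε.toLinearMap) := h3
  rwa [h4] at h5

/-- All Hodge classes on abelian varieties with complex multiplication belong to the system if the
Hodge classes of degree four do. -/
theorem cm_all (𝒜 : Sys)
    (H4 : ∀ X : AV, (∀ Y, IsFactor Y X → HasCMult Y) → ∀ f : X.H [⋀^Fin 4]→ₗ[ℚ] ℚ,
      IsHodge X.per f → 𝒜.A X (Fin 4) f)
    (X : AV) (hX : ∀ Y, IsFactor Y X → HasCMult Y) : 𝒜.AllHodge X := by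
  refine main_cm 𝒜 X (fun a Z' h' i hi hinj hsim ha => Or.inr (hX _ ⟨hsim, i, hi, hinj⟩))
    fun Q _ _ a Z' h' hc => prod_all 𝒜 (fun C f hf => ?_) h' fun q => ?_
  · exact H4 (avCM C) (fun Y hY => cm_of_factor (pol_CM C) hY) f hf
  · obtain ⟨h1, h2, -⟩ := hc q
    refine exists_pair (h' q) h1 ?_ h2
    obtain ⟨y, hy⟩ := h1.1
    rcases Nat.eq_zero_or_pos (a q) with h0 | h0
    · exfalso
      apply hy
      have hE : IsEmpty (Fin (a q) ⊕ Fin (a q)) := by
        rw [h0]
        infer_instance
      funext x
      exact hE.elim x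
    · exact h0

end

end Pool.Agent.R915
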