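import Mathlib
import Pool.Agent.R915.U4

/-!
# The reduction to codimension two and to Weil classes
-/

set_option linter.unusedSectionVars false

namespace Pool.Agent.R915

open Matrix Module Pool.Agent.Y90 NumberField Pool.Agent.W437.HC
open Pool.Agent.H204R3.CM (IsHodge IsCMType)

noncomputable section

/-- The projections of a product. -/
theorem exists_proj {X Y P : AV} {i : Y.H →ₗ[ℚ] X.H} {j : P.H →ₗ[ℚ] X.H} (hi : IsHom Y X i)
    (hj : IsHom P X j) (hij : Function.Bijective fun w : Y.H × P.H => i w.1 + j w.2) :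
    ∃ (p : X.H →ₗ[ℚ] Y.H) (q : X.H →ₗ[ℚ] P.H), IsHom X Y p ∧ IsHom X P q ∧
      ∀ x, x = i (p x) + j (q x) := by
  obtain ⟨Ψ, hΨ⟩ := hi
  obtain ⟨Θ, hΘ⟩ := hj
  let e : (Y.H × P.H) ≃ₗ[ℚ] X.H := LinearEquiv.ofBijective (i.coprod j) hij
  have he : ∀ w, e w = i w.1 + j w.2 := fun w => rfl
  let T : (Y.T × P.T) →ₗ[ℂ] X.T := Ψ.coprod Θ
  have hT : ∀ w : Y.H × P.H, T (Y.per w.1, P.per w.2) = X.per (e w) := by
    intro w
    change Ψ (Y.per w.1) + Θ (P.per w.2) = _
    rw [hΨ, hΘ, he, map_add]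
  have hsurj : Function.Surjective T := by
    have h1 : Submodule.span ℝ (Set.range X.per) ≤ LinearMap.range (T.restrictScalars ℝ) := by
      refine Submodule.span_le.2 ?_
      rintro _ ⟨w, rfl⟩
      obtain ⟨v, rfl⟩ := e.surjective w
      exact ⟨(Y.per v.1, P.per v.2), hT v⟩
    rw [X.span] at h1
    intro t
    obtain ⟨s, hs⟩ := h1 (Submodule.mem_top (x := t))
    exact ⟨s, hs⟩
  have hdim : finrank ℂ (Y.T × P.T) = finrank ℂ X.T := by
    have h1 := e.finrank_eq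
    rw [Module.finrank_prod, X.rank, Y.rank, P.rank] at h1
    rw [Module.finrank_prod]
    omega
  have hinj : Function.Injective T :=
    (LinearMap.injective_iff_surjective_of_finrank_eq_finrank hdim).2 hsurj
  let E : (Y.T × P.T) ≃ₗ[ℂ] X.T := LinearEquiv.ofBijective T ⟨hinj, hsurj⟩
  have hE : ∀ v, E.symm (X.per v) = (Y.per (e.symm v).1, P.per (e.symm v).2) := by
    intro v
    rw [LinearEquiv.symm_apply_eq]
    change _ = T _
    rw [hT, e.apply_symm_apply]
  refine ⟨(LinearMap.fst ℚ Y.H P.H).comp e.symm.toLinearMap,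
    (LinearMap.snd ℚ Y.H P.H).comp e.symm.toLinearMap,
    ⟨(LinearMap.fst ℂ Y.T P.T).comp E.symm.toLinearMap, fun v => ?_⟩,
    ⟨(LinearMap.snd ℂ Y.T P.T).comp E.symm.toLinearMap, fun v => ?_⟩, fun x => ?_⟩
  · change (E.symm (X.per v)).1 = _
    rw [hE]
    rfl
  · change (E.symm (X.per v)).2 = _
    rw [hE]
    rfl
  · have h1 := he (e.symm x)
    rw [e.apply_symm_apply] at h1
    exact h1

/-- The simple factors of a product with a simple abelian variety. -/
theorem factor_of_prod {X Y P Y' : AV} {i : Y.H →ₗ[ℚ] X.H} {j : P.H →ₗ[ℚ] X.H} (hi : IsHom Y X i)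
    (hj : IsHom P X j) (hij : Function.Bijective fun w : Y.H × P.H => i w.1 + j w.2)
    (hY : IsSimple Y) (hY' : IsFactor Y' X) :
    (∃ e : Y'.H ≃ₗ[ℚ] Y.H, IsHom Y' Y e.toLinearMap ∧ IsHom Y Y' e.symm.toLinearMap) ∨
      IsFactor Y' P := by
  obtain ⟨p, q, hp, hq, hpq⟩ := exists_proj hi hj hij
  obtain ⟨hs, f, hf, hinj⟩ := hY'
  by_cases h0 : p.comp f = 0
  · right
    refine ⟨hs, q.comp f, IsHom.comp' hq hf, ?_⟩
    rw [injective_iff_map_eq_zero]
    intro y hy
    apply hinj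
    rw [map_zero, hpq (f y)]
    have h1 : p (f y) = 0 := congrArg (fun φ => φ y) h0
    have h2 : q (f y) = 0 := hy
    rw [h1, h2, map_zero, map_zero, add_zero]
  · left
    exact iso_of_simple hs hY (IsHom.comp' hp hf) h0

/-- The tangent map of an isomorphism. -/
theorem exists_tan_iso {X Y : AV} (e : X.H ≃ₗ[ℚ] Y.H) (he : IsHom X Y e.toLinearMap) :
    ∃ E : X.T ≃ₗ[ℂ] Y.T, ∀ v, E (X.per v) = Y.per (e v) := by
  obtain ⟨Φ, hΦ⟩ := he
  have h5 : Function.Surjective Φ := tan_surj hΦ e.surjective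
  have h6 : finrank ℂ X.T = finrank ℂ Y.T := by
    have h3 := e.finrank_eq
    rw [X.rank, Y.rank] at h3
    omega
  have h7 : Function.Injective Φ :=
    (LinearMap.injective_iff_surjective_of_finrank_eq_finrank h6).2 h5
  exact ⟨LinearEquiv.ofBijective Φ ⟨h7, h5⟩, fun v => hΦ v⟩

/-- Isogenies preserve the endomorphism algebra. -/
theorem EndQuad.iso {X Y : AV} {d : ℚ} {h : Y.H →ₗ[ℚ] Y.H} (e : X.H ≃ₗ[ℚ] Y.H)
    (he : IsHom X Y e.toLinearMap) (hes : IsHom Y X e.symm.toLinearMap) (k : EndQuad Y d h) :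
    EndQuad X d (e.symm.toLinearMap.comp (h.comp e.toLinearMap)) where
  pos := k.pos
  hom := IsHom.comp' hes (IsHom.comp' k.hom he)
  sq w := by
    change e.symm (h (e (e.symm (h (e w))))) = -(d • w)
    rw [e.apply_symm_apply, k.sq, map_neg, map_smul, e.symm_apply_apply]
  max g hg := by
    obtain ⟨a, b, hab⟩ := k.max (e.toLinearMap.comp (g.comp e.symm.toLinearMap))
      (IsHom.comp' he (IsHom.comp' hg hes))
    refine ⟨a, b, LinearMap.ext fun x => ?_⟩
    have h1 : e (g (e.symm (e x))) = a • e x + b • h (e x) := LinearMap.congr_fun hab (e x)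
    rw [e.symm_apply_apply] at h1
    change g x = a • x + b • e.symm (h (e x))
    apply e.injective
    rw [h1, map_add, map_smul, map_smul, e.apply_symm_apply]

/-- Isogenies preserve the multiplicities. -/
theorem Multiplicities.iso {X Y : AV} {d : ℚ} {h : Y.H →ₗ[ℚ] Y.H} {m n : ℕ} (e : X.H ≃ₗ[ℚ] Y.H)
    (he : IsHom X Y e.toLinearMap) (k : Multiplicities Y d h m n) :
    Multiplicities X d (e.symm.toLinearMap.comp (h.comp e.toLinearMap)) m n := by
  obtain ⟨Ψ, s, h1, h2, h3, h4⟩ := k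
  obtain ⟨E, hE⟩ := exists_tan_iso e he
  have hEs : ∀ w, E.symm (Y.per w) = X.per (e.symm w) := fun w => by
    rw [LinearEquiv.symm_apply_eq, hE, e.apply_symm_apply]
  have key : ∀ t : ℂ, finrank ℂ (LinearMap.ker
      ((E.symm.toLinearMap.comp (Ψ.comp E.toLinearMap)) - t • LinearMap.id)) =
      finrank ℂ (LinearMap.ker (Ψ - t • LinearMap.id)) := by
    intro t
    have h8 : LinearMap.ker ((E.symm.toLinearMap.comp (Ψ.comp E.toLinearMap)) - t • LinearMap.id) =
        (LinearMap.ker (Ψ - t • LinearMap.id)).comap E.toLinearMap := by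
      ext x
      rw [LinearMap.mem_ker, Submodule.mem_comap, LinearMap.mem_ker, LinearMap.sub_apply,
        LinearMap.sub_apply, LinearMap.comp_apply, LinearMap.comp_apply, LinearMap.smul_apply,
        LinearMap.smul_apply, LinearMap.id_apply, LinearMap.id_apply, sub_eq_zero, sub_eq_zero]
      change E.symm (Ψ (E x)) = t • x ↔ Ψ (E x) = t • E x
      rw [LinearEquiv.symm_apply_eq, map_smul]
    rw [h8]
    exact (Submodule.comap_equiv_eq_map_symm E _).symm ▸
      LinearEquiv.finrank_map_eq E.symm (LinearMap.ker (Ψ - t • LinearMap.id))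
  have h9 : ∀ t : ℂ, (E.symm.toLinearMap.comp (Ψ.comp E.toLinearMap)) + t • LinearMap.id =
      (E.symm.toLinearMap.comp (Ψ.comp E.toLinearMap)) - (-t) • LinearMap.id := fun t => by
    rw [neg_smul, sub_neg_eq_add]
  have h10 : ∀ t : ℂ, Ψ + t • LinearMap.id = Ψ - (-t) • LinearMap.id := fun t => by
    rw [neg_smul, sub_neg_eq_add]
  refine ⟨E.symm.toLinearMap.comp (Ψ.comp E.toLinearMap), s, fun v => ?_, h2, ?_, ?_⟩
  · change E.symm (Ψ (E (X.per v))) = X.per (e.symm (h (e v)))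
    rw [hE, h1, hEs]
  · rw [key, h3]
  · rw [h9, key, ← h10, h4]

/-- Isogenies preserve the Hodge group. -/
theorem FullUnitary.iso {X Y : AV} {h : Y.H →ₗ[ℚ] Y.H} (e : X.H ≃ₗ[ℚ] Y.H)
    (he : IsHom X Y e.toLinearMap) (k : FullUnitary Y h) :
    FullUnitary X (e.symm.toLinearMap.comp (h.comp e.toLinearMap)) := by
  intro 𝔤 h𝔤 s hs1 hs2 hs3 hs4
  obtain ⟨E, hE⟩ := exists_tan_iso e he
  let c : Module.End ℚ X.H ≃ₐ[ℚ] Module.End ℚ Y.H := e.conjAlgEquiv ℚ
  have hc : ∀ (a : Module.End ℚ X.H) y, c a y = e (a (e.symm y)) := fun a y => rfl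
  have hch : c (e.symm.toLinearMap.comp (h.comp e.toLinearMap)) = h := by
    refine LinearMap.ext fun y => ?_
    rw [hc]
    change e (e.symm (h (e (e.symm y)))) = h y
    rw [e.apply_symm_apply, e.apply_symm_apply]
  have htr : ∀ a : Module.End ℚ X.H, LinearMap.trace ℚ Y.H (c a) = LinearMap.trace ℚ X.H a :=
    fun a => LinearMap.trace_conj' a e
  have h1 := k (𝔤.map c.toLinearMap) ⟨?_, ?_⟩ (c s) ?_ ?_ ?_ ?_
  · obtain ⟨s', hs', hcs⟩ := h1
    have h2 : s' = s := c.injective hcs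
    rw [← h2]
    exact hs'
  · rintro _ ⟨a, ha, rfl⟩ _ ⟨b, hb, rfl⟩
    refine ⟨a * b - b * a, h𝔤.1 a ha b hb, ?_⟩
    change c (a * b - b * a) = c a * c b - c b * c a
    rw [map_sub, map_mul, map_mul]
  · obtain ⟨n, r, a, ha, hr⟩ := h𝔤.2
    refine ⟨n, r, fun i => c (a i), fun i => ⟨a i, ha i, rfl⟩, fun y => ?_⟩
    have h2 : Y.per y = E (X.per (e.symm y)) := by rw [hE, e.apply_symm_apply]
    rw [h2, ← map_smul, hr, map_sum]
    refine Finset.sum_congr rfl fun i _ => ?_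
    rw [map_smul, hE, hc]
  · have h2 := congrArg c hs1
    rw [map_mul, map_mul, hch] at h2
    exact h2
  · rw [htr]
    exact hs2
  · have h2 : h * c s = c (e.symm.toLinearMap.comp (h.comp e.toLinearMap) * s) := by
      rw [map_mul, hch]
    rw [h2, htr]
    exact hs3
  · intro F hF u v
    have h2 : IsHodge X.per (F.compLinearMap e.toLinearMap) :=
      Pool.Agent.TH504.CB.isHodge_comp e.toLinearMap E.toLinearMap hE hF
    have h3 := hs4 _ h2 (e.symm u) (e.symm v)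
    have h4 : ∀ x y : X.H, (F.compLinearMap e.toLinearMap) ![x, y] = F ![e x, e y] := by
      intro x y
      rw [AlternatingMap.compLinearMap_apply]
      congr 1
      funext i
      fin_cases i <;> rfl
    rw [h4, h4, e.apply_symm_apply, e.apply_symm_apply] at h3
    exact h3

/-- Isogenies preserve the conditions for imaginary quadratic multiplication. -/
theorem QuadFull.iso {X Y : AV} {d : ℚ} {h : Y.H →ₗ[ℚ] Y.H} (e : X.H ≃ₗ[ℚ] Y.H)
    (he : IsHom X Y e.toLinearMap) (hes : IsHom Y X e.symm.toLinearMap) (k : QuadFull Y d h) :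
    QuadFull X d (e.symm.toLinearMap.comp (h.comp e.toLinearMap)) := by
  refine ⟨k.1.iso e he hes, ?_⟩
  rcases k.2 with ⟨m, n, h1, h2⟩ | h1
  · exact Or.inl ⟨m, n, h1.iso e he, h2⟩
  · exact Or.inr (h1.iso e he)

/-- The reduction to codimension two and to Weil classes. -/
theorem codim_two_equiv (𝒜 : Sys) :
    (∀ X : AV, (∀ Y, IsFactor Y X → finrank ℚ Y.H ≤ 6 ∨ HasCMult Y ∨ RealMult Y ∨ FiveDim Y ∨
      FullHodge Y ∨ ∃ d h, QuadFull Y d h) → 𝒜.AllHodge X) ↔
      (∀ X : AV, (∀ Y, IsFactor Y X → HasCMult Y) → ∀ f : X.H [⋀^Fin 4]→ₗ[ℚ] ℚ,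
        IsHodge X.per f → 𝒜.A X (Fin 4) f) ∧
      ∀ (Y X : AV) (d : ℚ) (h : Y.H →ₗ[ℚ] Y.H), IsSimple Y → QuadFull Y d h → ¬ QuadMult Y →
        WeilExt Y d h X → 𝒜.AllWeil X := by
  have key := weil_equiv 𝒜 (fun Y => finrank ℚ Y.H ≤ 6 ∨ HasCMult Y ∨ RealMult Y ∨ FiveDim Y ∨
      FullHodge Y ∨ ∃ d h, QuadFull Y d h) (fun Y _ h => h)
    (fun Y E d _ _ _ _ hE _ => Or.inl (by omega))
  constructor
  · intro H
    refine ⟨fun X hX f hf => H X (fun Y hY => Or.inr (Or.inl (hX Y hY))) _ f hf,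
      fun Y X d h hY hq hn hext n f hf => H X (fun Y' hY' => ?_) _ f hf.2.1⟩
    obtain ⟨P, i, j, hi, hj, hij, hP, -⟩ := hext
    rcases factor_of_prod hi hj hij hY hY' with ⟨e, he, hes⟩ | hY'
    · exact Or.inr (Or.inr (Or.inr (Or.inr (Or.inr ⟨d, _, hq.iso e he hes⟩))))
    · left
      rw [(hP Y' hY').1]
      norm_num
  · rintro ⟨H1, H2⟩
    exact key.2 ⟨fun X hX => cm_all 𝒜 H1 X fun Y hY => (hX Y hY).2,
      fun Y X d h hY _ hq hn hext _ => H2 Y X d h hY hq hn hext⟩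

end

end Pool.Agent.R915
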