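import Mathlib
import Pool.Agent.R915.V6
import Pool.Agent.R915.S2
import Pool.Agent.R915.H2

/-!
# The system generated by divisors and Weil classes
-/

set_option linter.unusedSectionVars false

namespace Pool.Agent.R915

open Module Pool.Agent.Y90
open Pool.Agent.H204R3.CM (IsHodge)

/-- The smallest system of classes `f ∈ H^κ(X, ℚ)`, for all complex abelian varieties `X`, which
contains the classes of degree zero, the Hodge classes of degree two and the Weil classes of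
imaginary quadratic fields on abelian varieties of any dimension, and which is stable under linear
combinations, cup products, pull-backs along homomorphisms and push-forwards along the projections
of products. -/
inductive AlgW : (X : AV) → (κ : Type) → (X.H [⋀^κ]→ₗ[ℚ] ℚ) → Prop
  /-- classes of degree zero -/
  | unit {X : AV} {κ : Type} [IsEmpty κ] (f : X.H [⋀^κ]→ₗ[ℚ] ℚ) : AlgW X κ f
  /-- Hodge classes of degree two -/
  | divisor {X : AV} {κ : Type} (hκ : Nat.card κ = 2) (f : X.H [⋀^κ]→ₗ[ℚ] ℚ)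
      (hf : IsHodge X.per f) : AlgW X κ f
  /-- Weil classes of imaginary quadratic fields -/
  | weil {X : AV} {n : ℕ} (f : X.H [⋀^Fin n]→ₗ[ℚ] ℚ) (hf : IsWeil X n f) : AlgW X (Fin n) f
  | zero (X : AV) (κ : Type) : AlgW X κ 0
  | add {X : AV} {κ : Type} (f g : X.H [⋀^κ]→ₗ[ℚ] ℚ) (hf : AlgW X κ f) (hg : AlgW X κ g) :
      AlgW X κ (f + g)
  | smul {X : AV} {κ : Type} (a : ℚ) (f : X.H [⋀^κ]→ₗ[ℚ] ℚ) (hf : AlgW X κ f) : AlgW X κ (a • f)
  /-- renaming of the variables -/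
  | reindex {X : AV} {κ κ' : Type} (e : κ ≃ κ') (f : X.H [⋀^κ]→ₗ[ℚ] ℚ) (hf : AlgW X κ f) :
      AlgW X κ' (f.domDomCongr e)
  /-- cup products (up to a factor) -/
  | cup {X : AV} {κ κ' : Type} [Fintype κ] [DecidableEq κ] [Fintype κ'] [DecidableEq κ']
      (f : X.H [⋀^κ]→ₗ[ℚ] ℚ) (g : X.H [⋀^κ']→ₗ[ℚ] ℚ) (hf : AlgW X κ f) (hg : AlgW X κ' g)
      (h : X.H [⋀^κ ⊕ κ']→ₗ[ℚ] ℚ)
      (hh : ∀ v : κ ⊕ κ' → X.H, h v = ∑ σ : Equiv.Perm (κ ⊕ κ'), ((Equiv.Perm.sign σ : ℤ) : ℚ) *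
        (f (fun k => v (σ (Sum.inl k))) * g (fun k => v (σ (Sum.inr k))))) :
      AlgW X (κ ⊕ κ') h
  /-- pull-backs along homomorphisms `X → Y` -/
  | pull {X Y : AV} (h : X.H →ₗ[ℚ] Y.H) (hh : IsHom X Y h) {κ : Type} (f : Y.H [⋀^κ]→ₗ[ℚ] ℚ)
      (hf : AlgW Y κ f) : AlgW X κ (f.compLinearMap h)
  /-- push-forwards along the projection `P = X × Y → X`: the form is evaluated at a basis of
  `H_1(Y, ℚ)` -/
  | push {X Y P : AV} (i : X.H →ₗ[ℚ] P.H) (hi : IsHom X P i) (j : Y.H →ₗ[ℚ] P.H)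
      (hj : IsHom Y P j) (hij : Function.Bijective fun w : X.H × Y.H => i w.1 + j w.2)
      {κ κ' : Type} (b : Basis κ' ℚ Y.H) (f : P.H [⋀^κ ⊕ κ']→ₗ[ℚ] ℚ) (hf : AlgW P (κ ⊕ κ') f)
      (g : X.H [⋀^κ]→ₗ[ℚ] ℚ)
      (hg : ∀ v : κ → X.H, g v = f (Sum.elim (fun k => i (v k)) fun k => j (b k))) : AlgW X κ g

noncomputable section

open Pool.Agent.TH504.CB Pool.Agent.W437.HC

/-- **Soundness**: the elements of the system are Hodge classes. -/
theorem AlgW.isHodge {X : AV} {κ : Type} {f : X.H [⋀^κ]→ₗ[ℚ] ℚ} (hf : AlgW X κ f) :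
    Finite κ → IsHodge X.per f := by
  induction hf with
  | @unit X κ _ f =>
    intro _
    refine ⟨MultilinearMap.constOfIsEmpty ℝ (fun _ => X.T) ((f 0 : ℚ) : ℝ), fun v => ?_,
      fun z _ u => ?_⟩
    · rw [Subsingleton.elim v 0]
      rfl
    · rfl
  | divisor hκ f hf => exact fun _ => hf
  | weil f hf => exact fun _ => hf.2.1
  | zero X κ =>
    intro _
    refine ⟨0, fun v => ?_, fun z _ u => rfl⟩
    rw [_root_.zero_apply, AlternatingMap.zero_apply, Rat.cast_zero]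
  | add f g _ _ hf hg =>
    intro hfin
    obtain ⟨ψ, h1, h2⟩ := hf hfin
    obtain ⟨ψ', h3, h4⟩ := hg hfin
    refine ⟨ψ + ψ', fun v => ?_, fun z hz u => ?_⟩
    · rw [_root_.add_apply, h1, h3, AlternatingMap.add_apply, Rat.cast_add]
    · rw [_root_.add_apply, _root_.add_apply, h2 z hz, h4 z hz]
  | smul a f _ hf =>
    intro hfin
    obtain ⟨ψ, h1, h2⟩ := hf hfin
    refine ⟨(a : ℝ) • ψ, fun v => ?_, fun z hz u => ?_⟩
    · rw [_root_.smul_apply, h1, AlternatingMap.smul_apply, smul_eq_mul, smul_eq_mul, Rat.cast_mul]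
    · rw [_root_.smul_apply, _root_.smul_apply, h2 z hz]
  | reindex e f _ hf =>
    intro hfin
    obtain ⟨ψ, h1, h2⟩ := hf (Finite.of_equiv _ e.symm)
    refine ⟨ψ.domDomCongr e, fun v => ?_, fun z hz u => ?_⟩
    · rw [MultilinearMap.domDomCongr_apply, AlternatingMap.domDomCongr_apply]
      exact h1 _
    · rw [MultilinearMap.domDomCongr_apply, MultilinearMap.domDomCongr_apply]
      exact h2 z hz _
  | @cup X κ κ' _ _ _ _ f g _ _ h hh hf hg =>
    intro _
    obtain ⟨ψ, h1, h2⟩ := hf inferInstance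
    obtain ⟨ψ', h3, h4⟩ := hg inferInstance
    have h5 : h = MultilinearMap.alternatization
        (prd f.toMultilinearMap g.toMultilinearMap) := by
      ext v
      rw [hh, MultilinearMap.alternatization_apply]
      refine Finset.sum_congr rfl fun σ _ => ?_
      rw [MultilinearMap.domDomCongr_apply, prd_apply, Units.smul_def, zsmul_eq_mul]
      rfl
    rw [h5]
    refine isHodge_alt (prd ψ ψ') (fun v => ?_) fun z hz u => ?_
    · rw [prd_apply, prd_apply, h1, h3]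
      push_cast
      rfl
    · rw [prd_apply, prd_apply, h2 z hz, h4 z hz]
  | @pull X Y h hh κ f _ hf =>
    intro hfin
    obtain ⟨Ψ, hΨ⟩ := hh
    exact isHodge_comp h Ψ hΨ (hf hfin)
  | @push X Y P i hi j hj hij κ κ' b f _ g hg hf =>
    intro hfin
    have h1 := Y.finH
    have h2 : Finite κ' := Module.Finite.finite_basis b
    exact isHodge_push i hi j hj b f (hf inferInstance) g hg


/-- The system. -/
def algWSys : Sys where
  A := AlgW
  unit := fun f => AlgW.unit f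
  divisor := fun hκ f hf => AlgW.divisor hκ f hf
  weil := fun _ f hf => AlgW.weil f ⟨hf.1, hf.2.1, by
    obtain ⟨-, -, d, h, h1, h2, h3, h4, -⟩ := hf
    exact ⟨d, h, h1, h2, h3, h4⟩⟩
  zero := AlgW.zero
  add := fun f g hf hg => AlgW.add f g hf hg
  smul := fun a f hf => AlgW.smul a f hf
  reindex := fun e f hf => AlgW.reindex e f hf
  cup := fun f g hf hg h hh => AlgW.cup f g hf hg h hh
  pull := fun h hh _ f hf => AlgW.pull h hh f hf
  push := fun i hi j hj hij _ _ b f hf g hg => AlgW.push i hi j hj hij b f hf g hg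

/-- The result for a complex multiplication part in independent blocks. -/
theorem blocks_weil (𝒜 : Sys) (hA : ∀ X, 𝒜.AllWeil X) (X : AV)
    (hX : ∀ Y, IsFactor Y X → finrank ℚ Y.H ≤ 6 ∨ HasCMult Y ∨ RealMult Y ∨
      FiveDim Y ∨ FullHodge Y ∨ ∃ d h, QuadFull Y d h)
    (C : Pool.Agent.W547.KB.CMAV) {J : Type} (b : C.I → J)
    (hC : Pool.Agent.W547.UB.IndependentBlocks C b)
    (h1 : ∀ Y, IsFactor Y X → HasCMult Y → ∃ i, IsOfType Y (C.factor i))
    (h2 : ∀ (Y E : AV) (d : ℚ), IsFactor Y X → ¬ HasCMult Y → Unbalanced Y d →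
      finrank ℚ E.H = 2 → Unbalanced E d → ∃ i, IsOfType E (C.factor i)) :
    𝒜.AllHodge X := by
  refine main_weil 𝒜 X (fun a Z' h' i hi hinj hsim ha => ?_) fun Q _ _ a Z' h' hc =>
    prod_blocks 𝒜 hC h' fun q => ?_
  · by_cases hcm : HasCMult (AVZ h')
    · exact Or.inr hcm
    refine Or.inl ⟨hcm, fun U hU => ?_⟩
    rcases hX (AVZ h') ⟨hsim, i, hi, hinj⟩ with k | k | k | k | k | ⟨d, f, k⟩
    · exact (SmallDim.lc h' hsim ha ⟨k, fun h1 => absurd h1 hcm⟩ hU).lcy 𝒜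
    · exact absurd k hcm
    · exact (k.lc h' hsim ha hU).lcy 𝒜
    · exact (k.lc h' hsim ha hU).lcy 𝒜
    · exact (k.lc h' hsim ha hU).lcy 𝒜
    · exact k.lcy h' 𝒜 (fun _ _ _ _ => hA _) hU
  · obtain ⟨h3, h4, h5 | ⟨h5, d, h6, Y', hY', hn, h7⟩⟩ := hc q
    · exact h1 _ h5 h4
    · exact h2 Y' _ d hY' hn h7 h5 h6

end

end Pool.Agent.R915
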