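import Mathlib
import Pool.Agent.R930.Coprime2
import Pool.Agent.R930.OddSerre
import Pool.Agent.Y224.TS.R2
import Pool.Agent.R915.C3

/-!
# Irreducible Lie algebras of operators: elements of rank one

An irreducible Lie algebra of operators which contains an element `x` with `x ^ 2 = 1 / 4` contains
an element of rank one in each of the following cases: the multiplicities of the eigenvalues of `x`
are coprime; there is an invariant symplectic form and the dimension is at most seven or two modulo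
four; the multiplicities are two and two, the traces are zero, and there is no invariant bilinear
form.
-/

set_option linter.unusedSectionVars false

namespace Pool.Agent.R915

open Module Pool.Agent.W528.Odd Pool.Agent.Y126.OT Pool.Agent.R930

noncomputable section

section gen

variable {V : Type} [AddCommGroup V] [Module ℂ V] [FiniteDimensional ℂ V]
  {𝔥 : Submodule ℂ (Module.End ℂ V)}

/-- The trace form of an irreducible Lie algebra is nondegenerate. -/
theorem nd_of_weak (hbr : ∀ X ∈ 𝔥, ∀ Y ∈ 𝔥, X * Y - Y * X ∈ 𝔥)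
    (hirr : ∀ W : Submodule ℂ V, (∀ X ∈ 𝔥, X * X = (1 / 4 : ℂ) • 1 → ∀ u ∈ W, X u ∈ W) →
      W = ⊥ ∨ W = ⊤) (z : Module.End ℂ V) (hz : z ∈ 𝔥)
    (h : ∀ y ∈ 𝔥, LinearMap.trace ℂ V (z * y) = 0) : z = 0 := by
  refine trace_nondeg (rN 𝔥) ?_ hbr (fun g x hx => g.2.1 x hx) z hz h
  refine Pool.Agent.W125.OT.SIrrT.main ℂ V _ (rN 𝔥) 𝔥 ?_ hirr
  intro X hX hXX
  exact ⟨⟨unX hXX, unX_mem hXX (fun y hy => hbr X hX y hy)⟩, rfl⟩

theorem irr_of_weak
    (hirr : ∀ W : Submodule ℂ V, (∀ X ∈ 𝔥, X * X = (1 / 4 : ℂ) • 1 → ∀ u ∈ W, X u ∈ W) →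
      W = ⊥ ∨ W = ⊤) (W : Submodule ℂ V) (hW : ∀ Y ∈ 𝔥, ∀ u ∈ W, Y u ∈ W) : W = ⊥ ∨ W = ⊤ :=
  hirr W fun X hX _ => hW X hX

/-- Coprime multiplicities. -/
theorem one_of_coprime (hbr : ∀ X ∈ 𝔥, ∀ Y ∈ 𝔥, X * Y - Y * X ∈ 𝔥)
    (hirr : ∀ W : Submodule ℂ V, (∀ X ∈ 𝔥, X * X = (1 / 4 : ℂ) • 1 → ∀ u ∈ W, X u ∈ W) →
      W = ⊥ ∨ W = ⊤) {x : Module.End ℂ V} (hx : x * x = (1 / 4 : ℂ) • 1) (hxm : x ∈ 𝔥)
    (hn1 : e1 x ≠ 0) (hn0 : e0 x ≠ 0)
    (hcop : Nat.Coprime (finrank ℂ (LinearMap.range (e1 x)))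
      (finrank ℂ (LinearMap.range (e0 x)))) :
    ∃ e ∈ 𝔥, rk e = 1 ∧ e1 x * e = e ∧ e * e0 x = e := by
  obtain ⟨e, he, h1⟩ := rank_one_of_coprime hbr (irr_of_weak hirr) (nd_of_weak hbr hirr) hx hxm hn1
    hn0 hcop
  exact ⟨e, he.1, h1, Wp_e1 hx he, Wp_e0 hx he⟩

/-- Symplectic forms. -/
theorem one_of_symp {ω : V →ₗ[ℂ] V →ₗ[ℂ] ℂ} (halt : ∀ v, ω v v = 0)
    (hnd : ∀ u, (∀ v, ω u v = 0) → u = 0)
    (hbr : ∀ X ∈ 𝔥, ∀ Y ∈ 𝔥, X * Y - Y * X ∈ 𝔥)
    (hsp : ∀ y ∈ 𝔥, ∀ a b, ω (y a) b + ω a (y b) = 0)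
    (hirr : ∀ W : Submodule ℂ V, (∀ X ∈ 𝔥, X * X = (1 / 4 : ℂ) • 1 → ∀ u ∈ W, X u ∈ W) →
      W = ⊥ ∨ W = ⊤) {x : Module.End ℂ V} (hx : x * x = (1 / 4 : ℂ) • 1) (hxm : x ∈ 𝔥)
    (h0 : 0 < finrank ℂ V) (h : finrank ℂ V ≤ 7 ∨ finrank ℂ V % 4 = 2) :
    ∃ e ∈ 𝔥, rk e = 1 := by
  rcases h with h | h
  · exact Pool.Agent.Y224.TS.exists_rank_one_small halt hnd hbr hsp hirr h0 h
  · obtain ⟨N, hN, hN2, hodd⟩ := exists_odd_rank hbr (irr_of_weak hirr)
      (fun y hy => trace_sp ω hnd (hsp y hy)) hx hxm ω halt hnd hsp h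
    exact exists_rank_one_odd halt hnd Pool.Agent.W72.OT.Bound.main hbr hsp hirr hN hN2 hodd

end gen

section two

variable {V : Type} [AddCommGroup V] [Module ℂ V] [FiniteDimensional ℂ V]
  {𝔥 : Submodule ℂ (Module.End ℂ V)}

theorem range_e1 {x u : Module.End ℂ V} (h : e1 x * u = u) (v : V) :
    u v ∈ LinearMap.range (e1 x) := ⟨u v, by rw [← Module.End.mul_apply, h]⟩

theorem rk_le_of_left {x a : Module.End ℂ V} (h : e1 x * a = a) : rk a ≤ rk (e1 x) := by
  conv_lhs => rw [← h]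
  exact rk_mul_left _ _

/-- An idempotent which respects the decomposition and has the same rank is the projection. -/
theorem idem_eq {P a : Module.End ℂ V} (ha : a * a = a) (h1 : P * a = a)
    (h2 : a * P = a) (h : rk P ≤ rk a) : a = P := by
  have h3 : LinearMap.range a = LinearMap.range P := by
    apply Submodule.eq_of_le_of_finrank_le
    · rintro _ ⟨v, rfl⟩
      exact ⟨a v, by rw [← Module.End.mul_apply, h1]⟩
    · exact h
  have h4 : a * P = P := by
    refine LinearMap.ext fun v => ?_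
    have h5 : P v ∈ LinearMap.range a := by rw [h3]; exact ⟨v, rfl⟩
    obtain ⟨w, hw⟩ := h5
    rw [Module.End.mul_apply, ← hw, ← Module.End.mul_apply, ha]
  rw [← h2, h4]

/-- **Multiplicities two and two.** -/
theorem one_of_22 (hbr : ∀ X ∈ 𝔥, ∀ Y ∈ 𝔥, X * Y - Y * X ∈ 𝔥)
    (hirr : ∀ W : Submodule ℂ V, (∀ X ∈ 𝔥, X * X = (1 / 4 : ℂ) • 1 → ∀ u ∈ W, X u ∈ W) →
      W = ⊥ ∨ W = ⊤) {x : Module.End ℂ V} (hx : x * x = (1 / 4 : ℂ) • 1) (hxm : x ∈ 𝔥)
    (hn1 : finrank ℂ (LinearMap.range (e1 x)) = 2) (hn0 : finrank ℂ (LinearMap.range (e0 x)) = 2)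
    (htr : ∀ y ∈ 𝔥, LinearMap.trace ℂ V y = 0)
    (hno : ∀ B : V →ₗ[ℂ] V →ₗ[ℂ] ℂ, (∀ y ∈ 𝔥, ∀ u v, B (y u) v + B u (y v) = 0) → B = 0) :
    ∃ e ∈ 𝔥, rk e = 1 ∧ e1 x * e = e ∧ e * e0 x = e := by
  classical
  have hnd := nd_of_weak hbr hirr
  by_contra hcon
  push Not at hcon
  have hne1 : e1 x ≠ 0 := fun h => by
    rw [h, LinearMap.range_zero, finrank_bot] at hn1
    omega
  have hne0 : e0 x ≠ 0 := fun h => by
    rw [h, LinearMap.range_zero, finrank_bot] at hn0
    omega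
  have hrk : ∀ e ∈ Wp 𝔥 x, e ≠ 0 → rk e = 2 := by
    intro e he he0
    have h1 := rk_le_of_left (Wp_e1 hx he)
    have h2 : rk (e1 x) = 2 := hn1
    have h3 := rk_pos he0
    have h4 : rk e ≠ 1 := fun h => hcon e he.1 h (Wp_e1 hx he) (Wp_e0 hx he)
    omega
  have hpart : ∀ e ∈ Wp 𝔥 x, e ≠ 0 → ∃ f ∈ Wm 𝔥 x, e * f = e1 x ∧ f * e = e0 x := by
    intro e he he0
    obtain ⟨-, f, hf, hefe, hfef⟩ := exists_partner hbr hnd hx hxm he he0
      (fun a ha ha0 => by rw [hrk e he he0, hrk a ha ha0])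
    have hr1 : rk e ≤ rk (e * f) := by
      conv_lhs => rw [← hefe]
      exact rk_mul_left _ _
    have hr2 : rk e ≤ rk (f * e) := by
      conv_lhs => rw [← hefe, mul_assoc]
      exact rk_mul_right _ _
    rw [hrk e he he0] at hr1 hr2
    refine ⟨f, hf, ?_, ?_⟩
    · refine idem_eq (by rw [← mul_assoc, hefe]) (by rw [← mul_assoc, Wp_e1 hx he])
        (by rw [mul_assoc, Wm_e1 hx hf]) ?_
      rw [show rk (e1 x) = 2 from hn1]
      exact hr1
    · refine idem_eq (by rw [← mul_assoc, hfef]) (by rw [← mul_assoc, Wm_e0 hx hf])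
        (by rw [mul_assoc, Wp_e0 hx he]) ?_
      rw [show rk (e0 x) = 2 from hn0]
      exact hr2
  obtain ⟨y, hy, hy0⟩ := exists_yp (irr_of_weak hirr) hx hne1 hne0
  obtain ⟨e, hee⟩ : ∃ e, e = yp x y := ⟨_, rfl⟩
  have he : e ∈ Wp 𝔥 x := by rw [hee]; exact ⟨yp_mem hx hbr hxm hy, yp_yp hx y⟩
  have he0 : e ≠ 0 := by rw [hee]; exact hy0
  obtain ⟨f, hf, hef, hfe⟩ := hpart e he he0
  have hex := Wp_e1 hx he
  have hex0 := Wp_e0 hx he
  have hfx := Wm_e0 hx hf
  have hfx1 := Wm_e1 hx hf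
  obtain ⟨P, hP⟩ : ∃ P, P = e1 x := ⟨_, rfl⟩
  rw [← hP] at hef hex hfx1
  have hPP : P * P = P := by rw [hP]; exact e1_mul_e1 hx
  have hPe : P * e = e := hex
  have heP : e * P = 0 := by
    rw [← hex0, hP, mul_assoc, e0_mul_e1 hx, mul_zero]
  have hee' : e * e = 0 := Wp_mul hx he he
  -- the space of degree one
  have hWp : ∀ z ∈ Wp 𝔥 x, ∃ c : ℂ, z = c • e := by
    intro z hz
    have hst : ∀ w ∈ LinearMap.range P, (z * f) w ∈ LinearMap.range P := by
      intro w _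
      refine ⟨(z * f) w, ?_⟩
      rw [← Module.End.mul_apply, ← mul_assoc, hP, Wp_e1 hx hz]
    have hnt : Nontrivial (LinearMap.range P) := by
      apply nontrivial_of_finrank_pos (R := ℂ)
      rw [hP, hn1]
      norm_num
    obtain ⟨c, hc⟩ := Module.End.exists_eigenvalue ((z * f).restrict hst)
    obtain ⟨w, hw⟩ := hc.exists_hasEigenvector
    have hw1 : (z * f) w = c • (w : V) := congrArg Subtype.val hw.apply_eq_smul
    have hPw : P w = w := by
      obtain ⟨w', hw'⟩ := w.2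
      rw [← hw', ← Module.End.mul_apply, hPP]
    refine ⟨c, ?_⟩
    by_contra hne
    have hz' : z - c • e ∈ Wp 𝔥 x := Submodule.sub_mem _ hz (Submodule.smul_mem _ _ he)
    obtain ⟨f', -, -, h3⟩ := hpart _ hz' (sub_ne_zero.2 hne)
    have h4 : (z - c • e) (f w) = 0 := by
      rw [LinearMap.sub_apply, LinearMap.smul_apply, ← Module.End.mul_apply,
        ← Module.End.mul_apply e, hw1, hef, hPw, sub_self]
    have h5 : f (w : V) = 0 := by
      have h6 : f (w : V) = e0 x (f w) := by rw [← Module.End.mul_apply, hfx]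
      rw [h6, ← h3, Module.End.mul_apply, h4, map_zero]
    apply hw.2
    apply Subtype.ext
    calc (w : V) = P w := hPw.symm
      _ = e (f w) := (LinearMap.congr_fun hef (w : V)).symm
      _ = 0 := by rw [h5, map_zero]
  have hWm : ∀ z ∈ Wm 𝔥 x, ∃ c : ℂ, z = c • f := by
    intro z hz
    obtain ⟨c, hc⟩ := hWp _ (eye_p hbr hx he hz)
    refine ⟨c, ?_⟩
    have h1 : f * (e * z * e) * f = z := by
      have h2 : f * (e * z * e) * f = (f * e) * z * (e * f) := by noncomm_ring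
      rw [h2, hfe, hef, Wm_e0 hx hz, hP, Wm_e1 hx hz]
    rw [← h1, hc, mul_smul_comm, smul_mul_assoc, mul_assoc, hef, hfx1]
  -- the form
  obtain ⟨W, hW⟩ : ∃ W, W = LinearMap.range P := ⟨_, rfl⟩
  have hPW : ∀ v, P v ∈ W := fun v => by rw [hW]; exact ⟨v, rfl⟩
  have heW : ∀ v, e v ∈ W := fun v => by rw [hW]; exact ⟨e v, by rw [← Module.End.mul_apply, hPe]⟩
  have hWd : finrank ℂ W = 2 := by rw [hW, hP]; exact hn1
  let bas : Basis (Fin 2) ℂ W := finBasisOfFinrankEq ℂ W hWd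
  let Pw : V →ₗ[ℂ] W := P.codRestrict W hPW
  let Ew : V →ₗ[ℂ] W := e.codRestrict W heW
  let B : V →ₗ[ℂ] V →ₗ[ℂ] ℂ := LinearMap.mk₂ ℂ
    (fun u v => nu bas (Pw u) (Ew v) - nu bas (Ew u) (Pw v))
    (fun u u' v => by rw [map_add, map_add, nu_add_left, nu_add_left]; ring)
    (fun c u v => by
      rw [map_smul, map_smul, nu_smul_left, nu_smul_left, smul_eq_mul]; ring)
    (fun u v v' => by rw [map_add, map_add, nu_add_right, nu_add_right]; ring)
    (fun c u v => by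
      rw [map_smul, map_smul, nu_smul_right, nu_smul_right, smul_eq_mul]; ring)
  have hB : ∀ u v, B u v = nu bas (Pw u) (Ew v) - nu bas (Ew u) (Pw v) := fun _ _ => rfl
  have hinv : ∀ y ∈ 𝔥, ∀ u v, B (y u) v + B u (y v) = 0 := by
    intro y hy u v
    have h0m := y0_mem hx hbr hxm hy
    obtain ⟨c, hc⟩ := hWp (yp x y) ⟨yp_mem hx hbr hxm hy, yp_yp hx y⟩
    obtain ⟨c', hc'⟩ := hWm (ym x y) ⟨ym_mem hx hbr hxm hy, ym_ym hx y⟩
    have hyeq := y_eq x y
    rw [hc, hc'] at hyeq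
    obtain ⟨a, ha⟩ : ∃ a, a = y0 x y := ⟨_, rfl⟩
    rw [← ha] at hyeq h0m
    have haP : a * P = P * a := by
      rw [ha, hP]
      unfold y0
      rw [add_mul, mul_add, mul_assoc _ (e1 x), e1_mul_e1 hx, mul_assoc _ (e0 x), e0_mul_e1 hx,
        mul_zero, add_zero, ← mul_assoc (e1 x), ← mul_assoc (e1 x), e1_mul_e1 hx,
        ← mul_assoc (e1 x), ← mul_assoc (e1 x), e1_mul_e0 hx, zero_mul, zero_mul, add_zero]
    have ha0 : a * e0 x = e0 x * a := by
      have h1 : e0 x = 1 - P := by rw [hP, ← e1_add_e0 x]; abel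
      rw [h1, mul_sub, sub_mul, haP, mul_one, one_mul]
    obtain ⟨l, hl⟩ := hWp (a * e - e * a) (Wp_of hx (hbr _ h0m _ he.1)
      (by rw [← hP, mul_sub, ← mul_assoc, ← haP, mul_assoc, hPe, ← mul_assoc, hPe])
      (by rw [sub_mul, mul_assoc, hex0, mul_assoc, ha0, ← mul_assoc, hex0]))
    have hea : e * a = a * e - l • e := by rw [← hl]; abel
    have haW : ∀ w ∈ W, a w ∈ W := by
      intro w hw
      rw [hW] at hw ⊢
      obtain ⟨w', rfl⟩ := hw
      exact ⟨a w', by rw [← Module.End.mul_apply, ← haP]; rfl⟩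
    have hPw' : ∀ w, Pw (y w) = (a.restrict haW) (Pw w) + c • Ew w := by
      intro w
      apply Subtype.ext
      change P (y w) = a (P w) + c • e w
      have h1 : P * y = a * P + c • e := by
        rw [hyeq, mul_add, mul_add, ← haP, mul_smul_comm, hPe, mul_smul_comm]
        have h2 : P * f = 0 := by rw [← hfx, ← mul_assoc, hP, e1_mul_e0 hx, zero_mul]
        rw [h2, smul_zero, add_zero]
      exact LinearMap.congr_fun h1 w
    have hEw' : ∀ w, Ew (y w) = (a.restrict haW) (Ew w) - l • Ew w + c' • Pw w := by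
      intro w
      apply Subtype.ext
      change e (y w) = a (e w) - l • e w + c' • P w
      have h1 : e * y = a * e - l • e + c' • P := by
        rw [hyeq, mul_add, mul_add, hea, mul_smul_comm, hee', smul_zero, add_zero, mul_smul_comm,
          hef]
      exact LinearMap.congr_fun h1 w
    -- the trace
    have htrP : LinearMap.trace ℂ V P = 2 := by
      rw [trace_range hPP, hP, hn1]
      norm_num
    have ht1 : LinearMap.trace ℂ W (a.restrict haW) = LinearMap.trace ℂ V (a * P) := by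
      have h1 : ∀ v, (a * P) v ∈ W := fun v => haW _ (hPW v)
      have h2 : (a.restrict haW) = (a * P).restrict (fun v _ => h1 v) := by
        refine LinearMap.ext fun w => Subtype.ext ?_
        change a w = a (P w)
        have h3 : P (w : V) = w := by
          have h4 := hW.le w.2
          obtain ⟨w', hw'⟩ := h4
          rw [← hw', ← Module.End.mul_apply, hPP]
        rw [h3]
      rw [h2]
      exact LinearMap.trace_restrict_eq_of_forall_mem W (a * P) h1
    have ht2 : LinearMap.trace ℂ V (a * e0 x) = LinearMap.trace ℂ V (a * P) - 2 * l := by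
      rw [← hfe, ← mul_assoc, LinearMap.trace_mul_comm, ← mul_assoc, hea, sub_mul, smul_mul_assoc,
        hef, mul_assoc, hef, map_sub, map_smul, htrP, smul_eq_mul, mul_comm]
    have ht3 : LinearMap.trace ℂ V a = 0 := htr a h0m
    have ht4 : a = a * P + a * e0 x := by
      rw [← mul_add, hP, e1_add_e0, mul_one]
    have ht5 : LinearMap.trace ℂ W (a.restrict haW) = l := by
      rw [ht1]
      rw [ht4, map_add, ht2] at ht3
      linear_combination ht3 / 2
    have k1 := nu_tr bas (a.restrict haW) (Pw u) (Ew v)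
    have k2 := nu_tr bas (a.restrict haW) (Ew u) (Pw v)
    rw [hB, hB, hPw', hPw', hEw', hEw']
    have hsub : ∀ p q r : W, nu bas (p - q) r = nu bas p r - nu bas q r := by
      intro p q r
      have h1 : p - q = p + (-1 : ℂ) • q := by module
      rw [h1, nu_add_left, nu_smul_left]
      ring
    have hsub' : ∀ p q r : W, nu bas p (q - r) = nu bas p q - nu bas p r := by
      intro p q r
      have h1 : q - r = q + (-1 : ℂ) • r := by module
      rw [h1, nu_add_right, nu_smul_right]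
      ring
    simp only [nu_add_left, nu_add_right, nu_smul_left, nu_smul_right, hsub, hsub']
    rw [ht5] at k1 k2
    linear_combination k1 - k2
  have hB0 := hno B hinv
  have h1 : B (bas 0 : V) (f (bas 1 : V)) = 0 := by rw [hB0]; rfl
  have hPb : ∀ w : W, Pw (w : V) = w := by
    intro w
    apply Subtype.ext
    change P (w : V) = w
    obtain ⟨w', hw'⟩ := hW.le w.2
    rw [← hw', ← Module.End.mul_apply, hPP]
  have h2 : Ew (f (bas 1 : V)) = bas 1 := by
    rw [← hPb (bas 1)]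
    apply Subtype.ext
    change e (f (Pw _ : V)) = P _
    rw [hPb, ← Module.End.mul_apply, hef]
  have h3 : Pw (f (bas 1 : V)) = 0 := by
    apply Subtype.ext
    change P (f (bas 1 : V)) = 0
    rw [← Module.End.mul_apply]
    have h4 : P * f = 0 := by rw [← hfx, ← mul_assoc, hP, e1_mul_e0 hx, zero_mul]
    rw [h4]
    rfl
  rw [hB, hPb, h2, h3, nu_zero_right] at h1
  unfold nu at h1
  simp at h1

end two

end

end Pool.Agent.R915
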