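import Mathlib
import Pool.Agent.R915.X1
import Pool.Agent.Y224.TS.T5
import Pool.Agent.Y224.TS.T8

/-!
# Elements of rank one in the Lie algebra generated by the involutions
-/

set_option linter.unusedSectionVars false

namespace Pool.Agent.R915

open Matrix Module Pool.Agent.W437.HC Pool.Agent.W437.HD Pool.Agent.W548.Odd Pool.Agent.W522.U
open Pool.Agent.H204R3.SP Pool.Agent.H204R3.GP Pool.Agent.Y90 Pool.Agent.Y224 Pool.Agent.Y224.TS
open Pool.Agent.W437.HP (cK cK_mul cK_one)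
open Pool.Agent.Y126.OT (e1 e0)

noncomputable section

section gen

variable {B : Type} [Fintype B] [DecidableEq B] {S : Set (Matrix B B ℂ)}

/-- The involutions act irreducibly. -/
theorem weak_irr (hsq : ∀ D ∈ S, D * D = 1) {U : Submodule ℂ (B → ℂ)} (hU : IrS (TS.LT S) U)
    (W : Submodule ℂ U) (hW : ∀ X ∈ resL (TS.LT S) U, X * X = (1 / 4 : ℂ) • 1 → ∀ u ∈ W, X u ∈ W) :
    W = ⊥ ∨ W = ⊤ := by
  have hst : ∀ D ∈ S, ∀ u ∈ U, D *ᵥ u ∈ U := fun D hD u hu => hU.2.1 D (LT_gen hD) u hu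
  have hS : ∀ D ∈ S, ∀ u ∈ W.map U.subtype, D *ᵥ u ∈ W.map U.subtype := by
    rintro D hD _ ⟨u, hu, rfl⟩
    have h1 := hW ((1 / 2 : ℂ) • resM D U (hst D hD))
      ⟨(1 / 2 : ℂ) • D, Submodule.smul_mem _ _ (LT_gen hD), fun u => by
        rw [LinearMap.smul_apply, Submodule.coe_smul, resM_coe, smul_mulVec]⟩ (by
        rw [smul_mul_smul_comm]
        have h2 : resM D U (hst D hD) * resM D U (hst D hD) = 1 := by
          refine LinearMap.ext fun u => Subtype.ext ?_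
          rw [Module.End.mul_apply, resM_coe, resM_coe, mulVec_mulVec, hsq D hD, one_mulVec]
          rfl
        rw [h2]
        norm_num) u hu
    rw [LinearMap.smul_apply] at h1
    have h2 := W.smul_mem (2 : ℂ) h1
    rw [smul_smul] at h2
    norm_num at h2
    exact ⟨_, h2, rfl⟩
  have hL : Stab (TS.LT S) (W.map U.subtype) := by
    let C : Submodule ℂ (Matrix B B ℂ) :=
      { carrier := {X | ∀ u ∈ W.map U.subtype, X *ᵥ u ∈ W.map U.subtype}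
        add_mem' := fun {X Y} hX hY u hu => by
          rw [add_mulVec]
          exact Submodule.add_mem _ (hX u hu) (hY u hu)
        zero_mem' := fun u _ => by
          rw [zero_mulVec]
          exact Submodule.zero_mem _
        smul_mem' := fun c X hX u hu => by
          rw [smul_mulVec]
          exact Submodule.smul_mem _ _ (hX u hu) }
    have hC : TS.LT S ≤ C := LT_le (fun D hD => hS D hD) (fun A hA A' hA' u hu => by
      rw [sub_mulVec, ← mulVec_mulVec, ← mulVec_mulVec]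
      exact Submodule.sub_mem _ (hA _ (hA' u hu)) (hA' _ (hA u hu)))
    exact fun X hX => hC hX
  rcases hU.2.2 _ (Submodule.map_subtype_le _ _) hL with h2 | h2
  · left
    rw [eq_bot_iff]
    intro u hu
    have h3 : (u : B → ℂ) ∈ W.map U.subtype := ⟨u, hu, rfl⟩
    rw [h2, Submodule.mem_bot] at h3
    rw [Submodule.mem_bot]
    exact Subtype.ext h3
  · right
    rw [eq_top_iff]
    intro u _
    have h3 : (u : B → ℂ) ∈ W.map U.subtype := by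
      rw [h2]
      exact u.2
    obtain ⟨u', hu', huu⟩ := h3
    have h4 : u' = u := Subtype.ext huu
    rw [← h4]
    exact hu'

variable {D : Matrix B B ℂ} {U : Submodule ℂ (B → ℂ)}

/-- Half of the restriction of an involution. -/
def hf (D : Matrix B B ℂ) (U : Submodule ℂ (B → ℂ)) (hU : ∀ u ∈ U, D *ᵥ u ∈ U) : End ℂ U :=
  (1 / 2 : ℂ) • resM D U hU

variable (hU : ∀ u ∈ U, D *ᵥ u ∈ U)

theorem hf_coe (u : U) : ((hf D U hU u : U) : B → ℂ) = (1 / 2 : ℂ) • (D *ᵥ (u : B → ℂ)) := rfl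

theorem hf_sq (hD : D * D = 1) : hf D U hU * hf D U hU = (1 / 4 : ℂ) • 1 := by
  refine LinearMap.ext fun u => Subtype.ext ?_
  rw [Module.End.mul_apply, hf_coe, hf_coe, mulVec_smul, mulVec_mulVec, hD, one_mulVec, smul_smul,
    LinearMap.smul_apply, Module.End.one_apply, Submodule.coe_smul]
  norm_num

theorem hf_mem (hD : D ∈ TS.LT S) : hf D U hU ∈ resL (TS.LT S) U :=
  ⟨(1 / 2 : ℂ) • D, Submodule.smul_mem _ _ hD, fun u => by
    rw [hf_coe, smul_mulVec]⟩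

theorem e1_coe (u : U) : ((e1 (hf D U hU) u : U) : B → ℂ) =
    (1 / 2 : ℂ) • ((u : B → ℂ) + D *ᵥ (u : B → ℂ)) := by
  unfold e1
  rw [LinearMap.add_apply, LinearMap.smul_apply, Module.End.one_apply, Submodule.coe_add,
    Submodule.coe_smul, hf_coe, smul_add]

theorem e0_coe (u : U) : ((e0 (hf D U hU) u : U) : B → ℂ) =
    (1 / 2 : ℂ) • ((u : B → ℂ) - D *ᵥ (u : B → ℂ)) := by
  unfold e0
  rw [LinearMap.sub_apply, LinearMap.smul_apply, Module.End.one_apply, Submodule.coe_sub,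
    Submodule.coe_smul, hf_coe, smul_sub]

theorem fr_e1 (hD : D * D = 1) : finrank ℂ (LinearMap.range (e1 (hf D U hU))) =
    finrank ℂ (es (ph B D) U 1) := by
  have h1 : es (ph B D) U 1 = (LinearMap.range (e1 (hf D U hU))).map U.subtype := by
    ext v
    rw [mem_es]
    constructor
    · rintro ⟨hv, hv'⟩
      refine ⟨⟨v, hv⟩, ⟨⟨v, hv⟩, Subtype.ext ?_⟩, rfl⟩
      rw [e1_coe]
      change (1 / 2 : ℂ) • (v + D *ᵥ v) = v
      have h2 : D *ᵥ v = v := by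
        have h3 : D *ᵥ v = (1 : ℂ) • v := hv'
        rw [h3, one_smul]
      rw [h2, ← two_smul ℂ v, smul_smul]
      norm_num
    · rintro ⟨_, ⟨u, rfl⟩, rfl⟩
      refine ⟨(e1 (hf D U hU) u).2, ?_⟩
      rw [Submodule.subtype_apply, e1_coe]
      change D *ᵥ ((1 / 2 : ℂ) • ((u : B → ℂ) + D *ᵥ (u : B → ℂ))) = _
      rw [mulVec_smul, mulVec_add, mulVec_mulVec, hD, one_mulVec, one_smul, add_comm]
  rw [h1, Submodule.finrank_map_subtype_eq]

theorem fr_e0 (hD : D * D = 1) : finrank ℂ (LinearMap.range (e0 (hf D U hU))) =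
    finrank ℂ (es (ph B D) U (-1)) := by
  have h1 : es (ph B D) U (-1) = (LinearMap.range (e0 (hf D U hU))).map U.subtype := by
    ext v
    rw [mem_es]
    constructor
    · rintro ⟨hv, hv'⟩
      refine ⟨⟨v, hv⟩, ⟨⟨v, hv⟩, Subtype.ext ?_⟩, rfl⟩
      rw [e0_coe]
      change (1 / 2 : ℂ) • (v - D *ᵥ v) = v
      have h2 : D *ᵥ v = -v := by
        have h3 : D *ᵥ v = (-1 : ℂ) • v := hv'
        rw [h3, neg_one_smul]
      rw [h2, sub_neg_eq_add, ← two_smul ℂ v, smul_smul]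
      norm_num
    · rintro ⟨_, ⟨u, rfl⟩, rfl⟩
      refine ⟨(e0 (hf D U hU) u).2, ?_⟩
      rw [Submodule.subtype_apply, e0_coe]
      change D *ᵥ ((1 / 2 : ℂ) • ((u : B → ℂ) - D *ᵥ (u : B → ℂ))) = _
      rw [mulVec_smul, mulVec_sub, mulVec_mulVec, hD, one_mulVec, neg_one_smul, ← smul_neg, neg_sub]
  rw [h1, Submodule.finrank_map_subtype_eq]

/-- Lifting of an element of rank one. -/
theorem lift_one (hDm : D ∈ TS.LT S) (hD2 : D * D = 1) {e : End ℂ U} (he : e ∈ resL (TS.LT S) U)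
    (hr : rk e = 1) (h1 : e1 (hf D U hU) * e = e) (h0 : e * e0 (hf D U hU) = e) :
    ∃ N ∈ TS.LT S, D * N = N ∧ N * D = -N ∧ finrank ℂ (U.map (mulVecLin N)) = 1 := by
  obtain ⟨X, hX, heX⟩ := he
  have hbr : ∀ X ∈ TS.LT S, ∀ Y ∈ TS.LT S, X * Y - Y * X ∈ TS.LT S := fun X hX Y hY => LT_br hX hY
  refine ⟨_, gup_mem hbr hDm hD2 hX, gup_l hD2 X, gup_r hD2 X, ?_⟩
  rw [finrank_map_res (Y := e) (fun u => ?_), hr]
  have h2 : e u = e1 (hf D U hU) (e (e0 (hf D U hU) u)) := by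
    rw [← Module.End.mul_apply, ← Module.End.mul_apply, h1, h0]
  rw [h2, e1_coe, heX, e0_coe, smul_mulVec, ← mulVec_mulVec, ← mulVec_mulVec, sub_mulVec,
    one_mulVec, add_mulVec, one_mulVec, mulVec_smul, mulVec_smul, ← smul_add, smul_smul]
  norm_num

include hU in
/-- The same for an element of rank one that respects a symplectic form. -/
theorem lift_sp (hDm : D ∈ TS.LT S) (hD2 : D * D = 1) {ω : U →ₗ[ℂ] U →ₗ[ℂ] ℂ}
    (halt : ∀ v, ω v v = 0) (hnd : ∀ u, (∀ v, ω u v = 0) → u = 0)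
    (hsp : ∀ y ∈ resL (TS.LT S) U, ∀ x z, ω (y x) z + ω x (y z) = 0)
    {e : End ℂ U} (he : e ∈ resL (TS.LT S) U) (he1 : rk e = 1) :
    ∃ D', (D' = D ∨ D' = -D) ∧ ∃ N ∈ TS.LT S, D' * N = N ∧ N * D' = -N ∧
      finrank ℂ (U.map (mulVecLin N)) = 1 := by
  obtain ⟨X, hX, heX⟩ := id he
  have hbr : ∀ X ∈ TS.LT S, ∀ Y ∈ TS.LT S, X * Y - Y * X ∈ TS.LT S := fun X hX Y hY => LT_br hX hY
  have hDr : resM D U hU * resM D U hU = 1 := by
    refine LinearMap.ext fun u => Subtype.ext ?_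
    rw [Module.End.mul_apply, resM_coe, resM_coe, mulVec_mulVec, hD2, one_mulVec]
    rfl
  rcases up_or_dn halt hnd hDr (hsp _ ⟨D, hDm, fun u => rfl⟩) (hsp e ⟨X, hX, heX⟩) he1 with
    h5 | h5
  · refine ⟨D, Or.inl rfl, _, gup_mem hbr hDm hD2 hX, gup_l hD2 X, gup_r hD2 X, ?_⟩
    rw [finrank_map_res (Y := (1 / 4 : ℂ) • ((1 + resM D U hU) * e *
      (1 - resM D U hU))) (fun u => ?_), rk_one_of h5 he1]
    rw [smul_mulVec, ← mulVec_mulVec, ← mulVec_mulVec]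
    simp only [LinearMap.smul_apply, Module.End.mul_apply, LinearMap.add_apply,
      LinearMap.sub_apply, Module.End.one_apply, Submodule.coe_smul, Submodule.coe_add,
      Submodule.coe_sub, resM_coe, heX, add_mulVec, sub_mulVec, one_mulVec]
  · have hDm' : -D ∈ TS.LT S := Submodule.neg_mem _ hDm
    have hD2' : -D * -D = 1 := by rw [neg_mul_neg, hD2]
    refine ⟨-D, Or.inr rfl, _, gup_mem hbr hDm' hD2' hX, gup_l hD2' X, gup_r hD2' X, ?_⟩
    rw [finrank_map_res (Y := (1 / 4 : ℂ) • ((1 - resM D U hU) * e *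
      (1 + resM D U hU))) (fun u => ?_), rk_one_of h5 he1]
    rw [smul_mulVec, ← mulVec_mulVec, ← mulVec_mulVec, sub_neg_eq_add, ← sub_eq_add_neg]
    simp only [LinearMap.smul_apply, Module.End.mul_apply, LinearMap.add_apply,
      LinearMap.sub_apply, Module.End.one_apply, Submodule.coe_smul, Submodule.coe_add,
      Submodule.coe_sub, resM_coe, heX, add_mulVec, sub_mulVec, one_mulVec]

end gen

variable {G : ℕ} {Z : Matrix (Fin G) (Fin G) ℂ}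
  {S : Set (Matrix (Fin G ⊕ Fin G) (Fin G ⊕ Fin G) ℂ)}

/-- The conditions for the existence of elements of rank one. -/
def OneC (Z : Matrix (Fin G) (Fin G) ℂ) (U : Submodule ℂ (Fin G ⊕ Fin G → ℂ)) : Prop :=
  finrank ℂ U ≤ 3 ∨
  (∃ b : (Fin G ⊕ Fin G → ℂ) →ₗ[ℂ] (Fin G ⊕ Fin G → ℂ) →ₗ[ℂ] ℂ,
    (∀ X ∈ LZ Z, ∀ u ∈ U, ∀ v ∈ U, b (X *ᵥ u) v + b u (X *ᵥ v) = 0) ∧ (∀ u ∈ U, b u u = 0) ∧
    (∀ u ∈ U, (∀ v ∈ U, b u v = 0) → u = 0) ∧ (finrank ℂ U ≤ 7 ∨ finrank ℂ U % 4 = 2)) ∨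
  (∃ σ : ℂ ≃+* ℂ, Nat.Coprime (pd Z (cjS σ U)) (qd Z (cjS σ U))) ∨
  ((∀ σ : ℂ ≃+* ℂ, pd Z (cjS σ U) = 2 ∧ qd Z (cjS σ U) = 2) ∧
    ∀ b : (Fin G ⊕ Fin G → ℂ) →ₗ[ℂ] (Fin G ⊕ Fin G → ℂ) →ₗ[ℂ] ℂ,
      (∀ X ∈ LZ Z, ∀ u ∈ U, ∀ v ∈ U, b (X *ᵥ u) v + b u (X *ᵥ v) = 0) →
      ∀ u ∈ U, ∀ v ∈ U, b u v = 0)

/-- The conditions on an irreducible submodule. -/
def LocC (Z : Matrix (Fin G) (Fin G) ℂ) (U : Submodule ℂ (Fin G ⊕ Fin G → ℂ)) : Prop :=
  2 ≤ finrank ℂ U → (∀ (σ : ℂ ≃+* ℂ) (c : ℂ), ∃ u ∈ U, DS Z σ *ᵥ u ≠ c • u) ∧ OneC Z U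

namespace TDx

variable (h : TD Z S) (hZ : PM Z)
include h hZ

/-- The traces on a submodule vanish if the multiplicities are equal. -/
theorem trz {U : Submodule ℂ (Fin G ⊕ Fin G → ℂ)} (hU : IrS (LZ Z) U)
    (hpq : ∀ σ : ℂ ≃+* ℂ, pd Z (cjS σ U) = qd Z (cjS σ U)) :
    ∀ y ∈ resL (TS.LT S) U, LinearMap.trace ℂ U y = 0 := by
  have hU' : IrS (TS.LT S) U := (h.irS hZ).2 hU
  obtain ⟨π, h1, h2, h3⟩ := h.cr U hU'.2.1
  -- the trace on the submodule as a trace on the whole space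
  have ht : ∀ (X : Matrix (Fin G ⊕ Fin G) (Fin G ⊕ Fin G) ℂ) (hX : X ∈ TS.LT S) (y : End ℂ U),
      (∀ u : U, ((y u : U) : Fin G ⊕ Fin G → ℂ) = X *ᵥ (u : Fin G ⊕ Fin G → ℂ)) →
      LinearMap.trace ℂ U y = LinearMap.trace ℂ _ (ph (Fin G ⊕ Fin G) X * π) := by
    intro X hX y hy
    have k1 : ∀ v, (ph (Fin G ⊕ Fin G) X * π) v ∈ U := fun v => hU'.2.1 X hX _ (h2 v)
    have k2 : y = (ph (Fin G ⊕ Fin G) X * π).restrict (fun v _ => k1 v) := by
      refine LinearMap.ext fun u => Subtype.ext ?_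
      rw [hy]
      change _ = X *ᵥ (π u)
      rw [h3 u u.2]
    rw [k2]
    exact LinearMap.trace_restrict_eq_of_forall_mem U _ k1
  let C : Submodule ℂ (Matrix (Fin G ⊕ Fin G) (Fin G ⊕ Fin G) ℂ) :=
    { carrier := {X | (∀ w, π (X *ᵥ w) = X *ᵥ π w) ∧
        LinearMap.trace ℂ _ (ph (Fin G ⊕ Fin G) X * π) = 0}
      add_mem' := by
        rintro X Y ⟨hX, hX'⟩ ⟨hY, hY'⟩
        refine ⟨fun w => ?_, ?_⟩
        · rw [add_mulVec, add_mulVec, map_add, hX, hY]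
        · rw [map_add, add_mul, map_add, hX', hY', add_zero]
      zero_mem' := ⟨fun w => by rw [zero_mulVec, zero_mulVec, map_zero], by
        rw [map_zero, zero_mul, map_zero]⟩
      smul_mem' := by
        rintro c X ⟨hX, hX'⟩
        refine ⟨fun w => ?_, ?_⟩
        · rw [smul_mulVec, smul_mulVec, map_smul, hX]
        · rw [map_smul, smul_mul_assoc, map_smul, hX', smul_zero] }
  have hC : TS.LT S ≤ C := by
    refine LT_le (fun D hD => ⟨fun w => h1 D (LT_gen hD) w, ?_⟩) (fun A hA A' hA' => ⟨fun w => ?_, ?_⟩)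
    · obtain ⟨σ, hσ⟩ := h.tr D hD
      obtain ⟨d1, d2⟩ := h.dims hZ hD hσ hU.2.1
      have hDD : ph (Fin G ⊕ Fin G) D * ph (Fin G ⊕ Fin G) D = 1 := by
        rw [← map_mul, h.sq D hD, map_one]
      have e2 := trace_proj hDD h2 h3 (fun v => h1 D (LT_gen hD) v)
      rw [LinearMap.trace_mul_comm, e2, d1, d2, hpq σ.symm, sub_self]
    · rw [sub_mulVec, sub_mulVec, map_sub, ← mulVec_mulVec, ← mulVec_mulVec, ← mulVec_mulVec,
        ← mulVec_mulVec, hA.1, hA'.1, hA'.1, hA.1]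
    · have e1 : π * ph (Fin G ⊕ Fin G) A = ph (Fin G ⊕ Fin G) A * π := LinearMap.ext hA.1
      have e2 : ph (Fin G ⊕ Fin G) (A * A' - A' * A) * π =
          (ph (Fin G ⊕ Fin G) A * ph (Fin G ⊕ Fin G) A') * π -
            ph (Fin G ⊕ Fin G) A' * (π * ph (Fin G ⊕ Fin G) A) := by
        rw [e1, map_sub, map_mul, map_mul, sub_mul, mul_assoc (ph (Fin G ⊕ Fin G) A')]
      rw [e2, map_sub, LinearMap.trace_mul_comm _ (ph (Fin G ⊕ Fin G) A'),
        LinearMap.trace_mul_comm _ _ π]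
      have e3 : π * (ph (Fin G ⊕ Fin G) A * ph (Fin G ⊕ Fin G) A') =
          π * ph (Fin G ⊕ Fin G) A * ph (Fin G ⊕ Fin G) A' := by noncomm_ring
      rw [e3, sub_self]
  rintro y ⟨X, hX, hy⟩
  rw [ht X hX y hy]
  exact (hC hX).2

/-- Elements of rank one. -/
theorem rk1 {U : Submodule ℂ (Fin G ⊕ Fin G → ℂ)} (hU : IrS (LZ Z) U) (hn : 2 ≤ finrank ℂ U)
    (hl : LocC Z U) :
    ∃ D ∈ TS.LT S, D * D = 1 ∧ ∃ N ∈ TS.LT S, D * N = N ∧ N * D = -N ∧
      finrank ℂ (U.map (mulVecLin N)) = 1 := by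
  obtain ⟨hns0, hc⟩ := hl hn
  have hU' : IrS (TS.LT S) U := (h.irS hZ).2 hU
  have hbr : ∀ X ∈ TS.LT S, ∀ Y ∈ TS.LT S, X * Y - Y * X ∈ TS.LT S := fun X hX Y hY => LT_br hX hY
  have hirr := weak_irr h.sq hU'
  have hst : ∀ D ∈ S, ∀ u ∈ U, D *ᵥ u ∈ U := fun D hD u hu => hU'.2.1 D (LT_gen hD) u hu
  have hne : ∀ D (hD : D ∈ S), e1 (hf D U (hst D hD)) ≠ 0 ∧ e0 (hf D U (hst D hD)) ≠ 0 := by
    intro D hD
    have hns := h.nonscalar hZ hD hU.2.1 hns0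
    refine ⟨fun h1 => ?_, fun h1 => ?_⟩
    · obtain ⟨u, hu, hu'⟩ := hns (-1)
      apply hu'
      have h2 := congrArg Subtype.val (LinearMap.congr_fun h1 ⟨u, hu⟩)
      rw [e1_coe] at h2
      have h3 : (2 : ℂ) • ((1 / 2 : ℂ) • (u + D *ᵥ u)) = 0 := by
        have h4 : (1 / 2 : ℂ) • (u + D *ᵥ u) = 0 := h2
        rw [h4, smul_zero]
      rw [smul_smul] at h3
      norm_num at h3
      rw [neg_one_smul]
      exact (neg_eq_of_add_eq_zero_right h3).symm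
    · obtain ⟨u, hu, hu'⟩ := hns 1
      apply hu'
      have h2 := congrArg Subtype.val (LinearMap.congr_fun h1 ⟨u, hu⟩)
      rw [e0_coe] at h2
      have h3 : (2 : ℂ) • ((1 / 2 : ℂ) • (u - D *ᵥ u)) = 0 := by
        have h4 : (1 / 2 : ℂ) • (u - D *ᵥ u) = 0 := h2
        rw [h4, smul_zero]
      rw [smul_smul] at h3
      norm_num at h3
      rw [one_smul]
      exact (sub_eq_zero.1 h3).symm
  rcases hc with h3 | ⟨b, hb, halt, hnd, hdim⟩ | ⟨σ, hσ⟩ | ⟨hpq, hno⟩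
  · obtain ⟨D, hD, -⟩ := h.ex (RingEquiv.refl ℂ)
    have hns := h.nonscalar hZ hD hU.2.1 hns0
    obtain ⟨N, hN, h1, h2, hu⟩ := exists_gup hbr (LT_gen hD) (h.sq D hD) hU' hns
    refine ⟨D, LT_gen hD, h.sq D hD, N, hN, h1, h2, ?_⟩
    have h4 := two_rank_le' (fun u hu => hU'.2.1 N hN u hu) h1 h2
    have h5 : finrank ℂ (U.map (mulVecLin N)) ≠ 0 := by
      obtain ⟨u, hu, hu'⟩ := hu
      intro h0
      have h1 := Submodule.finrank_eq_zero.1 h0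
      have h2 : N *ᵥ u ∈ U.map (mulVecLin N) := ⟨u, hu, rfl⟩
      rw [h1, Submodule.mem_bot] at h2
      exact hu' h2
    omega
  · obtain ⟨D, hD, -⟩ := h.ex (RingEquiv.refl ℂ)
    have hbT := (h.bil_on hZ hU.2.1 hU.2.1 b).2 hb
    let ωU : U →ₗ[ℂ] U →ₗ[ℂ] ℂ := b.compl₁₂ U.subtype U.subtype
    have hωU : ∀ u v : U, ωU u v = b u v := fun _ _ => rfl
    have halt' : ∀ v, ωU v v = 0 := fun v => halt v v.2
    have hnd' : ∀ u, (∀ v, ωU u v = 0) → u = 0 := fun u hu =>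
      Subtype.ext (hnd u u.2 fun v hv => hu ⟨v, hv⟩)
    have hsp : ∀ y ∈ resL (TS.LT S) U, ∀ x z, ωU (y x) z + ωU x (y z) = 0 := by
      rintro y ⟨X, hX, hyX⟩ x z
      rw [hωU, hωU, hyX, hyX]
      exact hbT X hX _ x.2 _ z.2
    obtain ⟨e, he, he1⟩ := one_of_symp halt' hnd' (resL_br hbr U) hsp hirr
      (hf_sq (hst D hD) (h.sq D hD)) (hf_mem (hst D hD) (LT_gen hD)) (by omega) hdim
    obtain ⟨D', hD', N, hN⟩ := lift_sp (hst D hD) (LT_gen hD) (h.sq D hD) halt' hnd' hsp he he1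
    rcases hD' with rfl | rfl
    · exact ⟨_, LT_gen hD, h.sq D' hD, N, hN⟩
    · exact ⟨-D, Submodule.neg_mem _ (LT_gen hD), by rw [neg_mul_neg, h.sq D hD], N, hN⟩
  · obtain ⟨D, hD, hτ⟩ := h.ex σ.symm
    obtain ⟨d1, d2⟩ := h.dims hZ hD hτ hU.2.1
    obtain ⟨e, he, he1, k1, k0⟩ := one_of_coprime (resL_br hbr U) hirr
      (hf_sq (hst D hD) (h.sq D hD)) (hf_mem (hst D hD) (LT_gen hD)) (hne D hD).1 (hne D hD).2 (by
        rw [fr_e1 _ (h.sq D hD), fr_e0 _ (h.sq D hD), d1, d2]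
        exact hσ)
    exact ⟨D, LT_gen hD, h.sq D hD, lift_one (hst D hD) (LT_gen hD) (h.sq D hD) he he1 k1 k0⟩
  · obtain ⟨D, hD, hτ⟩ := h.ex (RingEquiv.refl ℂ)
    obtain ⟨d1, d2⟩ := h.dims hZ hD hτ hU.2.1
    obtain ⟨π, p1, p2, p3⟩ := h.cr U hU'.2.1
    obtain ⟨e, he, he1, k1, k0⟩ := one_of_22 (resL_br hbr U) hirr
      (hf_sq (hst D hD) (h.sq D hD)) (hf_mem (hst D hD) (LT_gen hD)) (by
        rw [fr_e1 _ (h.sq D hD), d1]
        exact (hpq _).1) (by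
        rw [fr_e0 _ (h.sq D hD), d2]
        exact (hpq _).2)
      (trz h hZ hU fun σ => by rw [(hpq σ).1, (hpq σ).2]) (fun b' hb' => by
        let pU : (Fin G ⊕ Fin G → ℂ) →ₗ[ℂ] U := π.codRestrict U p2
        have hpU : ∀ u : U, pU u = u := fun u => Subtype.ext (p3 u u.2)
        have hb : ∀ X ∈ TS.LT S, ∀ u ∈ U, ∀ v ∈ U,
            (b'.compl₁₂ pU pU) (X *ᵥ u) v + (b'.compl₁₂ pU pU) u (X *ᵥ v) = 0 := by
          intro X hX u hu v hv
          have hXU : ∀ u ∈ U, X *ᵥ u ∈ U := fun u hu => hU'.2.1 X hX u hu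
          have h9 := hb' (resM X U hXU) ⟨X, hX, fun _ => rfl⟩ ⟨u, hu⟩ ⟨v, hv⟩
          rw [LinearMap.compl₁₂_apply, LinearMap.compl₁₂_apply]
          have e1' : pU (X *ᵥ u) = resM X U hXU ⟨u, hu⟩ := hpU ⟨_, hXU u hu⟩
          have e2' : pU (X *ᵥ v) = resM X U hXU ⟨v, hv⟩ := hpU ⟨_, hXU v hv⟩
          rw [e1', e2', hpU ⟨u, hu⟩, hpU ⟨v, hv⟩]
          exact h9
        have hz := hno _ ((h.bil_on hZ hU.2.1 hU.2.1 _).1 hb)
        refine LinearMap.ext fun u => LinearMap.ext fun v => ?_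
        have h9 := hz u u.2 v v.2
        rw [LinearMap.compl₁₂_apply, hpU, hpU] at h9
        exact h9)
    exact ⟨D, LT_gen hD, h.sq D hD, lift_one (hst D hD) (LT_gen hD) (h.sq D hD) he he1 k1 k0⟩

/-- Unipotent elements of rank one. -/
theorem unip {U : Submodule ℂ (Fin G ⊕ Fin G → ℂ)} (hU : IrS (LZ Z) U) (hn : 2 ≤ finrank ℂ U)
    (hl : LocC Z U) :
    ∃ γ : Gam (GG (TS.LT S)), (RG (GG (TS.LT S)) γ - 1) * (RG (GG (TS.LT S)) γ - 1) = 0 ∧
      finrank ℂ (U.map (RG (GG (TS.LT S)) γ - 1)) = 1 := by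
  obtain ⟨D, hDm, hDD, N, hN, h1, h2, h3⟩ := rk1 h hZ hU hn hl
  obtain ⟨γ, hγ⟩ := unip_mem (G := GG (TS.LT S)) (D := ph _ D) (N := ph _ N)
    (by rw [← map_mul, hDD, map_one]) (mem_GG.2 hDm) (mem_GG.2 hN)
    (by rw [← map_mul, h1]) (by rw [← map_mul, h2, map_neg])
  have h4 : RG (GG (TS.LT S)) γ - 1 = ph _ N := by
    rw [hγ, add_sub_cancel_left]
  refine ⟨γ, ?_, ?_⟩
  · rw [h4, ← map_mul]
    have h5 : N * N = 0 := by
      have h6 : N * N = -(N * N) := by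
        calc N * N = N * (D * N) := by rw [h1]
          _ = (N * D) * N := by rw [Matrix.mul_assoc]
          _ = -(N * N) := by rw [h2, Matrix.neg_mul]
      have h7 : (2 : ℂ) • (N * N) = 0 := by
        rw [two_smul]
        nth_rewrite 1 [h6]
        rw [neg_add_cancel]
      exact (smul_eq_zero.1 h7).resolve_left two_ne_zero
    rw [h5, map_zero]
  · rw [h4]
    exact h3

end TDx

end

end Pool.Agent.R915
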