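import Mathlib
import Pool.Agent.R915.X2
import Pool.Agent.R915.L2

/-!
# The forms killed by the involutions are killed by the Lie algebra of the period matrix
-/

set_option linter.unusedSectionVars false

namespace Pool.Agent.R915

open Matrix Module Pool.Agent.W437.HC Pool.Agent.W437.HD Pool.Agent.W548.Odd Pool.Agent.W522.U
open Pool.Agent.H204R3.SP Pool.Agent.H204R3.GP Pool.Agent.Y90 Pool.Agent.Y224 Pool.Agent.Y224.TS
open Pool.Agent.W437.HP (cK cK_mul cK_one)

noncomputable section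

section rot

variable {B κ : Type*} [Fintype B] [DecidableEq B] [Fintype κ] [DecidableEq κ]

theorem act_of_rotC {J : Matrix B B ℂ} {c : (κ → B) → ℂ}
    (h : ∀ (θ : ℂ) (x : κ → B → ℂ),
      evalF c (fun k => Complex.cos θ • x k + Complex.sin θ • (J *ᵥ x k)) = evalF c x) :
    act J c = 0 := by
  apply eq_zero_of_evalF
  intro x
  rw [evalF_act]
  have h1 : HasDerivAt (fun θ : ℂ =>
      evalF c (fun k => Complex.cos θ • x k + Complex.sin θ • (J *ᵥ x k)))
      (∑ I, c I * ∑ k, (∏ l ∈ Finset.univ.erase k, (Complex.cos 0 * x l (I l) +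
        Complex.sin 0 * (J *ᵥ x l) (I l))) • (-Complex.sin 0 * x k (I k) +
          Complex.cos 0 * (J *ᵥ x k) (I k))) 0 := by
    unfold evalF
    refine HasDerivAt.fun_sum fun I _ => ?_
    refine HasDerivAt.const_mul _ ?_
    refine HasDerivAt.fun_finsetProd fun k _ => ?_
    exact ((Complex.hasDerivAt_cos 0).mul_const _).add ((Complex.hasDerivAt_sin 0).mul_const _)
  have h2 : HasDerivAt (fun θ : ℂ =>
      evalF c (fun k => Complex.cos θ • x k + Complex.sin θ • (J *ᵥ x k))) 0 0 := by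
    have h3 : (fun θ : ℂ => evalF c (fun k => Complex.cos θ • x k + Complex.sin θ • (J *ᵥ x k))) =
        fun _ => evalF c x := by
      funext θ
      exact h θ x
    rw [h3]
    exact hasDerivAt_const _ _
  have h3 := h1.unique h2
  rw [← h3]
  unfold evalF
  rw [Finset.sum_comm]
  refine Finset.sum_congr rfl fun I _ => ?_
  rw [Finset.mul_sum]
  refine Finset.sum_congr rfl fun k _ => ?_
  rw [← Finset.mul_prod_erase _ _ (Finset.mem_univ k), Function.update_self]
  have h2 : ∏ l ∈ Finset.univ.erase k, Function.update x k (J *ᵥ (x k)) l (I l) =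
      ∏ l ∈ Finset.univ.erase k, x l (I l) := by
    refine Finset.prod_congr rfl fun l hl => ?_
    rw [Function.update_of_ne (Finset.ne_of_mem_erase hl)]
  rw [h2]
  simp only [Complex.cos_zero, Complex.sin_zero, one_mul, zero_mul, add_zero, neg_zero, zero_add,
    smul_eq_mul]
  ring

end rot

variable {G : ℕ} {Z : Matrix (Fin G) (Fin G) ℂ}
  {S : Set (Matrix (Fin G ⊕ Fin G) (Fin G ⊕ Fin G) ℂ)}

/-- The forms invariant under the one-parameter groups. -/
def NT (Z : Matrix (Fin G) (Fin G) ℂ) (κ : Type) :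
    Submodule ℂ (MultilinearMap ℂ (fun _ : κ => Fin G ⊕ Fin G → ℂ) ℂ) where
  carrier := {F | ∀ (σ : ℂ ≃+* ℂ) (z : ℂˣ) v,
    F (fun k => torE (ph (Fin G ⊕ Fin G) (DS Z σ)) z (v k)) = F v}
  add_mem' := fun {F F'} hF hF' σ z v => by
    change F _ + F' _ = F v + F' v
    rw [hF, hF']
  zero_mem' := fun σ z v => rfl
  smul_mem' := fun c F hF σ z v => by
    change c • F _ = c • F v
    rw [hF]

theorem clo_NT : Clo (fun (κ : Type) [Finite κ] => NT Z κ) := by
  constructor
  · intro κ _ _ F σ z v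
    congr 1
    exact Subsingleton.elim _ _
  · intro κ κ' κ'' _ _ _ e φ φ' ψ hφ hφ' hψ σ z v
    rw [hψ, hψ, hφ σ z, hφ' σ z]

/-- Invariant forms are killed. -/
theorem kills_of_NT {κ : Type} [Fintype κ] [DecidableEq κ]
    {F : MultilinearMap ℂ (fun _ : κ => Fin G ⊕ Fin G → ℂ) ℂ} (hF : F ∈ NT Z κ) :
    ∀ X ∈ LZ Z, act X (CF F) = 0 := by
  have h1 : ∀ σ : ℂ ≃+* ℂ, act (DS Z σ) (CF F) = 0 := by
    intro σ
    have h2 : act (Complex.I • DS Z σ) (CF F) = 0 := by
      apply act_of_rotC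
      intro θ x
      rw [← CF_eval, ← CF_eval]
      rw [← hF σ (Units.mk0 (Complex.exp (θ * Complex.I)) (Complex.exp_ne_zero _)) x]
      congr 1
      funext k
      unfold torE
      have e1 : (Complex.exp (θ * Complex.I) + (Complex.exp (θ * Complex.I))⁻¹) / 2 =
          Complex.cos θ := by
        rw [← Complex.exp_neg, Complex.cos]
        congr 2
        ring_nf
      have e2 : (Complex.exp (θ * Complex.I) - (Complex.exp (θ * Complex.I))⁻¹) / 2 =
          Complex.I * Complex.sin θ := by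
        rw [← Complex.exp_neg, Complex.sin]
        have h3 : -(θ * Complex.I) = -θ * Complex.I := by ring
        rw [h3]
        linear_combination (-(Complex.exp (-θ * Complex.I) - Complex.exp (θ * Complex.I)) / 2) *
          Complex.I_sq
      rw [Units.val_mk0, e1, e2]
      change Complex.cos θ • x k + Complex.sin θ • ((Complex.I • DS Z σ) *ᵥ x k) =
        Complex.cos θ • x k + (Complex.I * Complex.sin θ) • (DS Z σ *ᵥ x k)
      rw [smul_mulVec, smul_smul, mul_comm]
    rw [act_smul_left] at h2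
    exact (smul_eq_zero.1 h2).resolve_left Complex.I_ne_zero
  let C : Submodule ℂ (Matrix (Fin G ⊕ Fin G) (Fin G ⊕ Fin G) ℂ) :=
    { carrier := {X | act X (CF F) = 0}
      add_mem' := fun {X Y} hX hY => by
        change act (X + Y) _ = 0
        rw [act_add_left, show act X (CF F) = 0 from hX, show act Y (CF F) = 0 from hY, add_zero]
      zero_mem' := act_zero_left _
      smul_mem' := fun c X hX => by
        change act (c • X) _ = 0
        rw [act_smul_left, show act X (CF F) = 0 from hX, smul_zero] }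
  have hC : LZ Z ≤ C := LZ_le h1 fun A hA C' hC' => act_bracket hA hC'
  exact fun X hX => hC hX

/-- The determinant of the one-parameter group. -/
theorem det_tor (hZ : PM Z) {U : Submodule ℂ (Fin G ⊕ Fin G → ℂ)} (hU : Stab (LZ Z) U)
    (σ : ℂ ≃+* ℂ) (z : ℂˣ)
    (hst : ∀ u ∈ U, torE (ph (Fin G ⊕ Fin G) (DS Z σ)) z u ∈ U) :
    LinearMap.det ((torE (ph (Fin G ⊕ Fin G) (DS Z σ)) z).restrict hst) =
      (z : ℂ) ^ tr Z (cjS σ.symm U) := by
  obtain ⟨e6, e7⟩ := fr_DS (Z := Z) σ U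
  have hUS : ∀ u ∈ U, ph (Fin G ⊕ Fin G) (DS Z σ) u ∈ U := fun u hu => hU _ (DS_mem σ) u hu
  obtain ⟨h3, h4⟩ := es_split (phDS_sq hZ σ) hUS
  have hz : (z : ℂ) ≠ 0 := z.ne_zero
  have h5 := det_eig h3 h4 (torE (ph (Fin G ⊕ Fin G) (DS Z σ)) z) hst z (z : ℂ)⁻¹ (fun u hu => ?_)
    (fun u hu => ?_)
  · rw [h5, e6, e7, tr, zpow_sub₀ hz, zpow_natCast, zpow_natCast, inv_pow, div_eq_mul_inv]
  · have h6 := (mem_es.1 hu).2
    unfold torE
    rw [LinearMap.add_apply, LinearMap.smul_apply, LinearMap.smul_apply, Module.End.one_apply, h6]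
    module
  · have h6 := (mem_es.1 hu).2
    unfold torE
    rw [LinearMap.add_apply, LinearMap.smul_apply, LinearMap.smul_apply, Module.End.one_apply, h6]
    module

theorem torE_stab {U : Submodule ℂ (Fin G ⊕ Fin G → ℂ)} (hU : Stab (LZ Z) U) (σ : ℂ ≃+* ℂ)
    (z : ℂˣ) : ∀ u ∈ U, torE (ph (Fin G ⊕ Fin G) (DS Z σ)) z u ∈ U := by
  intro u hu
  unfold torE
  rw [LinearMap.add_apply, LinearMap.smul_apply, LinearMap.smul_apply, Module.End.one_apply]
  exact U.add_mem (U.smul_mem _ hu) (U.smul_mem _ (hU _ (DS_mem σ) u hu))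

variable (h : TD Z S) (hZ : PM Z) (hs : ∀ U, IrS (LZ Z) U → LocC Z U)
include h hZ hs

/-- Invariant forms. -/
theorem tinv_mem {m : ℕ}
    (φ : MultilinearMap ℂ (fun _ : Fin m × Fin 2 => Fin G ⊕ Fin G → ℂ) ℂ)
    (hφ : ∀ (g : Gam (GG (TS.LT S))) v, φ (fun k => RG (GG (TS.LT S)) g (v k)) = φ v) :
    φ ∈ NT Z (Fin m × Fin 2) := by
  have hSI : ∀ {U}, W522.U.SI (RG (GG (TS.LT S))) U ↔ IrS (LZ Z) U := fun {U} => h.si hZ
  have hp := gz_proj h.genI h.cr
  obtain ⟨s, W, hW, hWW, hall⟩ := exists_reps hp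
  obtain ⟨st, hst, hDu, hDu'⟩ := exists_st (χ := 1) hp (om G) om_nd (h.om' hZ) W hW hWW hall
  refine forms_mem' (χ := 1) (fun Δ hΔ => fi_top Δ hΔ) (om G) om_nd (h.om' hZ) ?_ ?_ ?_ hp
    W hW hWW hall st hst hDu hDu' (fun κ _ => NT Z κ) clo_NT ?_ ?_ φ ?_
  · intro U hU hn
    exact TDx.unip h hZ (hSI.1 hU) hn (hs U (hSI.1 hU))
  · intro U hU hn
    exact h.line hZ (hSI.1 hU) hn
  · intro U U' hU hU' hn _ ψ hT
    exact h.twist hZ (hSI.1 hU) (hs U (hSI.1 hU) hn).1 ψ hT
  · intro b hb σ z v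
    have h1 : ∀ X ∈ LZ Z, ∀ u v, b (X *ᵥ u) v + b u (X *ᵥ v) = 0 :=
      (h.bil b (fun X hX => hZ.om_sp hX)).1 fun X hX u v =>
        (gz_bil h.genI stab_top stab_top b).1 (fun g u _ v _ => by
          rw [hb, MonoidHom.one_apply, one_mul]) X hX u trivial v trivial
    have h2 := (rz_bil hZ stab_top stab_top b).2 (fun X hX u _ v _ => h1 X hX u v)
      (gt (phDS_sq hZ σ) (phDS_mem σ) z) (v 0) trivial (v 1) trivial
    exact h2
  · intro a ha hag ι _ _ f p hp ψ hψ σ z v
    have key : ∀ (U : Submodule ℂ (Fin G ⊕ Fin G → ℂ)) (q : (Fin G ⊕ Fin G → ℂ) →ₗ[ℂ] U),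
        (∀ g x, (q (RG (GG (TS.LT S)) g x) : Fin G ⊕ Fin G → ℂ) = RG (GG (TS.LT S)) g (q x)) →
        ∀ x, (q (torE (ph (Fin G ⊕ Fin G) (DS Z σ)) z x) : Fin G ⊕ Fin G → ℂ) =
          torE (ph (Fin G ⊕ Fin G) (DS Z σ)) z (q x) := by
      intro U q hq x
      have h1 := (gz_equiv h.genI stab_top (U.subtype.comp q)).1 (fun g u _ => hq g u)
      have h2 := (h.eqv (U.subtype.comp q)).1 fun X hX w => h1 X hX w trivial
      exact (rz_equiv hZ stab_top (U.subtype.comp q)).2 (fun X hX u _ => h2 X hX u)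
        (gt (phDS_sq hZ σ) (phDS_mem σ) z) x trivial
    have hWs : ∀ i, Stab (LZ Z) (W i) := fun i => (hSI.1 (hW i)).2.1
    have h3 : ∀ q : (Σ i, Fin (a i).toNat),
        (f q).det (fun y => p q y (torE (ph (Fin G ⊕ Fin G) (DS Z σ)) z (v ⟨q, y⟩))) =
        (z : ℂ) ^ tr Z (cjS σ.symm (W q.1)) * (f q).det (fun y => p q y (v ⟨q, y⟩)) := by
      intro q
      rw [← det_tor hZ (hWs q.1) σ z (torE_stab (hWs q.1) σ z), ← Basis.det_comp]
      congr 1
      funext y
      apply Subtype.ext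
      rw [key _ _ (hp q y)]
      rfl
    rw [hψ, hψ, Finset.prod_congr rfl fun q _ => h3 q, Finset.prod_mul_distrib]
    -- the exponent
    have htr := h.tr_of_det hZ W (fun i => hSI.1 (hW i)) a hag σ.symm
    have hz : (z : ℂ) ≠ 0 := z.ne_zero
    have h4 : ∀ t : Finset (Σ i, Fin (a i).toNat), ∏ q ∈ t, (z : ℂ) ^ tr Z (cjS σ.symm (W q.1)) =
        (z : ℂ) ^ ∑ q ∈ t, tr Z (cjS σ.symm (W q.1)) := by
      intro t
      induction t using Finset.induction_on with
      | empty => simp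
      | insert i t hi ih => rw [Finset.prod_insert hi, Finset.sum_insert hi, ih, zpow_add₀ hz]
    have h5 : ∑ q : (Σ i, Fin (a i).toNat), tr Z (cjS σ.symm (W q.1)) = 0 := by
      have e0 : ∑ q : (Σ i, Fin (a i).toNat), tr Z (cjS σ.symm (W q.1)) =
          ∑ i, ((a i).toNat : ℤ) * tr Z (cjS σ.symm (W i)) := by
        rw [Fintype.sum_sigma]
        refine Finset.sum_congr rfl fun i _ => ?_
        change ∑ _y : Fin (a i).toNat, tr Z (cjS σ.symm (W i)) = _
        rw [Finset.sum_const, Finset.card_univ, Fintype.card_fin, nsmul_eq_mul]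
      have e1 : ∑ i, a i * tr Z (cjS σ.symm (W i)) =
          ∑ i, ((a i).toNat : ℤ) * tr Z (cjS σ.symm (W i)) -
          ∑ i, ((-a i).toNat : ℤ) * tr Z (cjS σ.symm (W i)) := by
        rw [← Finset.sum_sub_distrib]
        refine Finset.sum_congr rfl fun i _ => ?_
        rw [← sub_mul]
        congr 1
        omega
      have e2 : ∑ i, ((-a i).toNat : ℤ) * tr Z (cjS σ.symm (W i)) =
          -∑ i, ((a i).toNat : ℤ) * tr Z (cjS σ.symm (W i)) := by
        let stE : Equiv.Perm (Fin s) := ⟨st, st, hst, hst⟩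
        rw [← Equiv.sum_comp stE, ← Finset.sum_neg_distrib]
        refine Finset.sum_congr rfl fun i _ => ?_
        change ((-a (st i)).toNat : ℤ) * tr Z (cjS σ.symm (W (st i))) = _
        rw [ha, neg_neg, tr_st hZ (hSI.1 (hW i)) (hSI.1 (hW (st i)))
          ((h.du hZ (hWs i) (hWs (st i))).1 (hDu i)) σ.symm]
        ring
      rw [e0]
      rw [e1, e2] at htr
      linarith
    rw [h4, h5, zpow_zero, one_mul]
  · refine ⟨⊤, inferInstance, fun g _ v => ?_⟩
    rw [MonoidHom.one_apply, one_pow, one_mul]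
    exact hφ g v

/-- **The forms killed by the involutions are killed by the Lie algebra of the period matrix.** -/
theorem kills_LZ {κ : Type} [Fintype κ] [DecidableEq κ]
    (φ : MultilinearMap ℂ (fun _ : κ => Fin G ⊕ Fin G → ℂ) ℂ)
    (hφ : ∀ D ∈ S, Kills (ph (Fin G ⊕ Fin G) D) φ) : ∀ X ∈ LZ Z, act X (CF φ) = 0 := by
  have hinv : ∀ (g : Gam (GG (TS.LT S))) v, φ (fun k => RG (GG (TS.LT S)) g (v k)) = φ v := by
    intro g v
    refine inv_gam φ (fun D hD _ => ?_) g v
    obtain ⟨X, hX, rfl⟩ := exists_GG hD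
    exact kills_LT hφ hX
  rcases Nat.even_or_odd (Fintype.card κ) with he | ho
  · obtain ⟨m, hm⟩ := he
    have e : κ ≃ Fin m × Fin 2 := Fintype.equivOfCardEq (by
      rw [Fintype.card_prod, Fintype.card_fin, Fintype.card_fin, hm]
      ring)
    have h1 := tinv_mem h hZ hs (φ.domDomCongr e) (fun g v => by
      rw [MultilinearMap.domDomCongr_apply, MultilinearMap.domDomCongr_apply]
      exact hinv g _)
    have h2 : φ ∈ NT Z κ := (clo_NT (Z := Z)).reindex e.symm h1 φ fun v => by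
      rw [MultilinearMap.domDomCongr_apply]
      congr 1
      funext k
      simp
    exact kills_of_NT h2
  · have h0 : φ = 0 := by
      refine MultilinearMap.ext fun v => ?_
      obtain ⟨D, hDS, -⟩ := h.ex (RingEquiv.refl ℂ)
      have hDD : ph (Fin G ⊕ Fin G) D * ph (Fin G ⊕ Fin G) D = 1 := by
        rw [← map_mul, h.sq D hDS, map_one]
      have hDm : ph (Fin G ⊕ Fin G) D ∈ GG (TS.LT S) := mem_GG.2 (LT_gen hDS)
      have h1 := hinv (gt hDD hDm (-1)) v
      have h2 : (fun k => RG (GG (TS.LT S)) (gt hDD hDm (-1)) (v k)) =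
          fun k => (-1 : ℂ) • v k := by
        funext k
        change torE (ph _ D) (-1) (v k) = _
        rw [torE_apply]
        simp only [Units.val_neg, Units.val_one, inv_neg, inv_one]
        module
      rw [h2, MultilinearMap.map_smul_univ, Finset.prod_const, Finset.card_univ,
        Odd.neg_one_pow ho, neg_one_smul] at h1
      have h3 : φ v = 0 := by linear_combination (-1 / 2 : ℂ) * h1
      rw [h3]
      rfl
    have h1 : φ ∈ NT Z κ := by
      rw [h0]
      exact Submodule.zero_mem _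
    exact kills_of_NT h1

end

end Pool.Agent.R915
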