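import Mathlib
import Pool.Agent.R915.X3
import Pool.Agent.R915.G5
import Pool.Agent.Y224.TS.D8

/-!
# Tate classes are combinations of Hodge classes
-/

set_option linter.unusedSectionVars false

namespace Pool.Agent.R915

open Matrix Module Pool.Agent.W437.HC Pool.Agent.W437.HD Pool.Agent.W548.Odd Pool.Agent.W522.U
open Pool.Agent.H204R3.SP Pool.Agent.H204R3.GP Pool.Agent.Y90 Pool.Agent.Y224 Pool.Agent.Y224.TS
open Pool.Agent.W437.HP (cK cK_mul cK_one)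
open Pool.Agent.H204R3.CM (IsHodge)
open Pool.Agent.TH504.CB (isHodge_comp)
open TensorProduct

noncomputable section

section fac

variable {G : ℕ} {Z : Matrix (Fin G) (Fin G) ℂ} {a : ℕ} {Z' : Matrix (Fin a) (Fin a) ℂ}
  {E : Matrix (Fin G ⊕ Fin G) (Fin a ⊕ Fin a) ℚ} {F : Matrix (Fin a ⊕ Fin a) (Fin G ⊕ Fin G) ℚ}
  {U : Submodule ℂ (Fin G ⊕ Fin G → ℂ)}

theorem pq_fac (hf : Fac Z Z' E F) (hi : ∀ u ∈ U, ml F u = 0 → u = 0) (hU : IrS (LZ Z) U)
    (σ : ℂ ≃+* ℂ) : pd Z' (cjS σ (U.map (ml F))) = pd Z (cjS σ U) ∧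
      qd Z' (cjS σ (U.map (ml F))) = qd Z (cjS σ U) := by
  have hi' := inj_cj hi σ
  have hU' : Stab (LZ Z) (cjS σ U) := (hU.cj gal_LZ σ).2.1
  have key : ∀ c : ℂ, finrank ℂ ((cjS σ U ⊓ eig Z c).map (ml F)) =
      finrank ℂ (cjS σ U ⊓ eig Z c : Submodule ℂ (Fin G ⊕ Fin G → ℂ)) := fun c =>
    finrank_ml (U := cjS σ U ⊓ eig Z c) fun u hu => hi' u hu.1
  unfold pd qd
  rw [cjS_ml, ← hf.eig_map hi' hU', ← hf.eig_map hi' hU', key, key]
  exact ⟨rfl, rfl⟩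

/-- The conditions on an irreducible submodule from those on its image in a factor. -/
theorem loc_fac (hf : Fac Z Z' E F) (hU : IrS (LZ Z) U) (hi : ∀ u ∈ U, ml F u = 0 → u = 0)
    (hl : LocC Z' (U.map (ml F))) : LocC Z U := by
  intro hn
  have hfr := finrank_ml (F := F) hi
  obtain ⟨hns, hc⟩ := hl (by rw [hfr]; exact hn)
  refine ⟨fun σ c => ?_, ?_⟩
  · obtain ⟨u', ⟨u, hu, rfl⟩, hu'⟩ := hns σ c
    refine ⟨u, hu, fun h3 => hu' ?_⟩
    have h4 := hf.act (DS_mem σ) u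
    rw [h3, hf.fds, Matrix.mul_assoc, hf.fe', Matrix.mul_one] at h4
    rw [← h4, map_smul]
  · rcases hc with h3 | ⟨b, hb, halt, hnd, hdim⟩ | ⟨σ, hσ⟩ | ⟨hpq, hno⟩
    · exact Or.inl (by rwa [hfr] at h3)
    · refine Or.inr (Or.inl ⟨b.compl₁₂ (ml F) (ml F), fun X hX u hu v hv => ?_, fun u hu => ?_,
        fun u hu hu' => ?_, by rwa [hfr] at hdim⟩)
      · rw [LinearMap.compl₁₂_apply, LinearMap.compl₁₂_apply, hf.act hX, hf.act hX]
        exact hb _ (hf.comp hX).1 _ ⟨u, hu, rfl⟩ _ ⟨v, hv, rfl⟩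
      · exact halt _ ⟨u, hu, rfl⟩
      · refine hi u hu (hnd _ ⟨u, hu, rfl⟩ ?_)
        rintro _ ⟨v, hv, rfl⟩
        exact hu' v hv
    · refine Or.inr (Or.inr (Or.inl ⟨σ, ?_⟩))
      rw [← (pq_fac hf hi hU σ).1, ← (pq_fac hf hi hU σ).2]
      exact hσ
    · refine Or.inr (Or.inr (Or.inr ⟨fun σ => ?_, fun b hb u hu v hv => ?_⟩))
      · rw [← (pq_fac hf hi hU σ).1, ← (pq_fac hf hi hU σ).2]
        exact hpq σ
      · obtain ⟨g, hg⟩ := LinearMap.exists_leftInverse_of_injective ((ml F).domRestrict U) (by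
          rw [LinearMap.ker_eq_bot, injective_iff_map_eq_zero]
          intro u hu
          exact Subtype.ext (hi u u.2 hu))
        have hgu : ∀ u (hu : u ∈ U), g (ml F u) = ⟨u, hu⟩ := fun u hu =>
          LinearMap.congr_fun hg ⟨u, hu⟩
        have h9 := hno (b.compl₁₂ (U.subtype.comp g) (U.subtype.comp g)) (by
          rintro Y hY _ ⟨u, hu, rfl⟩ _ ⟨v, hv, rfl⟩
          obtain ⟨X, hX, rfl⟩ := hf.lift hY
          rw [← hf.act hX, ← hf.act hX]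
          simp only [LinearMap.compl₁₂_apply, LinearMap.comp_apply]
          rw [hgu u hu, hgu v hv, hgu _ (hU.2.1 X hX u hu), hgu _ (hU.2.1 X hX v hv)]
          exact hb X hX u hu v hv) _ ⟨u, hu, rfl⟩ _ ⟨v, hv, rfl⟩
        simp only [LinearMap.compl₁₂_apply, LinearMap.comp_apply] at h9
        rw [hgu u hu, hgu v hv] at h9
        exact h9

end fac

section tate

variable {K : Type} [Field K] [CharZero K] [Algebra K ℂ] {Γ : Type} [Group Γ]

/-- **Tate classes are combinations of Hodge classes**, if the local conditions are satisfied. -/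
theorem tate_hodge [Algebra.IsAlgebraic K ℂ] (X : AV) {E : X.H → X.H → ℚ}
    {ρ : Representation K Γ (K ⊗[ℚ] X.H)} {χ : Γ →* K}
    (hs : ∀ (a : ℕ) (Z' : Matrix (Fin a) (Fin a) ℂ) (h' : PM Z') (i : (AVZ h').H →ₗ[ℚ] X.H),
      IsHom (AVZ h') X i → Function.Injective i → IsSimple (AVZ h') → 0 < a →
      ∀ U, IrS (LZ Z') U → LocC Z' U)
    (hE : St.IsPolarization X.per E) (hρ : St.IsTateModule X.per E ρ χ) {κ : Type} [Finite κ]
    {m : ℕ} (hκ : Nat.card κ = 2 * m) (φ : (K ⊗[ℚ] X.H) [⋀^κ]→ₗ[K] K)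
    (hφ : ∃ Δ : Subgroup Γ, Δ.FiniteIndex ∧ ∀ g ∈ Δ, ∀ v : κ → K ⊗[ℚ] X.H,
      φ (fun k => ρ g (v k)) = χ g ^ m * φ v) :
    ∃ (n : ℕ) (c : Fin n → K) (f : Fin n → (X.H [⋀^κ]→ₗ[ℚ] ℚ)),
      (∀ j, IsHodge X.per (f j)) ∧
        ∀ v : κ → X.H, φ (fun k => (1 : K) ⊗ₜ[ℚ] v k) = ∑ j, c j * ((f j v : ℚ) : K) := by
  classical
  obtain ⟨G, Z, hZ, b, hC, hb⟩ := exists_ppav' (AV.isAV X) hE
  have hfacX : ∀ (a : ℕ) (Z' : Matrix (Fin a) (Fin a) ℂ) (h' : PM Z')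
      (E : Matrix (Fin G ⊕ Fin G) (Fin a ⊕ Fin a) ℚ) (F : Matrix (Fin a ⊕ Fin a) (Fin G ⊕ Fin G) ℚ),
      Fac Z Z' E F → ∃ i : (AVZ h').H →ₗ[ℚ] X.H, IsHom (AVZ h') X i ∧ Function.Injective i := by
    intro a Z' h' E F hfac
    obtain ⟨Ψ₁, h₁⟩ := h'.cht.hom hC (R := E) (by rw [DJ_JR, DJ_JR]; exact hfac.de.symm)
    refine ⟨b.equivFun.symm.toLinearMap.comp (Matrix.mulVecLin E), ⟨Ψ₁, fun v => h₁ v⟩, ?_⟩
    intro x y hxy
    have h2 : E *ᵥ x = E *ᵥ y := b.equivFun.symm.injective hxy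
    have h3 := congrArg (fun v => F *ᵥ v) h2
    beta_reduce at h3
    rw [mulVec_mulVec, mulVec_mulVec, hfac.fe, one_mulVec, one_mulVec] at h3
    exact h3
  have hloc : ∀ U, IrS (LZ Z) U → LocC Z U := by
    intro U hU
    obtain ⟨a, Z', E', F, hf, h', hs', ha, h0⟩ := exists_fac hZ hU.1
    have hinj := hf.inj hU h0
    obtain ⟨i, hi1, hi2⟩ := hfacX a Z' h' E' F hf
    exact loc_fac hf hU hinj (hs a Z' h' i hi1 hi2 (simple_of a h' hs' ha) ha _ (hf.irr hU h0))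
  have hTD : TD Z (SH X.per ρ χ b) := td_of b hb hC hρ
  obtain ⟨Ψ₂, h₂⟩ := hC.hom hZ.cht (R := 1) (by rw [cK_one, Matrix.one_mul, Matrix.mul_one])
  have e₂ : ∀ v, Ψ₂ (X.per v) = perOne Z (b.equivFun v) := fun v => by
    have h3 := h₂ (b.equivFun v)
    have h4 : (X.per.comp b.equivFun.symm.toLinearMap.toAddMonoidHom) (b.equivFun v) = X.per v := by
      change X.per (b.equivFun.symm (b.equivFun v)) = X.per v
      rw [LinearEquiv.symm_apply_apply]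
    rwa [h4, one_mulVec] at h3
  -- the form in the standard variables
  let _ : Fintype κ := Fintype.ofFinite κ
  have e : κ ≃ Fin m × Fin 2 := Fintype.equivOfCardEq (by
    rw [← Nat.card_eq_fintype_card, hκ, Fintype.card_prod, Fintype.card_fin, Fintype.card_fin,
      mul_comm])
  let φ' : MultilinearMap K (fun _ : Fin m × Fin 2 => K ⊗[ℚ] X.H) K :=
    φ.toMultilinearMap.domDomCongr e
  have hφ' : ∀ v, φ' v = φ (fun k => v (e k)) := fun v => rfl
  have hT : IsTate ρ χ m φ' := by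
    obtain ⟨Δ, hΔ, h⟩ := hφ
    refine ⟨Δ, hΔ, fun s hs v => ?_⟩
    rw [hφ', hφ']
    exact h s hs (fun k => v (e k))
  have halt : ∀ (σ : Equiv.Perm (Fin m × Fin 2)) v,
      φ' (fun k => v (σ k)) = ((Equiv.Perm.sign σ : ℤ) : K) * φ' v := by
    intro σ v
    have h1 : φ' (fun k => v (σ k)) = (φ.domDomCongr e) (v ∘ σ) := rfl
    have h2 : φ' v = (φ.domDomCongr e) v := rfl
    rw [h1, h2, AlternatingMap.map_perm, Units.smul_def, zsmul_eq_mul]
  have h1 := kills_LZ hTD hZ hloc (FC b φ') (FC_kills b φ' hT)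
  obtain ⟨m', c', l', hl'⟩ := altQ_expand (FC b φ')
  have hH : ∀ j, IsHodge (perOne Z) (ratA (FC b φ') (l' j)) := fun j =>
    hZ.cht.hodge_rat gal_LZ (by rw [DJ_JR]; exact DZ_mem) h1 (l' j)
  -- descent
  let S : Set ((Fin m × Fin 2 → (AVZ hZ).H) → K) :=
    {s | ∃ r : (AVZ hZ).H [⋀^Fin m × Fin 2]→ₗ[ℚ] ℚ, IsHodge (perOne Z) r ∧
      s = fun v => ((r v : ℚ) : K)}
  have h3 : (fun v : Fin m × Fin 2 → (AVZ hZ).H =>
      φ' (fun k => (1 : K) ⊗ₜ[ℚ] b.equivFun.symm (v k))) ∈ Submodule.span K S := by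
    refine span_descent_k (Ω := ℂ) S _ ?_
    have h5 : (fun v : Fin m × Fin 2 → (AVZ hZ).H =>
        algebraMap K ℂ (φ' (fun k => (1 : K) ⊗ₜ[ℚ] b.equivFun.symm (v k)))) =
        ∑ j, ((Fintype.card (Equiv.Perm (Fin m × Fin 2)) : ℂ)⁻¹ * c' j) •
          (fun v : Fin m × Fin 2 → (AVZ hZ).H =>
            algebraMap K ℂ ((ratA (FC b φ') (l' j) v : ℚ) : K)) := by
      funext v
      have h4 := FC_alt b φ' halt v
      rw [hl'] at h4
      have h6 : (Fintype.card (Equiv.Perm (Fin m × Fin 2)) : ℂ) ≠ 0 := by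
        exact_mod_cast Fintype.card_ne_zero
      rw [Finset.sum_apply]
      have h7 : ∀ j, (((Fintype.card (Equiv.Perm (Fin m × Fin 2)) : ℂ)⁻¹ * c' j) •
          (fun v : Fin m × Fin 2 → (AVZ hZ).H =>
            algebraMap K ℂ ((ratA (FC b φ') (l' j) v : ℚ) : K))) v =
          (Fintype.card (Equiv.Perm (Fin m × Fin 2)) : ℂ)⁻¹ *
            (c' j * ((ratA (FC b φ') (l' j) v : ℚ) : ℂ)) := by
        intro j
        rw [Pi.smul_apply, smul_eq_mul, map_ratCast, mul_assoc]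
      rw [Finset.sum_congr rfl fun j _ => h7 j, ← Finset.mul_sum]
      refine Eq.trans ?_ (congrArg (fun z => (Fintype.card (Equiv.Perm (Fin m × Fin 2)) : ℂ)⁻¹ * z)
        h4.symm)
      beta_reduce
      rw [← mul_assoc, inv_mul_cancel₀ h6, one_mul]
    rw [h5]
    exact Submodule.sum_mem _ fun j _ => Submodule.smul_mem _ _
      (Submodule.subset_span ⟨_, ⟨_, hH j, rfl⟩, rfl⟩)
  obtain ⟨n, c, s, hs'⟩ := Submodule.mem_span_set'.1 h3
  choose r hr hr' using fun j => (s j).2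
  refine ⟨n, c, fun j => ((r j).domDomCongr e.symm).compLinearMap b.equivFun.toLinearMap,
    fun j => ?_, fun v => ?_⟩
  · exact isHodge_comp b.equivFun.toLinearMap Ψ₂ e₂ (isHodge_congr e.symm (hr j))
  · have h4 := congrFun hs' (fun k => b.equivFun (v (e.symm k)))
    beta_reduce at h4
    rw [hφ'] at h4
    have h5 : (fun k => (1 : K) ⊗ₜ[ℚ] b.equivFun.symm (b.equivFun (v (e.symm (e k))))) =
        fun k => (1 : K) ⊗ₜ[ℚ] v k := by
      funext k
      rw [LinearEquiv.symm_apply_apply, Equiv.symm_apply_apply]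
    rw [h5] at h4
    rw [← h4, Finset.sum_apply]
    refine Finset.sum_congr rfl fun j _ => ?_
    rw [Pi.smul_apply, smul_eq_mul, hr' j]
    rfl

end tate

end

end Pool.Agent.R915
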