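import Mathlib
import Pool.Agent.R915.X2
import Pool.Agent.R915.E9
import Pool.Agent.R915.M2
import Pool.Agent.R915.V6

/-!
# The local conditions for several classes of simple abelian varieties
-/

set_option linter.unusedSectionVars false

namespace Pool.Agent.R915

open Matrix Module Pool.Agent.W437.HC Pool.Agent.W437.HD Pool.Agent.W548.Odd
open Pool.Agent.Y90 Pool.Agent.Y224 Pool.Agent.Y224.TS Polynomial
open Pool.Agent.W437.HP (cK cK_mul cK_one)
open Pool.Agent.Y126.OT (e1 e0)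
open scoped ComplexOrder

noncomputable section

/-- The endomorphism algebra is of Albert type I or II, and the relative dimension is odd or two. -/
def RealOdd (Y : AV) : Prop :=
  ∃ (a : Module.End ℚ Y.H) (r : ℕ), RealMax Y a ∧ (Odd r ∨ r = 2) ∧
    finrank ℚ Y.H = 2 * r * (minpoly ℚ a).natDegree

/-- The endomorphism algebra of `Y` is the imaginary quadratic field generated by `h = √-d`, and the
multiplicities of the two square roots of `-d` as eigenvalues of `h` on the tangent space are coprime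
or both equal to two. -/
def QuadTate (Y : AV) (d : ℚ) (h : Y.H →ₗ[ℚ] Y.H) : Prop :=
  EndQuad Y d h ∧ ∃ m n, Multiplicities Y d h m n ∧ (m.Coprime n ∨ (m = 2 ∧ n = 2))

variable {g : ℕ} {Z : Matrix (Fin g) (Fin g) ℂ}

theorem finrank_sup_le {t : Finset ℂ} (W : ℂ → Submodule ℂ (Fin g ⊕ Fin g → ℂ)) :
    finrank ℂ (t.sup W : Submodule ℂ (Fin g ⊕ Fin g → ℂ)) ≤ ∑ z ∈ t, finrank ℂ (W z) := by
  classical
  induction t using Finset.induction_on with
  | empty => simp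
  | insert z t hz ih =>
    rw [Finset.sup_insert, Finset.sum_insert hz]
    exact (Submodule.finrank_add_le_finrank_add_finrank _ _).trans (Nat.add_le_add_left ih _)

/-- The dimension of the eigenspaces. -/
theorem VE_dim (h : PM Z) (hs : IsSimpleAV Z)
    {M : Matrix (Fin g ⊕ Fin g) (Fin g ⊕ Fin g) ℚ} (hM : qm M * DZ Z = DZ Z * qm M) {θ : ℂ}
    (hne : VE M θ ≠ ⊥) : 2 * g ≤ (minpoly ℚ M).natDegree * finrank ℂ (VE M θ) := by
  classical
  have hMint : IsIntegral ℚ M := Algebra.IsIntegral.isIntegral M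
  have hspan' : ⨆ σ : ℂ ≃+* ℂ, VE M (σ θ) = ⊤ := by
    rw [← conj_span h hs (VE_stab hM θ) hne]
    exact iSup_congr fun σ => (VE_cj M θ σ).symm
  obtain ⟨w, hw, hw0⟩ := Submodule.exists_mem_ne_zero_of_ne_bot hne
  have hroot : aeval θ (minpoly ℚ M) = 0 := by
    have h1 := aeval_eig (mem_VE.1 hw) (minpoly ℚ M)
    rw [minpoly.aeval, qm_zero, zero_mulVec] at h1
    exact (smul_eq_zero.1 h1.symm).resolve_right hw0
  let t : Finset ℂ := ((minpoly ℚ M).aroots ℂ).toFinset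
  have ht : ∀ σ : ℂ ≃+* ℂ, σ θ ∈ t := by
    intro σ
    rw [Multiset.mem_toFinset, mem_aroots]
    exact ⟨minpoly.ne_zero hMint, root_conj hroot σ⟩
  have hcard : t.card ≤ (minpoly ℚ M).natDegree := by
    refine (Multiset.toFinset_card_le _).trans ?_
    refine (Polynomial.card_roots' _).trans ?_
    rw [Polynomial.natDegree_map]
  have htop : t.sup (VE M) = ⊤ := by
    rw [eq_top_iff, ← hspan']
    exact iSup_le fun σ => Finset.le_sup (f := VE M) (ht σ)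
  have hle : ∀ z ∈ t, finrank ℂ (VE M z) ≤ finrank ℂ (VE M θ) := by
    intro z _
    by_cases hz : VE M z = ⊥
    · rw [hz, finrank_bot]
      exact Nat.zero_le _
    · obtain ⟨v, hv, hv0⟩ := Submodule.exists_mem_ne_zero_of_ne_bot hz
      obtain ⟨σ, hσ⟩ := eig_conj h hs hM hw0 (mem_VE.1 hw) hv0 (mem_VE.1 hv)
      rw [← hσ, ← VE_cj, finrank_cjS]
  have h1 := finrank_sup_le (g := g) (t := t) (VE M)
  rw [htop, finrank_top, finrank_fintype_fun_eq_card, Fintype.card_sum, Fintype.card_fin] at h1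
  calc 2 * g = g + g := by ring
    _ ≤ ∑ z ∈ t, finrank ℂ (VE M z) := h1
    _ ≤ ∑ z ∈ t, finrank ℂ (VE M θ) := Finset.sum_le_sum hle
    _ = t.card * finrank ℂ (VE M θ) := by rw [Finset.sum_const, smul_eq_mul]
    _ ≤ _ := Nat.mul_le_mul_right _ hcard

/-- The symplectic form on the irreducible submodules in the case of Albert type I or II. -/
theorem RF.form (h : PM Z) (hs : IsSimpleAV Z) (hg : 0 < g)
    {M : Matrix (Fin g ⊕ Fin g) (Fin g ⊕ Fin g) ℚ} (k : RF Z M) {r : ℕ}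
    (hd : 2 * g = 2 * r * (minpoly ℚ M).natDegree)
    {U : Submodule ℂ (Fin g ⊕ Fin g → ℂ)} (hU : IrS (LZ Z) U) :
    finrank ℂ U = 2 * r ∧ ∃ b : (Fin g ⊕ Fin g → ℂ) →ₗ[ℂ] (Fin g ⊕ Fin g → ℂ) →ₗ[ℂ] ℂ,
      (∀ X ∈ LZ Z, ∀ u ∈ U, ∀ v ∈ U, b (X *ᵥ u) v + b u (X *ᵥ v) = 0) ∧ (∀ u ∈ U, b u u = 0) ∧
      (∀ u ∈ U, (∀ v ∈ U, b u v = 0) → u = 0) := by
  obtain ⟨θ, hθ, hdim, hproj⟩ := VE_main h hs hg k.comm
  obtain ⟨σ, T, hT, hi, hTU⟩ := hproj U hU
  have hU' := irS_map hU hT hi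
  have hW := k.irr h hs (θ := σ θ) (fun h1 => hU'.1 (by rwa [h1, le_bot_iff] at hTU))
  have hreal : cc (σ θ) = σ θ := k.real _ (root_conj hθ σ)
  have h1 : U.map T = VE M (σ θ) := (hW.2.2 _ hTU hU'.2.1).resolve_left hU'.1
  have hfr : finrank ℂ U = finrank ℂ (VE M (σ θ)) := by
    rw [← h1]
    have h2 := LinearMap.finrank_range_of_inj (f := T.domRestrict U) (by
      rw [injective_iff_map_eq_zero]
      intro u hu
      exact Subtype.ext (hi u u.2 hu))
    rw [← h2, LinearMap.range_domRestrict]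
  have hfr' : finrank ℂ (VE M (σ θ)) = finrank ℂ (VE M θ) := by
    rw [← VE_cj, finrank_cjS]
  have hlow := VE_dim h hs k.comm hW.1
  rw [hfr'] at hlow
  have hdeg : 0 < (minpoly ℚ M).natDegree := by
    by_contra h2
    have h3 : (minpoly ℚ M).natDegree = 0 := by omega
    rw [h3] at hd
    omega
  have hVE : finrank ℂ (VE M θ) = 2 * r := by
    have h2 : (minpoly ℚ M).natDegree * finrank ℂ (VE M θ) = (minpoly ℚ M).natDegree * (2 * r) := by
      have h3 : (minpoly ℚ M).natDegree * (2 * r) = 2 * g := by rw [hd]; ring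
      omega
    exact Nat.eq_of_mul_eq_mul_left hdeg h2
  refine ⟨by rw [hfr, hfr', hVE], (om g).compl₁₂ T T, fun X hX u hu v hv => ?_, fun u _ => ?_,
    fun u hu hu' => ?_⟩
  · rw [LinearMap.compl₁₂_apply, LinearMap.compl₁₂_apply, hT X hX u hu, hT X hX v hv]
    exact h.om_sp hX _ _
  · rw [LinearMap.compl₁₂_apply, om_self]
  · have h0 : ∃ u ∈ VE M (σ θ), ∃ v ∈ VE M (σ θ), om g u v ≠ 0 := by
      obtain ⟨w, hw, hw0⟩ := Submodule.exists_mem_ne_zero_of_ne_bot hW.1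
      refine ⟨cnj w, ?_, DZ Z *ᵥ w, hW.2.1 _ DZ_mem w hw, fun h0 => ?_⟩
      · have h5 : cjS cc (VE M (σ θ)) = VE M (σ θ) := by
          rw [VE_cj, hreal]
        rw [← h5]
        change (fun i => cc.symm (cnj w i)) ∈ VE M (σ θ)
        have h6 : (fun i => cc.symm (cnj w i)) = w := cnj_cnj w
        rwa [h6]
      · have h5 := h.herm_pos hw0
        rw [h0, mul_zero] at h5
        exact lt_irrefl _ h5
    have hb : ∀ X ∈ LZ Z, ∀ u ∈ VE M (σ θ), ∀ v ∈ VE M (σ θ),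
        om g (X *ᵥ u) v + om g u (X *ᵥ v) = 0 := fun X hX u _ v _ => h.om_sp hX u v
    refine hi u hu (nd_left hW hW.2.1 h0 hb (T u) (by rw [← h1]; exact ⟨u, hu, rfl⟩) ?_)
    rw [← h1]
    rintro _ ⟨v, hv, rfl⟩
    exact hu' v hv

theorem par {r : ℕ} (hr : Odd r ∨ r = 2) : 2 * r ≤ 7 ∨ 2 * r % 4 = 2 := by
  rcases hr with ⟨s, rfl⟩ | rfl
  · right
    omega
  · left
    norm_num

/-- The local conditions: Albert types I and II. -/
theorem RF.loc (h : PM Z) (hs : IsSimpleAV Z) (hg : 0 < g)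
    {M : Matrix (Fin g ⊕ Fin g) (Fin g ⊕ Fin g) ℚ} (k : RF Z M) {r : ℕ} (hr : Odd r ∨ r = 2)
    (hd : 2 * g = 2 * r * (minpoly ℚ M).natDegree)
    {U : Submodule ℂ (Fin g ⊕ Fin g → ℂ)} (hU : IrS (LZ Z) U) : LocC Z U := by
  intro _
  obtain ⟨h1, b, hb1, hb2, hb3⟩ := k.form h hs hg hd hU
  refine ⟨ns_of_sdu h (k.sdu h hs hg hU), Or.inr (Or.inl ⟨b, hb1, hb2, hb3, ?_⟩)⟩
  rw [h1]
  exact par hr

/-- The Lie algebra is generated by the conjugates of the complex structure. -/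
theorem LT_DS (Z : Matrix (Fin g) (Fin g) ℂ) : TS.LT (Set.range (DS Z)) = LZ Z := by
  apply le_antisymm
  · refine LT_le ?_ fun A hA C hC => LZ_br hA hC
    rintro _ ⟨σ, rfl⟩
    exact DS_mem σ
  · exact LZ_le (fun σ => LT_gen ⟨σ, rfl⟩) fun A hA C hC => LT_br hA hC

/-- Elements of rank one: Albert types I and II. -/
theorem RF.rk1o (h : PM Z) (hs : IsSimpleAV Z) (hg : 0 < g)
    {M : Matrix (Fin g ⊕ Fin g) (Fin g ⊕ Fin g) ℚ} (k : RF Z M) {r : ℕ} (hr : Odd r ∨ r = 2)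
    (hd : 2 * g = 2 * r * (minpoly ℚ M).natDegree)
    {U : Submodule ℂ (Fin g ⊕ Fin g → ℂ)} (hU : IrS (LZ Z) U) : Rk1 Z U := by
  obtain ⟨h1, b, hb1, hb2, hb3⟩ := k.form h hs hg hd hU
  have hD2 : DZ Z * DZ Z = 1 := DZ_sq h.det
  have hst : ∀ u ∈ U, DZ Z *ᵥ u ∈ U := fun u hu => hU.2.1 _ DZ_mem u hu
  have hDm : DZ Z ∈ TS.LT (Set.range (DS Z)) := by rw [LT_DS]; exact DZ_mem
  have hirr := weak_irr (S := Set.range (DS Z)) (by
    rintro _ ⟨σ, rfl⟩
    exact DS_sq h.det σ) (U := U) (by rw [LT_DS]; exact hU)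
  have hbr : ∀ X ∈ TS.LT (Set.range (DS Z)), ∀ Y ∈ TS.LT (Set.range (DS Z)),
      X * Y - Y * X ∈ TS.LT (Set.range (DS Z)) := fun X hX Y hY => LT_br hX hY
  let ωU : U →ₗ[ℂ] U →ₗ[ℂ] ℂ := b.compl₁₂ U.subtype U.subtype
  have hωU : ∀ u v : U, ωU u v = b u v := fun _ _ => rfl
  have halt' : ∀ v, ωU v v = 0 := fun v => hb2 v v.2
  have hnd' : ∀ u, (∀ v, ωU u v = 0) → u = 0 := fun u hu =>
    Subtype.ext (hb3 u u.2 fun v hv => hu ⟨v, hv⟩)
  have hsp : ∀ y ∈ resL (TS.LT (Set.range (DS Z))) U, ∀ x z, ωU (y x) z + ωU x (y z) = 0 := by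
    rintro y ⟨X, hX, hyX⟩ x z
    rw [hωU, hωU, hyX, hyX]
    rw [LT_DS] at hX
    exact hb1 X hX _ x.2 _ z.2
  have hr0 : 0 < r := by
    rw [Nat.pos_iff_ne_zero]
    rintro rfl
    rcases hr with hr | hr
    · exact absurd hr (by decide)
    · omega
  obtain ⟨e, he, he1⟩ := one_of_symp halt' hnd' (resL_br hbr U) hsp hirr
    (hf_sq hst hD2) (hf_mem hst hDm) (by omega) (by rw [h1]; exact par hr)
  obtain ⟨D', hD', N, hN, hN'⟩ := lift_sp hst hDm hD2 halt' hnd' hsp he he1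
  rw [LT_DS] at hN
  exact ⟨D', hD', N, hN, hN'⟩

variable (h : PM Z)

theorem minpoly_mat (a : Module.End ℚ (Fin g ⊕ Fin g → ℚ)) :
    minpoly ℚ (LinearMap.toMatrix' a) = minpoly ℚ a := by
  let e : Matrix (Fin g ⊕ Fin g) (Fin g ⊕ Fin g) ℚ ≃ₐ[ℚ] Module.End ℚ (Fin g ⊕ Fin g → ℚ) :=
    Matrix.toLinAlgEquiv'
  have hea : e (LinearMap.toMatrix' a) = a := Matrix.toLin'_toMatrix' a
  have h4 := minpoly.algEquiv_eq e (LinearMap.toMatrix' a)
  rw [hea] at h4
  exact h4.symm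

theorem RealOdd.loc (hs : IsSimple (AVZ h)) (hg : 0 < g) (k : RealOdd (AVZ h))
    {U : Submodule ℂ (Fin g ⊕ Fin g → ℂ)} (hU : IrS (LZ Z) U) : LocC Z U := by
  obtain ⟨a, r, ha, hr, hd⟩ := k
  rw [finrank_AVZ] at hd
  exact (ha.rf h).loc h (simple_AVZ h hs) hg hr (by rw [minpoly_mat]; exact hd) hU

theorem RealOdd.lc (hs : IsSimple (AVZ h)) (hg : 0 < g) (k : RealOdd (AVZ h))
    {U : Submodule ℂ (Fin g ⊕ Fin g → ℂ)} (hU : IrS (LZ Z) U) : LC h U := by
  obtain ⟨a, r, ha, hr, hd⟩ := k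
  rw [finrank_AVZ] at hd
  exact (ha.rf h).lc h (simple_AVZ h hs) hg hU
    ((ha.rf h).rk1o h (simple_AVZ h hs) hg hr (by rw [minpoly_mat]; exact hd) hU)

include h in
/-- The local conditions in dimension at most three. -/
theorem loc_small (hs : IsSimpleAV Z) (hg3 : g ≤ 3)
    {U : Submodule ℂ (Fin g ⊕ Fin g → ℂ)} (hU : IrS (LZ Z) U) : LocC Z U := by
  intro hn
  refine ⟨fun σ c => Pool.Agent.Y90.nonscalar h hs hg3 hU hn σ c, ?_⟩
  by_cases h3 : finrank ℂ U ≤ 3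
  · exact Or.inl h3
  have hdvd := finrank_dvd h hs hU
  have hle : finrank ℂ U ≤ 2 * g := by
    have h1 := Submodule.finrank_le U
    rw [finrank_fintype_fun_eq_card, Fintype.card_sum, Fintype.card_fin] at h1
    omega
  have hn2 : finrank ℂ U = 2 * g := by
    obtain ⟨k, hk⟩ := hdvd
    have hk1 : k < 2 := by
      by_contra hk2
      push Not at hk2
      have : finrank ℂ U * 2 ≤ finrank ℂ U * k := Nat.mul_le_mul_left _ hk2
      omega
    have hk0 : k ≠ 0 := by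
      rintro rfl
      omega
    have hk2 : k = 1 := by omega
    rw [hk2] at hk
    omega
  have htop : U = ⊤ := Submodule.eq_top_of_finrank_eq (by
    rw [hn2, finrank_fintype_fun_eq_card, Fintype.card_sum, Fintype.card_fin]
    ring)
  refine Or.inr (Or.inl ⟨om g, fun X hX u _ v _ => h.om_sp hX u v, fun u _ => om_self u,
    fun u _ hu => om_nd u fun v => hu v (by rw [htop]; trivial), Or.inl (by omega)⟩)

theorem loc_cm (hs : IsSimple (AVZ h)) (hg : 0 < g) (k : HasCMult (AVZ h))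
    {U : Submodule ℂ (Fin g ⊕ Fin g → ℂ)} (hU : IrS (LZ Z) U) : LocC Z U := by
  intro hn
  have h1 := line_of_comm (comm_of_cm h (simple_AVZ h hs) hg k) hU
  omega

section quad

variable {φ : Matrix (Fin g ⊕ Fin g) (Fin g ⊕ Fin g) ℚ} {d : ℚ}

include h in
/-- The local conditions from the multiplicities. -/
theorem QF.locC (q : QF Z φ d) {α : ℂ} (hα : α * α = -(d : ℂ))
    {U : Submodule ℂ (Fin g ⊕ Fin g → ℂ)} (hU : IrS (LZ Z) U)
    (hm : ∀ v, v ∈ U ↔ qm φ *ᵥ v = α • v)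
    (hc : Nat.Coprime (pd Z U) (qd Z U) ∨ (pd Z U = 2 ∧ qd Z U = 2)) : LocC Z U := by
  intro h2
  refine ⟨q.nonscalar h hα hm hU h2, ?_⟩
  rcases hc with hc | ⟨hp, hq⟩
  · refine Or.inr (Or.inr (Or.inl ⟨RingEquiv.refl ℂ, ?_⟩))
    have h3 : cjS (RingEquiv.refl ℂ) U = U := by
      ext v
      rw [mem_cjS]
      rfl
    rw [h3]
    exact hc
  · refine Or.inr (Or.inr (Or.inr ⟨fun σ => ?_, fun b hb => q.no_bil h hα hm hU.1 b hb⟩))
    rcases aut_pm hα σ with h3 | h3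
    · have h4 : cjS σ U = U := by
        ext v
        rw [q.cj_mem hα hm, h3, ← hm]
      rw [h4]
      exact ⟨hp, hq⟩
    · have h4 : cjS σ U = cjS cc U := by
        ext v
        rw [q.cj_mem hα hm, h3, q.cj_mem hα hm (σ := cc), q.cc_root hα]
      rw [h4, pd_cc, qd_cc]
      exact ⟨hq, hp⟩

end quad

/-- The multiplicities on the tangent space. -/
theorem mult_pq {d : ℚ} {f : (AVZ h).H →ₗ[ℚ] (AVZ h).H} (q : QF Z (LinearMap.toMatrix' f) d)
    {Ψ : (AVZ h).T →ₗ[ℂ] (AVZ h).T} (hΨ : ∀ v, Ψ ((AVZ h).per v) = (AVZ h).per (f v))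
    {α : ℂ} (hα : α * α = -(d : ℂ)) {U : Submodule ℂ (Fin g ⊕ Fin g → ℂ)}
    (hm : ∀ v, v ∈ U ↔ qm (LinearMap.toMatrix' f) *ᵥ v = α • v) :
    pd Z U = finrank ℂ (LinearMap.ker (Ψ - α • LinearMap.id)) ∧
      qd Z U = finrank ℂ (LinearMap.ker (Ψ + α • LinearMap.id)) := by
  have hΨ' : ∀ v, Ψ (perOne Z v) = perOne Z (LinearMap.toMatrix' f *ᵥ v) := by
    intro v
    have h2 := hΨ v
    have h3 : LinearMap.toMatrix' f *ᵥ v = f v := by
      rw [← Matrix.toLin'_apply, Matrix.toLin'_toMatrix']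
    rw [h3]
    exact h2
  have h4 : Ψ - (-α) • LinearMap.id = Ψ + α • LinearMap.id := by
    refine LinearMap.ext fun v => ?_
    simp only [LinearMap.sub_apply, LinearMap.add_apply, LinearMap.smul_apply]
    module
  have h1 := pd_sig h q.comm hΨ' α hm
  have h3 := pd_sig h q.comm hΨ' (-α) (U := cjS cc U) (fun v => by
    rw [q.cj_mem hα hm, q.cc_root hα])
  rw [pd_cc, h4] at h3
  exact ⟨h1, h3⟩

/-- The local conditions for imaginary quadratic multiplication. -/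
theorem QuadTate.loc {d : ℚ} {f : (AVZ h).H →ₗ[ℚ] (AVZ h).H} (k : QuadTate (AVZ h) d f)
    {U : Submodule ℂ (Fin g ⊕ Fin g → ℂ)} (hU : IrS (LZ Z) U) : LocC Z U := by
  obtain ⟨k, m, n, ⟨Ψ, s, hΨ, hs, hm', hn'⟩, hmn⟩ := k
  have q := k.qf h
  obtain ⟨α, hα, hm⟩ := q.exists_root h hU
  obtain ⟨h1, h2⟩ := mult_pq h q hΨ hα hm
  refine q.locC h hα hU hm ?_
  rw [h1, h2]
  rcases mul_self_eq_mul_self_iff.1 (hα.trans hs.symm) with rfl | rfl
  · rw [hm', hn']
    exact hmn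
  · have h4 : Ψ - (-s) • LinearMap.id = Ψ + s • LinearMap.id := by
      refine LinearMap.ext fun v => ?_
      simp only [LinearMap.sub_apply, LinearMap.add_apply, LinearMap.smul_apply]
      module
    have h5 : Ψ + (-s) • LinearMap.id = Ψ - s • LinearMap.id := by
      refine LinearMap.ext fun v => ?_
      simp only [LinearMap.sub_apply, LinearMap.add_apply, LinearMap.smul_apply]
      module
    rw [h4, h5, hm', hn']
    rcases hmn with h6 | ⟨h6, h7⟩
    · exact Or.inl h6.symm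
    · exact Or.inr ⟨h7, h6⟩

/-- The local conditions for imaginary quadratic multiplication with small multiplicities. -/
theorem QuadMult.loc (k : QuadMult (AVZ h)) (h6 : g ≠ 6)
    {U : Submodule ℂ (Fin g ⊕ Fin g → ℂ)} (hU : IrS (LZ Z) U) : LocC Z U := by
  obtain ⟨d, f, k, ⟨Ψ, hΨ, hsig⟩, -⟩ := k
  have q := k.qf h
  obtain ⟨α, hα, hm⟩ := q.exists_root h hU
  obtain ⟨h1, h2⟩ := mult_pq h q hΨ hα hm
  have h3 := hsig α hα
  have h4 := hsig (-α) (by rw [neg_mul_neg]; exact hα)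
  have h5 : Ψ - (-α) • LinearMap.id = Ψ + α • LinearMap.id := by
    refine LinearMap.ext fun v => ?_
    simp only [LinearMap.sub_apply, LinearMap.add_apply, LinearMap.smul_apply]
    module
  rw [h5, ← h2] at h4
  rw [← h1] at h3
  intro hn
  have hns := q.nonscalar h hα hm hU hn
  have hp := pd_pos h hU.2.1 (hns (RingEquiv.refl ℂ))
  have hq := qd_pos h hU.2.1 (hns (RingEquiv.refl ℂ))
  have hpq := pd_add_qd h hU.2.1
  rw [q.dim h hα hm hU.1] at hpq
  refine q.locC h hα hU hm ?_ hn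
  by_cases h22 : pd Z U = 2 ∧ qd Z U = 2
  · exact Or.inr h22
  left
  have : (pd Z U = 1) ∨ (qd Z U = 1) ∨ (pd Z U = 2 ∧ qd Z U = 3) ∨
    (pd Z U = 3 ∧ qd Z U = 2) := by omega
  rcases this with h6 | h6 | ⟨h6, h7⟩ | ⟨h6, h7⟩
  · rw [h6]
    exact Nat.coprime_one_left _
  · rw [h6]
    exact Nat.coprime_one_right _
  · rw [h6, h7]
    decide
  · rw [h6, h7]
    decide

end

end Pool.Agent.R915
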