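import Mathlib
import Pool.Agent.R915.X4
import Pool.Agent.R915.X5
import Pool.Agent.R915.V7
import Pool.Agent.R915.U5

/-!
# Tate classes on products of abelian varieties
-/

set_option linter.unusedSectionVars false

namespace Pool.Agent.R915

open Module Pool.Agent.Y90 Pool.Agent.Y224.TS TensorProduct
open Pool.Agent.H204R3.CM (IsHodge)
open Pool.Agent.W547.KB (CMPair CMAV)

noncomputable section

/-- `φ` is a Tate class of degree `2 m`: an alternating form on the Tate module on which a subgroup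
of finite index acts through the `m`-th power of the cyclotomic character. -/
def IsTateForm {H K Γ : Type} [AddCommGroup H] [Module ℚ H] [Field K] [CharZero K] [Group Γ]
    (ρ : Representation K Γ (K ⊗[ℚ] H)) (χ : Γ →* K) {κ : Type}
    (φ : (K ⊗[ℚ] H) [⋀^κ]→ₗ[K] K) (m : ℕ) : Prop :=
  Nat.card κ = 2 * m ∧ ∃ Δ : Subgroup Γ, Δ.FiniteIndex ∧ ∀ g ∈ Δ, ∀ v : κ → K ⊗[ℚ] H,
    φ (fun k => ρ g (v k)) = χ g ^ m * φ v

/-- The form `φ` on the Tate module is a linear combination of classes with the property `P`. -/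
def CombOf {H K : Type} [AddCommGroup H] [Module ℚ H] [Field K] [CharZero K] {κ : Type}
    (P : (H [⋀^κ]→ₗ[ℚ] ℚ) → Prop) (φ : (K ⊗[ℚ] H) [⋀^κ]→ₗ[K] K) : Prop :=
  ∃ (n : ℕ) (c : Fin n → K) (f : Fin n → (H [⋀^κ]→ₗ[ℚ] ℚ)), (∀ j, P (f j)) ∧
    ∀ v : κ → H, φ (fun k => (1 : K) ⊗ₜ[ℚ] v k) = ∑ j, c j * ((f j v : ℚ) : K)

section hodge

/-- The result for a complex multiplication part in independent blocks, with the Albert types I and
II of odd relative dimension. -/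
theorem blocks_all' (𝒜 : Sys) (X : AV)
    (hX : ∀ Y, IsFactor Y X → finrank ℚ Y.H ≤ 6 ∨ HasCMult Y ∨ QuadMult Y ∨ RealOdd Y ∨
      FullHodge Y)
    (C : CMAV) {J : Type} (b : C.I → J) (hC : Pool.Agent.W547.UB.IndependentBlocks C b)
    (h1 : ∀ Y, IsFactor Y X → HasCMult Y → ∃ i, IsOfType Y (C.factor i))
    (h2 : ∀ (Y E : AV) (d : ℚ), IsFactor Y X → ¬ HasCMult Y → Unbalanced Y d →
      finrank ℚ E.H = 2 → Unbalanced E d → ∃ i, IsOfType E (C.factor i)) :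
    𝒜.AllHodge X := by
  refine main_cm 𝒜 X (fun a Z' h' i hi hinj hsim ha => ?_) fun Q _ _ a Z' h' hc =>
    prod_blocks 𝒜 hC h' fun q => ?_
  · by_cases hcm : HasCMult (AVZ h')
    · exact Or.inr hcm
    refine Or.inl ⟨hcm, fun U hU => ?_⟩
    rcases hX (AVZ h') ⟨hsim, i, hi, hinj⟩ with k | k | k | k | k
    · exact SmallDim.lc h' hsim ha ⟨k, fun h1 => absurd h1 hcm⟩ hU
    · exact absurd k hcm
    · exact k.lc h' hU
    · exact k.lc h' hsim ha hU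
    · exact k.lc h' hsim ha hU
  · obtain ⟨h3, h4, h5 | ⟨h5, d, h6, Y', hY', hn, h7⟩⟩ := hc q
    · exact h1 _ h5 h4
    · exact h2 Y' _ d hY' hn h7 h5 h6

/-- The reduction to complex multiplication and to Weil classes. -/
theorem weil_all (𝒜 : Sys) (X : AV) (𝒬 : (Y : AV) → ℚ → (Y.H →ₗ[ℚ] Y.H) → Prop)
    (hX : ∀ Y, IsFactor Y X → finrank ℚ Y.H ≤ 6 ∨ HasCMult Y ∨ RealOdd Y ∨ FullHodge Y ∨
      ∃ d h, QuadFull Y d h ∧ 𝒬 Y d h)
    (H1 : ∀ (Q : Type) [Fintype Q] [DecidableEq Q] (a : Q → ℕ)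
      (Z' : ∀ q, Matrix (Fin (a q)) (Fin (a q)) ℂ) (h' : ∀ q, PM (Z' q)),
      (∀ q, CMFactor X (AVZ (h' q))) → 𝒜.AllHodge (AVQ h'))
    (H2 : ∀ (Y X' : AV) (d : ℚ) (h : Y.H →ₗ[ℚ] Y.H), IsSimple Y → 𝒬 Y d h →
      ¬ QuadMult Y → WeilExt Y d h X' → 𝒜.AllWeil X') : 𝒜.AllHodge X := by
  refine main_weil 𝒜 X (fun a Z' h' i hi hinj hsim ha => ?_) H1
  by_cases hcm : HasCMult (AVZ h')
  · exact Or.inr hcm
  refine Or.inl ⟨hcm, fun U hU => ?_⟩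
  rcases hX _ ⟨hsim, i, hi, hinj⟩ with k | k | k | k | ⟨d, f, k, kq⟩
  · exact (SmallDim.lc h' hsim ha ⟨k, fun h1 => absurd h1 hcm⟩ hU).lcy 𝒜
  · exact absurd k hcm
  · exact (k.lc h' hsim ha hU).lcy 𝒜
  · exact (k.lc h' hsim ha hU).lcy 𝒜
  · by_cases hq : QuadMult (AVZ h')
    · exact (hq.lc h' hU).lcy 𝒜
    refine k.lcy h' 𝒜 (fun W α hkw hd => ?_) hU
    have hext := ext_of h' hd hsim hkw rfl
    rw [Matrix.toLin'_toMatrix'] at hext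
    exact H2 (AVZ h') _ d f hsim kq hq hext

/-- The complex multiplication part from codimension two. -/
theorem cm_part (𝒜 : Sys)
    (H4 : ∀ X : AV, (∀ Y, IsFactor Y X → HasCMult Y) → ∀ f : X.H [⋀^Fin 4]→ₗ[ℚ] ℚ,
      IsHodge X.per f → 𝒜.A X (Fin 4) f) (X : AV) (Q : Type) [Fintype Q] [DecidableEq Q] (a : Q → ℕ)
      (Z' : ∀ q, Matrix (Fin (a q)) (Fin (a q)) ℂ) (h' : ∀ q, PM (Z' q))
      (hc : ∀ q, CMFactor X (AVZ (h' q))) : 𝒜.AllHodge (AVQ h') := by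
  refine cm_all 𝒜 H4 _ fun Y hY => ?_
  obtain ⟨q, e, he, hes⟩ := factor_prod h' (fun q => (hc q).1) hY
  exact (hc q).2.1.iso e he hes

theorem QuadTate.full {Y : AV} {d : ℚ} {h : Y.H →ₗ[ℚ] Y.H} (k : QuadTate Y d h) :
    QuadFull Y d h := by
  obtain ⟨k1, m, n, h1, h2 | ⟨rfl, rfl⟩⟩ := k
  · exact ⟨k1, Or.inl ⟨m, n, h1, Or.inl h2⟩⟩
  · exact ⟨k1, Or.inl ⟨2, 2, h1, Or.inr ⟨by norm_num, by norm_num⟩⟩⟩

end hodge

section tate

variable {K : Type} [Field K] [CharZero K] [Algebra K ℂ] [Algebra.IsAlgebraic K ℂ] {Γ : Type}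
  [Group Γ] (X : AV) {E : X.H → X.H → ℚ} {ρ : Representation K Γ (K ⊗[ℚ] X.H)} {χ : Γ →* K}

/-- Tate classes are combinations of Hodge classes. -/
theorem tate_class
    (hX : ∀ Y, IsFactor Y X → finrank ℚ Y.H ≤ 6 ∨ HasCMult Y ∨ RealOdd Y ∨
      (QuadMult Y ∧ finrank ℚ Y.H ≠ 12) ∨ ∃ d h, QuadTate Y d h)
    (hE : St.IsPolarization X.per E) (hρ : St.IsTateModule X.per E ρ χ) {κ : Type} [Finite κ]
    {m : ℕ} {φ : (K ⊗[ℚ] X.H) [⋀^κ]→ₗ[K] K} (hφ : IsTateForm ρ χ φ m) :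
    CombOf (IsHodge X.per) φ := by
  refine tate_hodge X (fun a Z' h' i hi hinj hsim ha U hU => ?_) hE hρ hφ.1 φ hφ.2
  rcases hX _ ⟨hsim, i, hi, hinj⟩ with k | k | k | k | ⟨d, f, k⟩
  · rw [finrank_AVZ] at k
    exact loc_small h' (simple_AVZ h' hsim) (by omega) hU
  · exact loc_cm h' hsim ha k hU
  · exact k.loc h' hsim ha hU
  · refine k.1.loc h' (fun h6 => k.2 ?_) hU
    rw [finrank_AVZ, h6]
  · exact k.loc h' hU

theorem CombOf.mono {κ : Type} {P P' : (X.H [⋀^κ]→ₗ[ℚ] ℚ) → Prop}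
    {φ : (K ⊗[ℚ] X.H) [⋀^κ]→ₗ[K] K} (h : CombOf P φ) (hP : ∀ f, P f → P' f) : CombOf P' φ := by
  obtain ⟨n, c, f, h1, h2⟩ := h
  exact ⟨n, c, f, fun j => hP _ (h1 j), h2⟩

end tate

end

end Pool.Agent.R915
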