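import Mathlib
import Pool.Agent.R915.X6

/-!
# Tate classes on products of abelian varieties: the final statements
-/

set_option linter.unusedSectionVars false

namespace Pool.Agent.R915

open Module Pool.Agent.Y90 Pool.Agent.Y224.TS TensorProduct
open Pool.Agent.H204R3.CM (IsHodge)
open Pool.Agent.W547.KB (CMPair CMAV)

noncomputable section

variable {K : Type} [Field K] [CharZero K] [Algebra K ℂ] [Algebra.IsAlgebraic K ℂ] {Γ : Type}
  [Group Γ] (X : AV) {E : X.H → X.H → ℚ} {ρ : Representation K Γ (K ⊗[ℚ] X.H)} {χ : Γ →* K}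

/-- Tate classes belong to the system, for a complex multiplication part in independent blocks. -/
theorem tate_blocks (𝒜 : Sys)
    (hX : ∀ Y, IsFactor Y X → finrank ℚ Y.H ≤ 6 ∨ HasCMult Y ∨ RealOdd Y ∨
      (QuadMult Y ∧ finrank ℚ Y.H ≠ 12))
    (C : CMAV) {J : Type} (b : C.I → J) (hC : Pool.Agent.W547.UB.IndependentBlocks C b)
    (h1 : ∀ Y, IsFactor Y X → HasCMult Y → ∃ i, IsOfType Y (C.factor i))
    (h2 : ∀ (Y E : AV) (d : ℚ), IsFactor Y X → ¬ HasCMult Y → Unbalanced Y d →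
      finrank ℚ E.H = 2 → Unbalanced E d → ∃ i, IsOfType E (C.factor i))
    (hE : St.IsPolarization X.per E) (hρ : St.IsTateModule X.per E ρ χ) {κ : Type} [Finite κ]
    {m : ℕ} {φ : (K ⊗[ℚ] X.H) [⋀^κ]→ₗ[K] K} (hφ : IsTateForm ρ χ φ m) :
    CombOf (𝒜.A X κ) φ := by
  refine (tate_class X (fun Y hY => ?_) hE hρ hφ).mono X fun f hf =>
    blocks_all' 𝒜 X (fun Y hY => ?_) C b hC h1 h2 κ f hf
  · rcases hX Y hY with k | k | k | k
    exacts [Or.inl k, Or.inr (Or.inl k), Or.inr (Or.inr (Or.inl k)),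
      Or.inr (Or.inr (Or.inr (Or.inl k)))]
  · rcases hX Y hY with k | k | k | k
    exacts [Or.inl k, Or.inr (Or.inl k), Or.inr (Or.inr (Or.inr (Or.inl k))),
      Or.inr (Or.inr (Or.inl k.1))]

/-- The reduction to the complex multiplication part and to Weil classes. -/
theorem tate_weil (𝒜 : Sys)
    (hX : ∀ Y, IsFactor Y X → finrank ℚ Y.H ≤ 6 ∨ HasCMult Y ∨ RealOdd Y ∨
      ∃ d h, QuadTate Y d h)
    (H1 : ∀ (Q : Type) [Fintype Q] [DecidableEq Q] (a : Q → ℕ)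
      (Z' : ∀ q, Matrix (Fin (a q)) (Fin (a q)) ℂ) (h' : ∀ q, PM (Z' q)),
      (∀ q, CMFactor X (AVZ (h' q))) → 𝒜.AllHodge (AVQ h'))
    (H2 : ∀ (Y X' : AV) (d : ℚ) (h : Y.H →ₗ[ℚ] Y.H), IsSimple Y → QuadTate Y d h →
      ¬ QuadMult Y → WeilExt Y d h X' → 𝒜.AllWeil X')
    (hE : St.IsPolarization X.per E) (hρ : St.IsTateModule X.per E ρ χ) {κ : Type} [Finite κ]
    {m : ℕ} {φ : (K ⊗[ℚ] X.H) [⋀^κ]→ₗ[K] K} (hφ : IsTateForm ρ χ φ m) :
    CombOf (𝒜.A X κ) φ := by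
  refine (tate_class X (fun Y hY => ?_) hE hρ hφ).mono X fun f hf =>
    weil_all 𝒜 X (fun Y d h => QuadTate Y d h) (fun Y hY => ?_) H1 H2 κ f hf
  · rcases hX Y hY with k | k | k | k
    exacts [Or.inl k, Or.inr (Or.inl k), Or.inr (Or.inr (Or.inl k)),
      Or.inr (Or.inr (Or.inr (Or.inr k)))]
  · rcases hX Y hY with k | k | k | ⟨d, h, k⟩
    exacts [Or.inl k, Or.inr (Or.inl k), Or.inr (Or.inr (Or.inl k)),
      Or.inr (Or.inr (Or.inr (Or.inr ⟨d, h, k.full, k⟩)))]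

/-- The reduction to codimension two for complex multiplication and to Weil classes. -/
theorem tate_codim_two (𝒜 : Sys)
    (hX : ∀ Y, IsFactor Y X → finrank ℚ Y.H ≤ 6 ∨ HasCMult Y ∨ RealOdd Y ∨
      ∃ d h, QuadTate Y d h)
    (H4 : ∀ X : AV, (∀ Y, IsFactor Y X → HasCMult Y) → ∀ f : X.H [⋀^Fin 4]→ₗ[ℚ] ℚ,
      IsHodge X.per f → 𝒜.A X (Fin 4) f)
    (H2 : ∀ (Y X' : AV) (d : ℚ) (h : Y.H →ₗ[ℚ] Y.H), IsSimple Y → QuadTate Y d h →
      ¬ QuadMult Y → WeilExt Y d h X' → 𝒜.AllWeil X')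
    (hE : St.IsPolarization X.per E) (hρ : St.IsTateModule X.per E ρ χ) {κ : Type} [Finite κ]
    {m : ℕ} {φ : (K ⊗[ℚ] X.H) [⋀^κ]→ₗ[K] K} (hφ : IsTateForm ρ χ φ m) :
    CombOf (𝒜.A X κ) φ :=
  tate_weil X 𝒜 hX (fun Q _ _ a Z' h' hc => cm_part 𝒜 H4 X Q a Z' h' hc) H2 hE hρ hφ

/-- Tate classes are generated by divisors and Weil classes, for a complex multiplication part in
independent blocks. -/
theorem tate_algW
    (hX : ∀ Y, IsFactor Y X → finrank ℚ Y.H ≤ 6 ∨ HasCMult Y ∨ RealOdd Y ∨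
      ∃ d h, QuadTate Y d h)
    (C : CMAV) {J : Type} (b : C.I → J) (hC : Pool.Agent.W547.UB.IndependentBlocks C b)
    (h1 : ∀ Y, IsFactor Y X → HasCMult Y → ∃ i, IsOfType Y (C.factor i))
    (h2 : ∀ (Y E : AV) (d : ℚ), IsFactor Y X → ¬ HasCMult Y → Unbalanced Y d →
      finrank ℚ E.H = 2 → Unbalanced E d → ∃ i, IsOfType E (C.factor i))
    (hE : St.IsPolarization X.per E) (hρ : St.IsTateModule X.per E ρ χ) {κ : Type} [Finite κ]
    {m : ℕ} {φ : (K ⊗[ℚ] X.H) [⋀^κ]→ₗ[K] K} (hφ : IsTateForm ρ χ φ m) :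
    CombOf (AlgW X κ) φ := by
  refine tate_weil X algWSys hX (fun Q _ _ a Z' h' hc => prod_blocks algWSys hC h' fun q => ?_)
    (fun _ _ _ _ _ _ _ _ _ f hf => AlgW.weil f hf) hE hρ hφ
  obtain ⟨h3, h4, h5 | ⟨h5, d, h6, Y', hY', hn, h7⟩⟩ := hc q
  · exact h1 _ h5 h4
  · exact h2 Y' _ d hY' hn h7 h5 h6

end

end Pool.Agent.R915
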